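import Mathlib

set_option autoImplicit false

namespace Pool.Agent.Lib.H11BackForth

open Set

/-- Abstract back-and-forth for binary compatibility relations on `ℕ × ℕ`. -/
theorem back_and_forth (R : ℕ × ℕ → ℕ × ℕ → Prop)
    (hinj : ∀ u v, R u v → (u.1 = v.1 ↔ u.2 = v.2))
    (forth : ∀ p : Finset (ℕ × ℕ), (∀ u ∈ p, ∀ v ∈ p, R u v) → ∀ a, ∃ b,
      ∀ u ∈ insert (a, b) p, ∀ v ∈ insert (a, b) p, R u v)
    (back : ∀ p : Finset (ℕ × ℕ), (∀ u ∈ p, ∀ v ∈ p, R u v) → ∀ b, ∃ a,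
      ∀ u ∈ insert (a, b) p, ∀ v ∈ insert (a, b) p, R u v)
    (p₀ : Finset (ℕ × ℕ)) (h₀ : ∀ u ∈ p₀, ∀ v ∈ p₀, R u v) :
    ∃ e : ℕ ≃ ℕ, (∀ u ∈ p₀, e u.1 = u.2) ∧ ∀ a a', R (a, e a) (a', e a') := by
  have step : ∀ (n : ℕ) (p : {p : Finset (ℕ × ℕ) // ∀ u ∈ p, ∀ v ∈ p, R u v}),
      ∃ q : {p : Finset (ℕ × ℕ) // ∀ u ∈ p, ∀ v ∈ p, R u v},
        p.1 ⊆ q.1 ∧ (∃ b, (n, b) ∈ q.1) ∧ ∃ a, (a, n) ∈ q.1 := by
    intro n p
    obtain ⟨b, hb⟩ := forth p.1 p.2 n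
    obtain ⟨a, ha⟩ := back _ hb n
    refine ⟨⟨_, ha⟩, ?_, ⟨b, ?_⟩, ⟨a, ?_⟩⟩
    · exact (Finset.subset_insert _ _).trans (Finset.subset_insert _ _)
    · simp
    · simp
  choose F hF using step
  let P : ℕ → {p : Finset (ℕ × ℕ) // ∀ u ∈ p, ∀ v ∈ p, R u v} :=
    fun n => Nat.rec ⟨p₀, h₀⟩ (fun n p => F n p) n
  have hP : ∀ n, P (n + 1) = F n (P n) := fun n => rfl
  have hmono : Monotone (fun n => (P n).1) :=
    monotone_nat_of_le_succ fun n => by rw [hP]; exact (hF n (P n)).1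
  have hR : ∀ m n, ∀ u ∈ (P m).1, ∀ v ∈ (P n).1, R u v := by
    intro m n u hu v hv
    exact (P (max m n)).2 u (hmono (le_max_left m n) hu) v (hmono (le_max_right m n) hv)
  have hf : ∀ a, ∃ b, (a, b) ∈ (P (a + 1)).1 := fun a => by rw [hP]; exact (hF a (P a)).2.1
  have hg : ∀ b, ∃ a, (a, b) ∈ (P (b + 1)).1 := fun b => by rw [hP]; exact (hF b (P b)).2.2
  choose f hf using hf
  choose g hg using hg
  refine ⟨⟨f, g, fun a => ?_, fun b => ?_⟩, ?_, ?_⟩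
  · have h := hinj _ _ (hR (f a + 1) (a + 1) _ (hg (f a)) _ (hf a))
    exact h.2 rfl
  · have h := hinj _ _ (hR (g b + 1) (b + 1) _ (hf (g b)) _ (hg b))
    exact h.1 rfl
  · intro u hu
    have h := hinj _ _ (hR (u.1 + 1) 0 _ (hf u.1) u hu)
    exact h.1 rfl
  · intro a a'
    exact hR (a + 1) (a' + 1) _ (hf a) _ (hf a')

/-- Labelled extension property. -/
def Ext {L : Type} (allowed : L → L → Prop) (Γ : SimpleGraph ℕ) (l : ℕ → L) : Prop :=
  (∀ x y, Γ.Adj x y → allowed (l x) (l y)) ∧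
  ∀ (T U : Finset ℕ) (m : L), (∀ u ∈ U, allowed (l u) m) →
    ∃ z, z ∉ T ∧ l z = m ∧ ∀ t ∈ T, (Γ.Adj t z ↔ t ∈ U)

def Compat {L : Type} (Γ Γ' : SimpleGraph ℕ) (l l' : ℕ → L) (u v : ℕ × ℕ) : Prop :=
  (u.1 = v.1 ↔ u.2 = v.2) ∧ l u.1 = l' u.2 ∧ l v.1 = l' v.2 ∧ (Γ.Adj u.1 v.1 ↔ Γ'.Adj u.2 v.2)

lemma Compat.symm {L : Type} {Γ Γ' : SimpleGraph ℕ} {l l' : ℕ → L} {u v : ℕ × ℕ}
    (h : Compat Γ Γ' l l' u v) : Compat Γ Γ' l l' v u :=
  ⟨by rw [eq_comm, h.1, eq_comm], h.2.2.1, h.2.1, by rw [Γ.adj_comm, h.2.2.2, Γ'.adj_comm]⟩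

lemma Compat.swap {L : Type} {Γ Γ' : SimpleGraph ℕ} {l l' : ℕ → L} {u v : ℕ × ℕ}
    (h : Compat Γ Γ' l l' u v) : Compat Γ' Γ l' l u.swap v.swap :=
  ⟨h.1.symm, h.2.1.symm, h.2.2.1.symm, h.2.2.2.symm⟩

lemma forth_aux {L : Type} {allowed : L → L → Prop} {Γ Γ' : SimpleGraph ℕ} {l l' : ℕ → L}
    (h : Ext allowed Γ l) (h' : Ext allowed Γ' l') (p : Finset (ℕ × ℕ))
    (hp : ∀ u ∈ p, ∀ v ∈ p, Compat Γ Γ' l l' u v) (a : ℕ) :
    ∃ b, ∀ u ∈ insert (a, b) p, ∀ v ∈ insert (a, b) p, Compat Γ Γ' l l' u v := by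
  classical
  by_cases ha : ∃ b, (a, b) ∈ p
  · obtain ⟨b, hb⟩ := ha
    refine ⟨b, ?_⟩
    rw [Finset.insert_eq_of_mem hb]
    exact hp
  · obtain ⟨z, hzT, hzl, hz⟩ := h'.2 (p.image Prod.snd)
      ((p.filter (fun u => Γ.Adj u.1 a)).image Prod.snd) (l a) (by
        intro t ht
        obtain ⟨u, hu, rfl⟩ := Finset.mem_image.1 ht
        rw [Finset.mem_filter] at hu
        rw [← (hp u hu.1 u hu.1).2.1]
        exact h.1 _ _ hu.2)
    have key : ∀ u ∈ p, Compat Γ Γ' l l' u (a, z) := by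
      intro u hu
      refine ⟨?_, (hp u hu u hu).2.1, hzl.symm, ?_⟩
      · constructor
        · intro h1
          exact absurd ⟨u.2, by simp only at h1; rw [← h1]; exact hu⟩ ha
        · intro h1
          exact absurd (Finset.mem_image.2 ⟨u, hu, h1⟩) hzT
      · rw [hz u.2 (Finset.mem_image.2 ⟨u, hu, rfl⟩)]
        constructor
        · intro h1
          exact Finset.mem_image.2 ⟨u, Finset.mem_filter.2 ⟨hu, h1⟩, rfl⟩
        · intro h1
          obtain ⟨v, hv, hvu⟩ := Finset.mem_image.1 h1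
          rw [Finset.mem_filter] at hv
          have := (hp u hu v hv.1).1.2 hvu.symm
          rw [this]
          exact hv.2
    refine ⟨z, ?_⟩
    intro u hu v hv
    rw [Finset.mem_insert] at hu hv
    rcases hu with rfl | hu <;> rcases hv with rfl | hv
    · exact ⟨by simp, hzl.symm, hzl.symm, by simp⟩
    · exact (key v hv).symm
    · exact key u hu
    · exact hp u hu v hv

theorem exists_iso {L : Type} {allowed : L → L → Prop} {Γ Γ' : SimpleGraph ℕ} {l l' : ℕ → L}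
    (h : Ext allowed Γ l) (h' : Ext allowed Γ' l') (p₀ : Finset (ℕ × ℕ))
    (h₀ : ∀ u ∈ p₀, ∀ v ∈ p₀, Compat Γ Γ' l l' u v) :
    ∃ e : ℕ ≃ ℕ, (∀ u ∈ p₀, e u.1 = u.2) ∧ (∀ a, l' (e a) = l a) ∧
      ∀ a a', Γ'.Adj (e a) (e a') ↔ Γ.Adj a a' := by
  obtain ⟨e, he, he'⟩ := back_and_forth (Compat Γ Γ' l l') (fun u v h => h.1)
    (forth_aux h h') (by
      intro p hp b
      obtain ⟨a, ha⟩ := forth_aux h' h (p.image Prod.swap) (by
        intro u hu v hv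
        obtain ⟨u', hu', rfl⟩ := Finset.mem_image.1 hu
        obtain ⟨v', hv', rfl⟩ := Finset.mem_image.1 hv
        exact (hp u' hu' v' hv').swap) b
      refine ⟨a, fun u hu v hv => ?_⟩
      have hm : ∀ w ∈ insert (a, b) p, w.swap ∈ insert (b, a) (p.image Prod.swap) := by
        intro w hw
        rw [Finset.mem_insert] at hw ⊢
        rcases hw with rfl | hw
        · exact Or.inl rfl
        · exact Or.inr (Finset.mem_image_of_mem _ hw)
      exact (ha _ (hm u hu) _ (hm v hv)).swap) p₀ h₀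
  exact ⟨e, he, fun a => (he' a a).2.1.symm, fun a a' => (he' a a').2.2.2.symm⟩

/-- numbers with prescribed low bits -/
lemma exists_bits (T U : Finset ℕ) : ∃ a : ℕ, (∀ t ∈ T, t < a) ∧
    ∀ t ∈ T, (a.testBit t = true ↔ t ∈ U) := by
  classical
  obtain ⟨N, hN⟩ := T.bddAbove
  refine ⟨Nat.ofBits (n := N + 2) (fun i => decide ((i : ℕ) = N + 1 ∨ (i : ℕ) ∈ U)), ?_, ?_⟩
  · intro t ht
    have h1 : (Nat.ofBits (n := N + 2)
        (fun i => decide ((i : ℕ) = N + 1 ∨ (i : ℕ) ∈ U))).testBit (N + 1) = true := by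
      rw [Nat.testBit_ofBits_lt _ _ (by omega)]
      simp
    have h2 := Nat.ge_two_pow_of_testBit h1
    have h3 : N + 1 < 2 ^ (N + 1) := Nat.lt_two_pow_self
    have h4 : t ≤ N := hN ht
    omega
  · intro t ht
    have h4 : t ≤ N := hN ht
    rw [Nat.testBit_ofBits_lt _ _ (by omega)]
    simp only [decide_eq_true_eq]
    constructor
    · rintro (h | h)
      · omega
      · exact h
    · exact Or.inr

/-- The bit model of the Rado graph has the extension property. -/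
lemma ext_bit : Ext (fun _ _ : Unit => True)
    (SimpleGraph.fromRel (fun i j : ℕ => Nat.testBit j i = true)) (fun _ => ()) := by
  refine ⟨fun _ _ _ => trivial, ?_⟩
  intro T U m _
  obtain ⟨a, ha, ha'⟩ := exists_bits T U
  refine ⟨a, fun h => lt_irrefl _ (ha a h), rfl, ?_⟩
  intro t ht
  rw [SimpleGraph.fromRel_adj, ← ha' t ht]
  have h1 : t.testBit a = false :=
    Nat.testBit_lt_two_pow ((ha t ht).trans Nat.lt_two_pow_self)
  constructor
  · rintro ⟨-, h | h⟩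
    · exact h
    · rw [h1] at h; exact absurd h (by simp)
  · intro h
    exact ⟨(ha t ht).ne, Or.inl h⟩

end Pool.Agent.Lib.H11BackForth
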