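import Mathlib

set_option autoImplicit false

namespace Pool.Agent.Lib.H11Chihara

open Finset Complex

section general

variable (α β : ℕ → ℝ)

def opA (x : ℕ → ℂ) (n : ℕ) : ℂ := α n * x n + β n * x (n + 1)

def aa (n : ℕ) : ℝ := α n * β n

def bb (n : ℕ) : ℝ := α n ^ 2 + (if n = 0 then 0 else β (n - 1) ^ 2)

def opC (x : ℕ → ℂ) (k : ℕ) : ℂ :=
  (if k = 0 then (0 : ℂ) else (aa α β (k - 1) : ℂ) * x (k - 1)) + (bb α β k : ℂ) * x k
    + (aa α β k : ℂ) * x (k + 1)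

lemma opC_zero (x : ℕ → ℂ) : opC α β x 0 = α 0 * opA α β x 0 := by
  simp [opC, opA, aa, bb]; ring

lemma opC_succ (x : ℕ → ℂ) (k : ℕ) :
    opC α β x (k + 1) = α (k + 1) * opA α β x (k + 1) + β k * opA α β x k := by
  simp [opC, opA, aa, bb]; ring

lemma sum_parts (x z : ℕ → ℂ) (M : ℕ) :
    ∑ k ∈ range (M + 1), (starRingEnd ℂ) (z k) * opC α β x k =
      ∑ k ∈ range M, (starRingEnd ℂ) (opA α β z k) * opA α β x k
        + α M * (starRingEnd ℂ) (z M) * opA α β x M := by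
  induction M with
  | zero => simp [opC_zero]; ring
  | succ M ih =>
    rw [sum_range_succ, ih, sum_range_succ, opC_succ]
    simp only [opA, map_add, map_mul, conj_ofReal]
    ring

lemma re_conj_sub_add (p q : ℂ) :
    ((starRingEnd ℂ) (q - p) * (p + q)).re = ‖q‖ ^ 2 - ‖p‖ ^ 2 := by
  rw [Complex.sq_norm, Complex.sq_norm, normSq_apply, normSq_apply]
  simp; ring

lemma re_le_amgm (z w : ℂ) (l : ℝ) (hl : 0 < l) :
    ((starRingEnd ℂ) z * w).re ≤ l / 2 * ‖z‖ ^ 2 + 1 / (2 * l) * ‖w‖ ^ 2 := by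
  have h1 : ((starRingEnd ℂ) z * w).re ≤ ‖z‖ * ‖w‖ := by
    refine (re_le_norm _).trans ?_
    rw [norm_mul, RCLike.norm_conj]
  refine h1.trans ?_
  have h2 : l / 2 * ‖z‖ ^ 2 + 1 / (2 * l) * ‖w‖ ^ 2 - ‖z‖ * ‖w‖
      = 1 / (2 * l) * (l * ‖z‖ - ‖w‖) ^ 2 := by
    field_simp; ring
  have h3 : 0 ≤ 1 / (2 * l) * (l * ‖z‖ - ‖w‖) ^ 2 := by positivity
  linarith

lemma norm_add_sq_le (p q : ℂ) : ‖p + q‖ ^ 2 ≤ 2 * (‖p‖ ^ 2 + ‖q‖ ^ 2) := by
  have := norm_add_le p q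
  nlinarith [norm_nonneg (p + q), norm_nonneg p, norm_nonneg q, sq_nonneg (‖p‖ - ‖q‖)]

lemma norm_sub_sq_le (p q : ℂ) : ‖q - p‖ ^ 2 ≤ 2 * (‖p‖ ^ 2 + ‖q‖ ^ 2) := by
  have := norm_add_sq_le (-p) q
  rw [norm_neg] at this
  rwa [show q - p = -p + q by ring]

/-- The gap lemma. -/
lemma gap (p q : ℕ → ℂ) (M : ℕ) (hp : p M = 0) (hq : q M = 0) (t c : ℝ) (hc : 0 < c)
    (h1 : (t + c) * ∑ k ∈ range M, ‖q k‖ ^ 2 ≤ ∑ k ∈ range M, ‖opA α β q k‖ ^ 2)
    (h2 : ∑ k ∈ range M, ‖opA α β p k‖ ^ 2 ≤ (t - c) * ∑ k ∈ range M, ‖p k‖ ^ 2) :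
    c ^ 2 / 4 * ∑ k ∈ range M, ‖p k + q k‖ ^ 2 ≤
      ∑ k ∈ range (M + 1), ‖opC α β (fun n => p n + q n) k - t * (p k + q k)‖ ^ 2 := by
  set P := ∑ k ∈ range M, ‖p k‖ ^ 2 with hP
  set Q := ∑ k ∈ range M, ‖q k‖ ^ 2 with hQ
  set W := ∑ k ∈ range (M + 1), ‖opC α β (fun n => p n + q n) k - t * (p k + q k)‖ ^ 2 with hW
  have hX : ∑ k ∈ range M, ‖p k + q k‖ ^ 2 ≤ 2 * (P + Q) := by
    rw [hP, hQ, ← sum_add_distrib, mul_sum]
    exact sum_le_sum fun k _ => norm_add_sq_le _ _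
  have hZ : ∑ k ∈ range (M + 1), ‖q k - p k‖ ^ 2 ≤ 2 * (P + Q) := by
    rw [sum_range_succ, hp, hq, hP, hQ, ← sum_add_distrib, mul_sum]
    simp only [sub_self, norm_zero, ne_eq, OfNat.ofNat_ne_zero, not_false_eq_true, zero_pow,
      add_zero]
    exact sum_le_sum fun k _ => norm_sub_sq_le _ _
  have hA : ∀ k, opA α β (fun n => p n + q n) k = opA α β p k + opA α β q k := by
    intro k; simp only [opA]; ring
  have hA' : ∀ k, opA α β (fun n => q n - p n) k = opA α β q k - opA α β p k := by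
    intro k; simp only [opA]; ring
  have hid : (∑ k ∈ range (M + 1), (starRingEnd ℂ) (q k - p k) *
      (opC α β (fun n => p n + q n) k - t * (p k + q k))).re =
      (∑ k ∈ range M, ‖opA α β q k‖ ^ 2 - ∑ k ∈ range M, ‖opA α β p k‖ ^ 2) - t * (Q - P) := by
    have e1 : ∑ k ∈ range (M + 1), (starRingEnd ℂ) (q k - p k) *
        (opC α β (fun n => p n + q n) k - t * (p k + q k)) =
        ∑ k ∈ range (M + 1), (starRingEnd ℂ) (q k - p k) * opC α β (fun n => p n + q n) k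
          - t * ∑ k ∈ range (M + 1), (starRingEnd ℂ) (q k - p k) * (p k + q k) := by
      rw [mul_sum, ← sum_sub_distrib]
      exact sum_congr rfl fun k _ => by ring
    rw [e1, sum_parts α β (fun n => p n + q n) (fun n => q n - p n) M, sum_range_succ, hp, hq]
    simp only [sub_self, map_zero, mul_zero, zero_mul, add_zero, sub_re, re_ofReal_mul, re_sum,
      hA, hA', re_conj_sub_add]
    rw [sum_sub_distrib, sum_sub_distrib]
  have hle : (∑ k ∈ range (M + 1), (starRingEnd ℂ) (q k - p k) *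
      (opC α β (fun n => p n + q n) k - t * (p k + q k))).re ≤
      (c / 2) / 2 * ∑ k ∈ range (M + 1), ‖q k - p k‖ ^ 2 + 1 / (2 * (c / 2)) * W := by
    rw [re_sum, hW, mul_sum, mul_sum, ← sum_add_distrib]
    exact sum_le_sum fun k _ => re_le_amgm _ _ _ (by positivity)
  have h3 : c * (P + Q) ≤ c / 2 * (P + Q) + 1 / c * W := by
    have e : 1 / (2 * (c / 2)) = 1 / c := by congr 1; ring
    rw [e] at hle
    nlinarith
  have h4 : c ^ 2 / 2 * (P + Q) ≤ W := by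
    have h5 : c / 2 * (P + Q) ≤ 1 / c * W := by linarith
    have h6 := mul_le_mul_of_nonneg_left h5 hc.le
    have e : c * (1 / c * W) = W := by field_simp
    rw [e] at h6
    nlinarith
  have : 0 ≤ c ^ 2 / 4 := by positivity
  nlinarith

lemma normC_le (x : ℕ → ℂ) (M : ℕ) (v : ℕ → ℝ) (hα : ∀ n, α n ^ 2 ≤ v n) (hβ : ∀ n, β n ^ 2 ≤ v n) :
    ∑ k ∈ range (M + 1), ‖opC α β x k‖ ^ 2 ≤
      4 * ∑ k ∈ range M, v k * ‖opA α β x k‖ ^ 2 + 2 * (v M * ‖opA α β x M‖ ^ 2) := by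
  have hn : ∀ (r : ℝ) (z : ℂ), ‖(r : ℂ) * z‖ ^ 2 = r ^ 2 * ‖z‖ ^ 2 := by
    intro r z; rw [norm_mul, mul_pow, norm_real, Real.norm_eq_abs, sq_abs]
  induction M with
  | zero =>
    simp only [zero_add, range_one, sum_singleton, range_zero, sum_empty, mul_zero, opC_zero, hn]
    have := hα 0
    nlinarith [sq_nonneg ‖opA α β x 0‖, sq_nonneg (α 0)]
  | succ M ih =>
    rw [sum_range_succ, sum_range_succ (fun k => v k * ‖opA α β x k‖ ^ 2), opC_succ]
    have h1 := norm_add_sq_le ((α (M + 1) : ℂ) * opA α β x (M + 1)) (β M * opA α β x M)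
    rw [hn, hn] at h1
    have h2 := mul_le_mul_of_nonneg_right (hα (M + 1)) (sq_nonneg ‖opA α β x (M + 1)‖)
    have h3 := mul_le_mul_of_nonneg_right (hβ M) (sq_nonneg ‖opA α β x M‖)
    linarith

/-- Carleman's criterion in the form needed here. -/
lemma deficiency (N : ℕ) (hpos : ∀ n, 0 < aa α β n) (hle : ∀ n, aa α β n ≤ (n + N : ℕ))
    (u : ℕ → ℂ) (hu : Summable (fun k => ‖u k‖ ^ 2)) (h : ∀ k, opC α β u k = I * u k) :
    u = 0 := by
  by_contra hne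
  obtain ⟨j, hj⟩ := Function.ne_iff.1 hne
  have hδ : 0 < ‖u j‖ ^ 2 := by
    have : u j ≠ 0 := hj
    positivity
  have key : ∀ M, ∑ k ∈ range (M + 1), ‖u k‖ ^ 2 ≤
      aa α β M * ((‖u M‖ ^ 2 + ‖u (M + 1)‖ ^ 2) / 2) := by
    intro M
    have e := congrArg Complex.im (sum_parts α β u u M)
    have e1 : (∑ k ∈ range (M + 1), (starRingEnd ℂ) (u k) * opC α β u k).im =
        ∑ k ∈ range (M + 1), ‖u k‖ ^ 2 := by
      rw [im_sum]
      refine sum_congr rfl fun k _ => ?_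
      rw [h, Complex.sq_norm, normSq_apply]
      simp
    have e2 : (∑ k ∈ range M, (starRingEnd ℂ) (opA α β u k) * opA α β u k).im = 0 := by
      rw [im_sum]
      refine sum_eq_zero fun k _ => ?_
      simp; ring
    have e3 : ((α M : ℂ) * (starRingEnd ℂ) (u M) * opA α β u M).im =
        aa α β M * ((starRingEnd ℂ) (u M) * u (M + 1)).im := by
      simp [opA, aa]; ring
    rw [e1, add_im, e2, e3, zero_add] at e
    rw [e]
    refine mul_le_mul_of_nonneg_left ?_ (hpos M).le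
    have h1 : ((starRingEnd ℂ) (u M) * u (M + 1)).im ≤ ‖u M‖ * ‖u (M + 1)‖ := by
      refine (im_le_norm _).trans ?_
      rw [norm_mul, RCLike.norm_conj]
    nlinarith [sq_nonneg (‖u M‖ - ‖u (M + 1)‖)]
  have hs : Summable (fun M : ℕ => (‖u (M + j)‖ ^ 2 + ‖u (M + j + 1)‖ ^ 2) / 2) := by
    refine Summable.div_const (Summable.add ?_ ?_) 2
    · exact (summable_nat_add_iff j).2 hu
    · exact (summable_nat_add_iff (f := fun k => ‖u k‖ ^ 2) (j + 1)).2 hu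
  have hs2 : Summable (fun M : ℕ => ‖u j‖ ^ 2 * (1 / ((M + (j + N) : ℕ) : ℝ))) := by
    refine Summable.of_nonneg_of_le (fun M => by positivity) (fun M => ?_) hs
    have h1 : ‖u j‖ ^ 2 ≤ ∑ k ∈ range (M + j + 1), ‖u k‖ ^ 2 :=
      single_le_sum (f := fun k => ‖u k‖ ^ 2) (fun k _ => sq_nonneg _) (mem_range.2 (by omega))
    have h2 := key (M + j)
    have h3 := hle (M + j)
    have h4 := hpos (M + j)
    have h5 : (0 : ℝ) < ((M + (j + N) : ℕ) : ℝ) := by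
      rw [← add_assoc]; linarith
    rw [mul_one_div, div_le_iff₀ h5, ← add_assoc]
    have h6 : 0 ≤ (‖u (M + j)‖ ^ 2 + ‖u (M + j + 1)‖ ^ 2) / 2 := by positivity
    nlinarith
  have hs3 := (summable_mul_left_iff hδ.ne').1 hs2
  exact Real.not_summable_one_div_natCast
    ((summable_nat_add_iff (f := fun n : ℕ => 1 / (n : ℝ)) (j + N)).1 hs3)

end general

end Pool.Agent.Lib.H11Chihara
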