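import Pool.Agent.Lib.helper11.ChiharaA

set_option autoImplicit false

namespace Pool.Agent.Lib.H11Chihara

open Finset Complex Filter

@[irreducible] def kk (n : ℕ) : ℕ := Nat.log 2 (n + 1024)
@[irreducible] def hh (n : ℕ) : ℕ := 2 ^ (kk n - 1)
@[irreducible] def cc (n : ℕ) : ℕ := 3 * hh n - 1024
noncomputable def al (n : ℕ) : ℝ := if n < cc n then (kk n : ℝ) else (kk n : ℝ) - 1
noncomputable def be (n : ℕ) : ℝ := if n < cc n then (kk n : ℝ) - 1 else (kk n : ℝ)
noncomputable def rho (k : ℕ) : ℝ := -(((k : ℝ) - 1) / k)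
noncomputable def gg (n : ℕ) : ℝ :=
  if n < cc n then rho (kk n) ^ (cc n - n) else rho (kk n) ^ (n - cc n)

lemma kk_ge (n : ℕ) : 10 ≤ kk n := by
  unfold kk
  exact Nat.le_log_of_pow_le (by norm_num) (by omega)

lemma two_hh (n : ℕ) : 2 * hh n = 2 ^ kk n := by
  have := kk_ge n
  unfold hh
  rw [← pow_succ']
  congr 1; omega

lemma hh_lo (n : ℕ) : 2 * hh n ≤ n + 1024 := by
  rw [two_hh]; unfold kk; exact Nat.pow_log_le_self 2 (by omega)

lemma hh_hi (n : ℕ) : n + 1024 < 4 * hh n := by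
  have h := Nat.lt_pow_succ_log_self (b := 2) (by norm_num) (n + 1024)
  have h2 := two_hh n
  unfold kk at h2
  rw [Nat.succ_eq_add_one, pow_succ] at h
  omega

lemma hh_ge (n : ℕ) : 512 ≤ hh n := by
  have := kk_ge n
  unfold hh
  calc 512 = 2 ^ 9 := by norm_num
    _ ≤ _ := Nat.pow_le_pow_right (by norm_num) (by omega)

lemma kk_eq {n k : ℕ} (h1 : 2 ^ k ≤ n + 1024) (h2 : n + 1024 < 2 ^ (k + 1)) : kk n = k := by
  unfold kk; exact Nat.log_eq_of_pow_le_of_lt_pow h1 h2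

lemma kk_eq' {n m : ℕ} (h1 : 2 * hh m ≤ n + 1024) (h2 : n + 1024 < 4 * hh m) : kk n = kk m := by
  apply kk_eq
  · rw [← two_hh]; exact h1
  · rw [pow_succ, ← two_hh]; omega

lemma kk_cc (n : ℕ) : kk (cc n) = kk n := by
  have := hh_ge n
  apply kk_eq' <;> unfold cc <;> omega

lemma hh_congr {n m : ℕ} (h : kk n = kk m) : hh n = hh m := by unfold hh; rw [h]
lemma cc_congr {n m : ℕ} (h : kk n = kk m) : cc n = cc m := by unfold cc; rw [hh_congr h]

lemma cc_cc (n : ℕ) : cc (cc n) = cc n := cc_congr (kk_cc n)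

lemma gg_of_eq {n : ℕ} (h : n = cc n) : gg n = 1 := by
  unfold gg
  rw [if_neg (by omega), show n - cc n = 0 by omega, pow_zero]

lemma gg_cc (n : ℕ) : gg (cc n) = 1 := gg_of_eq (cc_cc n).symm

/-- boundary rows -/
def Bd (n : ℕ) : Prop := n + 1025 = 4 * hh n

lemma kk_succ_of_not_bd {n : ℕ} (h : ¬ Bd n) : kk (n + 1) = kk n := by
  have h1 := hh_lo n
  have h2 := hh_hi n
  unfold Bd at h
  apply kk_eq' <;> omega

lemma kk_succ_of_bd {n : ℕ} (h : Bd n) : kk (n + 1) = kk n + 1 := by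
  have h3 := two_hh n
  have h4 := hh_ge n
  unfold Bd at h
  apply kk_eq
  · rw [pow_succ]; omega
  · rw [pow_succ, pow_succ]; omega

lemma hh_succ_of_bd {n : ℕ} (h : Bd n) : hh (n + 1) = 2 * hh n := by
  rw [two_hh]; unfold hh; rw [kk_succ_of_bd h]; simp

lemma kkR (n : ℕ) : (10 : ℝ) ≤ kk n := by exact_mod_cast kk_ge n

lemma interior {n : ℕ} (h : ¬ Bd n) : al n * gg n + be n * gg (n + 1) = 0 := by
  have h1 := kk_succ_of_not_bd h
  have h2 := cc_congr h1
  have hk := kkR n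
  have hk0 : (kk n : ℝ) ≠ 0 := by linarith
  unfold al be gg
  rw [h1, h2]
  by_cases hn : n < cc n
  · rw [if_pos hn, if_pos hn, if_pos hn]
    have e : (if n + 1 < cc n then rho (kk n) ^ (cc n - (n + 1)) else rho (kk n) ^ (n + 1 - cc n))
        = rho (kk n) ^ (cc n - (n + 1)) := by
      split_ifs with h3
      · rfl
      · congr 1; omega
    rw [e, show cc n - n = (cc n - (n + 1)) + 1 by omega, pow_succ]
    unfold rho
    field_simp
    ring
  · rw [if_neg hn, if_neg hn, if_neg hn, if_neg (by omega),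
      show n + 1 - cc n = (n - cc n) + 1 by omega, pow_succ]
    unfold rho
    field_simp
    ring

lemma bern (k : ℝ) (hk : 2 ≤ k) (L : ℕ) (hL : 0 < L) : ((k - 1) / k) ^ L ≤ (k - 1) / L := by
  have h1 : (0 : ℝ) < k - 1 := by linarith
  have hLr : (0 : ℝ) < L := by exact_mod_cast hL
  have h2 : 1 + (L : ℝ) * (1 / (k - 1)) ≤ (1 + 1 / (k - 1)) ^ L :=
    one_add_mul_le_pow (by have : 0 < 1 / (k - 1) := by positivity
                           linarith) L
  have h3 : 1 + 1 / (k - 1) = ((k - 1) / k)⁻¹ := by field_simp; ring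
  rw [h3, inv_pow] at h2
  have h4 : 0 < ((k - 1) / k) ^ L := by positivity
  have h5 : (L : ℝ) * (1 / (k - 1)) ≤ (((k - 1) / k) ^ L)⁻¹ := by linarith
  rw [le_inv_comm₀ (by positivity) h4] at h5
  refine h5.trans (le_of_eq ?_)
  field_simp

noncomputable def eta (k : ℕ) : ℝ := (k : ℝ) ^ 2 / ((2 : ℝ) ^ (k - 1) - 1)

lemma rho_sq_pow (k L : ℕ) : (rho k ^ L) ^ 2 = ((((k : ℝ) - 1) / k) ^ L) ^ 2 := by
  unfold rho
  rw [← pow_mul, ← pow_mul, mul_comm L 2, pow_mul, pow_mul, neg_sq]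

lemma bd_bound {n : ℕ} (h : Bd n) :
    (al n * gg n) ^ 2 ≤ eta (kk n) ^ 2 ∧ (be n * gg (n + 1)) ^ 2 ≤ eta (kk n) ^ 2 := by
  have h1 := hh_succ_of_bd h
  have h2 := kk_succ_of_bd h
  have h3 := hh_ge n
  have hk := kkR n
  have hhR : ((hh n : ℕ) : ℝ) = (2 : ℝ) ^ (kk n - 1) := by unfold hh; push_cast; rfl
  have h512 : (512 : ℝ) ≤ hh n := by exact_mod_cast h3
  unfold Bd at h
  have hn : ¬ n < cc n := by unfold cc; omega
  have hn' : n + 1 < cc (n + 1) := by unfold cc; omega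
  have e1 : n - cc n = hh n - 1 := by unfold cc; omega
  have e2 : cc (n + 1) - (n + 1) = 2 * hh n := by unfold cc; omega
  unfold al be gg eta
  rw [if_neg hn, if_neg hn, if_neg hn, if_pos hn', e1, e2, h2, mul_pow, mul_pow, rho_sq_pow,
    rho_sq_pow, ← mul_pow, ← mul_pow, ← hhR]
  have b1 := bern (kk n) (by linarith) (hh n - 1) (by omega)
  have b2 := bern ((kk n + 1 : ℕ) : ℝ) (by push_cast; linarith) (2 * hh n) (by omega)
  have c1 : ((hh n - 1 : ℕ) : ℝ) = hh n - 1 := by rw [Nat.cast_sub (by omega)]; simp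
  rw [c1] at b1
  have p1 : (0 : ℝ) < hh n - 1 := by linarith
  constructor
  · refine pow_le_pow_left₀ (mul_nonneg (by linarith) (pow_nonneg (div_nonneg (by linarith)
      (by linarith)) _)) ?_ 2
    refine (mul_le_mul_of_nonneg_left b1 (by linarith)).trans ?_
    rw [← mul_div_assoc]
    exact div_le_div_of_nonneg_right (by nlinarith) p1.le
  · refine pow_le_pow_left₀ (mul_nonneg (by linarith) (pow_nonneg (div_nonneg
      (by push_cast; linarith) (by positivity)) _)) ?_ 2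
    refine (mul_le_mul_of_nonneg_left b2 (by linarith)).trans ?_
    push_cast
    rw [← mul_div_assoc, div_le_div_iff₀ (by linarith) p1]
    nlinarith

noncomputable def blk (y : ℕ → ℂ) (n : ℕ) : ℂ := y (kk n) * gg n

lemma blk_cc (y : ℕ → ℂ) (n : ℕ) : blk y (cc n) = y (kk n) := by
  unfold blk; rw [kk_cc, gg_cc]; simp

lemma opA_blk_interior (y : ℕ → ℂ) {n : ℕ} (h : ¬ Bd n) : opA al be (blk y) n = 0 := by
  unfold opA blk
  rw [kk_succ_of_not_bd h]
  have : ((al n * gg n + be n * gg (n + 1) : ℝ) : ℂ) = 0 := by rw [interior h]; simp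
  push_cast at this
  linear_combination y (kk n) * this

lemma opA_blk_bd (y : ℕ → ℂ) {n : ℕ} (h : Bd n) : ‖opA al be (blk y) n‖ ^ 2 ≤
    2 * eta (kk n) ^ 2 * (‖blk y (cc n)‖ ^ 2 + ‖blk y (cc (n + 1))‖ ^ 2) := by
  rw [blk_cc, blk_cc]
  have e : opA al be (blk y) n = ((al n * gg n : ℝ) : ℂ) * y (kk n) +
      ((be n * gg (n + 1) : ℝ) : ℂ) * y (kk (n + 1)) := by
    unfold opA blk; push_cast; ring
  rw [e]
  refine (norm_add_sq_le _ _).trans ?_
  have hn : ∀ (r : ℝ) (z : ℂ), ‖(r : ℂ) * z‖ ^ 2 = r ^ 2 * ‖z‖ ^ 2 := by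
    intro r z; rw [norm_mul, mul_pow, norm_real, Real.norm_eq_abs, sq_abs]
  rw [hn, hn]
  obtain ⟨b1, b2⟩ := bd_bound h
  have := mul_le_mul_of_nonneg_right b1 (sq_nonneg ‖y (kk n)‖)
  have := mul_le_mul_of_nonneg_right b2 (sq_nonneg ‖y (kk (n + 1))‖)
  linarith

lemma sum_inj_le (f : ℕ → ℝ) (hf : ∀ n, 0 ≤ f n) (M : ℕ) (hM : ∀ n, M ≤ n → f n = 0)
    (s : Finset ℕ) (e : ℕ → ℕ) (he : Set.InjOn e s) : ∑ n ∈ s, f (e n) ≤ ∑ n ∈ range M, f n := by
  rw [← sum_image he]
  calc ∑ n ∈ s.image e, f n ≤ ∑ n ∈ s.image e ∪ range M, f n :=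
        sum_le_sum_of_subset_of_nonneg subset_union_left fun _ _ _ => hf _
    _ = ∑ n ∈ range M, f n := by
        refine (sum_subset subset_union_right fun n _ hn => hM n ?_).symm
        simpa using hn

lemma blk_bound (y : ℕ → ℂ) (v : ℕ → ℝ) (hv : ∀ n, 0 ≤ v n) (θ : ℝ) (hθ : 0 ≤ θ)
    (hy : ∀ n, Bd n → (y (kk n) = 0 ∧ y (kk n + 1) = 0) ∨ v n * eta (kk n) ^ 2 ≤ θ)
    (M : ℕ) (hM : ∀ n, M ≤ n → blk y n = 0) :
    ∑ n ∈ range M, v n * ‖opA al be (blk y) n‖ ^ 2 ≤ 4 * θ * ∑ n ∈ range M, ‖blk y n‖ ^ 2 := by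
  classical
  have h1 : ∑ n ∈ range M, v n * ‖opA al be (blk y) n‖ ^ 2 =
      ∑ n ∈ (range M).filter Bd, v n * ‖opA al be (blk y) n‖ ^ 2 := by
    refine (sum_filter_of_ne fun n _ hn => ?_).symm
    by_contra hb
    exact hn (by rw [opA_blk_interior y hb]; simp)
  have h2 : ∑ n ∈ (range M).filter Bd, v n * ‖opA al be (blk y) n‖ ^ 2 ≤
      ∑ n ∈ (range M).filter Bd,
        2 * θ * (‖blk y (cc n)‖ ^ 2 + ‖blk y (cc (n + 1))‖ ^ 2) := by
    refine sum_le_sum fun n hn => ?_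
    have hb := (mem_filter.1 hn).2
    have h3 := mul_le_mul_of_nonneg_left (opA_blk_bd y hb) (hv n)
    refine h3.trans ?_
    rcases hy n hb with ⟨z1, z2⟩ | hle
    · rw [blk_cc, blk_cc, kk_succ_of_bd hb, z1, z2]; simp
    · have : 0 ≤ ‖blk y (cc n)‖ ^ 2 + ‖blk y (cc (n + 1))‖ ^ 2 := by positivity
      nlinarith
  have hz : ∀ n, M ≤ n → ‖blk y n‖ ^ 2 = 0 := fun n hn => by rw [hM n hn]; simp
  have h3 := sum_inj_le (fun n => ‖blk y n‖ ^ 2) (fun n => sq_nonneg _) M hz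
    ((range M).filter Bd) cc (by
      intro a ha b hb hab
      have ha' : Bd a := (mem_filter.1 ha).2
      have hb' : Bd b := (mem_filter.1 hb).2
      have := hh_ge a
      have := hh_ge b
      unfold Bd at ha' hb'
      unfold cc at hab
      omega)
  have h4 := sum_inj_le (fun n => ‖blk y n‖ ^ 2) (fun n => sq_nonneg _) M hz
    ((range M).filter Bd) (fun n => cc (n + 1)) (by
      intro a ha b hb hab
      have ha' : Bd a := (mem_filter.1 ha).2
      have hb' : Bd b := (mem_filter.1 hb).2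
      have := hh_ge a
      have := hh_ge b
      have := hh_succ_of_bd ha'
      have := hh_succ_of_bd hb'
      have hab' : cc (a + 1) = cc (b + 1) := hab
      unfold Bd at ha' hb'
      unfold cc at hab'
      omega)
  rw [h1]
  refine h2.trans ?_
  rw [← mul_sum, sum_add_distrib]
  nlinarith

lemma row_ineq (a b : ℝ) (z w : ℂ) (ha : 0 ≤ a) (hb : 0 ≤ b) :
    (a - b) * (a * ‖z‖ ^ 2 - b * ‖w‖ ^ 2) ≤ ‖(a : ℂ) * z + b * w‖ ^ 2 := by
  have h1 : |a * ‖z‖ - b * ‖w‖| ≤ ‖(a : ℂ) * z + b * w‖ := by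
    have := abs_norm_sub_norm_le ((a : ℂ) * z) (-(b * w))
    rw [norm_neg, norm_mul, norm_mul, norm_real, norm_real, Real.norm_of_nonneg ha,
      Real.norm_of_nonneg hb, sub_neg_eq_add] at this
    exact this
  have h2 : (a * ‖z‖ - b * ‖w‖) ^ 2 ≤ ‖(a : ℂ) * z + b * w‖ ^ 2 := by
    rw [← sq_abs]
    exact pow_le_pow_left₀ (abs_nonneg _) h1 2
  nlinarith [mul_nonneg (mul_nonneg ha hb) (sq_nonneg (‖z‖ - ‖w‖))]

noncomputable def phi (n : ℕ) : ℝ := if n < cc n then al n else -al n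
noncomputable def psi (n : ℕ) : ℝ := if n < cc n then be n else -be n

lemma row_ineq' (q : ℕ → ℂ) (n : ℕ) :
    phi n * ‖q n‖ ^ 2 - psi n * ‖q (n + 1)‖ ^ 2 ≤ ‖opA al be q n‖ ^ 2 := by
  have hk := kkR n
  have h := row_ineq (al n) (be n) (q n) (q (n + 1))
    (by unfold al; split_ifs <;> linarith) (by unfold be; split_ifs <;> linarith)
  refine le_trans (le_of_eq ?_) h
  unfold phi psi al be
  split_ifs <;> ring

lemma phi_psi (n : ℕ) (h : n + 1 ≠ cc (n + 1)) : 1 + psi n ≤ phi (n + 1) := by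
  have hk := kkR n
  by_cases hb : Bd n
  · have h1 := hh_succ_of_bd hb
    have h2 := kk_succ_of_bd hb
    have h3 := hh_ge n
    unfold Bd at hb
    have hn : ¬ n < cc n := by unfold cc; omega
    have hn' : n + 1 < cc (n + 1) := by unfold cc; omega
    unfold phi psi al be
    rw [if_neg hn, if_neg hn, if_pos hn', if_pos hn', h2]
    push_cast; linarith
  · have h1 := kk_succ_of_not_bd hb
    have h2 := cc_congr h1
    unfold phi psi al be
    rw [h1, h2]
    rw [h2] at h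
    by_cases hn : n < cc n
    · have hn' : n + 1 < cc n := by omega
      simp only [if_pos hn, if_pos hn']; linarith
    · have hn' : ¬ n + 1 < cc n := by omega
      simp only [if_neg hn, if_neg hn']; linarith

lemma q_bound (q : ℕ → ℂ) (hq : ∀ n, n = cc n → q n = 0) (M : ℕ) :
    ∑ n ∈ range (M + 1), ‖q n‖ ^ 2 - psi M * ‖q (M + 1)‖ ^ 2 ≤
      ∑ n ∈ range (M + 1), ‖opA al be q n‖ ^ 2 := by
  induction M with
  | zero =>
    have h := row_ineq' q 0
    have h0 : 0 < cc 0 := by have := hh_ge 0; unfold cc; omega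
    have h1 : 1 ≤ phi 0 := by
      unfold phi al; rw [if_pos h0, if_pos h0]; linarith [kkR 0]
    simp only [zero_add, range_one, sum_singleton] at h ⊢
    nlinarith [sq_nonneg ‖q 0‖]
  | succ M ih =>
    rw [sum_range_succ _ (M + 1), sum_range_succ _ (M + 1)]
    have h := row_ineq' q (M + 1)
    by_cases hc : M + 1 = cc (M + 1)
    · rw [hq _ hc] at h ih ⊢
      simp only [norm_zero, ne_eq, OfNat.ofNat_ne_zero, not_false_eq_true, zero_pow, mul_zero,
        sub_zero, add_zero] at h ih ⊢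
      linarith
    · have h1 := phi_psi M hc
      nlinarith [sq_nonneg ‖q (M + 1)‖]

lemma sq_le_pow (k : ℕ) (hk : 10 ≤ k) : 4 * k ^ 2 + 1 ≤ 2 ^ (k - 1) := by
  obtain ⟨j, rfl⟩ := Nat.exists_eq_add_of_le hk
  rw [show 10 + j - 1 = j + 9 by omega]
  induction j with
  | zero => norm_num
  | succ j ih =>
    have := ih (by omega)
    rw [show j + 1 + 9 = j + 9 + 1 by omega, pow_succ 2]
    nlinarith

lemma eta_le (k : ℕ) (hk : 10 ≤ k) : eta k ^ 2 ≤ 1 / 16 := by
  have h := sq_le_pow k hk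
  have hR : 4 * (k : ℝ) ^ 2 + 1 ≤ (2 : ℝ) ^ (k - 1) := by exact_mod_cast h
  have hk' : (10 : ℝ) ≤ k := by exact_mod_cast hk
  have h1 : eta k ≤ 1 / 4 := by
    unfold eta
    rw [div_le_iff₀ (by nlinarith)]
    linarith
  have h2 : 0 ≤ eta k := div_nonneg (by positivity) (by nlinarith)
  nlinarith

lemma gap_half (x : ℕ → ℂ) (N : ℕ) (hx : ∀ n, N ≤ n → x n = 0) :
    1 / 64 * ∑ k ∈ range (2 * N + 1025), ‖x k‖ ^ 2 ≤
      ∑ k ∈ range (2 * N + 1025 + 1), ‖opC al be x k - ((1 / 2 : ℝ) : ℂ) * x k‖ ^ 2 := by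
  set y : ℕ → ℂ := fun κ => x (3 * 2 ^ (κ - 1) - 1024) with hy
  have hp : ∀ n, blk y n = x (cc n) * gg n := fun n => by
    unfold blk cc hh; rfl
  have hp0 : ∀ n, 2 * N + 1025 ≤ n → blk y n = 0 := by
    intro n hn
    have := hh_hi n
    rw [hp, hx _ (by unfold cc; omega), zero_mul]
  have hq0 : ∀ n, n = cc n → x n - blk y n = 0 := by
    intro n hn
    rw [hp, gg_of_eq hn, ← hn]; simp
  have h1 := q_bound (fun n => x n - blk y n) hq0 (2 * N + 1024)
  have hz : x (2 * N + 1024 + 1) - blk y (2 * N + 1024 + 1) = 0 := by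
    rw [hx _ (by omega), hp0 _ (by omega), sub_zero]
  simp only [hz, norm_zero, ne_eq, OfNat.ofNat_ne_zero, not_false_eq_true, zero_pow, mul_zero,
    sub_zero] at h1
  have h2 := blk_bound y (fun _ => 1) (fun _ => zero_le_one) (1 / 16) (by norm_num)
    (fun n _ => Or.inr (by rw [one_mul]; exact eta_le _ (kk_ge n))) (2 * N + 1025) hp0
  simp only [one_mul] at h2
  have h3 := gap al be (blk y) (fun n => x n - blk y n) (2 * N + 1025) (hp0 _ le_rfl) hz
    (1 / 2) (1 / 4) (by norm_num)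
    (by
      have : 0 ≤ ∑ k ∈ range (2 * N + 1025), ‖x k - blk y k‖ ^ 2 :=
        sum_nonneg fun _ _ => sq_nonneg _
      linarith)
    (by linarith)
  simp only [add_sub_cancel] at h3
  norm_num at h3 ⊢
  exact h3

lemma gap_neg (x : ℕ → ℂ) (N : ℕ) (hx : ∀ n, N ≤ n → x n = 0) (t : ℝ) (ht : t < 0) :
    t ^ 2 / 4 * ∑ k ∈ range N, ‖x k‖ ^ 2 ≤
      ∑ k ∈ range (N + 1), ‖opC al be x k - (t : ℂ) * x k‖ ^ 2 := by
  have h3 := gap al be (fun _ => 0) x N rfl (hx N le_rfl) t (-t) (by linarith)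
    (by simp only [add_neg_cancel, zero_mul]; exact sum_nonneg fun _ _ => sq_nonneg _)
    (by simp [opA])
  simpa using h3

lemma al_sq_le (n : ℕ) : al n ^ 2 ≤ (kk n : ℝ) ^ 2 := by
  have := kkR n
  unfold al; split_ifs <;> nlinarith

lemma be_sq_le (n : ℕ) : be n ^ 2 ≤ (kk n : ℝ) ^ 2 := by
  have := kkR n
  unfold be; split_ifs <;> nlinarith

lemma eta_tendsto : Tendsto (fun k : ℕ => (k : ℝ) ^ 2 * eta k ^ 2) atTop (nhds 0) := by
  have h1 : Tendsto (fun k : ℕ => (k : ℝ) ^ 3 / (2 : ℝ) ^ k) atTop (nhds 0) :=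
    tendsto_pow_const_div_const_pow_of_one_lt 3 (by norm_num)
  have h2 : Tendsto (fun k : ℕ => (4 * ((k : ℝ) ^ 3 / (2 : ℝ) ^ k)) ^ 2) atTop (nhds 0) := by
    simpa using (h1.const_mul 4).pow 2
  refine squeeze_zero' (Eventually.of_forall fun k => by positivity) ?_ h2
  filter_upwards [eventually_ge_atTop 10] with k hk
  rw [← mul_pow]
  have hp : (2 : ℝ) ^ k = 2 * 2 ^ (k - 1) := by
    rw [← pow_succ']; congr 1; omega
  have h4 : (2 : ℝ) ≤ 2 ^ (k - 1) := by
    calc (2 : ℝ) = 2 ^ 1 := by norm_num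
      _ ≤ _ := pow_le_pow_right₀ (by norm_num) (by omega)
  have h5 : 0 ≤ eta k := div_nonneg (by positivity) (by linarith)
  refine pow_le_pow_left₀ (by positivity) ?_ 2
  unfold eta
  rw [hp, ← mul_div_assoc, ← mul_div_assoc, div_le_div_iff₀ (by linarith) (by positivity)]
  have : (0 : ℝ) ≤ (k : ℝ) ^ 3 := by positivity
  nlinarith

lemma small_C (ε : ℝ) (hε : 0 < ε) : ∃ K : ℕ, 10 ≤ K ∧ ∀ y : ℕ → ℂ, (∀ κ, κ ≤ K → y κ = 0) →
    ∀ M, (∀ n, M ≤ n → blk y n = 0) →
      ∑ k ∈ range (M + 1), ‖opC al be (blk y) k‖ ^ 2 ≤ ε ^ 2 * ∑ k ∈ range M, ‖blk y k‖ ^ 2 := by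
  obtain ⟨K, hK⟩ := eventually_atTop.1
    (eta_tendsto.eventually (ge_mem_nhds (show (0 : ℝ) < ε ^ 2 / 16 by positivity)))
  refine ⟨max K 10, le_max_right _ _, fun y hy M hM => ?_⟩
  have h1 := normC_le al be (blk y) M (fun n => (kk n : ℝ) ^ 2) al_sq_le be_sq_le
  have h2 := blk_bound y (fun n => (kk n : ℝ) ^ 2) (fun n => sq_nonneg _) (ε ^ 2 / 16)
    (by positivity) (by
      intro n _
      by_cases h : K ≤ kk n
      · exact Or.inr (hK _ h)
      · have := le_max_left K 10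
        exact Or.inl ⟨hy _ (by omega), hy _ (by omega)⟩) M hM
  have h3 : opA al be (blk y) M = 0 := by
    unfold opA; rw [hM M le_rfl, hM (M + 1) (by omega)]; simp
  rw [h3] at h1
  simp only [norm_zero, ne_eq, OfNat.ofNat_ne_zero, not_false_eq_true, zero_pow, mul_zero,
    add_zero] at h1
  linarith

lemma aa_pos (n : ℕ) : 0 < aa al be n := by
  have := kkR n
  unfold aa al be; split_ifs <;> nlinarith

lemma aa_le (n : ℕ) : aa al be n ≤ (n + 1024 : ℕ) := by
  have h1 := sq_le_pow _ (kk_ge n)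
  have h2 := hh_lo n
  have h3 : kk n ^ 2 ≤ n + 1024 := by unfold hh at h2; omega
  have h4 : (kk n : ℝ) ^ 2 ≤ (n + 1024 : ℕ) := by exact_mod_cast h3
  have := kkR n
  refine le_trans ?_ h4
  unfold aa al be; split_ifs <;> nlinarith

lemma kk_tendsto : Tendsto (fun n => (kk n : ℝ)) atTop atTop := by
  refine tendsto_natCast_atTop_atTop.comp ?_
  refine tendsto_atTop.2 fun k => ?_
  filter_upwards [eventually_ge_atTop (2 ^ k)] with n hn
  unfold kk
  exact Nat.le_log_of_pow_le (by norm_num) (by omega)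

lemma bb_tendsto : Tendsto (bb al be) atTop atTop := by
  refine tendsto_atTop_mono (fun n => ?_) kk_tendsto
  have := kkR n
  have h1 : (kk n : ℝ) ≤ al n ^ 2 := by unfold al; split_ifs <;> nlinarith
  unfold bb
  split_ifs
  · linarith
  · nlinarith [sq_nonneg (be (n - 1))]

lemma ratio_tendsto (f : ℕ → ℝ) (hf : ∀ n, |f n - kk n| ≤ 2) :
    Tendsto (fun n => f n / kk n) atTop (nhds 1) := by
  have h1 : Tendsto (fun n => (f n - kk n) / kk n) atTop (nhds 0) := by
    refine squeeze_zero_norm (fun n => ?_) (kk_tendsto.const_div_atTop 2)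
    have := kkR n
    rw [norm_div, Real.norm_eq_abs, Real.norm_of_nonneg (by linarith)]
    exact div_le_div_of_nonneg_right (hf n) (by linarith)
  have h2 := h1.add_const 1
  rw [zero_add] at h2
  refine h2.congr fun n => ?_
  have := kkR n
  field_simp
  ring

lemma kk_succ_cases (n : ℕ) : (kk (n + 1) : ℝ) = kk n ∨ (kk (n + 1) : ℝ) = kk n + 1 := by
  by_cases h : Bd n
  · right; rw [kk_succ_of_bd h]; push_cast; ring
  · left; rw [kk_succ_of_not_bd h]

lemma quarter : Tendsto (fun n => aa al be n ^ 2 / (bb al be n * bb al be (n + 1))) atTop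
    (nhds (1 / 4 : ℝ)) := by
  have t1 := ratio_tendsto al (fun n => by
    unfold al; rw [abs_le]; split_ifs <;> constructor <;> linarith)
  have t2 := ratio_tendsto be (fun n => by
    unfold be; rw [abs_le]; split_ifs <;> constructor <;> linarith)
  have t3 := ratio_tendsto (fun n => al (n + 1)) (fun n => by
    unfold al; rw [abs_le]
    rcases kk_succ_cases n with h | h <;> split_ifs <;> constructor <;> linarith)
  have t4 := ratio_tendsto (fun n => be (n - 1)) (fun n => by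
    unfold be; rw [abs_le]
    rcases n with _ | n
    · simp only [zero_tsub]
      split_ifs <;> constructor <;> linarith
    · simp only [add_tsub_cancel_right]
      rcases kk_succ_cases n with h | h <;> split_ifs <;> constructor <;> linarith)
  have t5 := ((t1.mul t2).pow 2).div (((t1.pow 2).add (t4.pow 2)).mul ((t3.pow 2).add (t2.pow 2)))
    (by norm_num)
  norm_num at t5
  norm_num
  refine t5.congr' ?_
  filter_upwards [eventually_ge_atTop 1] with n hn
  have := kkR n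
  have hb1 : 0 < al n ^ 2 + be (n - 1) ^ 2 := by
    have : 0 < al n := by unfold al; split_ifs <;> linarith
    positivity
  have hb2 : 0 < al (n + 1) ^ 2 + be n ^ 2 := by
    have : 0 < be n := by unfold be; split_ifs <;> linarith
    positivity
  simp only [aa, bb, if_neg (show n ≠ 0 by omega), if_neg (show n + 1 ≠ 0 by omega),
    add_tsub_cancel_right, Pi.div_apply]
  field_simp

end Pool.Agent.Lib.H11Chihara
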