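import Mathlib

set_option autoImplicit false

namespace H11Diag

variable {A : Type}

/-- An oriented edge of the Squier complex: left context, relation `(u, v)`, right context and
a direction (`true` rewrites `u` to `v`, `false` rewrites `v` to `u`). -/
abbrev Edge (A : Type) := List A × (List A × List A) × List A × Bool

def src (e : Edge A) : List A := e.1 ++ (if e.2.2.2 then e.2.1.1 else e.2.1.2) ++ e.2.2.1

def tgt (e : Edge A) : List A := e.1 ++ (if e.2.2.2 then e.2.1.2 else e.2.1.1) ++ e.2.2.1

/-- `Walk R u l v`: `l` is an edge path from the word `u` to the word `v`. -/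
inductive Walk (R : Set (List A × List A)) : List A → List (Edge A) → List A → Prop
  | nil (u : List A) : Walk R u [] u
  | cons (e : Edge A) (l : List (Edge A)) (v : List A) :
      e.2.1 ∈ R → Walk R (tgt e) l v → Walk R (src e) (e :: l) v

/-- Elementary homotopies: insert a backtrack, or go round a square the other way. -/
inductive Step : List (Edge A) → List (Edge A) → Prop
  | cancel (p q : List (Edge A)) (x : List A) (r : List A × List A) (y : List A) (c : Bool) :
      Step (p ++ q) (p ++ [(x, r, y, c), (x, r, y, !c)] ++ q)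
  | square (p q : List (Edge A)) (x u₁ v₁ y u₂ v₂ z : List A) :
      Step (p ++ [(x, (u₁, v₁), y ++ u₂ ++ z, true), (x ++ v₁ ++ y, (u₂, v₂), z, true)] ++ q)
        (p ++ [(x ++ u₁ ++ y, (u₂, v₂), z, true), (x, (u₁, v₁), y ++ v₂ ++ z, true)] ++ q)

/-- Edge loops at the base word. -/
abbrev Loop (R : Set (List A × List A)) (w : List A) := {l : List (Edge A) // Walk R w l w}

/-- The diagram group: edge loops at `w` modulo homotopy. -/
def DG (R : Set (List A × List A)) (w : List A) : Type :=
  Quot fun a b : Loop R w => Step a.1 b.1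

variable {R : Set (List A × List A)} {w : List A}

theorem Walk.append {u v x : List A} {l m : List (Edge A)} (h : Walk R u l v)
    (h' : Walk R v m x) : Walk R u (l ++ m) x := by
  induction h with
  | nil u => exact h'
  | cons e l v he _ ih => exact Walk.cons e _ _ he (ih h')

theorem Step.left (p : List (Edge A)) {a b : List (Edge A)} (h : Step a b) :
    Step (p ++ a) (p ++ b) := by
  cases h with
  | cancel p' q x r y c => simpa only [List.append_assoc] using Step.cancel (p ++ p') q x r y c
  | square p' q x u₁ v₁ y u₂ v₂ z =>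
    simpa only [List.append_assoc] using Step.square (p ++ p') q x u₁ v₁ y u₂ v₂ z

theorem Step.right (p : List (Edge A)) {a b : List (Edge A)} (h : Step a b) :
    Step (a ++ p) (b ++ p) := by
  cases h with
  | cancel p' q x r y c => simpa only [List.append_assoc] using Step.cancel p' (q ++ p) x r y c
  | square p' q x u₁ v₁ y u₂ v₂ z =>
    simpa only [List.append_assoc] using Step.square p' (q ++ p) x u₁ v₁ y u₂ v₂ z

/-- Concatenation of loops. -/
def Loop.cat (a b : Loop R w) : Loop R w := ⟨a.1 ++ b.1, a.2.append b.2⟩

instance : Mul (DG R w) :=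
  ⟨Quot.map₂ Loop.cat (fun a _ _ h => Step.left a.1 h) (fun _ _ b h => Step.right b.1 h)⟩

instance : One (DG R w) := ⟨Quot.mk _ ⟨[], Walk.nil w⟩⟩

theorem DG.mul_assoc' (a b c : DG R w) : a * b * c = a * (b * c) := by
  rcases a with ⟨a⟩
  rcases b with ⟨b⟩
  rcases c with ⟨c⟩
  exact congrArg (Quot.mk _) (Subtype.ext (List.append_assoc _ _ _))

theorem DG.one_mul' (a : DG R w) : 1 * a = a := by
  rcases a with ⟨a⟩
  rfl

theorem DG.mul_one' (a : DG R w) : a * 1 = a := by
  rcases a with ⟨a⟩
  exact congrArg (Quot.mk _) (Subtype.ext (List.append_nil _))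

instance : Monoid (DG R w) where
  mul_assoc := DG.mul_assoc'
  one_mul := DG.one_mul'
  mul_one := DG.mul_one'

def flipE (e : Edge A) : Edge A := (e.1, e.2.1, e.2.2.1, !e.2.2.2)

def rev (l : List (Edge A)) : List (Edge A) := (l.map flipE).reverse

theorem src_flip (e : Edge A) : src (flipE e) = tgt e := by
  obtain ⟨x, r, y, c⟩ := e
  cases c <;> rfl

theorem tgt_flip (e : Edge A) : tgt (flipE e) = src e := by
  obtain ⟨x, r, y, c⟩ := e
  cases c <;> rfl

theorem flip_flip (e : Edge A) : flipE (flipE e) = e := by
  obtain ⟨x, r, y, c⟩ := e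
  cases c <;> rfl

theorem rev_cons (e : Edge A) (l : List (Edge A)) : rev (e :: l) = rev l ++ [flipE e] := by
  simp [rev]

theorem rev_rev (l : List (Edge A)) : rev (rev l) = l := by
  simp [rev, Function.comp_def, flip_flip]

theorem Walk.single {e : Edge A} (he : e.2.1 ∈ R) : Walk R (src e) [e] (tgt e) :=
  Walk.cons e _ _ he (Walk.nil _)

theorem Walk.reverse {u v : List A} {l : List (Edge A)} (h : Walk R u l v) :
    Walk R v (rev l) u := by
  induction h with
  | nil u => exact Walk.nil u
  | cons e l v he _ ih =>
    rw [rev_cons]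
    refine ih.append ?_
    have := Walk.single (R := R) (e := flipE e) he
    rwa [src_flip, tgt_flip] at this

def cls (l : List (Edge A)) (h : Walk R w l w) : DG R w := Quot.mk _ ⟨l, h⟩

theorem cls_congr {l m : List (Edge A)} (h : Walk R w l w) (e : l = m) :
    cls l h = cls m (e ▸ h) := by
  subst e; rfl

theorem cls_cancel {u v : List A} {l : List (Edge A)} (h : Walk R u l v) :
    ∀ (p q : List (Edge A)) (hp : Walk R w p u) (hq : Walk R u q w),
      cls (p ++ (l ++ (rev l ++ q))) (hp.append (h.append (h.reverse.append hq))) =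
        cls (p ++ q) (hp.append hq) := by
  induction h with
  | nil u => intro p q hp hq; rfl
  | cons e l v he hl ih =>
    intro p q hp hq
    have hf : Walk R (tgt e) [flipE e] (src e) := by
      have := Walk.single (R := R) (e := flipE e) he
      rwa [src_flip, tgt_flip] at this
    have h1 := ih (p ++ [e]) ([flipE e] ++ q) (hp.append (Walk.single he)) (hf.append hq)
    rw [cls_congr _ (show p ++ (e :: l ++ (rev (e :: l) ++ q)) =
      p ++ [e] ++ (l ++ (rev l ++ ([flipE e] ++ q))) by simp [rev_cons]), h1]
    symm
    apply Quot.sound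
    have := Step.cancel p q e.1 e.2.1 e.2.2.1 e.2.2.2
    simpa [flipE] using this

theorem DG.isUnit (a : DG R w) : IsUnit a := by
  rcases a with ⟨l, h⟩
  refine ⟨⟨Quot.mk _ ⟨l, h⟩, cls (rev l) h.reverse, ?_, ?_⟩, rfl⟩
  · have := cls_cancel (w := w) h [] [] (Walk.nil w) (Walk.nil w)
    exact (cls_congr (h.append h.reverse) (by simp)).trans this
  · have := cls_cancel (w := w) h.reverse [] [] (Walk.nil w) (Walk.nil w)
    exact (cls_congr (h.reverse.append h) (by simp [rev_rev])).trans this

/-- Every class of loops is invertible, so the monoid of classes is a group. -/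
noncomputable instance : Group (DG R w) := groupOfIsUnit DG.isUnit

end H11Diag
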