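import Mathlib

set_option autoImplicit false

namespace H11Halt

open Turing

theorem restrict {Γ Λ : Type} [Inhabited Γ] [Inhabited Λ] (M : TM0.Machine Γ Λ) (S : Set Λ)
    (hS : TM0.Supports M S) :
    ∃ M' : @TM0.Machine Γ S ⟨⟨default, hS.1⟩⟩, ∀ l : List Γ,
      (@TM0.eval Γ S ⟨⟨default, hS.1⟩⟩ _ M' l).Dom ↔ (TM0.eval M l).Dom := by
  letI : Inhabited S := ⟨⟨default, hS.1⟩⟩
  let M' : TM0.Machine Γ S := fun q a =>
    (M q.1 a).pmap (fun p (h : p.1 ∈ S) => (⟨p.1, h⟩, p.2)) fun p hp => hS.2 (s := p.2) hp q.2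
  refine ⟨M', fun l => ?_⟩
  have H : StateTransition.Respects (TM0.step M') (TM0.step M)
      fun a b => (⟨a.q.1, a.Tape⟩ : TM0.Cfg Γ Λ) = b := by
    rintro ⟨⟨q, hq⟩, T⟩ _ rfl
    have key : TM0.step M ⟨q, T⟩ =
        (TM0.step M' ⟨⟨q, hq⟩, T⟩).map fun a => (⟨a.q.1, a.Tape⟩ : TM0.Cfg Γ Λ) := by
      simp only [TM0.step, M', Option.map_map, Option.map_pmap]
      generalize_proofs pf
      revert pf
      generalize M q T.head = o
      intro pf
      cases o <;> simp
    cases h : TM0.step M' ⟨⟨q, hq⟩, T⟩ with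
    | none => simp only; rw [key, h]; rfl
    | some c =>
      simp only
      refine ⟨_, rfl, Relation.TransGen.single ?_⟩
      rw [key, h]; rfl
  exact (StateTransition.tr_eval_dom H rfl).symm

theorem trNat_pow (n : ℕ) : PartrecToTM2.trNat (2 ^ n) =
    List.replicate n PartrecToTM2.Γ'.bit0 ++ [PartrecToTM2.Γ'.bit1] := by
  have : ∃ p : PosNum, ((2 ^ n : ℕ) : Num) = Num.pos p ∧ PartrecToTM2.trPosNum p =
      List.replicate n PartrecToTM2.Γ'.bit0 ++ [PartrecToTM2.Γ'.bit1] := by
    induction n with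
    | zero => exact ⟨PosNum.one, by simp; rfl, rfl⟩
    | succ n ih =>
      obtain ⟨p, h1, h2⟩ := ih
      refine ⟨p.bit0, ?_, by simp [PartrecToTM2.trPosNum, h2, List.replicate_succ]⟩
      have h3 : (p : ℕ) = 2 ^ n := by
        have := congrArg (fun x : Num => (x : ℕ)) h1
        simp only [Num.to_of_nat, Num.cast_pos] at this
        exact this.symm
      apply Num.to_nat_inj.1
      rw [Num.to_of_nat, Num.cast_pos, PosNum.cast_bit0, h3, pow_succ]; ring
  obtain ⟨p, h1, h2⟩ := this
  rw [PartrecToTM2.trNat, h1, PartrecToTM2.trNum, h2]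

instance : Fintype PartrecToTM2.K' :=
  ⟨{PartrecToTM2.K'.main, .rev, .aux, .stack}, fun x => by cases x <;> simp⟩

/-- A fixed finite Turing machine whose halting on unary-like inputs is undecidable. -/
theorem exists_tm : ∃ (Γ Q : Type) (_ : Inhabited Γ) (_ : Inhabited Q) (_ : Finite Γ)
    (_ : Finite Q) (M : TM0.Machine Γ Q) (a0 a1 a2 : Γ),
    ¬ ComputablePred fun n : ℕ => (TM0.eval M (a0 :: a1 :: List.replicate n a2)).Dom := by
  let g : ℕ →. ℕ := fun m => (Nat.rfind fun k => (Part.some (decide (2 ^ k = m)))).bind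
    fun k => (Denumerable.ofNat Nat.Partrec.Code k).eval 0
  have hg : Partrec g := by
    refine Partrec.bind (Partrec.rfind ?_) ?_
    · have hp : Primrec₂ fun a b : ℕ => a ^ b := Primrec₂.unpaired'.1 Nat.Primrec.pow
      exact (Primrec.eq.decide.comp (hp.comp (Primrec.const 2) Primrec.snd)
        Primrec.fst).to_comp.partrec
    · exact Nat.Partrec.Code.eval_part.comp
        ((Computable.ofNat _).comp Computable.snd) (Computable.const 0)
  have hgv : ∀ n, g (2 ^ n) = (Denumerable.ofNat Nat.Partrec.Code n).eval 0 := by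
    intro n
    have : (Nat.rfind fun k => (Part.some (decide (2 ^ k = 2 ^ n)))) = Part.some n := by
      rw [Part.eq_some_iff]
      refine Nat.mem_rfind.2 ⟨by simp, fun {m} hm => ?_⟩
      simp [hm.ne]
    simp only [g, this, Part.bind_some]
  obtain ⟨c, hc⟩ := ToPartrec.Code.exists_code (Nat.Partrec'.part_iff₁.2 hg)
  letI : Inhabited PartrecToTM2.Λ' := ⟨PartrecToTM2.trNormal c .halt⟩
  have s2 := PartrecToTM2.tr_supports c .halt
  have s1 := TM2to1.tr_supports PartrecToTM2.tr s2
  have s0 := TM1to0.tr_supports (TM2to1.tr PartrecToTM2.tr) s1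
  obtain ⟨M', hM'⟩ := restrict _ _ s0
  let F : PartrecToTM2.Γ' → TM2to1.Γ' PartrecToTM2.K' (fun _ => PartrecToTM2.Γ') :=
    fun a => (false, Function.update (fun _ => none) PartrecToTM2.K'.main (some a))
  refine ⟨_, _, inferInstance, _, inferInstance, inferInstance, M', (true, (F .cons).2),
    F .bit1, F .bit0, fun h => ?_⟩
  have key : ∀ n : ℕ, (@TM0.eval _ _ ⟨⟨default, s0.1⟩⟩ _ M'
      ((true, (F .cons).2) :: F .bit1 :: List.replicate n (F .bit0))).Dom ↔
      ((Denumerable.ofNat Nat.Partrec.Code n).eval 0).Dom := by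
    intro n
    rw [hM', TM1to0.tr_eval]
    have e1 : @List.cons (TM2to1.Γ' PartrecToTM2.K' (fun _ => PartrecToTM2.Γ'))
        (true, (F .cons).2) (F .bit1 :: List.replicate n (F .bit0)) =
        TM2to1.trInit PartrecToTM2.K'.main (PartrecToTM2.trList [2 ^ n]) := by
      have : (PartrecToTM2.trList [2 ^ n]).reverse =
          .cons :: .bit1 :: List.replicate n .bit0 := by
        simp [PartrecToTM2.trList, trNat_pow]
      show _ = (true, ((PartrecToTM2.trList [2 ^ n]).reverse.map F).headI.2) ::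
        ((PartrecToTM2.trList [2 ^ n]).reverse.map F).tail
      rw [this, List.map_cons, List.map_cons, List.map_replicate]
      rfl
    rw [e1]
    refine (TM2to1.tr_eval_dom PartrecToTM2.tr _ _).trans ?_
    have e2 : TM2.init PartrecToTM2.K'.main (PartrecToTM2.trList [2 ^ n]) =
        PartrecToTM2.init c [2 ^ n] := by
      simp only [TM2.init, PartrecToTM2.init]
      congr 1
      funext k
      cases k <;> rfl
    have e3 := PartrecToTM2.tr_eval c [2 ^ n]
    have e4 := hc ⟨[2 ^ n], rfl⟩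
    have e5 := congrArg Part.Dom e3
    rw [← e2] at e5
    refine (iff_of_eq e5).trans ?_
    simp only at e4
    rw [e4, ← hgv]
    rfl
  apply ComputablePred.halting_problem 0
  obtain ⟨f, hf, hf'⟩ := ComputablePred.computable_iff.1 h
  refine ComputablePred.computable_iff.2 ⟨fun c => f (Encodable.encode c),
    hf.comp Computable.encode, ?_⟩
  funext c
  have := congrFun hf' (Encodable.encode c)
  rw [← this, key, Denumerable.ofNat_encode]

end H11Halt
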