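import Pool.Agent.Lib.helper11.DiagDef
import Pool.Agent.Lib.helper11.HaltTM

set_option autoImplicit false

namespace H11Diag

open Relation Turing

section generic
variable {A : Type} {R : Set (List A × List A)}

def Fwd (R : Set (List A × List A)) (w w' : List A) : Prop :=
  ∃ x u v y, (u, v) ∈ R ∧ w = x ++ u ++ y ∧ w' = x ++ v ++ y

structure Det (R : Set (List A × List A)) (Good : List A → Prop) : Prop where
  len : ∀ u v, (u, v) ∈ R → u.length < v.length
  inv : ∀ x u v y, (u, v) ∈ R → (Good (x ++ u ++ y) ↔ Good (x ++ v ++ y))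
  det : ∀ x u v y x' u' v' y', Good (x ++ u ++ y) → (u, v) ∈ R → (u', v') ∈ R →
    x ++ u ++ y = x' ++ u' ++ y' → x = x' ∧ u = u' ∧ v = v' ∧ y = y'

def AllF (l : List (Edge A)) : Prop := ∀ e ∈ l, e.2.2.2 = true

theorem Walk.cons_inv {u v : List A} {e : Edge A} {l : List (Edge A)} (h : Walk R u (e :: l) v) :
    u = src e ∧ e.2.1 ∈ R ∧ Walk R (tgt e) l v := by
  generalize hl : e :: l = l' at h
  cases h with
  | nil => simp at hl
  | cons e' l'' v he h2 =>
    obtain ⟨rfl, rfl⟩ := List.cons.inj hl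
    exact ⟨rfl, he, h2⟩

theorem Walk.nil_inv {u v : List A} (h : Walk R u [] v) : u = v := by
  generalize hl : [] = l' at h
  cases h with
  | nil => rfl
  | cons => simp at hl

variable {Good : List A → Prop}

theorem Det.good_edge (hD : Det R Good) {e : Edge A} (he : e.2.1 ∈ R) :
    Good (src e) ↔ Good (tgt e) := by
  obtain ⟨x, ⟨u, v⟩, y, c⟩ := e
  cases c
  · exact (hD.inv x u v y he).symm
  · exact hD.inv x u v y he

theorem Det.good_walk (hD : Det R Good) {u v : List A} {l : List (Edge A)} (h : Walk R u l v) :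
    Good u ↔ Good v := by
  induction h with
  | nil => rfl
  | cons e l v he _ ih => exact (hD.good_edge he).trans ih

theorem Det.edge_eq (hD : Det R Good) {e e' : Edge A} (he : e.2.1 ∈ R) (he' : e'.2.1 ∈ R)
    (h1 : e.2.2.2 = true) (h2 : e'.2.2.2 = true) (hg : Good (src e)) (h : src e = src e') :
    e = e' := by
  obtain ⟨x, ⟨u, v⟩, y, c⟩ := e
  obtain ⟨x', ⟨u', v'⟩, y', c'⟩ := e'
  simp only at h1 h2
  subst h1 h2
  obtain ⟨rfl, rfl, rfl, rfl⟩ := hD.det x u v y x' u' v' y' hg he he' h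
  rfl

theorem Det.len_walk (hD : Det R Good) {u v : List A} {l : List (Edge A)} (h : Walk R u l v)
    (hf : AllF l) : u.length + l.length ≤ v.length := by
  induction h with
  | nil => simp
  | cons e l v he _ ih =>
    have h1 := ih fun e' he' => hf e' (List.mem_cons_of_mem _ he')
    have h2 := hf e (by simp)
    obtain ⟨x, ⟨a, b⟩, y, c⟩ := e
    simp only at h2
    subst h2
    have := hD.len a b he
    simp only [src, tgt, if_true, List.length_append, List.length_cons] at *
    omega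

theorem Det.fwd_uniq (hD : Det R Good) {z : List A} (f : List (Edge A)) :
    ∀ (u : List A) (f' : List (Edge A)), Good u → Walk R u f z → Walk R u f' z → AllF f →
      AllF f' → f = f' := by
  induction f with
  | nil =>
    intro u f' _ h h' _ hf'
    have := hD.len_walk h' hf'
    rw [h.nil_inv] at this
    exact (List.length_eq_zero_iff.1 (by omega)).symm
  | cons e f ih =>
    intro u f' hg h h' hf hf'
    cases f' with
    | nil =>
      have := hD.len_walk h hf
      rw [h'.nil_inv] at this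
      simp at this
    | cons e' f' =>
      obtain ⟨rfl, he, h2⟩ := h.cons_inv
      obtain ⟨hs, he', h2'⟩ := h'.cons_inv
      obtain rfl := hD.edge_eq he he' (hf _ (by simp)) (hf' _ (by simp)) hg hs
      rw [ih _ f' ((hD.good_edge he).1 hg) h2 h2' (fun x hx => hf x (by simp [hx]))
        (fun x hx => hf' x (by simp [hx]))]

theorem Det.normal (hD : Det R Good) {w : List A} (hw : Good w) {u v : List A}
    {l : List (Edge A)} (h : Walk R u l v) : ∀ hv : v = w,
    ∃ (z : List A) (f1 f2 : List (Edge A)) (h1 : Walk R u f1 z) (h2 : Walk R w f2 z),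
      AllF f1 ∧ AllF f2 ∧ ∀ (p : List (Edge A)) (hp : Walk R w p u),
        cls (p ++ l) (hp.append (hv ▸ h)) =
          cls (p ++ (f1 ++ rev f2)) (hp.append (h1.append h2.reverse)) := by
  induction h with
  | nil u =>
    rintro rfl
    exact ⟨u, [], [], Walk.nil _, Walk.nil _, by simp [AllF], by simp [AllF], fun p hp => rfl⟩
  | cons e l v he hl ih =>
    rintro rfl
    obtain ⟨z, f1, f2, h1, h2, a1, a2, H⟩ := ih rfl
    have H' := fun (p : List (Edge A)) (hp : Walk R v p (src e)) =>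
      (cls_congr (hp.append (Walk.cons e l v he hl)) (show p ++ e :: l = p ++ [e] ++ l by simp)).trans
        (H (p ++ [e]) (hp.append (Walk.single he)))
    by_cases hc : e.2.2.2 = true
    · refine ⟨z, e :: f1, f2, Walk.cons e f1 z he h1, h2, ?_, a2, fun p hp => ?_⟩
      · intro x hx
        rcases List.mem_cons.1 hx with rfl | hx
        exacts [hc, a1 x hx]
      · exact (H' p hp).trans (cls_congr _ (by simp))
    · have hc' : (flipE e).2.2.2 = true := by simpa [flipE] using hc
      have hf : Walk R (tgt e) [flipE e] (src e) := (Walk.single he).reverse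
      cases f1 with
      | nil =>
        obtain rfl := h1.nil_inv
        refine ⟨src e, [], f2 ++ [flipE e], Walk.nil _, h2.append hf, by simp [AllF], ?_,
          fun p hp => ?_⟩
        · intro x hx
          rcases List.mem_append.1 hx with hx | hx
          · exact a2 x hx
          · rw [List.mem_singleton.1 hx]; exact hc'
        · exact (H' p hp).trans (cls_congr _ (by simp [rev, flip_flip]))
      | cons e1 f1 =>
        obtain ⟨hs, he1, h3⟩ := h1.cons_inv
        have hg : Good (tgt e) := (hD.good_walk hl).2 hw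
        obtain rfl : flipE e = e1 := hD.edge_eq (e := flipE e) he he1 hc' (a1 _ (by simp))
          (by rwa [src_flip]) (by rwa [src_flip])
        rw [tgt_flip] at h3
        refine ⟨z, f1, f2, h3, h2, fun x hx => a1 x (by simp [hx]), a2, fun p hp => ?_⟩
        refine (H' p hp).trans (Eq.trans (cls_congr _ (by simp [rev])) (cls_cancel
          (Walk.single he) p (f1 ++ rev f2) hp (h3.append h2.reverse)))

theorem Det.trivial (hD : Det R Good) {w : List A} (hw : Good w) (g : DG R w) : g = 1 := by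
  rcases g with ⟨l, h⟩
  obtain ⟨z, f1, f2, h1, h2, a1, a2, H⟩ := hD.normal hw h rfl
  obtain rfl := hD.fwd_uniq f1 w f2 hw h1 h2 a1 a2
  refine (H [] (Walk.nil w)).trans (Eq.trans (cls_congr _ (by simp))
    (cls_cancel h1 [] [] (Walk.nil w) (Walk.nil w)))

theorem walk_of_fwd {w z : List A} (h : ReflTransGen (Fwd R) w z) : ∃ l, Walk R w l z := by
  induction h with
  | refl => exact ⟨[], Walk.nil w⟩
  | tail _ h ih =>
    obtain ⟨l, hl⟩ := ih
    obtain ⟨x, u, v, y, hr, rfl, rfl⟩ := h
    exact ⟨_, hl.append (Walk.single (e := (x, (u, v), y, true)) hr)⟩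

theorem onto_int {w x y : List A} {h j : A} (hz : ReflTransGen (Fwd R) w (x ++ [h] ++ y))
    (r1 : ([h], [h, j]) ∈ R) (r2 : ([h], [h, j, j]) ∈ R) :
    ∃ (φ : DG R w →* Multiplicative ℤ) (g : DG R w), φ g = Multiplicative.ofAdd 1 := by
  classical
  let c : Edge A → ℤ := fun e =>
    if e.2.1 = ([h], [h, j, j]) then (if e.2.2.2 then 1 else -1) else 0
  let C : List (Edge A) → ℤ := fun l => (l.map c).sum
  have hC : ∀ a b, Step a b → C a = C b := by
    intro a b s
    cases s with
    | cancel p q x r y b =>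
      cases b <;> simp only [C, c, List.map_append, List.sum_append, List.map_cons, List.map_nil,
        List.sum_cons, List.sum_nil] <;> split_ifs <;> simp_all
    | square p q x u₁ v₁ y u₂ v₂ z =>
      simp only [C, c, List.map_append, List.sum_append, List.map_cons, List.map_nil,
        List.sum_cons, List.sum_nil]
      ring
  have hrev : ∀ l, C (rev l) = - C l := by
    intro l
    induction l with
    | nil => simp [C, rev]
    | cons e l ih =>
      rw [rev_cons]
      simp only [C, List.map_append, List.sum_append, List.map_cons, List.map_nil,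
        List.sum_cons, List.sum_nil] at ih ⊢
      rw [ih]
      obtain ⟨x, r, y, b⟩ := e
      cases b <;> simp only [c, flipE] <;> split_ifs <;> simp_all <;> ring
  let φ : DG R w →* Multiplicative ℤ := MonoidHom.mk'
    (Quot.lift (fun l : Loop R w => Multiplicative.ofAdd (C l.1)) fun a b s =>
      congrArg _ (hC _ _ s)) (by
      rintro ⟨a⟩ ⟨b⟩
      show Multiplicative.ofAdd (C (a.1 ++ b.1)) = Multiplicative.ofAdd (C a.1 + C b.1)
      simp [C])
  obtain ⟨l, hl⟩ := walk_of_fwd hz
  have w1 : Walk R (x ++ [h] ++ y) [(x, ([h], [h, j, j]), y, true)] (x ++ [h, j, j] ++ y) :=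
    Walk.single (e := (x, ([h], [h, j, j]), y, true)) r2
  have w2 : Walk R (x ++ [h, j, j] ++ y) [(x, ([h], [h, j]), j :: y, false)]
      (x ++ [h, j] ++ y) := by
    simpa [src, tgt] using Walk.single (R := R) (e := (x, ([h], [h, j]), j :: y, false)) r1
  have w3 : Walk R (x ++ [h, j] ++ y) [(x, ([h], [h, j]), y, false)] (x ++ [h] ++ y) :=
    Walk.single (e := (x, ([h], [h, j]), y, false)) r1
  refine ⟨φ, cls _ (hl.append (w1.append (w2.append (w3.append hl.reverse)))), ?_⟩
  show Multiplicative.ofAdd (C _) = _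
  have := hrev l
  simp only [C] at this
  simp [C, this, c]

variable {B : Type} (f : A → B)

def mapR (R : Set (List A × List A)) : Set (List B × List B) :=
  Prod.map (List.map f) (List.map f) '' R

theorem split_map {x u y : List B} {w : List A} (h : x ++ u ++ y = w.map f) :
    ∃ x' u' y', w = x' ++ u' ++ y' ∧ x = x'.map f ∧ u = u'.map f ∧ y = y'.map f := by
  obtain ⟨a, y', rfl, h1, rfl⟩ := List.map_eq_append_iff.1 h.symm
  obtain ⟨x', u', rfl, rfl, rfl⟩ := List.map_eq_append_iff.1 h1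
  exact ⟨x', u', y', rfl, rfl, rfl, rfl⟩

theorem Det.map (hD : Det R Good) (hf : Function.Injective f) :
    Det (mapR f R) fun w => ∃ w0, Good w0 ∧ w = w0.map f := by
  have hi : Function.Injective (List.map f) := List.map_injective_iff.2 hf
  refine ⟨?_, ?_, ?_⟩
  · rintro _ _ ⟨⟨u, v⟩, h, h2⟩
    obtain ⟨rfl, rfl⟩ := Prod.mk.inj h2
    simpa using hD.len u v h
  · rintro x _ _ y ⟨⟨u, v⟩, h, h2⟩
    obtain ⟨rfl, rfl⟩ := Prod.mk.inj h2
    constructor
    · rintro ⟨w0, hg, hw⟩
      obtain ⟨x', u', y', rfl, rfl, hu, rfl⟩ := split_map f hw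
      obtain rfl := hi hu
      exact ⟨_, (hD.inv x' u v y' h).1 hg, by simp⟩
    · rintro ⟨w0, hg, hw⟩
      obtain ⟨x', u', y', rfl, rfl, hu, rfl⟩ := split_map f hw
      obtain rfl := hi hu
      exact ⟨_, (hD.inv x' u v y' h).2 hg, by simp⟩
  · rintro x _ _ y x' _ _ y' ⟨w0, hg, hw⟩ ⟨⟨u, v⟩, h, h2⟩ ⟨⟨u', v'⟩, h', h2'⟩ e
    obtain ⟨rfl, rfl⟩ := Prod.mk.inj h2
    obtain ⟨rfl, rfl⟩ := Prod.mk.inj h2'
    obtain ⟨a', b', c', h3, rfl, hu', rfl⟩ := split_map f (e.symm.trans hw)
    obtain ⟨a, b, c, rfl, rfl, hu, rfl⟩ := split_map f hw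
    obtain rfl := hi hu
    obtain rfl := hi hu'
    obtain ⟨rfl, rfl, rfl, rfl⟩ := hD.det a u v c a' u' v' c' hg h h' h3
    exact ⟨rfl, rfl, rfl, rfl⟩

theorem fwd_map {w z : List A} (h : ReflTransGen (Fwd R) w z) :
    ReflTransGen (Fwd (mapR f R)) (w.map f) (z.map f) := by
  induction h with
  | refl => exact ReflTransGen.refl
  | tail _ h2 ih =>
    obtain ⟨x, u, v, y, h, rfl, rfl⟩ := h2
    exact ih.tail ⟨x.map f, u.map f, v.map f, y.map f, ⟨(u, v), h, rfl⟩, by simp, by simp⟩

end generic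

inductive Let (Γ Q : Type) : Type
  | L | R | j | h
  | sym (a : Γ)
  | st (q : Q)
  | sk (q : Q)
  | ca (q : Q) (c : Γ)

section sim
variable {Γ Q : Type} [Inhabited Γ] [Inhabited Q] (M : TM0.Machine Γ Q)

open Let

instance [Finite Γ] [Finite Q] : Finite (Let Γ Q) :=
  Finite.of_equiv _ (proxy_equiv% (Let Γ Q))

def isHead : Let Γ Q → Bool
  | h => true
  | st _ => true
  | sk _ => true
  | ca _ _ => true
  | _ => false

inductive Rule : List (Let Γ Q) → Let Γ Q → List (Let Γ Q) → List (Let Γ Q) → Prop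
  | write {q a q' b} : M q a = some (q', .write b) → Rule [] (st q) [sym a] [j, st q', sym b]
  | right1 {q a q'} (c) : M q a = some (q', .move .right) →
      Rule [] (st q) [sym a, sym c] [sym a, j, st q', sym c]
  | right2 {q a q'} : M q a = some (q', .move .right) →
      Rule [] (st q) [sym a, R] [sym a, j, st q', sym default, R]
  | left {q a q'} : M q a = some (q', .move .left) → Rule [] (st q) [sym a] [j, sk q', sym a]
  | skip (q) : Rule [j] (sk q) [] [sk q, j, j]
  | pick (q c) : Rule [sym c] (sk q) [] [j, j, ca q c]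
  | pickL (q) : Rule [L] (sk q) [] [L, j, ca q default]
  | carry (q c) : Rule [] (ca q c) [j] [j, j, ca q c]
  | drop (q c a) : Rule [] (ca q c) [sym a] [st q, sym c, sym a]
  | halt {q a} : M q a = none → Rule [] (st q) [sym a] [h, j, sym a]
  | h1 : Rule [] h [] [h, j]
  | h2 : Rule [] h [] [h, j, j]

def RM : Set (List (Let Γ Q) × List (Let Γ Q)) :=
  {p | ∃ pre hd post, Rule M pre hd post p.2 ∧ p.1 = pre ++ hd :: post}

variable {M}

theorem RM_len {u v : List (Let Γ Q)} (h : (u, v) ∈ RM M) :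
    u ≠ [] ∧ u.length < v.length ∧ v.length ≤ 5 ∧ u.countP isHead = 1 ∧ v.countP isHead = 1 ∧
      (Let.h ∈ u → Let.h ∈ v) := by
  obtain ⟨pre, hd, post, r, h⟩ := h
  simp only at r h
  subst h
  cases r <;> simp [isHead, List.countP_cons]

theorem uniq {X Y X' Y' : List (Let Γ Q)} {a a' : Let Γ Q} (h : X ++ a :: Y = X' ++ a' :: Y')
    (hc : (X ++ a :: Y).countP isHead = 1) (ha : isHead a = true) (ha' : isHead a' = true) :
    X = X' ∧ a = a' ∧ Y = Y' := by
  rcases List.append_eq_append_iff.1 h with ⟨Z, rfl, h2⟩ | ⟨Z, rfl, h2⟩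
  · cases Z with
    | nil => simpa using h2
    | cons b Z =>
      obtain ⟨rfl, rfl⟩ := List.cons.inj h2
      simp [List.countP_cons, ha, ha'] at hc
      omega
  · cases Z with
    | nil => simpa using h2.symm
    | cons b Z =>
      obtain ⟨rfl, rfl⟩ := List.cons.inj h2
      simp [List.countP_cons, ha, ha'] at hc
      omega

theorem det0 {x u v y x' u' v' y' : List (Let Γ Q)} (hc : (x ++ u ++ y).countP isHead = 1)
    (hh : Let.h ∉ x ++ u ++ y) (r : (u, v) ∈ RM M) (r' : (u', v') ∈ RM M)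
    (e : x ++ u ++ y = x' ++ u' ++ y') : x = x' ∧ u = u' ∧ v = v' ∧ y = y' := by
  obtain ⟨pre, hd, post, r, h⟩ := r
  obtain ⟨pre', hd', post', r', h'⟩ := r'
  simp only at r h r' h'
  subst h h'
  obtain ⟨h1, rfl, h3⟩ := uniq (X := x ++ pre) (Y := post ++ y) (X' := x' ++ pre')
    (Y' := post' ++ y') (a := hd) (a' := hd') (by simpa using e) (by simpa using hc)
    (by cases r <;> rfl) (by cases r' <;> rfl)
  cases r <;> cases r' <;> simp_all

theorem fwd_props {w w' : List (Let Γ Q)} (h : Fwd (RM M) w w') :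
    w.length < w'.length ∧ w.countP isHead = w'.countP isHead ∧ (Let.h ∈ w → Let.h ∈ w') := by
  obtain ⟨x, u, v, y, r, rfl, rfl⟩ := h
  obtain ⟨-, h1, -, h2, h3, h4⟩ := RM_len r
  refine ⟨by simp; omega, by simp [h2, h3], ?_⟩
  simp only [List.mem_append]
  tauto

theorem star_props {w w' : List (Let Γ Q)} (h : ReflTransGen (Fwd (RM M)) w w') :
    w.length ≤ w'.length ∧ w.countP isHead = w'.countP isHead ∧ (Let.h ∈ w → Let.h ∈ w') := by
  induction h with
  | refl => simp
  | tail _ h ih =>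
    have := fwd_props h
    exact ⟨by omega, ih.2.1.trans this.2.1, fun x => this.2.2 (ih.2.2 x)⟩

theorem fwd_det {w a b : List (Let Γ Q)} (hc : w.countP isHead = 1) (hh : Let.h ∉ w)
    (h1 : Fwd (RM M) w a) (h2 : Fwd (RM M) w b) : a = b := by
  obtain ⟨x, u, v, y, r, rfl, rfl⟩ := h1
  obtain ⟨x', u', v', y', r', e, rfl⟩ := h2
  obtain ⟨rfl, rfl, rfl, rfl⟩ := det0 hc hh r r' e
  rfl

def GoodM (M : TM0.Machine Γ Q) (w : List (Let Γ Q)) : Prop :=
  w.countP isHead = 1 ∧ ∀ z, ReflTransGen (Fwd (RM M)) w z → Let.h ∉ z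

theorem detM : Det (RM M) (GoodM M) := by
  refine ⟨fun u v h => (RM_len h).2.1, fun x u v y r => ?_, fun x u v y x' u' v' y' hg r r' e =>
    det0 hg.1 (hg.2 _ ReflTransGen.refl) r r' e⟩
  have hf : Fwd (RM M) (x ++ u ++ y) (x ++ v ++ y) := ⟨x, u, v, y, r, rfl, rfl⟩
  have hp := fwd_props hf
  constructor
  · exact fun hg => ⟨hp.2.1 ▸ hg.1, fun z hz => hg.2 z (ReflTransGen.head hf hz)⟩
  · intro hg
    have hh : Let.h ∉ x ++ u ++ y := fun h => hg.2 _ ReflTransGen.refl (hp.2.2 h)
    refine ⟨hp.2.1 ▸ hg.1, fun z hz => ?_⟩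
    rcases hz.cases_head with rfl | ⟨b, hb, hz⟩
    · exact hh
    · rw [fwd_det (hp.2.1 ▸ hg.1) hh hb hf] at hz
      exact hg.2 z hz

theorem conf {u w z : List (Let Γ Q)} (h : ReflTransGen (Fwd (RM M)) u w) (hw : Let.h ∉ w)
    (hzh : Let.h ∈ z) : u.countP isHead = 1 → ReflTransGen (Fwd (RM M)) u z →
      ReflTransGen (Fwd (RM M)) w z := by
  induction h using ReflTransGen.head_induction_on with
  | refl => exact fun _ h => h
  | head h1 h2 ih =>
    intro hc hz
    have hu := fun x => hw ((star_props h2).2.2 ((fwd_props h1).2.2 x))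
    rcases hz.cases_head with rfl | ⟨b, hb, hz⟩
    · exact absurd hzh hu
    · rw [fwd_det hc hu hb h1] at hz
      exact ih ((fwd_props h1).2.1 ▸ hc) hz

theorem fw {pre : List (Let Γ Q)} {hd : Let Γ Q} {post v : List (Let Γ Q)}
    (r : Rule M pre hd post v) (x y : List (Let Γ Q)) :
    Fwd (RM M) (x ++ (pre ++ hd :: post) ++ y) (x ++ v ++ y) :=
  ⟨x, _, v, y, ⟨pre, hd, post, r, rfl⟩, rfl, rfl⟩

inductive LJ : List (Let Γ Q) → List Γ → Prop
  | nil : LJ [] []
  | junk {x l} : LJ x l → LJ (x ++ [j]) l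
  | sym {x l} (c) : LJ x l → LJ (x ++ [sym c]) (c :: l)

theorem LJ.noh {x : List (Let Γ Q)} {l : List Γ} (h : LJ x l) : Let.h ∉ x := by
  induction h <;> simp_all

theorem carry_run (q : Q) (c a : Γ) (rest : List (Let Γ Q)) {l : List Γ} (k : ℕ) :
    ∀ x, LJ x l → ∃ x', LJ x' l ∧ ReflTransGen (Fwd (RM M))
      (L :: x ++ ca q c :: (List.replicate k j ++ sym a :: rest))
      (L :: x' ++ st q :: sym c :: sym a :: rest) := by
  induction k with
  | zero =>
    intro x hx
    exact ⟨x, hx, ReflTransGen.single (by simpa using fw (Rule.drop q c a) (L :: x) rest)⟩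
  | succ k ih =>
    intro x hx
    obtain ⟨x', h1, h2⟩ := ih _ hx.junk.junk
    refine ⟨x', h1, ReflTransGen.head ?_ h2⟩
    simpa [List.replicate_succ] using
      fw (Rule.carry q c) (L :: x) (List.replicate k j ++ sym a :: rest)

theorem seek_run (q : Q) (a : Γ) (rest : List (Let Γ Q)) {x : List (Let Γ Q)} {l : List Γ}
    (hx : LJ x l) : ∀ k : ℕ, ∃ x', LJ x' l.tail ∧ ReflTransGen (Fwd (RM M))
      (L :: x ++ sk q :: (List.replicate k j ++ sym a :: rest))
      (L :: x' ++ st q :: sym l.headI :: sym a :: rest) := by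
  induction hx with
  | nil =>
    intro k
    obtain ⟨x', h1, h2⟩ := carry_run (M := M) q default a rest k _ LJ.nil.junk
    refine ⟨x', h1, ReflTransGen.head ?_ h2⟩
    simpa using fw (Rule.pickL q) [] (List.replicate k j ++ sym a :: rest)
  | @junk x l _ ih =>
    intro k
    obtain ⟨x', h1, h2⟩ := ih (k + 2)
    refine ⟨x', h1, ReflTransGen.head ?_ h2⟩
    simpa [List.replicate_succ] using
      fw (Rule.skip q) (L :: x) (List.replicate k j ++ sym a :: rest)
  | @sym x l c hx _ =>
    intro k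
    obtain ⟨x', h1, h2⟩ := carry_run (M := M) q c a rest k _ hx.junk.junk
    refine ⟨x', h1, ReflTransGen.head ?_ h2⟩
    simpa using fw (Rule.pick q c) (L :: x) (List.replicate k j ++ sym a :: rest)

def Rep (w : List (Let Γ Q)) (c : TM0.Cfg Γ Q) : Prop :=
  ∃ x l a y, LJ x l ∧ w = L :: x ++ st c.q :: sym a :: (List.map sym y ++ [R]) ∧
    c.Tape = ⟨a, ListBlank.mk l, ListBlank.mk y⟩

theorem Rep.noh {w : List (Let Γ Q)} {c : TM0.Cfg Γ Q} (h : Rep w c) : Let.h ∉ w := by
  obtain ⟨x, l, a, y, h1, rfl, -⟩ := h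
  simp [h1.noh]

theorem rep_step {w : List (Let Γ Q)} {c c' : TM0.Cfg Γ Q} (h : Rep w c)
    (hs : TM0.step M c = some c') :
    ∃ w1 w', Fwd (RM M) w w1 ∧ ReflTransGen (Fwd (RM M)) w1 w' ∧ Rep w' c' := by
  obtain ⟨q, T⟩ := c
  obtain ⟨x, l, a, y, h1, rfl, h2⟩ := h
  simp only at h2
  subst h2
  obtain ⟨⟨q', s⟩, hm, rfl⟩ := Option.map_eq_some_iff.1 hs
  simp only at hm
  rcases s with (_ | _) | b
  · obtain ⟨x', h3, h4⟩ := seek_run (M := M) q' a (List.map sym y ++ [R]) h1.junk 0
    refine ⟨_, _, ?_, h4, x', l.tail, l.headI, a :: y, h3, rfl, ?_⟩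
    · simpa using fw (Rule.left hm) (L :: x) (List.map sym y ++ [R])
    · simp [Tape.move]
  · cases y with
    | nil =>
      refine ⟨_, _, ?_, ReflTransGen.refl, _, a :: l, default, [], (h1.sym a).junk, rfl, ?_⟩
      · simpa using fw (Rule.right2 hm) (L :: x) []
      · simp [Tape.move]
    | cons c y =>
      refine ⟨_, _, ?_, ReflTransGen.refl, _, a :: l, c, y, (h1.sym a).junk, rfl, ?_⟩
      · simpa using fw (Rule.right1 c hm) (L :: x) (List.map sym y ++ [R])
      · simp [Tape.move]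
  · refine ⟨_, _, ?_, ReflTransGen.refl, _, l, b, y, h1.junk, rfl, rfl⟩
    simpa using fw (Rule.write hm) (L :: x) (List.map sym y ++ [R])

def w0 (a : Γ) (y : List Γ) : List (Let Γ Q) := L :: st default :: sym a :: (List.map sym y ++ [R])

theorem rep_init (a : Γ) (y : List Γ) : Rep (w0 a y) (TM0.init (Λ := Q) (a :: y)) :=
  ⟨[], [], a, y, LJ.nil, rfl, by simp [TM0.init, Tape.mk₁, Tape.mk₂, Tape.mk']⟩

theorem of_halt (a : Γ) (y : List Γ) (h : (TM0.eval M (a :: y)).Dom) :
    ∃ x z, ReflTransGen (Fwd (RM M)) (w0 a y) (x ++ [Let.h] ++ z) := by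
  obtain ⟨c, hc⟩ := Part.dom_iff_mem.1 (show (StateTransition.eval (TM0.step M) _).Dom from h)
  obtain ⟨h1, h2⟩ := StateTransition.mem_eval.1 hc
  have : ∃ w, ReflTransGen (Fwd (RM M)) (w0 a y) w ∧ Rep w c := by
    clear hc h2
    induction h1 with
    | refl => exact ⟨_, ReflTransGen.refl, rep_init a y⟩
    | tail _ h ih =>
      obtain ⟨w, h3, h4⟩ := ih
      obtain ⟨w1, w', h5, h6, h7⟩ := rep_step h4 h
      exact ⟨w', (h3.tail h5).trans h6, h7⟩
  obtain ⟨w, h3, x, l, b, y', h4, rfl, h5⟩ := this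
  obtain ⟨q, T⟩ := c
  simp only at h5
  subst h5
  have hm : M q b = none := by simpa [TM0.step] using h2
  refine ⟨L :: x, j :: sym b :: (List.map sym y' ++ [R]), h3.tail ?_⟩
  simpa using fw (Rule.halt hm) (L :: x) (List.map sym y' ++ [R])

theorem of_not_halt (a : Γ) (y : List Γ) (h : ¬ (TM0.eval M (a :: y)).Dom) :
    GoodM M (w0 a y) := by
  have hc : (w0 (Q := Q) a y).countP isHead = 1 := by
    simp [w0, List.countP_cons, isHead, List.countP_eq_zero]
  refine ⟨hc, fun z hz hzh => ?_⟩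
  have : ∀ n : ℕ, ∃ w c, StateTransition.Reaches (TM0.step M) (TM0.init (a :: y)) c ∧ Rep w c ∧
      ReflTransGen (Fwd (RM M)) (w0 a y) w ∧ n ≤ w.length := by
    intro n
    induction n with
    | zero => exact ⟨_, _, ReflTransGen.refl, rep_init a y, ReflTransGen.refl, Nat.zero_le _⟩
    | succ n ih =>
      obtain ⟨w, c, h1, h2, h3, h4⟩ := ih
      cases hs : TM0.step M c with
      | none =>
        exact absurd (Part.dom_iff_mem.2 ⟨c, StateTransition.mem_eval.2 ⟨h1, hs⟩⟩ :
          (StateTransition.eval (TM0.step M) _).Dom) h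
      | some c' =>
        obtain ⟨w1, w', h5, h6, h7⟩ := rep_step h2 hs
        have := (fwd_props h5).1
        have := (star_props h6).1
        exact ⟨w', c', h1.tail hs, h7, (h3.tail h5).trans h6, by omega⟩
  obtain ⟨w, c, -, h2, h3, h4⟩ := this (z.length + 1)
  have := (star_props (conf h3 h2.noh hzh hc hz)).1
  omega

end sim

theorem undec : ∃ (R : List (List ℕ × List ℕ)) (w : ℕ → List ℕ) (P : ℕ → Prop),
    Computable w ∧ (∀ r ∈ R, r.1 ≠ [] ∧ r.1.length < r.2.length) ∧ (∀ n, w n ≠ []) ∧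
    ¬ ComputablePred P ∧ ∀ n,
      (P n → ∃ (φ : DG {r | r ∈ R} (w n) →* Multiplicative ℤ) (g : DG {r | r ∈ R} (w n)),
        φ g = Multiplicative.ofAdd 1) ∧ (¬ P n → ∀ g : DG {r | r ∈ R} (w n), g = 1) := by
  obtain ⟨Γ, Q, _, _, _, _, M, a0, a1, a2, hM⟩ := H11Halt.exists_tm
  obtain ⟨f, hf⟩ := exists_injective_nat (Let Γ Q)
  have hfin : (mapR f (RM M)).Finite := by
    refine Set.Finite.image _ (((List.finite_length_le (Let Γ Q) 5).prod
      (List.finite_length_le (Let Γ Q) 5)).subset ?_)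
    rintro ⟨u, v⟩ h
    have := RM_len h
    exact ⟨by show u.length ≤ 5; omega, this.2.2.1⟩
  have hR : {r | r ∈ hfin.toFinset.toList} = mapR f (RM M) := by ext; simp
  refine ⟨hfin.toFinset.toList, fun n => (w0 a0 (a1 :: List.replicate n a2)).map f, _, ?_, ?_,
    fun n => by simp [w0], hM, fun n => ?_⟩
  · have : Primrec fun n : ℕ => [f .L, f (.st default), f (.sym a0), f (.sym a1)] ++
        (((List.range n).map fun _ => f (.sym a2)) ++ [f .R]) :=
      Primrec.list_append.comp (Primrec.const _) (Primrec.list_append.comp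
        (Primrec.list_map Primrec.list_range (Primrec.const _).to₂) (Primrec.const _))
    refine this.to_comp.of_eq fun n => ?_
    simp [w0, List.map_const']
  · intro r hr
    obtain ⟨⟨u, v⟩, h, rfl⟩ : r ∈ mapR f (RM M) := by simpa using hr
    have := RM_len h
    simpa using ⟨this.1, this.2.1⟩
  · rw [hR]
    refine ⟨fun h => ?_, fun h => (detM.map f hf).trivial ⟨_, of_not_halt _ _ h, rfl⟩⟩
    obtain ⟨x, z, hz⟩ := of_halt _ _ h
    refine onto_int (x := x.map f) (y := z.map f) (h := f .h) (j := f .j)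
      (by simpa using fwd_map f hz) ⟨([.h], [.h, .j]), ⟨[], _, [], Rule.h1, rfl⟩, rfl⟩
      ⟨([.h], [.h, .j, .j]), ⟨[], _, [], Rule.h2, rfl⟩, rfl⟩

end H11Diag
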