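import Pool.Agent.Lib.helper11.DiagDef

set_option autoImplicit false

namespace H11Diag

theorem free_comm {F : Type} [Group F] [IsFreeGroup F] (u v : F) (h : Commute u v) :
    ∃ m n : ℤ, (m ≠ 0 ∨ n ≠ 0) ∧ u ^ m * v ^ n = 1 := by
  let H := Subgroup.closure ({u, v} : Set F)
  have hc : ∀ a b : H, a * b = b * a := by
    intro a b
    apply Subtype.ext
    refine Subgroup.closure_induction₂ (p := fun x y _ _ => x * y = y * x) ?_ ?_ ?_ ?_ ?_ ?_ ?_
      a.2 b.2
    · rintro x y (rfl | rfl) (rfl | rfl)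
      exacts [rfl, h.eq, h.symm.eq, rfl]
    · simp
    · simp
    · intro x y z _ _ _ h1 h2; exact (Commute.mul_left h1 h2).eq
    · intro x y z _ _ _ h1 h2; exact (Commute.mul_right h1 h2).eq
    · intro x y _ _ h1; exact (Commute.inv_left h1).eq
    · intro x y _ _ h1; exact (Commute.inv_right h1).eq
  have hsub : Subsingleton (IsFreeGroup.Generators H) := by
    classical
    refine ⟨fun i j => ?_⟩
    by_contra hij
    let f : H →* Equiv.Perm (Fin 3) := IsFreeGroup.lift
      (fun x => if x = i then Equiv.swap 0 1 else Equiv.swap 1 2)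
    have := congrArg f (hc (IsFreeGroup.of i) (IsFreeGroup.of j))
    simp only [map_mul, f, IsFreeGroup.lift_of, if_true, if_neg (Ne.symm hij)] at this
    exact absurd this (by decide)
  have hcyc : ∃ c : H, ∀ x : H, ∃ k : ℤ, c ^ k = x := by
    rcases isEmpty_or_nonempty (IsFreeGroup.Generators H) with he | ⟨⟨i⟩⟩
    · refine ⟨1, fun x => ⟨0, ?_⟩⟩
      have : (MonoidHom.id H) = 1 := IsFreeGroup.ext_hom fun a => he.elim a
      simpa using (DFunLike.congr_fun this x).symm
    · refine ⟨IsFreeGroup.of i, fun x => ?_⟩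
      let f : H →* Multiplicative ℤ := IsFreeGroup.lift fun _ => Multiplicative.ofAdd 1
      have : (MonoidHom.id H) = (zpowersHom H (IsFreeGroup.of i)).comp f :=
        IsFreeGroup.ext_hom fun a => by
          simp [f, Subsingleton.elim a i]
      exact ⟨_, (DFunLike.congr_fun this x).symm⟩
  obtain ⟨c, hc⟩ := hcyc
  obtain ⟨a, ha⟩ := hc ⟨u, Subgroup.subset_closure (by simp)⟩
  obtain ⟨b, hb⟩ := hc ⟨v, Subgroup.subset_closure (by simp)⟩
  have ha' : c.1 ^ a = u := by simpa using congrArg Subtype.val ha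
  have hb' : c.1 ^ b = v := by simpa using congrArg Subtype.val hb
  by_cases h0 : a = 0
  · exact ⟨1, 0, Or.inl one_ne_zero, by simp [← ha', h0]⟩
  · refine ⟨b, -a, Or.inr (neg_ne_zero.2 h0), ?_⟩
    rw [← ha', ← hb', ← zpow_mul, ← zpow_mul, ← zpow_add]
    simp [mul_comm]

abbrev K := FreeGroup Bool
def tK : K := FreeGroup.of true
def yK (n : ℕ) : K := tK⁻¹ ^ n * FreeGroup.of false * tK ^ n
def LK : Subgroup K := Subgroup.closure (Set.range yK)
def act : K →* MulAut (FreeGroup (K ⧸ LK)) where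
  toFun k := FreeGroup.freeGroupCongr (MulAction.toPerm k)
  map_one' := by
    ext1 x
    induction x using FreeGroup.induction_on <;> simp_all
  map_mul' a b := by
    ext1 x
    induction x using FreeGroup.induction_on <;> simp_all [mul_smul]

theorem act_of (k : K) (x : K ⧸ LK) : act k (FreeGroup.of x) = FreeGroup.of (k • x) := by
  simp [act]

abbrev HH := FreeGroup (K ⧸ LK) ⋊[act] K

open SemidirectProduct

theorem no_four (u : Fin 4 → HH) (hc : ∀ i j, Commute (u i) (u j)) :
    ∃ e : Fin 4 → ℤ, e ≠ 0 ∧ u 0 ^ e 0 * u 1 ^ e 1 * u 2 ^ e 2 * u 3 ^ e 3 = 1 := by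
  obtain ⟨a, b, hab, h1⟩ := free_comm _ _ ((hc 0 1).map rightHom)
  obtain ⟨c, d, hcd, h2⟩ := free_comm _ _ ((hc 2 3).map rightHom)
  rw [← map_zpow, ← map_zpow, ← map_mul, ← MonoidHom.mem_ker, ← range_inl_eq_ker_rightHom] at h1 h2
  obtain ⟨x, hx⟩ := h1
  obtain ⟨y, hy⟩ := h2
  have hxy : Commute x y := by
    apply inl_injective (φ := act)
    rw [map_mul, map_mul, hx, hy]
    exact (Commute.mul_left (((hc 0 2).zpow_zpow _ _).mul_right ((hc 0 3).zpow_zpow _ _))
      (((hc 1 2).zpow_zpow _ _).mul_right ((hc 1 3).zpow_zpow _ _))).eq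
  obtain ⟨r, s, hrs, h3⟩ := free_comm x y hxy
  have h4 := congrArg (inl (φ := act)) h3
  rw [map_mul, map_zpow, map_zpow, hx, hy, map_one, ((hc 0 1).zpow_zpow _ _).mul_zpow,
    ((hc 2 3).zpow_zpow _ _).mul_zpow, ← zpow_mul, ← zpow_mul, ← zpow_mul, ← zpow_mul,
    ← mul_assoc] at h4
  refine ⟨![a * r, b * r, c * s, d * s], fun h => ?_, h4⟩
  have e0 : a * r = 0 := congrFun h 0
  have e1 : b * r = 0 := congrFun h 1
  have e2 : c * s = 0 := congrFun h 2
  have e3 : d * s = 0 := congrFun h 3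
  simp only [mul_eq_zero] at e0 e1 e2 e3
  tauto

def alH : HH := inl (FreeGroup.of ((1 : K) : K ⧸ LK))

theorem alH_comm (k : K) : Commute alH (inr k) ↔ k ∈ LK := by
  have : inr k * alH * (inr k)⁻¹ = inl (FreeGroup.of ((k : K) : K ⧸ LK)) := by
    rw [alH, ← map_inv, ← inl_aut, act_of]
    simp [MulAction.Quotient.smul_mk]
  constructor
  · intro h
    rw [← h.eq, mul_inv_cancel_right] at this
    have h2 := FreeGroup.of_injective (inl_injective this)
    simpa using QuotientGroup.eq.1 h2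
  · intro h
    have h2 : ((k : K) : K ⧸ LK) = ((1 : K) : K ⧸ LK) :=
      (QuotientGroup.eq.2 (by simpa using h)).symm
    rw [h2, mul_inv_eq_iff_eq_mul] at this
    exact this.symm

theorem back_not_mem : tK * FreeGroup.of false * tK⁻¹ ∉ LK := by
  let f : K →* Equiv.Perm ℤ := FreeGroup.lift fun b => if b then Equiv.addRight 1 else Equiv.swap 0 1
  have ht : ∀ n : ℕ, ∀ x : ℤ, (f tK ^ n) x = x + n := by
    intro n
    induction n with
    | zero => simp
    | succ n ih =>
      intro x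
      rw [pow_succ, Equiv.Perm.mul_apply, ih]
      simp [f, tK]; ring
  have : LK ≤ (MulAction.stabilizer (Equiv.Perm ℤ) (2 : ℤ)).comap f := by
    rw [LK, Subgroup.closure_le]
    rintro _ ⟨n, rfl⟩
    show f (yK n) 2 = 2
    simp only [yK, map_mul, map_pow, map_inv, Equiv.Perm.mul_apply, ht, inv_pow]
    rw [Equiv.Perm.inv_eq_iff_eq, ht]
    simp only [f, FreeGroup.lift_apply_of, Bool.false_eq_true, if_false]
    apply Equiv.swap_apply_of_ne_of_ne <;> omega
  intro h
  have h2 : f (tK * FreeGroup.of false * tK⁻¹) 2 = 2 := this h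
  simp [f, tK] at h2

/-! The presentation `a = ap, a = app, b = pb, b = ppb` with `a, p, b = 0, 1, 2`. -/

def RR : Set (List (Fin 3) × List (Fin 3)) :=
  {([0], [0, 1]), ([0], [0, 1, 1]), ([2], [1, 2]), ([2], [1, 1, 2])}

def WW (n : ℕ) : List (Fin 3) := 0 :: (List.replicate n 1 ++ [2])

theorem split0 {x y : List (Fin 3)} {n : ℕ} (h : x ++ 0 :: y = WW n) :
    x = [] ∧ y = List.replicate n 1 ++ [2] := by
  cases x with
  | nil => simpa [WW] using h
  | cons c x =>
    exfalso
    simp only [WW, List.cons_append, List.cons.injEq] at h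
    have : (0 : Fin 3) ∈ List.replicate n 1 ++ [2] := by rw [← h.2]; simp
    simp at this

theorem split2 {x y : List (Fin 3)} {n : ℕ} (h : x ++ 2 :: y = WW n) :
    y = [] ∧ x = 0 :: List.replicate n 1 := by
  rcases List.eq_nil_or_concat y with rfl | ⟨y, c, rfl⟩
  · refine ⟨rfl, ?_⟩
    have : x ++ [2] = (0 :: List.replicate n 1) ++ [2] := h
    exact List.append_cancel_right this
  · exfalso
    have : (x ++ 2 :: y) ++ [c] = (0 :: List.replicate n 1) ++ [2] := by
      simpa [WW] using h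
    have h2 := (List.append_inj' this rfl).1
    have : (2 : Fin 3) ∈ 0 :: List.replicate n 1 := by rw [← h2]; simp
    simp at this

def A1 (n : ℕ) : Edge (Fin 3) := ([], ([0], [0, 1]), List.replicate n 1 ++ [2], true)
def A2 (n : ℕ) : Edge (Fin 3) := ([], ([0], [0, 1, 1]), List.replicate n 1 ++ [2], true)
def B1 (n : ℕ) : Edge (Fin 3) := (0 :: List.replicate n 1, ([2], [1, 2]), [], true)
def B2 (n : ℕ) : Edge (Fin 3) := (0 :: List.replicate n 1, ([2], [1, 1, 2]), [], true)

theorem rep1 (n : ℕ) (l : List (Fin 3)) :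
    List.replicate n 1 ++ 1 :: l = 1 :: (List.replicate n 1 ++ l) := by
  induction n with
  | zero => rfl
  | succ n ih => simp [List.replicate_succ, ih]

theorem srcA1 (n : ℕ) : src (A1 n) = WW n := by simp [src, A1, WW]
theorem srcA2 (n : ℕ) : src (A2 n) = WW n := by simp [src, A2, WW]
theorem srcB1 (n : ℕ) : src (B1 n) = WW n := by simp [src, B1, WW]
theorem srcB2 (n : ℕ) : src (B2 n) = WW n := by simp [src, B2, WW]
theorem tgtA1 (n : ℕ) : tgt (A1 n) = WW (n + 1) := by simp [tgt, A1, WW, List.replicate_succ]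
theorem tgtA2 (n : ℕ) : tgt (A2 n) = WW (n + 2) := by simp [tgt, A2, WW, List.replicate_succ]
theorem tgtB1 (n : ℕ) : tgt (B1 n) = WW (n + 1) := by
  simp [tgt, B1, WW, List.replicate_succ, rep1]
theorem tgtB2 (n : ℕ) : tgt (B2 n) = WW (n + 2) := by
  simp [tgt, B2, WW, List.replicate_succ, rep1]

def Fw (e : Edge (Fin 3)) : Prop := ∃ n, e = A1 n ∨ e = A2 n ∨ e = B1 n ∨ e = B2 n

theorem cls_fw {x u v y : List (Fin 3)} (h : (u, v) ∈ RR) {n : ℕ} (hn : x ++ u ++ y = WW n) :
    Fw (x, (u, v), y, true) := by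
  simp only [RR, Set.mem_insert_iff, Set.mem_singleton_iff, Prod.mk.injEq] at h
  rcases h with ⟨rfl, rfl⟩ | ⟨rfl, rfl⟩ | ⟨rfl, rfl⟩ | ⟨rfl, rfl⟩
  · obtain ⟨rfl, rfl⟩ := split0 (x := x) (y := y) (by simpa using hn)
    exact ⟨n, Or.inl rfl⟩
  · obtain ⟨rfl, rfl⟩ := split0 (x := x) (y := y) (by simpa using hn)
    exact ⟨n, Or.inr (Or.inl rfl)⟩
  · obtain ⟨rfl, rfl⟩ := split2 (x := x) (y := y) (by simpa using hn)
    exact ⟨n, Or.inr (Or.inr (Or.inl rfl))⟩
  · obtain ⟨rfl, rfl⟩ := split2 (x := x) (y := y) (by simpa using hn)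
    exact ⟨n, Or.inr (Or.inr (Or.inr rfl))⟩

theorem peelL {y : List (Fin 3)} {n : ℕ} (h : 1 :: y = List.replicate n 1 ++ [2]) :
    ∃ m, y = List.replicate m 1 ++ [2] := by
  cases n with
  | zero => simp at h
  | succ n => exact ⟨n, by simpa [List.replicate_succ] using h⟩

theorem peelR {x : List (Fin 3)} {n : ℕ} (h : x ++ [1] = 0 :: List.replicate n 1) :
    ∃ m, x = 0 :: List.replicate m 1 := by
  cases n with
  | zero =>
    have := List.append_inj' (s₂ := []) (t₂ := [0]) h rfl
    simp at this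
  | succ n =>
    refine ⟨n, ?_⟩
    rw [List.replicate_succ'] at h
    exact List.append_cancel_right (bs := [1]) h

theorem back {x u v y : List (Fin 3)} (h : (u, v) ∈ RR) {n : ℕ} (hn : x ++ v ++ y = WW n) :
    ∃ m, x ++ u ++ y = WW m := by
  simp only [RR, Set.mem_insert_iff, Set.mem_singleton_iff, Prod.mk.injEq] at h
  rcases h with ⟨rfl, rfl⟩ | ⟨rfl, rfl⟩ | ⟨rfl, rfl⟩ | ⟨rfl, rfl⟩
  · obtain ⟨rfl, h⟩ := split0 (x := x) (y := 1 :: y) (by simpa using hn)
    obtain ⟨m, rfl⟩ := peelL h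
    exact ⟨m, by simp [WW]⟩
  · obtain ⟨rfl, h⟩ := split0 (x := x) (y := 1 :: 1 :: y) (by simpa using hn)
    obtain ⟨m, h⟩ := peelL h
    obtain ⟨m, rfl⟩ := peelL h
    exact ⟨m, by simp [WW]⟩
  · obtain ⟨rfl, h⟩ := split2 (x := x ++ [1]) (y := y) (by simpa using hn)
    obtain ⟨m, rfl⟩ := peelR h
    exact ⟨m, by simp [WW]⟩
  · obtain ⟨rfl, h⟩ := split2 (x := x ++ [1] ++ [1]) (y := y) (by simpa using hn)
    obtain ⟨m, h⟩ := peelR h
    obtain ⟨m, rfl⟩ := peelR h
    exact ⟨m, by simp [WW]⟩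

open Classical in
noncomputable def lab0 (x : List (Fin 3)) (r : List (Fin 3) × List (Fin 3)) (y : List (Fin 3)) :
    HH :=
  if ∃ n, x ++ r.1 ++ y = WW n then
    if r.2 = [0, 1] then inr tK else if r.2 = [0, 1, 1] then alH * inr (tK ^ 2)
    else if r.2 = [1, 2] then 1 else inr (yK (x.length - 1))
  else 1

noncomputable def lab (e : Edge (Fin 3)) : HH :=
  if e.2.2.2 then lab0 e.1 e.2.1 e.2.2.1 else (lab0 e.1 e.2.1 e.2.2.1)⁻¹

theorem lab_flip (e : Edge (Fin 3)) : lab (flipE e) = (lab e)⁻¹ := by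
  obtain ⟨x, r, y, c⟩ := e
  cases c <;> simp [lab, flipE]

theorem lab0_pos {x y : List (Fin 3)} {r : List (Fin 3) × List (Fin 3)} (n : ℕ)
    (h : x ++ r.1 ++ y = WW n) : lab0 x r y =
      if r.2 = [0, 1] then inr tK else if r.2 = [0, 1, 1] then alH * inr (tK ^ 2)
      else if r.2 = [1, 2] then 1 else inr (yK (x.length - 1)) := if_pos ⟨n, h⟩

theorem labA1 (n : ℕ) : lab (A1 n) = inr tK := by
  simp only [lab, A1, if_true]
  rw [lab0_pos n (by simp [WW])]; simp
theorem labA2 (n : ℕ) : lab (A2 n) = alH * inr (tK ^ 2) := by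
  simp only [lab, A2, if_true]
  rw [lab0_pos n (by simp [WW])]; simp
theorem labB1 (n : ℕ) : lab (B1 n) = 1 := by
  simp only [lab, B1, if_true]
  rw [lab0_pos n (by simp [WW])]; simp
theorem labB2 (n : ℕ) : lab (B2 n) = inr (yK n) := by
  simp only [lab, B2, if_true]
  rw [lab0_pos n (by simp [WW])]; simp

noncomputable def Phi (l : List (Edge (Fin 3))) : HH := (l.map lab).prod

theorem Phi_append (a b : List (Edge (Fin 3))) : Phi (a ++ b) = Phi a * Phi b := by simp [Phi]

theorem yK_succ (n : ℕ) : tK * yK (n + 1) = yK n * tK := by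
  simp only [yK, pow_succ' tK⁻¹, pow_succ tK]; group

theorem yK_mem (n : ℕ) : yK n ∈ LK := Subgroup.subset_closure ⟨n, rfl⟩

theorem Phi_step {a b : List (Edge (Fin 3))} (h : Step a b) (hb : ∀ s ∈ b, s.2.1 ∈ RR) :
    Phi a = Phi b := by
  cases h with
  | cancel p q x r y c =>
    have := lab_flip (x, r, y, c)
    simp only [flipE] at this
    simp [Phi, this]
  | square p q x u₁ v₁ y u₂ v₂ z =>
    have h2 : (u₂, v₂) ∈ RR := hb (x ++ u₁ ++ y, (u₂, v₂), z, true) (by simp)
    have h1 : (u₁, v₁) ∈ RR := hb (x, (u₁, v₁), y ++ v₂ ++ z, true) (by simp)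
    simp only [Phi_append]
    congr 2
    simp only [Phi, List.map_cons, List.map_nil, List.prod_cons, List.prod_nil, mul_one]
    by_cases hw : ∃ n, x ++ u₁ ++ (y ++ u₂ ++ z) = WW n
    · obtain ⟨n, hn⟩ := hw
      have hu : (u₁ = [0] ∨ u₁ = [2]) ∧ (u₂ = [0] ∨ u₂ = [2]) := by
        simp only [RR, Set.mem_insert_iff, Set.mem_singleton_iff, Prod.mk.injEq] at h1 h2
        tauto
      obtain ⟨rfl | rfl, rfl | rfl⟩ := hu
      · have := (split0 (x := x ++ [0] ++ y) (y := z) (by simpa using hn)).1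
        simp at this
      · obtain ⟨rfl, h3⟩ := split0 (x := x) (y := y ++ [2] ++ z) (by simpa using hn)
        obtain ⟨rfl, h4⟩ := split2 (x := [0] ++ y) (y := z) (by simpa using hn)
        obtain rfl : y = List.replicate n 1 := by simpa using h4
        have a1 := labA1
        have a2 := labA2
        have b1 := labB1
        have b2 := labB2
        simp only [RR, Set.mem_insert_iff, Set.mem_singleton_iff, Prod.mk.injEq] at h1 h2
        simp at h1 h2
        rcases h1 with rfl | rfl <;> rcases h2 with rfl | rfl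
        · have := (show lab (A1 n) * lab (B1 (n + 1)) = lab (B1 n) * lab (A1 (n + 1)) by
            simp only [a1, b1, one_mul, mul_one])
          simpa [A1, B1, List.replicate_succ, rep1] using this
        · have := (show lab (A1 n) * lab (B2 (n + 1)) = lab (B2 n) * lab (A1 (n + 2)) by
            simp only [a1, b2, ← map_mul, yK_succ])
          simpa [A1, B2, List.replicate_succ, rep1] using this
        · have := (show lab (A2 n) * lab (B1 (n + 2)) = lab (B1 n) * lab (A2 (n + 1)) by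
            simp only [a2, b1, one_mul, mul_one])
          simpa [A2, B1, List.replicate_succ, rep1] using this
        · have := (show lab (A2 n) * lab (B2 (n + 2)) = lab (B2 n) * lab (A2 (n + 2)) by
            simp only [a2, b2]
            rw [← mul_assoc, ← ((alH_comm _).2 (yK_mem n)).eq, mul_assoc, mul_assoc, ← map_mul,
              ← map_mul, pow_two, mul_assoc, yK_succ, ← mul_assoc, yK_succ, mul_assoc])
          simpa [A2, B2, List.replicate_succ, rep1] using this
      · have := (split2 (x := x) (y := y ++ [0] ++ z) (by simpa using hn)).1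
        simp at this
      · have := (split2 (x := x) (y := y ++ [2] ++ z) (by simpa using hn)).1
        simp at this
    · have w2 : ¬ ∃ n, x ++ v₁ ++ y ++ u₂ ++ z = WW n := by
        rintro ⟨n, hn⟩
        exact hw (back h1 (n := n) (by simpa using hn))
      have w3 : ¬ ∃ n, x ++ u₁ ++ y ++ u₂ ++ z = WW n := by simpa using hw
      have w4 : ¬ ∃ n, x ++ u₁ ++ (y ++ v₂ ++ z) = WW n := by
        rintro ⟨n, hn⟩
        exact w3 (back h2 (n := n) (by simpa using hn))
      simp only [lab, lab0, if_true, if_neg hw, if_neg w2, if_neg w3, if_neg w4]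

theorem Walk.mem {A : Type} {R : Set (List A × List A)} {u v : List A} {l : List (Edge A)}
    (h : Walk R u l v) : ∀ s ∈ l, s.2.1 ∈ R := by
  induction h with
  | nil u => simp
  | cons e l v he _ ih =>
    intro s hs
    rcases List.mem_cons.1 hs with rfl | hs
    exacts [he, ih s hs]

abbrev DD := DG RR (WW 0)

noncomputable def PhiD : DD →* HH where
  toFun := Quot.lift (fun l => Phi l.1) fun _ b h => Phi_step h b.2.mem
  map_one' := rfl
  map_mul' a b := by
    rcases a with ⟨a⟩
    rcases b with ⟨b⟩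
    exact Phi_append a.1 b.1

theorem wA1 (n : ℕ) : Walk RR (WW n) [A1 n] (WW (n + 1)) := by
  have := Walk.single (R := RR) (e := A1 n) (by simp [RR, A1])
  rwa [srcA1, tgtA1] at this
theorem wA2 (n : ℕ) : Walk RR (WW n) [A2 n] (WW (n + 2)) := by
  have := Walk.single (R := RR) (e := A2 n) (by simp [RR, A2])
  rwa [srcA2, tgtA2] at this
theorem wB1 (n : ℕ) : Walk RR (WW n) [B1 n] (WW (n + 1)) := by
  have := Walk.single (R := RR) (e := B1 n) (by simp [RR, B1])
  rwa [srcB1, tgtB1] at this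
theorem wB2 (n : ℕ) : Walk RR (WW n) [B2 n] (WW (n + 2)) := by
  have := Walk.single (R := RR) (e := B2 n) (by simp [RR, B2])
  rwa [srcB2, tgtB2] at this

def tau : ℕ → List (Edge (Fin 3))
  | 0 => []
  | n + 1 => tau n ++ [B1 n]

theorem wtau (n : ℕ) : Walk RR (WW 0) (tau n) (WW n) := by
  induction n with
  | zero => exact Walk.nil _
  | succ n ih => exact ih.append (wB1 n)

def gam {n m : ℕ} (l : List (Edge (Fin 3))) (h : Walk RR (WW n) l (WW m)) : DD :=
  cls (tau n ++ (l ++ rev (tau m))) ((wtau n).append (h.append (wtau m).reverse))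

theorem gam_append {n m k : ℕ} {l l' : List (Edge (Fin 3))} (h : Walk RR (WW n) l (WW m))
    (h' : Walk RR (WW m) l' (WW k)) : gam (l ++ l') (h.append h') = gam l h * gam l' h' := by
  have := cls_cancel (w := WW 0) (wtau m).reverse (tau n ++ l) (l' ++ rev (tau k))
    ((wtau n).append h) (h'.append (wtau k).reverse)
  refine Eq.trans (cls_congr _ (by simp)) (this.symm.trans ?_)
  exact cls_congr _ (by simp [rev_rev, Loop.cat])

theorem gam_step {n m : ℕ} {l l' : List (Edge (Fin 3))} (h : Walk RR (WW n) l (WW m))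
    (h' : Walk RR (WW n) l' (WW m)) (s : Step l l') : gam l h = gam l' h' :=
  Quot.sound ((s.right _).left _)

theorem gam_nil (n : ℕ) : gam [] (Walk.nil (WW n)) = 1 := by
  have := cls_cancel (w := WW 0) (wtau n) [] [] (Walk.nil _) (Walk.nil _)
  exact (cls_congr _ (by simp)).trans this

theorem gB1 (n : ℕ) : gam _ (wB1 n) = 1 := by
  rw [← gam_nil (n + 1)]
  exact cls_congr _ (by simp [tau])

theorem sq11 (n : ℕ) : gam _ (wA1 n) * gam _ (wB1 (n + 1)) = gam _ (wB1 n) * gam _ (wA1 (n + 1)) := by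
  rw [← gam_append, ← gam_append]
  apply gam_step
  simpa [A1, B1, List.replicate_succ, rep1] using
    Step.square [] [] [] [0] [0, 1] (List.replicate n (1 : Fin 3)) [2] [1, 2] []
theorem sq12 (n : ℕ) : gam _ (wA1 n) * gam _ (wB2 (n + 1)) = gam _ (wB2 n) * gam _ (wA1 (n + 2)) := by
  rw [← gam_append, ← gam_append]
  apply gam_step
  simpa [A1, B2, List.replicate_succ, rep1] using
    Step.square [] [] [] [0] [0, 1] (List.replicate n (1 : Fin 3)) [2] [1, 1, 2] []
theorem sq21 (n : ℕ) : gam _ (wA2 n) * gam _ (wB1 (n + 2)) = gam _ (wB1 n) * gam _ (wA2 (n + 1)) := by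
  rw [← gam_append, ← gam_append]
  apply gam_step
  simpa [A2, B1, List.replicate_succ, rep1] using
    Step.square [] [] [] [0] [0, 1, 1] (List.replicate n (1 : Fin 3)) [2] [1, 2] []
theorem sq22 (n : ℕ) : gam _ (wA2 n) * gam _ (wB2 (n + 2)) = gam _ (wB2 n) * gam _ (wA2 (n + 2)) := by
  rw [← gam_append, ← gam_append]
  apply gam_step
  simpa [A2, B2, List.replicate_succ, rep1] using
    Step.square [] [] [] [0] [0, 1, 1] (List.replicate n (1 : Fin 3)) [2] [1, 1, 2] []

noncomputable def TD : DD := gam _ (wA1 0)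
noncomputable def BD : DD := gam _ (wB2 0)
noncomputable def AD : DD := gam _ (wA2 0) * (TD ^ 2)⁻¹

theorem gA1 (n : ℕ) : gam _ (wA1 n) = TD := by
  induction n with
  | zero => rfl
  | succ n ih => have := sq11 n; rw [gB1, gB1, mul_one, one_mul] at this; rw [← this, ih]

theorem gA2 (n : ℕ) : gam _ (wA2 n) = AD * TD ^ 2 := by
  induction n with
  | zero => simp [AD]
  | succ n ih => have := sq21 n; rw [gB1, gB1, mul_one, one_mul] at this; rw [← this, ih]

theorem gB2 (n : ℕ) : gam _ (wB2 n) = TD⁻¹ ^ n * BD * TD ^ n := by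
  induction n with
  | zero => simp [BD]
  | succ n ih =>
    have := sq12 n
    rw [gA1, gA1, ih] at this
    rw [eq_inv_mul_of_mul_eq this, pow_succ' TD⁻¹, pow_succ TD]
    simp only [mul_assoc]

theorem commD (n : ℕ) : Commute AD (TD⁻¹ ^ n * BD * TD ^ n) := by
  have := sq22 n
  rw [gA2, gA2, gB2, gB2] at this
  have e : AD * TD ^ 2 * (TD⁻¹ ^ (n + 2) * BD * TD ^ (n + 2)) =
      AD * (TD⁻¹ ^ n * BD * TD ^ n) * TD ^ 2 := by group
  rw [e, ← mul_assoc _ AD] at this
  exact mul_right_cancel this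

noncomputable def psiK : K →* DD := FreeGroup.lift fun b => if b then TD else BD

theorem psiK_t : psiK tK = TD := by simp [psiK, tK]

theorem psiK_y (n : ℕ) : psiK (yK n) = TD⁻¹ ^ n * BD * TD ^ n := by
  simp only [yK, map_mul, map_pow, map_inv, psiK_t]
  simp [psiK]

theorem psiK_comm (k : K) (hk : k ∈ LK) : Commute AD (psiK k) := by
  induction hk using Subgroup.closure_induction with
  | mem x hx => obtain ⟨n, rfl⟩ := hx; rw [psiK_y]; exact commD n
  | one => simp
  | mul x y _ _ hx hy => rw [map_mul]; exact hx.mul_right hy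
  | inv x _ hx => rw [map_inv]; exact hx.inv_right

noncomputable def psiX : K ⧸ LK → DD :=
  Quotient.lift (fun k => psiK k * AD * (psiK k)⁻¹) (by
    intro a b hab
    have h := psiK_comm _ (QuotientGroup.leftRel_apply.1 hab)
    rw [map_mul, map_inv] at h
    have : psiK b = psiK a * ((psiK a)⁻¹ * psiK b) := by group
    rw [this, mul_assoc (psiK a) _ AD, ← h.eq]
    group)

noncomputable def Psi : HH →* DD :=
  SemidirectProduct.lift (FreeGroup.lift psiX) psiK (by
    intro k
    ext x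
    obtain ⟨x, rfl⟩ := QuotientGroup.mk_surjective x
    simp only [MonoidHom.comp_apply, MulEquiv.coe_toMonoidHom, act_of, FreeGroup.lift_apply_of,
      MulAut.conj_apply]
    show psiK (k * x) * AD * (psiK (k * x))⁻¹ = psiK k * (psiK x * AD * (psiK x)⁻¹) * (psiK k)⁻¹
    rw [map_mul]; group)

theorem Psi_al : Psi alH = AD := by
  simp only [Psi, alH, lift_inl, FreeGroup.lift_apply_of]
  show psiK 1 * AD * (psiK 1)⁻¹ = AD
  simp

theorem Psi_inr (k : K) : Psi (inr k) = psiK k := lift_inr _ _ _ _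

theorem WW_inj {n m : ℕ} (h : WW n = WW m) : n = m := by
  simpa [WW] using congrArg List.length h

theorem gam_fw {e : Edge (Fin 3)} (he : Fw e) {n m : ℕ} (h : Walk RR (WW n) [e] (WW m)) :
    gam _ h = Psi (lab e) := by
  have hs : src e = WW n ∧ tgt e = WW m := by
    generalize WW n = u at h
    generalize WW m = v at h
    generalize hl : [e] = l at h
    cases h with
    | nil => simp at hl
    | cons e' l' v _ h2 =>
      obtain ⟨rfl, rfl⟩ := List.cons.inj hl
      generalize hu : tgt e = u at h2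
      generalize hl2 : [] = l at h2
      cases h2 with
      | nil => exact ⟨rfl, rfl⟩
      | cons => simp at hl2
  obtain ⟨k, rfl | rfl | rfl | rfl⟩ := he
  · obtain rfl := WW_inj ((srcA1 k).symm.trans hs.1)
    obtain rfl := WW_inj ((tgtA1 k).symm.trans hs.2)
    rw [gA1, labA1, Psi_inr, psiK_t]
  · obtain rfl := WW_inj ((srcA2 k).symm.trans hs.1)
    obtain rfl := WW_inj ((tgtA2 k).symm.trans hs.2)
    rw [gA2, labA2, map_mul, Psi_al, Psi_inr, map_pow, psiK_t]
  · obtain rfl := WW_inj ((srcB1 k).symm.trans hs.1)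
    obtain rfl := WW_inj ((tgtB1 k).symm.trans hs.2)
    rw [gB1, labB1, map_one]
  · obtain rfl := WW_inj ((srcB2 k).symm.trans hs.1)
    obtain rfl := WW_inj ((tgtB2 k).symm.trans hs.2)
    rw [gB2, labB2, Psi_inr, psiK_y]

theorem gam_edge {e : Edge (Fin 3)} (he : e.2.1 ∈ RR) {n : ℕ} (hn : src e = WW n) :
    ∃ (m : ℕ) (h : Walk RR (WW n) [e] (WW m)), tgt e = WW m ∧ gam _ h = Psi (lab e) := by
  obtain ⟨x, ⟨u, v⟩, y, c⟩ := e
  cases c
  · obtain ⟨m, hm⟩ := back he (n := n) hn
    have h : Walk RR (WW n) [(x, (u, v), y, false)] (WW m) := by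
      have := Walk.single (R := RR) (e := (x, (u, v), y, false)) he
      rwa [hn, show tgt (x, (u, v), y, false) = WW m from hm] at this
    refine ⟨m, h, hm, ?_⟩
    have h' : Walk RR (WW m) [(x, (u, v), y, true)] (WW n) := h.reverse
    have h1 : gam _ h' = Psi (lab (x, (u, v), y, true)) := gam_fw (cls_fw he hm) h'
    have h2 := gam_append h' h
    have h3 : gam _ (Walk.nil (WW m)) = gam _ (h'.append h) :=
      gam_step _ _ (Step.cancel [] [] x (u, v) y true)
    rw [← h3, gam_nil, h1] at h2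
    rw [show lab (x, (u, v), y, false) = (lab (x, (u, v), y, true))⁻¹ from
      lab_flip (x, (u, v), y, true), map_inv]
    exact (eq_inv_of_mul_eq_one_right h2.symm)
  · have hf := cls_fw he (n := n) hn
    have : ∃ m, tgt (x, (u, v), y, true) = WW m := by
      obtain ⟨k, h | h | h | h⟩ := hf <;> rw [h]
      exacts [⟨_, tgtA1 k⟩, ⟨_, tgtA2 k⟩, ⟨_, tgtB1 k⟩, ⟨_, tgtB2 k⟩]
    obtain ⟨m, hm⟩ := this
    have h : Walk RR (WW n) [(x, (u, v), y, true)] (WW m) := by
      have := Walk.single (R := RR) (e := (x, (u, v), y, true)) he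
      rwa [hn, hm] at this
    exact ⟨m, h, hm, gam_fw hf h⟩

theorem gam_eq {u v : List (Fin 3)} {l : List (Edge (Fin 3))} (h : Walk RR u l v) :
    ∀ (n m : ℕ) (hu : u = WW n) (hv : v = WW m), gam (n := n) (m := m) l (hu ▸ hv ▸ h) =
      Psi (Phi l) := by
  induction h with
  | nil u =>
    intro n m hu hv
    obtain rfl := WW_inj (hu.symm.trans hv)
    simpa [Phi] using gam_nil n
  | cons e l v he hl ih =>
    intro n m hu hv
    obtain ⟨k, h1, h2, h3⟩ := gam_edge he hu
    have := gam_append h1 (l' := l) (k := m) (h2 ▸ hv ▸ hl)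
    rw [h3, ih k m h2 hv, ← map_mul] at this
    exact this

theorem Psi_Phi (g : DD) : Psi (PhiD g) = g := by
  rcases g with ⟨l, h⟩
  exact (gam_eq h 0 0 rfl rfl).symm.trans (cls_congr _ (by simp [tau, rev]))

theorem PhiD_inj : Function.Injective PhiD := Function.LeftInverse.injective Psi_Phi

theorem Phi_rev (l : List (Edge (Fin 3))) : Phi (rev l) = (Phi l)⁻¹ := by
  induction l with
  | nil => simp [Phi, rev]
  | cons e l ih => rw [rev_cons, Phi_append, ih]; simp [Phi, lab_flip]

theorem Phi_tau (n : ℕ) : Phi (tau n) = 1 := by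
  induction n with
  | zero => rfl
  | succ n ih => rw [tau, Phi_append, ih]; simp [Phi, labB1]

theorem PhiD_gam {n m : ℕ} (l : List (Edge (Fin 3))) (h : Walk RR (WW n) l (WW m)) :
    PhiD (gam l h) = Phi l := by
  show Phi (tau n ++ (l ++ rev (tau m))) = _
  simp [Phi_append, Phi_rev, Phi_tau]

theorem not_commD : ¬ Commute AD (TD * BD * TD⁻¹) := by
  intro h
  have h1 := h.map PhiD
  have hT : PhiD TD = inr tK := by rw [TD, PhiD_gam]; simp [Phi, labA1]
  have hB : PhiD BD = inr (FreeGroup.of false) := by rw [BD, PhiD_gam]; simp [Phi, labB2, yK]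
  have hA : PhiD AD = alH := by
    rw [AD, map_mul, map_inv, map_pow, hT, PhiD_gam]; simp [Phi, labA2]
  rw [map_mul, map_mul, map_inv, hT, hB, hA, ← map_inv, ← map_mul, ← map_mul, alH_comm] at h1
  exact back_not_mem h1

theorem no_fourD (u : Fin 4 → DD) (hc : ∀ i j, Commute (u i) (u j)) :
    ∃ e : Fin 4 → ℤ, e ≠ 0 ∧ u 0 ^ e 0 * u 1 ^ e 1 * u 2 ^ e 2 * u 3 ^ e 3 = 1 := by
  obtain ⟨e, he, h⟩ := no_four (fun i => PhiD (u i)) fun i j => (hc i j).map PhiD
  refine ⟨e, he, PhiD_inj ?_⟩
  simpa only [map_mul, map_zpow, map_one] using h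

end H11Diag
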