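import Mathlib

/-! Polynomial functions with few terms, elimination and limits. -/

namespace Pool.Agent.Cx

open Filter Topology

abbrev Tm := Bool × List ℕ

def tv (x : ℕ → ℝ) (t : Tm) : ℝ := (bif t.1 then -1 else 1) * (t.2.map x).prod

def ev (l : List Tm) (x : ℕ → ℝ) : ℝ := (l.map (tv x)).sum

/-- `f` is a sum of at most `L` signed monomials in the variables of `A`, of degree at most `D` in
the variables below `n` -/
def Pl (A : Set ℕ) (n D L : ℕ) (f : (ℕ → ℝ) → ℝ) : Prop :=
  ∃ l : List Tm, l.length ≤ L ∧ (∀ t ∈ l, (∀ v ∈ t.2, v ∈ A) ∧ t.2.countP (· < n) ≤ D) ∧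
    ∀ x, f x = ev l x

@[simp] lemma ev_nil (x) : ev [] x = 0 := rfl
@[simp] lemma ev_cons (t l x) : ev (t :: l) x = tv x t + ev l x := by simp [ev]
@[simp] lemma ev_append (l l' x) : ev (l ++ l') x = ev l x + ev l' x := by simp [ev]

section
variable {A : Set ℕ} {n D L D' L' : ℕ} {f g : (ℕ → ℝ) → ℝ}

lemma Pl.mono {A' : Set ℕ} (h : Pl A n D L f) (hA : A ⊆ A') (hD : D ≤ D') (hL : L ≤ L') :
    Pl A' n D' L' f :=
  let ⟨l, h1, h2, h3⟩ := h
  ⟨l, h1.trans hL, fun t ht => ⟨fun v hv => hA ((h2 t ht).1 v hv), (h2 t ht).2.trans hD⟩, h3⟩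

lemma Pl.le (h : Pl A n D L f) (hD : D ≤ D') (hL : L ≤ L') : Pl A n D' L' f := h.mono le_rfl hD hL

lemma Pl.of_eq (h : Pl A n D L f) (e : ∀ x, g x = f x) : Pl A n D L g := funext e ▸ h

lemma Pl.forget (h : Pl A n D L f) : Pl A 0 0 L f :=
  let ⟨l, h1, h2, h3⟩ := h
  ⟨l, h1, fun t ht => ⟨(h2 t ht).1, by simp⟩, h3⟩

lemma Pl.zero : Pl A n D L fun _ => 0 := ⟨[], by simp, by simp, by simp⟩

lemma Pl.term (t : Tm) (h : ∀ v ∈ t.2, v ∈ A) (h' : t.2.countP (· < n) ≤ D) :
    Pl A n D 1 fun x => tv x t := ⟨[t], by simp, by simpa using ⟨h, h'⟩, by simp⟩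

lemma Pl.one : Pl A n 0 1 fun _ => 1 := (Pl.term (false, []) (by simp) (by simp)).of_eq (by simp [tv])

lemma Pl.var {v : ℕ} (h : v ∈ A) : Pl A n 1 1 fun x => x v :=
  (Pl.term (false, [v]) (by simpa) (List.countP_le_length)).of_eq (by simp [tv])

lemma Pl.par {v : ℕ} (h : v ∈ A) (h' : n ≤ v) : Pl A n 0 1 fun x => x v :=
  (Pl.term (false, [v]) (by simpa) (by simpa)).of_eq (by simp [tv])

lemma Pl.add (h : Pl A n D L f) (h' : Pl A n D L' g) : Pl A n D (L + L') fun x => f x + g x :=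
  let ⟨l, h1, h2, h3⟩ := h
  let ⟨l', h1', h2', h3'⟩ := h'
  ⟨l ++ l', by simp; omega, fun t ht => (List.mem_append.1 ht).elim (h2 t) (h2' t),
    by simp [h3, h3']⟩

lemma Pl.mul (h : Pl A n D L f) (h' : Pl A n D' L' g) :
    Pl A n (D + D') (L * L') fun x => f x * g x := by
  obtain ⟨l, h1, h2, h3⟩ := h
  obtain ⟨l', h1', h2', h3'⟩ := h'
  refine ⟨l.flatMap fun t => l'.map fun s => (xor t.1 s.1, t.2 ++ s.2), ?_, ?_, fun x => ?_⟩
  · simpa using Nat.mul_le_mul h1 h1'
  · simp only [List.mem_flatMap, List.mem_map]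
    rintro _ ⟨t, ht, s, hs, rfl⟩
    have := h2 t ht
    have := h2' s hs
    simp only [List.mem_append, List.countP_append]
    exact ⟨fun v hv => hv.elim ((h2 t ht).1 v) ((h2' s hs).1 v), by omega⟩
  · simp only [h3, h3']
    clear h1 h2 h3 h1' h2' h3'
    induction l with
    | nil => simp
    | cons t l ih =>
      rw [List.flatMap_cons, ev_append, ← ih, ev_cons, add_mul]
      congr 1
      clear ih
      induction l' with
      | nil => simp
      | cons s l' ih =>
        rw [List.map_cons, ev_cons, ev_cons, ← ih, mul_add]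
        congr 1
        obtain ⟨a, t⟩ := t
        obtain ⟨b, s⟩ := s
        cases a <;> cases b <;> simp [tv]

lemma Pl.neg (h : Pl A n D L f) : Pl A n D L fun x => -f x :=
  (((Pl.term (n := n) (D := 0) (true, []) (by simp) (by simp)).mul h).le (by omega) (by omega)).of_eq
    (by simp [tv])

lemma Pl.sub (h : Pl A n D L f) (h' : Pl A n D L' g) : Pl A n D (L + L') fun x => f x - g x :=
  (h.add h'.neg).of_eq fun _ => sub_eq_add_neg _ _

lemma Pl.sq (h : Pl A n D L f) : Pl A n (2 * D) (L * L) fun x => f x ^ 2 :=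
  ((h.mul h).le (by omega) le_rfl).of_eq fun _ => _root_.sq _

lemma Pl.sum {ι : Type} (s : Finset ι) {F : ι → (ℕ → ℝ) → ℝ} (h : ∀ i ∈ s, Pl A n D L (F i)) :
    Pl A n D (s.card * L) fun x => ∑ i ∈ s, F i x := by
  classical
  induction s using Finset.induction_on with
  | empty => simpa using Pl.zero
  | insert a s ha ih =>
    simp only [Finset.sum_insert ha, Finset.card_insert_of_notMem ha]
    exact ((h a (by simp)).add (ih fun i hi => h i (by simp [hi]))).le le_rfl (by nlinarith)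

lemma Pl.lsum {ι : Type} (s : List ι) {F : ι → (ℕ → ℝ) → ℝ} (h : ∀ i ∈ s, Pl A n D L (F i)) :
    Pl A n D (s.length * L) fun x => (s.map fun i => F i x).sum := by
  induction s with
  | nil => simpa using Pl.zero
  | cons a s ih =>
    simp only [List.map_cons, List.sum_cons, List.length_cons]
    exact ((h a (by simp)).add (ih fun i hi => h i (by simp [hi]))).le le_rfl (by nlinarith)

lemma Pl.prod {ι : Type} (s : Finset ι) {F : ι → (ℕ → ℝ) → ℝ} (h : ∀ i ∈ s, Pl A 0 0 L (F i)) :
    Pl A 0 0 (L ^ s.card) fun x => ∏ i ∈ s, F i x := by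
  classical
  induction s using Finset.induction_on with
  | empty => simpa using Pl.one
  | insert a s ha ih =>
    simp only [Finset.prod_insert ha, Finset.card_insert_of_notMem ha]
    exact ((h a (by simp)).mul (ih fun i hi => h i (by simp [hi]))).le le_rfl (by rw [pow_succ'])

lemma Pl.congr (h : Pl A n D L f) {x y : ℕ → ℝ} (e : ∀ v ∈ A, x v = y v) : f x = f y := by
  obtain ⟨l, -, h2, h3⟩ := h
  rw [h3, h3, ev, ev]
  refine congrArg _ (List.map_congr_left fun t ht => ?_)
  rw [tv, tv, List.map_congr_left fun v hv => e v ((h2 t ht).1 v hv)]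

lemma Pl.tendsto (h : Pl A n D L f) {ι : Type} {F : Filter ι} {x : ι → ℕ → ℝ} {y : ℕ → ℝ}
    (e : ∀ v ∈ A, Tendsto (fun m => x m v) F (𝓝 (y v))) : Tendsto (fun m => f (x m)) F (𝓝 (f y)) := by
  obtain ⟨l, -, h2, h3⟩ := h
  simp only [h3, ev]
  exact tendsto_list_sum _ fun t ht => tendsto_const_nhds.mul
    (tendsto_list_prod _ fun v hv => e v ((h2 t ht).1 v hv))

lemma Pl.cont (h : Pl A n D L f) : Continuous f :=
  continuous_iff_continuousAt.2 fun y => h.tendsto fun v _ => (continuous_apply v).tendsto y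

/-- derivative of a monomial -/
def dM (j : ℕ) : List ℕ → List (List ℕ)
  | [] => []
  | v :: m => (if v = j then [m] else []) ++ (dM j m).map (v :: ·)

lemma dM_spec (j : ℕ) (m : List ℕ) : (dM j m).length = m.count j ∧
    (∀ c ∈ dM j m, (j :: c).Perm m) ∧ ∀ (x : ℕ → ℝ), HasDerivAt (fun t => (m.map (Function.update x j t)).prod)
      (((dM j m).map fun c => (c.map x).prod).sum) (x j) := by
  induction m with
  | nil => simp [dM, hasDerivAt_const]
  | cons v m ih =>
    obtain ⟨h1, h2, h3⟩ := ih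
    refine ⟨by by_cases h : v = j <;> simp [dM, h, h1, add_comm], fun c hc => ?_, fun x => ?_⟩
    · rcases List.mem_append.1 hc with hc | hc
      · by_cases h : v = j <;> simp_all
      · obtain ⟨d, hd, rfl⟩ := List.mem_map.1 hc
        exact (List.Perm.swap _ _ _).trans ((h2 d hd).cons v)
    · have h4 : HasDerivAt (fun t => Function.update x j t v) (if v = j then 1 else 0) (x j) := by
        by_cases h : v = j <;> simp [h, hasDerivAt_id', hasDerivAt_const]
      refine (h4.fun_mul (h3 x)).congr_deriv ?_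
      by_cases h : v = j <;>
        simp [dM, h, Function.comp_def, List.sum_map_mul_left]

lemma Pl.deriv (h : Pl A n (D + 1) L f) {j : ℕ} (hj : j < n) : ∃ g, Pl A n D (L * (D + 1)) g ∧
    ∀ x, HasDerivAt (fun t => f (Function.update x j t)) (g x) (x j) := by
  obtain ⟨l, h1, h2, h3⟩ := h
  refine ⟨fun x => (l.map fun t => ((dM j t.2).map fun c => tv x (t.1, c)).sum).sum,
    (Pl.lsum l fun t ht => (Pl.lsum (L := 1) _ fun c hc => Pl.term (t.1, c) ?_ ?_).le le_rfl ?_).le
      le_rfl (Nat.mul_le_mul_right _ h1), fun x => ?_⟩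
  · exact fun v hv => (h2 t ht).1 v (((dM_spec j t.2).2.1 c hc).subset (.tail _ hv))
  · have := ((dM_spec j t.2).2.1 c hc).countP_eq (· < n)
    have := (h2 t ht).2
    simp [hj] at *; omega
  · rw [(dM_spec j t.2).1, mul_one]
    exact (List.countP_mono_left fun v _ hv => by simp at hv; simp [hv, hj]).trans (h2 t ht).2
  · simp only [h3]
    clear h1 h2 h3
    induction l with
    | nil => simp [hasDerivAt_const]
    | cons t l ih =>
      simp only [ev_cons, List.map_cons, List.sum_cons]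
      refine HasDerivAt.fun_add ?_ ih
      simp only [tv, List.sum_map_mul_left]
      exact ((dM_spec j t.2).2.2 x).const_mul _

end

/-! elimination -/

def wv (n : ℕ) {D : ℕ} (w : Fin D → Fin (n + 1)) (x : ℕ → ℝ) : ℝ := ∏ p, if (w p).1 < n then x (w p) else 1

lemma toW (n D : ℕ) : ∀ l : List ℕ, l.length ≤ D → (∀ v ∈ l, v < n) →
    ∃ w : Fin D → Fin (n + 1), ∀ x, wv n w x = (l.map x).prod := by
  induction D with
  | zero => intro l h _; exact ⟨Fin.elim0, by simp [wv, List.length_eq_zero_iff.1 (Nat.le_zero.1 h)]⟩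
  | succ D ih =>
    rintro (_ | ⟨a, l⟩) h h'
    · exact ⟨fun _ => Fin.last n, by simp [wv]⟩
    · obtain ⟨w, hw⟩ := ih l (by simpa using h) fun v hv => h' v (.tail _ hv)
      have := h' a (by simp)
      exact ⟨Fin.cons ⟨a, by omega⟩ w, fun x => by simp [← hw, wv, Fin.prod_univ_succ, this]⟩

lemma ofW (n : ℕ) {D : ℕ} (w : Fin D → Fin (n + 1)) : ∃ l : List ℕ, l.length ≤ D ∧ (∀ v ∈ l, v < n) ∧
    ∀ x, wv n w x = (l.map x).prod := by
  induction D with
  | zero => exact ⟨[], by simp [wv]⟩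
  | succ D ih =>
    obtain ⟨l, h1, h2, h3⟩ := ih fun p => w p.succ
    by_cases h : (w 0).1 < n
    · exact ⟨w 0 :: l, by simpa, by simpa [h], fun x => by simp [← h3, wv, Fin.prod_univ_succ, h]⟩
    · exact ⟨l, by omega, h2, fun x => by simp [← h3, wv, Fin.prod_univ_succ, h]⟩

lemma Pl.expand {A : Set ℕ} {n D L : ℕ} {f} (h : Pl A n D L f) :
    ∃ M : (Fin D → Fin (n + 1)) → (ℕ → ℝ) → ℝ, (∀ w, Pl (A ∩ Set.Ici n) 0 0 L (M w)) ∧
      ∀ x, f x = ∑ w, M w x * wv n w x := by
  obtain ⟨l, h1, h2, h3⟩ := h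
  have : ∀ t : Tm, ∃ w : Fin D → Fin (n + 1), t ∈ l →
      ∀ x, wv n w x = ((t.2.filter (· < n)).map x).prod := fun t => by
    by_cases ht : t ∈ l
    · obtain ⟨w, hw⟩ := toW n D (t.2.filter (· < n))
        (by rw [← List.countP_eq_length_filter]; exact (h2 t ht).2) (by simp)
      exact ⟨w, fun _ => hw⟩
    · exact ⟨fun _ => 0, fun h => (ht h).elim⟩
  choose W hW using this
  refine ⟨fun w x => (l.map fun t => if W t = w then tv x (t.1, t.2.filter (n ≤ ·)) else 0).sum,
    fun w => (Pl.lsum (L := 1) l fun t ht => ?_).le le_rfl (by omega), fun x => ?_⟩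
  · by_cases e : W t = w
    · simp only [e, if_true]
      exact Pl.term _ (fun v hv => by simp at hv; exact ⟨(h2 t ht).1 v hv.1, hv.2⟩) (by simp)
    · simpa [e] using Pl.zero
  · rw [h3]
    clear h1 h2 h3
    induction l with
    | nil => simp
    | cons t l ih =>
      simp only [ev_cons, List.map_cons, List.sum_cons, add_mul, Finset.sum_add_distrib]
      rw [ih fun s hs => hW s (.tail _ hs)]
      congr 1
      simp only [ite_mul, zero_mul, Finset.sum_ite_eq, Finset.mem_univ, if_true, hW t (by simp), tv,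
        mul_assoc, ← List.prod_append, ← List.map_append]
      congr 1
      refine (List.Perm.map _ ?_).prod_eq
      have := (List.filter_append_perm (fun v => decide (n ≤ v)) t.2).symm
      simpa [← decide_not] using this

lemma pigeon (n e : ℕ) (l : List ℕ) (h : ∀ v ∈ l, v < n) (h' : n * e < l.length) :
    ∃ j < n, ∃ c, l.Perm (List.replicate (e + 1) j ++ c) := by
  obtain ⟨j, hj, hc⟩ : ∃ j < n, e < l.count j := by
    by_contra hh
    push Not at hh
    have h1 := List.sum_toFinset_count_eq_length l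
    have h2 : ∑ a ∈ l.toFinset, l.count a ≤ ∑ a ∈ Finset.range n, l.count a :=
      Finset.sum_le_sum_of_subset fun v hv => by simpa using h v (by simpa using hv)
    have h3 := Finset.sum_le_card_nsmul (Finset.range n) (fun a => l.count a) e
      fun v hv => hh v (by simpa using hv)
    simp at h3; omega
  obtain ⟨c, hc⟩ := (List.replicate_sublist_iff.2 hc).exists_perm_append
  exact ⟨j, hj, c, hc⟩

theorem elim {A : Set ℕ} {n e L i : ℕ} (hi : i < n) (hA : Set.Iio n ⊆ A) (hL : 0 < L)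
    {g : ℕ → (ℕ → ℝ) → ℝ} (hg : ∀ j < n, Pl A n e L (g j)) :
    ∃ f, Pl (insert i (A ∩ Set.Ici n)) 0 0
      (((n + 1) ^ (n * e)).factorial * (1 + L) ^ ((n + 1) ^ (n * e))) f ∧ (∃ x, f x ≠ 0) ∧
      ∀ x, (∀ j < n, x j ^ (e + 1) = g j x) → f x = 0 := by
  classical
  have row : ∀ w : Fin (n * e) → Fin (n + 1), ∃ h, Pl A n (n * e) L h ∧
      ∀ x, (∀ j < n, x j ^ (e + 1) = g j x) → x i * wv n w x = h x := fun w => by
    obtain ⟨l, h1, h2, h3⟩ := ofW n w
    have h4 : ∀ v ∈ i :: l, v < n := by simpa [hi]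
    by_cases h : l.length < n * e
    · exact ⟨_, (Pl.term (false, i :: l) (fun v hv => hA (h4 v hv))
        (List.countP_le_length.trans h)).le le_rfl hL, fun x _ => by simp [h3, tv]⟩
    · obtain ⟨j, hj, c, hc⟩ := pigeon n e (i :: l) h4 (by simp; omega)
      have := hc.length_eq
      simp at this
      refine ⟨_, ((hg j hj).mul (Pl.term (D := c.length) (false, c)
        (fun v hv => hA (h4 v (hc.symm.subset (List.mem_append_right _ hv))))
        List.countP_le_length)).le (by omega) (by omega), fun x hx => ?_⟩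
      have := (hc.map x).prod_eq
      simpa [h3, tv, ← hx j hj] using this
  choose h h1 h2 using row
  choose M M1 M2 using fun w => (h1 w).expand
  refine ⟨fun x => (Matrix.scalar _ (x i) - Matrix.of fun w w' => M w w' x).det, ?_, ?_,
    fun x hx => ?_⟩
  · simp only [Matrix.det_apply']
    refine (Pl.sum (L := 1 * (1 + L) ^ ((n + 1) ^ (n * e))) Finset.univ fun σ _ =>
      Pl.mul (D := 0) (D' := 0) ?_ ((Pl.prod _ fun w _ => ?_).le le_rfl (by simp; rfl))).le le_rfl
      (by simp [Fintype.card_perm])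
    · rcases Int.units_eq_one_or (Equiv.Perm.sign σ) with h | h
      · simpa [h] using Pl.one
      · simpa [h] using Pl.one.neg
    · refine Pl.sub ?_ ((M1 _ _).mono (Set.subset_insert _ _) le_rfl le_rfl)
      by_cases h : σ w = w
      · simpa [h] using Pl.par (Set.mem_insert _ _) (Nat.zero_le i)
      · simpa [h] using Pl.zero
  · obtain ⟨t, ht⟩ := Infinite.exists_notMem_finset
      (Matrix.of fun w w' => M w w' 0).charpoly.roots.toFinset
    refine ⟨Function.update 0 i t, fun e => ht ?_⟩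
    rw [Multiset.mem_toFinset, Polynomial.mem_roots (Matrix.charpoly_monic _).ne_zero,
      Polynomial.IsRoot.def, Matrix.eval_charpoly, ← e]
    simp only [Function.update_self]
    congr 2
    ext w w'
    exact (M1 w w').congr fun v hv => (Function.update_of_ne (by have := hv.2; simp at this; omega) _ _).symm
  · refine Matrix.exists_mulVec_eq_zero_iff.1 ⟨fun w => wv n w x, fun e => ?_, ?_⟩
    · simpa [wv] using congrFun e fun _ => Fin.last n
    · ext w
      simp [Matrix.sub_mulVec, h2 w x hx, M2, Matrix.mulVec, dotProduct, sub_mul, Matrix.diagonal_apply]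

/-! limits -/

lemma Pl.group {A : Set ℕ} {L : ℕ} {f} (h : Pl A 0 0 L f) (a : ℕ) : ∃ (K : ℕ) (l : ℕ → List Tm),
    ∑ j ∈ Finset.range K, (l j).length ≤ L ∧ (∀ j, ∀ t ∈ l j, ∀ v ∈ t.2, v ∈ A \ {a}) ∧
    ∀ x, f x = ∑ j ∈ Finset.range K, x a ^ j * ev (l j) x := by
  obtain ⟨l, h1, h2, h3⟩ := h
  obtain ⟨K, hK⟩ := (l.finite_toSet.image fun t => t.2.count a + 1).bddAbove
  replace hK : ∀ t ∈ l, t.2.count a < K := fun t ht => hK ⟨t, ht, rfl⟩
  refine ⟨K, fun j => (l.filter fun t => t.2.count a = j).map fun t => (t.1, t.2.filter (· ≠ a)),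
    le_trans ?_ h1, fun j t ht v hv => ?_, fun x => ?_⟩
  · clear h1 h2 h3
    induction l with
    | nil => simp
    | cons t l ih =>
      have := ih fun s hs => hK s (.tail _ hs)
      simp only [List.length_map, ← List.countP_eq_length_filter, List.countP_cons,
        Finset.sum_add_distrib, List.length_cons] at *
      simp [hK t (by simp)]; omega
  · obtain ⟨s, hs, rfl⟩ := List.mem_map.1 ht
    simp only [List.mem_filter, decide_eq_true_eq] at hs hv
    exact ⟨(h2 s hs.1).1 v hv.1, hv.2⟩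
  · rw [h3]
    clear h1 h2 h3
    induction l with
    | nil => simp
    | cons t l ih =>
      rw [ev_cons, ih fun s hs => hK s (.tail _ hs)]
      have : tv x t = ∑ j ∈ Finset.range K, if t.2.count a = j then
          x a ^ j * tv x (t.1, t.2.filter (· ≠ a)) else 0 := by
        rw [Finset.sum_ite_eq, if_pos (by simpa using hK t (by simp)), tv, tv, mul_left_comm]
        congr 1
        have := ((List.filter_append_perm (fun v => v == a) t.2).map x).prod_eq
        rw [← this, List.filter_beq]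
        simp [beq_eq_decide]
      rw [this, ← Finset.sum_add_distrib]
      refine Finset.sum_congr rfl fun j _ => ?_
      by_cases e : t.2.count a = j <;> simp [List.filter_cons, e, mul_add]

lemma top_coef {K : ℕ} {c : ℕ → (ℕ → ℝ) → ℝ} {a : ℕ}
    (h : ∃ x, ∑ j ∈ Finset.range K, x a ^ j * c j x ≠ 0) : ∃ J < K, (∃ x, c J x ≠ 0) ∧
      ∀ x, ∑ j ∈ Finset.range K, x a ^ j * c j x =
        ∑ j ∈ Finset.range J, x a ^ j * c j x + x a ^ J * c J x := by
  induction K with
  | zero => simp at h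
  | succ K ih =>
    by_cases hK : ∃ x, c K x ≠ 0
    · exact ⟨K, by omega, hK, fun x => Finset.sum_range_succ _ _⟩
    · push Not at hK
      simp only [Finset.sum_range_succ, hK, mul_zero, add_zero] at h ⊢
      obtain ⟨J, h1, h2⟩ := ih h
      exact ⟨J, by omega, h2⟩

theorem Pl.lim {A : Set ℕ} {L : ℕ} {f} (h : Pl A 0 0 L f) (h0 : ∃ x, f x ≠ 0) (a : ℕ) :
    ∃ g, Pl (A \ {a}) 0 0 L g ∧ (∃ x, g x ≠ 0) ∧ ∀ (x : ℕ → ℕ → ℝ) (y : ℕ → ℝ),
      (∀ m, f (x m) = 0) → Tendsto (fun m => x m a) atTop atTop →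
      (∀ v ∈ A \ {a}, Tendsto (fun m => x m v) atTop (𝓝 (y v))) → g y = 0 := by
  obtain ⟨K, l, h1, h2, h3⟩ := h.group a
  simp only [h3] at h0 ⊢
  obtain ⟨J, hJ, h4, h5⟩ := top_coef h0
  have P : ∀ j < K, Pl (A \ {a}) 0 0 L (ev (l j)) := fun j hj => ⟨l j, (Finset.single_le_sum
    (f := fun j => (l j).length) (by simp) (Finset.mem_range.2 hj)).trans h1,
    fun t ht => ⟨h2 j t ht, by simp⟩, fun _ => rfl⟩
  refine ⟨_, P J hJ, h4, fun x y e1 e2 e3 => tendsto_nhds_unique ((P J hJ).tendsto e3) ?_⟩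
  have : Tendsto (fun m => -∑ j ∈ Finset.range J, ((x m a) ^ (J - j))⁻¹ * ev (l j) (x m)) atTop
      (𝓝 (-∑ j ∈ Finset.range J, 0 * ev (l j) y)) :=
    (tendsto_finset_sum _ fun j hj => have := Finset.mem_range.1 hj
      ((tendsto_pow_atTop (by omega)).comp e2).inv_tendsto_atTop.mul
        ((P j (by omega)).tendsto e3)).neg
  simp only [zero_mul, Finset.sum_const_zero, neg_zero] at this
  refine this.congr' ((e2.eventually_gt_atTop 0).mono fun m hm => ?_)
  refine mul_left_cancel₀ (pow_ne_zero J hm.ne') ?_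
  have := e1 m
  rw [h5] at this
  rw [eq_neg_of_add_eq_zero_right this, mul_neg, Finset.mul_sum]
  refine congrArg _ (Finset.sum_congr rfl fun j hj => ?_)
  rw [← mul_assoc, ← pow_sub₀ _ hm.ne' (by omega), Nat.sub_sub_self (Finset.mem_range.1 hj).le]

lemma root_aux {K H : ℕ} {c : ℕ → ℤ} (h : ∑ j ∈ Finset.range K, |(c j : ℝ)| ≤ H)
    (h0 : ∃ j < K, c j ≠ 0) {t : ℝ} (e : ∑ j ∈ Finset.range K, t ^ j * c j = 0) : |t| ≤ H := by
  induction K with
  | zero => simp at h0
  | succ K ih =>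
    rw [Finset.sum_range_succ] at h e
    by_cases hK : c K = 0
    · obtain ⟨j, hj, h0⟩ := h0
      exact ih (by simpa [hK] using h) ⟨j, lt_of_le_of_ne (by omega) (fun e => h0 (e ▸ hK)), h0⟩
        (by simpa [hK] using e)
    · have h1 : (1 : ℝ) ≤ |(c K : ℝ)| := by exact_mod_cast Int.one_le_abs hK
      have h2 : 0 ≤ ∑ j ∈ Finset.range K, |(c j : ℝ)| := by positivity
      by_contra hh
      have h3 : 1 < |t| := by linarith [not_le.1 hh]
      have h4 : |t| ^ K * |(c K : ℝ)| * |t| ≤ (∑ j ∈ Finset.range K, |(c j : ℝ)|) * |t| ^ K := by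
        rw [← abs_pow, ← abs_mul, eq_neg_of_add_eq_zero_right e, abs_neg, Finset.sum_mul]
        refine (mul_le_mul_of_nonneg_right (Finset.abs_sum_le_sum_abs _ _) (abs_nonneg t)).trans ?_
        rw [Finset.sum_mul]
        refine Finset.sum_le_sum fun j hj => ?_
        rw [abs_mul, abs_pow, abs_pow, mul_right_comm, ← pow_succ, mul_comm]
        exact mul_le_mul_of_nonneg_left (pow_le_pow_right₀ h3.le (Finset.mem_range.1 hj))
          (abs_nonneg _)
      have h5 : 0 < |t| ^ K := by positivity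
      nlinarith [mul_le_mul_of_nonneg_left h1 (mul_pos h5 (zero_lt_one.trans h3)).le, not_le.1 hh]

theorem Pl.root {i H : ℕ} {f} (h : Pl {i} 0 0 H f) (h0 : ∃ x, f x ≠ 0) {y : ℕ → ℝ} (e : f y = 0) :
    |y i| ≤ H ∧ (y i ≠ 0 → 1 ≤ H * |y i|) := by
  obtain ⟨K, l, h1, h2, h3⟩ := h.group i
  have : ∀ l : List Tm, (∀ t ∈ l, t.2 = []) → ∃ c : ℤ, |(c : ℝ)| ≤ l.length ∧ ∀ x, ev l x = c := by
    intro l hl
    induction l with
    | nil => exact ⟨0, by simp⟩
    | cons t l ih =>
      obtain ⟨c, c1, c2⟩ := ih fun s hs => hl s (.tail _ hs)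
      refine ⟨(bif t.1 then -1 else 1) + c, ?_, fun x => by cases h : t.1 <;> simp [c2, tv, hl t, h]⟩
      have := abs_le.1 c1
      cases t.1 <;> simp [abs_le] <;> constructor <;> linarith
  choose c c1 c2 using fun j => this (l j) fun t ht =>
    List.eq_nil_iff_forall_not_mem.2 fun v hv => by simpa using h2 j t ht v hv
  simp only [h3, c2] at h0 e
  have h4 : ∑ j ∈ Finset.range K, |(c j : ℝ)| ≤ H :=
    (Finset.sum_le_sum fun j _ => c1 j).trans (by exact_mod_cast h1)
  have h5 : ∃ j < K, c j ≠ 0 := by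
    obtain ⟨x, hx⟩ := h0
    obtain ⟨j, hj, h⟩ := Finset.exists_ne_zero_of_sum_ne_zero hx
    exact ⟨j, Finset.mem_range.1 hj, by rintro e; simp [e] at h⟩
  refine ⟨root_aux h4 h5 e, fun hy => ?_⟩
  have := root_aux (K := K) (H := H) (c := fun j => c (K - 1 - j)) (t := (y i)⁻¹)
    (by rwa [Finset.sum_range_reflect (fun j => |(c j : ℝ)|)])
    (let ⟨j, hj, h⟩ := h5; ⟨K - 1 - j, by omega, by rwa [show K - 1 - (K - 1 - j) = j by omega]⟩) (by
      refine mul_left_cancel₀ (pow_ne_zero (K - 1) hy) ?_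
      rw [mul_zero, ← e, ← Finset.sum_range_reflect, Finset.mul_sum]
      refine Finset.sum_congr rfl fun j hj => ?_
      have := Finset.mem_range.1 hj
      rw [← mul_assoc, inv_pow, ← pow_sub₀ _ hy (by omega), show K - 1 - (K - 1 - j) = j by omega])
  rwa [abs_inv, inv_le_iff_one_le_mul₀ (abs_pos.2 hy)] at this

end Pool.Agent.Cx
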