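import Pool.Agent.Lib.helper11.ETRBallA

/-! The infimum of a coordinate on a real variety is a root of a small integer polynomial. -/

namespace Pool.Agent.Cx

open Filter Topology

def Kp (n : ℕ) (p : ℕ → ℝ) : Set (ℕ → ℝ) := {x | ∀ v, n ≤ v → x v = p v}

noncomputable def ph (n r i : ℕ) (κ : ℝ) (x : ℕ → ℝ) : ℝ :=
  x i + κ * ∑ j ∈ Finset.range n, x j ^ (2 * r + 2)

lemma ph_cont (n r i κ) : Continuous (ph n r i κ) := by unfold ph; fun_prop

lemma kp_closed (n p) : IsClosed (Kp n p) := by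
  simp only [Kp, Set.setOf_forall]
  exact isClosed_iInter fun v => isClosed_iInter fun _ => isClosed_eq (by fun_prop) (by fun_prop)

lemma ph_compact {n i : ℕ} (r : ℕ) (hi : i < n) {κ : ℝ} (hκ : 0 < κ) (p : ℕ → ℝ) (c : ℝ) :
    IsCompact (Kp n p ∩ {x | ph n r i κ x ≤ c}) := by
  set R := 2 / κ * (c + κ * n + 1 / (2 * κ)) + 1
  refine (isCompact_univ_pi fun v => isCompact_Icc (a := if v < n then -R else p v)
    (b := if v < n then R else p v)).of_isClosed_subset
    ((kp_closed n p).inter (isClosed_le (ph_cont _ _ _ _) continuous_const)) fun x hx v _ => ?_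
  by_cases hv : v < n
  · simp only [hv, if_true, Set.mem_Icc, ← abs_le]
    have h1 : ∑ j ∈ Finset.range n, (x j ^ 2 - 1) ≤ ∑ j ∈ Finset.range n, x j ^ (2 * r + 2) :=
      Finset.sum_le_sum fun j _ => by
        rw [show 2 * r + 2 = 2 * (r + 1) by ring, pow_mul]
        rcases le_total 1 (x j ^ 2) with h | h
        · linarith [le_self_pow₀ h (show r + 1 ≠ 0 by omega)]
        · linarith [pow_nonneg (sq_nonneg (x j)) (r + 1)]
    simp only [Finset.sum_sub_distrib, Finset.sum_const, Finset.card_range, nsmul_eq_mul,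
      mul_one] at h1
    have h2 := Finset.single_le_sum (f := fun j => x j ^ 2) (fun j _ => sq_nonneg _)
      (Finset.mem_range.2 hv)
    have h3 := Finset.single_le_sum (f := fun j => x j ^ 2) (fun j _ => sq_nonneg _)
      (Finset.mem_range.2 hi)
    have h4 : x i + κ * _ ≤ c := hx.2
    have h5 : 0 ≤ x i + κ / 2 * x i ^ 2 + 1 / (2 * κ) := by
      rw [show x i + κ / 2 * x i ^ 2 + 1 / (2 * κ) = (κ * x i + 1) ^ 2 / (2 * κ) by field_simp; ring]
      positivity
    have h6 : κ / 2 * x v ^ 2 ≤ c + κ * n + 1 / (2 * κ) := by nlinarith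
    have h7 : x v ^ 2 ≤ R - 1 := by
      have := mul_le_mul_of_nonneg_left h6 (by positivity : 0 ≤ 2 / κ)
      rw [← mul_assoc, show 2 / κ * (κ / 2) = 1 by field_simp] at this
      simp only [R]; linarith
    nlinarith [sq_abs (x v), abs_nonneg (x v), sq_nonneg (|x v| - 1)]
  · simp [hv, hx.1 v (not_lt.1 hv)]

section
variable {A : Set ℕ} {n r L i : ℕ} {C : (ℕ → ℝ) → ℝ} {d : ℕ → (ℕ → ℝ) → ℝ}

lemma crit (hi : i < n) (hC : Continuous C) (h0 : ∀ x, 0 ≤ C x)
    (hd : ∀ j < n, ∀ x, HasDerivAt (fun t => C (Function.update x j t)) (d j x) (x j))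
    {κ ε : ℝ} (hκ : 0 < κ) (hε : 0 < ε) {p z : ℕ → ℝ} (hz : z ∈ Kp n p) (hz0 : C z = 0) :
    ∃ x ∈ Kp n p, (∀ y ∈ Kp n p, C x + ε * ph n r i κ x ≤ C y + ε * ph n r i κ y) ∧
      ∀ j < n, d j x + ε * ((if i = j then 1 else 0) + κ * ((2 * r + 2) * x j ^ (2 * r + 1))) = 0 := by
  obtain ⟨x, hx, hm⟩ := (ph_compact r hi hκ p (ph n r i κ z)).exists_isMinOn ⟨z, hz, le_refl (ph n r i κ z)⟩
    (f := fun x => C x + ε * ph n r i κ x) (hC.add (continuous_const.mul (ph_cont _ _ _ _))).continuousOn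
  have hm' : ∀ y ∈ Kp n p, C x + ε * ph n r i κ x ≤ C y + ε * ph n r i κ y := fun y hy => by
    rcases le_total (ph n r i κ y) (ph n r i κ z) with h | h
    · exact hm ⟨hy, h⟩
    · have : C x + ε * ph n r i κ x ≤ C z + ε * ph n r i κ z := hm ⟨hz, le_refl (ph n r i κ z)⟩
      nlinarith [h0 y]
  refine ⟨x, hx.1, hm', fun j hj => IsLocalMin.hasDerivAt_eq_zero
    (f := fun t => C (Function.update x j t) + ε * ph n r i κ (Function.update x j t))
    (Eventually.of_forall fun t => ?_) ((hd j hj x).fun_add (HasDerivAt.const_mul _ ?_))⟩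
  · simp only [Function.update_eq_self]
    exact hm' _ fun v hv => (Function.update_of_ne (by omega) _ _).trans (hx.1 v hv)
  · refine HasDerivAt.fun_add ?_ (HasDerivAt.const_mul _ ?_)
    · by_cases h : i = j <;> simp [h, hasDerivAt_id', hasDerivAt_const]
    · have : ∀ t, ∑ k ∈ Finset.range n, Function.update x j t k ^ (2 * r + 2) =
          t ^ (2 * r + 2) + ∑ k ∈ Finset.range n \ {j}, x k ^ (2 * r + 2) := fun t => by
        rw [← Finset.sum_update_of_mem (Finset.mem_range.2 hj)]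
        exact Finset.sum_congr rfl fun k _ =>
          Function.apply_update (fun _ a => a ^ (2 * r + 2)) x j t k
      simp only [this]
      simpa using (hasDerivAt_pow (2 * r + 2) (x j)).add_const
        (∑ k ∈ Finset.range n \ {j}, x k ^ (2 * r + 2))

theorem infV (hi : i < n) (hA : Set.Iio n ⊆ A) (hn : n ∉ A) (hn' : n + 1 ∉ A)
    (hC : Pl A n (2 * r + 1) L C) (h0 : ∀ x, 0 ≤ C x) : ∃ f, Pl (insert i (A ∩ Set.Ici n)) 0 0
      (((n + 1) ^ (n * (2 * r))).factorial * (1 + (L * (2 * r + 1) + 1)) ^ ((n + 1) ^ (n * (2 * r)))) f ∧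
      (∃ x, f x ≠ 0) ∧ ∀ p μ, ({x ∈ Kp n p | C x = 0}).Nonempty →
        IsGLB ((fun x => x i) '' {x ∈ Kp n p | C x = 0}) μ → f (Function.update p i μ) = 0 := by
  have : ∀ j, ∃ g, j < n → Pl A n (2 * r) (L * (2 * r + 1)) g ∧
      ∀ x, HasDerivAt (fun t => C (Function.update x j t)) (g x) (x j) := fun j => by
    by_cases hj : j < n
    · exact let ⟨g, hg⟩ := hC.deriv hj; ⟨g, fun _ => hg⟩
    · exact ⟨C, fun h => (hj h).elim⟩
  choose d hd using this
  set A' := insert n (insert (n + 1) A)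
  have sA : A ⊆ A' := fun v hv => .inr (.inr hv)
  obtain ⟨f0, a1, a2, a3⟩ := elim (A := A') (e := 2 * r) (L := L * (2 * r + 1) + 1) hi (hA.trans sA)
    (by omega) (g := fun j x => -(x n * x (n + 1) * d j x + if i = j then x (n + 1) else 0))
    fun j hj => (Pl.add (((((Pl.par (by simp [A']) le_rfl).mul (Pl.par (by simp [A']) (by omega))).mul
      ((hd j hj).1.mono sA le_rfl le_rfl))).le (by omega) (by omega)) (by
        by_cases h : i = j
        · simpa [h] using (Pl.par (by simp [A']) (by omega)).le (Nat.zero_le _) le_rfl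
        · simpa [h] using Pl.zero)).neg
  obtain ⟨f1, b1, b2, b3⟩ := a1.lim a2 n
  obtain ⟨f2, c1, c2, c3⟩ := b1.lim b2 (n + 1)
  refine ⟨f2, c1.mono (fun v hv => ?_) le_rfl le_rfl, c2, fun p μ ⟨z, hz, hz0⟩ hμ => ?_⟩
  · simp only [A', Set.mem_diff, Set.mem_insert_iff, Set.mem_inter_iff, Set.mem_singleton_iff] at *
    tauto
  have l1 : ∀ η : ℝ, 0 < η → ∃ x ∈ Kp n p, C x = 0 ∧ (∀ y ∈ Kp n p, C y = 0 →
      ph n r i (1 / ((2 * r + 2) * η)) x ≤ ph n r i (1 / ((2 * r + 2) * η)) y) ∧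
      f1 (Function.update (Function.update p i (x i)) (n + 1) η) = 0 := fun η hη => by
    set κ : ℝ := 1 / ((2 * r + 2) * η) with hκ'
    have hκ : 0 < κ := by positivity
    choose x x1 x2 x3 using fun m : ℕ => crit (r := r) hi hC.cont h0 (fun j hj => (hd j hj).2) hκ
      (by positivity : (0 : ℝ) < 1 / ((m : ℝ) + 1)) hz hz0
    have x4 : ∀ y ∈ Kp n p, C y = 0 → ∀ m, ph n r i κ (x m) ≤ ph n r i κ y := fun y hy e m => by
      have := x2 m y hy
      exact le_of_mul_le_mul_left (by linarith [h0 (x m)]) (by positivity : (0 : ℝ) < 1 / ((m : ℝ) + 1))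
    obtain ⟨w, hw, σ, hσ, ht⟩ := (ph_compact r hi hκ p (ph n r i κ z)).tendsto_subseq
      (x := x) fun m => ⟨x1 m, x4 z hz hz0 m⟩
    have t0 := tendsto_one_div_add_atTop_nhds_zero_nat (𝕜 := ℝ) |>.comp hσ.tendsto_atTop
    have t1 := ((ph_cont n r i κ).tendsto w).comp ht
    refine ⟨w, hw.1, le_antisymm ?_ (h0 w), fun y hy e => le_of_tendsto' t1 fun m => x4 y hy e _, ?_⟩
    · have := le_of_tendsto_of_tendsto' (((hC.cont.tendsto w).comp ht).add (t0.mul t1))
        ((tendsto_const_nhds (x := C z)).add (t0.mul_const (ph n r i κ z))) fun m => x2 _ z hz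
      simpa [hz0] using this
    · refine b3 (fun m => Function.update (Function.update (x (σ m)) n (σ m + 1)) (n + 1) η) _
        (fun m => a3 _ fun j hj => ?_) ?_ fun v hv => ?_
      · have := x3 (σ m) j hj
        rw [← (hd j hj).1.congr (x := x (σ m)) fun v hv => by
          rw [Function.update_of_ne (by rintro rfl; exact hn' hv),
            Function.update_of_ne (by rintro rfl; exact hn hv)]]
        simp only [Function.update_self, ne_eq, show ¬ j = n + 1 by omega, show ¬ j = n by omega,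
          not_false_eq_true, Function.update_of_ne, Nat.left_eq_add, one_ne_zero]
        rw [hκ'] at this
        field_simp at this
        split_ifs at * <;> linear_combination this
      · simpa using tendsto_atTop_add_const_right _ 1
          (tendsto_natCast_atTop_atTop.comp hσ.tendsto_atTop)
      · by_cases h : v = n + 1
        · simp [h]
        · rw [Function.update_of_ne h]
          simp only [Function.update_of_ne h, Function.update_of_ne hv.2]
          by_cases h' : v = i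
          · simpa [h'] using tendsto_pi_nhds.1 ht i
          · simp [h', x1 _ v (hv.1.resolve_left h').2]
  choose x x1 x2 x3 x4 using fun m : ℕ => l1 (m + 1) (by positivity)
  refine c3 _ _ x4 (by simpa using tendsto_atTop_add_const_right _ 1 tendsto_natCast_atTop_atTop)
    fun v hv => ?_
  simp only [Function.update_of_ne hv.2]
  by_cases h' : v = i
  · simp only [h', Function.update_self]
    refine tendsto_order.2 ⟨fun a ha => .of_forall fun m => ha.trans_le (hμ.1 ⟨_, ⟨x1 m, x2 m⟩, rfl⟩),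
      fun a ha => ?_⟩
    obtain ⟨_, ⟨y, hy, rfl⟩, h⟩ := (isGLB_lt_iff hμ).1 ha
    have t0 : Tendsto (fun m : ℕ => ph n r i (1 / ((2 * r + 2) * ((m : ℝ) + 1))) y) atTop
        (𝓝 (y i + (1 / (2 * r + 2) * 0) * ∑ j ∈ Finset.range n, y j ^ (2 * r + 2))) := by
      simp only [ph, ← one_div_mul_one_div]
      exact ((tendsto_one_div_add_atTop_nhds_zero_nat.const_mul _).mul_const _).const_add _
    refine (t0.eventually_lt_const (by simpa using h)).mono fun m hm =>
      lt_of_le_of_lt (le_trans ?_ (x3 m y hy.1 hy.2)) hm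
    refine le_add_of_nonneg_right (mul_nonneg (by positivity) (Finset.sum_nonneg fun j _ => ?_))
    exact Even.pow_nonneg ⟨r + 1, by ring⟩ _
  · simp [h']

end

def kk (u : ℕ) : ℕ := 2 * u ^ 3 + 2 * u + 2

lemma num_bound {n r L u : ℕ} (hn : n ≤ u) (hr : 2 * r + 1 ≤ u) (hL : L ≤ 2 ^ u) :
    ((n + 1) ^ (n * (2 * r))).factorial * (1 + (L * (2 * r + 1) + 1)) ^ ((n + 1) ^ (n * (2 * r))) ≤
      2 ^ 2 ^ kk u := by
  have h1 : (n + 1) ^ (n * (2 * r)) ≤ 2 ^ u ^ 3 := by
    calc (n + 1) ^ (n * (2 * r)) ≤ (2 ^ n) ^ (n * (2 * r)) := Nat.pow_le_pow_left Nat.lt_two_pow_self _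
      _ ≤ 2 ^ u ^ 3 := by
        rw [← pow_mul]
        refine Nat.pow_le_pow_right (by omega) ?_
        calc n * (n * (2 * r)) ≤ u * (u * u) := by gcongr; omega
          _ = u ^ 3 := by ring
  have h2 : 1 + (L * (2 * r + 1) + 1) ≤ 2 ^ (2 * u + 2) := by
    have : L * (2 * r + 1) ≤ 2 ^ u * 2 ^ u := Nat.mul_le_mul hL (hr.trans Nat.lt_two_pow_self.le)
    have : 1 ≤ 2 ^ u * 2 ^ u := Nat.one_le_iff_ne_zero.2 (by positivity)
    rw [show 2 ^ (2 * u + 2) = 4 * (2 ^ u * 2 ^ u) by ring]; omega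
  generalize (n + 1) ^ (n * (2 * r)) = N at *
  calc N.factorial * (1 + (L * (2 * r + 1) + 1)) ^ N ≤ (2 ^ u ^ 3) ^ N * (2 ^ (2 * u + 2)) ^ N :=
        Nat.mul_le_mul (N.factorial_le_pow.trans (Nat.pow_le_pow_left h1 _)) (Nat.pow_le_pow_left h2 _)
    _ = 2 ^ ((u ^ 3 + 2 * u + 2) * N) := by rw [← mul_pow, ← pow_add, ← pow_mul, add_assoc]
    _ ≤ 2 ^ 2 ^ kk u := by
      refine Nat.pow_le_pow_right (by omega) ?_
      rw [show kk u = (u ^ 3 + 2 * u + 2) + u ^ 3 by unfold kk; ring, pow_add]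
      exact Nat.mul_le_mul Nat.lt_two_pow_self.le h1

/-- parametric form -/
theorem infV' {A : Set ℕ} {n r L i u : ℕ} {C : (ℕ → ℝ) → ℝ} (hi : i < n) (hA : Set.Iio n ⊆ A)
    (hn : n ∉ A) (hn' : n + 1 ∉ A) (hC : Pl A n (2 * r + 1) L C) (h0 : ∀ x, 0 ≤ C x) (h1 : n ≤ u)
    (h2 : 2 * r + 1 ≤ u) (h3 : L ≤ 2 ^ u) : ∃ f, Pl (insert i (A ∩ Set.Ici n)) 0 0 (2 ^ 2 ^ kk u) f ∧
      (∃ x, f x ≠ 0) ∧ ∀ p μ, ({x ∈ Kp n p | C x = 0}).Nonempty →
        IsGLB ((fun x => x i) '' {x ∈ Kp n p | C x = 0}) μ → f (Function.update p i μ) = 0 :=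
  let ⟨f, a, b⟩ := infV hi hA hn hn' hC h0
  ⟨f, a.le le_rfl (num_bound h1 h2 h3), b⟩

/-- infimum of a nonnegative polynomial on a real variety -/
theorem inf_bound {n r L u : ℕ} {C F : (ℕ → ℝ) → ℝ} (hC : Pl (Set.Iio n) (n + 1) (2 * r) L C)
    (hF : Pl (Set.Iio n) (n + 1) (r + 1) L F) (h0 : ∀ x, 0 ≤ C x) (hF0 : ∀ x, 0 ≤ F x)
    (h1 : n + 1 ≤ u) (h2 : 2 * (r + 1) + 1 ≤ u) (h3 : L + (1 + L) * (1 + L) ≤ 2 ^ u) {z : ℕ → ℝ}
    (hz : C z = 0) : (∃ x, C x = 0 ∧ F x < 2 ^ 2 ^ kk u + 1) ∧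
      (2 ^ 2 ^ kk u * F z < 1 → ∀ δ > 0, ∃ x, C x = 0 ∧ F x < δ) := by
  have s : Set.Iio n ⊆ Set.Iio (n + 1) := Set.Iio_subset_Iio (by omega)
  obtain ⟨f, a, b, c⟩ := infV' (i := n) (r := r + 1) (by omega) le_rfl (by simp) (by simp)
    ((hC.mono s (by omega) le_rfl).add ((((Pl.var (v := n) (by simp)).le (by omega) le_rfl).sub
      (hF.mono s le_rfl le_rfl)).sq.le (by omega) le_rfl))
    (fun x => add_nonneg (h0 x) (sq_nonneg _)) h1 h2 h3
  set V := {x ∈ Kp (n + 1) z | C x + (x n - F x) ^ 2 = 0}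
  have up : ∀ {g D}, Pl (Set.Iio n) (n + 1) D L g → ∀ t, g (Function.update z n t) = g z :=
    fun h t => h.congr fun v hv => Function.update_of_ne (ne_of_lt hv) _ _
  have hV : Function.update z n (F z) ∈ V :=
    ⟨fun v hv => Function.update_of_ne (by omega) _ _, by simp [up hC, up hF, hz]⟩
  have mV : ∀ x ∈ V, C x = 0 ∧ x n = F x := fun x hx => by
    have := hx.2
    constructor <;> nlinarith [h0 x, sq_nonneg (x n - F x)]
  have bd : (0 : ℝ) ∈ lowerBounds ((fun x => x n) '' V) := by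
    rintro _ ⟨x, hx, rfl⟩
    exact (hF0 x).trans (mV x hx).2.ge
  have g := isGLB_csInf (s := (fun x => x n) '' V) ⟨_, _, hV, rfl⟩ ⟨0, bd⟩
  set μ := sInf ((fun x => x n) '' V)
  have rt := (a.mono (A' := {n}) (fun v hv => by
    simp only [Set.mem_insert_iff, Set.mem_inter_iff, Set.mem_Iio, Set.mem_Ici,
      Set.mem_singleton_iff] at *; omega) le_rfl le_rfl).root b (c z μ ⟨_, hV⟩ g)
  simp only [Function.update_self, abs_of_nonneg (g.2 bd), Nat.cast_pow, Nat.cast_ofNat] at rt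
  have key : ∀ a, μ < a → ∃ x, C x = 0 ∧ F x < a := fun a ha => by
    obtain ⟨_, ⟨y, hy, rfl⟩, h⟩ := (isGLB_lt_iff g).1 ha
    exact ⟨y, (mV y hy).1, (mV y hy).2.ge.trans_lt h⟩
  refine ⟨key _ (by linarith [rt.1]), fun h δ hδ => key _ ?_⟩
  have : μ ≤ F z := by simpa using g.1 ⟨_, hV, rfl⟩
  have : μ = 0 := by_contra fun e => by
    nlinarith [rt.2 e, mul_le_mul_of_nonneg_left this (by positivity : (0 : ℝ) ≤ 2 ^ 2 ^ kk u)]
  linarith

end Pool.Agent.Cx
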