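import Pool.Agent.Lib.helper11.ETRPoly

/-! Systems of equations `a + b = c`, `a * b = c` with values in general position. -/

namespace Pool.Agent.Cx

open Polynomial

abbrev Op := Bool × ℕ × ℕ × ℕ

def Op.ok (x : ℕ → ℝ) (e : Op) : Prop :=
  if e.1 then x e.2.1 * x e.2.2.1 = x e.2.2.2 else x e.2.1 + x e.2.2.1 = x e.2.2.2

def Gd (a : ℝ) : Prop := a ≠ 0 ∧ a ≠ 1

def NAM (E : List Op) : Prop :=
  ∃ x : ℕ → ℝ, ∀ e ∈ E, e.ok x ∧ Gd (x e.2.1) ∧ Gd (x e.2.2.1) ∧ Gd (x e.2.2.2)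

def DAM (E : List Op) : Prop :=
  ∃ x : ℕ → ℝ, ∀ e ∈ E, e.ok x ∧ Gd (x e.2.1) ∧ Gd (x e.2.2.1) ∧ Gd (x e.2.2.2) ∧
    x e.2.1 ≠ x e.2.2.1 ∧ x e.2.1 ≠ x e.2.2.2 ∧ x e.2.2.1 ≠ x e.2.2.2

def Dist (E : List Op) : Prop := ∀ e ∈ E, e.2.1 ≠ e.2.2.1 ∧ e.2.1 ≠ e.2.2.2 ∧ e.2.2.1 ≠ e.2.2.2

lemma op_lt {E : List Op} {e : Op} (h : e ∈ E) :
    e.2.1 < size E ∧ e.2.2.1 < size E ∧ e.2.2.2 < size E := by
  have := size_lt_of_mem h
  obtain ⟨a, b, c, d⟩ := e
  simp only [size_pair, size_nat] at this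
  simp only; omega

/-! first step -/

def g1 (n : ℕ) (e : Eqn ℕ) : List Op :=
  [(true, e.1, e.2.1, n), (false, n, e.2.2.1, n + 1), (true, 0, 0, n + 2),
    (false, n + 1, n + 2, n + 3), (true, 0, e.1, n + 4), (true, 0, e.2.1, n + 5),
    (false, n + 4, n + 5, n + 6), (false, n + 6, e.2.2.2, n + 3)]

def r1 (E : List (Eqn ℕ)) : List Op :=
  ((1, 1, 0, 1) :: E).zipIdx.flatMap (fun p => g1 (size E + 2 + 7 * p.2) p.1) ++
    [(false, 0, size E + 4, size E + 6)]

lemma r1_pt : PT r1 := by unfold r1 g1; fun_prop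

lemma fin_gd (p : ℝ[X]) (h : 0 < p.degree) : {t | ¬ Gd (p.eval t)}.Finite := by
  have h1 : p ≠ 0 := ne_zero_of_degree_gt h
  have h2 : p - C 1 ≠ 0 := ne_zero_of_degree_gt (n := 0) (by rwa [degree_sub_C h])
  refine ((p.roots.toFinset ∪ (p - C 1).roots.toFinset).finite_toSet).subset fun t ht => ?_
  simp only [Gd, not_and_or, not_not, Set.mem_setOf_eq] at ht
  simp only [Finset.coe_union, Set.mem_union, Finset.mem_coe, Multiset.mem_toFinset, mem_roots h1,
    mem_roots h2, IsRoot.def, eval_sub, eval_C, sub_eq_zero]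
  exact ht

lemma fin_gd' (a b c : ℝ) (h : a ≠ 0 ∨ b ≠ 0) : {t | ¬ Gd (a * t ^ 2 + b * t + c)}.Finite := by
  have := fin_gd (C a * X ^ 2 + C b * X + C c) (by
    by_cases ha : a = 0
    · simp only [ha, map_zero, zero_mul, zero_add]
      rw [degree_linear (by tauto)]; decide
    · rw [degree_quadratic ha]; decide)
  simpa using this

def v1 (x : ℕ → ℝ) (t : ℝ) (e : Eqn ℕ) : ℕ → ℝ
  | 0 => (x e.1 + t) * (x e.2.1 + t)
  | 1 => (x e.1 + t) * (x e.2.1 + t) + (x e.2.2.1 + t)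
  | 2 => t * t
  | 3 => (x e.1 + t) * (x e.2.1 + t) + (x e.2.2.1 + t) + t * t
  | 4 => t * (x e.1 + t)
  | 5 => t * (x e.2.1 + t)
  | _ => t * (x e.1 + t) + t * (x e.2.1 + t)

lemma v1_fin (x : ℕ → ℝ) (e : Eqn ℕ) (j : ℕ) : {t | ¬ Gd (v1 x t e j)}.Finite := by
  rcases j with _ | _ | _ | _ | _ | _ | j <;> simp only [v1]
  · convert fin_gd' 1 (x e.1 + x e.2.1) (x e.1 * x e.2.1) (by simp) using 5; ring
  · convert fin_gd' 1 (x e.1 + x e.2.1 + 1) (x e.1 * x e.2.1 + x e.2.2.1) (by simp) using 5; ring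
  · convert fin_gd' 1 0 0 (by simp) using 5; ring
  · convert fin_gd' 2 (x e.1 + x e.2.1 + 1) (x e.1 * x e.2.1 + x e.2.2.1) (by simp) using 5; ring
  · convert fin_gd' 1 (x e.1) 0 (by simp) using 5; ring
  · convert fin_gd' 1 (x e.2.1) 0 (by simp) using 5; ring
  · convert fin_gd' 2 (x e.1 + x e.2.1) 0 (by simp) using 5; ring

lemma r1_iff (E : List (Eqn ℕ)) : FMA E ↔ NAM (r1 E) := by
  set E' := ((1, 1, 0, 1) : Eqn ℕ) :: E with hE
  have hlt : ∀ e ∈ E', e.1 < size E + 2 ∧ e.2.1 < size E + 2 ∧ e.2.2.1 < size E + 2 ∧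
      e.2.2.2 < size E + 2 := fun e he => by
    rcases List.mem_cons.1 he with rfl | he
    · simp
    · have := eqn_lt he; omega
  constructor
  · rintro ⟨x, h0, h1, h⟩
    have h' : ∀ e ∈ E', Eqn.ok x e := fun e he => by
      rcases List.mem_cons.1 he with rfl | he
      · simp [Eqn.ok, h0, h1]
      · exact h e he
    obtain ⟨t, ht⟩ := (((Set.finite_Iio (size E + 2)).biUnion fun v _ =>
      fin_gd' 0 1 (x v) (by simp)).union (E'.finite_toSet.biUnion fun e _ =>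
      (Set.finite_Iio 7).biUnion fun j _ => v1_fin x e j)).infinite_compl.nonempty
    simp only [Set.mem_compl_iff, Set.mem_union, Set.mem_iUnion, not_or, not_exists,
      Set.mem_setOf_eq, not_not, Set.mem_Iio, zero_mul, zero_add, one_mul, add_comm t] at ht
    let y : ℕ → ℝ := fun v => if v < size E + 2 then x v + t else
      v1 x t (E'.getD ((v - (size E + 2)) / 7) (0, 0, 0, 0)) ((v - (size E + 2)) % 7)
    have y1 : ∀ v < size E + 2, y v = x v + t := fun v hv => if_pos hv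
    have y2 : ∀ p ∈ E'.zipIdx, ∀ j < 7, y (size E + 2 + 7 * p.2 + j) = v1 x t p.1 j := by
      intro p hp j hj
      have := List.mem_zipIdx_iff_getElem?.1 hp
      simp only [y]
      rw [if_neg (by omega), show (size E + 2 + 7 * p.2 + j - (size E + 2)) / 7 = p.2 by omega,
        show (size E + 2 + 7 * p.2 + j - (size E + 2)) % 7 = j by omega]
      simp [List.getD_eq_getElem?_getD, this]
    refine ⟨y, fun o ho => ?_⟩
    rcases List.mem_append.1 ho with ho | ho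
    · obtain ⟨p, hp, ho⟩ := List.mem_flatMap.1 ho
      have hp' : p.1 ∈ E' := List.fst_mem_of_mem_zipIdx hp
      obtain ⟨b1, b2, b3, b4⟩ := hlt _ hp'
      have a := y2 p hp
      have a0 := a 0 (by omega)
      have g := ht.2 _ hp'
      have k := h' _ hp'
      have t0 := ht.1 0 (by omega)
      simp only [g1, List.mem_cons, List.not_mem_nil, or_false, add_zero] at ho a0
      rcases ho with rfl | rfl | rfl | rfl | rfl | rfl | rfl | rfl <;>
        simp only [Op.ok, a0, a, y1, b1, b2, b3, b4, g, ht.1, Nat.ofNat_pos, Nat.one_lt_ofNat,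
          Nat.reduceLT, add_pos_iff, or_true, and_true] <;> simp [v1, h0]
      simp only [Eqn.ok] at k
      linear_combination -k
    · obtain rfl := List.mem_singleton.1 ho
      have a := y2 ((1, 1, 0, 1), 0) (by simp [hE])
      have g := ht.2 _ (List.mem_cons_self)
      have a2 := a 2 (by omega)
      have a4 := a 4 (by omega)
      simp only [mul_zero, add_zero, add_assoc, Nat.reduceAdd] at a2 a4
      simp only [Op.ok, a2, a4, y1, g, ht.1, Nat.ofNat_pos, Nat.reduceLT, add_pos_iff, or_true,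
        and_true]
      simp [v1, h0, h1]; ring
  · rintro ⟨y, h⟩
    have key : ∀ p ∈ E'.zipIdx, ∀ o ∈ g1 (size E + 2 + 7 * p.2) p.1, o.ok y := fun p hp o ho =>
      (h o (List.mem_append_left _ (List.mem_flatMap.2 ⟨p, hp, ho⟩))).1
    refine ⟨fun v => y v - y 0, by simp, ?_, fun e he => ?_⟩
    · have := key ((1, 1, 0, 1), 0) (by simp [hE])
      obtain ⟨k, k0, -⟩ := h _ (List.mem_append_right _ List.mem_cons_self)
      simp [g1, Op.ok, add_assoc] at this k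
      refine mul_left_cancel₀ k0.1 ?_
      linear_combination this.2.2.2.2.1 - this.2.2.1 - k
    · obtain ⟨i, hi, rfl⟩ := List.getElem_of_mem he
      have := key (E[i], i + 1) (List.mem_zipIdx_iff_getElem?.2 (by simp [hE, hi]))
      simp [g1, Op.ok] at this
      obtain ⟨k1, k2, k3, k4, k5, k6, k7, k8⟩ := this
      simp only [Eqn.ok]
      linear_combination k1 + k2 + k3 + k4 - k5 - k6 - k7 - k8

/-! second step -/

def r2 (E : List Op) : List Op := E.zipIdx.flatMap fun p =>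
  [(p.1.1, p.1.2.1, size E + 3 * p.2, size E + 3 * p.2 + 1),
    (p.1.1, size E + 3 * p.2 + 1, p.1.2.2.1, size E + 3 * p.2 + 2),
    (p.1.1, p.1.2.2.2, size E + 3 * p.2, size E + 3 * p.2 + 2)]

lemma r2_pt : PT r2 := by unfold r2; fun_prop

lemma r2_dist (E : List Op) : Dist (r2 E) := by
  intro o ho
  obtain ⟨p, hp, ho⟩ := List.mem_flatMap.1 ho
  have := op_lt (List.fst_mem_of_mem_zipIdx hp)
  simp only [List.mem_cons, List.not_mem_nil, or_false] at ho
  rcases ho with rfl | rfl | rfl <;> simp only <;> omega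

lemma ex_g (b : Bool) {u v w : ℝ} (hu : Gd u) (hv : Gd v) (hw : Gd w) : ∃ g : ℝ, Gd g ∧ g ≠ u ∧
    g ≠ w ∧ Gd (bif b then u * g else u + g) ∧ Gd (bif b then w * g else w + g) ∧
    (bif b then u * g else u + g) ≠ v := by
  obtain ⟨g, hg⟩ := ({0, 1, u, w, -u, -w, 1 - u, 1 - w, v - u, u⁻¹, w⁻¹, u⁻¹ * v} : Set ℝ
    ).toFinite.infinite_compl.nonempty
  simp only [Set.mem_compl_iff, Set.mem_insert_iff, Set.mem_singleton_iff, not_or] at hg
  obtain ⟨a1, a2, a3, a4, a5, a6, a7, a8, a9, a10, a11, a12⟩ := hg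
  refine ⟨g, ⟨a1, a2⟩, a3, a4, ?_⟩
  have := hu.1
  have := hw.1
  cases b
  · exact ⟨⟨fun h => a5 (by simp at h; linarith), fun h => a7 (by simp at h; linarith)⟩,
      ⟨fun h => a6 (by simp at h; linarith), fun h => a8 (by simp at h; linarith)⟩,
      fun h => a9 (by simp at h; linarith)⟩
  · exact ⟨⟨mul_ne_zero hu.1 a1, fun h => a10 (eq_inv_of_mul_eq_one_right h)⟩,
      ⟨mul_ne_zero hw.1 a1, fun h => a11 (eq_inv_of_mul_eq_one_right h)⟩,
      fun h => a12 (by rw [← h]; simp; field_simp)⟩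

lemma r2_aux (b : Bool) {u v w g : ℝ} (k : if b then u * v = w else u + v = w) (hu : Gd u)
    (hv : Gd v) (hw : Gd w) (hg : Gd g) (g3 : g ≠ u) (g4 : g ≠ w) {P Q : ℝ}
    (hP : P = bif b then u * g else u + g) (hQ : Q = bif b then w * g else w + g) (g5 : Gd P)
    (g7 : P ≠ v) : ((if b then u * g = P else u + g = P) ∧ u ≠ P ∧ g ≠ P) ∧
      ((if b then P * v = Q else P + v = Q) ∧ P ≠ Q ∧ v ≠ Q) ∧
      ((if b then w * g = Q else w + g = Q) ∧ w ≠ Q ∧ g ≠ Q) := by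
  obtain ⟨u0, u1⟩ := hu
  obtain ⟨v0, v1⟩ := hv
  obtain ⟨w0, w1⟩ := hw
  obtain ⟨g0, g1⟩ := hg
  obtain ⟨p0, p1⟩ := g5
  cases b
  · simp only [Bool.false_eq_true, if_false, cond_false] at *
    refine ⟨⟨hP.symm, fun h => g0 ?_, fun h => u0 ?_⟩, ⟨?_, fun h => v0 ?_, fun h => p0 ?_⟩,
      hQ.symm, fun h => g0 ?_, fun h => w0 ?_⟩ <;> linarith
  · simp only [if_true, cond_true] at *
    have : P * v = Q := by rw [hP, hQ, ← k]; ring
    refine ⟨⟨hP.symm, fun h => g1 (mul_left_cancel₀ u0 ?_), fun h => u1 (mul_left_cancel₀ g0 ?_)⟩,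
      ⟨this, fun h => v1 (mul_left_cancel₀ p0 ?_), fun h => p1 (mul_left_cancel₀ v0 ?_)⟩,
      hQ.symm, fun h => g1 (mul_left_cancel₀ w0 ?_), fun h => w1 (mul_left_cancel₀ g0 ?_)⟩ <;>
      linarith

lemma r2_iff (E : List Op) : NAM E ↔ DAM (r2 E) := by
  constructor
  · rintro ⟨x, h⟩
    have : ∀ e : Op, ∃ g : ℝ, e ∈ E → _ := fun e => by
      by_cases he : e ∈ E
      · obtain ⟨g, hg⟩ := ex_g e.1 (h e he).2.1 (h e he).2.2.1 (h e he).2.2.2
        exact ⟨g, fun _ => hg⟩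
      · exact ⟨0, fun h => absurd h he⟩
    choose g hg using this
    let v : Op → ℕ → ℝ := fun e j => if j = 0 then g e else if j = 1 then
      (bif e.1 then x e.2.1 * g e else x e.2.1 + g e) else
      (bif e.1 then x e.2.2.2 * g e else x e.2.2.2 + g e)
    let y : ℕ → ℝ := fun n => if n < size E then x n else
      v (E.getD ((n - size E) / 3) (true, 0, 0, 0)) ((n - size E) % 3)
    have y1 : ∀ v < size E, y v = x v := fun v hv => if_pos hv
    have y2 : ∀ p ∈ E.zipIdx, ∀ j < 3, y (size E + 3 * p.2 + j) = v p.1 j := by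
      intro p hp j hj
      have := List.mem_zipIdx_iff_getElem?.1 hp
      simp only [y]
      rw [if_neg (by omega), show (size E + 3 * p.2 + j - size E) / 3 = p.2 by omega,
        show (size E + 3 * p.2 + j - size E) % 3 = j by omega]
      simp [List.getD_eq_getElem?_getD, this]
    refine ⟨y, fun o ho => ?_⟩
    obtain ⟨p, hp, ho⟩ := List.mem_flatMap.1 ho
    have hp' := List.fst_mem_of_mem_zipIdx hp
    obtain ⟨b1, b2, b3⟩ := op_lt hp'
    have a0 := y2 p hp 0 (by omega)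
    have a1 := y2 p hp 1 (by omega)
    have a2 := y2 p hp 2 (by omega)
    obtain ⟨k, k1, k2, k3⟩ := h _ hp'
    obtain ⟨g1, g3, g4, g5, g6, g7⟩ := hg _ hp'
    obtain ⟨⟨c1, c2, c3⟩, ⟨c4, c5, c6⟩, c7, c8, c9⟩ :=
      r2_aux p.1.1 k k1 k2 k3 g1 g3 g4 rfl rfl g5 g7
    simp only [List.mem_cons, List.not_mem_nil, or_false, add_zero] at ho a0
    simp only [v, if_true, one_ne_zero, if_false, OfNat.ofNat_ne_zero, OfNat.ofNat_ne_one] at a0 a1 a2
    rcases ho with rfl | rfl | rfl <;> simp only [Op.ok, a0, a1, a2, y1 _ b1, y1 _ b2, y1 _ b3]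
    · exact ⟨c1, k1, g1, g5, g3.symm, c2, c3⟩
    · exact ⟨c4, g5, k2, g6, g7, c5, c6⟩
    · exact ⟨c7, k3, g1, g6, g4.symm, c8, c9⟩
  · rintro ⟨y, h⟩
    refine ⟨y, fun e he => ?_⟩
    obtain ⟨i, hi, rfl⟩ := List.getElem_of_mem he
    have hp : (E[i], i) ∈ E.zipIdx := by simp [List.mem_zipIdx_iff_getElem?, hi]
    obtain ⟨k1, a1, a2, -⟩ := h _ (List.mem_flatMap.2 ⟨_, hp, List.mem_cons_self⟩)
    obtain ⟨k2, -, a3, -⟩ := h _ (List.mem_flatMap.2 ⟨_, hp, .tail _ List.mem_cons_self⟩)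
    obtain ⟨k3, a4, -⟩ := h _ (List.mem_flatMap.2 ⟨_, hp, .tail _ (.tail _ List.mem_cons_self)⟩)
    refine ⟨?_, a1, a3, a4⟩
    simp only [Op.ok] at *
    split_ifs at *
    · exact mul_right_cancel₀ a2.1 (by linear_combination y E[i].2.2.1 * k1 + k2 - k3)
    · linarith

/-- hardness together with a syntactic property of all instances produced -/
theorem rh_dam : ∃ g : List Bool → List Op, PT g ∧ ∀ s, Dist (g s) ∧ (s ∈ ETR ↔ DAM (g s)) :=
  let ⟨g, hg, h⟩ := rh_fma.red r1_pt r1_iff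
  ⟨fun s => r2 (g s), r2_pt.comp hg, fun s => ⟨r2_dist _, (h s).trans (r2_iff _)⟩⟩

end Pool.Agent.Cx
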