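import Pool.Agent.Lib.helper11.ETRBallB
import Pool.Agent.Lib.helper11.ETRDist

/-! Bounded systems of equations and a separation bound. -/

namespace Pool.Agent.Cx

def AM (E : List Op) : Prop := ∃ x : ℕ → ℝ, x 0 = 1 ∧ ∀ e ∈ E, e.ok x

def BAM (E : List Op) : Prop := ∃ x : ℕ → ℝ, x 0 = 1 ∧ (∀ v, |x v| ≤ 1) ∧ ∀ e ∈ E, e.ok x

lemma pow_bd (L : ℕ) : L + (1 + L) * (1 + L) ≤ 2 ^ (2 * L + 1) := by
  have : L + 1 ≤ 2 ^ L := Nat.lt_two_pow_self
  rw [show 2 ^ (2 * L + 1) = 2 * (2 ^ L * 2 ^ L) by ring]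
  nlinarith

lemma sum_sq_zero {ι : Type} {l : List ι} {f : ι → ℝ} :
    0 ≤ (l.map fun e => f e ^ 2).sum ∧ ((l.map fun e => f e ^ 2).sum = 0 ↔ ∀ e ∈ l, f e = 0) := by
  induction l with
  | nil => simp
  | cons e l ih =>
    rw [List.map_cons, List.sum_cons, add_eq_zero_iff_of_nonneg (sq_nonneg _) ih.1, ih.2]
    exact ⟨add_nonneg (sq_nonneg _) ih.1, by simp⟩

@[irreducible] def ub (s : ℕ) : ℕ := kk (2 * (40 * s + 40) + 1)

lemma ball {E : List (Eqn ℕ)} (h : FMA E) : ∃ x : ℕ → ℝ, x 0 = 0 ∧ x 1 = 1 ∧ (∀ e ∈ E, e.ok x) ∧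
    ∀ v < size E + 2, |x v| ≤ 2 ^ 2 ^ ub (size E) := by
  obtain ⟨z, h0, h1, h⟩ := h
  have := length_lt_size E
  have v1 : ∀ v < size E + 2, Pl (Set.Iio (size E + 2)) (size E + 2 + 1) 1 1 fun x => x v :=
    fun v hv => Pl.var hv
  obtain ⟨x, hx, hb⟩ := (inf_bound (n := size E + 2) (r := 2) (L := 40 * size E + 40)
    (C := fun x => x 0 ^ 2 + ((x 1 - 1) ^ 2 +
      (E.map fun e => (x e.1 * x e.2.1 + x e.2.2.1 - x e.2.2.2) ^ 2).sum))
    (F := fun x => ∑ v ∈ Finset.range (size E + 2), x v ^ 2)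
    ((((v1 0 (by omega)).sq.le (by omega) le_rfl).add
      ((((v1 1 (by omega)).sub (Pl.one.le (by omega) le_rfl)).sq.le (by omega) le_rfl).add
      (Pl.lsum E fun e he => have := eqn_lt he
        ((((v1 _ (by omega)).mul (v1 _ (by omega))).add ((v1 _ (by omega)).le (by omega) le_rfl)).sub
          ((v1 _ (by omega)).le (by omega) le_rfl)).sq))).le le_rfl (by omega))
    ((Pl.sum _ fun v hv => (v1 v (Finset.mem_range.1 hv)).sq).le (by omega) (by simp; omega))
    (fun x => by have := (sum_sq_zero (l := E)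
      (f := fun e => x e.1 * x e.2.1 + x e.2.2.1 - x e.2.2.2)).1; positivity)
    (fun x => by positivity) (by omega) (by omega) (pow_bd _) (z := z)
    (by rw [sum_sq_zero.2.2 fun e he => sub_eq_zero.2 (h e he)]; simp [h0, h1])).1
  have s := sum_sq_zero (l := E) (f := fun e => x e.1 * x e.2.1 + x e.2.2.1 - x e.2.2.2)
  rw [add_eq_zero_iff_of_nonneg (sq_nonneg _) (add_nonneg (sq_nonneg _) s.1),
    add_eq_zero_iff_of_nonneg (sq_nonneg _) s.1, s.2] at hx
  refine ⟨x, by simpa using hx.1, by simpa [sub_eq_zero] using hx.2.1,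
    fun e he => sub_eq_zero.1 (hx.2.2 e he), fun v hv => ?_⟩
  have h2 := Finset.single_le_sum (f := fun j => x j ^ 2) (fun j _ => sq_nonneg _)
    (Finset.mem_range.2 hv)
  have h3 : (2 : ℝ) ≤ 2 ^ 2 ^ ub (size E) := le_self_pow₀ (by norm_num) (by positivity)
  unfold ub at *
  exact abs_le_of_sq_le_sq (by nlinarith) (by positivity)

def rb (E : List (Eqn ℕ)) : List Op :=
  (false, size E + 3, size E + 3, 0) :: (false, 1, 1, 1) :: (true, size E + 3 + ub (size E), 0, 2) ::
    ((List.range (ub (size E))).map (fun j => (true, size E + 3 + j, size E + 3 + j, size E + 3 + j + 1)) ++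
    E.zipIdx.flatMap fun p =>
      [(true, p.1.1 + 1, p.1.2.1 + 1, size E + 4 + ub (size E) + 3 * p.2),
        (true, 2, p.1.2.2.1 + 1, size E + 4 + ub (size E) + 3 * p.2 + 1),
        (true, 2, p.1.2.2.2 + 1, size E + 4 + ub (size E) + 3 * p.2 + 2),
        (false, size E + 4 + ub (size E) + 3 * p.2, size E + 4 + ub (size E) + 3 * p.2 + 1,
          size E + 4 + ub (size E) + 3 * p.2 + 2)])

@[fun_prop] lemma PT.ub {α : Type} [Enc α] {f : α → ℕ} (h : PT f) : PT fun a => ub (f a) := by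
  unfold Cx.ub kk; fun_prop

lemma rb_pt : PT rb := by unfold rb; fun_prop

lemma rb_sound {E : List (Eqn ℕ)} (h : AM (rb E)) : FMA E := by
  obtain ⟨y, h0, h⟩ := h
  simp only [rb, List.forall_mem_cons, List.forall_mem_append, List.forall_mem_map, List.mem_range,
    Op.ok, h0, if_true, Bool.false_eq_true, if_false] at h
  obtain ⟨h1, h2, h3, h4, h5⟩ := h
  have t : ∀ j ≤ ub (size E), y (size E + 3 + j) ≠ 0 := fun j hj => by
    induction j with
    | zero => intro e; simp only [add_zero] at e; simp [e] at h1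
    | succ j ih => rw [← add_assoc, ← h4 j hj]; exact mul_self_ne_zero.2 (ih (by omega))
  have d : y 2 ≠ 0 := by simpa [← h3] using t _ le_rfl
  refine ⟨fun v => y (v + 1) / y 2, by simp [show y 1 = 0 by linarith], div_self d, fun e he => ?_⟩
  obtain ⟨i, hi, rfl⟩ := List.getElem_of_mem he
  have := List.forall_mem_flatMap.1 h5 (E[i], i) (List.mem_zipIdx_iff_getElem?.2 (by simp [hi]))
  simp only [List.forall_mem_cons, if_true, Bool.false_eq_true, if_false] at this
  obtain ⟨k1, k2, k3, k4, -⟩ := this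
  simp only [Eqn.ok]
  field_simp
  linear_combination k1 + k2 - k3 + k4

lemma rb_complete {E : List (Eqn ℕ)} (h : FMA E) : BAM (rb E) := by
  obtain ⟨x, h0, h1, h, hb⟩ := ball h
  set k := ub (size E)
  set δ : ℝ := (1 / 2) ^ 2 ^ k with hδ
  have δ1 : ∀ j, |((1 : ℝ) / 2) ^ 2 ^ j| ≤ 1 := fun j => by
    rw [abs_of_nonneg (by positivity)]; exact pow_le_one₀ (by norm_num) (by norm_num)
  have b1 : ∀ v < size E + 2, |δ * x v| ≤ 1 := fun v hv => by
    rw [abs_mul, abs_of_nonneg (by positivity : 0 ≤ δ), hδ, one_div, inv_pow]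
    exact inv_mul_le_one_of_le₀ (hb v hv) (by positivity)
  let w : Eqn ℕ → ℕ → ℝ := fun e j => if j = 0 then δ * x e.1 * (δ * x e.2.1) else
    if j = 1 then δ * (δ * x e.2.2.1) else δ * (δ * x e.2.2.2)
  let y : ℕ → ℝ := fun v => if v = 0 then 1 else if v < size E + 3 then δ * x (v - 1) else
    if v < size E + 4 + k then (1 / 2) ^ 2 ^ (v - (size E + 3)) else
    w (E.getD ((v - (size E + 4 + k)) / 3) (0, 0, 0, 0)) ((v - (size E + 4 + k)) % 3)
  have y1 : ∀ v < size E + 2, y (v + 1) = δ * x v := fun v hv => by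
    simp [y, show v + 1 < size E + 3 by omega]
  have y2 : ∀ j ≤ k, y (size E + 3 + j) = (1 / 2) ^ 2 ^ j := fun j hj => by
    simp [y, show size E + 3 + j < size E + 4 + k by omega]
  have y3 : ∀ p ∈ E.zipIdx, ∀ j < 3, y (size E + 4 + k + 3 * p.2 + j) = w p.1 j := by
    intro p hp j hj
    have := List.mem_zipIdx_iff_getElem?.1 hp
    simp only [y]
    rw [if_neg (by omega), if_neg (by omega), if_neg (by omega),
      show (size E + 4 + k + 3 * p.2 + j - (size E + 4 + k)) / 3 = p.2 by omega,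
      show (size E + 4 + k + 3 * p.2 + j - (size E + 4 + k)) % 3 = j by omega]
    simp [List.getD_eq_getElem?_getD, this]
  have y4 : y 2 = δ := by simpa [h1] using y1 1 (by omega)
  have m1 : ∀ {a b : ℝ}, |a| ≤ 1 → |b| ≤ 1 → |a * b| ≤ 1 := fun ha hb => by
    rw [abs_mul]; exact mul_le_one₀ ha (abs_nonneg _) hb
  refine ⟨y, rfl, fun v => ?_, ?_⟩
  · simp only [y]
    split_ifs
    · simp
    · exact b1 _ (by omega)
    · exact δ1 _
    · generalize he : E.getD _ _ = e
      have : e.1 < size E + 2 ∧ e.2.1 < size E + 2 ∧ e.2.2.1 < size E + 2 ∧ e.2.2.2 < size E + 2 := by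
        rw [← he, List.getD_eq_getElem?_getD]
        cases h : E[(v - (size E + 4 + k)) / 3]? with
        | none => simp
        | some e => have := eqn_lt (List.mem_of_getElem? h); simp; omega
      simp only [w]
      split_ifs
      exacts [m1 (b1 _ this.1) (b1 _ this.2.1), m1 (δ1 _) (b1 _ this.2.2.1), m1 (δ1 _) (b1 _ this.2.2.2)]
  · simp only [rb, List.forall_mem_cons, List.forall_mem_append, List.forall_mem_map, List.mem_range,
      Op.ok, if_true, Bool.false_eq_true, if_false]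
    refine ⟨?_, ?_, ?_, fun j hj => ?_, fun o ho => ?_⟩
    · rw [← add_zero (size E + 3), y2 0 (by omega)]; simp [y]; norm_num
    · have := y1 0 (by omega)
      simp only [zero_add, h0, mul_zero] at this
      simp [this]
    · rw [y2 _ le_rfl, y4]; simp [y, hδ]
    · rw [add_assoc _ j, y2 j hj.le, y2 _ hj, ← pow_add, pow_succ 2 j, mul_two]
    · obtain ⟨p, hp, ho⟩ := List.mem_flatMap.1 ho
      have := eqn_lt (List.fst_mem_of_mem_zipIdx hp)
      have k0 := h _ (List.fst_mem_of_mem_zipIdx hp)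
      have a0 := y3 p hp 0 (by omega)
      have a1 := y3 p hp 1 (by omega)
      have a2 := y3 p hp 2 (by omega)
      simp only [List.mem_cons, List.not_mem_nil, or_false, add_zero] at ho a0
      rcases ho with rfl | rfl | rfl | rfl <;>
        simp only [if_true, Bool.false_eq_true, if_false, a0, a1, a2, y4, k]
      · rw [y1 _ (by omega), y1 _ (by omega)]; simp [w]
      · rw [y1 _ (by omega)]; simp [w]
      · rw [y1 _ (by omega)]; simp [w]
      · simp only [Eqn.ok] at k0
        simp [w, ← k0]; ring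

theorem rh_bam : ∃ g : List Bool → List Op, PT g ∧
    ∀ s, (s ∈ ETR → BAM (g s)) ∧ (AM (g s) → s ∈ ETR) :=
  let ⟨g, hg, h⟩ := rh_fma
  ⟨fun s => rb (g s), rb_pt.comp hg, fun s =>
    ⟨fun a => rb_complete ((h s).1 a), fun a => (h s).2 (rb_sound a)⟩⟩

def res (x : ℕ → ℝ) (e : Op) : ℝ :=
  if e.1 then x e.2.1 * x e.2.2.1 - x e.2.2.2 else x e.2.1 + x e.2.2.1 - x e.2.2.2

theorem sep {E : List Op} {y : ℕ → ℝ} (h0 : y 0 = 1) (hb : ∀ v < size E, |y v| ≤ 2)
    (hr : ∀ e ∈ E, |res y e| ≤ (1 / 4) ^ 2 ^ ub (size E)) : AM E := by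
  have := length_lt_size E
  set n := size E
  have pF : ∀ m, Pl (Set.Iio n) m 4 (40 * n + 40) fun x => (E.map fun e => res x e ^ 2).sum :=
    fun m => (Pl.lsum (L := 3 * 3) E fun e he => by
      have := op_lt he
      have v1 : ∀ v < n, Pl (Set.Iio n) m 1 1 fun x => x v := fun v hv => Pl.var hv
      refine Pl.sq (D := 2) ?_
      unfold res
      split_ifs
      · exact (((v1 _ this.1).mul (v1 _ this.2.1)).sub ((v1 _ this.2.2).le (by omega) le_rfl)).le
          le_rfl (by omega)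
      · exact (((v1 _ this.1).add (v1 _ this.2.1)).sub (v1 _ this.2.2)).le (by omega) le_rfl
      ).le le_rfl (by omega)
  have v1 : ∀ v < 2 * n, Pl (Set.Iio (2 * n)) (2 * n + 1) 1 1 fun x => x v := fun v hv => Pl.var hv
  have o2 : Pl (Set.Iio (2 * n)) (2 * n + 1) 2 1 fun _ => 1 := Pl.one.le (by omega) le_rfl
  let z : ℕ → ℝ := fun v => if v < n then y v else √(4 - y (v - n) ^ 2)
  have key := (inf_bound (n := 2 * n) (r := 3) (L := 40 * n + 40)
    (C := fun x => (x 0 - 1) ^ 2 +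
      ((List.range n).map fun v => (x v ^ 2 + x (n + v) ^ 2 - (1 + 1 + (1 + 1))) ^ 2).sum)
    ((((((v1 0 (by omega)).le (by omega) le_rfl).sub o2).sq).add (Pl.lsum _ fun v hv =>
      have := List.mem_range.1 hv
      ((((v1 _ (by omega)).sq.add (v1 _ (by omega)).sq).sub ((o2.add o2).add (o2.add o2))).sq))).le
        (by omega) (by simp; omega))
    ((pF _).mono (Set.Iio_subset_Iio (by omega)) le_rfl le_rfl)
    (fun x => add_nonneg (sq_nonneg _) sum_sq_zero.1) (fun x => sum_sq_zero.1)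
    (by omega) (by omega) (pow_bd _) (z := z) (by
      rw [sum_sq_zero.2.2 fun v hv => ?_]
      · simp [z, show 0 < n by omega, h0]
      · have := List.mem_range.1 hv
        simp only [z, this, if_true, show ¬ n + v < n by omega, if_false, Nat.add_sub_cancel_left]
        rw [Real.sq_sqrt (by nlinarith [abs_le.1 (hb v this)])]; ring)).2 (by
      rw [(pF 0).congr (x := z) (y := y) fun v hv => if_pos hv]
      rw [show kk (2 * (40 * n + 40) + 1) = ub n by unfold ub; rfl]
      have h1 : (E.map fun e => res y e ^ 2).sum ≤ E.length • (((1 : ℝ) / 4) ^ 2 ^ ub n) ^ 2 := by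
        rw [← List.length_map (fun e => res y e ^ 2)]
        refine List.sum_le_card_nsmul _ _ fun a ha => ?_
        obtain ⟨e, he, rfl⟩ := List.mem_map.1 ha
        exact sq_le_sq' (abs_le.1 (hr e he)).1 (abs_le.1 (hr e he)).2
      have h2 : E.length < 2 ^ 2 ^ ub n := by
        refine lt_trans ?_ (Nat.lt_two_pow_self.trans Nat.lt_two_pow_self)
        unfold ub kk; omega
      have h3 : (E.length : ℝ) < 2 ^ 2 ^ ub n := by exact_mod_cast h2
      have h4 : ((1 : ℝ) / 4) ^ 2 ^ ub n * (2 ^ 2 ^ ub n * 2 ^ 2 ^ ub n) = 1 := by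
        rw [← mul_pow, ← mul_pow]; norm_num
      have h5 : ((1 : ℝ) / 4) ^ 2 ^ ub n ≤ 1 := pow_le_one₀ (by norm_num) (by norm_num)
      have h6 : 0 < ((1 : ℝ) / 4) ^ 2 ^ ub n := by positivity
      have h7 : (0 : ℝ) < 2 ^ 2 ^ ub n := by positivity
      rw [nsmul_eq_mul] at h1
      generalize ((1 : ℝ) / 4) ^ 2 ^ ub n = a at *
      generalize (2 : ℝ) ^ 2 ^ ub n = H at *
      calc H * _ ≤ H * (E.length * a ^ 2) := by gcongr
        _ < H * (H * a ^ 2) := by gcongr
        _ = a := by linear_combination a * h4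
        _ ≤ 1 := h5)
  obtain ⟨w, hw, hm⟩ := ((isCompact_univ_pi fun _ : ℕ => isCompact_Icc (a := (-2 : ℝ)) (b := 2)).inter_right
    (isClosed_eq (continuous_apply 0) (continuous_const (y := (1 : ℝ))))).exists_isMinOn
    ⟨fun _ => 1, fun _ _ => by norm_num, rfl⟩ (pF 0).cont.continuousOn
  refine ⟨w, hw.2, fun e he => ?_⟩
  have : (E.map fun e => res w e ^ 2).sum = 0 := le_antisymm (le_of_forall_pos_le_add fun δ hδ => by
    obtain ⟨x, h1, h2⟩ := key δ hδ
    rw [add_eq_zero_iff_of_nonneg (sq_nonneg _) sum_sq_zero.1, sum_sq_zero.2] at h1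
    have := hm (a := fun v => if v < n then x v else 0) ⟨fun v _ => by
      by_cases hv : v < n
      · have := h1.2 v (List.mem_range.2 hv)
        simp only [hv, if_true, Set.mem_Icc]
        constructor <;> nlinarith [sq_nonneg (x (n + v))]
      · simp [hv], by simpa [show 0 < n by omega, sub_eq_zero] using h1.1⟩
    simp only [Set.mem_setOf_eq] at this
    rw [(pF 0).congr (x := fun v => if v < n then x v else 0) (y := x) fun v hv => if_pos hv] at this
    linarith) sum_sq_zero.1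
  have := sum_sq_zero.2.1 this e he
  unfold res at this
  unfold Op.ok
  split_ifs at * <;> exact sub_eq_zero.1 this

end Pool.Agent.Cx
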