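import Pool.Agent.Lib.helper11.ETRDefs
import Pool.Agent.Lib.helper10.NPPred

/-! Reduction of `ETR` and `AETR` to systems of equations `a * b + c = d`. -/

namespace Pool.Agent.Cx

open Classical

variable {α β : Type}

lemma idxOf_eq [BEq β] [LawfulBEq β] (a : β) (l : List β) : ∀ k,
    l.idxOf a + k = (((l.zipIdx k).find? fun p => p.1 == a).map Prod.snd).getD (l.length + k) := by
  induction l with
  | nil => simp
  | cons b l ih =>
    intro k
    by_cases h : b = a
    · simp [h]
    · have := ih (k + 1)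
      simp only [List.zipIdx_cons, List.find?_cons, List.idxOf_cons, List.length_cons,
        show (b == a) = false by simpa using h, cond_false]
      rw [show l.length + 1 + k = l.length + (k + 1) by omega, ← this]; omega

@[fun_prop] lemma PT.idxOf [Enc α] [Enc β] [Dec β] [BEq β] [LawfulBEq β] {f : α → β}
    {l : α → List β} (hf : PT f) (hl : PT l) : PT (fun a => (l a).idxOf (f a)) := by
  have : PT (fun a => ((((l a).zipIdx).find? fun p => p.1 == f a).map Prod.snd).getD
      (l a).length) := by fun_prop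
  exact this.of_eq fun a => by simpa using idxOf_eq (f a) (l a) 0

abbrev Eqn (V : Type) := V × V × V × V

def Eqn.ok {V : Type} (x : V → ℝ) (e : Eqn V) : Prop := x e.1 * x e.2.1 + x e.2.2.1 = x e.2.2.2

/-- the base problem with a universal block -/
def AFMA (p : List ℕ × List (Eqn ℕ)) : Prop :=
  ∀ z : ℕ → ℝ, ∃ x : ℕ → ℝ, (∀ u ∈ p.1, x u = z u) ∧ x 0 = 0 ∧ x 1 = 1 ∧ ∀ e ∈ p.2, e.ok x

/-- the base problem -/
def FMA (E : List (Eqn ℕ)) : Prop := ∃ x : ℕ → ℝ, x 0 = 0 ∧ x 1 = 1 ∧ ∀ e ∈ E, e.ok x

abbrev Nm := ℕ × BT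

instance : DecidableEq BT := fun a b => decidable_of_iff _ ⟨code_inj (t := a) (t' := b), congrArg _⟩

def nz : Nm := (0, .leaf)
def no : Nm := (1, .leaf)

def tmE (t : BT) : List (Eqn Nm) :=
  bif !t.isNode then [(nz, nz, no, (3, t))]
  else bif !t.left.isNode then [(nz, nz, (2, t.right), (3, t))]
  else bif !t.left.left.isNode then [(no, (3, t.left.right), (3, t.right), (3, t))]
  else bif !t.left.left.left.isNode then [(no, (3, t), (3, t.right), (3, t.left.right))]
  else [((3, t.left.right), (3, t.right), nz, (3, t))]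

def fmE (t : BT) : List (Eqn Nm) :=
  bif !t.isNode then [(nz, nz, no, (4, t))]
  else bif !t.left.isNode then [(no, (4, t), (4, t.right), no)]
  else bif !t.left.left.isNode then [((4, t.left.right), (4, t.right), nz, (4, t))]
  else bif t.left.left.left.isNode then
    [(no, (5, t), (3, t.left.right), (3, t.right)), ((6, t), (6, t), nz, (7, t)),
      ((5, t), (7, t), nz, (8, t)), ((4, t), (8, t), nz, (4, t)), ((9, t), (9, t), (5, t), (10, t)),
      ((4, t), (10, t), nz, (10, t))]
  else bif t.left.left.right.isNode then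
    [(no, (5, t), (3, t.left.right), (3, t.right)), ((4, t), (5, t), nz, nz),
      ((5, t), (11, t), (4, t), no)]
  else [((4, t.left.right), (4, t.right), (4, t), (12, t)),
    (no, (4, t.left.right), (4, t.right), (12, t))]

noncomputable def ind (p : Prop) : ℝ := if p then 1 else 0

lemma ind_t {p : Prop} (h : p) : ind p = 1 := if_pos h
lemma ind_f {p : Prop} (h : ¬ p) : ind p = 0 := if_neg h
lemma ind_not (p : Prop) : ind (¬ p) = 1 - ind p := by by_cases h : p <;> simp [ind, h]
lemma ind_and (p q : Prop) : ind (p ∧ q) = ind p * ind q := by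
  by_cases h : p <;> by_cases h' : q <;> simp [ind, h, h']
lemma ind_or (p q : Prop) : ind (p ∨ q) = ind p + ind q - ind p * ind q := by
  by_cases h : p <;> by_cases h' : q <;> simp [ind, h, h']

noncomputable def std (x : BT → ℝ) (v : Nm) : ℝ :=
  let D := tm x v.2.right - tm x v.2.left.right
  match v.1 with
  | 0 => 0 | 1 => 1 | 2 => x v.2 | 3 => tm x v.2 | 4 => ind (fm x v.2) | 5 => D
  | 6 => (√D)⁻¹ | 7 => (√D)⁻¹ * (√D)⁻¹ | 8 => D * ((√D)⁻¹ * (√D)⁻¹) | 9 => √(-D)
  | 10 => √(-D) * √(-D) + D | 11 => D⁻¹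
  | _ => ind (fm x v.2.left.right) + ind (fm x v.2.right)

lemma std_tm (x : BT → ℝ) (t : BT) : ∀ e ∈ tmE t, e.ok (std x) := by
  rcases t with _ | ⟨_ | ⟨_ | ⟨_ | _, _⟩, a⟩, b⟩ <;>
    simp [tmE, BT.isNode, BT.left, BT.right, Eqn.ok, std, nz, no, tm]

lemma std_fm (x : BT → ℝ) (t : BT) : ∀ e ∈ fmE t, e.ok (std x) := by
  rcases t with _ | ⟨_ | ⟨_ | ⟨_ | _, _ | _⟩, a⟩, b⟩ <;>
    simp only [fmE, BT.isNode, BT.left, BT.right, Eqn.ok, std, nz, no, fm, Bool.not_true,
      Bool.not_false, cond_true, cond_false, List.mem_cons, List.not_mem_nil, or_false,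
      forall_eq_or_imp, forall_eq, ind_not, ind_and, ind_or]
  · simp [ind]
  · ring
  · ring
  · constructor <;> ring
  · by_cases h : tm x a = tm x b
    · simp [h, ind]
    · have : tm x b - tm x a ≠ 0 := sub_ne_zero.2 (Ne.symm h)
      simp [ind_f h, mul_inv_cancel₀ this]
  all_goals
    by_cases h : tm x a < tm x b
    · have h1 : 0 < tm x b - tm x a := sub_pos.2 h
      have h2 := Real.mul_self_sqrt h1.le
      have h3 := Real.sqrt_pos.2 h1
      refine ⟨by ring, by ring, by ring, ?_, trivial, by simp [ind_t h]⟩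
      rw [ind_t h]
      field_simp
      nlinarith
    · have h1 : 0 ≤ -(tm x b - tm x a) := by linarith [not_lt.1 h]
      have h2 := Real.mul_self_sqrt h1
      refine ⟨by ring, by ring, by ring, by simp [ind_f h], trivial, ?_⟩
      rw [ind_f h]
      linarith

def subs (t : BT) : List BT := (List.range (enc t).length).map fun i => decode ((enc t).drop i)

lemma decode_app (u : BT) (w : List Bool) : (decode (u.code ++ w) : BT) = u := by
  simp only [decode, List.reverse_append, List.foldl_append, parse_code]; rfl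

def Pos (t u : BT) : Prop := ∃ p w, t.code = p ++ (u.code ++ w)

lemma Pos.mem {t u : BT} (h : Pos t u) : u ∈ subs t := by
  obtain ⟨p, w, h⟩ := h
  have h0 : 0 < u.code.length := size_pos u
  refine List.mem_map.2 ⟨p.length, ?_, ?_⟩
  · show _ ∈ List.range t.code.length
    simp [h]; omega
  · show decode (t.code.drop _) = u
    rw [h, List.drop_left, decode_app]

lemma Pos.l {t u v : BT} (h : Pos t (.node u v)) : Pos t u :=
  let ⟨p, w, h⟩ := h; ⟨p ++ [true], v.code ++ w, by simp [h, BT.code]⟩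

lemma Pos.r {t u v : BT} (h : Pos t (.node u v)) : Pos t v :=
  let ⟨p, w, h⟩ := h; ⟨p ++ true :: u.code, w, by simp [h, BT.code]⟩

lemma lt_aux {a b D W G H F S K : ℝ} (h : 1 * D + a = b ∧ W * W + 0 = G ∧ D * G + 0 = H ∧
    F * H + 0 = F ∧ S * S + D = K ∧ F * K + 0 = K) : F = ind (a < b) := by
  obtain ⟨e1, e2, e3, e4, e5, e6⟩ := h
  by_cases h : a < b
  · rw [ind_t h]
    by_contra hh
    have : K = 0 := (mul_eq_zero.1 (by linarith : (F - 1) * K = 0)).resolve_left (sub_ne_zero.2 hh)
    nlinarith [mul_self_nonneg S]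
  · rw [ind_f h]
    by_contra hh
    have : H = 1 := mul_left_cancel₀ hh (by linarith)
    nlinarith [mul_self_nonneg W, not_lt.1 h]

section sound
variable {t : BT} {y : Nm → ℝ} (h0 : y nz = 0) (h1 : y no = 1)
include h0 h1

lemma sound_tm (H : ∀ u ∈ subs t, ∀ e ∈ tmE u, e.ok y) :
    ∀ (n : ℕ) (u : BT), sizeOf u < n → Pos t u → y (3, u) = tm (fun v => y (2, v)) u := by
  intro n
  induction n with
  | zero => simp
  | succ n ih =>
    intro u hu hp
    have H' := H u hp.mem
    rcases u with _ | ⟨_ | ⟨g, a⟩, b⟩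
    · simpa [tmE, BT.isNode, Eqn.ok, h0, h1, tm, eq_comm] using H'
    · simpa [tmE, BT.isNode, BT.left, BT.right, Eqn.ok, h0, h1, tm, eq_comm] using H'
    · have ha := ih a (by simp at hu; omega) hp.l.r
      have hb := ih b (by simp at hu; omega) hp.r
      rcases g with _ | ⟨_ | _, _⟩ <;>
        simp [tmE, BT.isNode, BT.left, BT.right, Eqn.ok, h0, h1, ha, hb] at H' <;>
        simp only [tm] <;> linarith

lemma sound_fm (H : ∀ u ∈ subs t, ∀ e ∈ tmE u, e.ok y) (H2 : ∀ u ∈ subs t, ∀ e ∈ fmE u, e.ok y) :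
    ∀ (n : ℕ) (u : BT), sizeOf u < n → Pos t u → y (4, u) = ind (fm (fun v => y (2, v)) u) := by
  intro n
  induction n with
  | zero => simp
  | succ n ih =>
    intro u hu hp
    have H' := H2 u hp.mem
    rcases u with _ | ⟨_ | ⟨g, a⟩, b⟩
    · simpa [fmE, BT.isNode, Eqn.ok, h0, h1, fm, ind, eq_comm] using H'
    · have hb := ih b (by simp at hu; omega) hp.r
      simp [fmE, BT.isNode, BT.left, BT.right, Eqn.ok, h0, h1, hb] at H'
      simp only [fm, ind_not]
      linarith
    · have ha := ih a (by simp at hu; omega) hp.l.r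
      have hb := ih b (by simp at hu; omega) hp.r
      have ta := sound_tm h0 h1 H _ a (Nat.lt_succ_self _) hp.l.r
      have tb := sound_tm h0 h1 H _ b (Nat.lt_succ_self _) hp.r
      rcases g with _ | ⟨_ | _, _ | _⟩ <;>
        simp only [fmE, BT.isNode, BT.left, BT.right, Eqn.ok, h0, h1, ha, hb, ta, tb, Bool.not_true,
          Bool.not_false, cond_true, cond_false, List.mem_cons, List.not_mem_nil, or_false,
          forall_eq_or_imp, forall_eq] at H' <;> simp only [fm, ind_and, ind_or]
      · linarith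
      · linarith [H'.1, H'.2]
      · obtain ⟨e1, e2, e3⟩ := H'
        by_cases h : tm (fun v => y (2, v)) a = tm (fun v => y (2, v)) b
        · rw [ind_t h]
          rw [h] at e1
          rw [show y (5, _) = 0 by linarith] at e3; linarith
        · rw [ind_f h]
          exact (mul_eq_zero.1 ((add_zero _).symm.trans e2)).resolve_right fun e => h (by linarith)
      all_goals exact lt_aux H'

end sound

def sys (t : BT) : List (Eqn Nm) := (nz, nz, no, (4, t)) :: (subs t).flatMap fun u => tmE u ++ fmE u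

lemma sys_complete {x : BT → ℝ} {t : BT} (h : fm x t) : ∀ e ∈ sys t, e.ok (std x) := by
  intro e he
  rcases List.mem_cons.1 he with rfl | he
  · simp [Eqn.ok, std, nz, no, ind_t h]
  · obtain ⟨u, -, he⟩ := List.mem_flatMap.1 he
    exact (List.mem_append.1 he).elim (std_tm x u e) (std_fm x u e)

lemma sys_sound {t : BT} {y : Nm → ℝ} (h0 : y nz = 0) (h1 : y no = 1) (H : ∀ e ∈ sys t, e.ok y) :
    fm (fun v => y (2, v)) t := by
  have := sound_fm h0 h1 (t := t)
    (fun u hu e he => H e (.tail _ (List.mem_flatMap.2 ⟨u, hu, List.mem_append_left _ he⟩)))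
    (fun u hu e he => H e (.tail _ (List.mem_flatMap.2 ⟨u, hu, List.mem_append_right _ he⟩)))
    _ t (Nat.lt_succ_self _) ⟨[], [], by simp⟩
  have h2 := H _ List.mem_cons_self
  simp only [Eqn.ok, h0, h1, this] at h2
  by_contra h
  simp [ind_f h] at h2

def names (U : List BT) (E : List (Eqn Nm)) : List Nm :=
  nz :: no :: (U.map (fun v => (2, v)) ++ E.flatMap fun e => [e.1, e.2.1, e.2.2.1, e.2.2.2])

def ren (L : List Nm) (e : Eqn Nm) : Eqn ℕ :=
  (L.idxOf e.1, L.idxOf e.2.1, L.idxOf e.2.2.1, L.idxOf e.2.2.2)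

def ared (p : List BT × BT) : List ℕ × List (Eqn ℕ) :=
  (p.1.map fun v => (names p.1 (sys p.2)).idxOf (2, v), (sys p.2).map (ren (names p.1 (sys p.2))))

lemma ared_pt : PT ared := by
  have h1 : PT tmE := by unfold tmE; fun_prop
  have h2 : PT fmE := by unfold fmE; fun_prop
  have h3 : PT sys := by unfold sys subs; fun_prop
  have h4 : PT (fun p : List BT × BT => names p.1 (sys p.2)) := by unfold names; fun_prop
  have h5 : PT (fun q : List BT × List (Eqn Nm) × List Nm =>
      (q.1.map fun v => q.2.2.idxOf (2, v), q.2.1.map (ren q.2.2))) := by unfold ren; fun_prop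
  exact h5.comp (f := fun p : List BT × BT => (p.1, sys p.2, names p.1 (sys p.2)))
    (PT.id.fst.pair ((h3.comp PT.id.snd).pair h4))

lemma ared_iff (p : List BT × BT) :
    (∀ z : BT → ℝ, ∃ x, (∀ v ∈ p.1, x v = z v) ∧ fm x p.2) ↔ AFMA (ared p) := by
  set L := names p.1 (sys p.2) with hL
  have i0 : L.idxOf nz = 0 := by simp [hL, names]
  have i1 : L.idxOf no = 1 := by simp [hL, names, List.idxOf_cons, nz, no]
  have key : ∀ v ∈ L, L.getD (L.idxOf v) nz = v := fun v hv => by
    simp [List.getD_eq_getElem?_getD, List.idxOf_lt_length_iff.2 hv]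
  have hU : ∀ v ∈ p.1, (2, v) ∈ L := fun v hv => by simp [hL, names, hv]
  constructor
  · intro H z
    obtain ⟨x, hx, h⟩ := H fun v => z (L.idxOf (2, v))
    refine ⟨fun n => std x (L.getD n nz), ?_, rfl, rfl, ?_⟩
    · intro u hu
      obtain ⟨v, hv, rfl⟩ := List.mem_map.1 hu
      simp only [← hL, key _ (hU v hv)]
      exact hx v hv
    · intro e he
      obtain ⟨e, he', rfl⟩ := List.mem_map.1 he
      have hm : ∀ v ∈ [e.1, e.2.1, e.2.2.1, e.2.2.2], v ∈ L := fun v hv => by
        simp only [hL, names, List.mem_cons, List.mem_append, List.mem_flatMap]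
        exact .inr (.inr (.inr ⟨e, he', by simpa using hv⟩))
      simp only [Eqn.ok, ren, ← hL]
      rw [key _ (hm _ (by simp)), key _ (hm _ (by simp)), key _ (hm _ (by simp)),
        key _ (hm _ (by simp))]
      exact sys_complete h e he'
  · intro H z
    obtain ⟨x, hx, h0, h1, h⟩ := H fun n => z (L.getD n nz).2
    refine ⟨_, fun v hv => ?_, sys_sound (y := fun v => x (L.idxOf v)) (by simp [i0, h0])
      (by simp [i1, h1]) fun e he => h _ (List.mem_map_of_mem he)⟩
    rw [hx _ (List.mem_map_of_mem hv), ← hL, key _ (hU v hv)]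

/-- `L` reduces to `P` by a function of the class `PT` -/
def RH [Enc α] (L : Language) (P : α → Prop) : Prop :=
  ∃ g : List Bool → α, PT g ∧ ∀ s, s ∈ L ↔ P (g s)

theorem RH.red [Enc α] [Enc β] {L : Language} {P : α → Prop} {Q : β → Prop} (h : RH L P)
    {r : α → β} (hr : PT r) (e : ∀ a, P a ↔ Q (r a)) : RH L Q :=
  let ⟨g, hg, h'⟩ := h
  ⟨fun x => r (g x), hr.comp hg, fun x => (h' x).trans (e _)⟩

theorem RH.pull [Enc α] {L L' : Language} {P : α → Prop} (h : RH L P) (h' : Reduces L' L) :
    RH L' P :=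
  let ⟨g, hg, e⟩ := h
  let ⟨f, hf, e'⟩ := h'
  ⟨fun x => g (f x), hg.comp hf.pt, fun x => (e' x).trans (e _)⟩

theorem RH.reduces [Enc α] [Dec α] {L : Language} {P : α → Prop} (h : RH L P) :
    Reduces L (Lang P) :=
  let ⟨g, hg, h'⟩ := h
  ⟨fun x => enc (g x), polyTime_of_PT hg, fun x => (h' x).trans mem_Lang.symm⟩

theorem RH.lang [Enc α] [Dec α] {P : α → Prop} (a : α) (ha : ¬ P a) : RH (Lang P) P :=
  ⟨fun x => bif enc (decode x : α) == x then decode x else a, by fun_prop, fun x => by
    rw [mem_Lang']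
    by_cases h : enc (decode x : α) = x
    · simp [h]
    · simp [h, ha, show (enc (decode x : α) == x) = false by simpa using h]⟩

theorem rh_afma : RH AETR AFMA :=
  (RH.lang ([], .node .leaf .leaf) (by simp [fm])).red ared_pt ared_iff

theorem rh_fma : RH ETR FMA :=
  (RH.lang (.node .leaf .leaf) (by simp [fm])).red (r := fun t => (ared ([], t)).2)
    (ared_pt.comp (f := fun t : BT => (([] : List BT), t)) (by fun_prop)).snd fun t => by
      have := ared_iff ([], t)
      simpa [AFMA, FMA, ared] using this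

theorem RH.erHard [Enc α] [Dec α] {P : α → Prop} (h : RH ETR P) : ERHard (Lang P) :=
  fun _ h' => (h.pull h').reduces

theorem RH.aerHard [Enc α] [Dec α] {P : α → Prop} (h : RH AETR P) : AERHard (Lang P) :=
  fun _ h' => (h.pull h').reduces

end Pool.Agent.Cx
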