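import Pool.Agent.Lib.helper11.ETRBallB

/-! Non-closedness of a semialgebraic set is witnessed at a doubly exponential scale. -/

namespace Pool.Agent.Cx

open Filter Topology Finset

def Q (A : Set ℕ) (k : ℕ) (f : (ℕ → ℝ) → ℝ) : Prop := ∀ n, Pl A n k (2 ^ k) f

section
variable {A : Set ℕ} {k k' : ℕ} {f g : (ℕ → ℝ) → ℝ}

lemma Q.mono {A' : Set ℕ} (h : Q A k f) (hA : A ⊆ A') (hk : k ≤ k') : Q A' k' f :=
  fun n => (h n).mono hA hk (Nat.pow_le_pow_right (by omega) hk)

lemma Q.le (h : Q A k f) (hk : k ≤ k') : Q A k' f := h.mono le_rfl hk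

lemma Q.one : Q A k fun _ => 1 := fun _ => Pl.one.le (by omega) Nat.one_le_two_pow

lemma Q.zero : Q A k fun _ => 0 := fun _ => Pl.zero

lemma Q.var {v : ℕ} (h : v ∈ A) : Q A 1 fun x => x v := fun _ => (Pl.var h).le le_rfl (by omega)

lemma Q.add (h : Q A k f) (h' : Q A k' g) : Q A (max k k' + 1) fun x => f x + g x := fun n =>
  (((h.le (le_max_left k k')) n).add ((h'.le (le_max_right k k')) n)).le (by omega) (by omega)

lemma Q.neg (h : Q A k f) : Q A k fun x => -f x := fun n => (h n).neg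

lemma Q.sub (h : Q A k f) (h' : Q A k' g) : Q A (max k k' + 1) fun x => f x - g x := by
  simpa only [sub_eq_add_neg] using h.add h'.neg

lemma Q.mul (h : Q A k f) (h' : Q A k' g) : Q A (k + k') fun x => f x * g x := fun n =>
  ((h n).mul (h' n)).le le_rfl (pow_add 2 k k').ge

lemma Q.sq (h : Q A k f) : Q A (k + k) fun x => f x ^ 2 := by simpa only [_root_.sq] using h.mul h

lemma Q.sum {m : ℕ} {F : ℕ → (ℕ → ℝ) → ℝ} (h : ∀ i < m, Q A k (F i)) :
    Q A (k + m) fun x => ∑ i ∈ range m, F i x := fun n =>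
  (Pl.sum _ fun i hi => h i (mem_range.1 hi) n).le (by omega) (by
    rw [card_range, pow_add, mul_comm]; exact Nat.mul_le_mul_left _ Nat.lt_two_pow_self.le)

lemma Q.ite {c : Prop} [Decidable c] (h : Q A k f) (h' : Q A k g) :
    Q A k fun x => if c then f x else g x := by split_ifs <;> assumption

lemma Q.sgn (s : SignType) : Q A 0 fun _ => (s : ℝ) := by
  cases s
  · simpa using Q.zero
  · simpa using Q.one.neg
  · simpa using Q.one

lemma Q.cont (h : Q A k f) : Continuous f := (h 0).cont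

end

@[irreducible] def hb (N q : ℕ) : ℕ := kk (N + 2 * q + 9)

@[irreducible] def hs (N q K : ℕ) : ℕ := kk (N + K + 2 + 2 * (2 * q + K + 9) + 3)

section
variable {N q : ℕ} {C G F : (ℕ → ℝ) → ℝ} (hC : Q (Set.Iio N) q C) (hG : Q (Set.Iio N) q G)
  (hF : Q (Set.Iio N) q F) (C0 : ∀ x, 0 ≤ C x) (G0 : ∀ x, 0 ≤ G x) (F0 : ∀ x, 0 ≤ F x)
include hC hG hF C0 G0 F0

theorem bound_lem {B : ℝ} (h : ∀ δ > 0, ∃ x, C x = 0 ∧ F x < δ ∧ G x ≤ B) :
    ∀ δ > 0, ∃ x, C x = 0 ∧ F x ≤ δ ∧ G x < 2 ^ 2 ^ hb N q + 1 := by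
  let A : Set ℕ := {v | v < N + 2 ∨ v = N + 4}
  have s : Set.Iio N ⊆ A := fun v (hv : v < N) => .inl (by omega)
  have hD := ((hC.mono s le_rfl).add ((Q.var (v := N) (.inl (by omega))).sub (hG.mono s le_rfl)).sq).add
    ((((Q.var (v := N + 4) (.inr rfl)).mul (hF.mono s le_rfl)).add
      (Q.var (v := N + 1) (.inl (by omega))).sq).sub (Q.one (k := 0))).sq
  obtain ⟨f, f1, f2, f3⟩ := infV' (A := A) (n := N + 2) (i := N) (r := q + 4) (u := N + 2 * q + 9)
    (by omega) (fun v hv => .inl hv) (by simp [A]) (by simp [A]) (hD.le (by omega) _)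
    (fun x => by have := C0 x; positivity) (by omega) (by omega)
    (Nat.pow_le_pow_right (by omega) (by omega))
  obtain ⟨g, g1, g2, g3⟩ := f1.lim f2 (N + 4)
  let V : ℝ → Set (ℕ → ℝ) := fun η => {x ∈ Kp (N + 2) (fun _ => η) |
    C x + (x N - G x) ^ 2 + (x (N + 4) * F x + x (N + 1) ^ 2 - 1) ^ 2 = 0}
  have v1 : ∀ η, ∀ x ∈ V η, C x = 0 ∧ η * F x ≤ 1 ∧ x N = G x := fun η x hx => by
    have h1 := hx.2
    rw [hx.1 (N + 4) (by omega), add_eq_zero_iff_of_nonneg (add_nonneg (C0 x) (sq_nonneg _))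
      (sq_nonneg _), add_eq_zero_iff_of_nonneg (C0 x) (sq_nonneg _), sq_eq_zero_iff,
      sq_eq_zero_iff] at h1
    exact ⟨h1.1.1, by nlinarith [sq_nonneg (x (N + 1)), h1.2], by linarith [h1.1.2]⟩
  have v2 : ∀ η x, C x = 0 → η * F x ≤ 1 → G x ∈ (fun x => x N) '' V η := fun η x h1 h2 => by
    let y : ℕ → ℝ := fun v => if v < N then x v else if v = N then G x else
      if v = N + 1 then √(1 - η * F x) else η
    have e : ∀ {f}, Q (Set.Iio N) q f → f y = f x := fun h => (h 0).congr fun v hv => if_pos hv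
    refine ⟨y, ⟨fun v hv => ?_, ?_⟩, by simp [y]⟩
    · simp only [y]
      rw [if_neg (by omega), if_neg (by omega), if_neg (by omega)]
    · rw [e hC, e hG, e hF]
      simp [y, h1, Real.sq_sqrt (sub_nonneg.2 h2), show ¬ N + 4 < N by omega]
  have bd : ∀ η, (0 : ℝ) ∈ lowerBounds ((fun x => x N) '' V η) := by
    rintro η _ ⟨x, hx, rfl⟩
    exact (G0 x).trans (v1 η x hx).2.2.ge
  have ne : ∀ η > 0, ∃ a ∈ (fun x => x N) '' V η, a ≤ B := fun η hη => by
    obtain ⟨x, h1, h2, h3⟩ := h η⁻¹ (by positivity)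
    exact ⟨_, v2 η x h1 (by rw [← le_div_iff₀' hη, one_div]; exact h2.le), h3⟩
  let μ : ℕ → ℝ := fun m => sInf ((fun x => x N) '' V (m + 1))
  have gl : ∀ m : ℕ, IsGLB ((fun x => x N) '' V (m + 1)) (μ m) := fun m =>
    isGLB_csInf ((ne _ (by positivity)).imp fun _ h => h.1) ⟨0, bd _⟩
  have mo : Monotone μ := fun a b hab => (gl b).2 <| by
    rintro _ ⟨x, hx, rfl⟩
    obtain ⟨h1, h2, h3⟩ := v1 _ x hx
    refine ((gl a).1 (v2 _ x h1 (le_trans ?_ h2))).trans h3.ge
    exact mul_le_mul_of_nonneg_right (by simpa using hab) (F0 x)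
  have bb : BddAbove (Set.range μ) := ⟨B, by
    rintro _ ⟨m, rfl⟩
    obtain ⟨a, h1, h2⟩ := ne (m + 1) (by positivity)
    exact ((gl m).1 h1).trans h2⟩
  have rt := (g1.mono (A' := {N}) (fun v hv => by
    simp only [A, Set.mem_diff, Set.mem_insert_iff, Set.mem_inter_iff, Set.mem_Ici,
      Set.mem_singleton_iff, Set.mem_ofPred_eq] at *; omega) le_rfl le_rfl).root g2
    (g3 (fun m => Function.update (fun _ => (m : ℝ) + 1) N (μ m)) (fun _ => ⨆ m, μ m)
      (fun m => f3 _ _ (let ⟨_, ⟨x, h, _⟩, _⟩ := ne (m + 1) (by positivity); ⟨x, h⟩) (gl m))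
      (by simpa using tendsto_atTop_add_const_right _ 1 tendsto_natCast_atTop_atTop)
      fun v hv => by
        obtain rfl : v = N := by
          simp only [A, Set.mem_diff, Set.mem_insert_iff, Set.mem_inter_iff, Set.mem_Ici,
            Set.mem_singleton_iff, Set.mem_ofPred_eq] at hv; omega
        simpa using tendsto_atTop_ciSup mo bb)
  intro δ hδ
  obtain ⟨m, hm⟩ := exists_nat_one_div_lt hδ
  obtain ⟨_, ⟨x, hx, rfl⟩, h⟩ := (isGLB_lt_iff (gl m)).1 (show μ m < 2 ^ 2 ^ hb N q + 1 by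
    have := (le_ciSup bb m).trans ((le_abs_self _).trans rt.1)
    unfold hb
    push_cast at this
    linarith)
  obtain ⟨h1, h2, h3⟩ := v1 _ x hx
  refine ⟨x, h1, le_trans ?_ hm.le, h3.ge.trans_lt h⟩
  rwa [le_div_iff₀' (by positivity)]

omit G0 in
theorem sep_lem {K : ℕ} {z : ℕ → ℝ} (h1 : C z = 0) (h2 : G z ≤ 2 ^ 2 ^ K)
    (h3 : 2 ^ 2 ^ hs N q K * F z < 1) : ∀ δ > 0, ∃ x, C x = 0 ∧ G x ≤ 2 ^ 2 ^ K ∧ F x < δ := by
  have s : Set.Iio N ⊆ Set.Iio (N + K + 2) := Set.Iio_subset_Iio (by omega)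
  have v : ∀ j < K + 2, Q (Set.Iio (N + K + 2)) 1 fun x => x (N + j) := fun j hj =>
    Q.var (show N + j < N + K + 2 by omega)
  have hD := ((hC.mono s le_rfl).add (((v 0 (by omega)).sub ((Q.one (k := 0)).add (Q.one (k := 0)))).sq.add
    (Q.sum (m := K) fun j hj => ((v (j + 1) (by omega)).sub (v j (by omega)).sq).sq))).add
    (((hG.mono s le_rfl).add (v (K + 1) (by omega)).sq).sub (v K (by omega))).sq
  let y : ℕ → ℝ := fun v => if v < N then z v else if v = N + (K + 1) then √(2 ^ 2 ^ K - G z) else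
    2 ^ 2 ^ (v - N)
  have e : ∀ {f}, Q (Set.Iio N) q f → f y = f z := fun h => (h 0).congr fun v hv => if_pos hv
  have y1 : ∀ j ≤ K, y (N + j) = 2 ^ 2 ^ j := fun j hj => by
    simp [y, show j ≠ K + 1 by omega]
  intro δ hδ
  obtain ⟨x, x1, x2⟩ := (inf_bound (n := N + K + 2) (r := 2 * q + K + 9) (L := 2 ^ (2 * q + K + 9))
    (u := N + K + 2 + 2 * (2 * q + K + 9) + 3)
    ((hD.le (k' := 2 * q + K + 9) (by omega) _).le (by omega) le_rfl)
    ((hF.mono (k' := 2 * q + K + 9) s (by omega) _).le (by omega) le_rfl)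
    (fun x => by have := C0 x; positivity) F0 (by omega) (by omega) (by
      refine le_trans ?_ (Nat.pow_le_pow_right (by omega)
        (show 2 * (2 * q + K + 9) + 3 ≤ _ by omega))
      rw [pow_add 2 (2 * _), two_mul (2 * q + K + 9), pow_add 2 (2 * q + K + 9)]
      have := Nat.one_le_two_pow (n := 2 * q + K + 9)
      nlinarith) (z := y) (by
      rw [e hC, e hG, h1, y1 0 (by omega), y1 K le_rfl, Finset.sum_eq_zero fun j hj => by
        have := mem_range.1 hj
        rw [y1 _ this, y1 _ this.le, ← pow_mul, ← pow_succ]; simp]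
      simp [y, Real.sq_sqrt (sub_nonneg.2 h2)]
      norm_num)).2 (by rw [e hF]; unfold hs at h3; exact h3) δ hδ
  have p : ∀ j ∈ range K, 0 ≤ (x (N + (j + 1)) - x (N + j) ^ 2) ^ 2 := fun _ _ => sq_nonneg _
  rw [add_eq_zero_iff_of_nonneg (add_nonneg (C0 x) (by positivity)) (sq_nonneg _),
    add_eq_zero_iff_of_nonneg (C0 x) (by positivity),
    add_eq_zero_iff_of_nonneg (sq_nonneg _) (sum_nonneg p), sum_eq_zero_iff_of_nonneg p] at x1
  simp only [sq_eq_zero_iff, sub_eq_zero, mem_range] at x1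
  have : ∀ j ≤ K, x (N + j) = 2 ^ 2 ^ j := fun j hj => by
    induction j with
    | zero => rw [x1.1.2.1]; norm_num
    | succ j ih => rw [x1.1.2.2 j hj, ih (by omega), ← pow_mul, ← pow_succ]
  exact ⟨x, x1.1.1, by nlinarith [x1.2, this K le_rfl, sq_nonneg (x (N + (K + 1)))], x2⟩

end

lemma sg1 {s : SignType} {t d : ℝ} (h : s * (t ^ 2 * d) - 1 = 0) : SignType.sign d = s := by
  cases s
  · simp at h
  · refine sign_neg (by_contra fun e => ?_)
    simp only [SignType.neg_eq_neg_one, SignType.coe_neg, SignType.coe_one] at h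
    nlinarith [mul_nonneg (sq_nonneg t) (not_lt.1 e)]
  · refine sign_pos (by_contra fun e => ?_)
    simp only [SignType.pos_eq_one, SignType.coe_one] at h
    nlinarith [mul_nonneg (sq_nonneg t) (neg_nonneg.2 (not_lt.1 e))]

lemma sg2 {d : ℝ} (h : d ≠ 0) : (SignType.sign d : ℝ) * (√|d|⁻¹ ^ 2 * d) - 1 = 0 := by
  rw [Real.sq_sqrt (by positivity), mul_left_comm, sign_mul_self, inv_mul_cancel₀ (abs_ne_zero.2 h),
    sub_self]

lemma sg3 {v d : ℝ} (h : v * d = 1) : SignType.sign v = SignType.sign d := by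
  rcases lt_trichotomy d 0 with e | e | e
  · rw [sign_neg e, sign_neg (by nlinarith)]
  · simp [e] at h
  · rw [sign_pos e, sign_pos (by nlinarith)]

def qq (n m k : ℕ) : ℕ := 2 * k + n + m + 6
def k1 (n m k : ℕ) : ℕ := hb (n + m) (qq n m k) + 2
def k2 (n m k : ℕ) : ℕ := hs (n + m) (qq n m k) (k1 n m k + 1) + 1

lemma le_kk (u : ℕ) : u ≤ kk u := by unfold kk; omega

section
open Classical
variable {n m k : ℕ} (D : ℕ → (ℕ → ℝ) → ℝ) (s : ℕ → SignType) (Z : ℕ → Prop)

noncomputable def cE (n j : ℕ) (x : ℕ → ℝ) : ℝ :=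
  if s j = 0 then D j x else s j * (x (n + j) ^ 2 * D j x) - 1
noncomputable def cC (n m : ℕ) (x : ℕ → ℝ) : ℝ := ∑ j ∈ range m, cE D s n j x ^ 2
noncomputable def cG (n m : ℕ) (x : ℕ → ℝ) : ℝ :=
  ∑ i ∈ range n, x i ^ 2 + ∑ j ∈ range m, if Z j then 0 else x (n + j) ^ 2
noncomputable def cF (m : ℕ) (x : ℕ → ℝ) : ℝ := ∑ j ∈ range m, if Z j then D j x ^ 2 else 0

lemma cC0 (x) : 0 ≤ cC D s n m x := sum_nonneg fun _ _ => sq_nonneg _
lemma cG1 (x : ℕ → ℝ) (j) : 0 ≤ if Z j then 0 else x (n + j) ^ 2 := by positivity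
lemma cG0 (x) : 0 ≤ cG Z n m x := add_nonneg (by positivity) (sum_nonneg fun j _ => cG1 Z x j)
lemma cF1 (x : ℕ → ℝ) (j) : 0 ≤ if Z j then D j x ^ 2 else 0 := by positivity
lemma cF0 (x) : 0 ≤ cF D Z m x := sum_nonneg fun j _ => cF1 D Z x j

lemma cC_iff {x} : cC D s n m x = 0 ↔ ∀ j < m, cE D s n j x = 0 := by
  simp [cC, sum_eq_zero_iff_of_nonneg fun j _ => sq_nonneg (cE D s n j x)]

lemma cE_sign {x j} (h : cE D s n j x = 0) : SignType.sign (D j x) = s j := by
  unfold cE at h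
  split_ifs at h with e
  · simp [h, e]
  · exact sg1 h

lemma cG_le1 (x) {i} (h : i < n) : x i ^ 2 ≤ cG Z n m x :=
  le_add_of_le_of_nonneg (single_le_sum (f := fun i => x i ^ 2) (fun _ _ => sq_nonneg _)
    (mem_range.2 h)) (sum_nonneg fun j _ => cG1 Z x j)

lemma cG_le2 (x) {j} (h : j < m) (h' : ¬ Z j) : x (n + j) ^ 2 ≤ cG Z n m x :=
  le_add_of_nonneg_of_le (by positivity) (by
    simpa [h'] using single_le_sum (fun j _ => cG1 (n := n) Z x j) (mem_range.2 h))

lemma cF_le (x) {j} (h : j < m) (h' : Z j) : D j x ^ 2 ≤ cF D Z m x := by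
  simpa [h', cF] using single_le_sum (fun j _ => cF1 D Z x j) (mem_range.2 h)

variable {D} (hD : ∀ j, Q (Set.Iio n) k (D j))
include hD

lemma cQ : Q (Set.Iio (n + m)) (qq n m k) (cC D s n m) ∧ Q (Set.Iio (n + m)) (qq n m k) (cG Z n m) ∧
    Q (Set.Iio (n + m)) (qq n m k) (cF D Z m) := by
  have d : ∀ j, Q (Set.Iio (n + m)) k (D j) := fun j =>
    (hD j).mono (Set.Iio_subset_Iio (by omega)) le_rfl
  have v : ∀ j < n + m, Q (Set.Iio (n + m)) 1 fun x => x j := fun j hj => Q.var hj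
  unfold qq
  exact ⟨(Q.sum fun j hj => (Q.ite (k := k + 3) ((d j).le (by omega)) ((((Q.sgn _).mul
      ((v _ (by omega)).sq.mul (d j))).sub (Q.one (k := 0))).le (by omega))).sq).le (by omega),
    ((Q.sum fun j hj => (v j (by omega)).sq).add
      (Q.sum fun j hj => Q.zero.ite (v _ (by omega)).sq)).le (by omega),
    (Q.sum fun j hj => (d j).sq.ite Q.zero).le (by omega)⟩

variable {B : (ℕ → ℝ) → Prop}
  (hB : ∀ a b : ℕ → ℝ, (∀ j < m, SignType.sign (a j) = SignType.sign (b j)) → B a → B b)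
include hB

theorem core1 (h : ¬ IsClosed {x | B fun j => D j x}) : ∃ y v : ℕ → ℝ, B (fun j => D j y) ∧ ¬ B v ∧
    (∀ i < n, y i * y i < 2 ^ 2 ^ k1 n m k) ∧ ∀ j < m, v j * v j < 2 ^ 2 ^ k1 n m k ∧
      (v j = 0 ∧ D j y * D j y * 2 ^ 2 ^ k2 n m k < 1 ∨ v j * D j y = 1) := by
  obtain ⟨x, hx, hx'⟩ := Set.not_subset.1 (mt closure_subset_iff_isClosed.1 h)
  have : {x | B fun j => D j x} = ⋃ t : Fin m → SignType,
      {x | (B fun j => D j x) ∧ ∀ j : Fin m, SignType.sign (D j x) = t j} := by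
    ext x
    simp only [Set.mem_iUnion, Set.mem_ofPred_eq]
    exact ⟨fun h => ⟨_, h, fun _ => rfl⟩, fun ⟨_, h, _⟩ => h⟩
  rw [this, closure_iUnion_of_finite, Set.mem_iUnion] at hx
  obtain ⟨t, ht⟩ := hx
  let s : ℕ → SignType := fun j => if h : j < m then t ⟨j, h⟩ else 0
  let Z : ℕ → Prop := fun j => D j x = 0
  have fr := mem_closure_iff_frequently.1 ht
  have s1 : ∀ j < m, ¬ Z j → SignType.sign (D j x) = s j := fun j hj hz => by
    obtain ⟨y, h1, h2⟩ := (fr.and_eventually (((continuousAt_sign_of_ne_zero hz).comp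
      (hD j).cont.continuousAt).eventually (p := fun a => a = SignType.sign (D j x))
      (by simp))).exists
    simp only [s, hj, dif_pos]
    exact h2.symm.trans (h1.2 ⟨j, hj⟩)
  obtain ⟨q1, q2, q3⟩ := cQ (m := m) s Z hD
  let l : (ℕ → ℝ) → ℕ → ℝ := fun y v => if v < n then y v else √|D (v - n) y|⁻¹
  have l1 : ∀ y j, D j (l y) = D j y := fun y j => (hD j 0).congr fun v hv => if_pos hv
  have l2 : ∀ y j, l y (n + j) = √|D j y|⁻¹ := fun y j => by simp [l]
  have l3 : ∀ y, cF D Z m (l y) = cF D Z m y := fun y => by simp only [cF, l1]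
  have c1 : ContinuousAt (fun y => cG Z n m (l y)) x := by
    simp only [cG, l2]
    refine ContinuousAt.add (tendsto_finset_sum _ fun i hi => ?_) (tendsto_finset_sum _ fun j hj => ?_)
    · simp only [l, mem_range.1 hi, if_true]
      exact ((continuous_apply i).pow 2).continuousAt
    · split_ifs with h
      · exact tendsto_const_nhds
      · exact (((hD j).cont.abs.continuousAt.inv₀ (abs_ne_zero.2 h)).sqrt.pow 2 :)
  have f0 : cF D Z m x = 0 := sum_eq_zero fun j _ => by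
    split_ifs with h
    · rw [show D j x = 0 from h]; simp
    · rfl
  obtain ⟨y, y1, y2, y3⟩ := bound_lem q1 q2 q3 (cC0 _ _) (cG0 _) (cF0 _ _)
    (B := cG Z n m (l x) + 1) (fun δ hδ => by
      obtain ⟨y, h1, h2, h3⟩ := (fr.and_eventually ((q3.cont.continuousAt.eventually_lt_const
        (f0 ▸ hδ)).and (c1.eventually_lt_const (lt_add_one _)))).exists
      refine ⟨l y, (cC_iff _ _).2 fun j hj => ?_, l3 y ▸ h2, h3.le⟩
      have : s j = SignType.sign (D j y) := by
        simp only [s, hj, dif_pos]; exact (h1.2 ⟨j, hj⟩).symm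
      unfold cE
      rw [l1, l2, this]
      split_ifs with e
      · exact sign_eq_zero_iff.1 e
      · exact sg2 (mt sign_eq_zero_iff.2 e)) ((2 ^ 2 ^ k2 n m k)⁻¹ / 2) (by positivity)
  rw [cC_iff] at y1
  have H2 : (2 : ℝ) ≤ 2 ^ 2 ^ hb (n + m) (qq n m k) := le_self_pow₀ (by norm_num) (by positivity)
  have e4 : (2 : ℝ) ^ 2 ^ k1 n m k = (2 ^ 2 ^ hb (n + m) (qq n m k)) ^ 4 := by
    rw [← pow_mul, k1, pow_add]; norm_num
  rw [e4]
  generalize (2 : ℝ) ^ 2 ^ hb (n + m) (qq n m k) = H at *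
  have H3 : (H + 1) ^ 2 ≤ H ^ 4 := by
    rw [show H ^ 4 = (H ^ 2) ^ 2 by ring]
    exact pow_le_pow_left₀ (by linarith) (by nlinarith) 2
  obtain ⟨y0, h0⟩ := fr.exists
  have e1 : ∀ j < m, ¬ Z j → s j * (y (n + j) ^ 2 * D j y) - 1 = 0 := fun j hj hz => by
    have := y1 j hj
    rwa [cE, if_neg (s1 j hj hz ▸ mt sign_eq_zero_iff.1 hz)] at this
  refine ⟨y, fun j => if Z j then 0 else s j * y (n + j) ^ 2, hB _ _ (fun j hj => ?_) h0.1,
    fun h => hx' (hB _ _ (fun j hj => ?_) h), fun i hi => ?_, fun j hj => ?_⟩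
  · rw [cE_sign _ _ (y1 j hj), h0.2 ⟨j, hj⟩]
    simp [s, hj]
  · split_ifs with hz
    · rw [show D j x = 0 from hz]
    · rw [s1 j hj hz, sg3 (d := D j y) (by linear_combination e1 j hj hz), cE_sign _ _ (y1 j hj)]
  · nlinarith [cG_le1 (m := m) Z y hi]
  · beta_reduce
    split_ifs with hz
    · refine ⟨by nlinarith, .inl ⟨rfl, ?_⟩⟩
      have := (cF_le D Z y hj hz).trans y2
      have h : (0 : ℝ) < 2 ^ 2 ^ k2 n m k := by positivity
      rw [← _root_.sq, ← lt_div_iff₀ h, one_div]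
      linarith [inv_pos.2 h]
    · refine ⟨lt_of_lt_of_le ?_ H3, .inr (by linear_combination e1 j hj hz)⟩
      have := (cG_le2 Z y hj hz).trans_lt y3
      have h : (s j : ℝ) * s j ≤ 1 := by cases s j <;> simp
      have h2 := pow_lt_pow_left₀ this (sq_nonneg _) two_ne_zero
      nlinarith [sq_nonneg (y (n + j) ^ 2)]

theorem core2 {y v : ℕ → ℝ} (h1 : B fun j => D j y) (h2 : ¬ B v)
    (h3 : ∀ i < n, y i * y i < 2 ^ 2 ^ k1 n m k) (h4 : ∀ j < m, v j * v j < 2 ^ 2 ^ k1 n m k ∧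
      (v j = 0 ∧ D j y * D j y * 2 ^ 2 ^ k2 n m k < 1 ∨ v j * D j y = 1)) :
    ¬ IsClosed {x | B fun j => D j x} := by
  intro hc
  let s : ℕ → SignType := fun j => SignType.sign (D j y)
  let Z : ℕ → Prop := fun j => v j = 0
  obtain ⟨q1, q2, q3⟩ := cQ (m := m) s Z hD
  let z : ℕ → ℝ := fun v => if v < n then y v else √|D (v - n) y|⁻¹
  have l1 : ∀ j, D j z = D j y := fun j => (hD j 0).congr fun v hv => if_pos hv
  have l2 : ∀ j, z (n + j) = √|D j y|⁻¹ := fun j => by simp [z]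
  have e1 : ∀ j < m, ¬ Z j → v j * D j y = 1 := fun j hj hz =>
    (h4 j hj).2.resolve_left fun h => hz h.1
  have R1 : ((n + m : ℕ) : ℝ) + 1 ≤ 2 ^ 2 ^ k1 n m k := by
    have : n + m < 2 ^ 2 ^ k1 n m k := by
      refine lt_of_le_of_lt ?_ (Nat.lt_two_pow_self.trans Nat.lt_two_pow_self)
      have := le_kk (n + m + 2 * qq n m k + 9)
      unfold k1 hb; omega
    exact_mod_cast this
  have R2 : (m : ℝ) < 2 ^ 2 ^ hs (n + m) (qq n m k) (k1 n m k + 1) := by
    have : m < 2 ^ 2 ^ hs (n + m) (qq n m k) (k1 n m k + 1) := by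
      refine lt_of_le_of_lt ?_ (Nat.lt_two_pow_self.trans Nat.lt_two_pow_self)
      unfold hs
      exact le_trans (by omega) (le_kk _)
    exact_mod_cast this
  have key := sep_lem q1 q2 q3 (cC0 _ _) (cF0 _ _) (K := k1 n m k + 1) (z := z)
    ((cC_iff _ _).2 fun j hj => by
      unfold cE
      rw [l1, l2]
      split_ifs with e
      · exact sign_eq_zero_iff.1 e
      · exact sg2 (mt sign_eq_zero_iff.2 e)) (by
      rw [pow_succ, pow_mul]
      generalize (2 : ℝ) ^ 2 ^ k1 n m k = R at *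
      have a1 := sum_le_card_nsmul (range n) (fun i => z i ^ 2) R fun i hi => by
        have := mem_range.1 hi
        simp only [z, this, if_true]
        nlinarith [h3 i this]
      have a2 := sum_le_card_nsmul (range m) (fun j => if Z j then 0 else z (n + j) ^ 2) R
        fun j hj => by
          have := mem_range.1 hj
          have n0 : (0 : ℝ) ≤ (n + m : ℕ) := by positivity
          split_ifs with hz
          · linarith
          · rw [l2, Real.sq_sqrt (by positivity), ← abs_inv, ← eq_inv_of_mul_eq_one_left (e1 j this hz)]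
            exact abs_le_of_sq_le_sq (by nlinarith [(h4 j this).1]) (by linarith)
      simp only [card_range, nsmul_eq_mul, Nat.cast_add] at a1 a2 R1
      unfold cG
      nlinarith [Nat.cast_nonneg (α := ℝ) n, Nat.cast_nonneg (α := ℝ) m]) (by
      have e : (2 : ℝ) ^ 2 ^ k2 n m k = (2 ^ 2 ^ hs (n + m) (qq n m k) (k1 n m k + 1)) ^ 2 := by
        rw [← pow_mul, k2, pow_succ]
      have p : (0 : ℝ) < 2 ^ 2 ^ hs (n + m) (qq n m k) (k1 n m k + 1) := by positivity
      rw [e] at h4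
      generalize (2 : ℝ) ^ 2 ^ hs (n + m) (qq n m k) (k1 n m k + 1) = H at *
      have a := sum_le_card_nsmul (range m) (fun j => if Z j then D j z ^ 2 else 0) (1 / H ^ 2)
        fun j hj => by
          split_ifs with hz
          · rw [l1, le_div_iff₀ (by positivity), _root_.sq (D j y)]
            exact ((h4 j (mem_range.1 hj)).2.resolve_right (by simp [show v j = 0 from hz])).2.le
          · positivity
      rw [card_range, nsmul_eq_mul] at a
      calc H * _ ≤ H * (m * (1 / H ^ 2)) := mul_le_mul_of_nonneg_left a p.le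
        _ = m / H := by field_simp
        _ < 1 := (div_lt_one p).2 R2)
  generalize (2 : ℝ) ^ 2 ^ (k1 n m k + 1) = R at key
  let π : (ℕ → ℝ) → ℕ → ℝ := fun x i => if i < n ∨ i < n + m ∧ ¬ Z (i - n) then x i else 0
  have p1 : ∀ x j, D j (π x) = D j x := fun x j => (hD j 0).congr fun v hv => if_pos (.inl hv)
  let T := π '' {x | cC D s n m x = 0 ∧ cG Z n m x ≤ R}
  obtain ⟨x0, hx0⟩ := key 1 one_pos
  have R0 := (cG0 _ _).trans hx0.2.1
  have cp : IsCompact (closure T) := by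
    refine (isCompact_univ_pi fun _ => isCompact_Icc (a := -(R + 1)) (b := R + 1)).closure_of_subset ?_
    rintro _ ⟨x, hx, rfl⟩ i -
    simp only [π, Set.mem_Icc, ← abs_le]
    split_ifs with h
    · have : x i ^ 2 ≤ R := by
        by_cases hi : i < n
        · exact (cG_le1 Z x hi).trans hx.2
        · have := cG_le2 (n := n) (m := m) Z x (j := i - n) (by omega) (h.resolve_left hi).2
          rw [show n + (i - n) = i by omega] at this
          exact this.trans hx.2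
      exact abs_le_of_sq_le_sq (by nlinarith) (by linarith)
    · simp only [abs_zero]; linarith
  obtain ⟨w, hw, hm⟩ := cp.exists_isMinOn ⟨_, subset_closure ⟨x0, ⟨hx0.1, hx0.2.1⟩, rfl⟩⟩
    q3.cont.continuousOn
  have f0 : cF D Z m w ≤ 0 := le_of_forall_pos_le_add fun δ hδ => by
    obtain ⟨x, a1, a2, a3⟩ := key δ hδ
    have : cF D Z m w ≤ cF D Z m (π x) := hm (subset_closure ⟨x, ⟨a1, a2⟩, rfl⟩)
    simp only [cF, p1] at this a3 ⊢
    linarith
  refine h2 (hB _ _ (fun j hj => ?_) (show w ∈ {x | B fun j => D j x} from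
    closure_minimal ?_ hc hw))
  · by_cases hz : Z j
    · rw [show v j = 0 from hz, pow_eq_zero_iff two_ne_zero |>.1
        (le_antisymm ((cF_le D Z w hj hz).trans f0) (sq_nonneg _))]
    · rw [sg3 (e1 j hj hz)]
      refine sg1 (t := w (n + j)) (closure_minimal (t := {w : ℕ → ℝ |
        s j * (w (n + j) ^ 2 * D j w) - 1 = 0}) ?_ (isClosed_eq (by
          have := (hD j).cont; fun_prop) continuous_const) hw)
      rintro _ ⟨x, hx, rfl⟩
      have := (cC_iff _ _).1 hx.1 j hj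
      rw [cE, if_neg (mt sign_eq_zero_iff.1 fun e => by simpa [e] using e1 j hj hz)] at this
      simpa [p1, π, hj, hz] using this
  · rintro _ ⟨x, hx, rfl⟩
    simp only [Set.mem_ofPred_eq, p1]
    exact hB _ _ (fun j hj => (cE_sign _ _ ((cC_iff _ _).1 hx.1 j hj)).symm) h1

end

end Pool.Agent.Cx
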