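import Pool.Agent.Lib.helper10.NPDefs

/-! The existential theory of the reals and the classes built on it. -/

namespace Pool.Agent.Cx

/-- A binary tree read as a polynomial term; variables are named by binary trees. -/
def tm (x : BT → ℝ) : BT → ℝ
  | .leaf => 1
  | .node .leaf v => x v
  | .node (.node .leaf a) b => tm x a + tm x b
  | .node (.node (.node .leaf _) a) b => tm x a - tm x b
  | .node (.node (.node (.node _ _) _) a) b => tm x a * tm x b

/-- A binary tree read as a quantifier-free formula. -/
def fm (x : BT → ℝ) : BT → Prop
  | .leaf => True
  | .node .leaf a => ¬ fm x a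
  | .node (.node .leaf a) b => fm x a ∧ fm x b
  | .node (.node (.node .leaf .leaf) a) b => fm x a ∨ fm x b
  | .node (.node (.node .leaf (.node _ _)) a) b => tm x a = tm x b
  | .node (.node (.node (.node _ _) _) a) b => tm x a < tm x b

/-- Codes of the formulas that have a real solution. -/
def ETR : Language := Lang fun φ : BT => ∃ x, fm x φ

/-- Every language that reduces to `ETR` reduces to `L`. -/
def ERHard (L : Language) : Prop := ∀ L', Reduces L' ETR → Reduces L' L

/-- Codes of true sentences: for all values of the variables listed in `p.1` there are values of
the other variables satisfying the formula `p.2`. -/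
def AETR : Language :=
  Lang fun p : List BT × BT => ∀ z : BT → ℝ, ∃ x, (∀ v ∈ p.1, x v = z v) ∧ fm x p.2

/-- Every language that reduces to `AETR` reduces to `L`. -/
def AERHard (L : Language) : Prop := ∀ L', Reduces L' AETR → Reduces L' L

/-- The number with binary digits `l`, least significant first. -/
def bin : List Bool → ℕ
  | [] => 0
  | b :: l => b.toNat + 2 * bin l

/-- Sign and binary digits read as an integer. -/
def intVal (c : Bool × List Bool) : ℤ := if c.1 then -(bin c.2 : ℤ) else bin c.2

/-- A polynomial written as a list of terms: a binary integer coefficient and the list of the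
variables multiplied. -/
abbrev Poly := List ((Bool × List Bool) × List ℕ)

/-- The value of a polynomial. -/
def Poly.ev (p : Poly) (x : ℕ → ℝ) : ℝ :=
  (List.map (fun t => (intVal t.1 : ℝ) * (t.2.map x).prod) p).sum

/-- Only the variables `0, ..., n-1` occur. -/
def Poly.In (p : Poly) (n : ℕ) : Prop := ∀ t ∈ p, ∀ i ∈ t.2, i < n

end Pool.Agent.Cx
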