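import Pool.Agent.Lib.helper11.ETRPoly

/-! Building blocks for writing `ETR` formulas. -/

namespace Pool.Agent.Cx

def tV (k : ℕ) (t : BT) : BT := .node .leaf (Enc.toBT (k, t))
def tA (a b : BT) : BT := .node (.node .leaf a) b
def tS (a b : BT) : BT := .node (.node (.node .leaf .leaf) a) b
def tM (a b : BT) : BT := .node (.node (.node (.node .leaf .leaf) .leaf) a) b
def tZ : BT := tS .leaf .leaf
def fN (a : BT) : BT := .node .leaf a
def fE (a b : BT) : BT := .node (.node (.node .leaf (.node .leaf .leaf)) a) b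
def fI (a b : BT) : BT := tS (tA a b) (tA (fN a) (fN b))
def bigA (l : List BT) : BT := Enc.toBT (l.map fun a => BT.node .leaf a)
def bigM (l : List BT) : BT := Enc.toBT (l.map fun a => BT.node (.node (.node .leaf .leaf) .leaf) a)
def binT (l : List Bool) : BT := Enc.toBT (l.flatMap (fun b => [BT.node .leaf (bif b then .leaf else tZ),
  .node (.node (.node .leaf .leaf) .leaf) (tA .leaf .leaf)]) ++
    [BT.node (.node (.node .leaf .leaf) .leaf) tZ])
def polyT (w : ℕ → BT) (p : Poly) : BT :=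
  tS (bigA (List.map (fun t => tM (bif t.1.1 then tS tZ (binT t.1.2) else binT t.1.2)
    (bigM (t.2.map w))) p)) .leaf

section
variable {α : Type} [Enc α] {f g : α → BT}
@[fun_prop] lemma PT.tV {k : α → ℕ} (hk : PT k) (hf : PT f) : PT fun a => tV (k a) (f a) := by
  unfold Cx.tV; fun_prop
@[fun_prop] lemma PT.tA (hf : PT f) (hg : PT g) : PT fun a => tA (f a) (g a) := by
  unfold Cx.tA; fun_prop
@[fun_prop] lemma PT.tS (hf : PT f) (hg : PT g) : PT fun a => tS (f a) (g a) := by
  unfold Cx.tS; fun_prop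
@[fun_prop] lemma PT.tM (hf : PT f) (hg : PT g) : PT fun a => tM (f a) (g a) := by
  unfold Cx.tM; fun_prop
@[fun_prop] lemma PT.fN (hf : PT f) : PT fun a => fN (f a) := by unfold Cx.fN; fun_prop
@[fun_prop] lemma PT.fE (hf : PT f) (hg : PT g) : PT fun a => fE (f a) (g a) := by
  unfold Cx.fE; fun_prop
@[fun_prop] lemma PT.fI (hf : PT f) (hg : PT g) : PT fun a => fI (f a) (g a) := by
  unfold Cx.fI; fun_prop
@[fun_prop] lemma PT.bigA {l : α → List BT} (h : PT l) : PT fun a => bigA (l a) := by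
  unfold Cx.bigA; fun_prop
@[fun_prop] lemma PT.bigM {l : α → List BT} (h : PT l) : PT fun a => bigM (l a) := by
  unfold Cx.bigM; fun_prop
@[fun_prop] lemma PT.binT {l : α → List Bool} (h : PT l) : PT fun a => binT (l a) := by
  unfold Cx.binT; fun_prop
@[fun_prop] lemma PT.polyT {w : α → ℕ → BT} {p : α → Poly} (hw : PT fun q : α × ℕ => w q.1 q.2)
    (h : PT p) : PT fun a => polyT (w a) (p a) := by
  have : PT fun q : (α × (Bool × List Bool) × List ℕ) × ℕ => w q.1.1 q.2 :=
    hw.comp (f := fun q : (α × (Bool × List Bool) × List ℕ) × ℕ => (q.1.1, q.2)) (by fun_prop)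
  unfold Cx.polyT; fun_prop
@[fun_prop] lemma PT.subs (hf : PT f) : PT fun a => subs (f a) := by unfold Cx.subs; fun_prop
end

variable (x : BT → ℝ) (a b : BT)
@[simp] lemma tm_leaf : tm x .leaf = 1 := rfl
@[simp] lemma tm_V (k) : tm x (tV k a) = x (Enc.toBT (k, a)) := rfl
@[simp] lemma tm_A : tm x (tA a b) = tm x a + tm x b := rfl
@[simp] lemma tm_S : tm x (tS a b) = tm x a - tm x b := rfl
@[simp] lemma tm_M : tm x (tM a b) = tm x a * tm x b := rfl
@[simp] lemma tm_Z : tm x tZ = 0 := sub_self _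
@[simp] lemma fm_N : fm x (fN a) ↔ ¬ fm x a := Iff.rfl
@[simp] lemma fm_A : fm x (tA a b) ↔ fm x a ∧ fm x b := Iff.rfl
@[simp] lemma fm_S : fm x (tS a b) ↔ fm x a ∨ fm x b := Iff.rfl
@[simp] lemma fm_E : fm x (fE a b) ↔ tm x a = tm x b := Iff.rfl
@[simp] lemma fm_M : fm x (tM a b) ↔ tm x a < tm x b := Iff.rfl
@[simp] lemma fm_I : fm x (fI a b) ↔ (fm x a ↔ fm x b) := by simp only [fI, fm_S, fm_A, fm_N]; tauto

@[simp] lemma fm_bigA (l : List BT) : fm x (bigA l) ↔ ∀ a ∈ l, fm x a := by
  induction l with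
  | nil => simp [bigA, Enc.toBT, listBT, fm]
  | cons a l ih => rw [List.forall_mem_cons, ← ih]; rfl

lemma tm_bigA (l : List BT) : tm x (bigA l) = (l.map (tm x)).sum + 1 := by
  induction l with
  | nil => simp [bigA, Enc.toBT, listBT]
  | cons a l ih => rw [List.map_cons, List.sum_cons, add_assoc, ← ih]; rfl

lemma tm_bigM (l : List BT) : tm x (bigM l) = (l.map (tm x)).prod := by
  induction l with
  | nil => rfl
  | cons a l ih => rw [List.map_cons, List.prod_cons, ← ih]; rfl

lemma tm_binT (l : List Bool) : tm x (binT l) = bin l := by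
  induction l with
  | nil => exact (tm_M x tZ .leaf).trans (by simp [bin])
  | cons b l ih =>
    refine (tm_A x (bif b then .leaf else tZ) (tM (tA .leaf .leaf) (binT l))).trans ?_
    cases b <;> simp [bin, ih] <;> norm_num

@[simp] lemma tm_polyT (w : ℕ → BT) (p : Poly) : tm x (polyT w p) = p.ev fun i => tm x (w i) := by
  simp only [polyT, tm_S, tm_bigA, tm_leaf, add_sub_cancel_right, List.map_map, Poly.ev]
  refine congrArg _ (List.map_congr_left fun t _ => ?_)
  simp only [Function.comp, tm_M, tm_bigM, List.map_map, intVal]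
  cases t.1.1 <;> simp [tm_binT] <;> exact .inl rfl

end Pool.Agent.Cx
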