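import Mathlib

/-! Generic choices: finitely many polynomial conditions, each satisfiable, hold together. -/

namespace Pool.Agent.Cx

open Polynomial

section
variable {V : Type} [AddCommGroup V] [Module ℝ V]

def PolyF (f : V → ℝ) : Prop := ∀ u v : V, ∃ p : ℝ[X], ∀ s : ℝ, f (u + s • v) = p.eval s

lemma PolyF.const (c : ℝ) : PolyF (fun _ : V => c) := fun _ _ => ⟨C c, by simp⟩

lemma PolyF.lin {f : V → ℝ} (h : ∀ u v (s : ℝ), f (u + s • v) = f u + s * f v) : PolyF f :=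
  fun u v => ⟨C (f u) + C (f v) * X, fun s => by rw [h, mul_comm]; simp⟩

lemma PolyF.add {f g : V → ℝ} (hf : PolyF f) (hg : PolyF g) : PolyF (fun x => f x + g x) :=
  fun u v => let ⟨p, hp⟩ := hf u v; let ⟨q, hq⟩ := hg u v; ⟨p + q, fun s => by simp [hp, hq]⟩

lemma PolyF.sub {f g : V → ℝ} (hf : PolyF f) (hg : PolyF g) : PolyF (fun x => f x - g x) :=
  fun u v => let ⟨p, hp⟩ := hf u v; let ⟨q, hq⟩ := hg u v; ⟨p - q, fun s => by simp [hp, hq]⟩

lemma PolyF.mul {f g : V → ℝ} (hf : PolyF f) (hg : PolyF g) : PolyF (fun x => f x * g x) :=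
  fun u v => let ⟨p, hp⟩ := hf u v; let ⟨q, hq⟩ := hg u v; ⟨p * q, fun s => by simp [hp, hq]⟩

theorem generic {ι : Type} (S : Set ι) (hS : S.Finite) (f : ι → V → ℝ) (hp : ∀ i ∈ S, PolyF (f i))
    (hn : ∀ i ∈ S, ∃ v, f i v ≠ 0) : ∃ v, ∀ i ∈ S, f i v ≠ 0 := by
  induction S, hS using Set.Finite.induction_on with
  | empty => exact ⟨0, by simp⟩
  | @insert a S _ hS ih =>
    obtain ⟨u, hu⟩ := ih (fun i hi => hp i (.inr hi)) fun i hi => hn i (.inr hi)
    obtain ⟨v, hv⟩ := hn a (.inl rfl)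
    have key : ∀ i ∈ insert a S, {s : ℝ | f i (u + s • (v - u)) = 0}.Finite := fun i hi => by
      obtain ⟨p, h⟩ := hp i hi u (v - u)
      have : p ≠ 0 := by
        rintro rfl
        rcases hi with rfl | hi
        · exact hv (by simpa using h 1)
        · exact hu i hi (by simpa using h 0)
      refine p.roots.toFinset.finite_toSet.subset fun s hs => ?_
      simp only [Finset.mem_coe, Multiset.mem_toFinset, mem_roots this, IsRoot.def, ← h]
      exact hs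
    obtain ⟨s, hs⟩ := ((hS.insert a).biUnion key).infinite_compl.nonempty
    exact ⟨u + s • (v - u), fun i hi h => hs (Set.mem_biUnion hi h)⟩

end

abbrev V3 := Fin 3 → ℝ

/-- determinant of three vectors -/
def D3 (a b c : V3) : ℝ :=
  a 0 * (b 1 * c 2 - b 2 * c 1) - a 1 * (b 0 * c 2 - b 2 * c 0) + a 2 * (b 0 * c 1 - b 1 * c 0)

def ip (a b : V3) : ℝ := a 0 * b 0 + a 1 * b 1 + a 2 * b 2

def cr (a b : V3) : V3 := ![a 1 * b 2 - a 2 * b 1, a 2 * b 0 - a 0 * b 2, a 0 * b 1 - a 1 * b 0]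

section
variable {V W : Type} [AddCommGroup V] [Module ℝ V] [AddCommGroup W] [Module ℝ W]

lemma PolyF.app (w : W) (i : Fin 3) : PolyF (fun φ : W →ₗ[ℝ] V3 => φ w i) :=
  .lin fun u v s => by simp

lemma PolyF.D3 {a b c : V → V3} (ha : ∀ i, PolyF (a · i)) (hb : ∀ i, PolyF (b · i))
    (hc : ∀ i, PolyF (c · i)) : PolyF fun x => D3 (a x) (b x) (c x) :=
  (((ha 0).mul (((hb 1).mul (hc 2)).sub ((hb 2).mul (hc 1)))).sub
    ((ha 1).mul (((hb 0).mul (hc 2)).sub ((hb 2).mul (hc 0))))).add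
    ((ha 2).mul (((hb 0).mul (hc 1)).sub ((hb 1).mul (hc 0))))

lemma PolyF.ip {a b : V → V3} (ha : ∀ i, PolyF (a · i)) (hb : ∀ i, PolyF (b · i)) :
    PolyF fun x => ip (a x) (b x) :=
  (((ha 0).mul (hb 0)).add ((ha 1).mul (hb 1))).add ((ha 2).mul (hb 2))

lemma PolyF.cr {a b : V → V3} (ha : ∀ i, PolyF (a · i)) (hb : ∀ i, PolyF (b · i)) (i : Fin 3) :
    PolyF fun x => cr (a x) (b x) i := by
  fin_cases i
  · exact ((ha 1).mul (hb 2)).sub ((ha 2).mul (hb 1))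
  · exact ((ha 2).mul (hb 0)).sub ((ha 0).mul (hb 2))
  · exact ((ha 0).mul (hb 1)).sub ((ha 1).mul (hb 0))

lemma ex_frame {a b c : W} (h : ∀ r s t : ℝ, r • a + s • b + t • c = 0 → r = 0 ∧ s = 0 ∧ t = 0)
    (x y z : V3) : ∃ φ : W →ₗ[ℝ] V3, φ a = x ∧ φ b = y ∧ φ c = z := by
  let f : V3 →ₗ[ℝ] W := (LinearMap.proj 0).smulRight a + (LinearMap.proj 1).smulRight b +
    (LinearMap.proj 2).smulRight c
  obtain ⟨g, hg⟩ := f.exists_leftInverse_of_injective (LinearMap.ker_eq_bot'.2 fun m hm => by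
    obtain ⟨h0, h1, h2⟩ := h (m 0) (m 1) (m 2) hm
    ext i; fin_cases i <;> assumption)
  let k : V3 →ₗ[ℝ] V3 := (LinearMap.proj 0).smulRight x + (LinearMap.proj 1).smulRight y +
    (LinearMap.proj 2).smulRight z
  have e : ∀ m, g (f m) = m := fun m => LinearMap.congr_fun hg m
  have e0 := e ![1, 0, 0]
  have e1 := e ![0, 1, 0]
  have e2 := e ![0, 0, 1]
  simp [f] at e0 e1 e2
  exact ⟨k ∘ₗ g, by simp [e0, k], by simp [e1, k], by simp [e2, k]⟩

end

lemma indep_of_D3 {a b c : V3} (h : D3 a b c ≠ 0) (r s t : ℝ) (e : r • a + s • b + t • c = 0) :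
    r = 0 ∧ s = 0 ∧ t = 0 := by
  have e0 := congrFun e 0
  have e1 := congrFun e 1
  have e2 := congrFun e 2
  simp only [Pi.add_apply, Pi.smul_apply, smul_eq_mul, Pi.zero_apply] at e0 e1 e2
  refine ⟨(mul_eq_zero.1 ?_).resolve_right h, (mul_eq_zero.1 ?_).resolve_right h,
    (mul_eq_zero.1 ?_).resolve_right h⟩ <;> unfold D3
  · linear_combination (b 1 * c 2 - b 2 * c 1) * e0 - (b 0 * c 2 - b 2 * c 0) * e1 +
      (b 0 * c 1 - b 1 * c 0) * e2
  · linear_combination -(a 1 * c 2 - a 2 * c 1) * e0 + (a 0 * c 2 - a 2 * c 0) * e1 -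
      (a 0 * c 1 - a 1 * c 0) * e2
  · linear_combination (a 1 * b 2 - a 2 * b 1) * e0 - (a 0 * b 2 - a 2 * b 0) * e1 +
      (a 0 * b 1 - a 1 * b 0) * e2

end Pool.Agent.Cx
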