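import Pool.Agent.Lib.helper11.ETRDist
import Pool.Agent.Lib.helper11.ETRGen

/-! Von Staudt configurations with at most six points on a line: definitions and soundness. -/

namespace Pool.Agent.Cx

def vr (e : Op) (t : ℕ) : ℕ := if t = 0 then e.2.1 else if t = 1 then e.2.2.1 else e.2.2.2

def sy (k : ℕ) (e : Op) (s : ℕ) : ℕ :=
  if s < 12 then 16 * k + s else if s = 12 then 15 else 16 * vr e ((s - 13) / 3) + (s - 13) % 3

def pat (b : Bool) : List (List ℕ) :=
  [[12, 0, 1, 2, 3, 4], [12, 5, 8], [bif b then 0 else 12, 6, 7], [bif b then 1 else 0, 5, 6],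
    [bif b then 3 else 2, 5, 7], [bif b then 2 else 3, 6, 8], [4, 7, 8], [9, 13, 0], [9, 14, 1],
    [9, 15, 2], [10, 16, 0], [10, 17, 1], [10, 18, 3], [11, 19, 0], [11, 20, 1], [11, 21, 4]]

def mst (v : ℕ) : List ℕ := [15, 16 * v, 16 * v + 1, 16 * v + 2]

def blks (E : List Op) : List (List ℕ) := (List.range (size E)).map mst ++
  E.zipIdx.flatMap fun p => (pat p.1.1).map (List.map (sy (size E + p.2) p.1))

def Blk (B : List (List ℕ)) (a b c : ℕ) : Prop := ∃ β ∈ B, a ∈ β ∧ b ∈ β ∧ c ∈ β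

def SRv (N : ℕ) (B : List (List ℕ)) (p : ℕ → V3) : Prop :=
  ∀ a < N, ∀ b < N, ∀ c < N, a ≠ b → a ≠ c → b ≠ c → (D3 (p a) (p b) (p c) = 0 ↔ Blk B a b c)

def Lin (B : List (List ℕ)) : Prop :=
  ∀ β ∈ B, ∀ γ ∈ B, ∀ a ∈ β, ∀ b ∈ β, a ≠ b → a ∈ γ → b ∈ γ → β = γ

structure Su (n M : ℕ) (op : ℕ → Op) (B : List (List ℕ)) : Prop where
  pos : 0 < n
  le : n ≤ M
  lt : ∀ k, n ≤ k → k < M → ∀ t, vr (op k) t < n
  inj : ∀ k, n ≤ k → k < M → ∀ t < 3, ∀ t' < 3, vr (op k) t = vr (op k) t' → t = t'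
  mem : ∀ β, β ∈ B ↔ (∃ v < n, β = mst v) ∨
    ∃ k, n ≤ k ∧ k < M ∧ ∃ γ ∈ pat (op k).1, β = γ.map (sy k (op k))

def opAt (E : List Op) (k : ℕ) : Op := E.getD (k - size E) (true, 0, 0, 0)

lemma opAt_mem {E : List Op} {k : ℕ} (h : size E ≤ k) (h' : k < size E + E.length) :
    (opAt E k, k - size E) ∈ E.zipIdx :=
  List.mem_zipIdx_iff_getElem?.2 (by
    simp [opAt, List.getD_eq_getElem?_getD, show k - size E < E.length by omega])

lemma opAt_of {E : List Op} {p : Op × ℕ} (h : p ∈ E.zipIdx) :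
    p.2 < E.length ∧ opAt E (size E + p.2) = p.1 := by
  have := List.mem_zipIdx_iff_getElem?.1 h
  exact ⟨(List.getElem?_eq_some_iff.1 this).1, by simp [opAt, List.getD_eq_getElem?_getD, this]⟩

lemma su_blks {E : List Op} (h : Dist E) :
    Su (size E) (size E + E.length) (opAt E) (blks E) where
  pos := size_pos _
  le := by omega
  lt k h1 h2 t := by
    have := op_lt (List.fst_mem_of_mem_zipIdx (opAt_mem h1 h2))
    unfold vr; split_ifs <;> simp only at this <;> omega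
  inj k h1 h2 t ht t' ht' := by
    have := h _ (List.fst_mem_of_mem_zipIdx (opAt_mem h1 h2))
    unfold vr; split_ifs <;> simp only at this <;> omega
  mem β := by
    simp only [blks, List.mem_append, List.mem_map, List.mem_range, List.mem_flatMap]
    refine or_congr (by simp only [eq_comm]) ⟨?_, ?_⟩
    · rintro ⟨p, hp, γ, hγ, rfl⟩
      obtain ⟨h1, h2⟩ := opAt_of hp
      exact ⟨size E + p.2, by omega, by omega, γ, h2 ▸ hγ, by rw [h2]⟩
    · rintro ⟨k, h1, h2, γ, hγ, rfl⟩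
      exact ⟨_, opAt_mem h1 h2, γ, hγ, by simp [show size E + (k - size E) = k by omega]⟩

lemma pat_lin : ∀ b, ∀ γ ∈ pat b, ∀ γ' ∈ pat b, ∀ s ∈ γ, ∀ s' ∈ γ, s ≠ s' → s ∈ γ' → s' ∈ γ' →
    γ = γ' := by decide +kernel

lemma pat_lt : ∀ b, ∀ γ ∈ pat b, γ.length ≤ 6 ∧ ∀ s ∈ γ, s < 22 ∧ ∀ s' ∈ γ, s ≠ s' →
    s < 12 ∨ s' < 12 := by decide +kernel

section
variable {n M : ℕ} {op : ℕ → Op} {B : List (List ℕ)} (H : Su n M op B)
include H

lemma Su.sy_inj {k s s' : ℕ} (h1 : n ≤ k) (h2 : k < M) (hs : s < 22) (hs' : s' < 22)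
    (e : sy k (op k) s = sy k (op k) s') : s = s' := by
  have := H.pos
  have a := H.lt k h1 h2 ((s - 13) / 3)
  have b := H.lt k h1 h2 ((s' - 13) / 3)
  have c := H.inj k h1 h2 ((s - 13) / 3) (by omega) ((s' - 13) / 3) (by omega)
  unfold sy at e
  split_ifs at e <;> omega

lemma Su.sy_cases {k : ℕ} (h1 : n ≤ k) (h2 : k < M) (s : ℕ) :
    (s < 12 ∧ sy k (op k) s = 16 * k + s) ∨ (12 ≤ s ∧ sy k (op k) s < 16 * n ∧
      (sy k (op k) s = 15 ∨ sy k (op k) s % 16 < 3)) := by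
  have := H.pos
  have a := H.lt k h1 h2 ((s - 13) / 3)
  unfold sy
  split_ifs <;> omega

lemma Su.el {β : List ℕ} (h : β ∈ B) : β.length ≤ 6 ∧
    ∀ a ∈ β, a < 16 * M ∧ (a = 15 ∨ a % 16 < 12) := by
  have := H.pos
  have := H.le
  rcases (H.mem β).1 h with ⟨v, hv, rfl⟩ | ⟨k, h1, h2, γ, hγ, rfl⟩
  · simp only [mst, List.mem_cons, List.not_mem_nil, or_false]
    exact ⟨by simp, fun a ha => by omega⟩
  · refine ⟨by simpa using (pat_lt _ γ hγ).1, fun a ha => ?_⟩
    obtain ⟨s, -, rfl⟩ := List.mem_map.1 ha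
    have := H.sy_cases h1 h2 s
    omega

lemma Su.lin : Lin B := by
  have := H.pos
  have mg : ∀ v < n, ∀ k, n ≤ k → k < M → ∀ γ ∈ pat (op k).1, ∀ a ∈ mst v, ∀ b ∈ mst v, a ≠ b →
      a ∈ γ.map (sy k (op k)) → b ∈ γ.map (sy k (op k)) → False := by
    intro v hv k h1 h2 γ hγ a ha b hb hab ha' hb'
    obtain ⟨s, hs, rfl⟩ := List.mem_map.1 ha'
    obtain ⟨s', hs', rfl⟩ := List.mem_map.1 hb'
    have := ((pat_lt _ γ hγ).2 s hs).2 s' hs' fun e => hab (e ▸ rfl)
    have := H.sy_cases h1 h2 s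
    have := H.sy_cases h1 h2 s'
    simp only [mst, List.mem_cons, List.not_mem_nil, or_false] at ha hb
    omega
  intro β0 hβ0 γ0 hγ0 a ha b hb hab ha' hb'
  rcases (H.mem β0).1 hβ0 with ⟨v, hv, rfl⟩ | ⟨k, h1, h2, β, hβ, rfl⟩ <;>
    rcases (H.mem γ0).1 hγ0 with ⟨v', hv', rfl⟩ | ⟨k', h1', h2', γ, hγ, rfl⟩
  · simp only [mst, List.mem_cons, List.not_mem_nil, or_false] at ha hb ha' hb'
    rw [show v = v' by omega]
  · exact (mg v hv k' h1' h2' γ hγ a ha b hb hab ha' hb').elim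
  · exact (mg v' hv' k h1 h2 β hβ a ha' b hb' hab ha hb).elim
  · obtain ⟨s, hs, rfl⟩ := List.mem_map.1 ha
    obtain ⟨s', hs', rfl⟩ := List.mem_map.1 hb
    obtain ⟨t, ht, e⟩ := List.mem_map.1 ha'
    obtain ⟨t', ht', e'⟩ := List.mem_map.1 hb'
    have hss : s ≠ s' := fun e => hab (e ▸ rfl)
    have := ((pat_lt _ β hβ).2 s hs).2 s' hs' hss
    have := H.sy_cases h1 h2 s
    have := H.sy_cases h1 h2 s'
    have := H.sy_cases h1' h2' t
    have := H.sy_cases h1' h2' t'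
    obtain rfl : k = k' := by omega
    obtain rfl := H.sy_inj h1 h2 ((pat_lt _ γ hγ).2 t ht).1 ((pat_lt _ β hβ).2 s hs).1 e
    obtain rfl := H.sy_inj h1 h2 ((pat_lt _ γ hγ).2 t' ht').1 ((pat_lt _ β hβ).2 s' hs').1 e'
    rw [pat_lin _ β hβ γ hγ t hs t' hs' hss ht ht']

end

/-! soundness -/

def aff (X Y : ℕ → ℝ) (a b c : ℕ) : ℝ := (X a - X c) * (Y b - Y c) - (X b - X c) * (Y a - Y c)

lemma D3_mul (r s t a b c : V3) : D3 ![ip r a, ip s a, ip t a] ![ip r b, ip s b, ip t b]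
    ![ip r c, ip s c, ip t c] = D3 r s t * D3 a b c := by
  simp only [D3, ip, Matrix.cons_val]; ring

lemma chart {N : ℕ} {B : List (List ℕ)} {p : ℕ → V3} (h : SRv N B p) (hN : 15 < N)
    (h14 : ∀ β ∈ B, 14 ∉ β) : ∃ X Y : ℕ → ℝ, ∀ a < N, ∀ b < N, a ≠ 14 → a ≠ 15 → b ≠ 14 → b ≠ 15 →
      a ≠ b → (Blk B 15 a b ↔ Y a = Y b) ∧ ∀ c < N, c ≠ 14 → c ≠ 15 → a ≠ c → b ≠ c →
        (Blk B a b c ↔ aff X Y a b c = 0) := by
  have z : ∀ a < N, a ≠ 14 → a ≠ 15 → ip (cr (p 15) (p 14)) (p a) ≠ 0 := fun a ha h1 h2 e => by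
    obtain ⟨β, hβ, -, h, -⟩ := (h 15 hN 14 (by omega) a ha (by omega) h2.symm h1.symm).1
      (by rw [← e]; simp only [D3, ip, cr, Matrix.cons_val]; ring)
    exact h14 β hβ h
  let q : ℕ → V3 := fun a => ![ip (cr (p 14) (p 13)) (p a), ip (cr (p 13) (p 15)) (p a),
    ip (cr (p 15) (p 14)) (p a)]
  set D := ip (cr (p 15) (p 14)) (p 13) with hD
  have D0 : D ≠ 0 := z 13 (by omega) (by omega) (by omega)
  have hq : ∀ a b c, D3 (q a) (q b) (q c) = D ^ 2 * D3 (p a) (p b) (p c) := fun a b c => by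
    rw [D3_mul]; congr 1
    simp only [hD, D3, ip, cr, Matrix.cons_val]; ring
  have q0 : q 15 0 = D := by simp only [q, hD, ip, cr, Matrix.cons_val]; ring
  have q1 : q 15 1 = 0 := by simp only [q, ip, cr, Matrix.cons_val]; ring
  have q2 : q 15 2 = 0 := by simp only [q, ip, cr, Matrix.cons_val]; ring
  have hq' : ∀ a b c, D3 (p a) (p b) (p c) = 0 ↔ D3 (q a) (q b) (q c) = 0 := by simp [hq, D0]
  refine ⟨fun a => q a 0 / q a 2, fun a => q a 1 / q a 2, fun a ha b hb a1 a2 b1 b2 hab => ⟨?_,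
    fun c hc c1 c2 hac hbc => ?_⟩⟩
  · have za : q a 2 ≠ 0 := z a ha a1 a2
    have zb : q b 2 ≠ 0 := z b hb b1 b2
    rw [← h 15 hN a ha b hb a2.symm b2.symm hab, hq', div_eq_div_iff za zb]
    simp [D3, q0, q1, q2, D0, sub_eq_zero, mul_comm]
  · have za : q a 2 ≠ 0 := z a ha a1 a2
    have zb : q b 2 ≠ 0 := z b hb b1 b2
    have zc : q c 2 ≠ 0 := z c hc c1 c2
    rw [← h a ha b hb c hc hab hac hbc, hq']
    have : D3 (q a) (q b) (q c) = q a 2 * q b 2 * q c 2 *
        aff (fun a => q a 0 / q a 2) (fun a => q a 1 / q a 2) a b c := by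
      simp only [aff, D3]; field_simp; ring
    simp [this, za, zb, zc]

lemma transfer {c1 c2 h h' o u v o' u' v' : ℝ} (e1 : (c1 - o') * (h - h') - (o - o') * (c2 - h') = 0)
    (e2 : (c1 - u') * (h - h') - (u - u') * (c2 - h') = 0)
    (e3 : (c1 - v') * (h - h') - (v - v') * (c2 - h') = 0) (n1 : c2 ≠ h') (n2 : u ≠ o)
    (n3 : u' ≠ o') : (v - o) / (u - o) = (v' - o') / (u' - o') := by
  rw [div_eq_div_iff (sub_ne_zero.2 n2) (sub_ne_zero.2 n3)]
  refine mul_left_cancel₀ (sub_ne_zero.2 n1) ?_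
  linear_combination (u' - v') * e1 + (v' - o') * e2 - (u' - o') * e3

lemma mul_aux {O U X Y Z h d a b a1 b1 d1 d2 : ℝ}
    (e0 : (a1 - O) * (b - h) - (b1 - O) * (a - h) = 0)
    (e1 : (d1 - U) * (a - h) - (a1 - U) * (d - h) = 0)
    (e2 : (d1 - Y) * (b - h) - (b1 - Y) * (d - h) = 0)
    (e3 : (a1 - X) * (d - h) - (d2 - X) * (a - h) = 0)
    (e4 : (b1 - Z) * (d - h) - (d2 - Z) * (b - h) = 0) (n1 : a ≠ d) (n2 : b ≠ d) (u0 : U - O ≠ 0) :
    (X - O) / (U - O) * ((Y - O) / (U - O)) = (Z - O) / (U - O) := by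
  rw [div_mul_div_comm, div_eq_div_iff (mul_ne_zero u0 u0) u0]
  refine mul_left_cancel₀ (mul_ne_zero (sub_ne_zero.2 n1) (sub_ne_zero.2 n2)) ?_
  linear_combination (U - O) * ((d - h) * (d2 - d1) * e0 +
    ((a1 - O) * (d - h) - (d2 - O) * (a - h)) * e2 - (Y - O) * (d - b) * e3 -
    ((b1 - O) * (d - h) - (d2 - O) * (b - h)) * e1 + (U - O) * (d - a) * e4)

theorem Su.sound {n M : ℕ} {op : ℕ → Op} {B : List (List ℕ)} (H : Su n M op B) {p : ℕ → V3}
    (h : SRv (16 * M) B p) : ∃ x : ℕ → ℝ, ∀ k, n ≤ k → k < M → (op k).ok x ∧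
      (∀ t < 3, Gd (x (vr (op k) t))) ∧
      ∀ t < 3, ∀ t' < 3, t ≠ t' → x (vr (op k) t) ≠ x (vr (op k) t') := by
  have := H.pos
  have := H.le
  obtain ⟨X, Y, hc⟩ := chart h (by omega) fun β hβ h => by have := (H.el hβ).2 14 h; omega
  -- two points on a line through the point 15 have different first coordinates
  have dX : ∀ a < 16 * M, ∀ b < 16 * M, a % 16 < 12 → b % 16 < 12 → a ≠ b → Y a = Y b →
      X a ≠ X b := by
    intro a ha b hb a1 b1 hab e e'
    obtain ⟨β, hβ, -, -, h⟩ := ((hc a ha b hb (by omega) (by omega) (by omega) (by omega) hab).2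
      13 (by omega) (by omega) (by omega) (by omega) (by omega)).2 (by simp [aff, e, e'])
    have := (H.el hβ).2 13 h
    omega
  have mY : ∀ v < n, Y (16 * v + 1) = Y (16 * v) ∧ Y (16 * v + 2) = Y (16 * v) := fun v hv =>
    ⟨(hc _ (by omega) _ (by omega) (by omega) (by omega) (by omega) (by omega) (by omega)).1.1
      ⟨_, (H.mem _).2 (.inl ⟨v, hv, rfl⟩), by simp [mst]⟩,
    (hc _ (by omega) _ (by omega) (by omega) (by omega) (by omega) (by omega) (by omega)).1.1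
      ⟨_, (H.mem _).2 (.inl ⟨v, hv, rfl⟩), by simp [mst]⟩⟩
  refine ⟨fun v => (X (16 * v + 2) - X (16 * v)) / (X (16 * v + 1) - X (16 * v)),
    fun k h1 h2 => ?_⟩
  have sy0 : ∀ s, s ≠ 12 → sy k (op k) s < 16 * M ∧ sy k (op k) s ≠ 14 ∧ sy k (op k) s ≠ 15 :=
    fun s hs => by
      have a := H.lt k h1 h2 ((s - 13) / 3)
      unfold sy
      split_ifs <;> omega
  have bl : ∀ s < 22, ∀ s' < 22, ∀ s'' < 22, s < 12 → (Blk B (sy k (op k) s'') (sy k (op k) s)
      (sy k (op k) s') ↔ ∃ γ ∈ pat (op k).1, s ∈ γ ∧ s' ∈ γ ∧ s'' ∈ γ) := by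
    intro s hs s' hs' s'' hs'' h12
    constructor
    · rintro ⟨β, hβ, a, b, c⟩
      have := H.sy_cases h1 h2 s
      rcases (H.mem β).1 hβ with ⟨v, hv, rfl⟩ | ⟨k', h1', h2', γ, hγ, rfl⟩
      · simp only [mst, List.mem_cons, List.not_mem_nil, or_false] at b
        omega
      · obtain ⟨t, ht, e⟩ := List.mem_map.1 b
        obtain ⟨t', ht', e'⟩ := List.mem_map.1 c
        obtain ⟨t'', ht'', e''⟩ := List.mem_map.1 a
        have := H.sy_cases h1' h2' t
        obtain rfl : k = k' := by omega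
        obtain rfl := H.sy_inj h1 h2 ((pat_lt _ γ hγ).2 t ht).1 hs e
        obtain rfl := H.sy_inj h1 h2 ((pat_lt _ γ hγ).2 t' ht').1 hs' e'
        obtain rfl := H.sy_inj h1 h2 ((pat_lt _ γ hγ).2 t'' ht'').1 hs'' e''
        exact ⟨γ, hγ, ht, ht', ht''⟩
    · rintro ⟨γ, hγ, a, b, c⟩
      exact ⟨_, (H.mem _).2 (.inr ⟨k, h1, h2, γ, hγ, rfl⟩), List.mem_map_of_mem c,
        List.mem_map_of_mem a, List.mem_map_of_mem b⟩
  have hY : ∀ s < 12, ∀ s' < 12, s ≠ s' → ((∃ γ ∈ pat (op k).1, s ∈ γ ∧ s' ∈ γ ∧ 12 ∈ γ) ↔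
      Y (16 * k + s) = Y (16 * k + s')) := fun s hs s' hs' e => by
    rw [← bl s (by omega) s' (by omega) 12 (by omega) hs]
    simp only [sy, hs, hs', if_true, lt_irrefl, if_false]
    exact (hc _ (by omega) _ (by omega) (by omega) (by omega) (by omega) (by omega) (by omega)).1
  have hA : ∀ s < 22, ∀ s' < 22, ∀ s'' < 12, s ≠ 12 → s' ≠ 12 → s ≠ s' → s ≠ s'' → s' ≠ s'' →
      (∃ γ ∈ pat (op k).1, s'' ∈ γ ∧ s' ∈ γ ∧ s ∈ γ) →
      aff X Y (sy k (op k) s) (sy k (op k) s') (sy k (op k) s'') = 0 := by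
    intro s hs s' hs' s'' hs'' a b c d e f
    obtain ⟨β, hβ, g1, g2, g3⟩ := (bl s'' (by omega) s' hs' s hs hs'').2 f
    exact ((hc _ (sy0 s a).1 _ (sy0 s' b).1 (sy0 s a).2.1 (sy0 s a).2.2 (sy0 s' b).2.1 (sy0 s' b).2.2
      fun e => c (H.sy_inj h1 h2 hs hs' e)).2 _ (sy0 s'' (by omega)).1 (sy0 s'' (by omega)).2.1
      (sy0 s'' (by omega)).2.2 (fun e => d (H.sy_inj h1 h2 hs (by omega) e))
      fun e' => e (H.sy_inj h1 h2 hs' (by omega) e')).1 ⟨β, hβ, g1, g3, g2⟩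
  have lY : ∀ s < 5, Y (16 * k + s) = Y (16 * k) := fun s hs => by
    rcases s with _ | s
    · rfl
    · exact (hY _ (by omega) 0 (by omega) (by omega)).1 ⟨_, List.mem_cons_self, by simp; omega⟩
  have lX : ∀ s < 5, ∀ s' < 5, s ≠ s' → X (16 * k + s) ≠ X (16 * k + s') := fun s hs s' hs' e =>
    dX _ (by omega) _ (by omega) (by omega) (by omega) (by omega) ((lY s hs).trans (lY s' hs').symm)
  have u0 : X (16 * k + 1) - X (16 * k) ≠ 0 := sub_ne_zero.2 (lX 1 (by omega) 0 (by omega) (by omega))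
  have tr : ∀ t < 3, (X (16 * vr (op k) t + 2) - X (16 * vr (op k) t)) /
      (X (16 * vr (op k) t + 1) - X (16 * vr (op k) t)) =
      (X (16 * k + (2 + t)) - X (16 * k)) / (X (16 * k + 1) - X (16 * k)) := fun t ht => by
    have hv := H.lt k h1 h2 t
    have e1 := hA (9 + t) (by omega) (13 + 3 * t) (by omega) 0 (by omega) (by omega) (by omega)
      (by omega) (by omega) (by omega) (by cases (op k).1 <;> interval_cases t <;> decide)
    have e2 := hA (9 + t) (by omega) (13 + 3 * t + 1) (by omega) 1 (by omega) (by omega) (by omega)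
      (by omega) (by omega) (by omega) (by cases (op k).1 <;> interval_cases t <;> decide)
    have e3 := hA (9 + t) (by omega) (13 + 3 * t + 2) (by omega) (2 + t) (by omega) (by omega)
      (by omega) (by omega) (by omega) (by omega) (by cases (op k).1 <;> interval_cases t <;> decide)
    have e4 := (hY (9 + t) (by omega) 0 (by omega) (by omega)).2.mt
      (by cases (op k).1 <;> interval_cases t <;> decide)
    have s1 : ∀ j < 3, sy k (op k) (13 + 3 * t + j) = 16 * vr (op k) t + j := fun j hj => by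
      simp only [sy]
      rw [if_neg (by omega), if_neg (by omega), show (13 + 3 * t + j - 13) / 3 = t by omega,
        show (13 + 3 * t + j - 13) % 3 = j by omega]
    have s0 := s1 0 (by omega)
    have s2 : ∀ j < 12, sy k (op k) j = 16 * k + j := fun j hj => if_pos hj
    simp only [add_zero] at s0 e4
    simp only [aff, s0, s1 1 (by omega), s1 2 (by omega), s2 (9 + t) (by omega), s2 0 (by omega),
      s2 1 (by omega), s2 (2 + t) (by omega), add_zero, (mY _ hv).1, (mY _ hv).2, lY 1 (by omega),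
      lY (2 + t) (by omega)] at e1 e2 e3
    exact transfer e1 e2 e3 e4 (dX _ (by omega) _ (by omega) (by omega) (by omega) (by omega)
      (mY _ hv).1) (sub_ne_zero.1 u0)
  refine ⟨?_, fun t ht => ?_, fun t ht t' ht' e => ?_⟩
  · have t0 := tr 0 (by omega)
    have t1 := tr 1 (by omega)
    have t2 := tr 2 (by omega)
    simp only [vr, if_true, one_ne_zero, if_false, OfNat.ofNat_ne_zero, OfNat.ofNat_ne_one,
      Nat.reduceAdd] at t0 t1 t2
    simp only [Op.ok, t0, t1, t2]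
    have d := (hY 8 (by omega) 5 (by omega) (by omega)).1 (by cases (op k).1 <;> decide)
    have n1 := (hY 6 (by omega) 5 (by omega) (by omega)).2.mt (by cases (op k).1 <;> decide)
    have n2 := (hY 7 (by omega) 5 (by omega) (by omega)).2.mt (by cases (op k).1 <;> decide)
    have e4 := hA 7 (by omega) 8 (by omega) 4 (by omega) (by omega) (by omega)
      (by omega) (by omega) (by omega) (by cases (op k).1 <;> decide)
    have hA' := fun s (hs : s < 4) a (ha : 5 ≤ a ∧ a < 9) b (hb : 5 ≤ b ∧ b < 9) (e : a ≠ b) =>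
      hA a (by omega) b (by omega) s (by omega) (by omega) (by omega) e (by omega) (by omega)
    have l1 := lY 1 (by omega)
    have l2 := lY 2 (by omega)
    have l3 := lY 3 (by omega)
    have l4 := lY 4 (by omega)
    cases hb : (op k).1 <;> rw [hb] at hA' hY
    · have e0 := (hY 7 (by omega) 6 (by omega) (by omega)).1 (by decide)
      have e1 := hA' 0 (by omega) 5 (by omega) 6 (by omega) (by omega) (by decide)
      have e2 := hA' 2 (by omega) 5 (by omega) 7 (by omega) (by omega) (by decide)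
      have e3 := hA' 3 (by omega) 6 (by omega) 8 (by omega) (by omega) (by decide)
      simp only [aff, sy, Nat.reduceLT, if_true, add_zero, l1, l2, l3, l4, d, e0] at e1 e2 e3 e4
      simp only [Bool.false_eq_true, if_false]
      field_simp
      refine mul_left_cancel₀ (sub_ne_zero.2 n1) ?_
      linear_combination e1 - e2 + e3 - e4
    · have e0 := hA' 0 (by omega) 6 (by omega) 7 (by omega) (by omega) (by decide)
      have e1 := hA' 1 (by omega) 5 (by omega) 6 (by omega) (by omega) (by decide)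
      have e2 := hA' 3 (by omega) 5 (by omega) 7 (by omega) (by omega) (by decide)
      have e3 := hA' 2 (by omega) 6 (by omega) 8 (by omega) (by omega) (by decide)
      simp only [aff, sy, Nat.reduceLT, if_true, add_zero, l1, l2, l3, l4, d] at e0 e1 e2 e3 e4
      exact mul_aux e0 e1 e2 e3 e4 n1 n2 u0
  · simp only [Gd, tr t ht]
    exact ⟨div_ne_zero (sub_ne_zero.2 (lX _ (by omega) 0 (by omega) (by omega))) u0,
      fun e => lX _ (by omega) 1 (by omega) (by omega) (sub_left_injective ((div_eq_one_iff_eq u0).1 e))⟩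
  · simp only [tr t ht, tr t' ht']
    exact fun e' => lX _ (by omega) _ (by omega) (by omega)
      (sub_left_injective ((div_left_inj' u0).1 e'))

end Pool.Agent.Cx
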