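import Pool.Agent.Lib.helper11.ETRGeoA

/-! Von Staudt configurations: completeness through a model in high dimension. -/

namespace Pool.Agent.Cx

noncomputable def dl (a : ℕ) : ℕ → ℝ := fun i => if i = a then 1 else 0

def au (b : Bool) (x y : ℝ) (j : ℕ) : ℝ × ℝ :=
  if j = 5 then (0, 0) else if j = 6 then (bif b then (y, y) else (1, 0))
  else if j = 7 then (bif b then (1, y) else (1, x)) else (bif b then (0, y - x * y) else (0, -y))

section
variable (n : ℕ) (op : ℕ → Op) (x : ℕ → ℝ)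

def lv (k j : ℕ) : ℝ :=
  if j = 0 then 0 else if j = 1 then 1 else if k < n then x k else x (vr (op k) (j - 2))

def KL (k j : ℕ) : Prop := (k < n ∧ j < 3) ∨ (n ≤ k ∧ j < 5)
def KA (k j : ℕ) : Prop := n ≤ k ∧ 5 ≤ j ∧ j < 9
def KC (k j : ℕ) : Prop := n ≤ k ∧ 9 ≤ j ∧ j < 12
def KP (k j : ℕ) : Prop := (k < n ∧ 3 ≤ j) ∨ (n ≤ k ∧ 12 ≤ j)

open Classical in
noncomputable def W2 (k j : ℕ) : ℕ → ℝ :=
  if KL n k j then dl (16 * k) + lv n op x k j • dl 15
  else if KA n k j then dl (16 * k + 5) +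
    (au (op k).1 (x (vr (op k) 0)) (x (vr (op k) 1)) j).1 • dl (16 * k) +
    (au (op k).1 (x (vr (op k) 0)) (x (vr (op k) 1)) j).2 • dl 15
  else if KC n k j then dl (16 * vr (op k) (j - 9)) - dl (16 * k)
  else dl (16 * k + j)

noncomputable def W (m : ℕ) : ℕ → ℝ := W2 n op x (m / 16) (m % 16)

def Sp (m i : ℕ) : Prop :=
  (KL n (m / 16) (m % 16) ∧ i = 16 * (m / 16)) ∨
  (KA n (m / 16) (m % 16) ∧ (i = 16 * (m / 16) + 5 ∨ i = 16 * (m / 16))) ∨
  (KC n (m / 16) (m % 16) ∧ (i = 16 * vr (op (m / 16)) (m % 16 - 9) ∨ i = 16 * (m / 16))) ∨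
  (KP n (m / 16) (m % 16) ∧ i = m)

def Tp (m i : ℕ) : Prop :=
  (KL n (m / 16) (m % 16) ∧ i = 16 * (m / 16)) ∨
  (KA n (m / 16) (m % 16) ∧ i = 16 * (m / 16) + 5) ∨
  (KC n (m / 16) (m % 16) ∧ (i = 16 * vr (op (m / 16)) (m % 16 - 9) ∨ i = 16 * (m / 16))) ∨
  (KP n (m / 16) (m % 16) ∧ i = m)

variable {n op x}

lemma W_mk (k : ℕ) {j : ℕ} (h : j < 16) : W n op x (16 * k + j) = W2 n op x k j := by
  rw [W, show (16 * k + j) / 16 = k by omega, show (16 * k + j) % 16 = j by omega]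

lemma W2L {k j : ℕ} (h : KL n k j) : W2 n op x k j = dl (16 * k) + lv n op x k j • dl 15 := if_pos h

lemma W2A {k j : ℕ} (h : KA n k j) : W2 n op x k j = dl (16 * k + 5) +
    (au (op k).1 (x (vr (op k) 0)) (x (vr (op k) 1)) j).1 • dl (16 * k) +
    (au (op k).1 (x (vr (op k) 0)) (x (vr (op k) 1)) j).2 • dl 15 := by
  rw [W2, if_neg (by unfold KL KA at *; omega), if_pos h]

lemma W2C {k j : ℕ} (h : KC n k j) : W2 n op x k j = dl (16 * vr (op k) (j - 9)) - dl (16 * k) := by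
  rw [W2, if_neg (by unfold KL KC at *; omega), if_neg (by unfold KA KC at *; omega), if_pos h]

lemma W2P {k j : ℕ} (h : KP n k j) : W2 n op x k j = dl (16 * k + j) := by
  rw [W2, if_neg (by unfold KL KP at *; omega), if_neg (by unfold KA KP at *; omega),
    if_neg (by unfold KC KP at *; omega)]

lemma W15 (h : 0 < n) : W n op x 15 = dl 15 := W2P (k := 0) (j := 15) (.inl ⟨h, by omega⟩)

lemma kinds (n k j : ℕ) : KL n k j ∨ KA n k j ∨ KC n k j ∨ KP n k j := by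
  unfold KL KA KC KP; omega

lemma W_sp {m i : ℕ} (hi : i ≠ 15) (h : W n op x m i ≠ 0) : Sp n op m i := by
  by_contra hh
  simp only [Sp, not_or, not_and] at hh
  apply h
  rcases kinds n (m / 16) (m % 16) with k | k | k | k
  · simp [W, W2L k, dl, hi, hh.1 k]
  · simp [W, W2A k, dl, hi, hh.2.1 k]
  · simp [W, W2C k, dl, hh.2.2.1 k]
  · simp [W, W2P k, dl, hh.2.2.2 k, Nat.div_add_mod]

lemma SpL {m i : ℕ} (h : KL n (m / 16) (m % 16)) : Sp n op m i ↔ i = 16 * (m / 16) := by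
  unfold Sp; unfold KL KA KC KP at *; omega
lemma SpA {m i : ℕ} (h : KA n (m / 16) (m % 16)) :
    Sp n op m i ↔ i = 16 * (m / 16) + 5 ∨ i = 16 * (m / 16) := by
  unfold Sp; unfold KL KA KC KP at *; omega
lemma SpC {m i : ℕ} (h : KC n (m / 16) (m % 16)) :
    Sp n op m i ↔ i = 16 * vr (op (m / 16)) (m % 16 - 9) ∨ i = 16 * (m / 16) := by
  unfold Sp; unfold KL KA KC KP at *; omega
lemma SpP {m i : ℕ} (h : KP n (m / 16) (m % 16)) : Sp n op m i ↔ i = m := by
  unfold Sp; unfold KL KA KC KP at *; omega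

variable (n op) in
def Cov (a b c : ℕ) : Prop :=
  (KL n (a / 16) (a % 16) → Sp n op b (16 * (a / 16)) ∨ Sp n op c (16 * (a / 16))) ∧
  (KA n (a / 16) (a % 16) → Sp n op b (16 * (a / 16) + 5) ∨ Sp n op c (16 * (a / 16) + 5)) ∧
  (KC n (a / 16) (a % 16) → vr (op (a / 16)) (a % 16 - 9) < n ∧
    (Sp n op b (16 * (a / 16)) ∨ Sp n op c (16 * (a / 16))) ∧
    (Sp n op b (16 * vr (op (a / 16)) (a % 16 - 9)) ∨
      Sp n op c (16 * vr (op (a / 16)) (a % 16 - 9)))) ∧
  (KP n (a / 16) (a % 16) → a = 15 ∨ Sp n op b a ∨ Sp n op c a)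

end

def Rel (n : ℕ) (op : ℕ → Op) (x : ℕ → ℝ) (a b c : ℕ) : Prop :=
  ∃ r s t : ℝ, r ≠ 0 ∧ s ≠ 0 ∧ t ≠ 0 ∧ r • W n op x a + s • W n op x b + t • W n op x c = 0

lemma Rel.s1 {n op x a b c} (h : Rel n op x a b c) : Rel n op x b a c :=
  let ⟨r, s, t, hr, hs, ht, e⟩ := h; ⟨s, r, t, hs, hr, ht, by rw [← e]; abel⟩
lemma Rel.s2 {n op x a b c} (h : Rel n op x a b c) : Rel n op x a c b :=
  let ⟨r, s, t, hr, hs, ht, e⟩ := h; ⟨r, t, s, hr, ht, hs, by rw [← e]; abel⟩
lemma Blk.s1 {B a b c} (h : Blk B a b c) : Blk B b a c :=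
  let ⟨β, h, a, b, c⟩ := h; ⟨β, h, b, a, c⟩
lemma Blk.s2 {B a b c} (h : Blk B a b c) : Blk B a c b :=
  let ⟨β, h, a, b, c⟩ := h; ⟨β, h, a, c, b⟩

structure Val (n M : ℕ) (op : ℕ → Op) (x : ℕ → ℝ) : Prop where
  ok : ∀ k, n ≤ k → k < M → (op k).ok x
  gd : ∀ k, n ≤ k → k < M → ∀ t < 3, Gd (x (vr (op k) t))
  ne : ∀ k, n ≤ k → k < M → ∀ t < 3, ∀ t' < 3, t ≠ t' → x (vr (op k) t) ≠ x (vr (op k) t')
  gm : ∀ v < n, Gd (x v)

/-- the point of the line through two auxiliary points -/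
def tg (b : Bool) (s : ℕ) : ℕ :=
  if s = 40 then 12 else if s = 42 then (bif b then 0 else 12) else if s = 30 then
  (bif b then 1 else 0) else if s = 35 then (bif b then 3 else 2) else if s = 48 then
  (bif b then 2 else 3) else 4

lemma tg_pat : ∀ b, ∀ i ∈ [5, 6, 7, 8], ∀ j ∈ [5, 6, 7, 8], i ≠ j →
    (∃ γ ∈ pat b, i ∈ γ ∧ j ∈ γ ∧ tg b (i * j) ∈ γ) ∧ tg b (i * j) < 22 ∧
    ∀ l ∈ [5, 6, 7, 8], i ≠ l → j ≠ l → tg b (i * l) ≠ tg b (j * l) := by decide +kernel

lemma pat_cases : ∀ b, ∀ γ ∈ pat b, γ = [12, 0, 1, 2, 3, 4] ∨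
    (∃ i ∈ [5, 6, 7, 8], ∃ j ∈ [5, 6, 7, 8], i ≠ j ∧ γ = [tg b (i * j), i, j]) ∨
    ∃ t < 3, ∃ l < 3, γ = [9 + t, 13 + 3 * t + l, if l = 2 then 2 + t else l] := by decide +kernel

section
variable {n M : ℕ} {op : ℕ → Op} {B : List (List ℕ)} {x : ℕ → ℝ} (H : Su n M op B)
  (V : Val n M op x)
include H

lemma Su.top {m i : ℕ} (hm : m < 16 * M) (h : Tp n op m i) : W n op x m i ≠ 0 := by
  rcases h with ⟨k, rfl⟩ | ⟨k, rfl⟩ | ⟨k, h⟩ | ⟨k, rfl⟩
  · simp [W, W2L k, dl, show 16 * (m / 16) ≠ 15 by omega]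
  · simp [W, W2A k, dl, show 16 * (m / 16) + 5 ≠ 15 by omega]
  · have := H.lt (m / 16) k.1 (by omega) (m % 16 - 9)
    have := k.1
    rcases h with rfl | rfl
    · simp [W, W2C k, dl, show vr (op (m / 16)) (m % 16 - 9) ≠ m / 16 by omega]
    · simp [W, W2C k, dl, show m / 16 ≠ vr (op (m / 16)) (m % 16 - 9) by omega]
  · simp [W, W2P k, dl, Nat.div_add_mod]

lemma Su.cover {a b c : ℕ} (ha : a < 16 * M) {r s t : ℝ} (hr : r ≠ 0)
    (e : r • W n op x a + s • W n op x b + t • W n op x c = 0) (i : ℕ) (hi : i ≠ 15)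
    (h : Tp n op a i) : Sp n op b i ∨ Sp n op c i := by
  by_contra hh
  rw [not_or] at hh
  have e' := congrFun e i
  have h1 : W n op x b i = 0 := by_contra fun h => hh.1 (W_sp hi h)
  have h2 : W n op x c i = 0 := by_contra fun h => hh.2 (W_sp hi h)
  simp [h1, h2, hr, H.top ha h] at e'

lemma Su.cov {a b c : ℕ} (ha : a < 16 * M) {r s t : ℝ} (hr : r ≠ 0)
    (e : r • W n op x a + s • W n op x b + t • W n op x c = 0) : Cov n op a b c :=
  ⟨fun k => H.cover ha hr e _ (by omega) (.inl ⟨k, rfl⟩),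
    fun k => H.cover ha hr e _ (by omega) (.inr (.inl ⟨k, rfl⟩)),
    fun k => ⟨H.lt _ k.1 (by omega) _,
      H.cover ha hr e _ (by omega) (.inr (.inr (.inl ⟨k, .inr rfl⟩))),
      H.cover ha hr e _ (by omega) (.inr (.inr (.inl ⟨k, .inl rfl⟩)))⟩,
    fun k => (em (a = 15)).imp id fun h => H.cover ha hr e _ h (.inr (.inr (.inr ⟨k, rfl⟩)))⟩

lemma Su.rcov {a b c : ℕ} (ha : a < 16 * M) (h : Rel n op x a b c) : Cov n op a b c :=
  let ⟨_, _, _, hr, _, _, e⟩ := h; H.cov ha hr e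

lemma Su.gblk {k : ℕ} (h1 : n ≤ k) (h2 : k < M) {i j l : ℕ}
    (h : ∃ γ ∈ pat (op k).1, i ∈ γ ∧ j ∈ γ ∧ l ∈ γ) :
    Blk B (sy k (op k) i) (sy k (op k) j) (sy k (op k) l) :=
  let ⟨γ, hγ, a, b, c⟩ := h
  ⟨_, (H.mem _).2 (.inr ⟨k, h1, h2, γ, hγ, rfl⟩), List.mem_map_of_mem a, List.mem_map_of_mem b,
    List.mem_map_of_mem c⟩

lemma Su.lemL {a b c : ℕ} (ha : a < 16 * M) (hb : b < 16 * M) (hc : c < 16 * M) (ab : a ≠ b)
    (ac : a ≠ c) (bc : b ≠ c) (h : Rel n op x a b c) (ka : KL n (a / 16) (a % 16))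
    (kb : KL n (b / 16) (b % 16) ∨ KP n (b / 16) (b % 16))
    (kc : KL n (c / 16) (c % 16) ∨ KP n (c / 16) (c % 16)) : Blk B a b c := by
  have := H.pos
  have c1 := (H.rcov ha h).1 ka
  have c2 := H.rcov hb h.s1
  have c3 := H.rcov hc h.s2.s1
  have key : (b = 15 ∨ (b / 16 = a / 16 ∧ KL n (a / 16) (b % 16))) ∧
      (c = 15 ∨ (c / 16 = a / 16 ∧ KL n (a / 16) (c % 16))) := by
    rcases kb with kb | kb <;> rcases kc with kc | kc <;>
      (first | have d2 := c2.1 kb | have d2 := c2.2.1 kb | have d2 := c2.2.2.1 kb | have d2 := c2.2.2.2 kb) <;>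
      (first | have d3 := c3.1 kc | have d3 := c3.2.1 kc | have d3 := c3.2.2.1 kc | have d3 := c3.2.2.2 kc) <;>
      clear c2 c3 <;> simp only [SpL, SpP, ka, kb, kc] at c1 d2 d3 <;> unfold KL at * <;>
      (try unfold KP at *) <;> omega
  unfold KL at *
  by_cases hk : a / 16 < n
  · refine ⟨_, (H.mem _).2 (.inl ⟨_, hk, rfl⟩), ?_⟩
    simp only [mst, List.mem_cons, List.not_mem_nil, or_false]
    omega
  · refine ⟨_, (H.mem _).2 (.inr ⟨a / 16, by omega, by omega, _, List.mem_cons_self, rfl⟩), ?_⟩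
    simp only [List.map_cons, List.map_nil, sy, Nat.reduceLT, if_true, lt_irrefl, if_false,
      List.mem_cons, List.not_mem_nil, or_false]
    omega

lemma Su.nz (m : ℕ) (hm : m < 16 * M) : ∃ i, W n op x m i ≠ 0 := by
  rcases kinds n (m / 16) (m % 16) with k | k | k | k
  exacts [⟨_, H.top hm (.inl ⟨k, rfl⟩)⟩, ⟨_, H.top hm (.inr (.inl ⟨k, rfl⟩))⟩,
    ⟨_, H.top hm (.inr (.inr (.inl ⟨k, .inr rfl⟩)))⟩, ⟨_, H.top hm (.inr (.inr (.inr ⟨k, rfl⟩)))⟩]

lemma Su.sy_lt {k : ℕ} (h1 : n ≤ k) (h2 : k < M) (s : ℕ) : sy k (op k) s < 16 * M := by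
  have := H.sy_cases h1 h2 s
  omega

include V

omit H in

lemma Val.lv_inj {k j j' : ℕ} (hk : k < M) (h : KL n k j) (h' : KL n k j')
    (e : lv n op x k j = lv n op x k j') : j = j' := by
  unfold KL at h h'
  by_contra hh
  unfold lv at e
  by_cases hn : k < n
  · have := V.gm k hn
    unfold Gd at this
    split_ifs at e <;> first | omega | simp_all
  · have a := V.gd k (by omega) hk (j - 2) (by omega)
    have b := V.gd k (by omega) hk (j' - 2) (by omega)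
    have c := V.ne k (by omega) hk (j - 2) (by omega) (j' - 2) (by omega)
    unfold Gd at a b
    split_ifs at e <;> first | omega | exact c (by omega) e | simp_all

lemma Su.auxdiff {k i j : ℕ} (h1 : n ≤ k) (h2 : k < M) (hi : i ∈ [5, 6, 7, 8])
    (hj : j ∈ [5, 6, 7, 8]) (e : i ≠ j) : ∃ s : ℝ, s ≠ 0 ∧ W2 n op x k i =
      W2 n op x k j + s • W n op x (sy k (op k) (tg (op k).1 (i * j))) := by
  have base : ∀ i j, i ∈ [5, 6, 7, 8] → j ∈ [5, 6, 7, 8] → i < j → ∃ s : ℝ, s ≠ 0 ∧ W2 n op x k i =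
      W2 n op x k j + s • W n op x (sy k (op k) (tg (op k).1 (i * j))) := by
    intro i j hi hj e
    have ok := V.ok k h1 h2
    obtain ⟨x0, x1⟩ := V.gd k h1 h2 0 (by omega)
    obtain ⟨y0, y1⟩ := V.gd k h1 h2 1 (by omega)
    have hL : ∀ j < 5, W n op x (16 * k + j) = dl (16 * k) + lv n op x k j • dl 15 := fun j hj => by
      rw [W_mk _ (by omega), W2L (.inr ⟨h1, hj⟩)]
    have hL0 := hL 0 (by omega)
    rw [add_zero] at hL0
    have hn : ¬ k < n := by omega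
    have z : x (vr (op k) 2) = if (op k).1 then x (vr (op k) 0) * x (vr (op k) 1) else
        x (vr (op k) 0) + x (vr (op k) 1) := by
      unfold Op.ok at ok
      split_ifs at * <;> exact ok.symm
    rw [W2A ⟨h1, by simp at hi; omega⟩, W2A ⟨h1, by simp at hj; omega⟩]
    have l1 := hL 1 (by omega)
    have l2 := hL 2 (by omega)
    have l3 := hL 3 (by omega)
    have l4 := hL 4 (by omega)
    simp only [lv, hn, if_true, if_false, one_ne_zero, OfNat.ofNat_ne_zero, OfNat.ofNat_ne_one,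
      Nat.reduceSub, z] at hL0 l1 l2 l3 l4
    generalize x (vr (op k) 0) = u at *
    generalize x (vr (op k) 1) = v at *
    have y2 : v - 1 ≠ 0 := sub_ne_zero.2 y1
    have y3 : u * v - v ≠ 0 := by
      rw [show u * v - v = (u - 1) * v by ring]
      exact mul_ne_zero (sub_ne_zero.2 x1) y0
    simp only [List.mem_cons, List.not_mem_nil, or_false] at hi hj
    have m1 : (-1 : ℝ) ≠ 0 := by norm_num
    have hij : (i = 5 ∧ j = 6) ∨ (i = 5 ∧ j = 7) ∨ (i = 5 ∧ j = 8) ∨ (i = 6 ∧ j = 7) ∨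
      (i = 6 ∧ j = 8) ∨ (i = 7 ∧ j = 8) := by omega
    cases hb : (op k).1 <;> rw [hb] at l4 <;>
      rcases hij with ⟨rfl, rfl⟩ | ⟨rfl, rfl⟩ | ⟨rfl, rfl⟩ | ⟨rfl, rfl⟩ | ⟨rfl, rfl⟩ | ⟨rfl, rfl⟩ <;>
      simp only [au, tg, sy, Nat.reduceMul, Nat.reduceEqDiff, if_true, if_false, cond_true,
        cond_false, Nat.reduceLT, add_zero, W15 H.pos, hL0, l1, l2, l3, l4, lt_irrefl,
        Bool.false_eq_true]
    exacts [⟨_, m1, by module⟩, ⟨_, m1, by module⟩, ⟨_, y0, by module⟩,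
      ⟨_, neg_ne_zero.2 x0, by module⟩, ⟨_, one_ne_zero, by module⟩, ⟨_, one_ne_zero, by module⟩,
      ⟨_, neg_ne_zero.2 y0, by module⟩, ⟨_, m1, by module⟩, ⟨_, y3, by module⟩, ⟨_, y2, by module⟩,
      ⟨_, y0, by module⟩, ⟨_, one_ne_zero, by module⟩]
  rcases lt_or_gt_of_ne e with h | h
  · exact base i j hi hj h
  · obtain ⟨s, hs, h⟩ := base j i hj hi h
    exact ⟨-s, neg_ne_zero.2 hs, by rw [h, mul_comm i j]; simp⟩

lemma Su.pair {a b : ℕ} (ha : a < 16 * M) (hb : b < 16 * M) (hab : a ≠ b) {r s : ℝ}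
    (e : r • W n op x a + s • W n op x b = 0) : r = 0 := by
  by_contra hr
  have := H.pos
  have hs : s ≠ 0 := by
    rintro rfl
    obtain ⟨i, hi⟩ := H.nz (x := x) a ha
    simpa [hr, hi] using congrFun e i
  have c1 := H.cov (b := b) (c := b) (s := s) (t := 0) ha hr (by simpa using e)
  have c2 := H.cov (b := a) (c := a) (s := r) (t := 0) hb hs (by simpa [add_comm] using e)
  have key : b / 16 = a / 16 ∧ ((KL n (a / 16) (a % 16) ∧ KL n (a / 16) (b % 16)) ∨
      (KA n (a / 16) (a % 16) ∧ KA n (a / 16) (b % 16)) ∨ (KC n (a / 16) (a % 16) ∧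
        KC n (a / 16) (b % 16) ∧ vr (op (a / 16)) (a % 16 - 9) = vr (op (b / 16)) (b % 16 - 9))) := by
    rcases kinds n (a / 16) (a % 16) with k | k | k | k <;>
      rcases kinds n (b / 16) (b % 16) with k' | k' | k' | k' <;>
      (first | have d1 := c1.1 k | have d1 := c1.2.1 k | have d1 := c1.2.2.1 k | have d1 := c1.2.2.2 k) <;>
      (first | have d2 := c2.1 k' | have d2 := c2.2.1 k' | have d2 := c2.2.2.1 k' | have d2 := c2.2.2.2 k') <;>
      clear c1 c2 <;>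
      simp only [SpL, SpA, SpC, SpP, k, k', or_self] at d1 d2 <;> unfold KL KA KC at * <;>
      (try unfold KP at *) <;> omega
  clear c1 c2
  obtain ⟨h0, ⟨k, k'⟩ | ⟨k, k'⟩ | ⟨k, k', k3⟩⟩ := key
  · simp only [W, W2L k, W2L k', h0] at e
    have e1 := congrFun e (16 * (a / 16))
    have e2 := congrFun e 15
    simp [dl, show 16 * (a / 16) ≠ 15 by omega, show 15 ≠ 16 * (a / 16) by omega] at e1 e2
    have := V.lv_inj (by omega) k k'
      (mul_left_cancel₀ hr (by linear_combination e2 - lv n op x (a / 16) (b % 16) * e1))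
    omega
  · obtain ⟨t, ht, e'⟩ := H.auxdiff V (k := a / 16) (i := a % 16) (j := b % 16) k.1 (by omega)
      (by unfold KA at k; simp; omega) (by unfold KA at k'; simp; omega) (by omega)
    have e1 := congrFun e (16 * (a / 16) + 5)
    simp [W, h0, W2A k, W2A k', dl, show 16 * (a / 16) + 5 ≠ 15 by omega] at e1
    rw [W, W, h0, e'] at e
    obtain ⟨i, hi⟩ := H.nz (x := x) _ (H.sy_lt k.1 (by omega) (tg (op (a / 16)).1 (a % 16 * (b % 16))))
    have e2 := congrFun e i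
    simp only [Pi.add_apply, Pi.smul_apply, smul_eq_mul, Pi.zero_apply] at e2
    exact mul_ne_zero hr (mul_ne_zero ht hi)
      (by linear_combination e2 - W2 n op x (a / 16) (b % 16) i * e1)
  · rw [h0] at k3
    unfold KC at *
    have := H.inj _ k.1 (by omega) _ (by omega) _ (by omega) k3
    omega

lemma Su.lemA2 {a b c : ℕ} (ha : a < 16 * M) (hb : b < 16 * M) (hc : c < 16 * M) (ab : a ≠ b)
    (ac : a ≠ c) (bc : b ≠ c) (h : Rel n op x a b c) (ka : KA n (a / 16) (a % 16))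
    (kb : KA n (b / 16) (b % 16)) (e0 : b / 16 = a / 16) : Blk B a b c := by
  have := H.pos
  have c3 := H.rcov hc h.s2.s1
  have key : c = 15 ∨ (c / 16 = a / 16 ∧ (KL n (a / 16) (c % 16) ∨ KA n (a / 16) (c % 16))) := by
    rcases kinds n (c / 16) (c % 16) with kc | kc | kc | kc <;>
      (first | have d3 := c3.1 kc | have d3 := c3.2.1 kc | have d3 := c3.2.2.1 kc | have d3 := c3.2.2.2 kc) <;>
      clear c3 <;> simp only [SpA, ka, kb] at d3 <;> unfold KL KA at * <;>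
      (try unfold KP at *) <;> (try unfold KC at *) <;> omega
  clear c3
  obtain ⟨r, s, t, hr, hs, ht, e⟩ := h
  obtain ⟨k, i, hi, rfl⟩ : ∃ k i, i < 16 ∧ a = 16 * k + i := ⟨a / 16, a % 16, by omega, by omega⟩
  obtain ⟨j, hj, rfl⟩ : ∃ j, j < 16 ∧ b = 16 * k + j := ⟨b % 16, by omega, by omega⟩
  rw [show (16 * k + i) / 16 = k by omega] at *
  rw [show (16 * k + i) % 16 = i by omega] at ka
  rw [e0, show (16 * k + j) % 16 = j by omega] at kb
  have h2 : k < M := by omega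
  have mi : ∀ {i}, KA n k i → i ∈ [5, 6, 7, 8] := fun h => by unfold KA at h; simp; omega
  rw [W_mk _ hi, W_mk _ hj] at e
  have e1 := congrFun e (16 * k + 5)
  have n5 : 16 * k + 5 ≠ 15 := by omega
  by_cases hA : c / 16 = k ∧ KA n k (c % 16)
  · exfalso
    obtain ⟨u, hu, e2⟩ := H.auxdiff V ka.1 h2 (mi ka) (mi hA.2) (by omega)
    obtain ⟨v, hv, e3⟩ := H.auxdiff V ka.1 h2 (mi kb) (mi hA.2) (by omega)
    simp [W, hA.1, W2A ka, W2A kb, W2A hA.2, dl, n5] at e1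
    rw [W, hA.1, e2, e3] at e
    have T := tg_pat (op k).1
    refine mul_ne_zero hr hu (H.pair V (H.sy_lt ka.1 h2 _) (H.sy_lt ka.1 h2 _) (fun e =>
      (T i (mi ka) j (mi kb) (by omega)).2.2 _ (mi hA.2) (by omega) (by omega)
      (H.sy_inj ka.1 h2 (T i (mi ka) _ (mi hA.2) (by omega)).2.1
        (T j (mi kb) _ (mi hA.2) (by omega)).2.1 e)) (s := s * v) ?_)
    linear_combination (norm := module) e - e1 • W2 n op x k (c % 16)
  · obtain ⟨u, hu, e2⟩ := H.auxdiff V ka.1 h2 (mi ka) (mi kb) (by omega)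
    have : W n op x c (16 * k + 5) = 0 := by
      rcases key with rfl | ⟨h1, h | h⟩
      · simp [W15 H.pos, dl, n5]
      · simp [W, h1, W2L h, dl, n5]
      · exact (hA ⟨h1, h⟩).elim
    simp [this, W2A ka, W2A kb, dl, n5] at e1
    rw [e2] at e
    have T := tg_pat (op k).1 i (mi ka) j (mi kb) (by omega)
    obtain rfl : sy k (op k) (tg (op k).1 (i * j)) = c := by
      by_contra hh
      refine mul_ne_zero hr hu (H.pair V (H.sy_lt ka.1 h2 _) hc hh (s := t) ?_)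
      linear_combination (norm := module) e - e1 • W2 n op x k j
    have := H.gblk ka.1 h2 T.1
    unfold KA at *
    rwa [show sy k (op k) i = 16 * k + i from if_pos (by omega),
      show sy k (op k) j = 16 * k + j from if_pos (by omega)] at this

lemma Su.lemA {a b c : ℕ} (ha : a < 16 * M) (hb : b < 16 * M) (hc : c < 16 * M) (ab : a ≠ b)
    (ac : a ≠ c) (bc : b ≠ c) (h : Rel n op x a b c) (ka : KA n (a / 16) (a % 16)) :
    Blk B a b c := by
  have c1 := (H.rcov ha h).2.1 ka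
  have : ∀ m, Sp n op m (16 * (a / 16) + 5) → KA n (m / 16) (m % 16) ∧ m / 16 = a / 16 := by
    intro m hm
    rcases kinds n (m / 16) (m % 16) with k | k | k | k <;> simp only [SpL, SpA, SpC, SpP, k] at hm <;>
      unfold KA at * <;> (try unfold KP at *) <;> omega
  rcases c1 with d | d
  · exact H.lemA2 V ha hb hc ab ac bc h ka (this _ d).1 (this _ d).2
  · exact (H.lemA2 V ha hc hb ac ab bc.symm h.s2 ka (this _ d).1 (this _ d).2).s2

lemma Su.lemC2 {a b c : ℕ} (ha : a < 16 * M) (h : Rel n op x a b c) (ka : KC n (a / 16) (a % 16))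
    (kb : KL n (b / 16) (b % 16)) (kc : KL n (c / 16) (c % 16)) (e0 : b / 16 = a / 16)
    (e1 : c / 16 = vr (op (a / 16)) (a % 16 - 9)) : Blk B a b c := by
  obtain ⟨r, s, t, hr, hs, ht, e⟩ := h
  obtain ⟨k, i, hi, rfl⟩ : ∃ k i, i < 16 ∧ a = 16 * k + (9 + i) :=
    ⟨a / 16, a % 16 - 9, by omega, by unfold KC at ka; omega⟩
  have i3 : i < 3 := by unfold KC at ka; omega
  rw [show (16 * k + (9 + i)) / 16 = k by omega,
    show (16 * k + (9 + i)) % 16 = 9 + i by omega] at *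
  have h2 : k < M := by omega
  have hv := H.lt k ka.1 h2 i
  have h1 := ka.1
  rw [Nat.add_sub_cancel_left] at e1
  rw [W_mk _ (by omega), W, W, W2L kb, W2L kc, W2C ka, e0, e1, Nat.add_sub_cancel_left] at e
  rw [e0] at kb
  rw [e1] at kc
  have f1 := congrFun e (16 * k)
  have f2 := congrFun e (16 * vr (op k) i)
  have f3 := congrFun e 15
  simp [dl, show 16 * k ≠ 15 by omega, show 15 ≠ 16 * k by omega, show k ≠ vr (op k) i by omega,
    show vr (op k) i ≠ k by omega, show 16 * vr (op k) i ≠ 15 by omega,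
    show 15 ≠ 16 * vr (op k) i by omega] at f1 f2 f3
  have g : lv n op x k (b % 16) = lv n op x (vr (op k) i) (c % 16) := mul_left_cancel₀ hr (by
    linear_combination f3 - lv n op x k (b % 16) * f1 - lv n op x (vr (op k) i) (c % 16) * f2)
  have c3 : c % 16 < 3 := by unfold KL at kc; omega
  have g' : lv n op x (vr (op k) i) (c % 16) =
      lv n op x k (if c % 16 = 2 then 2 + i else c % 16) := by
    by_cases h : c % 16 = 2
    · simp [lv, h, hv, show ¬ k < n by omega, show 2 + i ≠ 1 by omega]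
    · rcases (by omega : c % 16 = 0 ∨ c % 16 = 1) with h | h <;> simp [lv, h]
  have := V.lv_inj h2 kb (.inr ⟨h1, by split_ifs <;> omega⟩) (g.trans g')
  have T := H.gblk h1 h2 (i := 9 + i) (j := b % 16) (l := 13 + 3 * i + c % 16) (by
    rw [this]
    generalize c % 16 = l at c3
    cases (op k).1 <;> interval_cases i <;> interval_cases l <;> decide)
  unfold KL at kb
  rwa [show sy k (op k) (9 + i) = 16 * k + (9 + i) from if_pos (by omega),
    show sy k (op k) (b % 16) = b from (if_pos (by omega)).trans (by omega),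
    show sy k (op k) (13 + 3 * i + c % 16) = c by
      rw [sy, if_neg (by omega), if_neg (by omega), show (13 + 3 * i + c % 16 - 13) / 3 = i by omega]
      omega] at T

lemma Su.lemC {a b c : ℕ} (ha : a < 16 * M) (hb : b < 16 * M) (hc : c < 16 * M) (ab : a ≠ b)
    (ac : a ≠ c) (h : Rel n op x a b c) (ka : KC n (a / 16) (a % 16))
    (nb : ¬ KA n (b / 16) (b % 16)) (nc : ¬ KA n (c / 16) (c % 16)) : Blk B a b c := by
  have := H.pos
  have c1 := (H.rcov ha h).2.2.1 ka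
  have c2 := H.rcov hb h.s1
  have c3 := H.rcov hc h.s2.s1
  have ne : ∀ m, a ≠ m → KC n (m / 16) (m % 16) → m / 16 = a / 16 →
      vr (op (a / 16)) (a % 16 - 9) ≠ vr (op (m / 16)) (m % 16 - 9) := fun m hm k e e' => by
    rw [e] at e'
    unfold KC at *
    have := H.inj _ ka.1 (by omega) _ (by omega) _ (by omega) e'
    omega
  have n1 := ne b ab
  have n2 := ne c ac
  have key : KL n (b / 16) (b % 16) ∧ KL n (c / 16) (c % 16) ∧
      ((b / 16 = a / 16 ∧ c / 16 = vr (op (a / 16)) (a % 16 - 9)) ∨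
      (c / 16 = a / 16 ∧ b / 16 = vr (op (a / 16)) (a % 16 - 9))) := by
    rcases kinds n (b / 16) (b % 16) with kb | kb | kb | kb <;> (try exact (nb kb).elim) <;>
      rcases kinds n (c / 16) (c % 16) with kc | kc | kc | kc <;> (try exact (nc kc).elim) <;>
      (first | have d2 := c2.1 kb | have d2 := c2.2.1 kb | have d2 := c2.2.2.1 kb | have d2 := c2.2.2.2 kb) <;>
      (first | have d3 := c3.1 kc | have d3 := c3.2.1 kc | have d3 := c3.2.2.1 kc | have d3 := c3.2.2.2 kc) <;>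
      clear c2 c3 nb nc ne <;> simp only [SpL, SpC, SpP, ka, kb, kc] at c1 d2 d3 <;>
      unfold KL KC at * <;> (try unfold KP at *) <;> omega
  rcases key.2.2 with e | e
  · exact H.lemC2 V ha h ka key.1 key.2.1 e.1 e.2
  · exact (H.lemC2 V ha h.s2 ka key.2.1 key.1 e.1 e.2).s2

lemma Su.rel_blk {a b c : ℕ} (ha : a < 16 * M) (hb : b < 16 * M) (hc : c < 16 * M) (ab : a ≠ b)
    (ac : a ≠ c) (bc : b ≠ c) (h : Rel n op x a b c) : Blk B a b c := by
  by_cases a1 : KA n (a / 16) (a % 16)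
  · exact H.lemA V ha hb hc ab ac bc h a1
  by_cases b1 : KA n (b / 16) (b % 16)
  · exact (H.lemA V hb ha hc ab.symm bc ac h.s1 b1).s1
  by_cases c1 : KA n (c / 16) (c % 16)
  · exact (H.lemA V hc ha hb ac.symm bc.symm ab h.s2.s1 c1).s1.s2
  by_cases a2 : KC n (a / 16) (a % 16)
  · exact H.lemC V ha hb hc ab ac h a2 b1 c1
  by_cases b2 : KC n (b / 16) (b % 16)
  · exact (H.lemC V hb ha hc ab.symm bc h.s1 b2 a1 c1).s1
  by_cases c2 : KC n (c / 16) (c % 16)
  · exact (H.lemC V hc ha hb ac.symm bc.symm h.s2.s1 c2 a1 b1).s1.s2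
  have ka : KL n (a / 16) (a % 16) ∨ KP n (a / 16) (a % 16) := by
    have := kinds n (a / 16) (a % 16); tauto
  have kb : KL n (b / 16) (b % 16) ∨ KP n (b / 16) (b % 16) := by
    have := kinds n (b / 16) (b % 16); tauto
  have kc : KL n (c / 16) (c % 16) ∨ KP n (c / 16) (c % 16) := by
    have := kinds n (c / 16) (c % 16); tauto
  rcases ka with ka | ka
  · exact H.lemL ha hb hc ab ac bc h ka kb kc
  rcases kb with kb | kb
  · exact (H.lemL hb ha hc ab.symm bc ac h.s1 kb (.inr ka) kc).s1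
  rcases kc with kc | kc
  · exact (H.lemL hc ha hb ac.symm bc.symm ab h.s2.s1 kc (.inr ka) (.inr kb)).s1.s2
  have d1 := (H.rcov ha h).2.2.2 ka
  have d2 := (H.rcov hb h.s1).2.2.2 kb
  simp only [SpP, ka, kb, kc] at d1 d2
  omega

lemma Su.plane {β : List ℕ} (h : β ∈ B) : ∃ u v : ℕ → ℝ, ∀ m ∈ β, ∃ s t : ℝ,
    W n op x m = s • u + t • v := by
  have hL : ∀ k j, KL n k j → ∃ s t : ℝ, W n op x (16 * k + j) = s • dl (16 * k) + t • dl 15 :=
    fun k j h => ⟨1, _, by rw [W_mk _ (by unfold KL at h; omega), W2L h, one_smul]⟩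
  have hI : ∀ k, ∃ s t : ℝ, W n op x 15 = s • dl (16 * k) + t • dl 15 :=
    fun k => ⟨0, 1, by simp [W15 H.pos]⟩
  rcases (H.mem β).1 h with ⟨v, hv, rfl⟩ | ⟨k, h1, h2, γ, hγ, rfl⟩
  · refine ⟨dl (16 * v), dl 15, ?_⟩
    simp only [mst, List.forall_mem_cons]
    exact ⟨hI v, hL v 0 (.inl ⟨hv, by omega⟩), hL v 1 (.inl ⟨hv, by omega⟩),
      hL v 2 (.inl ⟨hv, by omega⟩), by simp⟩
  rcases pat_cases _ γ hγ with rfl | ⟨i, hi, j, hj, e, rfl⟩ | ⟨t, ht, l, hl, rfl⟩
  · refine ⟨dl (16 * k), dl 15, ?_⟩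
    simp only [List.map_cons, List.map_nil, List.forall_mem_cons]
    exact ⟨hI k, hL k 0 (.inr ⟨h1, by omega⟩), hL k 1 (.inr ⟨h1, by omega⟩),
      hL k 2 (.inr ⟨h1, by omega⟩), hL k 3 (.inr ⟨h1, by omega⟩), hL k 4 (.inr ⟨h1, by omega⟩),
      by simp⟩
  · obtain ⟨s, -, e'⟩ := H.auxdiff V h1 h2 hi hj e
    have f : ∀ i ∈ [5, 6, 7, 8], W n op x (sy k (op k) i) = W2 n op x k i := fun i hi => by
      simp only [List.mem_cons, List.not_mem_nil, or_false] at hi
      rw [sy, if_pos (by omega), W_mk _ (by omega)]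
    refine ⟨W2 n op x k j, W n op x (sy k (op k) (tg (op k).1 (i * j))), ?_⟩
    simp only [List.map_cons, List.map_nil, List.forall_mem_cons]
    exact ⟨⟨0, 1, by simp⟩, ⟨1, s, by rw [f i hi, e', one_smul]⟩, ⟨1, 0, by simp [f j hj]⟩, by simp⟩
  · refine ⟨W n op x (sy k (op k) (13 + 3 * t + l)),
      W n op x (sy k (op k) (if l = 2 then 2 + t else l)), ?_⟩
    simp only [List.map_cons, List.map_nil, List.forall_mem_cons]
    refine ⟨⟨1, -1, ?_⟩, ⟨1, 0, by simp⟩, ⟨0, 1, by simp⟩, by simp⟩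
    have hv := H.lt k h1 h2 t
    have : (if l = 2 then 2 + t else l) < 5 := by split_ifs <;> omega
    rw [sy, if_pos (by omega), W_mk _ (by omega), W2C ⟨h1, by omega⟩, sy, if_neg (by omega),
      if_neg (by omega), show (13 + 3 * t + l - 13) / 3 = t by omega,
      show (13 + 3 * t + l - 13) % 3 = l by omega, W_mk _ (by omega), W2L (.inl ⟨hv, hl⟩), sy,
      if_pos (by omega), W_mk _ (by omega), W2L (.inr ⟨h1, this⟩), Nat.add_sub_cancel_left]
    have g' : lv n op x (vr (op k) t) l = lv n op x k (if l = 2 then 2 + t else l) := by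
      by_cases h : l = 2
      · simp [lv, h, hv, show ¬ k < n by omega, show 2 + t ≠ 1 by omega]
      · rcases (by omega : l = 0 ∨ l = 1) with h | h <;> simp [lv, h]
    rw [g']; module

theorem Su.complete : ∃ p, SRv (16 * M) B p := by
  obtain ⟨φ, hφ⟩ := generic (V := (ℕ → ℝ) →ₗ[ℝ] V3) {t : ℕ × ℕ × ℕ | t.1 < 16 * M ∧ t.2.1 < 16 * M ∧
      t.2.2 < 16 * M ∧ t.1 ≠ t.2.1 ∧ t.1 ≠ t.2.2 ∧ t.2.1 ≠ t.2.2 ∧ ¬ Blk B t.1 t.2.1 t.2.2}
    (((Set.finite_Iio (16 * M)).prod ((Set.finite_Iio (16 * M)).prod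
      (Set.finite_Iio (16 * M)))).subset fun t h => ⟨h.1, h.2.1, h.2.2.1⟩)
    (fun t φ => D3 (φ (W n op x t.1)) (φ (W n op x t.2.1)) (φ (W n op x t.2.2)))
    (fun t _ => .D3 (PolyF.app _) (PolyF.app _) (PolyF.app _)) (by
      rintro ⟨a, b, c⟩ ⟨ha, hb, hc, ab, ac, bc, h⟩
      obtain ⟨φ, h1, h2, h3⟩ := ex_frame (a := W n op x a) (b := W n op x b) (c := W n op x c)
        (fun r s t e => by
          by_cases hr : r = 0
          · simp only [hr, zero_smul, zero_add] at e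
            exact ⟨hr, H.pair V hb hc bc e, H.pair V hc hb bc.symm (by rwa [add_comm])⟩
          by_cases hs : s = 0
          · exact (hr (H.pair V ha hc ac (by simpa [hs] using e))).elim
          by_cases ht : t = 0
          · exact (hr (H.pair V ha hb ab (by simpa [ht] using e))).elim
          exact (h (H.rel_blk V ha hb hc ab ac bc ⟨r, s, t, hr, hs, ht, e⟩)).elim)
        ![1, 0, 0] ![0, 1, 0] ![0, 0, 1]
      exact ⟨φ, by simp [h1, h2, h3, D3]⟩)
  refine ⟨fun m => φ (W n op x m), fun a ha b hb c hc ab ac bc => ⟨fun e => by_contra fun h =>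
    hφ (a, b, c) ⟨ha, hb, hc, ab, ac, bc, h⟩ e, ?_⟩⟩
  rintro ⟨β, hβ, h1, h2, h3⟩
  obtain ⟨u, v, h⟩ := H.plane V hβ
  obtain ⟨_, _, e1⟩ := h a h1
  obtain ⟨_, _, e2⟩ := h b h2
  obtain ⟨_, _, e3⟩ := h c h3
  simp only [e1, e2, e3, D3, map_add, map_smul, Pi.add_apply, Pi.smul_apply, smul_eq_mul]
  ring

end

/-- syntactic properties of the configurations produced -/
def Nice (q : ℕ × List (List ℕ)) : Prop :=
  15 < q.1 ∧ Lin q.2 ∧ (∀ β ∈ q.2, β.length ≤ 6 ∧ ∀ a ∈ β, a < q.1) ∧ ∀ β ∈ q.2, 14 ∉ β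

theorem rh_geo : ∃ g : List Bool → ℕ × List (List ℕ), PT g ∧
    ∀ s, Nice (g s) ∧ (s ∈ ETR ↔ ∃ p, SRv (g s).1 (g s).2 p) := by
  obtain ⟨g, hg, h⟩ := rh_dam
  have h1 : PT fun E : List Op => (16 * (size E + E.length), blks E) := by
    have : PT pat := by unfold pat; fun_prop
    have : PT fun q : ℕ × Op × ℕ => sy q.1 q.2.1 q.2.2 := by unfold sy vr; fun_prop
    unfold blks mst; fun_prop
  refine ⟨fun s => (16 * (size (g s) + (g s).length), blks (g s)), h1.comp hg, fun s => ?_⟩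
  have H := su_blks (h s).1
  have := H.pos
  refine ⟨⟨by simp only; omega, H.lin, fun β hβ => ⟨(H.el hβ).1, fun a ha => ((H.el hβ).2 a ha).1⟩,
    fun β hβ h => by have := (H.el hβ).2 14 h; omega⟩, (h s).2.trans ⟨?_, ?_⟩⟩
  · rintro ⟨x, hx⟩
    classical
    let y : ℕ → ℝ := fun v => if Gd (x v) then x v else 2
    have key : ∀ k, size (g s) ≤ k → k < size (g s) + (g s).length → _ := fun k h1 h2 =>
      hx _ (List.fst_mem_of_mem_zipIdx (opAt_mem h1 h2))
    have hy : ∀ k, size (g s) ≤ k → k < size (g s) + (g s).length → ∀ t,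
        Gd (x (vr (opAt (g s) k) t)) := fun k h1 h2 t => by
      have := key k h1 h2
      unfold vr; split_ifs <;> tauto
    have ey : ∀ k, size (g s) ≤ k → k < size (g s) + (g s).length → ∀ t,
        y (vr (opAt (g s) k) t) = x (vr (opAt (g s) k) t) := fun k h1 h2 t => if_pos (hy k h1 h2 t)
    refine H.complete (x := y) ⟨fun k h1 h2 => ?_, fun k h1 h2 t _ => ey k h1 h2 t ▸ hy k h1 h2 t,
      fun k h1 h2 t ht t' ht' e => ?_, fun v _ => ?_⟩
    · have e0 := ey k h1 h2 0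
      have e1 := ey k h1 h2 1
      have e2 := ey k h1 h2 2
      simp only [vr, if_true, one_ne_zero, if_false, OfNat.ofNat_ne_zero, OfNat.ofNat_ne_one]
        at e0 e1 e2
      simpa only [Op.ok, e0, e1, e2] using (key k h1 h2).1
    · rw [ey k h1 h2, ey k h1 h2]
      obtain ⟨-, -, -, -, a, b, c⟩ := key k h1 h2
      have := a.symm
      have := b.symm
      have := c.symm
      unfold vr; split_ifs <;> first | assumption | omega
    · simp only [y]
      split_ifs with h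
      · exact h
      · exact ⟨by norm_num, by norm_num⟩
  · rintro ⟨p, hp⟩
    obtain ⟨x, hx⟩ := H.sound hp
    refine ⟨x, fun e he => ?_⟩
    obtain ⟨i, hi, rfl⟩ := List.getElem_of_mem he
    obtain ⟨h1, h2⟩ := opAt_of (E := g s) (p := ((g s)[i], i))
      (List.mem_zipIdx_iff_getElem?.2 (by simp [hi]))
    obtain ⟨a, b, c⟩ := hx (size (g s) + i) (by omega) (by omega)
    rw [h2] at a b c
    exact ⟨a, b 0 (by omega), b 1 (by omega), b 2 (by omega), c 0 (by omega) 1 (by omega) (by omega),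
      c 0 (by omega) 2 (by omega) (by omega), c 1 (by omega) 2 (by omega) (by omega)⟩

end Pool.Agent.Cx
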