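import Pool.Agent.Lib.helper11.ETRGeoB

/-! General position, lines of a configuration, affine form. -/

namespace Pool.Agent.Cx

lemma ip_self {a : V3} (h : a ≠ 0) : ip a a ≠ 0 := fun e => h (by
  unfold ip at e
  ext i
  fin_cases i <;> simp <;> nlinarith [mul_self_nonneg (a 0), mul_self_nonneg (a 1),
    mul_self_nonneg (a 2)])

lemma ex_z {a b : V3} (ha : a ≠ 0) (hb : b ≠ 0) : ∃ z, ip z a ≠ 0 ∧ ip z b ≠ 0 := by
  by_cases h : ip a b = 0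
  · refine ⟨a + b, fun e => ip_self ha ?_, fun e => ip_self hb ?_⟩ <;>
      simp only [ip, Pi.add_apply] at * <;> linarith
  · exact ⟨a, ip_self ha, h⟩

lemma D3_map (M : V3 →ₗ[ℝ] V3) (a b c : V3) : D3 (M a) (M b) (M c) =
    D3 (M ![1, 0, 0]) (M ![0, 1, 0]) (M ![0, 0, 1]) * D3 a b c := by
  have : ∀ a : V3, M a = a 0 • M ![1, 0, 0] + a 1 • M ![0, 1, 0] + a 2 • M ![0, 0, 1] := fun a => by
    simp only [← map_smul, ← map_add]
    congr 1; ext i; fin_cases i <;> simp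
  rw [this a, this b, this c]
  simp only [D3, Pi.add_apply, Pi.smul_apply, smul_eq_mul]; ring

theorem gen_pos (R : Set V3) (hR : R.Finite) : ∃ M : V3 →ₗ[ℝ] V3,
    D3 (M ![1, 0, 0]) (M ![0, 1, 0]) (M ![0, 0, 1]) ≠ 0 ∧ (∀ a ∈ R, a ≠ 0 → M a 2 ≠ 0) ∧
    (∀ a ∈ R, ∀ b ∈ R, a ≠ 0 → b ≠ 0 → ip (M a) (M b) ≠ 0) ∧
    ∀ a ∈ R, ∀ b ∈ R, ∀ c ∈ R, ∀ d ∈ R, cr a b ≠ 0 → cr c d ≠ 0 →
      ip (cr (M a) (M b)) (cr (M c) (M d)) ≠ 0 := by
  have w : ∀ a b : V3, a ≠ 0 → b ≠ 0 → ∃ M : V3 →ₗ[ℝ] V3, M a 2 * ip (M a) (M b) ≠ 0 := by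
    intro a b ha hb
    obtain ⟨z, h1, h2⟩ := ex_z ha hb
    refine ⟨LinearMap.pi fun _ => z 0 • LinearMap.proj 0 + z 1 • LinearMap.proj 1 +
      z 2 • LinearMap.proj 2, ?_⟩
    have : ip z a * (3 * (ip z a * ip z b)) ≠ 0 := by positivity
    refine fun e => this ?_
    rw [← e]
    simp only [ip, LinearMap.pi_apply, LinearMap.add_apply, LinearMap.smul_apply,
      LinearMap.proj_apply, smul_eq_mul]
    ring
  obtain ⟨M, hM⟩ := generic (V := V3 →ₗ[ℝ] V3) (ι := (V3 →ₗ[ℝ] V3) → ℝ)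
    (insert (fun M => D3 (M ![1, 0, 0]) (M ![0, 1, 0]) (M ![0, 0, 1]))
      ((fun (p : V3 × V3) M => M p.1 2 * ip (M p.1) (M p.2)) '' {p ∈ R ×ˢ R | p.1 ≠ 0 ∧ p.2 ≠ 0} ∪
      (fun (p : (V3 × V3) × V3 × V3) M => ip (cr (M p.1.1) (M p.1.2)) (cr (M p.2.1) (M p.2.2))) ''
        {p ∈ (R ×ˢ R) ×ˢ (R ×ˢ R) | cr p.1.1 p.1.2 ≠ 0 ∧ cr p.2.1 p.2.2 ≠ 0}))
    (((((hR.prod hR).sep _).image _).union ((((hR.prod hR).prod (hR.prod hR)).sep _).image _)).insert _)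
    id (by
      rintro f (rfl | ⟨p, -, rfl⟩ | ⟨p, -, rfl⟩)
      · exact .D3 (PolyF.app _) (PolyF.app _) (PolyF.app _)
      · exact (PolyF.app _ _).mul (.ip (PolyF.app _) (PolyF.app _))
      · exact .ip (PolyF.cr (PolyF.app _) (PolyF.app _)) (PolyF.cr (PolyF.app _) (PolyF.app _))) (by
      rintro f (rfl | ⟨p, ⟨-, h1, h2⟩, rfl⟩ | ⟨⟨⟨a, b⟩, c, d⟩, ⟨-, h1, h2⟩, rfl⟩)
      · exact ⟨LinearMap.id, by simp [D3]⟩
      · exact w _ _ h1 h2
      · obtain ⟨z, h3, h4⟩ := ex_z h1 h2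
        have z0 : z ≠ 0 := by rintro rfl; simp [ip] at h3
        refine ⟨crossProduct z, fun e => mul_ne_zero (ip_self z0) (mul_ne_zero h3 h4) ?_⟩
        rw [← e]
        simp only [id, ip, cr, cross_apply, Matrix.cons_val]; ring)
  refine ⟨M, hM _ (.inl rfl), fun a ha h => ?_, fun a ha b hb h h' => ?_,
    fun a ha b hb c hc d hd h h' => hM _ (.inr (.inr ⟨((a, b), c, d), ⟨⟨⟨ha, hb⟩, hc, hd⟩, h, h'⟩, rfl⟩))⟩
  · exact left_ne_zero_of_mul (hM _ (.inr (.inl ⟨(a, a), ⟨⟨ha, ha⟩, h, h⟩, rfl⟩)))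
  · exact right_ne_zero_of_mul (hM _ (.inr (.inl ⟨(a, b), ⟨⟨ha, hb⟩, h, h'⟩, rfl⟩)))

lemma SRv.map {N B p} (h : SRv N B p) {M : V3 →ₗ[ℝ] V3}
    (hM : D3 (M ![1, 0, 0]) (M ![0, 1, 0]) (M ![0, 0, 1]) ≠ 0) : SRv N B fun a => M (p a) :=
  fun a ha b hb c hc ab ac bc => by rw [← h a ha b hb c hc ab ac bc, D3_map]; simp [hM]

lemma SRv.cr_ne {N B p} (h : SRv N B p) (H : Nice (N, B)) {a b : ℕ} (ha : a < N) (hb : b < N)
    (ab : a ≠ b) : cr (p a) (p b) ≠ 0 := by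
  have := H.1
  obtain ⟨c, hc, ac, bc, h14⟩ : ∃ c < N, a ≠ c ∧ b ≠ c ∧ (a = 14 ∨ b = 14 ∨ c = 14) := by
    by_cases h : a = 14 ∨ b = 14
    · by_cases h' : a = 0 ∨ b = 0
      · exact ⟨1, by omega⟩
      · exact ⟨0, by omega⟩
    · exact ⟨14, by omega⟩
  intro e
  obtain ⟨β, hβ, h1, h2, h3⟩ := (h a ha b hb c hc ab ac bc).1 (by
    rw [show D3 (p a) (p b) (p c) = ip (cr (p a) (p b)) (p c) by
      simp only [D3, ip, cr, Matrix.cons_val]; ring, e]; simp [ip])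
  refine H.2.2.2 β hβ ?_
  rcases h14 with rfl | rfl | rfl <;> assumption

lemma SRv.ne {N B p} (h : SRv N B p) (H : Nice (N, B)) {a : ℕ} (ha : a < N) : p a ≠ 0 := by
  have := H.1
  intro e
  refine h.cr_ne H ha (b := if a = 0 then 1 else 0) (by split_ifs <;> simp only at this <;> omega)
    (by split_ifs <;> omega) ?_
  ext i; fin_cases i <;> simp [e, cr]

/-! lines -/

def On (B : List (List ℕ)) (a b c : ℕ) : Prop := c = a ∨ c = b ∨ Blk B a b c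

def Canon (N : ℕ) (B : List (List ℕ)) (a b : ℕ) : Prop :=
  a < b ∧ b < N ∧ ∀ c < b, On B a b c → c = a

lemma On.blk {B} (h : Lin B) {β a b} (hβ : β ∈ B) (ha : a ∈ β) (hb : b ∈ β) (ab : a ≠ b) (c : ℕ) :
    On B a b c ↔ c ∈ β :=
  ⟨by
    rintro (rfl | rfl | ⟨γ, hγ, h1, h2, h3⟩)
    exacts [ha, hb, h β hβ γ hγ a ha b hb ab h1 h2 ▸ h3], fun hc => .inr (.inr ⟨β, hβ, ha, hb, hc⟩)⟩

lemma On.trans {B} (h : Lin B) {a b c d : ℕ} (ab : a ≠ b) (hc : On B a b c) (hd : On B a b d)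
    (cd : c ≠ d) (e : ℕ) : On B c d e ↔ On B a b e := by
  by_cases hh : ∃ β ∈ B, a ∈ β ∧ b ∈ β
  · obtain ⟨β, hβ, ha, hb⟩ := hh
    rw [On.blk h hβ ha hb ab] at *
    exact On.blk h hβ hc hd cd e
  · have : ∀ c, ¬ Blk B a b c := fun c ⟨β, hβ, h1, h2, _⟩ => hh ⟨β, hβ, h1, h2⟩
    have : ∀ c, ¬ Blk B b a c := fun c h => this c h.s1
    unfold On at *
    grind

lemma On.lt {N B} (H : Nice (N, B)) {a b c : ℕ} (ha : a < N) (hb : b < N) (h : On B a b c) :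
    c < N := by
  rcases h with rfl | rfl | ⟨β, hβ, -, -, h⟩
  exacts [ha, hb, (H.2.2.1 β hβ).2 c h]

lemma canon_ex {N B} (H : Nice (N, B)) {a b : ℕ} (ha : a < N) (hb : b < N) (ab : a ≠ b) :
    ∃ a' b', Canon N B a' b' ∧ ∀ c, On B a' b' c ↔ On B a b c := by
  classical
  have e1 : ∃ c, On B a b c := ⟨a, .inl rfl⟩
  have e2 : ∃ c, On B a b c ∧ c ≠ Nat.find e1 := by
    by_cases h : a = Nat.find e1
    · exact ⟨b, .inr (.inl rfl), by omega⟩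
    · exact ⟨a, .inl rfl, h⟩
  have h1 := Nat.find_spec e1
  have h2 := Nat.find_spec e2
  have t := On.trans H.2.1 ab h1 h2.1 h2.2.symm
  exact ⟨_, _, ⟨lt_of_le_of_ne (Nat.find_min' e1 h2.1) h2.2.symm, h2.1.lt H ha hb, fun c hc h =>
    by_contra fun hh => Nat.find_min e2 hc ⟨(t c).1 h, hh⟩⟩, t⟩

lemma canon_uniq {N B} {a b c d : ℕ} (h : Canon N B a b) (h' : Canon N B c d) (h1 : On B a b c)
    (h2 : On B a b d) (h3 : On B c d a) (h4 : On B c d b) : a = c ∧ b = d := by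
  have := h.1
  have := h'.1
  have := fun e => h.2.2 c e h1
  have := fun e => h.2.2 d e h2
  have := fun e => h'.2.2 a e h3
  have := fun e => h'.2.2 b e h4
  omega

lemma SRv.on {N B p} (h : SRv N B p) {a b c : ℕ} (ha : a < N) (hb : b < N) (hc : c < N)
    (ab : a ≠ b) : On B a b c ↔ D3 (p a) (p b) (p c) = 0 := by
  by_cases ac : c = a
  · exact iff_of_true (.inl ac) (by rw [ac, D3]; ring)
  by_cases bc : c = b
  · exact iff_of_true (.inr (.inl bc)) (by rw [bc, D3]; ring)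
  rw [h a ha b hb c hc ab (Ne.symm ac) (Ne.symm bc), On]
  tauto

@[fun_prop] lemma PP.blk {α : Type} [Enc α] {B : α → List (List ℕ)} {a b c : α → ℕ} (hB : PT B)
    (ha : PT a) (hb : PT b) (hc : PT c) : PP fun x => Blk (B x) (a x) (b x) (c x) := by
  unfold Blk; fun_prop

@[fun_prop] lemma PP.on {α : Type} [Enc α] {B : α → List (List ℕ)} {a b c : α → ℕ} (hB : PT B)
    (ha : PT a) (hb : PT b) (hc : PT c) : PP fun x => On (B x) (a x) (b x) (c x) := by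
  unfold On; fun_prop

@[fun_prop] lemma PP.canon {α : Type} [Enc α] {N : α → ℕ} {B : α → List (List ℕ)} {a b : α → ℕ}
    (hN : PT N) (hB : PT B) (ha : PT a) (hb : PT b) : PP fun x => Canon (N x) (B x) (a x) (b x) :=
  (PP.lt ha hb).and ((PP.lt hb hN).and (PP.ball_lt (PP.imp (by fun_prop) (by fun_prop)) hb))

/-! affine form -/

lemma col_iff (p q r : ℝ × ℝ) : Collinear ℝ {p, q, r} ↔
    D3 ![p.1, p.2, 1] ![q.1, q.2, 1] ![r.1, r.2, 1] = 0 := by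
  rw [collinear_iff_of_mem (p₀ := p) (by simp)]
  simp only [Set.mem_insert_iff, Set.mem_singleton_iff, forall_eq_or_imp, forall_eq]
  simp only [D3, Matrix.cons_val, vadd_eq_add, Prod.ext_iff, Prod.fst_add, Prod.snd_add, Prod.smul_fst,
    Prod.smul_snd, smul_eq_mul]
  constructor
  · rintro ⟨v, -, ⟨s, h1, h2⟩, t, h3, h4⟩
    rw [h1, h2, h3, h4]; ring
  · intro h
    by_cases e : q = p
    · exact ⟨r - p, ⟨0, by simp⟩, ⟨0, by simp [e]⟩, 1, by simp⟩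
    · refine ⟨q - p, ⟨0, by simp⟩, ⟨1, by simp⟩, ?_⟩
      by_cases e1 : q.1 - p.1 = 0
      · have e2 : q.2 - p.2 ≠ 0 := fun e2 => e (Prod.ext (by linarith) (by linarith))
        refine ⟨(r.2 - p.2) / (q.2 - p.2), ?_, by simp [div_mul_cancel₀ _ e2]⟩
        simp only [Prod.fst_sub, e1, mul_zero, zero_add]
        exact mul_left_cancel₀ e2 (by linear_combination -h + (r.2 - p.2) * e1)
      · refine ⟨(r.1 - p.1) / (q.1 - p.1), by simp [div_mul_cancel₀ _ e1], ?_⟩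
        simp only [Prod.snd_sub]
        field_simp
        linear_combination h

def SRa (N : ℕ) (B : List (List ℕ)) (q : ℕ → ℝ × ℝ) : Prop :=
  ∀ a < N, ∀ b < N, ∀ c < N, a ≠ b → a ≠ c → b ≠ c → (Collinear ℝ {q a, q b, q c} ↔ Blk B a b c)

lemma sra_iff {N B} (H : Nice (N, B)) : (∃ p, SRv N B p) ↔ ∃ q, SRa N B q := by
  constructor
  · rintro ⟨p, h⟩
    obtain ⟨M, h1, h2, -⟩ := gen_pos _ ((Set.finite_Iio N).image p)
    have z : ∀ a < N, M (p a) 2 ≠ 0 := fun a ha => h2 _ ⟨a, ha, rfl⟩ (h.ne H ha)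
    refine ⟨fun a => (M (p a) 0 / M (p a) 2, M (p a) 1 / M (p a) 2),
      fun a ha b hb c hc ab ac bc => ?_⟩
    rw [← h.map h1 a ha b hb c hc ab ac bc, col_iff]
    beta_reduce
    have za := z a ha
    have zb := z b hb
    have zc := z c hc
    generalize M (p a) = u at *
    generalize M (p b) = v at *
    generalize M (p c) = w at *
    have : D3 u v w = u 2 * v 2 * w 2 * D3 ![u 0 / u 2, u 1 / u 2, 1] ![v 0 / v 2, v 1 / v 2, 1]
        ![w 0 / w 2, w 1 / w 2, 1] := by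
      simp only [D3, Matrix.cons_val]; field_simp
    simp [this, za, zb, zc]
  · rintro ⟨q, h⟩
    exact ⟨fun a => ![(q a).1, (q a).2, 1], fun a ha b hb c hc ab ac bc => by
      rw [← h a ha b hb c hc ab ac bc, col_iff]⟩

theorem rh_aff : ∃ g : List Bool → ℕ × List (List ℕ), PT g ∧
    ∀ s, Nice (g s) ∧ (s ∈ ETR ↔ ∃ q, SRa (g s).1 (g s).2 q) :=
  let ⟨g, hg, h⟩ := rh_geo
  ⟨g, hg, fun s => ⟨(h s).1, (h s).2.trans (sra_iff (h s).1)⟩⟩

end Pool.Agent.Cx
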