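import Pool.Agent.Lib.helper10.NPPred

/-! Distances that unit linkages can force. -/

namespace Pool.Agent.Cx

open Finset RealInnerProductSpace

section
variable {V : Type} [NormedAddCommGroup V] [InnerProductSpace ℝ V]

def UReal (G : List (ℕ × ℕ)) (p : ℕ → V) : Prop := ∀ e ∈ G, dist (p e.1) (p e.2) = 1

variable (V) in
def Spec (G : List (ℕ × ℕ)) (r : ℝ) : Prop := (∀ p : ℕ → V, UReal G p → dist (p 0) (p 1) = r) ∧
  ∀ a b : V, dist a b = r → ∃ p, p 0 = a ∧ p 1 = b ∧ UReal G p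

variable (V) in
def Con (r : ℝ) : Prop := ∃ G, Spec V G r

def rn (N : ℕ) (u v i a : ℕ) : ℕ := if a = 0 then u else if a = 1 then v else N + Nat.pair i a

def subst {γ : Type} (N : ℕ) (gad : γ → List (ℕ × ℕ)) (W : List (ℕ × ℕ × γ)) : List (ℕ × ℕ) :=
  W.zipIdx.flatMap fun p => (gad p.1.2.2).map fun e =>
    (rn N p.1.1 p.1.2.1 p.2 e.1, rn N p.1.1 p.1.2.1 p.2 e.2)

def WReal {γ : Type} (len : γ → ℝ) (W : List (ℕ × ℕ × γ)) (q : ℕ → V) : Prop :=
  ∀ e ∈ W, dist (q e.1) (q e.2.1) = len e.2.2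

omit [InnerProductSpace ℝ V] in
lemma subst_sound {γ : Type} {N gad len} {W : List (ℕ × ℕ × γ)}
    (h : ∀ e ∈ W, Spec V (gad e.2.2) (len e.2.2)) {p : ℕ → V} (hp : UReal (subst N gad W) p) :
    WReal len W p := fun e he => by
  obtain ⟨i, hi, rfl⟩ := List.getElem_of_mem he
  exact (h _ he).1 (fun a => p (rn N W[i].1 W[i].2.1 i a)) fun f hf => hp _ (List.mem_flatMap.2
    ⟨(W[i], i), List.mem_zipIdx_iff_getElem?.2 (by simp [hi]), List.mem_map_of_mem hf⟩)

omit [InnerProductSpace ℝ V] in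
lemma subst_complete {γ : Type} {N gad len} {W : List (ℕ × ℕ × γ)}
    (h : ∀ e ∈ W, Spec V (gad e.2.2) (len e.2.2)) (hN : ∀ e ∈ W, e.1 < N ∧ e.2.1 < N) {q : ℕ → V}
    (hq : WReal len W q) : ∃ p, (∀ v < N, p v = q v) ∧ UReal (subst N gad W) p := by
  have : ∀ i : ℕ, ∃ f : ℕ → V, ∀ e, W[i]? = some e →
      f 0 = q e.1 ∧ f 1 = q e.2.1 ∧ UReal (gad e.2.2) f := fun i => by
    cases hi : W[i]? with
    | none => exact ⟨q, by simp⟩
    | some e =>
      obtain ⟨f, hf⟩ := (h e (List.mem_of_getElem? hi)).2 _ _ (hq e (List.mem_of_getElem? hi))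
      exact ⟨f, by rintro _ ⟨⟩; exact hf⟩
  choose f hf using this
  refine ⟨fun v => if v < N then q v else f (v - N).unpair.1 (v - N).unpair.2,
    fun v hv => if_pos hv, fun g hg => ?_⟩
  obtain ⟨t, ht, hg⟩ := List.mem_flatMap.1 hg
  obtain ⟨e, he, rfl⟩ := List.mem_map.1 hg
  obtain ⟨h0, h1, h2⟩ := hf _ _ (List.mem_zipIdx_iff_getElem?.1 ht)
  have hN' := hN _ (List.fst_mem_of_mem_zipIdx ht)
  have : ∀ a, (if rn N t.1.1 t.1.2.1 t.2 a < N then q (rn N t.1.1 t.1.2.1 t.2 a) else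
      f (rn N t.1.1 t.1.2.1 t.2 a - N).unpair.1 (rn N t.1.1 t.1.2.1 t.2 a - N).unpair.2) = f t.2 a := by
    intro a
    unfold rn
    by_cases a0 : a = 0
    · simp [a0, hN', h0]
    by_cases a1 : a = 1 <;> simp [a0, a1, hN', h1]
  simp only [this]
  exact h2 e he

lemma move {a b c d : V} (h : dist a b = dist c d) : ∃ f : V → V, Isometry f ∧ f a = c ∧ f b = d := by
  rw [dist_comm, dist_comm c, dist_eq_norm, dist_eq_norm] at h
  refine ⟨fun x => c + (ℝ ∙ (b - a - (d - c)))ᗮ.reflection (x - a),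
    Isometry.of_dist_eq fun x y => by simp, by simp, ?_⟩
  simp only [Submodule.reflection_sub h]; simp

theorem Con.of (W : List (ℕ × ℕ × ℝ)) {r : ℝ} (h : ∀ e ∈ W, Con V e.2.2)
    (hs : ∀ q : ℕ → V, WReal id W q → dist (q 0) (q 1) = r) (hc : ∃ q : ℕ → V, WReal id W q) :
    Con V r := by
  classical
  let gad : ℝ → List (ℕ × ℕ) := fun s => if h : Con V s then h.choose else []
  have hg : ∀ e ∈ W, Spec V (gad e.2.2) (id e.2.2) := fun e he => by
    simp only [gad, h e he, dif_pos]; exact (h e he).choose_spec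
  obtain ⟨N, hN⟩ := (W.finite_toSet.image fun e => e.1 + e.2.1).bddAbove
  refine ⟨subst (N + 2) gad W, fun p hp => hs p (subst_sound hg hp), fun a b hab => ?_⟩
  obtain ⟨q, hq⟩ := hc
  obtain ⟨f, f1, f2, f3⟩ := move ((hs q hq).trans hab.symm)
  obtain ⟨p, p1, p2⟩ := subst_complete (N := N + 2) hg (fun e he => by
    have : e.1 + e.2.1 ≤ N := hN ⟨e, he, rfl⟩
    omega) (q := fun v => f (q v)) fun e he => (f1.dist_eq _ _).trans (hq e he)
  exact ⟨p, (p1 0 (by omega)).trans f2, (p1 1 (by omega)).trans f3, p2⟩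

omit [InnerProductSpace ℝ V] in
lemma con_one : Con V 1 :=
  ⟨[(0, 1)], fun p h => h _ List.mem_cons_self, fun a b h =>
    ⟨fun v => if v = 0 then a else b, rfl, rfl, by simpa [UReal]⟩⟩

lemma Con.mul {r s : ℝ} (hr : Con V r) (hs : Con V s) (s0 : 0 < s) {a b : V} (hab : dist a b = r) :
    Con V (r * s) := by
  obtain ⟨G, g1, g2⟩ := hr
  refine Con.of (G.map fun e => (e.1, e.2, s)) (List.forall_mem_map.2 fun _ _ => hs) (fun q hq => ?_) ?_
  · have := g1 (fun v => s⁻¹ • q v) fun e he => by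
      have := hq _ (List.mem_map_of_mem he)
      simp only [id] at this
      rw [dist_smul₀, this, norm_inv, Real.norm_of_nonneg s0.le, inv_mul_cancel₀ s0.ne']
    rw [dist_smul₀, norm_inv, Real.norm_of_nonneg s0.le, inv_mul_eq_iff_eq_mul₀ s0.ne'] at this
    rw [this, mul_comm]
  · obtain ⟨p, -, -, hp⟩ := g2 a b hab
    refine ⟨fun v => s • p v, fun e he => ?_⟩
    obtain ⟨f, hf, rfl⟩ := List.mem_map.1 he
    simp [dist_smul₀, hp f hf, abs_of_pos s0]

lemma in_dist {x u v : V} {a b c : ℝ} (h1 : dist u x = a) (h2 : dist v x = b) (h3 : dist u v = c) :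
    ⟪u - x, v - x⟫ = (a ^ 2 + b ^ 2 - c ^ 2) / 2 := by
  rw [dist_eq_norm] at *
  have := norm_sub_sq_real (u - x) (v - x)
  rw [sub_sub_sub_cancel_right, h1, h2, h3] at this
  linarith

lemma dist_of_sq {u v : V} {c : ℝ} (hc : 0 ≤ c) (h : ⟪u - v, u - v⟫ = c ^ 2) : dist u v = c := by
  rw [real_inner_self_eq_norm_sq] at h
  rw [dist_eq_norm, ← sq_eq_sq₀ (norm_nonneg _) hc, h]

lemma col {x y z : V} {a b : ℝ} (h1 : dist x y = a) (h2 : dist y z = b) (h3 : dist x z = a + b) :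
    b • (y - x) = a • (z - y) := by
  have := in_dist h1 ((dist_comm _ _).trans h2) h3
  have k1 := in_dist h1 h1 (dist_self x)
  have k2 := in_dist ((dist_comm _ _).trans h2) ((dist_comm _ _).trans h2) (dist_self z)
  rw [← sub_eq_zero, ← inner_self_eq_zero (𝕜 := ℝ), show b • (y - x) - a • (z - y) =
    -(b • (x - y) + a • (z - y)) by module, inner_neg_neg]
  simp only [inner_add_left, inner_add_right, real_inner_smul_left, real_inner_smul_right,
    real_inner_comm (x - y) (z - y), this, k1, k2]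
  ring

lemma Con.dbl {a b : ℝ} (ha : Con V a) (hb : Con V b) (hab : Con V (a + b)) (a0 : 0 < a) (b0 : 0 < b)
    {u : V} (hu : ‖u‖ = 1) : Con V (2 * a) := by
  refine Con.of [(0, 2, a), (2, 3, b), (0, 3, a + b), (3, 4, a), (2, 4, b + a), (2, 1, a), (1, 4, b)]
    (by simp [ha, hb, hab, add_comm b a]) (fun q hq => ?_) ?_
  · simp only [WReal, List.forall_mem_cons, id] at hq
    obtain ⟨h1, h2, h3, h4, h5, h6, h7, -⟩ := hq
    have k1 := col h1 h2 h3
    have k2 := col h2 h4 h5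
    have k3 := col h6 h7 (h5.trans (add_comm _ _))
    have : q 1 - q 0 = (2 : ℝ) • (q 2 - q 0) :=
      smul_right_injective V (mul_pos b0 (add_pos a0 b0)).ne' (by
        linear_combination (norm := module) b • k3 - (a + b) • k1 - a • k2)
    rw [dist_comm, dist_eq_norm, this, norm_smul, ← dist_eq_norm, dist_comm, h1]; simp
  · have : ∀ s t : ℝ, 0 ≤ t - s → dist (s • u) (t • u) = t - s := fun s t h => by
      rw [dist_comm, dist_eq_norm, ← sub_smul, norm_smul, hu, Real.norm_of_nonneg h, mul_one]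
    refine ⟨fun v => ([0, 2 * a, a, a + b, 2 * a + b].getD v 0) • u, ?_⟩
    simp only [WReal, List.forall_mem_cons, id, List.getD_cons_zero, List.getD_cons_succ]
    refine ⟨?_, ?_, ?_, ?_, ?_, ?_, ?_, by simp⟩ <;> rw [this _ _ (by linarith)] <;> ring

variable {d : ℕ} {e : ℕ → V}

def Fac (d : ℕ) (v : ℕ → V) : Prop := ∀ i < d, ∀ j < d, i ≠ j → dist (v i) (v j) = 1
def Apx (d : ℕ) (v : ℕ → V) (x : V) : Prop := ∀ i < d, dist (v i) x = 1

lemma gram {v : ℕ → V} {x : V} (h : Fac d v) (hx : Apx d v x) {i j : ℕ} (hi : i < d) (hj : j < d) :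
    ⟪v i - x, v j - x⟫ = 1 / 2 + if i = j then 1 / 2 else 0 := by
  by_cases e : i = j
  · rw [in_dist (hx i hi) (hx j hj) (by rw [e, dist_self]), if_pos e]; norm_num
  · rw [in_dist (hx i hi) (hx j hj) (h i hi j hj e), if_neg e]; norm_num

lemma gram_sum {v : ℕ → V} {x : V} (h : Fac d v) (hx : Apx d v x) :
    (∀ i < d, ⟪∑ j ∈ range d, (v j - x), v i - x⟫ = (d + 1) / 2) ∧
      ⟪∑ j ∈ range d, (v j - x), ∑ j ∈ range d, (v j - x)⟫ = d * (d + 1) / 2 := by
  have : ∀ i < d, ⟪∑ j ∈ range d, (v j - x), v i - x⟫ = (d + 1) / 2 := fun i hi => by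
    rw [sum_inner, sum_congr rfl fun j hj => gram h hx (mem_range.1 hj) hi]
    simp [sum_add_distrib, hi]; ring
  refine ⟨this, ?_⟩
  rw [inner_sum, sum_congr rfl fun j hj => this j (mem_range.1 hj)]
  simp; ring

noncomputable def hh (d : ℕ) : ℝ := √(2 + 2 / d)

noncomputable def rfl' (d : ℕ) (v : ℕ → V) (x : V) : V := x + (2 / d : ℝ) • ∑ j ∈ range d, (v j - x)

lemma refl_ok (d0 : 0 < d) {v : ℕ → V} {x : V} (h : Fac d v) (hx : Apx d v x) :
    Apx d v (rfl' d v x) ∧ dist x (rfl' d v x) = hh d := by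
  have : (d : ℝ) ≠ 0 := by positivity
  obtain ⟨g1, g2⟩ := gram_sum h hx
  refine ⟨fun i hi => dist_of_sq zero_le_one ?_, dist_of_sq (Real.sqrt_nonneg _) ?_⟩
  · rw [rfl', ← sub_sub]
    simp only [inner_sub_left (v i - x), inner_sub_right _ (v i - x), real_inner_smul_left,
      real_inner_smul_right, gram h hx hi hi, g1 i hi, g2, real_inner_comm (∑ j ∈ range d, _) (v i - x)]
    simp; field_simp; ring
  · rw [rfl', hh, Real.sq_sqrt (by positivity), sub_add_cancel_left, inner_neg_neg,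
      real_inner_smul_left, real_inner_smul_right, g2]
    field_simp

lemma refl_uniq [FiniteDimensional ℝ V] (hd : Module.finrank ℝ V = d) (d0 : 0 < d) {v : ℕ → V}
    {x y : V} (h : Fac d v) (hx : Apx d v x) (hy : Apx d v y) : y = x ∨ y = rfl' d v x := by
  have d1 : (0 : ℝ) < d := by positivity
  obtain ⟨g1, g2⟩ := gram_sum h hx
  have li : LinearIndependent ℝ fun i : Fin d => v i - x := Fintype.linearIndependent_iff.2 fun c hc => by
    have k : ∀ j : Fin d, (∑ i, c i) + c j = 0 := fun j => by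
      have := congrArg (fun z => ⟪z, v j - x⟫) hc
      simp only [sum_inner, real_inner_smul_left, gram h hx (Fin.is_lt _) j.2, inner_zero_left,
        mul_add, sum_add_distrib, ← sum_mul, Fin.val_inj, mul_ite, mul_zero, sum_ite_eq', mem_univ,
        if_true] at this
      linarith
    have k2 := sum_congr (rfl (a := univ)) fun j _ => k j
    simp only [sum_add_distrib, sum_const, card_univ, Fintype.card_fin, nsmul_eq_mul, mul_zero] at k2
    have : ∑ i, c i = 0 := by nlinarith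
    exact fun j => by simpa [this] using k j
  haveI : Nonempty (Fin d) := ⟨⟨0, d0⟩⟩
  let B := basisOfLinearIndependentOfCardEqFinrank li (by simp [hd])
  set t := ⟪y - x, y - x⟫ / (d + 1) with ht
  have z : y - x - t • ∑ j ∈ range d, (v j - x) = 0 := by
    rw [← inner_self_eq_zero (𝕜 := ℝ)]
    nth_rewrite 2 [← B.sum_repr (y - x - _)]
    rw [inner_sum]
    refine sum_eq_zero fun i _ => ?_
    have := in_dist (dist_comm y x) (hx i i.2) ((dist_comm _ _).trans (hy i i.2))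
    rw [real_inner_smul_right, show B i = v i - x by simp [B], inner_sub_left, real_inner_smul_left,
      g1 i i.2, this, ht, real_inner_self_eq_norm_sq, dist_comm, dist_eq_norm]
    field_simp; ring
  rw [sub_eq_zero] at z
  rw [z, real_inner_smul_left, real_inner_smul_right, g2] at ht
  have : t * (t - 2 / d) = 0 := by field_simp at ht ⊢; linarith
  rcases mul_eq_zero.1 this with h | h
  · exact .inl (by simpa [h, sub_eq_zero] using z)
  · exact .inr (by rw [rfl', ← sub_eq_zero.1 h, ← z]; simp)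

def ON (d : ℕ) (e : ℕ → V) : Prop := ∀ i < d, ∀ j < d, ⟪e i, e j⟫ = if i = j then 1 else 0

lemma simplex (he : ON d e) (d0 : 0 < d) : ∃ v : ℕ → V, Fac d v ∧ Apx d v 0 := by
  set μ : ℝ := (√(1 + d) - 1) / d with hμ
  have d1 : (0 : ℝ) < d := by positivity
  have m : 2 * μ + d * μ ^ 2 = 1 := by
    have := Real.sq_sqrt (by positivity : (0 : ℝ) ≤ 1 + d)
    rw [hμ]; field_simp; linarith
  have s1 : ∀ i < d, ⟪∑ j ∈ range d, e j, e i⟫ = 1 := fun i hi => by
    rw [sum_inner, sum_congr rfl fun j hj => he j (mem_range.1 hj) i hi]; simp [hi]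
  have s2 : ⟪∑ j ∈ range d, e j, ∑ j ∈ range d, e j⟫ = d := by
    rw [inner_sum, sum_congr rfl fun j hj => s1 j (mem_range.1 hj)]; simp
  have r2 : (√2)⁻¹ * (√2)⁻¹ = 1 / 2 := by rw [← mul_inv, Real.mul_self_sqrt] <;> norm_num
  refine ⟨fun i => (√2)⁻¹ • (e i + μ • ∑ j ∈ range d, e j), fun i hi j hj ij =>
    dist_of_sq zero_le_one ?_, fun i hi => dist_of_sq zero_le_one ?_⟩
  · rw [← smul_sub, add_sub_add_right_eq_sub, real_inner_smul_left, real_inner_smul_right, ← mul_assoc,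
      r2]
    simp [inner_sub_left, inner_sub_right, he i hi j hj, he j hj i hi, he i hi i hi, he j hj j hj, ij,
      ij.symm, -inner_self_eq_norm_sq_to_K]
    norm_num
  · rw [sub_zero, real_inner_smul_left, real_inner_smul_right, ← mul_assoc, r2]
    simp only [inner_add_left, inner_add_right, real_inner_smul_left, real_inner_smul_right, s1 i hi,
      s2, real_inner_comm (∑ j ∈ range d, e j) (e i), he i hi i hi, if_true]
    linarith

def facE (d : ℕ) (f : ℕ → ℕ) (a b : ℕ) : List (ℕ × ℕ × ℝ) :=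
  (List.range d).flatMap fun i => (f i, a, 1) :: (f i, b, 1) ::
    ((List.range d).filter (i ≠ ·)).map fun j => (f i, f j, 1)

omit [InnerProductSpace ℝ V] in
lemma facE_iff (f a b) (q : ℕ → V) : WReal id (facE d f a b) q ↔
    Fac d (fun i => q (f i)) ∧ Apx d (fun i => q (f i)) (q a) ∧ Apx d (fun i => q (f i)) (q b) := by
  simp only [WReal, facE, List.forall_mem_flatMap, List.forall_mem_cons, List.forall_mem_map,
    List.mem_range, List.mem_filter, id, Fac, Apx, decide_eq_true_eq, and_imp]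
  exact ⟨fun h => ⟨fun i hi => (h i hi).2.2, fun i hi => (h i hi).1, fun i hi => (h i hi).2.1⟩,
    fun h i hi => ⟨h.2.1 i hi, h.2.2 i hi, h.1 i hi⟩⟩

omit [InnerProductSpace ℝ V] in
lemma facE_con (f a b) : ∀ t ∈ facE d f a b, Con V t.2.2 := by
  simp only [facE, List.forall_mem_flatMap, List.forall_mem_cons, List.forall_mem_map]
  exact fun _ _ => ⟨con_one, con_one, fun _ _ => con_one⟩

omit [InnerProductSpace ℝ V] in
lemma wreal_append {γ} {len : γ → ℝ} {W W'} {q : ℕ → V} :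
    WReal len (W ++ W') q ↔ WReal len W q ∧ WReal len W' q := List.forall_mem_append

omit [InnerProductSpace ℝ V] in
lemma wreal_cons {γ} {len : γ → ℝ} {t W} {q : ℕ → V} :
    WReal len (t :: W) q ↔ dist (q t.1) (q t.2.1) = len t.2.2 ∧ WReal len W q := List.forall_mem_cons

lemma hh_gt (d0 : 0 < d) : 1 < hh d := Real.lt_sqrt_of_sq_lt (by
  have : (0 : ℝ) < 2 / d := by positivity
  linarith)

variable [FiniteDimensional ℝ V] (hd : Module.finrank ℝ V = d) (he : ON d e) (d3 : 3 ≤ d)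
include hd he d3

lemma con_hh : Con V (hh d) := by
  have d0 : 0 < d := by omega
  have h1 := hh_gt d0
  refine Con.of ((1, 2, 1) :: (facE d (fun i => 3 + 2 * i) 0 1 ++ facE d (fun i => 4 + 2 * i) 0 2))
    (List.forall_mem_cons.2 ⟨con_one, List.forall_mem_append.2 ⟨facE_con _ _ _, facE_con _ _ _⟩⟩)
    (fun q hq => ?_) ?_
  · obtain ⟨k, hq⟩ := List.forall_mem_cons.1 hq
    obtain ⟨⟨a1, a2, a3⟩, b1, b2, b3⟩ := (wreal_append.1 hq).imp (facE_iff _ _ _ _).1 (facE_iff _ _ _ _).1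
    rcases refl_uniq hd d0 a1 a2 a3 with h | h
    · simp only [id, h] at k
      rcases refl_uniq hd d0 b1 b2 b3 with h' | h'
      · simp [h'] at k
      · rw [h', (refl_ok d0 b1 b2).2] at k; linarith
    · rw [h, (refl_ok d0 a1 a2).2]
  · obtain ⟨v, v1, v2⟩ := simplex he d0
    obtain ⟨v3, v4⟩ := refl_ok d0 v1 v2
    have rh : ∀ y : V, dist 0 y = hh d → ∃ v, Fac d v ∧ Apx d v 0 ∧ Apx d v y := fun y hy => by
      obtain ⟨f, f1, f2, f3⟩ := move (v4.trans hy.symm)
      exact ⟨fun i => f (v i), fun i hi j hj ij => (f1.dist_eq _ _).trans (v1 i hi j hj ij),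
        fun i hi => f2 ▸ (f1.dist_eq _ _).trans (v2 i hi), fun i hi => f3 ▸ (f1.dist_eq _ _).trans (v3 i hi)⟩
    have e00 := he 0 d0 0 d0
    have e11 := he 1 (by omega) 1 (by omega)
    have e01 := he 0 d0 1 (by omega)
    have tip : ∀ s : ℝ, s ^ 2 = 1 / 4 → dist 0 (√(hh d ^ 2 - 1 / 4) • e 0 + s • e 1) = hh d := fun s hs =>
      dist_of_sq (by linarith) (by
        have := Real.mul_self_sqrt (show 0 ≤ hh d ^ 2 - 1 / 4 by nlinarith)
        simp only [zero_sub, inner_neg_neg, inner_add_left, inner_add_right, real_inner_smul_left,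
          real_inner_smul_right, real_inner_comm (e 0) (e 1), e00, e11, e01]
        simp; linarith)
    obtain ⟨f, f1, f2, f3⟩ := rh _ (tip (1 / 2) (by norm_num))
    obtain ⟨g, g1, g2, g3⟩ := rh _ (tip (-1 / 2) (by norm_num))
    refine ⟨fun n => if n = 0 then 0 else if n = 1 then √(hh d ^ 2 - 1 / 4) • e 0 + (1 / 2 : ℝ) • e 1
      else if n = 2 then √(hh d ^ 2 - 1 / 4) • e 0 + (-1 / 2 : ℝ) • e 1 else
      if n % 2 = 1 then f ((n - 3) / 2) else g ((n - 4) / 2), wreal_cons.2 ⟨?_,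
      wreal_append.2 ⟨(facE_iff _ _ _ _).2 ?_, (facE_iff _ _ _ _).2 ?_⟩⟩⟩
    · refine dist_of_sq zero_le_one ?_
      simp only [one_ne_zero, if_false, if_true, OfNat.ofNat_ne_zero, OfNat.ofNat_ne_one,
        add_sub_add_left_eq_sub, ← sub_smul, real_inner_smul_left, real_inner_smul_right, e11]
      norm_num
    · have : ∀ i, ¬ 3 + 2 * i = 0 ∧ ¬ 3 + 2 * i = 1 ∧ ¬ 3 + 2 * i = 2 ∧ (3 + 2 * i) % 2 = 1 ∧
        (3 + 2 * i - 3) / 2 = i := fun i => by omega
      simp only [this, if_false, if_true, one_ne_zero]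
      exact ⟨f1, f2, f3⟩
    · have : ∀ i, ¬ 4 + 2 * i = 0 ∧ ¬ 4 + 2 * i = 1 ∧ ¬ 4 + 2 * i = 2 ∧ ¬ (4 + 2 * i) % 2 = 1 ∧
        (4 + 2 * i - 4) / 2 = i := fun i => by omega
      simp only [this, if_false, if_true, OfNat.ofNat_ne_zero, OfNat.ofNat_ne_one]
      exact ⟨g1, g2, g3⟩

lemma con_rho : Con V (1 + 2 / d) := by
  have d0 : 0 < d := by omega
  have h1 := hh_gt d0
  have c := con_hh hd he d3
  refine Con.of ((0, 3, hh d) :: (2, 1, hh d) :: (facE d (fun i => if i = 0 then 2 else 3 + i) 0 3 ++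
      facE d (fun i => 3 + i) 2 1))
    (List.forall_mem_cons.2 ⟨c, List.forall_mem_cons.2
      ⟨c, List.forall_mem_append.2 ⟨facE_con _ _ _, facE_con _ _ _⟩⟩⟩) (fun q hq => ?_) ?_
  · obtain ⟨k1, hq⟩ := List.forall_mem_cons.1 hq
    obtain ⟨k2, hq⟩ := List.forall_mem_cons.1 hq
    obtain ⟨⟨a1, a2, a3⟩, b1, b2, b3⟩ := (wreal_append.1 hq).imp (facE_iff _ _ _ _).1 (facE_iff _ _ _ _).1
    have r1 := (refl_uniq hd d0 a1 a2 a3).resolve_left fun h => by simp [h] at k1; linarith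
    have r2 := (refl_uniq hd d0 b1 b2 b3).resolve_left fun h => by simp [h] at k2; linarith
    have k3 := b2 0 d0
    obtain ⟨n, rfl⟩ : ∃ n, d = n + 1 := ⟨d - 1, by omega⟩
    simp only [rfl', sum_range_succ', sum_sub_distrib, sum_const, card_range, if_true, add_zero,
      Nat.succ_ne_zero, if_false, ← Nat.cast_smul_eq_nsmul ℝ] at r1 r2 k3
    have n1 : (2 / ((n + 1 : ℕ) : ℝ)) * (n + 1) = 2 := by push_cast; field_simp
    have : q 1 - q 0 = (1 + 2 / ((n + 1 : ℕ) : ℝ)) • (q 3 - q 2) := by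
      linear_combination (norm := module) r2 - r1 + n1 • (q 0 - q 2)
    rw [dist_comm, dist_eq_norm, this, norm_smul, ← dist_eq_norm, k3, mul_one,
      Real.norm_of_nonneg (by positivity)]
  · obtain ⟨v, v1, v2⟩ := simplex he d0
    obtain ⟨v3, v4⟩ := refl_ok d0 v1 v2
    let w : ℕ → V := fun i => if i = 0 then rfl' d v 0 else v i
    have w1 : Fac d w := fun i hi j hj ij => by
      by_cases i0 : i = 0
      · simp [w, i0, show j ≠ 0 by omega, dist_comm, v3 j hj]
      · by_cases j0 : j = 0 <;> simp [w, i0, j0, v3 i hi, v1 i hi j hj ij]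
    have w2 : Apx d w (v 0) := fun i hi => by
      by_cases i0 : i = 0
      · simp [w, i0, dist_comm, v3 0 d0]
      · simp [w, i0, v1 i hi 0 d0 i0]
    obtain ⟨w3, w4⟩ := refl_ok d0 w1 w2
    refine ⟨fun n => if n = 0 then 0 else if n = 1 then rfl' d w (v 0) else if n = 2 then v 0 else
      w (n - 3), wreal_cons.2 ⟨v4, wreal_cons.2 ⟨w4,
      wreal_append.2 ⟨(facE_iff _ _ _ _).2 ?_, (facE_iff _ _ _ _).2 ?_⟩⟩⟩⟩
    · have : (fun i => (fun n => if n = 0 then 0 else if n = 1 then rfl' d w (v 0) else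
          if n = 2 then v 0 else w (n - 3)) (if i = 0 then 2 else 3 + i)) = v := funext fun i => by
        by_cases i0 : i = 0
        · simp [i0]
        · simp [i0, w, show 3 + i ≠ 1 by omega, show 3 + i ≠ 2 by omega]
      rw [this]
      exact ⟨v1, v2, v3⟩
    · have : ∀ i, ¬ 3 + i = 0 ∧ ¬ 3 + i = 1 ∧ ¬ 3 + i = 2 ∧ 3 + i - 3 = i := fun i => by omega
      simp only [this, if_false]
      exact ⟨w1, w2, w3⟩

theorem con_sqrt2 : Con V √2 := by
  have d0 : 0 < d := by omega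
  have h1 := hh_gt d0
  have e00 := he 0 d0 0 d0
  have u : ‖e 0‖ = 1 := by
    rw [← sq_eq_sq₀ (norm_nonneg _) zero_le_one, ← real_inner_self_eq_norm_sq, e00]; simp
  have c := con_hh hd he d3
  have c1 := c.mul c (by linarith) (a := 0) (b := hh d • e 0)
    (by simp [norm_smul, u, abs_of_pos (zero_lt_one.trans h1)])
  rw [hh, Real.mul_self_sqrt (by positivity), show (2 : ℝ) + 2 / d = 1 + (1 + 2 / d) by ring] at c1
  have c2 := Con.dbl con_one (con_rho hd he d3) c1 one_pos (by positivity) u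
  rw [show (2 : ℝ) * 1 = 1 + 1 by norm_num] at c2
  refine Con.of [(2, 0, 1), (0, 3, 1), (2, 3, 1 + 1), (4, 1, 1), (1, 5, 1), (4, 5, 1 + 1),
    (4, 2, 1 + 1), (5, 2, 1 + 1), (4, 3, 1 + 1), (5, 3, 1 + 1)] (by simp [con_one, c2])
    (fun q hq => ?_) ?_
  · simp only [WReal, List.forall_mem_cons, id] at hq
    obtain ⟨h1, h2, h3, h4, h5, h6, h7, h8, h9, h10, -⟩ := hq
    have k1 := col h1 h2 h3
    have k2 := col h4 h5 h6
    rw [dist_comm] at h3
    have i1 := in_dist h3 h3 (dist_self _)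
    have i2 := in_dist h7 h7 (dist_self _)
    have i3 := in_dist h8 h8 (dist_self _)
    have i4 := in_dist h7 h3 h9
    have i5 := in_dist h8 h3 h10
    have i6 := in_dist h7 h8 h6
    refine dist_of_sq (Real.sqrt_nonneg _) ?_
    rw [show q 0 - q 1 = (1 / 2 : ℝ) • ((q 3 - q 2) - (q 4 - q 2) - (q 5 - q 2)) by
      linear_combination (norm := module) (1 / 2 : ℝ) • k1 - (1 / 2 : ℝ) • k2]
    generalize q 3 - q 2 = x at *
    generalize q 4 - q 2 = y at *
    generalize q 5 - q 2 = z at *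
    simp only [real_inner_smul_left, real_inner_smul_right, inner_sub_left, inner_sub_right, i1, i2,
      i3, i4, i5, i6, real_inner_comm y x, real_inner_comm z x, real_inner_comm y z]
    norm_num
  · have key : ∀ a b c a' b' c' r : ℝ, 0 ≤ r → (a - a') ^ 2 + (b - b') ^ 2 + (c - c') ^ 2 * 2 = r ^ 2 →
        dist (a • e 0 + b • e 1 + (c * √2) • e 2) (a' • e 0 + b' • e 1 + (c' * √2) • e 2) = r := by
      intro a b c a' b' c' r r0 h
      refine dist_of_sq r0 ?_
      rw [show a • e 0 + b • e 1 + (c * √2) • e 2 - (a' • e 0 + b' • e 1 + (c' * √2) • e 2) =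
        (a - a') • e 0 + (b - b') • e 1 + ((c - c') * √2) • e 2 by module]
      simp only [inner_add_left, inner_add_right, real_inner_smul_left, real_inner_smul_right,
        he 0 d0 0 d0, he 0 d0 1 (by omega), he 0 d0 2 (by omega), he 1 (by omega) 0 d0,
        he 1 (by omega) 1 (by omega), he 1 (by omega) 2 (by omega), he 2 (by omega) 0 d0,
        he 2 (by omega) 1 (by omega), he 2 (by omega) 2 (by omega)]
      norm_num
      linear_combination h + (c - c') ^ 2 * Real.mul_self_sqrt zero_le_two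
    refine ⟨fun v => ([0, 0, 1, -1, 0, 0].getD v 0 : ℝ) • e 0 + ([0, 0, 0, 0, 1, -1].getD v 0 : ℝ) • e 1 +
      (([0, 1, 0, 0, 1, 1].getD v 0 : ℝ) * √2) • e 2, ?_⟩
    simp only [WReal, List.forall_mem_cons, id, List.getD_cons_zero, List.getD_cons_succ]
    refine ⟨?_, ?_, ?_, ?_, ?_, ?_, ?_, ?_, ?_, ?_, by simp⟩ <;> apply key <;> norm_num

omit he in
lemma no_clique {p : ℕ → V} (h : ∀ i < d + 2, ∀ j < d + 2, i ≠ j → dist (p i) (p j) = 1) : False := by
  have d0 : 0 < d := by omega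
  have a1 : Fac d p := fun i hi j hj => h i (by omega) j (by omega)
  have a2 : Apx d p (p d) := fun i hi => h i (by omega) _ (by omega) (by omega)
  have k := h d (by omega) (d + 1) (by omega) (by omega)
  rcases refl_uniq hd d0 a1 a2 (y := p (d + 1)) fun i hi => h i (by omega) _ (by omega) (by omega)
    with h' | h'
  · simp [h'] at k
  · rw [h', (refl_ok d0 a1 a2).2] at k
    linarith [hh_gt d0]

end

end Pool.Agent.Cx
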