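import Pool.Agent.Lib.helper11.ETRBam
import Pool.Agent.Lib.helper11.ETRGen

/-! Bounded arithmetic with right angles and angles of sixty degrees. -/

namespace Pool.Agent.Cx

def SP (I : List (ℕ × ℕ) × List ℕ) : Prop :=
  ∃ w : ℕ → V3, w 0 = ![1, 0, 0] ∧ w 1 = ![0, 1, 0] ∧ w 2 = ![0, 0, 1] ∧ (∀ v, w v ≠ 0) ∧
    (∀ e ∈ I.1, ip (w e.1) (w e.2) = 0) ∧ ∀ v ∈ I.2, ip (w v) (w v) = 4 * w v 2 ^ 2 ∧ 0 < w v 2

def opE (k : ℕ) (e : Op) : List (ℕ × ℕ) :=
  bif e.1 then [(k, 4), (k, 16), (k + 1, k), (k + 1, 2), (k + 2, 16 * (e.2.2.1 + 1)), (k + 2, k + 1),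
    (k + 3, k + 2), (k + 3, 0), (k + 4, 4), (k + 4, 16 * (e.2.1 + 1)), (k + 5, k + 4), (k + 5, 2),
    (k + 6, k + 3), (k + 6, k + 5), (k + 6, 16 * (e.2.2.2 + 1))]
  else [(k, 16 * (e.2.1 + 1) + 2), (k, 5), (k + 1, 4), (k + 1, 16 * (e.2.2.1 + 1)), (k + 2, k + 1),
    (k + 2, 2), (k + 3, k), (k + 3, k + 2), (k + 3, 16 * (e.2.2.2 + 1))]

def rsp (E : List Op) : List (ℕ × ℕ) × List ℕ :=
  ((4, 0) :: (5, 4) :: (5, 0) :: ((List.range (size E)).flatMap (fun v =>
      [(16 * (v + 1), 1), (16 * (v + 1) + 2, 1), (16 * (v + 1) + 2, 16 * (v + 1) + 1),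
        (16 * (v + 1) + 2, 16 * (v + 1))]) ++
    E.zipIdx.flatMap fun p => opE (16 * (size E + 1 + p.2)) p.1),
  4 :: 16 :: (List.range (size E)).map fun v => 16 * (v + 1) + 1)

lemma rsp_pt : PT rsp := by unfold rsp opE; fun_prop

lemma v3_ne {a : V3} (h : a ≠ 0) (h0 : a 0 = 0) (h1 : a 1 = 0) (h2 : a 2 = 0) : False :=
  h (by ext i; fin_cases i <;> assumption)

/-- direction of a line through `(0, a)` and `(y, 0)` -/
lemma dir1 {m D : V3} {a y : ℝ} (a0 : a ≠ 0) (m0 : m ≠ 0) (D0 : D ≠ 0) (h1 : m 1 * a + m 2 = 0)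
    (h2 : m 0 * y + m 2 = 0) (h3 : ip D m = 0) (h4 : D 2 = 0) : a * D 0 + y * D 1 = 0 ∧ D 1 ≠ 0 := by
  unfold ip at h3
  have : m 0 ≠ 0 := fun e => by
    have : m 2 = 0 := by simpa [e] using h2
    exact v3_ne m0 e (by simpa [this, a0] using h1) this
  have k : a * D 0 + y * D 1 = 0 := mul_left_cancel₀ this
    (by linear_combination a * h3 - D 1 * h1 + D 1 * h2 - a * m 2 * h4)
  exact ⟨k, fun e => v3_ne D0 (by simpa [e, a0] using k) e h4⟩

lemma dir2 {n D : V3} {a y z : ℝ} (a0 : a ≠ 0) (n0 : n ≠ 0) (h : a * D 0 + y * D 1 = 0 ∧ D 1 ≠ 0)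
    (h3 : ip n D = 0) (h4 : D 2 = 0) (h5 : n 0 * z + n 2 = 0) : a * n 1 = y * n 0 ∧ n 0 ≠ 0 := by
  unfold ip at h3
  have k : a * n 1 = y * n 0 := mul_left_cancel₀ h.2
    (by linear_combination a * h3 - n 0 * h.1 - a * n 2 * h4)
  exact ⟨k, fun e => v3_ne n0 e (by simpa [e, a0] using k) (by simpa [e] using h5)⟩

lemma rsp_sound {E : List Op} (h : SP (rsp E)) : AM E := by
  obtain ⟨w, w0, w1, w2, nz, h1, h2⟩ := h
  simp only [rsp, List.forall_mem_cons, List.forall_mem_append, List.forall_mem_flatMap,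
    List.forall_mem_map, List.mem_range] at h1 h2
  obtain ⟨a1, a2, a3, a4, a5⟩ := h1
  obtain ⟨⟨b1, b2⟩, ⟨b3, b4⟩, b5⟩ := h2
  have i0 : ∀ x : V3, ip x (w 0) = x 0 := fun x => by simp [ip, w0]
  have i1 : ∀ x : V3, ip x (w 1) = x 1 := fun x => by simp [ip, w1]
  have i2 : ∀ x : V3, ip x (w 2) = x 2 := fun x => by simp [ip, w2]
  simp only [i0, i1] at a1 a3 a4
  set a := w 4 1 / w 4 2 with ha
  have a0 : a ≠ 0 := div_ne_zero (fun e => by simp only [ip, a1, e] at b1; nlinarith) b2.ne'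
  have pA : ∀ m : V3, ip m (w 4) = 0 → m 1 * a + m 2 = 0 := fun m h => by
    simp only [ip, a1] at h
    rw [ha]; field_simp; linarith
  let X : ℕ → ℝ := fun v => w (16 * (v + 1)) 0 / w (16 * (v + 1)) 2
  have l0 : ∀ v < size E, w (16 * (v + 1) + 2) 0 ≠ 0 := fun v hv e => by
    obtain ⟨-, c2, c3, -⟩ := a4 v hv
    exact v3_ne (nz _) e c2 (by simpa [ip, e, c2, (b5 v hv).2.ne'] using c3)
  have pX : ∀ v < size E, ∀ m : V3, ip m (w (16 * (v + 1))) = 0 → m 0 * X v + m 2 = 0 := by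
    intro v hv m h
    obtain ⟨c1, c2, c3, c4, -⟩ := a4 v hv
    have : w (16 * (v + 1)) 2 ≠ 0 := fun e =>
      v3_ne (nz _) (by simpa [ip, e, c1, l0 v hv] using c4) c1 e
    simp only [ip, c1] at h
    simp only [X]; field_simp; linarith
  have s0 := size_pos E
  have u0 : X 0 ≠ 0 := div_ne_zero (fun e => by
    have := (a4 0 s0).1
    simp only [zero_add, mul_one] at e this
    simp only [ip, e, this] at b3; nlinarith) b4.ne'
  refine ⟨fun v => X v / X 0, div_self u0, fun e he => ?_⟩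
  obtain ⟨i, hi, rfl⟩ := List.getElem_of_mem he
  have k := a5 (E[i], i) (List.mem_zipIdx_iff_getElem?.2 (by simp [hi]))
  obtain ⟨l1, l2, l3⟩ := op_lt he
  unfold Op.ok
  generalize 16 * (size E + 1 + (E[i], i).2) = g at k
  cases hb : E[i].1 <;> simp only [opE, hb, cond_true, cond_false, List.forall_mem_cons, i0, i2] at k
  · obtain ⟨k1, k2, k3, k4, k5, k6, k7, k8, k9, -⟩ := k
    have d1 := dir1 a0 (nz _) (nz _) (pA _ k3) (pX _ l2 _ k4) k5 k6
    have z := pX _ l3 _ k9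
    obtain ⟨d2, d3⟩ := dir2 a0 (nz _) d1 k8 k6 z
    have n1 := pA _ a2
    have n2 : w 5 1 ≠ 0 := fun e => v3_ne (nz _) a3 e (by simpa [e] using n1)
    have x1 := pX _ l1 _ (a4 _ l1).2.2.2.1
    have x2 := (a4 _ l1).2.1
    simp only [ip] at k1 k2 k7
    have B0 : w g 0 = X E[i].2.1 * w g 2 := mul_left_cancel₀ (l0 _ l1)
      (by linear_combination k1 - w g 2 * x1 - w g 1 * x2)
    have B1 : w g 1 = a * w g 2 := mul_left_cancel₀ n2
      (by linear_combination k2 - w g 2 * n1 - w g 0 * a3)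
    have B2 : w g 2 ≠ 0 := fun e => v3_ne (nz g) (by simp [B0, e]) (by simp [B1, e]) e
    simp only [Bool.false_eq_true, if_false, ← add_div]
    congr 1
    refine mul_left_cancel₀ (mul_ne_zero B2 d3) ?_
    rw [B0, B1] at k7
    linear_combination k7 - w g 2 * d2 - w g 2 * z
  · obtain ⟨k1, k2, k3, k4, k5, k6, k7, k8, k9, k10, k11, k12, k13, k14, k15, -⟩ := k
    have d1 := dir1 a0 (nz _) (nz _) (pA _ k1) (pX 0 s0 _ k2) k3 k4
    have y := pX _ l2 _ k5
    obtain ⟨d2, d3⟩ := dir2 a0 (nz _) d1 k6 k4 y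
    have d4 := dir1 a0 (nz _) (nz _) (pA _ k9) (pX _ l1 _ k10) k11 k12
    have z := pX _ l3 _ k15
    obtain ⟨d5, d6⟩ := dir2 a0 (nz _) d4 k14 k12 z
    simp only [ip, k8] at k7 k13
    have Y1 : X 0 * w (g + 3) 1 = a * X E[i].2.2.1 * w (g + 3) 2 := mul_left_cancel₀ d3
      (by linear_combination a * k7 - w (g + 3) 1 * d2 - a * w (g + 3) 2 * y)
    have Y2 : w (g + 3) 2 ≠ 0 := fun e => v3_ne (nz _) k8 (by simpa [e, u0] using Y1) e
    simp only [if_true]
    field_simp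
    refine mul_left_cancel₀ (mul_ne_zero (mul_ne_zero Y2 d6) a0) ?_
    linear_combination a * X 0 * k13 - X 0 * w (g + 3) 1 * d5 - a * X 0 * w (g + 3) 2 * z -
      X E[i].2.1 * w (g + 6) 0 * Y1

noncomputable def gw (x : ℕ → ℝ) (e : Op) (j : ℕ) : V3 :=
  bif e.1 then [![1, 1, -√3], ![1, -1, 0], ![1, 1, -√3 * x e.2.2.1], ![0, √3 * x e.2.2.1, 1],
    ![1, x e.2.1, -√3 * x e.2.1], ![x e.2.1, -1, 0]].getD j ![1, x e.2.1, -√3 * x e.2.2.2]
  else [![√3 * x e.2.1, √3, 1], ![1, x e.2.2.1, -√3 * x e.2.2.1], ![x e.2.2.1, -1, 0]].getD j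
    ![1, x e.2.2.1, -√3 * x e.2.2.2]

lemma rsp_complete {E : List Op} (h : BAM E) : SP (rsp E) := by
  obtain ⟨x, h0, hb, h⟩ := h
  let w : ℕ → V3 := fun m => if m < 16 then
    [![1, 0, 0], ![0, 1, 0], ![0, 0, 1], ![0, 0, 1], ![0, √3, 1]].getD m ![0, 1, -√3]
    else if m < 16 * (size E + 1) then [![√3 * x (m / 16 - 1), 0, 1],
      ![√3 * x (m / 16 - 1), √(3 - 3 * x (m / 16 - 1) ^ 2), 1]].getD (m % 16)
      ![1, 0, -√3 * x (m / 16 - 1)]
    else gw x (E.getD (m / 16 - (size E + 1)) (true, 0, 0, 0)) (m % 16)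
  have r3 : √3 * √3 = 3 := Real.mul_self_sqrt (by norm_num)
  have w1 : ∀ v < size E, w (16 * (v + 1)) = ![√3 * x v, 0, 1] ∧
      w (16 * (v + 1) + 1) = ![√3 * x v, √(3 - 3 * x v ^ 2), 1] ∧
      w (16 * (v + 1) + 2) = ![1, 0, -√3 * x v] := fun v hv => by
    have : ∀ j < 16, w (16 * (v + 1) + j) = [![√3 * x v, 0, 1],
        ![√3 * x v, √(3 - 3 * x v ^ 2), 1]].getD j ![1, 0, -√3 * x v] := fun j hj => by
      simp only [w]
      rw [if_neg (by omega), if_pos (by omega), show (16 * (v + 1) + j) / 16 - 1 = v by omega,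
        show (16 * (v + 1) + j) % 16 = j by omega]
    exact ⟨this 0 (by omega), this 1 (by omega), this 2 (by omega)⟩
  have w2 : ∀ p ∈ E.zipIdx, ∀ j < 16, w (16 * (size E + 1 + p.2) + j) = gw x p.1 j := by
    intro p hp j hj
    have := List.mem_zipIdx_iff_getElem?.1 hp
    simp only [w]
    rw [if_neg (by omega), if_neg (by omega),
      show (16 * (size E + 1 + p.2) + j) / 16 - (size E + 1) = p.2 by omega,
      show (16 * (size E + 1 + p.2) + j) % 16 = j by omega]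
    simp [List.getD_eq_getElem?_getD, this]
  have s0 := size_pos E
  have c0 : w 0 = ![1, 0, 0] := rfl
  have c1 : w 1 = ![0, 1, 0] := rfl
  have c2 : w 2 = ![0, 0, 1] := rfl
  have c4 : w 4 = ![0, √3, 1] := rfl
  have c5 : w 5 = ![0, 1, -√3] := rfl
  have c16 : w 16 = ![√3, 0, 1] := by simpa [h0] using (w1 0 s0).1
  refine ⟨w, rfl, rfl, rfl, fun m => ?_, ?_, ?_⟩
  · simp only [w]
    split_ifs
    · rcases m with _ | _ | _ | _ | _ | m <;> simp
    · rcases m % 16 with _ | _ | m <;> simp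
    · generalize E.getD _ _ = e
      cases hb : e.1
      · rcases m % 16 with _ | _ | _ | m <;> simp [gw, hb]
      · rcases m % 16 with _ | _ | _ | _ | _ | _ | m <;> simp [gw, hb]
  · simp only [rsp, List.forall_mem_cons, List.forall_mem_append, List.forall_mem_flatMap,
      List.mem_range, c0, c1, c4, c5]
    refine ⟨by simp [ip], by simp [ip], by simp [ip], fun v hv => by simp [w1 v hv, ip],
      fun p hp => ?_⟩
    have he := List.fst_mem_of_mem_zipIdx hp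
    obtain ⟨l1, l2, l3⟩ := op_lt he
    have k := h _ he
    have g := w2 p hp
    have g0 := g 0 (by omega)
    rw [add_zero] at g0
    unfold Op.ok at k
    cases hb : p.1.1 <;> simp only [hb, Bool.false_eq_true, if_false, if_true] at k <;>
      simp only [opE, hb, cond_true, cond_false, List.forall_mem_cons, c0, c2, c4, c5, c16, g0, g,
        Nat.reduceLT, w1 _ l1, w1 _ l2, w1 _ l3, gw, List.getD_cons_zero, List.getD_cons_succ,
        List.getD_nil, ip, Matrix.cons_val, ← k, List.not_mem_nil, false_imp_iff, implies_true,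
        and_true] <;> (repeat' constructor) <;> ring
  · simp only [rsp, List.forall_mem_cons, List.forall_mem_map, List.mem_range, c4, c16]
    refine ⟨by simp [ip, r3]; norm_num, by simp [ip, r3]; norm_num, fun v hv => ?_⟩
    have := Real.mul_self_sqrt (show 0 ≤ 3 - 3 * x v ^ 2 by nlinarith [abs_le.1 (hb v)])
    simp only [w1 v hv, ip, Matrix.cons_val, this, one_pos, and_true]
    linear_combination x v ^ 2 * r3

theorem rh_sp : RH ETR SP :=
  let ⟨g, hg, h⟩ := rh_bam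
  ⟨fun s => rsp (g s), rsp_pt.comp hg, fun s =>
    ⟨fun a => rsp_complete ((h s).1 a), fun a => (h s).2 (rsp_sound a)⟩⟩

end Pool.Agent.Cx
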