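import Pool.Agent.Lib.helper11.ETRGeoC
import Pool.Agent.Lib.helper10.NPGraphL

/-! Orthogonal representations of the graph of points, lines and flags. -/

namespace Pool.Agent.Cx

lemma par_iff {u v : V3} (hv : v ≠ 0) : cr u v = 0 ↔ ∃ t : ℝ, u = t • v := by
  constructor
  · intro h
    have h0 := congrFun h 0
    have h1 := congrFun h 1
    have h2 := congrFun h 2
    simp only [cr, Matrix.cons_val, Pi.zero_apply] at h0 h1 h2
    refine ⟨ip u v / ip v v, ?_⟩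
    have := ip_self hv
    ext i
    rw [Pi.smul_apply, smul_eq_mul, div_mul_eq_mul_div, eq_div_iff this]
    fin_cases i <;> simp only [ip, Fin.zero_eta, Fin.mk_one, Fin.reduceFinMk]
    · linear_combination v 1 * h2 - v 2 * h1
    · linear_combination v 2 * h0 - v 0 * h2
    · linear_combination v 0 * h1 - v 1 * h0
  · rintro ⟨t, rfl⟩
    ext i; fin_cases i <;> simp [cr] <;> ring

lemma cr_symm {u v : V3} (h : cr u v = 0) : cr v u = 0 := by
  have : cr v u = - cr u v := by ext i; fin_cases i <;> simp [cr] <;> ring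
  rw [this, h, neg_zero]

lemma par_ip {u v w : V3} (hv : v ≠ 0) (h : cr u v = 0) (e : ip v w = 0) : ip u w = 0 := by
  obtain ⟨t, rfl⟩ := (par_iff hv).1 h
  simp only [ip, Pi.smul_apply, smul_eq_mul] at *
  linear_combination t * e

lemma par_trans {u v w : V3} (hv : v ≠ 0) (h : cr u v = 0) (h' : cr w v = 0) : cr u w = 0 := by
  obtain ⟨t, rfl⟩ := (par_iff hv).1 h
  obtain ⟨s, rfl⟩ := (par_iff hv).1 h'
  ext i; fin_cases i <;> simp [cr] <;> ring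

lemma perp2 {u v w : V3} (h : ip w u = 0) (h' : ip w v = 0) : cr w (cr u v) = 0 := by
  unfold ip at *
  ext i
  fin_cases i <;> simp [cr]
  · linear_combination u 0 * h' - v 0 * h
  · linear_combination u 1 * h' - v 1 * h
  · linear_combination u 2 * h' - v 2 * h

lemma ip_comm (u v : V3) : ip u v = ip v u := by unfold ip; ring
lemma ip_cr (u v w : V3) : ip (cr u v) w = D3 u v w := by
  simp only [D3, ip, cr, Matrix.cons_val]; ring
lemma ip_cr1 (u v : V3) : ip (cr u v) u = 0 := by rw [ip_cr, D3]; ring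
lemma ip_cr2 (u v : V3) : ip (cr u v) v = 0 := by rw [ip_cr, D3]; ring

lemma cr_ne {u v : V3} (hu : u ≠ 0) (hv : v ≠ 0) (h : ip v u = 0) : cr u v ≠ 0 :=
  fun e => ip_self hu (par_ip hv e h)

lemma cr_cr (a b c d : V3) : cr (cr a b) (cr c d) = D3 a b d • c - D3 a b c • d := by
  ext i; fin_cases i <;> simp [cr, D3] <;> ring

abbrev Vx := ℕ × ℕ × ℕ × ℕ

def VOk (N : ℕ) (B : List (List ℕ)) (v : Vx) : Prop :=
  (v.1 = 0 ∧ v.2.2.1 = 0 ∧ v.2.2.2 = 0) ∨ (v.1 = 1 ∧ v.2.1 = 0 ∧ Canon N B v.2.2.1 v.2.2.2) ∨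
    (v.1 = 2 ∧ Canon N B v.2.2.1 v.2.2.2 ∧ On B v.2.2.1 v.2.2.2 v.2.1)

def ERel (B : List (List ℕ)) (u v : Vx) : Prop :=
  (u.1 = 0 ∧ v.1 = 1 ∧ On B v.2.2.1 v.2.2.2 u.2.1) ∨ (u.1 = 2 ∧ v.1 = 0 ∧ u.2.1 = v.2.1) ∨
    (u.1 = 2 ∧ v.1 = 1 ∧ u.2.2 = v.2.2)

open Classical in
noncomputable def vl (p : ℕ × List (List ℕ)) : List Vx :=
  (List.range 3 ×ˢ List.range p.1 ×ˢ List.range p.1 ×ˢ List.range p.1).filter
    fun v => decide (VOk p.1 p.2 v)

open Classical in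
noncomputable def erel (p : ℕ × List (List ℕ)) (u v : Vx) : Bool := decide (ERel p.2 u v)

lemma vl_nodup (p) : (vl p).Nodup :=
  (List.nodup_range.product (List.nodup_range.product
    (List.nodup_range.product List.nodup_range))).filter _

lemma omat_pt : PT fun p => gmat (vl p) (erel p) :=
  PT.gmat (PT.filter (PP.decide (by unfold VOk; fun_prop)) (by fun_prop))
    (PP.decide (by unfold ERel; fun_prop))

lemma mem_vl {N B} (hN : 0 < N) (v : Vx) : v ∈ vl (N, B) ↔ (∃ c < N, v = (0, c, 0, 0)) ∨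
    (∃ a b, Canon N B a b ∧ v = (1, 0, a, b)) ∨
    ∃ c < N, ∃ a b, Canon N B a b ∧ On B a b c ∧ v = (2, c, a, b) := by
  obtain ⟨t, c, a, b⟩ := v
  simp only [vl, List.mem_filter, List.mem_product, List.mem_range, decide_eq_true_eq]
  simp only [VOk, Prod.mk.injEq]
  constructor
  · rintro ⟨⟨-, h, -⟩, ⟨rfl, rfl, rfl⟩ | ⟨rfl, rfl, h'⟩ | ⟨rfl, h1, h2⟩⟩
    exacts [.inl ⟨c, h, by simp⟩, .inr (.inl ⟨a, b, h', by simp⟩),
      .inr (.inr ⟨c, h, a, b, h1, h2, by simp⟩)]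
  · rintro (⟨_, h, rfl, rfl, rfl, rfl⟩ | ⟨_, _, h, rfl, rfl, rfl, rfl⟩ |
      ⟨_, h, _, _, h1, h2, rfl, rfl, rfl, rfl⟩)
    · simp [h, hN]
    · simp [h, hN, h.2.1, h.1.trans h.2.1]
    · simp [h, h1, h2, h1.2.1, h1.1.trans h1.2.1]

def ORep {V : Type} (G : SimpleGraph V) : Prop :=
  ∃ φ : V → V3, (∀ v, φ v ≠ 0) ∧ (∀ u v, u ≠ v → cr (φ u) (φ v) ≠ 0) ∧
    ∀ u v, G.Adj u v → ip (φ u) (φ v) = 0

/-- every vertex lies in a triangle and triangles connect the graph -/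
def TriC {V : Type} (G : SimpleGraph V) : Prop :=
  Nonempty V ∧ (∀ u, ∃ v w, G.Adj u v ∧ G.Adj u w ∧ G.Adj v w) ∧
    ∀ (X : Type) (f : V → X), (∀ u v w, G.Adj u v → G.Adj u w → G.Adj v w → f u = f v) →
      ∀ u v, f u = f v

lemma ORep.iso {V W : Type} {G : SimpleGraph V} {G' : SimpleGraph W} (e : G ≃g G') (h : ORep G') :
    ORep G :=
  let ⟨φ, h1, h2, h3⟩ := h
  ⟨fun v => φ (e v), fun _ => h1 _, fun _ _ h => h2 _ _ (e.injective.ne h),
    fun _ _ h => h3 _ _ (e.map_adj_iff.2 h)⟩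

lemma TriC.iso {V W : Type} {G : SimpleGraph V} {G' : SimpleGraph W} (e : G ≃g G') (h : TriC G') :
    TriC G := by
  obtain ⟨⟨a⟩, h2, h3⟩ := h
  refine ⟨⟨e.symm a⟩, fun u => ?_, fun X f hf u v => ?_⟩
  · obtain ⟨v, w, h⟩ := h2 (e u)
    exact ⟨e.symm v, e.symm w, by simpa [← e.map_adj_iff] using h⟩
  · simpa using h3 X (fun a => f (e.symm a)) (fun u v w a b c => hf _ _ (e.symm w)
      (e.symm.map_adj_iff.2 a) (e.symm.map_adj_iff.2 b) (e.symm.map_adj_iff.2 c)) (e u) (e v)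

section
variable {N : ℕ} {B : List (List ℕ)} (H : Nice (N, B))
include H

omit H in
lemma tri_flag {c a b : ℕ} (hc : c < N) (h : Canon N B a b) (h' : On B a b c) :
    ∃ u v w : {x // x ∈ vl (N, B)}, u.1 = (0, c, 0, 0) ∧ v.1 = (1, 0, a, b) ∧ w.1 = (2, c, a, b) ∧
      (listGraph _ (erel (N, B))).Adj u v ∧ (listGraph _ (erel (N, B))).Adj u w ∧
      (listGraph _ (erel (N, B))).Adj v w :=
  ⟨⟨_, (mem_vl (by omega) _).2 (.inl ⟨c, hc, rfl⟩)⟩, ⟨_, (mem_vl (by omega) _).2 (.inr (.inl ⟨a, b, h, rfl⟩))⟩,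
    ⟨_, (mem_vl (by omega) _).2 (.inr (.inr ⟨c, hc, a, b, h, h', rfl⟩))⟩, rfl, rfl, rfl,
    by simp [listGraph_adj, erel, ERel, h'], by simp [listGraph_adj, erel, ERel],
    by simp [listGraph_adj, erel, ERel]⟩

lemma tric : TriC (listGraph (vl (N, B)) (erel (N, B))) := by
  have hN : 15 < N := H.1
  have l : ∀ c < N, ∃ a b, Canon N B a b ∧ On B a b c ∧ On B a b 0 := fun c hc => by
    obtain ⟨a, b, h, h'⟩ := canon_ex H (a := 0) (b := if c = 0 then 1 else c) (by omega)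
      (by split_ifs <;> omega) (by split_ifs <;> omega)
    exact ⟨a, b, h, (h' _).2 (by unfold On; split_ifs <;> simp [*]), (h' _).2 (.inl rfl)⟩
  refine ⟨⟨⟨_, (mem_vl (by omega) _).2 (.inl ⟨0, by omega, rfl⟩)⟩⟩, fun x => ?_, fun X f hf => ?_⟩
  · rcases (mem_vl (by omega) _).1 x.2 with ⟨c, hc, e⟩ | ⟨a, b, h, e⟩ | ⟨c, hc, a, b, h, h', e⟩
    · obtain ⟨a, b, h, h', -⟩ := l c hc
      obtain ⟨u, v, w, e1, -, -, k⟩ := tri_flag hc h h'
      exact ⟨v, w, by rwa [show x = u from Subtype.ext (e.trans e1.symm)]⟩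
    · obtain ⟨u, v, w, -, e1, -, k⟩ := tri_flag (h.1.trans h.2.1) h (.inl rfl)
      rw [show x = v from Subtype.ext (e.trans e1.symm)]
      exact ⟨u, w, k.1.symm, k.2.2, k.2.1⟩
    · obtain ⟨u, v, w, -, -, e1, k⟩ := tri_flag hc h h'
      rw [show x = w from Subtype.ext (e.trans e1.symm)]
      exact ⟨u, v, k.2.1.symm, k.2.2.symm, k.1⟩
  · let o : {x // x ∈ vl (N, B)} := ⟨_, (mem_vl (by omega) _).2 (.inl ⟨0, by omega, rfl⟩)⟩
    have p1 : ∀ c < N, ∀ x : {x // x ∈ vl (N, B)}, x.1 = (0, c, 0, 0) → f x = f o := by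
      intro c hc x e
      obtain ⟨a, b, h, h1, h2⟩ := l c hc
      obtain ⟨u, v, w, e1, e2, -, k⟩ := tri_flag hc h h1
      obtain ⟨u', v', w', e1', e2', -, k'⟩ := tri_flag (by omega) h h2
      rw [show x = u from Subtype.ext (e.trans e1.symm), show o = u' from Subtype.ext e1'.symm,
        hf u v w k.1 k.2.1 k.2.2, hf u' v' w' k'.1 k'.2.1 k'.2.2,
        show v = v' from Subtype.ext (e2.trans e2'.symm)]
    suffices ∀ x, f x = f o from fun u v => (this u).trans (this v).symm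
    intro x
    rcases (mem_vl (by omega) _).1 x.2 with ⟨c, hc, e⟩ | ⟨a, b, h, e⟩ | ⟨c, hc, a, b, h, h', e⟩
    · exact p1 c hc x e
    · obtain ⟨u, v, w, e0, e1, -, k⟩ := tri_flag (h.1.trans h.2.1) h (.inl rfl)
      rw [show x = v from Subtype.ext (e.trans e1.symm), ← hf u v w k.1 k.2.1 k.2.2]
      exact p1 _ (h.1.trans h.2.1) u e0
    · obtain ⟨u, v, w, e0, -, e1, k⟩ := tri_flag hc h h'
      rw [show x = w from Subtype.ext (e.trans e1.symm), ← hf u w v k.2.1 k.1 k.2.2.symm]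
      exact p1 _ hc u e0

lemma orep_sound (h : ORep (listGraph (vl (N, B)) (erel (N, B)))) : ∃ p, SRv N B p := by
  classical
  have hN : 15 < N := H.1
  obtain ⟨φ, h1, h2, h3⟩ := h
  let ψ : Vx → V3 := fun v => if h : v ∈ vl (N, B) then φ ⟨v, h⟩ else 0
  have hψ : ∀ v : {x // x ∈ vl (N, B)}, φ v = ψ v.1 := fun v => by simp [ψ, v.2]
  have pp : ∀ a < N, ∀ b < N, a ≠ b → cr (ψ (0, a, 0, 0)) (ψ (0, b, 0, 0)) ≠ 0 :=
    fun a ha b hb ab => by
      simpa only [hψ] using h2 ⟨_, (mem_vl (by omega) _).2 (.inl ⟨a, ha, rfl⟩)⟩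
        ⟨_, (mem_vl (by omega) _).2 (.inl ⟨b, hb, rfl⟩)⟩ (by simp [ab])
  have pl : ∀ a b, Canon N B a b → ψ (1, 0, a, b) ≠ 0 ∧ ∀ c < N, On B a b c →
      ip (ψ (1, 0, a, b)) (ψ (0, c, 0, 0)) = 0 := fun a b h =>
    ⟨by simpa only [hψ] using h1 ⟨_, (mem_vl (by omega) _).2 (.inr (.inl ⟨a, b, h, rfl⟩))⟩,
      fun c hc h' => by
        obtain ⟨u, v, w, e1, e2, -, k, -⟩ := tri_flag hc h h'
        simpa only [hψ, e1, e2] using h3 v u k.symm⟩
  refine ⟨fun c => ψ (0, c, 0, 0), fun a ha b hb c hc ab ac bc => ?_⟩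
  obtain ⟨a1, b1, k1, l1⟩ := canon_ex H ha hb ab
  have e1 := perp2 ((pl _ _ k1).2 a ha ((l1 a).2 (.inl rfl))) ((pl _ _ k1).2 b hb ((l1 b).2 (.inr (.inl rfl))))
  constructor
  · intro e
    by_contra hh
    obtain ⟨a2, b2, k2, l2⟩ := canon_ex H ha hc ac
    have e2 := perp2 ((pl _ _ k2).2 a ha ((l2 a).2 (.inl rfl)))
      ((pl _ _ k2).2 c hc ((l2 c).2 (.inr (.inl rfl))))
    have e3 : cr (cr (ψ (0, a, 0, 0)) (ψ (0, c, 0, 0))) (cr (ψ (0, a, 0, 0)) (ψ (0, b, 0, 0))) = 0 :=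
      perp2 (ip_cr1 _ _) (by rw [ip_cr]; simp only [D3] at *; linear_combination -e)
    refine h2 ⟨_, (mem_vl (by omega) _).2 (.inr (.inl ⟨a1, b1, k1, rfl⟩))⟩
      ⟨_, (mem_vl (by omega) _).2 (.inr (.inl ⟨a2, b2, k2, rfl⟩))⟩ (fun e => ?_) ?_
    · simp only [Subtype.mk.injEq, Prod.mk.injEq, true_and] at e
      obtain ⟨rfl, rfl⟩ := e
      exact hh ((((l1 c).1 ((l2 c).2 (.inr (.inl rfl)))).resolve_left ac.symm).resolve_left bc.symm)
    · simp only [hψ]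
      exact par_trans (pp a ha c hc ac) (par_trans (pp a ha b hb ab) e1 e3) e2
  · intro e
    rw [← ip_cr]
    exact par_ip (pl _ _ k1).1 (cr_symm e1) ((pl _ _ k1).2 c hc ((l1 c).2 (.inr (.inr e))))

lemma orep_complete {p : ℕ → V3} (h : SRv N B p) : ORep (listGraph (vl (N, B)) (erel (N, B))) := by
  have hN : 15 < N := H.1
  have f := Set.finite_Iio N
  obtain ⟨M, m1, -, m2, m3⟩ := gen_pos _ ((f.image p).union (((f.prod f).prod (f.prod f)).image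
    fun t => cr (cr (p t.1.1) (p t.1.2)) (cr (p t.2.1) (p t.2.2))))
  have hP := h.map m1
  set P := fun a => M (p a) with hP'
  have P0 : ∀ a < N, P a ≠ 0 := fun a ha => hP.ne H ha
  have pp : ∀ a < N, ∀ b < N, ip (P a) (P b) ≠ 0 := fun a ha b hb =>
    m2 _ (.inl ⟨a, ha, rfl⟩) _ (.inl ⟨b, hb, rfl⟩) (h.ne H ha) (h.ne H hb)
  have L0 : ∀ {a b}, Canon N B a b → cr (P a) (P b) ≠ 0 := fun k =>
    hP.cr_ne H (k.1.trans k.2.1) k.2.1 k.1.ne
  have ll : ∀ {a b c d}, Canon N B a b → Canon N B c d → ip (cr (P a) (P b)) (cr (P c) (P d)) ≠ 0 :=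
    fun k k' => m3 _ (.inl ⟨_, k.1.trans k.2.1, rfl⟩) _ (.inl ⟨_, k.2.1, rfl⟩) _
      (.inl ⟨_, k'.1.trans k'.2.1, rfl⟩) _ (.inl ⟨_, k'.2.1, rfl⟩)
      (h.cr_ne H (k.1.trans k.2.1) k.2.1 k.1.ne) (h.cr_ne H (k'.1.trans k'.2.1) k'.2.1 k'.1.ne)
  have on : ∀ {q a b c}, SRv N B q → Canon N B a b → c < N →
      (On B a b c ↔ ip (cr (q a) (q b)) (q c) = 0) := fun hq k hc => by
    rw [ip_cr, hq.on (k.1.trans k.2.1) k.2.1 hc k.1.ne]
  have ld : ∀ {q a b c d}, SRv N B q → Canon N B a b → Canon N B c d →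
      cr (cr (q a) (q b)) (cr (q c) (q d)) = 0 → a = c ∧ b = d := fun hq k k' e =>
    have n1 := hq.cr_ne H (k.1.trans k.2.1) k.2.1 k.1.ne
    have n2 := hq.cr_ne H (k'.1.trans k'.2.1) k'.2.1 k'.1.ne
    canon_uniq k k' ((on hq k (k'.1.trans k'.2.1)).2 (par_ip n2 e (ip_cr1 _ _)))
      ((on hq k k'.2.1).2 (par_ip n2 e (ip_cr2 _ _)))
      ((on hq k' (k.1.trans k.2.1)).2 (par_ip n1 (cr_symm e) (ip_cr1 _ _)))
      ((on hq k' k.2.1).2 (par_ip n1 (cr_symm e) (ip_cr2 _ _)))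
  have F0 : ∀ {c a b}, c < N → Canon N B a b → On B a b c → cr (P c) (cr (P a) (P b)) ≠ 0 :=
    fun hc k k' => cr_ne (P0 _ hc) (L0 k) ((on hP k hc).1 k')
  let ψ : Vx → V3 := fun v => if v.1 = 0 then P v.2.1 else if v.1 = 1 then cr (P v.2.2.1) (P v.2.2.2)
    else cr (P v.2.1) (cr (P v.2.2.1) (P v.2.2.2))
  have pl : ∀ {c a b}, c < N → Canon N B a b → cr (P c) (cr (P a) (P b)) = 0 → False :=
    fun hc k e => pp _ hc _ k.2.1 (par_ip (L0 k) e (ip_cr2 _ _))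
  have pf : ∀ {d c a b}, d < N → c < N → Canon N B a b → On B a b c →
      cr (P d) (cr (P c) (cr (P a) (P b))) = 0 → False :=
    fun hd hc k k' e => pp _ hd _ hc (par_ip (F0 hc k k') e (ip_cr1 _ _))
  have lf : ∀ {d e c a b}, Canon N B d e → c < N → Canon N B a b → On B a b c →
      cr (cr (P d) (P e)) (cr (P c) (cr (P a) (P b))) = 0 → False :=
    fun hd hc k k' e => ll hd k (par_ip (F0 hc k k') e (ip_cr2 _ _))
  refine ⟨fun v => ψ v.1, fun x => ?_, fun x y xy e => ?_, fun x y xy => ?_⟩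
  · rcases (mem_vl (by omega) _).1 x.2 with ⟨c, hc, e⟩ | ⟨a, b, k, e⟩ | ⟨c, hc, a, b, k, k', e⟩ <;>
      simp only [ψ, e]
    exacts [P0 c hc, L0 k, F0 hc k k']
  · have xy' : x.1 ≠ y.1 := fun e => xy (Subtype.ext e)
    rcases (mem_vl (by omega) _).1 x.2 with ⟨c, hc, e1⟩ | ⟨a, b, k, e1⟩ | ⟨c, hc, a, b, k, l, e1⟩ <;>
      rcases (mem_vl (by omega) _).1 y.2 with ⟨c', hc', e2⟩ | ⟨a', b', k', e2⟩ |
        ⟨c', hc', a', b', k', l', e2⟩ <;>
      simp only [ψ, e1, e2, if_true, if_false, one_ne_zero, OfNat.ofNat_ne_zero, OfNat.ofNat_ne_one,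
        ne_eq, Prod.mk.injEq, true_and, and_true] at e xy'
    · exact hP.cr_ne H hc hc' xy' e
    · exact pl hc k' e
    · exact pf hc hc' k' l' e
    · exact pl hc' k (cr_symm e)
    · exact xy' (ld hP k k' e)
    · exact lf k hc' k' l' e
    · exact pf hc' hc k l (cr_symm e)
    · exact lf k' hc k l (cr_symm e)
    · have g1 := par_ip (F0 hc' k' l') e (ip_cr1 _ _)
      have g2 := par_ip (F0 hc' k' l') e (ip_cr2 _ _)
      by_cases hl : a = a' ∧ b = b'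
      · obtain ⟨rfl, rfl⟩ := hl
        have cc : c ≠ c' := fun e => xy' ⟨e, rfl, rfl⟩
        exact lf k hc k l (par_trans (hP.cr_ne H hc hc' cc)
          (perp2 ((on hP k hc).1 l) ((on hP k hc').1 l')) (perp2 (ip_cr1 _ _) g1))
      · have n1 : cr (cr (P a) (P b)) (cr (P a') (P b')) ≠ 0 := fun e => hl (ld hP k k' e)
        have g3 := par_ip (F0 hc k l) (cr_symm (perp2 (ip_cr2 _ _) g2)) (ip_cr1 _ _)
        refine mul_ne_zero m1 (m2 _ (.inr ⟨((a, b), a', b'), ⟨⟨k.1.trans k.2.1, k.2.1⟩,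
          k'.1.trans k'.2.1, k'.2.1⟩, rfl⟩) _ (.inl ⟨c, hc, rfl⟩) (fun e => hl (ld h k k' e))
          (h.ne H hc)) ?_
        refine Eq.trans ?_ g3
        beta_reduce
        rw [cr_cr, cr_cr, D3_map M (p a) (p b) (p a'), D3_map M (p a) (p b) (p b'), map_sub, map_smul,
          map_smul]
        simp only [hP', ip, Pi.sub_apply, Pi.smul_apply, smul_eq_mul]
        ring
  · suffices ∀ x y : {x // x ∈ vl (N, B)}, ERel B x.1 y.1 → ip (ψ x.1) (ψ y.1) = 0 by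
      rcases ((listGraph_adj _ _ _ _).1 xy).2 with h | h
      · exact this x y (by simpa [erel] using h)
      · rw [ip_comm]; exact this y x (by simpa [erel] using h)
    intro x y xy
    rcases (mem_vl (by omega) _).1 x.2 with ⟨c, hc, e1⟩ | ⟨a, b, k, e1⟩ | ⟨c, hc, a, b, k, l, e1⟩ <;>
      rcases (mem_vl (by omega) _).1 y.2 with ⟨c', hc', e2⟩ | ⟨a', b', k', e2⟩ |
        ⟨c', hc', a', b', k', l', e2⟩ <;>
      simp [ψ, e1, e2, ERel] at xy ⊢
    · rw [ip_comm]; exact (on hP k' hc).1 xy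
    · rw [← xy]; exact ip_cr1 _ _
    · rw [← xy.1, ← xy.2]; exact ip_cr2 _ _

end

theorem rh_orth : ∃ g : List Bool → List (List Bool), PT g ∧
    ∀ s, IsGraph (g s) ∧ TriC (graphOf (g s)) ∧ (s ∈ ETR ↔ ORep (graphOf (g s))) := by
  obtain ⟨g, hg, h⟩ := rh_geo
  refine ⟨fun s => gmat (vl (g s)) (erel (g s)), omat_pt.comp hg, fun s => ?_⟩
  have e := gmatIso (vl (g s)) (erel (g s)) (vl_nodup _)
  exact ⟨isGraph_gmat _ _, (tric (h s).1).iso e, (h s).2.trans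
    ⟨fun ⟨p, hp⟩ => (orep_complete (h s).1 hp).iso e, fun k => orep_sound (h s).1 (k.iso e.symm)⟩⟩

end Pool.Agent.Cx
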