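import Pool.Agent.Lib.helper11.ETRBase

/-! One quartic polynomial for a system of equations `a * b + c = d`. -/

namespace Pool.Agent.Cx

def c1 : Bool × List Bool := (false, [true])
def cm1 : Bool × List Bool := (true, [true])
def c2 : Bool × List Bool := (false, [false, true])
def cm2 : Bool × List Bool := (true, [false, true])

@[simp] lemma iv1 : intVal c1 = 1 := rfl
@[simp] lemma ivm1 : intVal cm1 = -1 := rfl
@[simp] lemma iv2 : intVal c2 = 2 := rfl
@[simp] lemma ivm2 : intVal cm2 = -2 := rfl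

@[simp] lemma Poly.ev_nil (x : ℕ → ℝ) : Poly.ev [] x = 0 := rfl
@[simp] lemma Poly.ev_cons (t : (Bool × List Bool) × List ℕ) (p : Poly) (x : ℕ → ℝ) :
    Poly.ev (t :: p) x = intVal t.1 * (t.2.map x).prod + p.ev x := by simp [Poly.ev]
@[simp] lemma Poly.ev_append (p q : Poly) (x : ℕ → ℝ) : Poly.ev (p ++ q) x = p.ev x + q.ev x := by
  simp [Poly.ev]

lemma Poly.ev_congr {p : Poly} {n : ℕ} (h : p.In n) {x y : ℕ → ℝ} (e : ∀ i < n, x i = y i) :
    p.ev x = p.ev y := by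
  unfold Poly.ev
  congr 1
  refine List.map_congr_left fun t ht => ?_
  rw [List.map_congr_left fun i hi => e i (h t ht i hi)]

lemma Poly.In.mono {p : Poly} {n m : ℕ} (h : p.In n) (hm : n ≤ m) : p.In m :=
  fun t ht i hi => (h t ht i hi).trans_le hm

def sqE (e : Eqn ℕ) : Poly :=
  [(c1, [e.1, e.1, e.2.1, e.2.1]), (c1, [e.2.2.1, e.2.2.1]), (c1, [e.2.2.2, e.2.2.2]),
    (c2, [e.1, e.2.1, e.2.2.1]), (cm2, [e.1, e.2.1, e.2.2.2]), (cm2, [e.2.2.1, e.2.2.2])]

def quart (E : List (Eqn ℕ)) : Poly :=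
  (c1, [0, 0]) :: (c1, [1, 1]) :: (cm2, [1]) :: (c1, []) :: E.flatMap sqE

@[fun_prop] lemma PT.quart {α : Type} [Enc α] {E : α → List (Eqn ℕ)} (h : PT E) :
    PT fun a => quart (E a) := by unfold Cx.quart sqE; fun_prop

lemma sq_ev (E : List (Eqn ℕ)) (x : ℕ → ℝ) : 0 ≤ Poly.ev (E.flatMap sqE) x ∧
    (Poly.ev (E.flatMap sqE) x = 0 ↔ ∀ e ∈ E, e.ok x) := by
  induction E with
  | nil => simp
  | cons e E ih =>
    have : (sqE e).ev x = (x e.1 * x e.2.1 + x e.2.2.1 - x e.2.2.2) ^ 2 := by simp [sqE]; ring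
    rw [List.flatMap_cons, Poly.ev_append, this, List.forall_mem_cons, ← ih.2,
      add_eq_zero_iff_of_nonneg (sq_nonneg _) ih.1]
    exact ⟨add_nonneg (sq_nonneg _) ih.1, by simp [Eqn.ok, sub_eq_zero]⟩

lemma quart_ev (E : List (Eqn ℕ)) (x : ℕ → ℝ) : 0 ≤ (quart E).ev x ∧
    ((quart E).ev x = 0 ↔ x 0 = 0 ∧ x 1 = 1 ∧ ∀ e ∈ E, e.ok x) := by
  have : (quart E).ev x = x 0 ^ 2 + ((x 1 - 1) ^ 2 + Poly.ev (E.flatMap sqE) x) := by
    simp [quart]; ring
  have h := sq_ev E x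
  rw [this, add_eq_zero_iff_of_nonneg (sq_nonneg _) (add_nonneg (sq_nonneg _) h.1),
    add_eq_zero_iff_of_nonneg (sq_nonneg _) h.1, h.2]
  exact ⟨by have := h.1; positivity, by simp [sub_eq_zero]⟩

lemma eqn_lt {E : List (Eqn ℕ)} {e : Eqn ℕ} (h : e ∈ E) :
    e.1 < size E ∧ e.2.1 < size E ∧ e.2.2.1 < size E ∧ e.2.2.2 < size E := by
  have := size_lt_of_mem h
  obtain ⟨a, b, c, d⟩ := e
  simp only [size_pair, size_nat] at this
  simp only; omega

lemma quart_in (E : List (Eqn ℕ)) : (quart E).In (size E + 2) := by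
  intro t ht i hi
  simp only [quart, List.mem_cons, List.mem_flatMap] at ht
  rcases ht with rfl | rfl | rfl | rfl | ⟨e, he, ht⟩
  any_goals simp at hi <;> omega
  have := eqn_lt he
  simp only [sqE, List.mem_cons, List.not_mem_nil, or_false] at ht
  rcases ht with rfl | rfl | rfl | rfl | rfl | rfl <;> simp at hi <;> omega

end Pool.Agent.Cx
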