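import Pool.Agent.Lib.helper11.ETRRankDef
import Pool.Agent.Lib.helper11.ETRPoly

namespace Pool.Agent.Cx

open Matrix

def e0 : Ent := (false, 0, (false, []), [])
def e1 : Ent := (false, 0, (false, [true]), [])
def ev (v : ℕ) : Ent := if v = 0 then e0 else if v = 1 then e1 else (true, v, (false, []), [])

@[simp] lemma e0_ev (x : ℕ → ℝ) : e0.ev x = 0 := by simp [e0, Ent.ev, intVal, bin]
@[simp] lemma e1_ev (x : ℕ → ℝ) : e1.ev x = 1 := by simp [e1, Ent.ev, intVal, bin]

def fix (x : ℕ → ℝ) (v : ℕ) : ℝ := if v = 0 then 0 else if v = 1 then 1 else x v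

@[simp] lemma ev_ev (x : ℕ → ℝ) (v : ℕ) : (ev v).ev x = fix x v := by
  unfold ev fix; split_ifs
  exacts [e0_ev x, e1_ev x, rfl]

def gE (E : List (Eqn ℕ)) (i : ℕ) : Eqn ℕ := E.getD i (0, 0, 0, 0)

def ent (r : ℕ) (E : List (Eqn ℕ)) (i j : ℕ) : Ent :=
  if i < r then (if j < r then (if i = j then e1 else e0) else
    if i = 0 then ev (gE E (j - r)).2.1 else if i = 1 then ev (gE E (j - r)).2.2.1 else e0)
  else if j < r then (if j = 0 then ev (gE E (i - r)).1 else if j = 1 then e1 else e0)
  else if i = j then ev (gE E (i - r)).2.2.2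
  else ev (size E + 2 + (i - r) * E.length + (j - r))

def rmat (r : ℕ) (E : List (Eqn ℕ)) : List (List Ent) :=
  (List.range (r + E.length)).map fun i => (List.range (r + E.length)).map fun j => ent r E i j

lemma rmat_pt (r : ℕ) : PT (rmat r) := by unfold rmat ent ev gE; fun_prop

lemma rmat_sq (r : ℕ) (E : List (Eqn ℕ)) : Square (rmat r E) := by simp [Square, rmat]

lemma rankAt_rmat (r : ℕ) (E : List (Eqn ℕ)) (x : ℕ → ℝ) : rankAt (rmat r E) x =
    (Matrix.of fun i j : Fin (r + E.length) => (ent r E i j).ev x).rank := by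
  have h : (rmat r E).length = r + E.length := by simp [rmat]
  rw [rankAt, ← rank_reindex (finCongr h) (finCongr h)]
  congr 1
  ext i j
  rw [reindex_apply, submatrix_apply, of_apply, of_apply]
  show ((List.map _ ((rmat r E)[i.1]'(by rw [h]; exact i.2))).getD j.1 0 : ℝ) = _
  simp [rmat]

lemma rmat_iff {r : ℕ} (hr : 2 ≤ r) (E : List (Eqn ℕ)) :
    FMA E ↔ ∃ x, rankAt (rmat r E) x ≤ r := by
  obtain ⟨r, rfl⟩ : ∃ k, r = k + 2 := ⟨r - 2, by omega⟩
  simp only [rankAt_rmat]
  have hg : ∀ i < E.length, gE E i ∈ E := fun i hi => by simp [gE, hi]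
  constructor
  · rintro ⟨x, h0, h1, h⟩
    let x' : ℕ → ℝ := fun v => if v < size E + 2 then x v else
      x (gE E ((v - (size E + 2)) / E.length)).1 * x (gE E ((v - (size E + 2)) % E.length)).2.1 +
        x (gE E ((v - (size E + 2)) % E.length)).2.2.1
    have hf : ∀ v < size E, fix x' v = x v := fun v hv => by
      simp only [fix, x']; split_ifs <;> first | simp [*] | omega
    refine ⟨x', le_trans (le_of_eq ?_) ((rank_mul_le_left
      (Matrix.of fun (i : Fin (r + 2 + E.length)) (k : Fin (r + 2)) => (ent (r + 2) E i k).ev x')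
      (Matrix.of fun (k : Fin (r + 2)) (j : Fin (r + 2 + E.length)) => (ent (r + 2) E k j).ev x')
      ).trans ((rank_le_width _)))⟩
    congr 1
    ext i j
    rw [mul_apply]
    by_cases hi : i.1 < r + 2
    · rw [Finset.sum_eq_single ⟨i, hi⟩]
      · simp [ent, hi]
      · intro k _ hk
        have : i.1 ≠ k := fun e => hk (Fin.ext e.symm)
        simp [ent, hi, this]
      · simp
    by_cases hj : j.1 < r + 2
    · rw [Finset.sum_eq_single ⟨j, hj⟩]
      · simp [ent, hj]
      · intro k _ hk
        have : k.1 ≠ j := fun e => hk (Fin.ext e)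
        simp [ent, hj, this]
      · simp
    have hi' : i.1 - (r + 2) < E.length := by omega
    have hj' : j.1 - (r + 2) < E.length := by omega
    have b1 := eqn_lt (hg _ hi')
    have b2 := eqn_lt (hg _ hj')
    simp only [Fin.sum_univ_succ, of_apply, ent, hi, hj]
    simp [hf, b1, b2]
    split_ifs with e
    · have := h _ (hg _ hi')
      rw [ev_ev, hf _ b1.2.2.2, ← this, ← e]
    · rw [ev_ev, fix, if_neg (by omega), if_neg (by omega)]
      simp only [x']
      rw [if_neg (by omega), show ∀ a b c : ℕ, a + b + c - a = c + b by omega,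
        Nat.add_mul_div_right _ _ (by omega), Nat.add_mul_mod_self_right, Nat.div_eq_of_lt hj',
        Nat.mod_eq_of_lt hj', zero_add]
  · rintro ⟨x, h⟩
    refine ⟨fix x, rfl, rfl, fun e he => ?_⟩
    obtain ⟨i, hi, rfl⟩ := List.getElem_of_mem he
    have hE : gE E i = E[i] := by simp [gE, hi]
    by_contra hne
    let ρ : Fin (r + 3) → Fin (r + 2 + E.length) := fun k =>
      ⟨if k.1 = 0 then r + 2 + i else k - 1, by split_ifs <;> omega⟩
    set M := Matrix.of fun i j : Fin (r + 2 + E.length) => (ent (r + 2) E i j).ev x with hM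
    have li : LinearIndependent ℝ fun k => M.row (ρ k) := by
      rw [Fintype.linearIndependent_iff]
      intro g hg0
      have hc : ∀ k : Fin (r + 2), g 0 * (ent (r + 2) E (r + 2 + i) k).ev x + g k.succ = 0 := by
        intro k
        have := congrFun hg0 ⟨k, by omega⟩
        rw [Finset.sum_apply, Fin.sum_univ_succ, Finset.sum_eq_single k] at this
        · simpa [ρ, hM, ent] using this
        · intro l _ hl
          have : l.1 ≠ k := fun e => hl (Fin.ext e)
          simp [ρ, hM, ent, this]
        · simp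
      have hl := congrFun hg0 ⟨r + 2 + i, by omega⟩
      have c0 := hc 0
      have c1 := hc 1
      rw [Finset.sum_apply, Fin.sum_univ_succ, Fin.sum_univ_succ, Fin.sum_univ_succ] at hl
      simp only [ρ, hM, Fin.val_succ, Fin.val_zero, row, Pi.smul_apply, of_apply] at hl
      simp [ent, hE] at hl c0 c1
      have g0 : g 0 = 0 := by
        refine (mul_eq_zero.1 (?_ : g 0 * (_ - _) = 0)).resolve_right (sub_ne_zero.2 hne)
        linear_combination (fix x E[i].2.1) * c0 + (fix x E[i].2.2.1) * c1 - hl
      intro k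
      refine Fin.cases g0 (fun k => ?_) k
      simpa [g0] using hc k
    have h2 := LinearIndependent.rank_matrix (M := M.submatrix ρ id) li
    have h3 := rank_submatrix_le M ρ id
    simp at h2
    omega

end Pool.Agent.Cx
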