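import Pool.Agent.Lib.helper11.ETRDefs

/-! Variable matrices. -/

namespace Pool.Agent.Cx

/-- An entry: `(true, i, _)` is the variable number `i`, and `(false, _, c, d)` is the rational
number with numerator `c` and denominator `d + 1`, both in binary. -/
abbrev Ent := Bool × ℕ × (Bool × List Bool) × List Bool

/-- The value of an entry. -/
noncomputable def Ent.ev (x : ℕ → ℝ) (e : Ent) : ℝ :=
  if e.1 then x e.2.1 else intVal e.2.2.1 / (bin e.2.2.2 + 1)

/-- All rows have the length of the list of rows. -/
def Square (M : List (List Ent)) : Prop := ∀ r ∈ M, r.length = M.length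

/-- The rank of the real matrix obtained by giving the variables the values `x`. -/
noncomputable def rankAt (M : List (List Ent)) (x : ℕ → ℝ) : ℕ :=
  (Matrix.of fun i j : Fin M.length => ((M[i].map (Ent.ev x)).getD j 0 : ℝ)).rank

end Pool.Agent.Cx
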