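import Pool.Agent.Lib.helper11.ETRDefs

/-! Rational tensors. -/

namespace Pool.Agent.Cx

/-- A rational number: numerator `c` and denominator `d + 1`, both in binary. -/
abbrev Rq := (Bool × List Bool) × List Bool

/-- Its value. -/
noncomputable def Rq.val (q : Rq) : ℝ := intVal q.1 / (bin q.2 + 1)

/-- The array has format `d × d × d` with `d` its length. -/
def Cube (T : List (List (List Rq))) : Prop :=
  ∀ A ∈ T, A.length = T.length ∧ ∀ r ∈ A, r.length = T.length

/-- The entry with indices `i, j, k`. -/
noncomputable def tent (T : List (List (List Rq))) (i j k : ℕ) : ℝ :=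
  (((T.getD i []).getD j []).map Rq.val).getD k 0

end Pool.Agent.Cx
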