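import Pool.Agent.Lib.helper11.ETRBam
import Pool.Agent.Lib.helper11.ETRTensDef

/-! From bounded systems of equations to tensors. -/

namespace Pool.Agent.Cx

open Finset RealInnerProductSpace

def tb (n : ℕ) : List Bool := (List.range n).map fun i => (fun m => m / 2)^[i] n % 2 == 1

@[fun_prop] lemma PT.tb {α : Type} [Enc α] {f : α → ℕ} (h : PT f) : PT fun a => tb (f a) := by
  have : PT fun p : ℕ × ℕ => (fun m => m / 2)^[p.2] p.1 :=
    PT.iterate_add (g := fun _ m => m / 2) (by fun_prop) (by fun_prop) (by fun_prop) 0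
      fun a b => by simp; omega
  have : PT Cx.tb := by
    unfold Cx.tb
    exact PT.map (PT.beq (PT.mod this (by fun_prop)) (by fun_prop)) (by fun_prop)
  fun_prop

lemma bin_tb (n : ℕ) : bin (tb n) = n := by
  suffices ∀ k n, n < 2 ^ k → bin ((List.range k).map fun i => (fun m => m / 2)^[i] n % 2 == 1) = n from
    this n n Nat.lt_two_pow_self
  intro k
  induction k with
  | zero => intro n h; simp [bin]; omega
  | succ k ih =>
    intro n h
    have := ih (n / 2) (by omega)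
    rw [List.range_succ_eq_map, List.map_cons, List.map_map, bin]
    simp only [Function.comp_def, Function.iterate_succ_apply, this, Function.iterate_zero_apply]
    rcases Nat.mod_two_eq_zero_or_one n with h | h <;> simp [h] <;> omega

def rq (a b : ℕ) : Rq := ((decide (a < b), tb (a - b + (b - a))), [])

lemma rq_val (a b : ℕ) : (rq a b).val = a - b := by
  rcases lt_or_ge a b with h | h
  · simp [rq, Rq.val, intVal, bin_tb, bin, h, Nat.sub_eq_zero_of_le h.le, h.le]
  · simp [rq, Rq.val, intVal, bin_tb, bin, h.not_gt, Nat.sub_eq_zero_of_le h, h]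

abbrev Cn := List (Bool × ℕ × ℕ)

def bl (c : Cn) (x y : ℕ → ℝ) : ℝ := (c.map fun s => (bif s.1 then -1 else 1) * (x s.2.1 * y s.2.2)).sum

def cf (c : Cn) (i j : ℕ) : ℝ := (c.count (false, i, j) : ℝ) - c.count (true, i, j)

def Cn.In (c : Cn) (d : ℕ) : Prop := c.length ≤ 5 ∧ ∀ s ∈ c, s.2.1 < d ∧ s.2.2 < d

lemma cf_cons (s c i j) : cf (s :: c) i j =
    (if s.2.1 = i then if s.2.2 = j then (bif s.1 then -1 else 1) else 0 else 0) + cf c i j := by
  obtain ⟨b, u, v⟩ := s
  by_cases h : u = i <;> by_cases h' : v = j <;> cases b <;> simp [cf, List.count_cons, h, h'] <;> ring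

lemma sum_cf {c : Cn} {d : ℕ} (h : ∀ s ∈ c, s.2.1 < d ∧ s.2.2 < d) (x y : ℕ → ℝ) :
    ∑ i ∈ range d, ∑ j ∈ range d, cf c i j * (x i * y j) = bl c x y := by
  induction c with
  | nil => simp [cf, bl]
  | cons s c ih =>
    have := h s (by simp)
    simp only [cf_cons, add_mul, sum_add_distrib, ih fun t ht => h t (.tail _ ht), ite_mul, zero_mul]
    simp [bl, this]

lemma sum_sq (d : ℕ) (f : ℕ → ℕ → ℝ) :
    ∑ k ∈ range (d * d), f (k / d) (k % d) = ∑ i ∈ range d, ∑ j ∈ range d, f i j := by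
  rw [← Fin.sum_univ_eq_sum_range (fun k => f (k / d) (k % d)), ← finProdFinEquiv.sum_comp,
    Fintype.sum_prod_type, ← Fin.sum_univ_eq_sum_range fun i => ∑ j ∈ range d, f i j]
  refine sum_congr rfl fun i _ => ?_
  rw [← Fin.sum_univ_eq_sum_range]
  refine sum_congr rfl fun j _ => ?_
  have := j.2
  simp [finProdFinEquiv, Nat.add_mul_div_left _ _ (show 0 < d by omega), Nat.div_eq_of_lt this,
    Nat.mod_eq_of_lt this]

noncomputable def pv (d : ℕ) (f : ℕ → ℕ → ℝ) : EuclideanSpace ℝ (Fin (d * d)) :=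
  WithLp.toLp 2 fun k => f (k / d) (k % d)

lemma pv_inner (d f g) : ⟪pv d f, pv d g⟫ = ∑ i ∈ range d, ∑ j ∈ range d, f i j * g i j := by
  rw [← sum_sq d fun i j => f i j * g i j, ← Fin.sum_univ_eq_sum_range]
  simp [pv, PiLp.inner_apply, mul_comm]

lemma cf_norm (d : ℕ) (c : Cn) : ‖pv d (cf c)‖ ≤ c.length := by
  induction c with
  | nil => simp [show pv d (cf []) = 0 by ext; simp [pv, cf]]
  | cons s c ih =>
    rw [show pv d (cf (s :: c)) = pv d (fun i j => if s.2.1 = i then if s.2.2 = j then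
      (bif s.1 then -1 else 1) else 0 else 0) + pv d (cf c) by ext; simp [pv, cf_cons]]
    refine (norm_add_le _ _).trans ?_
    rw [List.length_cons, Nat.cast_succ, add_comm]
    refine add_le_add ih (abs_le_of_sq_le_sq' ?_ zero_le_one).2
    rw [← real_inner_self_eq_norm_sq, pv_inner]
    cases s.1 <;> simp [ite_and] <;> split_ifs <;> simp

lemma contr {V : Type} [NormedAddCommGroup V] [InnerProductSpace ℝ V] {ι : Type} (l : List ι)
    (a : ι → V) (b u z : V) {K L θ : ℝ} (ha : ∀ c ∈ l, ‖a c‖ ≤ 5) (hb : ‖b‖ ≤ 1) (hu : ‖u‖ ≤ 1)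
    (hz : ‖z‖ ≤ 1) (hK : 0 ≤ K) (hL : L = 50 * K * l.length + 1) (hθ : 0 ≤ θ ∧ θ ≤ 1)
    (h : L ≤ |⟪z, L • u - K • (l.map fun c => ⟪a c, u⟫ • a c).sum + (θ * ⟪b, u⟫) • b⟫|) :
    u ≠ 0 ∧ K * (l.map fun c => ⟪a c, u⟫ ^ 2).sum ≤ 4 * ⟪b, u⟫ ^ 2 := by
  have L1 : 1 ≤ L := by rw [hL]; exact le_add_of_nonneg_left (by positivity)
  refine ⟨by rintro rfl; simp at h; linarith, ?_⟩
  have e1 : ⟪u, (l.map fun c => ⟪a c, u⟫ • a c).sum⟫ = (l.map fun c => ⟪a c, u⟫ ^ 2).sum := by
    clear ha hL h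
    induction l with
    | nil => simp
    | cons c l ih =>
      rw [List.map_cons, List.sum_cons, inner_add_right, ih, real_inner_smul_right,
        real_inner_comm (a c) u, List.map_cons, List.sum_cons, sq]
  have e2 : ‖(l.map fun c => ⟪a c, u⟫ • a c).sum‖ ^ 2 ≤
      25 * l.length * (l.map fun c => ⟪a c, u⟫ ^ 2).sum := by
    have e3 : ‖(l.map fun c => ⟪a c, u⟫ • a c).sum‖ ≤ ∑ i : Fin l.length, 5 * |⟪a l[i], u⟫| := by
      rw [← Fin.sum_univ_fun_getElem l fun c => ⟪a c, u⟫ • a c]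
      refine (norm_sum_le _ _).trans (sum_le_sum fun i _ => ?_)
      rw [norm_smul, mul_comm]
      exact mul_le_mul_of_nonneg_right (ha _ (List.getElem_mem _)) (abs_nonneg _)
    refine (pow_le_pow_left₀ (norm_nonneg _) e3 2).trans (sq_sum_le_card_mul_sum_sq.trans ?_)
    rw [← Fin.sum_univ_fun_getElem l fun c => ⟪a c, u⟫ ^ 2]
    simp only [mul_pow, sq_abs, ← mul_sum, card_univ, Fintype.card_fin]
    exact le_of_eq (by simp; ring)
  have A0 : 0 ≤ (l.map fun c => ⟪a c, u⟫ ^ 2).sum := sum_sq_zero.1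
  generalize (l.map fun c => ⟪a c, u⟫ • a c).sum = w at *
  generalize (l.map fun c => ⟪a c, u⟫ ^ 2).sum = A at *
  have h1 := h.trans ((abs_real_inner_le_norm _ _).trans
    (mul_le_of_le_one_left (norm_nonneg _) hz))
  have h2 := pow_le_pow_left₀ (by linarith) h1 2
  rw [sub_add, norm_sub_sq_real, inner_sub_right, real_inner_smul_left, real_inner_smul_left,
    real_inner_smul_right, real_inner_smul_right, e1, norm_smul, mul_pow, Real.norm_eq_abs, sq_abs,
    real_inner_comm b u] at h2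
  have h3 : ‖K • w - (θ * ⟪b, u⟫) • b‖ ^ 2 ≤ 2 * (K ^ 2 * ‖w‖ ^ 2) + 2 * ⟪b, u⟫ ^ 2 := by
    have h4 := norm_sub_le (K • w) ((θ * ⟪b, u⟫) • b)
    have h5 : ‖(θ * ⟪b, u⟫) • b‖ ≤ |⟪b, u⟫| := by
      rw [norm_smul, Real.norm_eq_abs, abs_mul, abs_of_nonneg hθ.1]
      exact (mul_le_of_le_one_right (by have := hθ.1; positivity) hb).trans
        (mul_le_of_le_one_left (abs_nonneg _) hθ.2)
    rw [norm_smul, Real.norm_of_nonneg hK] at h4
    have := pow_le_pow_left₀ (norm_nonneg _) (h4.trans (add_le_add le_rfl h5)) 2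
    nlinarith [sq_nonneg (K * ‖w‖ - |⟪b, u⟫|), sq_abs ⟪b, u⟫]
  have h4 : L ^ 2 * ‖u‖ ^ 2 ≤ L ^ 2 :=
    mul_le_of_le_one_right (sq_nonneg _) (pow_le_one₀ (norm_nonneg _) hu)
  have h5 := mul_le_mul_of_nonneg_left e2 (sq_nonneg K)
  have h6 : L * (θ * ⟪b, u⟫ ^ 2) ≤ L * ⟪b, u⟫ ^ 2 :=
    mul_le_mul_of_nonneg_left (mul_le_of_le_one_left (sq_nonneg _) hθ.2) (by linarith)
  have h7 : 0 ≤ K * A := by positivity
  refine le_of_mul_le_mul_left (a := L) ?_ (by linarith)
  have h8 : 2 * (K ^ 2 * (25 * l.length * A)) = (L - 1) * (K * A) := by rw [hL]; ring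
  nlinarith [mul_le_mul_of_nonneg_right L1 (sq_nonneg ⟪b, u⟫)]

/-! the constraints -/

def opC (e : Op) : Cn := bif e.1 then [(false, e.2.1, e.2.2.1), (true, e.2.2.2, 0)] else
  [(false, e.2.1, 0), (false, e.2.2.1, 0), (true, e.2.2.2, 0)]

def nn (E : List Op) : ℕ := size E + ub (size E) + 1

def cons (E : List Op) : List Cn :=
  [(false, size E, 0), (false, size E, 0), (false, size E, 0), (false, size E, 0), (true, 0, 0)] ::
  (E.map opC ++ ((List.range (ub (size E))).map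
      (fun j => [(false, size E + j + 1, 0), (true, size E + j, size E + j)]) ++
    ((List.range (nn E)).map (fun v => [(false, v, v), (false, nn E + v, nn E + v), (true, 0, 0)]) ++
    (List.range (2 * nn E) ×ˢ List.range (2 * nn E)).map fun p => [(false, p.1, p.2), (true, p.2, p.1)])))

lemma cons_in (E : List Op) : ∀ c ∈ cons E, c.In (2 * nn E) := by
  simp only [cons, List.forall_mem_cons, List.forall_mem_append, List.forall_mem_map, List.mem_range,
    Cn.In, Prod.forall, List.mem_product]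
  refine ⟨by simp [nn]; omega, fun b u v w h => ?_, fun j h => ?_, fun j h => ?_, fun i j h => ?_⟩
  · have := op_lt h
    have : u < size E ∧ v < size E ∧ w < size E := this
    have : size E ≤ nn E := by unfold nn; omega
    cases b <;> simp only [opC, cond_true, cond_false, List.mem_cons, Prod.mk.injEq,
      List.not_mem_nil, or_false, List.length_cons, List.length_nil] <;>
      exact ⟨by omega, fun _ _ _ h => by omega⟩
  all_goals simp [nn] at *; omega

lemma cons_complete {E : List Op} (h : BAM E) : ∃ ξ : ℕ → ℝ, ∑ i ∈ range (2 * nn E), ξ i ^ 2 = 1 ∧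
    (∀ i, 2 * nn E ≤ i → ξ i = 0) ∧ ξ (size E + ub (size E)) ≠ 0 ∧ ∀ c ∈ cons E, bl c ξ ξ = 0 := by
  obtain ⟨x, h0, hb, h⟩ := h
  have := size_pos E
  let y : ℕ → ℝ := fun v => if v < size E then x v else (1 / 4) ^ 2 ^ (v - size E)
  have yb : ∀ v, y v ^ 2 ≤ 1 := fun v => by
    simp only [y]
    split_ifs
    · exact (sq_le_one_iff_abs_le_one _).2 (hb v)
    · exact pow_le_one₀ (by positivity) (pow_le_one₀ (by norm_num) (by norm_num))
  let w : ℕ → ℝ := fun v => if v < nn E then y v else if v < 2 * nn E then √(1 - y (v - nn E) ^ 2) else 0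
  have w1 : ∀ v < size E, w v = x v := fun v hv => by
    simp [w, y, hv, show v < nn E by unfold nn; omega]
  have w2 : ∀ j ≤ ub (size E), w (size E + j) = (1 / 4) ^ 2 ^ j := fun j hj => by
    simp [w, y, show size E + j < nn E by unfold nn; omega]
  have w0 : w 0 = 1 := (w1 0 this).trans h0
  have S : 0 < ∑ i ∈ range (2 * nn E), w i ^ 2 :=
    sum_pos' (fun _ _ => sq_nonneg _) ⟨0, by simp [nn], by simp [w0]⟩
  have hw : ∀ c ∈ cons E, bl c w w = 0 := by
    simp only [cons, List.forall_mem_cons, List.forall_mem_append, List.forall_mem_map,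
      List.mem_range]
    refine ⟨?_, fun e he => ?_, fun j hj => ?_, fun v hv => ?_, fun p _ => by simp [bl, mul_comm]⟩
    · have := w2 0 (by omega)
      simp only [add_zero] at this
      simp [bl, w0, this]; norm_num
    · have := op_lt he
      have k := h e he
      unfold Op.ok at k
      cases hb : e.1 <;> simp [hb] at k <;> simp [bl, opC, hb, w0, w1, this, ← k]
    · simp only [bl, List.map_cons, List.map_nil, add_assoc, w2 j hj.le, w2 _ hj, w0, ← pow_add]
      simp [pow_succ, mul_two]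
    · simp only [bl, List.map_cons, List.map_nil, w0]
      simp only [w, hv, if_true, show ¬ nn E + v < nn E by omega, if_false,
        show nn E + v < 2 * nn E by omega, Nat.add_sub_cancel_left,
        Real.mul_self_sqrt (sub_nonneg.2 (yb v))]
      simp; ring
  have S' := Real.sqrt_pos.2 S
  refine ⟨fun i => w i / √(∑ i ∈ range (2 * nn E), w i ^ 2), ?_, fun i hi => ?_, ?_, fun c hc => ?_⟩
  · simp only [div_pow, ← sum_div, Real.sq_sqrt S.le, div_self S.ne']
  · simp [w, show ¬ i < nn E by omega, show ¬ i < 2 * nn E by omega]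
  · simp only [w2 _ le_rfl]; positivity
  · have := hw c hc
    simp only [bl, div_mul_div_comm, ← mul_div_assoc, div_eq_mul_inv, List.sum_map_mul_right] at *
    simp only [mul_mul_mul_comm (w _) _ (w _), ← mul_assoc, List.sum_map_mul_right] at *
    simp [this]

lemma bl_diag {c : Cn} {d : ℕ} (hc : ∀ s ∈ c, s.2.1 < d ∧ s.2.2 < d) {ξ ζ : ℕ → ℝ} {γ : ℝ}
    (h1 : ∀ i < d, |ξ i| ≤ 1) (h2 : ∀ j < d, |ξ j * ζ 0 - ξ 0 * ζ j| ≤ γ) :
    |ζ 0 * bl c ξ ξ - ξ 0 * bl c ξ ζ| ≤ c.length * γ := by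
  induction c with
  | nil => simp [bl]
  | cons s c ih =>
    have := ih fun t ht => hc t (.tail _ ht)
    have k := hc s (by simp)
    have k1 : |(bif s.1 then -1 else 1) * (ξ s.2.1 * (ξ s.2.2 * ζ 0 - ξ 0 * ζ s.2.2))| ≤ γ := by
      rw [abs_mul, abs_mul, show |(bif s.1 then -1 else 1 : ℝ)| = 1 by cases s.1 <;> simp, one_mul]
      exact (mul_le_of_le_one_left (abs_nonneg _) (h1 _ k.1)).trans (h2 _ k.2)
    refine le_trans (le_of_eq ?_) ((abs_add_le _ _).trans ((add_le_add k1 this).trans (le_of_eq ?_)))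
    · simp only [bl, List.map_cons, List.sum_cons]; congr 1; ring
    · simp; ring

lemma pivot {a b c γ : ℝ} (h1 : 1 - γ ≤ |a|) (h2 : |a| ≤ 1) (h3 : -γ ≤ a * b) (h4 : |a + b - c| ≤ γ)
    (g0 : 0 ≤ γ) (g1 : γ ≤ 1 / 8) : 1 / 2 ≤ |c| := by
  have k1 : a * (a + b) ≤ |a + b| := (le_abs_self _).trans
    (by rw [abs_mul]; exact mul_le_of_le_one_left (abs_nonneg _) h2)
  have k2 := abs_sub_abs_le_abs_sub (a + b) c
  nlinarith [sq_abs a]

lemma cons_core {E : List Op} {ξ ζ : ℕ → ℝ} (h1 : ∀ i < 2 * nn E, |ξ i| ≤ 1)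
    (h2 : ∀ i < 2 * nn E, |ζ i| ≤ 1) {p q : ℕ} (hp : p < 2 * nn E) (hq : q < 2 * nn E)
    (p1 : |ξ p| = 1) (q1 : |ζ q| = 1) {γ : ℝ}
    (hγ : 16384 * γ = |ξ (size E + ub (size E)) * ζ (size E + ub (size E))|)
    (h : ∀ c ∈ cons E, |bl c ξ ζ| ≤ γ) : AM E := by
  have hin := cons_in E
  have h' := h
  set κ := size E + ub (size E) with hκ
  have κ1 : κ < 2 * nn E := by unfold nn; omega
  have m1 : ∀ {a b : ℝ}, |a| ≤ 1 → |a * b| ≤ |b| := fun ha => by
    rw [abs_mul]; exact mul_le_of_le_one_left (abs_nonneg _) ha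
  have g0 : 0 ≤ γ := by nlinarith [abs_nonneg (ξ κ * ζ κ)]
  have g1 : 16384 * γ ≤ 1 := hγ ▸ (m1 (h1 _ κ1)).trans (h2 _ κ1)
  simp only [cons, List.forall_mem_cons, List.forall_mem_append, List.forall_mem_map,
    List.mem_range, List.mem_product, Prod.forall] at h'
  obtain ⟨-, -, -, hb, ha⟩ := h'
  replace ha : ∀ i < 2 * nn E, ∀ j < 2 * nn E, |ξ i * ζ j - ξ j * ζ i| ≤ γ := fun i hi j hj => by
    simpa [bl, sub_eq_add_neg] using ha i j ⟨hi, hj⟩
  have z1 : 1 - γ ≤ |ξ p * ζ p| := by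
    have := abs_sub_abs_le_abs_sub (ξ p * ζ q) (ξ q * ζ p)
    have := ha p hp q hq
    have := m1 (b := ζ p) (h1 q hq)
    simp only [abs_mul, p1, q1, one_mul] at *
    linarith
  have z2 : ∀ p' < 2 * nn E, -γ ≤ ξ p * ζ p * (ξ p' * ζ p') := fun p' hp' => by
    have := (m1 (b := ξ p * ζ p' - ξ p' * ζ p) ((m1 (h1 p' hp')).trans (h2 p hp))).trans (ha p hp p' hp')
    nlinarith [neg_abs_le (ξ p' * ζ p * (ξ p * ζ p' - ξ p' * ζ p)), sq_nonneg (ξ p' * ζ p)]
  have z3 : 1 / 2 ≤ |ξ 0 * ζ 0| := by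
    rcases lt_or_ge p (nn E) with hv | hv
    · exact pivot z1 ((m1 (h1 p hp)).trans (h2 p hp)) (z2 (nn E + p) (by omega))
        (by simpa [bl, sub_eq_add_neg, add_assoc] using hb p hv) g0 (by linarith)
    · exact pivot z1 ((m1 (h1 p hp)).trans (h2 p hp)) (z2 (p - nn E) (by omega))
        (by simpa [bl, sub_eq_add_neg, add_assoc, Nat.add_sub_cancel' hv, add_left_comm] using
          hb (p - nn E) (by omega)) g0 (by linarith)
  have d0 : 0 < 2 * nn E := by omega
  have x0 : 1 / 2 ≤ |ξ 0| := z3.trans (by rw [mul_comm]; exact m1 (h2 0 d0))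
  have y0 : 1 / 2 ≤ |ζ 0| := z3.trans (m1 (h1 0 d0))
  have x0' : ξ 0 ≠ 0 := by rintro e; norm_num [e] at x0
  let y : ℕ → ℝ := fun v => ξ v / ξ 0
  have yb : ∀ v < 2 * nn E, |ξ v| ≤ |y v| ∧ |y v| ≤ 2 := fun v hv => by
    have := h1 v hv
    have := h1 0 d0
    rw [abs_div, le_div_iff₀ (by linarith), div_le_iff₀ (by linarith)]
    constructor <;> nlinarith [abs_nonneg (ξ v)]
  have hy : ∀ c ∈ cons E, |bl c y y| ≤ 48 * γ := fun c hc => by
    have k1 := bl_diag (hin c hc).2 h1 fun j hj => ha j hj 0 d0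
    have k2 : (c.length : ℝ) ≤ 5 := by exact_mod_cast (hin c hc).1
    have k3 := (m1 (h1 0 d0)).trans (h c hc)
    have k4 := abs_sub_abs_le_abs_sub (ζ 0 * bl c ξ ξ) (ξ 0 * bl c ξ ζ)
    have k5 : bl c ξ ξ = bl c y y * ξ 0 ^ 2 := by
      simp only [bl, ← List.sum_map_mul_right, y]
      congr 2; ext; field_simp
    rw [abs_mul (ζ 0)] at k4
    have k6 : |bl c ξ ξ| ≤ 12 * γ := by nlinarith [abs_nonneg (bl c ξ ξ)]
    rw [k5, abs_mul, abs_pow] at k6
    nlinarith [abs_nonneg (bl c y y), mul_le_mul x0 x0 (by norm_num) (abs_nonneg _)]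
  have e1 : 48 * γ ≤ |y κ| ^ 2 / 80 := by
    have k1 := abs_sub_abs_le_abs_sub (ξ 0 * ζ κ) (ξ κ * ζ 0)
    have k2 := ha 0 d0 κ κ1
    have k3 : |ξ κ * ζ 0| ≤ |ξ κ| := by rw [mul_comm]; exact m1 (h2 0 d0)
    rw [abs_mul] at hγ
    rw [abs_mul (ξ 0)] at k1
    have k4 : |ζ κ| ≤ 2 * (|ξ κ| + γ) := by nlinarith [abs_nonneg (ζ κ)]
    have k5 := mul_le_mul_of_nonneg_left k4 (abs_nonneg (ξ κ))
    have k6 := pow_le_pow_left₀ (abs_nonneg _) (yb κ κ1).1 2
    nlinarith [h1 κ κ1]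
  have y1 : y 0 = 1 := div_self x0'
  simp only [cons, List.forall_mem_cons, List.forall_mem_append, List.forall_mem_map,
    List.mem_range] at hy
  obtain ⟨c0, c1, c2, -⟩ := hy
  have m2 := (yb κ κ1).2
  have m0 := abs_nonneg (y κ)
  have ch : ∀ j ≤ ub (size E), |y (size E + j)| ≤ (1 / 4) ^ 2 ^ j + 4 * (48 * γ) := fun j hj => by
    induction j with
    | zero =>
      simp [bl, y1] at c0
      rw [abs_le] at *
      constructor <;> norm_num <;> linarith
    | succ j ih =>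
      have k1 := c2 j hj
      simp [bl, y1, ← sub_eq_add_neg] at k1
      have k2 := abs_sub_abs_le_abs_sub (y (size E + j + 1)) (y (size E + j) * y (size E + j))
      have k3 := ih (by omega)
      have k4 : ((1 : ℝ) / 4) ^ 2 ^ j ≤ 1 / 4 :=
        pow_le_of_le_one (by norm_num) (by norm_num) (by positivity)
      rw [abs_mul] at k2
      rw [pow_succ 2 j, pow_mul, ← add_assoc]
      nlinarith [mul_le_mul k3 k3 (abs_nonneg _) (by positivity)]
  have f1 := ch _ le_rfl
  have f2 : ((1 : ℝ) / 4) ^ 2 ^ ub (size E) ≤ 1 := pow_le_one₀ (by norm_num) (by norm_num)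
  have f3 : |y κ| ≤ 2 * (1 / 4) ^ 2 ^ ub (size E) := by nlinarith
  refine sep y1 (fun v hv => (yb v (by unfold nn; omega)).2) fun e he => ?_
  have := c1 e he
  rw [show bl (opC e) y y = res y e by cases hb : e.1 <;> simp [bl, opC, res, hb, y1] <;> ring] at this
  nlinarith

lemma cons_sound {E : List Op} {ξ ζ : ℕ → ℝ} {i j : ℕ} (hi : i < 2 * nn E) (hj : j < 2 * nn E)
    (h0 : ξ i * ζ j ≠ 0) (h : 2 ^ 30 * ((cons E).map fun c => bl c ξ ζ ^ 2).sum ≤
      4 * (ξ (size E + ub (size E)) * ζ (size E + ub (size E))) ^ 2) : AM E := by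
  obtain ⟨p, hp, p1⟩ := (range (2 * nn E)).exists_max_image (fun i => |ξ i|) ⟨i, mem_range.2 hi⟩
  obtain ⟨q, hq, q1⟩ := (range (2 * nn E)).exists_max_image (fun i => |ζ i|) ⟨i, mem_range.2 hi⟩
  have p0 : 0 < |ξ p| := (abs_pos.2 (left_ne_zero_of_mul h0)).trans_le (p1 i (mem_range.2 hi))
  have q0 : 0 < |ζ q| := (abs_pos.2 (right_ne_zero_of_mul h0)).trans_le (q1 j (mem_range.2 hj))
  refine cons_core (ξ := fun i => ξ i / |ξ p|) (ζ := fun i => ζ i / |ζ q|)
    (fun i hi => by rw [abs_div, abs_abs, div_le_one p0]; exact p1 i (mem_range.2 hi))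
    (fun i hi => by rw [abs_div, abs_abs, div_le_one q0]; exact q1 i (mem_range.2 hi))
    (mem_range.1 hp) (mem_range.1 hq) (by rw [abs_div, abs_abs, div_self p0.ne'])
    (by rw [abs_div, abs_abs, div_self q0.ne']) (mul_div_cancel₀ _ (by norm_num)) fun c hc => ?_
  have k1 : bl c (fun i => ξ i / |ξ p|) (fun i => ζ i / |ζ q|) = bl c ξ ζ / (|ξ p| * |ζ q|) := by
    simp only [bl, div_eq_mul_inv, ← List.sum_map_mul_right]
    congr 2; ext; field_simp
  have k2 := List.single_le_sum (l := (cons E).map fun c => bl c ξ ζ ^ 2)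
    (by simp only [List.forall_mem_map]; exact fun _ _ => sq_nonneg _) _ (List.mem_map_of_mem hc)
  rw [k1, div_mul_div_comm, abs_div, abs_div _ (_ * _), div_right_comm]
  refine div_le_div_of_nonneg_right (abs_le_of_sq_le_sq ?_ (by positivity)) (abs_nonneg _)
  rw [div_pow, sq_abs]
  linarith

/-! the tensor -/

def lam (E : List Op) : ℕ := 50 * 2 ^ 30 * (cons E).length + 1

def qent (θ : ℕ) (C : List Cn) (L κ i j k l : ℕ) : Rq :=
  rq ((if i = k ∧ j = l then L else 0) + (if i = κ ∧ j = κ ∧ k = κ ∧ l = κ then θ else 0) +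
      2 ^ 30 * (C.map fun c => c.count (false, i, j) * c.count (true, k, l) +
        c.count (true, i, j) * c.count (false, k, l)).sum)
    (2 ^ 30 * (C.map fun c => c.count (false, i, j) * c.count (false, k, l) +
        c.count (true, i, j) * c.count (true, k, l)).sum)

lemma qent_val (θ C L κ i j k l) : (qent θ C L κ i j k l).val = (if i = k ∧ j = l then (L : ℝ) else 0) -
    2 ^ 30 * (C.map fun c => cf c i j * cf c k l).sum +
    if i = κ ∧ j = κ ∧ k = κ ∧ l = κ then (θ : ℝ) else 0 := by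
  rw [qent, rq_val]
  have : (C.map fun c => cf c i j * cf c k l).sum =
      ((C.map fun c => c.count (false, i, j) * c.count (false, k, l) +
        c.count (true, i, j) * c.count (true, k, l)).sum : ℕ) -
      ((C.map fun c => c.count (false, i, j) * c.count (true, k, l) +
        c.count (true, i, j) * c.count (false, k, l)).sum : ℕ) := by
    induction C with
    | nil => simp
    | cons c C ih =>
      simp only [List.map_cons, List.sum_cons, ih, Nat.cast_add, Nat.cast_mul]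
      simp only [cf]; ring
  rw [this]; push_cast; ring

def tens0 (θ : ℕ) (C : List Cn) (L κ d : ℕ) : List (List (List Rq)) :=
  (List.range (d * d)).map fun i => (List.range (d * d)).map fun j => (List.range (d * d)).map fun k =>
    if i < d ∧ j < d then qent θ C L κ i j (k / d) (k % d) else rq 0 0

def tens (θ : ℕ) (E : List Op) : List (List (List Rq)) × Rq :=
  (tens0 θ (cons E) (lam E) (size E + ub (size E)) (2 * nn E), rq (lam E) 0)

lemma tens_pt (θ : ℕ) : PT (tens θ) := by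
  have h1 : PT cons := by unfold cons nn opC; fun_prop
  have h2 : PT fun p : ℕ × ℕ => rq p.1 p.2 := by unfold rq; fun_prop
  have h3 : PT fun p : (List Cn × ℕ × ℕ) × ℕ × ℕ × ℕ × ℕ =>
      qent θ p.1.1 p.1.2.1 p.1.2.2 p.2.1 p.2.2.1 p.2.2.2.1 p.2.2.2.2 := by
    unfold qent
    exact h2.comp (f := fun p => (_, _)) (by fun_prop)
  have h4 : PT fun p : (List Cn × ℕ × ℕ) × ℕ => tens0 θ p.1.1 p.1.2.1 p.1.2.2 p.2 := by
    unfold tens0
    refine PT.map (PT.map (PT.map (PT.ite (by fun_prop) ?_ (by fun_prop)) (by fun_prop))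
      (by fun_prop)) (by fun_prop)
    exact h3.comp (f := fun p : (((((List Cn × ℕ × ℕ) × ℕ) × ℕ) × ℕ) × ℕ) =>
      (p.1.1.1.1, p.1.1.2, p.1.2, p.2 / p.1.1.1.2, p.2 % p.1.1.1.2)) (by fun_prop)
  have h5 : PT lam := by unfold lam; fun_prop
  exact (h4.comp (f := fun E => ((cons E, lam E, size E + ub (size E)), 2 * nn E))
    (by unfold nn; fun_prop)).pair (h2.comp (f := fun E => (lam E, 0)) (by fun_prop))

lemma tens0_len (θ C L κ d) : (tens0 θ C L κ d).length = d * d := by simp [tens0]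

lemma tens0_cube (θ C L κ d) : Cube (tens0 θ C L κ d) := by simp [Cube, tens0]

lemma tens0_ent (θ C L κ d) {i j k : ℕ} (hi : i < d * d) (hj : j < d * d) (hk : k < d * d) :
    tent (tens0 θ C L κ d) i j k =
      if i < d ∧ j < d then (qent θ C L κ i j (k / d) (k % d)).val else 0 := by
  simp [tent, tens0, List.getD_eq_getElem?_getD, hi, hj, hk, apply_ite Rq.val, rq_val]

lemma q_apply (θ : ℕ) {C : List Cn} {d : ℕ} (hC : ∀ c ∈ C, c.In d) (L : ℕ) {κ : ℕ} (hκ : κ < d)
    (x y : ℕ → ℝ) {k l : ℕ} (hk : k < d) (hl : l < d) :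
    ∑ i ∈ range d, ∑ j ∈ range d, (qent θ C L κ i j k l).val * (x i * y j) =
      L * (x k * y l) - 2 ^ 30 * (C.map fun c => bl c x y * cf c k l).sum +
        if k = κ ∧ l = κ then θ * (x κ * y κ) else 0 := by
  have : ∑ i ∈ range d, ∑ j ∈ range d, (C.map fun c => cf c i j * cf c k l).sum * (x i * y j) =
      (C.map fun c => bl c x y * cf c k l).sum := by
    induction C with
    | nil => simp
    | cons c C ih =>
      simp only [List.map_cons, List.sum_cons, add_mul, sum_add_distrib,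
        ih fun c hc => hC c (.tail _ hc), ← sum_cf (hC c (by simp)).2, sum_mul, mul_right_comm]
  simp only [qent_val, add_mul, sub_mul, sum_add_distrib, sum_sub_distrib, mul_assoc, ← mul_sum, this]
  by_cases h : k = κ ∧ l = κ <;> simp [ite_and, hk, hl, hκ, h]

lemma q_symm (θ C L κ i j k l) : (qent θ C L κ i j k l).val = (qent θ C L κ k l i j).val := by
  simp only [qent_val, mul_comm (cf _ i j), eq_comm (a := i) (b := k), eq_comm (a := j) (b := l)]
  congr 1
  exact if_congr (by tauto) rfl rfl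

lemma sum_pad {d D : ℕ} (h : d ≤ D) (f : ℕ → ℝ) :
    ∑ i ∈ range D, (if i < d then f i else 0) = ∑ i ∈ range d, f i := by
  rw [← sum_filter]
  exact sum_congr (by ext; simp; omega) fun _ _ => rfl

section
variable (θ : ℕ) (E : List Op)

lemma tens_third (x y : ℕ → ℝ) {k : ℕ} (hk : k < 2 * nn E * (2 * nn E)) :
    ∑ i ∈ range (2 * nn E * (2 * nn E)), ∑ j ∈ range (2 * nn E * (2 * nn E)),
      tent (tens θ E).1 i j k * x i * y j =
    lam E * (x (k / (2 * nn E)) * y (k % (2 * nn E))) -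
      2 ^ 30 * ((cons E).map fun c => bl c x y * cf c (k / (2 * nn E)) (k % (2 * nn E))).sum +
      if k / (2 * nn E) = size E + ub (size E) ∧ k % (2 * nn E) = size E + ub (size E) then
        θ * (x (size E + ub (size E)) * y (size E + ub (size E))) else 0 := by
  have d0 : 0 < 2 * nn E := by unfold nn; omega
  rw [← q_apply θ (cons_in E) _ (by unfold nn; omega) x y (Nat.div_lt_of_lt_mul hk) (Nat.mod_lt _ d0),
    ← sum_pad (Nat.le_mul_self (2 * nn E))]
  refine sum_congr rfl fun i hi => ?_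
  rw [← sum_pad (Nat.le_mul_self (2 * nn E)), sum_congr rfl fun j hj => by
    rw [tens, tens0_ent _ _ _ _ _ (mem_range.1 hi) (mem_range.1 hj) hk]]
  by_cases h : i < 2 * nn E <;> simp [h, mul_assoc]

theorem tens_sound (hθ : θ ≤ 1) {x y z : ℕ → ℝ}
    (hx : ∑ i ∈ range (2 * nn E * (2 * nn E)), x i ^ 2 = 1)
    (hy : ∑ i ∈ range (2 * nn E * (2 * nn E)), y i ^ 2 = 1)
    (hz : ∑ i ∈ range (2 * nn E * (2 * nn E)), z i ^ 2 = 1)
    (h : lam E ≤ |∑ k ∈ range (2 * nn E * (2 * nn E)), (∑ i ∈ range (2 * nn E * (2 * nn E)),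
      ∑ j ∈ range (2 * nn E * (2 * nn E)), tent (tens θ E).1 i j k * x i * y j) * z k|) : AM E := by
  rw [sum_congr rfl fun k hk => by rw [tens_third θ E x y (mem_range.1 hk)]] at h
  have κ1 : size E + ub (size E) < 2 * nn E := by unfold nn; omega
  have hin := cons_in E
  set d := 2 * nn E
  set κ := size E + ub (size E)
  have i1 : ∀ c ∈ cons E, ⟪pv d (cf c), pv d fun i j => x i * y j⟫ = bl c x y := fun c hc => by
    rw [pv_inner, sum_cf (hin c hc).2]
  have i2 : ⟪pv d fun i j => if i = κ ∧ j = κ then 1 else 0, pv d fun i j => x i * y j⟫ = x κ * y κ := by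
    simp [pv_inner, ite_and, κ1]
  have le : ∀ {x : ℕ → ℝ}, ∑ i ∈ range (d * d), x i ^ 2 = 1 → ∑ i ∈ range d, x i ^ 2 ≤ 1 := fun h =>
    h ▸ sum_le_sum_of_subset_of_nonneg (range_subset_range.2 (Nat.le_mul_self _)) fun _ _ _ => sq_nonneg _
  obtain ⟨h1, h2⟩ := contr (cons E) (fun c => pv d (cf c)) (pv d fun i j => if i = κ ∧ j = κ then 1 else 0)
    (pv d fun i j => x i * y j) (WithLp.toLp 2 fun k => z k) (K := 2 ^ 30) (L := lam E) (θ := θ)
    (fun c hc => (cf_norm d c).trans (by exact_mod_cast (hin c hc).1))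
    (abs_le_of_sq_le_sq' (by
      rw [← real_inner_self_eq_norm_sq, pv_inner]; simp [ite_and, κ1]) zero_le_one).2
    (abs_le_of_sq_le_sq' (by
      rw [← real_inner_self_eq_norm_sq, pv_inner]
      simp only [← sq, mul_pow, ← mul_sum, ← sum_mul]
      exact (mul_le_one₀ (le hx) (by positivity) (le hy)).trans (by norm_num)) zero_le_one).2
    (abs_le_of_sq_le_sq' (by
      rw [EuclideanSpace.norm_sq_eq]
      simp [Fin.sum_univ_eq_sum_range (fun k => z k ^ 2), hz]) zero_le_one).2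
    (by positivity) (by simp [lam]; norm_num) ⟨by positivity, by exact_mod_cast hθ⟩ (h.trans_eq (by
      congr 1
      rw [List.map_congr_left fun c hc => by rw [i1 c hc], i2, ← Fin.sum_univ_eq_sum_range,
        PiLp.inner_apply]
      refine sum_congr rfl fun k _ => ?_
      have : ∀ l : List Cn, (l.map fun c => bl c x y • pv d (cf c)).sum k =
          (l.map fun c => bl c x y * cf c (k / d) (k % d)).sum := fun l => by
        induction l with
        | nil => simp
        | cons c l ih => rw [List.map_cons, List.sum_cons, PiLp.add_apply, ih]; rfl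
      simp only [PiLp.add_apply, PiLp.sub_apply, PiLp.smul_apply, this]
      simp [pv]))
  rw [List.map_congr_left fun c hc => by rw [i1 c hc], i2] at h2
  obtain ⟨k, hk⟩ : ∃ k : Fin (d * d), x (k / d) * y (k % d) ≠ 0 := by
    by_contra hh
    push Not at hh
    exact h1 (by ext k; exact hh k)
  exact cons_sound (Nat.div_lt_of_lt_mul k.2) (Nat.mod_lt _ (by omega)) hk h2

theorem tens_complete (h : BAM E) : ∃ x z : ℕ → ℝ,
    ∑ i ∈ range (2 * nn E * (2 * nn E)), x i ^ 2 = 1 ∧ ∑ i ∈ range (2 * nn E * (2 * nn E)), z i ^ 2 = 1 ∧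
    (lam E : ℝ) < ∑ k ∈ range (2 * nn E * (2 * nn E)), (∑ i ∈ range (2 * nn E * (2 * nn E)),
      ∑ j ∈ range (2 * nn E * (2 * nn E)), tent (tens 1 E).1 i j k * x i * x j) * z k ∧
    (∀ k < 2 * nn E * (2 * nn E), ∑ i ∈ range (2 * nn E * (2 * nn E)),
      ∑ j ∈ range (2 * nn E * (2 * nn E)), tent (tens 0 E).1 i j k * x i * x j = lam E * z k) ∧
    (∀ i < 2 * nn E * (2 * nn E), ∑ j ∈ range (2 * nn E * (2 * nn E)),
      ∑ k ∈ range (2 * nn E * (2 * nn E)), tent (tens 0 E).1 i j k * x j * z k = lam E * x i) ∧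
    ∀ j < 2 * nn E * (2 * nn E), ∑ i ∈ range (2 * nn E * (2 * nn E)),
      ∑ k ∈ range (2 * nn E * (2 * nn E)), tent (tens 0 E).1 i j k * x i * z k = lam E * x j := by
  obtain ⟨ξ, h1, h2, h3, h4⟩ := cons_complete h
  have κ1 : size E + ub (size E) < 2 * nn E := by unfold nn; omega
  have z0 : ∀ i j, ((cons E).map fun c => bl c ξ ξ * cf c i j).sum = 0 := fun i j => by
    rw [List.map_congr_left (g := fun _ => 0) fun c hc => by rw [h4 c hc, zero_mul]]; simp
  have sq' : ∀ a : ℝ, a ^ 2 = a * a := sq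
  have R : ∀ i < 2 * nn E * (2 * nn E), ∀ j < 2 * nn E * (2 * nn E),
      ∑ k ∈ range (2 * nn E * (2 * nn E)), tent (tens 0 E).1 i j k *
        (ξ (k / (2 * nn E)) * ξ (k % (2 * nn E))) = lam E * (ξ i * ξ j) := fun i hi j hj => by
    rw [sum_congr rfl fun k hk => by rw [tens, tens0_ent _ _ _ _ _ hi hj (mem_range.1 hk)]]
    by_cases h : i < 2 * nn E ∧ j < 2 * nn E
    · simp only [h, and_self, if_true, q_symm _ _ _ _ i j]
      rw [sum_sq _ fun k l => (qent 0 (cons E) (lam E) (size E + ub (size E)) k l i j).val * (ξ k * ξ l),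
        q_apply 0 (cons_in E) _ κ1 ξ ξ h.1 h.2, z0]
      simp
    · rcases not_and_or.1 h with h' | h' <;> simp [h, h2 _ (not_lt.1 h')]
  have s1 : ∑ i ∈ range (2 * nn E * (2 * nn E)), ξ i ^ 2 = 1 := by
    rw [← h1, ← sum_pad (Nat.le_mul_self (2 * nn E))]
    exact sum_congr rfl fun i _ => by split_ifs with h <;> simp [h2 i, not_lt.1, h]
  have s2 : ∑ k ∈ range (2 * nn E * (2 * nn E)), (ξ (k / (2 * nn E)) * ξ (k % (2 * nn E))) ^ 2 = 1 := by
    rw [sum_sq _ fun k l => (ξ k * ξ l) ^ 2]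
    simp [mul_pow, ← mul_sum, h1]
  refine ⟨ξ, fun k => ξ (k / (2 * nn E)) * ξ (k % (2 * nn E)), s1, s2, ?_, fun k hk => ?_,
    fun i hi => ?_, fun j hj => ?_⟩
  · rw [sum_congr rfl fun k hk => by rw [tens_third 1 E ξ ξ (mem_range.1 hk), z0]]
    simp only [mul_zero, sub_zero, add_mul, sum_add_distrib, mul_assoc (lam E : ℝ), ← sq', ← mul_sum, s2]
    rw [sum_sq _ fun k l => (if k = size E + ub (size E) ∧ l = size E + ub (size E) then
      ((1 : ℕ) : ℝ) * ξ (size E + ub (size E)) ^ 2 else 0) * (ξ k * ξ l)]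
    simp only [ite_and, ite_mul, zero_mul, sum_ite_irrel, sum_const_zero, sum_ite_eq', mem_range, κ1,
      if_true, ← sq', mul_one, Nat.cast_one, one_mul, lt_add_iff_pos_right]
    positivity
  · rw [tens_third 0 E ξ ξ hk, z0]; simp
  · rw [sum_congr rfl fun j hj => by
      rw [sum_congr rfl fun k _ => mul_right_comm _ _ _, ← sum_mul, R i hi j (mem_range.1 hj)]]
    simp only [mul_assoc (lam E : ℝ), mul_assoc (ξ i), ← sq', ← mul_sum, s1, mul_one]
  · rw [sum_congr rfl fun i hi => by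
      rw [sum_congr rfl fun k _ => mul_right_comm _ _ _, ← sum_mul, R i (mem_range.1 hi) j hj]]
    simp only [mul_comm (ξ _) (ξ j), mul_assoc (lam E : ℝ), mul_assoc (ξ j), ← sq', ← mul_sum, s1,
      mul_one]

end

end Pool.Agent.Cx
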