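import Mathlib

namespace Pool.Agent.Lib.helper11.Ekeland

open Set Filter Topology Metric

/-- Ekeland's variational principle (maximum form) -/
lemma eke {X : Type*} [MetricSpace X] [CompleteSpace X] {K : Set X} (hK : IsClosed K) {f : X → ℝ}
    (hf : Continuous f) {C : ℝ} (hb : ∀ z ∈ K, f z ≤ C) {k : ℝ} (hk : 0 < k) {x : X} (hx : x ∈ K) :
    ∃ y ∈ K, k * dist y x ≤ f y - f x ∧ ∀ z ∈ K, f z - f y ≤ k * dist z y := by
  let S : X → Set X := fun a => {z | z ∈ K ∧ k * dist z a ≤ f z - f a}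
  have tr : ∀ {a b c}, b ∈ S a → c ∈ S b → c ∈ S a := fun {a b c} h g => ⟨g.1, by
    have := mul_le_mul_of_nonneg_left (dist_triangle c b a) hk.le
    linarith [h.2, g.2]⟩
  have step : ∀ (n : ℕ) (a : K), ∃ b : K, b.1 ∈ S a ∧ ∀ c ∈ S a, f c - f b ≤ (1 / 2) ^ n := by
    intro n a
    obtain ⟨_, ⟨b, hb', rfl⟩, h⟩ := Real.add_neg_lt_sSup (s := f '' S a) ⟨_, a, ⟨a.2, by simp⟩, rfl⟩
      (show -(1 / 2 : ℝ) ^ n < 0 by simp)
    refine ⟨⟨b, hb'.1⟩, hb', fun c hc => ?_⟩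
    have := le_csSup (s := f '' S a) ⟨C, by rintro _ ⟨z, hz, rfl⟩; exact hb z hz.1⟩ ⟨c, hc, rfl⟩
    linarith
  choose g h1 h2 using step
  let u : ℕ → K := fun n => Nat.rec ⟨x, hx⟩ g n
  have mono : ∀ n m, n ≤ m → (u m).1 ∈ S (u n).1 := fun n m h => by
    induction h with
    | refl => exact ⟨(u n).2, by simp⟩
    | step _ ih => exact tr ih (h1 _ _)
  have small : ∀ n c, c ∈ S (u (n + 1)) → dist c (u (n + 1)) ≤ (1 / 2) ^ n / k := fun n c hc => by
    rw [le_div_iff₀' hk]; exact hc.2.trans (h2 n (u n) c (tr (h1 _ _) hc))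
  have t0 : Tendsto (fun n : ℕ => (1 / 2 : ℝ) ^ n / k) atTop (𝓝 0) := by
    simpa using (tendsto_pow_atTop_nhds_zero_of_lt_one (r := (1 / 2 : ℝ)) (by norm_num)
      (by norm_num)).div_const k
  obtain ⟨y, hy⟩ := cauchySeq_tendsto_of_complete (u := fun n => (u (n + 1)).1)
    (cauchySeq_of_le_tendsto_0' _ (fun n m h => by
      rw [dist_comm]; exact small n _ (mono (n + 1) (m + 1) (by omega))) t0)
  have yS : ∀ n, y ∈ S (u n).1 := fun n =>
    (hK.inter (isClosed_le (f := fun z => k * dist z (u n).1) (g := fun z => f z - f (u n).1)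
      (by fun_prop) (by fun_prop))).mem_of_tendsto hy
      ((eventually_ge_atTop n).mono fun m h => mono n (m + 1) (by omega))
  refine ⟨y, (yS 0).1, (yS 0).2, fun z hz => not_lt.1 fun h => ?_⟩
  have : Tendsto (fun n => (u (n + 1)).1) atTop (𝓝 z) :=
    tendsto_iff_dist_tendsto_zero.2 (squeeze_zero (fun _ => dist_nonneg) (fun n => by
      rw [dist_comm]; exact small n z (tr (yS (n + 1)) ⟨hz, h.le⟩)) t0)
  simp [tendsto_nhds_unique this hy] at h

end Pool.Agent.Lib.helper11.Ekeland
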