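import Mathlib

set_option autoImplicit false

namespace Pool.Agent.Lib.H11GSp

open Finset

variable {V : Type} [AddCommGroup V] [Module ℂ V]

/-- `q` times the projection onto the `ζ`-eigenspace. -/
noncomputable def proj (u : Module.End ℂ V) (q : ℕ) (ζ : ℂ) : Module.End ℂ V :=
  ∑ i ∈ range q, (ζ⁻¹ • u) ^ i

lemma geom_root (η : ℂ) (q : ℕ) (h : η ^ q = 1) :
    ∑ i ∈ range q, η ^ i = if η = 1 then (q : ℂ) else 0 := by
  split_ifs with h1
  · simp [h1]
  · rw [geom_sum_eq h1, h]; simp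

lemma proj_eigen (u : Module.End ℂ V) (q : ℕ) (ζ η : ℂ) (y : V) (hy : u y = η • y) :
    proj u q ζ y = (∑ i ∈ range q, (ζ⁻¹ * η) ^ i) • y := by
  unfold proj
  rw [LinearMap.sum_apply, sum_smul]
  refine sum_congr rfl fun i _ => ?_
  induction i with
  | zero => simp
  | succ i ih =>
    rw [pow_succ', Module.End.mul_apply, ih (by simp_all; omega), map_smul, LinearMap.smul_apply,
      hy, smul_smul, smul_smul, pow_succ, mul_assoc]

lemma pow_apply_mod (y : Module.End ℂ V) (q : ℕ) (w : V) (hw : (y ^ q) w = w) (n : ℕ) :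
    (y ^ n) w = (y ^ (n % q)) w := by
  have h : ∀ c : ℕ, (y ^ (q * c)) w = w := by
    intro c
    induction c with
    | zero => simp
    | succ c ih => rw [Nat.mul_succ, pow_add, Module.End.mul_apply, hw, ih]
  conv_lhs => rw [← Nat.mod_add_div n q, pow_add, Module.End.mul_apply, h]

lemma sum_mul_coprime (y : Module.End ℂ V) (q a : ℕ) (hq : 0 < q) (ha : q.Coprime a) (w : V)
    (hw : (y ^ q) w = w) :
    ∑ i ∈ range q, (y ^ (a * i)) w = ∑ i ∈ range q, (y ^ i) w := by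
  have hinj : Set.InjOn (fun i => a * i % q) (range q : Set ℕ) := by
    intro i hi j hj hij
    have h1 : i ≡ j [MOD q] := Nat.ModEq.cancel_left_of_coprime ha hij
    exact Nat.ModEq.eq_of_lt_of_lt h1 (mem_range.1 hi) (mem_range.1 hj)
  have himg : (range q).image (fun i => a * i % q) = range q := by
    apply eq_of_subset_of_card_le
    · intro x hx
      obtain ⟨i, -, rfl⟩ := mem_image.1 hx
      exact mem_range.2 (Nat.mod_lt _ hq)
    · rw [card_image_of_injOn hinj]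
  conv_rhs => rw [← himg, sum_image hinj]
  exact sum_congr rfl fun i _ => pow_apply_mod y q w hw _

lemma proj_isEigen (u : Module.End ℂ V) (q : ℕ) (ζ : ℂ) (hζ : ζ ^ q = 1) (hζ0 : ζ ≠ 0) (w : V)
    (hw : (u ^ q) w = w) : u (proj u q ζ w) = ζ • proj u q ζ w := by
  set y : Module.End ℂ V := ζ⁻¹ • u with hy
  have hyq : (y ^ q) w = w := by
    rw [hy, smul_pow, inv_pow, hζ, inv_one, one_smul, hw]
  have h1 : ((y - 1) * ∑ i ∈ range q, y ^ i) w = 0 := by
    rw [mul_geom_sum, LinearMap.sub_apply, hyq]; simp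
  rw [Module.End.mul_apply, LinearMap.sub_apply, sub_eq_zero, Module.End.one_apply] at h1
  have h2 : u = ζ • y := by rw [hy, smul_smul, mul_inv_cancel₀ hζ0, one_smul]
  have h3 : u (proj u q ζ w) = (ζ • y) (proj u q ζ w) := by rw [← h2]
  rw [h3, LinearMap.smul_apply]
  congr 1

lemma sum_proj (u : Module.End ℂ V) (q : ℕ) (hq : 0 < q) (ω : ℂ) (hω : IsPrimitiveRoot ω q) (w : V) :
    ∑ l ∈ range q, proj u q (ω ^ l) w = (q : ℂ) • w := by
  unfold proj
  simp only [LinearMap.sum_apply, smul_pow, LinearMap.smul_apply]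
  rw [sum_comm]
  simp only [← sum_smul]
  have h : ∀ i ∈ range q, ∑ l ∈ range q, (ω ^ l)⁻¹ ^ i = if i = 0 then (q : ℂ) else 0 := by
    intro i hi
    have e : ∀ l, (ω ^ l)⁻¹ ^ i = ((ω ^ i)⁻¹) ^ l := by
      intro l; rw [inv_pow, inv_pow, ← pow_mul, ← pow_mul, mul_comm]
    simp only [e]
    rw [geom_root _ _ (by rw [inv_pow, ← pow_mul, mul_comm, pow_mul, hω.pow_eq_one]; simp)]
    simp only [inv_eq_one, hω.pow_eq_one_iff_dvd]
    congr 1
    apply propext
    constructor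
    · intro hd
      exact Nat.eq_zero_of_dvd_of_lt hd (mem_range.1 hi)
    · rintro rfl; simp
  rw [sum_congr rfl fun i hi => by rw [h i hi]]
  rw [sum_eq_single 0]
  · simp
  · intro i _ hi; simp [hi]
  · intro h0; exact absurd (mem_range.2 hq) h0

theorem exists_fixed (p : ℕ) [hp : Fact p.Prime] (u : Module.End ℂ V)
    (T : ℚ_[p] → Module.End ℂ V) (hT1 : T 1 = 1)
    (hTm : ∀ a b, ‖a‖ = 1 → ‖b‖ = 1 → T a * T b = T (a * b))
    (huT : ∀ a : ℕ, ‖(a : ℚ_[p])‖ = 1 → u * T a = T a * u ^ a)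
    (hs : ∀ v : V, ∃ r : ℕ, ∀ a : ℚ_[p], ‖a‖ = 1 → ‖a - 1‖ ≤ (p : ℝ) ^ (-(r : ℤ)) → T a v = v)
    (w : V) (k N : ℕ) (hw : ∀ a : ℚ_[p], ‖a‖ = 1 → ‖a - 1‖ ≤ (p : ℝ) ^ (-(k : ℤ)) → T a w = w)
    (hwk : (u ^ (p ^ k)) w ≠ w) (hwN : (u ^ (p ^ N)) w = w) :
    ∃ z : V, z ≠ 0 ∧ ∀ a : ℚ_[p], ‖a‖ = 1 → T a z = z := by
  classical
  have hp1 : 1 < p := hp.out.one_lt
  have hpR : (1 : ℝ) < p := by exact_mod_cast hp1
  set q := p ^ N with hq
  have hq0 : 0 < q := pow_pos hp.out.pos N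
  have hqC : (q : ℂ) ≠ 0 := by exact_mod_cast hq0.ne'
  have hω := Complex.isPrimitiveRoot_exp q hq0.ne'
  set ω := Complex.exp (2 * Real.pi * Complex.I / q) with hωdef
  have hroot : ∀ l, (ω ^ l) ^ q = 1 := fun l => by
    rw [← pow_mul, mul_comm, pow_mul, hω.pow_eq_one, one_pow]
  have hne0 : ∀ l, ω ^ l ≠ 0 := fun l => pow_ne_zero _ (hω.ne_zero hq0.ne')
  have hpow : ∀ (η : ℂ) (y : V), u y = η • y → ∀ n : ℕ, (u ^ n) y = η ^ n • y := by
    intro η y hy n
    induction n with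
    | zero => simp
    | succ n ih => rw [pow_succ', Module.End.mul_apply, ih, map_smul, hy, smul_smul, pow_succ]
  obtain ⟨l, hl1, hl2⟩ : ∃ l, (ω ^ l) ^ (p ^ k) ≠ 1 ∧ proj u q (ω ^ l) w ≠ 0 := by
    by_contra hcon
    push Not at hcon
    apply hwk
    have h1 : (u ^ (p ^ k)) ((q : ℂ) • w) = (q : ℂ) • w := by
      rw [← sum_proj u q hq0 ω hω w, map_sum]
      refine sum_congr rfl fun l _ => ?_
      by_cases h : (ω ^ l) ^ (p ^ k) = 1
      · rw [hpow _ _ (proj_isEigen u q _ (hroot l) (hne0 l) w hwN), h, one_smul]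
      · rw [hcon l h, map_zero]
    rw [map_smul] at h1
    exact smul_right_injective V hqC h1
  set ζ := ω ^ l with hζ
  set v := proj u q ζ w with hv
  have hζq : ζ ^ q = 1 := hroot l
  have hζ0 : ζ ≠ 0 := hne0 l
  have hvE : u v = ζ • v := proj_isEigen u q ζ hζq hζ0 w hwN
  have hTv : ∀ a : ℕ, ‖(a : ℚ_[p])‖ = 1 → ζ ^ a = ζ → T a v = v := by
    intro a ha hζa
    have hcop : p.Coprime a := Padic.norm_natCast_eq_one_iff.1 ha
    have ha0 : a ≠ 0 := by
      rintro rfl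
      simp at ha
    have h1 : ζ ^ (a - 1) = 1 := by
      have : ζ ^ (a - 1) * ζ = 1 * ζ := by
        rw [← pow_succ, one_mul, show a - 1 + 1 = a by omega, hζa]
      exact mul_right_cancel₀ hζ0 this
    obtain ⟨s, -, hs'⟩ := (Nat.dvd_prime_pow hp.out).1 (orderOf_dvd_of_pow_eq_one hζq)
    have h2 : k ≤ s := by
      by_contra h
      apply hl1
      apply orderOf_dvd_iff_pow_eq_one.1
      rw [hs']
      exact pow_dvd_pow _ (by omega)
    have h3 : p ^ k ∣ a - 1 := (pow_dvd_pow p h2).trans (hs' ▸ orderOf_dvd_of_pow_eq_one h1)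
    have h4 : ‖(a : ℚ_[p]) - 1‖ ≤ (p : ℝ) ^ (-(k : ℤ)) := by
      have := (Padic.norm_int_le_pow_iff_dvd (p := p) ((a - 1 : ℕ) : ℤ) k).2 (by exact_mod_cast h3)
      rw [Nat.cast_sub (by omega)] at this
      simpa using this
    have h5 := hw a ha h4
    set y : Module.End ℂ V := ζ⁻¹ • u with hy
    have hyq : (y ^ q) w = w := by
      rw [hy, smul_pow, inv_pow, hζq, inv_one, one_smul, hwN]
    have h6 : y * T a = T a * y ^ a := by
      rw [hy, smul_mul_assoc, huT a ha, smul_pow, inv_pow, hζa, mul_smul_comm]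
    have h7 : ∀ i : ℕ, y ^ i * T a = T a * y ^ (a * i) := by
      intro i
      induction i with
      | zero => simp
      | succ i ih => rw [pow_succ, mul_assoc, h6, ← mul_assoc, ih, mul_assoc, ← pow_add, Nat.mul_succ]
    have h8 : v = ∑ i ∈ range q, (y ^ i) w := by
      rw [hv, proj, LinearMap.sum_apply]
    calc T a v = T a (∑ i ∈ range q, (y ^ (a * i)) w) := by
          rw [sum_mul_coprime y q a hq0 (Nat.Coprime.pow_left N hcop) w hyq, ← h8]
      _ = ∑ i ∈ range q, (y ^ i) w := by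
          rw [map_sum]
          refine sum_congr rfl fun i _ => ?_
          rw [← Module.End.mul_apply, ← h7, Module.End.mul_apply, h5]
      _ = v := h8.symm
  obtain ⟨r, hr⟩ := hs v
  have happrox : ∀ a : ℚ_[p], ‖a‖ = 1 → ∃ a' : ℕ, a' < p ^ (r + 1) ∧ ‖(a' : ℚ_[p])‖ = 1 ∧
      T a v = T a' v := by
    intro a ha
    set x : ℤ_[p] := ⟨a, ha.le⟩ with hx
    have h1 := (PadicInt.norm_le_pow_iff_mem_span_pow _ _).2 (PadicInt.appr_spec (r + 1) x)
    have h2 : ‖a - (x.appr (r + 1) : ℚ_[p])‖ ≤ (p : ℝ) ^ (-((r + 1 : ℕ) : ℤ)) := by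
      rw [PadicInt.norm_def, PadicInt.coe_sub, PadicInt.coe_natCast] at h1
      exact h1
    have h3 : (p : ℝ) ^ (-((r + 1 : ℕ) : ℤ)) < 1 := zpow_lt_one_of_neg₀ hpR (by omega)
    have h4 : (p : ℝ) ^ (-((r + 1 : ℕ) : ℤ)) ≤ (p : ℝ) ^ (-(r : ℤ)) :=
      zpow_le_zpow_right₀ hpR.le (by omega)
    have h5 : ‖(x.appr (r + 1) : ℚ_[p])‖ = 1 := by
      rw [← ha]
      apply Padic.norm_eq_of_norm_sub_lt_right
      rw [ha, norm_sub_rev]
      exact h2.trans_lt h3
    refine ⟨x.appr (r + 1), PadicInt.appr_lt _ _, h5, ?_⟩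
    set b : ℚ_[p] := ((x.appr (r + 1) : ℕ) : ℚ_[p]) with hb
    have hb0 : b ≠ 0 := by
      intro h; rw [h] at h5; simp at h5
    have h6 : ‖a / b‖ = 1 := by rw [norm_div, ha, h5]; simp
    have h7 : ‖a / b - 1‖ ≤ (p : ℝ) ^ (-(r : ℤ)) := by
      rw [div_sub_one hb0, norm_div, h5, div_one]
      exact h2.trans h4
    have h8 : a = b * (a / b) := by field_simp
    conv_lhs => rw [h8, ← hTm _ _ h5 h6, Module.End.mul_apply, hr _ h6 h7]
  set O : Set V := {y | ∃ a : ℚ_[p], ‖a‖ = 1 ∧ y = T a v} with hO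
  have hOfin : O.Finite := by
    refine ((range (p ^ (r + 1))).finite_toSet.image (fun a' : ℕ => T a' v)).subset ?_
    rintro _ ⟨a, ha, rfl⟩
    obtain ⟨a', h1, -, h3⟩ := happrox a ha
    exact ⟨a', by simpa using h1, h3.symm⟩
  refine ⟨∑ y ∈ hOfin.toFinset, y, ?_, ?_⟩
  · intro hz
    have h1 : proj u q ζ (∑ y ∈ hOfin.toFinset, y) = (q : ℂ) • v := by
      rw [map_sum, sum_eq_single v]
      · rw [proj_eigen u q ζ ζ v hvE, inv_mul_cancel₀ hζ0]; simp
      · intro y hy hyv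
        obtain ⟨a, ha, rfl⟩ := hOfin.mem_toFinset.1 hy
        obtain ⟨a', -, h2, h3⟩ := happrox a ha
        rw [h3] at hyv ⊢
        have h4 : u (T a' v) = ζ ^ a' • T a' v := by
          rw [← Module.End.mul_apply, huT a' h2, Module.End.mul_apply, hpow _ _ hvE, map_smul]
        rw [proj_eigen u q ζ _ _ h4, geom_root, if_neg, zero_smul]
        · intro h5
          apply hyv
          apply hTv a' h2
          rw [inv_mul_eq_one₀ hζ0] at h5
          exact h5.symm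
        · rw [mul_pow, inv_pow, hζq, ← pow_mul, mul_comm a', pow_mul, hζq]; simp
      · intro h
        exact absurd (hOfin.mem_toFinset.2 ⟨1, norm_one, by rw [hT1]; rfl⟩) h
    rw [hz, map_zero] at h1
    exact hl2 ((smul_eq_zero.1 h1.symm).resolve_left hqC)
  · intro b hb
    have hb0 : b ≠ 0 := by
      intro h; rw [h] at hb; simp at hb
    have hinj : Function.Injective (T b) := by
      intro x y hxy
      have h1 : T b⁻¹ * T b = 1 := by
        rw [hTm _ _ (by rw [norm_inv, hb]; simp) hb, inv_mul_cancel₀ hb0, hT1]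
      have := congrArg (T b⁻¹) hxy
      rwa [← Module.End.mul_apply, ← Module.End.mul_apply, h1] at this
    have himg : hOfin.toFinset.image (T b) = hOfin.toFinset := by
      apply eq_of_subset_of_card_le
      · intro y hy
        obtain ⟨x, hx, rfl⟩ := mem_image.1 hy
        obtain ⟨a, ha, rfl⟩ := hOfin.mem_toFinset.1 hx
        refine hOfin.mem_toFinset.2 ⟨b * a, by rw [norm_mul, ha, hb]; simp, ?_⟩
        rw [← hTm _ _ hb ha]; rfl
      · rw [card_image_of_injective _ hinj]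
    rw [map_sum]
    conv_rhs => rw [← himg, sum_image hinj.injOn]

end Pool.Agent.Lib.H11GSp
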