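import Pool.Agent.Lib.helper11.GSpA

set_option autoImplicit false

namespace Pool.Agent.Lib.H11GSp

open Matrix

section alg

variable {F : Type} [Field F] {m : ℕ}

abbrev MM (m : ℕ) (F : Type) := Matrix (Fin m ⊕ Fin m) (Fin m ⊕ Fin m) F

def IsG (g : MM m F) : Prop := ∃ c : F, c ≠ 0 ∧ gᵀ * Matrix.J (Fin m) F * g = c • Matrix.J (Fin m) F

def nU (S : Matrix (Fin m) (Fin m) F) : MM m F := fromBlocks 1 S 0 1
def nL (S : Matrix (Fin m) (Fin m) F) : MM m F := fromBlocks 1 0 S 1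
def dg (A D : Matrix (Fin m) (Fin m) F) : MM m F := fromBlocks A 0 0 D

lemma IsG.mul {g h : MM m F} (hg : IsG g) (hh : IsG h) : IsG (g * h) := by
  obtain ⟨c, hc, hg⟩ := hg
  obtain ⟨d, hd, hh⟩ := hh
  refine ⟨c * d, mul_ne_zero hc hd, ?_⟩
  calc (g * h)ᵀ * J (Fin m) F * (g * h) = hᵀ * (gᵀ * J (Fin m) F * g) * h := by
        rw [transpose_mul]; simp only [Matrix.mul_assoc]
    _ = (c * d) • J (Fin m) F := by
        rw [hg, Matrix.mul_smul, Matrix.smul_mul, hh, smul_smul]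

lemma isG_blocks {A B C D : Matrix (Fin m) (Fin m) F} {c : F} :
    (fromBlocks A B C D)ᵀ * J (Fin m) F * fromBlocks A B C D = c • J (Fin m) F ↔
      Cᵀ * A - Aᵀ * C = 0 ∧ Cᵀ * B - Aᵀ * D = -(c • 1) ∧ Dᵀ * A - Bᵀ * C = c • 1 ∧
        Dᵀ * B - Bᵀ * D = 0 := by
  rw [J, fromBlocks_transpose, fromBlocks_multiply, fromBlocks_multiply, fromBlocks_smul,
    fromBlocks_inj]
  simp [sub_eq_add_neg]

lemma isG_nU {S : Matrix (Fin m) (Fin m) F} (hS : Sᵀ = S) : IsG (nU S) :=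
  ⟨1, one_ne_zero, isG_blocks.2 (by simp [hS])⟩

lemma isG_nL {S : Matrix (Fin m) (Fin m) F} (hS : Sᵀ = S) : IsG (nL S) :=
  ⟨1, one_ne_zero, isG_blocks.2 (by simp [hS])⟩

lemma isG_dg {A D : Matrix (Fin m) (Fin m) F} {c : F} (hc : c ≠ 0) (h : Aᵀ * D = c • 1) :
    IsG (dg A D) := by
  have h' : Dᵀ * A = c • 1 := by
    have := congrArg transpose h
    simpa using this
  exact ⟨c, hc, isG_blocks.2 (by simp [h, h'])⟩

lemma isG_J : IsG (J (Fin m) F) := ⟨1, one_ne_zero, isG_blocks.2 (by simp)⟩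

lemma isG_negJ : IsG (-J (Fin m) F) := by
  obtain ⟨c, hc, h⟩ := isG_J (F := F) (m := m)
  exact ⟨c, hc, by simpa using h⟩

lemma isG_scalar {b : F} (hb : b ≠ 0) : IsG (b • (1 : MM m F)) :=
  ⟨b * b, mul_ne_zero hb hb, by simp [smul_smul]⟩

lemma dg_mul (A D A' D' : Matrix (Fin m) (Fin m) F) : dg A D * dg A' D' = dg (A * A') (D * D') := by
  simp [dg, fromBlocks_multiply]

lemma nU_mul (S S' : Matrix (Fin m) (Fin m) F) : nU S * nU S' = nU (S + S') := by
  simp [nU, fromBlocks_multiply, add_comm]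

lemma nU_zero : nU (0 : Matrix (Fin m) (Fin m) F) = 1 := by simp [nU]

variable {V : Type} [AddCommGroup V] [Module ℂ V]

theorem central (ρ : MM m F → Module.End ℂ V)
    (hmul : ∀ g h, IsG g → IsG h → ρ (g * h) = ρ g * ρ h) (h1 : ρ 1 = 1)
    (hN : ∀ S : Matrix (Fin m) (Fin m) F, Sᵀ = S → ρ (nU S) = 1)
    (A B C D : Matrix (Fin m) (Fin m) F) (b : F) (hb : b ≠ 0) (hA : A.det ≠ 0)
    (hg : (fromBlocks A B C D)ᵀ * J (Fin m) F * fromBlocks A B C D = (b * b) • J (Fin m) F) :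
    ρ (fromBlocks A B C D) = ρ (b • 1) := by
  let H : MM m F → Prop := fun g => IsG g ∧ ρ g = 1
  have Hmul : ∀ {g h}, H g → H h → H (g * h) := fun hg hh =>
    ⟨hg.1.mul hh.1, by rw [hmul _ _ hg.1 hh.1, hg.2, hh.2, one_mul]⟩
  have HU : ∀ {S}, Sᵀ = S → H (nU S) := fun hS => ⟨isG_nU hS, hN _ hS⟩
  have HL : ∀ {S}, Sᵀ = S → H (nL S) := by
    intro S hS
    have hS' : (-S)ᵀ = -S := by rw [transpose_neg, hS]
    have e : nL S = J (Fin m) F * nU (-S) * (-J (Fin m) F) := by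
      simp [nL, nU, J, fromBlocks_multiply, fromBlocks_neg]
    refine ⟨isG_nL hS, ?_⟩
    rw [e, hmul _ _ (isG_J.mul (isG_nU hS')) isG_negJ, hmul _ _ isG_J (isG_nU hS'), hN _ hS',
      mul_one, ← hmul _ _ isG_J isG_negJ, Matrix.mul_neg, J_squared, neg_neg, h1]
  have HS : ∀ {S : Matrix (Fin m) (Fin m) F}, Sᵀ = S → S.det ≠ 0 → H (dg S (S⁻¹)ᵀ) := by
    intro S hS hd
    have hu : IsUnit S.det := isUnit_iff_ne_zero.2 hd
    have hS' : (S⁻¹)ᵀ = S⁻¹ := by rw [transpose_nonsing_inv, hS]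
    have hS'' : (-S⁻¹)ᵀ = -S⁻¹ := by rw [transpose_neg, hS']
    have e : dg S (S⁻¹)ᵀ = nU S * nL (-S⁻¹) * nU S * (nU (-1) * nL 1 * nU (-1)) := by
      rw [hS']
      simp [dg, nU, nL, fromBlocks_multiply, mul_nonsing_inv _ hu, nonsing_inv_mul _ hu]
    rw [e]
    exact Hmul (Hmul (Hmul (HU hS) (HL hS'')) (HU hS))
      (Hmul (Hmul (HU (by simp)) (HL (by simp))) (HU (by simp)))
  have Pmul : ∀ X Y : Matrix (Fin m) (Fin m) F, H (dg X (X⁻¹)ᵀ) → H (dg Y (Y⁻¹)ᵀ) →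
      H (dg (X * Y) ((X * Y)⁻¹)ᵀ) := by
    intro X Y hX hY
    rw [Matrix.mul_inv_rev, transpose_mul, ← dg_mul]
    exact Hmul hX hY
  have HA : ∀ X : Matrix (Fin m) (Fin m) F, X.det ≠ 0 → H (dg X (X⁻¹)ᵀ) := by
    intro X hX
    refine diagonal_transvection_induction_of_det_ne_zero (fun X => H (dg X (X⁻¹)ᵀ)) X hX
      (fun d hd => HS (diagonal_transpose d) hd) ?_ (fun X Y _ _ => Pmul X Y)
    rintro ⟨i, j, hij, c⟩
    have hsw : (swap F i j).det ≠ 0 := by
      intro h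
      have := congrArg det (swap_mul_self (R := F) i j)
      rw [det_mul, h] at this
      simp at this
    have e : transvection i j c = swap F i j * (swap F i j * transvection i j c) := by
      rw [← Matrix.mul_assoc, swap_mul_self, Matrix.one_mul]
    have e2 : swap F i j * transvection i j c = swap F i j + single j j c := by
      rw [transvection, Matrix.mul_add, Matrix.mul_one]
      congr 1
      ext a b'
      by_cases ha : a = i
      · subst ha
        rw [swap_mul_apply_left]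
        simp [single_apply, hij, hij.symm]
      · by_cases hb' : a = j
        · subst hb'
          rw [swap_mul_apply_right]
          simp [single_apply]
        · rw [swap_mul_of_ne ha hb']
          simp [single_apply, Ne.symm ha, Ne.symm hb']
    change H (dg (transvection i j c) ((transvection i j c)⁻¹)ᵀ)
    rw [e]
    refine Pmul _ _ (HS (transpose_swap i j) hsw) (HS ?_ ?_)
    · rw [e2, transpose_add, transpose_swap, transpose_single]
    · rw [det_mul, det_transvection_of_ne i j hij, mul_one]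
      exact hsw
  obtain ⟨r1, r2, r3, r4⟩ := isG_blocks.1 hg
  have hu : IsUnit A.det := isUnit_iff_ne_zero.2 hA
  have i1 : A * A⁻¹ = 1 := mul_nonsing_inv _ hu
  have i2 : A⁻¹ * A = 1 := nonsing_inv_mul _ hu
  have i3 : (A⁻¹)ᵀ * Aᵀ = 1 := by rw [← transpose_mul, i1, transpose_one]
  have r1' : Cᵀ * A = Aᵀ * C := sub_eq_zero.1 r1
  have s1 : (C * A⁻¹)ᵀ = C * A⁻¹ := by
    calc (C * A⁻¹)ᵀ = (A⁻¹)ᵀ * (Cᵀ * A) * A⁻¹ := by
          rw [transpose_mul, Matrix.mul_assoc, Matrix.mul_assoc, i1, Matrix.mul_one]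
      _ = C * A⁻¹ := by rw [r1', ← Matrix.mul_assoc, i3, Matrix.one_mul]
  have hD : D = C * A⁻¹ * B + (b * b) • (A⁻¹)ᵀ := by
    have h2 : Aᵀ * D = Cᵀ * B + (b * b) • 1 := by
      rw [← sub_eq_iff_eq_add', ← neg_sub, r2, neg_neg]
    calc D = (A⁻¹)ᵀ * (Aᵀ * D) := by rw [← Matrix.mul_assoc, i3, Matrix.one_mul]
      _ = (C * A⁻¹)ᵀ * B + (b * b) • (A⁻¹)ᵀ := by
          rw [h2, Matrix.mul_add, Matrix.mul_smul, Matrix.mul_one, transpose_mul, Matrix.mul_assoc]
      _ = _ := by rw [s1]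
  have s2 : (A⁻¹ * B)ᵀ = A⁻¹ * B := by
    have h3 : Dᵀ * B = Bᵀ * D := sub_eq_zero.1 r4
    have h4 : Dᵀ = Bᵀ * (C * A⁻¹) + (b * b) • A⁻¹ := by
      rw [hD, transpose_add, transpose_smul, transpose_transpose, transpose_mul, s1]
    rw [h4] at h3
    conv_rhs at h3 => rw [hD]
    rw [Matrix.add_mul, Matrix.mul_add, Matrix.mul_assoc, add_right_inj, Matrix.smul_mul,
      Matrix.mul_smul] at h3
    rw [transpose_mul]
    exact (smul_right_injective _ (mul_ne_zero hb hb) h3).symm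
  have hb1 : (b⁻¹ • (1 : Matrix (Fin m) (Fin m) F))⁻¹ = b • 1 := by
    apply inv_eq_right_inv
    simp [smul_smul, hb]
  have H3 := HS (S := b⁻¹ • 1) (by simp) (by simp [hb])
  rw [hb1] at H3
  have e : fromBlocks A B C D = b • (1 : MM m F) *
      (nL (C * A⁻¹) * dg A (A⁻¹)ᵀ * dg (b⁻¹ • 1) (b • 1)ᵀ * nU (A⁻¹ * B)) := by
    conv_lhs => rw [hD]
    simp only [nL, nU, dg, fromBlocks_multiply, Matrix.smul_mul, Matrix.one_mul, fromBlocks_smul,
      fromBlocks_inj]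
    simp [smul_smul, hb, Matrix.mul_assoc, i2, ← Matrix.mul_assoc A, i1,
      ← Matrix.mul_assoc A⁻¹]
  have H4 := Hmul (Hmul (Hmul (HL s1) (HA A hA)) H3) (HU s2)
  rw [e, hmul _ _ (isG_scalar hb) H4.1, H4.2, mul_one]

end alg

lemma exists_sqrt (p : ℕ) [hp : Fact p.Prime] (c : ℚ_[p]) (hc : ‖c - 1‖ < 1 / 4) :
    ∃ b : ℚ_[p], c = b * b := by
  have hc1 : ‖c‖ = 1 := by
    rw [← norm_one (α := ℚ_[p])]
    apply Padic.norm_eq_of_norm_sub_lt_right
    rw [norm_one]; linarith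
  set x : ℤ_[p] := ⟨c, hc1.le⟩ with hx
  have h2 : (1 / 2 : ℝ) ≤ ‖(2 : ℚ_[p])‖ := by
    by_cases h : p = 2
    · subst h
      have := Padic.norm_p (p := 2)
      norm_num at this
      rw [this]
    · have : ‖((2 : ℕ) : ℚ_[p])‖ = 1 :=
        Padic.norm_natCast_eq_one_iff.2 ((Nat.coprime_primes hp.out Nat.prime_two).2 h)
      norm_num at this
      rw [this]; norm_num
  obtain ⟨z, hz, -⟩ := hensels_lemma (p := p) (F := (Polynomial.X ^ 2 - Polynomial.C x : Polynomial ℤ_[p]))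
    (a := 1) (by
      simp only [map_sub, map_pow, Polynomial.aeval_X, one_pow, Polynomial.aeval_C,
        Algebra.algebraMap_self, RingHom.id_apply, Polynomial.derivative_X_pow,
        Polynomial.derivative_C, map_zero, sub_zero, map_mul, mul_one]
      rw [PadicInt.norm_def, PadicInt.norm_def, PadicInt.coe_sub, PadicInt.coe_one,
        PadicInt.coe_natCast, norm_sub_rev]
      have : ‖((x : ℚ_[p])) - 1‖ < 1 / 4 := hc
      push_cast
      nlinarith)
  simp only [map_sub, map_pow, Polynomial.aeval_X, Polynomial.aeval_C, Algebra.algebraMap_self,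
    RingHom.id_apply] at hz
  refine ⟨z, ?_⟩
  have h3 : x = z * z := by linear_combination -hz
  have h4 := congrArg (fun t : ℤ_[p] => (t : ℚ_[p])) h3
  simpa using h4

end Pool.Agent.Lib.H11GSp
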