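import Mathlib

set_option autoImplicit false

namespace Pool.Agent.Lib.H11Higgs

open Set

abbrev S := ℕ × Fin 3

/-- finitely supported permutation -/
def FinSupp (σ : Equiv.Perm S) : Prop := {x | σ x ≠ x}.Finite

lemma finSupp_one : FinSupp 1 := by
  simp [FinSupp]

lemma FinSupp.inv {σ : Equiv.Perm S} (h : FinSupp σ) : FinSupp σ⁻¹ := by
  refine Set.Finite.subset h ?_
  intro x hx hx'
  apply hx
  rw [Equiv.Perm.inv_eq_iff_eq]
  exact hx'.symm

lemma FinSupp.mul {σ τ : Equiv.Perm S} (h : FinSupp σ) (h' : FinSupp τ) : FinSupp (σ * τ) := by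
  refine Set.Finite.subset (Set.Finite.union h h') ?_
  intro x hx
  by_contra hc
  simp only [mem_union, mem_setOf_eq, not_or, not_not] at hc
  apply hx
  rw [Equiv.Perm.mul_apply, hc.2, hc.1]

lemma finSupp_swap (a b : S) : FinSupp (Equiv.swap a b) := by
  refine Set.Finite.subset (Set.toFinite {a, b}) ?_
  intro x hx
  by_contra hc
  simp only [mem_insert_iff, mem_singleton_iff, not_or] at hc
  exact hx (Equiv.swap_apply_of_ne_of_ne hc.1 hc.2)

lemma FinSupp.image_eq {σ : Equiv.Perm S} (h : FinSupp σ) {A : Set S} (hA : σ '' A ⊆ A) :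
    σ '' A = A := by
  refine hA.antisymm ?_
  intro x hx
  by_cases hfx : σ x = x
  · exact ⟨x, hx, hfx⟩
  · have hfin : (A ∩ {x | σ x ≠ x}).Finite := Set.Finite.subset h inter_subset_right
    have hmaps : MapsTo σ (A ∩ {x | σ x ≠ x}) (A ∩ {x | σ x ≠ x}) := by
      intro y hy
      refine ⟨hA ⟨y, hy.1, rfl⟩, ?_⟩
      intro h2
      exact hy.2 (σ.injective h2)
    have hbij := (hfin.injOn_iff_bijOn_of_mapsTo hmaps).1 σ.injective.injOn
    obtain ⟨y, hy, hyx⟩ := hbij.surjOn ⟨hx, hfx⟩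
    exact ⟨y, hy.1, hyx⟩

def Good (𝓑 : Set (Set S)) : Prop :=
  (∀ B ∈ 𝓑, ∀ σ : Equiv.Perm S, FinSupp σ → σ '' B ∈ 𝓑) ∧
    (∀ B ∈ 𝓑, ∀ B' ∈ 𝓑, B ⊆ B' → B = B')

lemma exists_max (𝓑₀ : Set (Set S)) (h₀ : Good 𝓑₀) :
    ∃ 𝓑, 𝓑₀ ⊆ 𝓑 ∧ Good 𝓑 ∧ ∀ A : Set S, ∃ B ∈ 𝓑, A ⊆ B ∨ B ⊆ A := by
  obtain ⟨𝓑, h1, h2⟩ := zorn_subset_nonempty {𝓑 | Good 𝓑} (by
    intro c hc hchain _
    refine ⟨⋃₀ c, ⟨?_, ?_⟩, fun s hs => subset_sUnion_of_mem hs⟩
    · rintro B ⟨t, ht, hB⟩ σ hσ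
      exact ⟨t, ht, (hc ht).1 B hB σ hσ⟩
    · rintro B ⟨t, ht, hB⟩ B' ⟨t', ht', hB'⟩ hsub
      rcases hchain.total ht ht' with h | h
      · exact (hc ht').2 B (h hB) B' hB' hsub
      · exact (hc ht).2 B hB B' (h hB') hsub) 𝓑₀ h₀
  have hg : Good 𝓑 := h2.1
  refine ⟨𝓑, h1, hg, ?_⟩
  intro A
  by_contra hA
  push Not at hA
  have hgood : Good (𝓑 ∪ {C | ∃ σ : Equiv.Perm S, FinSupp σ ∧ C = σ '' A}) := by
    constructor
    · rintro B (hB | ⟨τ, hτ, rfl⟩) σ hσ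
      · exact Or.inl (hg.1 B hB σ hσ)
      · refine Or.inr ⟨σ * τ, hσ.mul hτ, ?_⟩
        rw [Equiv.Perm.coe_mul, image_comp]
    · rintro B (hB | ⟨τ, hτ, rfl⟩) B' (hB' | ⟨τ', hτ', rfl⟩) hsub
      · exact hg.2 B hB B' hB' hsub
      · exfalso
        refine (hA _ (hg.1 B hB τ'⁻¹ hτ'.inv)).2 ?_
        rintro _ ⟨y, hy, rfl⟩
        obtain ⟨z, hz, rfl⟩ := hsub hy
        simpa using hz
      · exfalso
        refine (hA _ (hg.1 B' hB' τ⁻¹ hτ.inv)).1 ?_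
        intro y hy
        exact ⟨τ y, hsub ⟨y, hy, rfl⟩, by simp⟩
      · have h3 : (τ'⁻¹ * τ : Equiv.Perm S) '' A ⊆ A := by
          rintro _ ⟨y, hy, rfl⟩
          obtain ⟨z, hz, hzy⟩ := hsub ⟨y, hy, rfl⟩
          rw [Equiv.Perm.mul_apply, ← hzy]
          simpa using hz
        have h4 := (hτ'.inv.mul hτ).image_eq h3
        conv_rhs => rw [← h4]
        rw [← image_comp, ← Equiv.Perm.coe_mul]
        simp
  have hsub := h2.2 hgood subset_union_left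
  have hAm : A ∈ 𝓑 := hsub (Or.inr ⟨1, finSupp_one, by simp⟩)
  exact (hA A hAm).1 subset_rfl

/-- the base attached to a set `Z` of indices -/
def BZ (Z : Set ℕ) : Set S := {x | (x.2 = 1 ∧ x.1 ∈ Z) ∨ (x.2 = 0 ∧ x.1 ∉ Z)}

def PR : Set S := {x | x.2 = 0 ∨ x.2 = 2}

open Classical in
/-- swap the layers `i` and `j` over the indices in `D` -/
noncomputable def layerSwap (D : Set ℕ) (i j : Fin 3) : Equiv.Perm S :=
  Equiv.prodCongrRight (fun n => if n ∈ D then Equiv.swap i j else Equiv.refl _)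

lemma layerSwap_of_mem {D : Set ℕ} {i j : Fin 3} {n : ℕ} (hn : n ∈ D) (k : Fin 3) :
    layerSwap D i j (n, k) = (n, Equiv.swap i j k) := by
  simp [layerSwap, hn]

lemma layerSwap_of_notMem {D : Set ℕ} {i j : Fin 3} {n : ℕ} (hn : n ∉ D) (k : Fin 3) :
    layerSwap D i j (n, k) = (n, k) := by
  simp [layerSwap, hn]

lemma finSupp_layerSwap {D : Set ℕ} (hD : D.Finite) (i j : Fin 3) : FinSupp (layerSwap D i j) := by
  refine Set.Finite.subset (hD.prod (Set.finite_univ (α := Fin 3))) ?_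
  rintro ⟨n, k⟩ hx
  refine ⟨?_, mem_univ _⟩
  by_contra hn
  exact hx (layerSwap_of_notMem hn k)

def B0 : Set (Set S) :=
  {C | ∃ σ : Equiv.Perm S, FinSupp σ ∧ ((∃ Z : Set ℕ, Z.Infinite ∧ C = σ '' BZ Z) ∨ C = σ '' PR)}

lemma diff_finite {σ : Equiv.Perm S} (hσ : FinSupp σ) {A B : Set S} (h : σ '' A ⊆ B) :
    (A \ B).Finite := by
  refine Set.Finite.subset hσ ?_
  intro x hx hfx
  exact hx.2 (h ⟨x, hx.1, hfx⟩)

lemma aux_sub {σ τ : Equiv.Perm S} {A B : Set S} (h : σ '' A ⊆ τ '' B) :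
    (τ⁻¹ * σ : Equiv.Perm S) '' A ⊆ B := by
  rintro _ ⟨y, hy, rfl⟩
  obtain ⟨z, hz, hzy⟩ := h ⟨y, hy, rfl⟩
  rw [Equiv.Perm.mul_apply, ← hzy]
  simpa using hz

lemma aux_eq {σ τ : Equiv.Perm S} {A B : Set S} (h : (τ⁻¹ * σ : Equiv.Perm S) '' A = B) :
    σ '' A = τ '' B := by
  rw [← h, ← image_comp, ← Equiv.Perm.coe_mul]
  simp

lemma layerSwap_BZ (Z Z' : Set ℕ) :
    layerSwap {n | ¬ (n ∈ Z ↔ n ∈ Z')} 0 1 '' BZ Z' ⊆ BZ Z := by
  rintro _ ⟨⟨n, k⟩, hy, rfl⟩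
  by_cases hn : n ∈ {n | ¬ (n ∈ Z ↔ n ∈ Z')}
  · rw [layerSwap_of_mem hn]
    simp only [mem_setOf_eq] at hn
    rcases hy with ⟨h1, h2⟩ | ⟨h1, h2⟩
    · simp only at h1 h2
      subst h1
      right
      exact ⟨by simp, fun h => hn ⟨fun _ => h2, fun _ => h⟩⟩
    · simp only at h1 h2
      subst h1
      left
      refine ⟨by simp, ?_⟩
      by_contra h
      exact hn ⟨fun h' => absurd h' h, fun h' => absurd h' h2⟩
  · rw [layerSwap_of_notMem hn]
    simp only [mem_setOf_eq, not_not] at hn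
    rcases hy with ⟨h1, h2⟩ | ⟨h1, h2⟩
    · exact Or.inl ⟨h1, hn.2 h2⟩
    · exact Or.inr ⟨h1, fun h => h2 (hn.1 h)⟩

lemma BZ_eq_of_subset {Z Z' : Set ℕ} (h : BZ Z ⊆ BZ Z') : BZ Z = BZ Z' := by
  have : Z = Z' := by
    ext n
    constructor
    · intro hn
      have : ((n, 1) : S) ∈ BZ Z' := h (Or.inl ⟨rfl, hn⟩)
      rcases this with h1 | h1
      · exact h1.2
      · exact absurd h1.1 (by simp)
    · intro hn
      by_contra hn'
      have : ((n, 0) : S) ∈ BZ Z' := h (Or.inr ⟨rfl, hn'⟩)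
      rcases this with h1 | h1
      · exact absurd h1.1 (by simp)
      · exact h1.2 hn
  rw [this]

lemma BZ_anti {σ : Equiv.Perm S} (hσ : FinSupp σ) {Z Z' : Set ℕ} (h : σ '' BZ Z ⊆ BZ Z') :
    σ '' BZ Z = BZ Z' := by
  have hfin := diff_finite hσ h
  set D : Set ℕ := {n | ¬ (n ∈ Z ↔ n ∈ Z')} with hD
  have hDfin : D.Finite := by
    refine (hfin.image Prod.fst).subset ?_
    intro n hn
    simp only [hD, mem_setOf_eq] at hn
    by_cases hz : n ∈ Z
    · refine ⟨(n, 1), ⟨Or.inl ⟨rfl, hz⟩, ?_⟩, rfl⟩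
      rintro (h1 | h1)
      · exact hn ⟨fun _ => h1.2, fun _ => hz⟩
      · exact absurd h1.1 (by simp)
    · refine ⟨(n, 0), ⟨Or.inr ⟨rfl, hz⟩, ?_⟩, rfl⟩
      rintro (h1 | h1)
      · exact absurd h1.1 (by simp)
      · exact hn ⟨fun h' => absurd h' hz, fun h' => absurd h' h1.2⟩
  have hτ := finSupp_layerSwap hDfin 0 1
  have h1 : layerSwap D 0 1 '' BZ Z' ⊆ BZ Z := layerSwap_BZ Z Z'
  have h2 : (σ * layerSwap D 0 1 : Equiv.Perm S) '' BZ Z' ⊆ BZ Z' := by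
    rw [Equiv.Perm.coe_mul, image_comp]
    exact (image_mono h1).trans h
  have h3 := (hσ.mul hτ).image_eq h2
  refine h.antisymm ?_
  rw [← h3, Equiv.Perm.coe_mul, image_comp]
  exact image_mono h1

lemma good_B0 : Good B0 := by
  constructor
  · rintro B ⟨τ, hτ, h⟩ σ hσ
    refine ⟨σ * τ, hσ.mul hτ, ?_⟩
    rcases h with ⟨Z, hZ, rfl⟩ | rfl
    · exact Or.inl ⟨Z, hZ, by rw [Equiv.Perm.coe_mul, image_comp]⟩
    · exact Or.inr (by rw [Equiv.Perm.coe_mul, image_comp])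
  · rintro B ⟨σ, hσ, h⟩ B' ⟨τ, hτ, h'⟩ hsub
    have hρ := hτ.inv.mul hσ
    rcases h with ⟨Z, hZ, rfl⟩ | rfl <;> rcases h' with ⟨Z', hZ', rfl⟩ | rfl
    · exact aux_eq (BZ_anti hρ (aux_sub hsub))
    · exfalso
      have hfin := diff_finite hρ (aux_sub hsub)
      apply hZ
      refine (hfin.image Prod.fst).subset ?_
      intro n hn
      refine ⟨(n, 1), ⟨Or.inl ⟨rfl, hn⟩, ?_⟩, rfl⟩
      rintro (h1 | h1) <;> exact absurd h1 (by simp)
    · exfalso
      have hfin := diff_finite hρ (aux_sub hsub)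
      apply Set.infinite_univ (α := ℕ)
      refine (hfin.image Prod.fst).subset ?_
      intro n _
      refine ⟨(n, 2), ⟨Or.inr rfl, ?_⟩, rfl⟩
      rintro (h1 | h1) <;> exact absurd h1.1 (by simp)
    · exact aux_eq (hρ.image_eq (aux_sub hsub))

open Classical in
/-- the operator of a family of bases -/
noncomputable def op (𝓑 : Set (Set S)) (A : Set S) : Set S :=
  if ∃ B ∈ 𝓑, B ⊆ A then univ else A

lemma mem_op {𝓑 : Set (Set S)} {A : Set S} {x : S} :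
    x ∈ op 𝓑 A ↔ x ∈ A ∨ ∃ B ∈ 𝓑, B ⊆ A := by
  unfold op
  split_ifs with h
  · simp [h]
  · simp [h]

lemma op_eq_univ {𝓑 : Set (Set S)} {A B : Set S} (hB : B ∈ 𝓑) (h : B ⊆ A) : op 𝓑 A = univ := by
  ext x
  simp only [mem_op, mem_univ, iff_true]
  exact Or.inr ⟨B, hB, h⟩

lemma exchange {𝓑 : Set (Set S)} (hg : Good 𝓑) {B : Set S} (hB : B ∈ 𝓑) {a q : S} (ha : a ∈ B)
    (hq : q ∉ B) : insert q (B \ {a}) ∈ 𝓑 := by
  have h := hg.1 B hB _ (finSupp_swap a q)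
  have : Equiv.swap a q '' B = insert q (B \ {a}) := by
    ext x
    constructor
    · rintro ⟨y, hy, rfl⟩
      by_cases hya : y = a
      · subst hya; simp
      · have hyq : y ≠ q := fun h => hq (h ▸ hy)
        rw [Equiv.swap_apply_of_ne_of_ne hya hyq]
        exact Or.inr ⟨hy, hya⟩
    · rintro (rfl | ⟨hx, hxa⟩)
      · exact ⟨a, ha, by simp⟩
      · have hxq : x ≠ q := fun h => hq (h ▸ hx)
        exact ⟨x, hx, Equiv.swap_apply_of_ne_of_ne hxa hxq⟩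
  rwa [this] at h

/-- The layer `P`. -/
def P : Set S := {x | x.2 = 0}

/-- The set `P ∪ Q`. -/
def PQ : Set S := {x | x.2 = 0 ∨ x.2 = 1}

/-- All properties of the counterexample. -/
theorem exists_op : ∃ f : Set S → Set S,
    (∀ A, A ⊆ f A) ∧ (∀ A B, A ⊆ B → f A ⊆ f B) ∧ (∀ A, f (f A) = f A) ∧
    (∀ A B : Set S, ∀ q ∈ f B, q ∉ f (B \ A) → ∃ a ∈ A, a ∈ f (insert q (B \ {a}))) ∧
    (∀ B : Set S, ∀ q ∈ f B, ∃ U : Set S, Minimal (fun W : Set S => W ⊆ B ∧ q ∈ f W) U ∧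
      ∀ x ∈ U, x ∉ f (U \ {x})) ∧
    (∀ B : Set S, ∀ q, q ∉ f B → ∃ V : Set S, Maximal (fun W : Set S => B ⊆ W ∧ q ∉ f W) V ∧
      f (insert q V) = univ) ∧
    (∀ I : Set S, P ⊆ I → I ⊆ PQ → {n : ℕ | ((n, 1) : S) ∈ I}.Finite → ∀ J ⊆ I, f J = J) ∧
    (∀ I : Set S, P ⊆ I → {n : ℕ | ((n, 1) : S) ∈ I}.Infinite →
      ∃ x ∈ P, f (I \ {x}) = univ) := by
  obtain ⟨𝓑, h0, hg, hcomp⟩ := exists_max B0 good_B0
  have hPR : PR ∈ 𝓑 := h0 ⟨1, finSupp_one, Or.inr (by simp)⟩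
  have hne : (∅ : Set S) ∉ 𝓑 := by
    intro h
    have := hg.2 _ h _ hPR (empty_subset _)
    have h1 : ((0, 0) : S) ∈ PR := Or.inl rfl
    rw [← this] at h1
    exact h1
  refine ⟨op 𝓑, ?_, ?_, ?_, ?_, ?_, ?_, ?_, ?_⟩
  · intro A x hx
    exact mem_op.2 (Or.inl hx)
  · intro A B hAB x hx
    rcases mem_op.1 hx with h | ⟨C, hC, h⟩
    · exact mem_op.2 (Or.inl (hAB h))
    · exact mem_op.2 (Or.inr ⟨C, hC, h.trans hAB⟩)
  · intro A
    by_cases h : ∃ B ∈ 𝓑, B ⊆ A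
    · obtain ⟨B, hB, hBA⟩ := h
      rw [op_eq_univ hB hBA, op_eq_univ hB (subset_univ _)]
    · have : op 𝓑 A = A := by
        ext x; rw [mem_op]; simp [h]
      rw [this, this]
  · intro A B q hq hq'
    rw [mem_op] at hq'
    push Not at hq'
    by_cases hqB : q ∈ B
    · have hqA : q ∈ A := by
        by_contra h
        exact hq'.1 ⟨hqB, h⟩
      exact ⟨q, hqA, mem_op.2 (Or.inl (mem_insert _ _))⟩
    · obtain ⟨C, hC, hCB⟩ := (mem_op.1 hq).resolve_left hqB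
      obtain ⟨a, haC, ha⟩ := not_subset.1 (hq'.2 C hC)
      have haA : a ∈ A := by
        by_contra h
        exact ha ⟨hCB haC, h⟩
      refine ⟨a, haA, mem_op.2 (Or.inr ⟨_, exchange hg hC haC (fun h => hqB (hCB h)), ?_⟩)⟩
      exact insert_subset_insert (diff_subset_diff_left hCB)
  · intro B q hq
    by_cases hqB : q ∈ B
    · refine ⟨{q}, ⟨⟨singleton_subset_iff.2 hqB, mem_op.2 (Or.inl rfl)⟩, ?_⟩, ?_⟩
      · rintro W ⟨-, hW⟩ hWq
        rcases mem_op.1 hW with h | ⟨C, hC, h⟩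
        · exact singleton_subset_iff.2 h
        · rcases subset_singleton_iff_eq.1 hWq with h1 | h1
          · rw [h1, subset_empty_iff] at h
            exact absurd (h ▸ hC) hne
          · exact h1.ge
      · rintro x rfl hx
        rcases mem_op.1 hx with h | ⟨C, hC, h⟩
        · exact h.2 rfl
        · rw [diff_self, subset_empty_iff] at h
          exact hne (h ▸ hC)
    · obtain ⟨C, hC, hCB⟩ := (mem_op.1 hq).resolve_left hqB
      refine ⟨C, ⟨⟨hCB, mem_op.2 (Or.inr ⟨C, hC, subset_rfl⟩)⟩, ?_⟩, ?_⟩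
      · rintro W ⟨hWB, hW⟩ hWC
        rcases mem_op.1 hW with h | ⟨C', hC', h⟩
        · exact absurd (hWB h) hqB
        · have := hg.2 C' hC' C hC (h.trans hWC)
          exact this ▸ h
      · intro x hx hx'
        rcases mem_op.1 hx' with h | ⟨C', hC', h⟩
        · exact h.2 rfl
        · have := hg.2 C' hC' C hC (h.trans diff_subset)
          rw [this] at h
          exact (h hx).2 rfl
  · intro B q hq
    rw [mem_op] at hq
    push Not at hq
    obtain ⟨C, hC, h | h⟩ := hcomp (insert q B)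
    · have hqC : q ∈ C := h (mem_insert _ _)
      refine ⟨C \ {q}, ⟨⟨?_, ?_⟩, ?_⟩, op_eq_univ hC ?_⟩
      · intro x hx
        exact ⟨h (mem_insert_of_mem _ hx), fun hxq => hq.1 (hxq ▸ hx)⟩
      · intro hq'
        rcases mem_op.1 hq' with h1 | ⟨C', hC', h1⟩
        · exact h1.2 rfl
        · have := hg.2 C' hC' C hC (h1.trans diff_subset)
          rw [this] at h1
          exact (h1 hqC).2 rfl
      · rintro W ⟨-, hW⟩ hCW x hxW
        rw [mem_op] at hW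
        push Not at hW
        by_contra hx
        have hxq : x ≠ q := fun h1 => hW.1 (h1 ▸ hxW)
        have hxC : x ∉ C := fun h1 => hx ⟨h1, hxq⟩
        exact hW.2 _ (exchange hg hC hqC hxC) (insert_subset hxW hCW)
      · intro x hx
        by_cases hxq : x = q
        · exact Or.inl hxq
        · exact Or.inr ⟨hx, hxq⟩
    · have hqC : q ∈ C := by
        by_contra hqC
        apply hq.2 C hC
        intro x hx
        rcases h hx with h1 | h1
        · exact absurd (h1 ▸ hx) hqC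
        · exact h1
      refine ⟨B, ⟨⟨subset_rfl, ?_⟩, ?_⟩, op_eq_univ hC h⟩
      · intro hq'
        rcases mem_op.1 hq' with h1 | ⟨C', hC', h1⟩
        · exact hq.1 h1
        · exact hq.2 C' hC' h1
      · rintro W ⟨-, hW⟩ hBW x hxW
        rw [mem_op] at hW
        push Not at hW
        by_contra hx
        have hxq : x ≠ q := fun h1 => hW.1 (h1 ▸ hxW)
        have hxC : x ∉ C := fun h1 => (h h1).elim hxq hx
        refine hW.2 _ (exchange hg hC hqC hxC) (insert_subset hxW ?_)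
        intro y hy
        rcases h hy.1 with h1 | h1
        · exact absurd h1 hy.2
        · exact hBW h1
  · intro I _ hI hfin J hJ
    set D : Set ℕ := {n : ℕ | ((n, 1) : S) ∈ I} with hD
    have hC : layerSwap D 1 2 '' PR ∈ 𝓑 := hg.1 _ hPR _ (finSupp_layerSwap hfin 1 2)
    have hIC : I ⊆ layerSwap D 1 2 '' PR := by
      rintro ⟨n, k⟩ hx
      rcases hI hx with h1 | h1
      · simp only at h1
        subst h1
        refine ⟨(n, 0), Or.inl rfl, ?_⟩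
        by_cases hn : n ∈ D
        · rw [layerSwap_of_mem hn]; rfl
        · rw [layerSwap_of_notMem hn]
      · simp only at h1
        subst h1
        refine ⟨(n, 2), Or.inr rfl, ?_⟩
        rw [layerSwap_of_mem (show n ∈ D from hx)]; rfl
    ext x
    rw [mem_op]
    refine ⟨?_, Or.inl⟩
    rintro (h | ⟨C', hC', h⟩)
    · exact h
    · exfalso
      have h1 := hg.2 C' hC' _ hC ((h.trans hJ).trans hIC)
      obtain ⟨n, hn⟩ := hfin.infinite_compl.nonempty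
      have h2 : ((n, 2) : S) ∈ C' := by
        rw [h1]
        exact ⟨(n, 2), Or.inr rfl, layerSwap_of_notMem hn 2⟩
      rcases hI (hJ (h h2)) with h3 | h3 <;> exact absurd h3 (by simp)
  · intro I hPI hinf
    set Z : Set ℕ := {n : ℕ | ((n, 1) : S) ∈ I} with hZ
    have hC : BZ Z ∈ 𝓑 := h0 ⟨1, finSupp_one, Or.inl ⟨Z, hinf, by simp⟩⟩
    obtain ⟨n, hn⟩ := hinf.nonempty
    refine ⟨(n, 0), rfl, op_eq_univ hC ?_⟩
    rintro ⟨m, k⟩ (⟨h1, h2⟩ | ⟨h1, h2⟩)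
    · simp only at h1 h2
      subst h1
      exact ⟨h2, by simp⟩
    · simp only at h1 h2
      subst h1
      refine ⟨hPI rfl, ?_⟩
      intro h3
      simp only [mem_singleton_iff, Prod.mk.injEq, and_true] at h3
      exact h2 (h3 ▸ hn)

end Pool.Agent.Lib.H11Higgs
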