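import Mathlib

namespace Pool.Agent.Lib.helper11.Indep

open Set Filter

/-- An independent family of size continuum on the natural numbers. -/
theorem exists_indep : ∃ A : Set ℕ → Set ℕ, ∀ P N : Set (Set ℕ), P.Finite → N.Finite →
    Disjoint P N → {m | (∀ x ∈ P, m ∈ A x) ∧ ∀ x ∈ N, m ∉ A x}.Infinite := by
  classical
  obtain ⟨e⟩ : Nonempty (ℕ ≃ ℕ × Finset (Finset ℕ)) := nonempty_equiv_of_countable
  let tr : ℕ → Set ℕ → Finset ℕ := fun n x => (Finset.range n).filter (· ∈ x)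
  refine ⟨fun x => {m | tr (e m).1 x ∈ (e m).2}, fun P N hP hN hd => ?_⟩
  have h1 : ∀ x y : Set ℕ, x ≠ y → ∀ᶠ n in atTop, tr n x ≠ tr n y := by
    intro x y hxy
    obtain ⟨k, hk⟩ : ∃ k, ¬ (k ∈ x ↔ k ∈ y) := by
      by_contra h
      push Not at h
      exact hxy (Set.ext h)
    filter_upwards [eventually_gt_atTop k] with n hn h
    have := Finset.ext_iff.1 h k
    simp only [tr, Finset.mem_filter, Finset.mem_range, hn, true_and] at this
    exact hk this
  have h2 : ∀ᶠ n in atTop, ∀ x ∈ P, ∀ y ∈ N, tr n x ≠ tr n y := by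
    rw [eventually_all_finite hP]
    intro x hx
    rw [eventually_all_finite hN]
    intro y hy
    exact h1 x y fun h => Set.disjoint_left.1 hd hx (h ▸ hy)
  obtain ⟨n₀, hn₀⟩ := eventually_atTop.1 h2
  let f : ℕ → ℕ := fun n => e.symm (n + n₀, hP.toFinset.image (tr (n + n₀)))
  have hf : Function.Injective f := by
    intro a b hab
    have := congrArg (fun m => (e m).1) hab
    simpa [f] using this
  refine Set.infinite_of_injective_forall_mem hf fun n => ⟨fun x hx => ?_, fun y hy => ?_⟩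
  · simp only [f, mem_setOf_eq, Equiv.apply_symm_apply, Finset.mem_image, Finite.mem_toFinset]
    exact ⟨x, hx, rfl⟩
  · simp only [f, mem_setOf_eq, Equiv.apply_symm_apply, Finset.mem_image, Finite.mem_toFinset]
    rintro ⟨x, hx, h⟩
    exact hn₀ (n + n₀) (by omega) x hx y hy h

variable {W : Type}

/-- A finite set of signed indices is consistent if no index gets both signs. -/
def Cons (s : Finset (W × Bool)) : Prop := ∀ a, ¬ ((a, true) ∈ s ∧ (a, false) ∈ s)

/-- The Boolean combination of the sets `A a` described by `s`. -/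
def cell (A : W → Set ℕ) (s : Finset (W × Bool)) : Set ℕ :=
  {m | ∀ p ∈ s, (m ∈ A p.1 ↔ p.2 = true)}

lemma cell_union [DecidableEq W] (A : W → Set ℕ) (s t : Finset (W × Bool)) :
    cell A (s ∪ t) = cell A s ∩ cell A t := by
  ext m
  simp only [cell, Finset.mem_union, mem_setOf_eq, mem_inter_iff]
  exact ⟨fun h => ⟨fun p hp => h p (Or.inl hp), fun p hp => h p (Or.inr hp)⟩,
    fun h p hp => hp.elim (h.1 p) (h.2 p)⟩

lemma cell_anti (A : W → Set ℕ) {s t : Finset (W × Bool)} (h : s ⊆ t) : cell A t ⊆ cell A s :=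
  fun _ hm p hp => hm p (h hp)

lemma cons_of_nonempty (A : W → Set ℕ) {s : Finset (W × Bool)} (h : (cell A s).Nonempty) :
    Cons s := by
  obtain ⟨m, hm⟩ := h
  rintro a ⟨h1, h2⟩
  have e1 := hm _ h1
  have e2 := hm _ h2
  simp only [iff_true] at e1
  simp only [Bool.false_eq_true, iff_false] at e2
  exact e2 e1

/-- A filter maximal among those keeping all consistent cells positive. -/
theorem exists_max (A : W → Set ℕ) (F₀ : Filter ℕ)
    (h₀ : ∀ s, Cons s → (cell A s)ᶜ ∉ F₀) :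
    ∃ F : Filter ℕ, F ≤ F₀ ∧ (∀ s, Cons s → (cell A s)ᶜ ∉ F) ∧
      ∀ X : Set ℕ, Xᶜ ∉ F → ∃ s, Cons s ∧ (cell A s)ᶜ ∪ X ∈ F := by
  let S : Set (Filter ℕ)ᵒᵈ := {F | ∀ s, Cons s → (cell A s)ᶜ ∉ OrderDual.ofDual F}
  obtain ⟨F, hF₀, hF⟩ := zorn_le_nonempty₀ S (fun c hc hch y hy => by
    refine ⟨OrderDual.toDual (⨅ i ∈ c, OrderDual.ofDual i), fun s hs h => ?_, fun z hz => ?_⟩
    · have hd : DirectedOn ((fun i : (Filter ℕ)ᵒᵈ => OrderDual.ofDual i) ⁻¹'o (· ≥ ·)) c := by
        intro a ha b hb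
        obtain ⟨z, hz, h1, h2⟩ := hch.directedOn a ha b hb
        exact ⟨z, hz, h1, h2⟩
      obtain ⟨i, hi, h'⟩ := (mem_biInf_of_directed hd ⟨y, hy⟩).1 h
      exact hc hi s hs h'
    · exact biInf_le (fun i : (Filter ℕ)ᵒᵈ => OrderDual.ofDual i) hz) (OrderDual.toDual F₀) h₀
  refine ⟨OrderDual.ofDual F, hF₀, hF.prop, fun X hX => ?_⟩
  by_contra h
  push Not at h
  have hmem : OrderDual.toDual (OrderDual.ofDual F ⊓ 𝓟 Xᶜ) ∈ S := by
    intro s hs h'
    refine h s hs ?_
    have h'' : (cell A s)ᶜ ∈ OrderDual.ofDual F ⊓ 𝓟 Xᶜ := h'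
    rw [mem_inf_principal] at h''
    filter_upwards [h''] with m hm
    by_cases hmX : m ∈ X
    · exact Or.inr hmX
    · exact Or.inl (hm hmX)
  have hle : F ≤ OrderDual.toDual (OrderDual.ofDual F ⊓ 𝓟 Xᶜ) :=
    (inf_le_left : OrderDual.ofDual F ⊓ 𝓟 Xᶜ ≤ OrderDual.ofDual F)
  have h3 : OrderDual.ofDual F ≤ OrderDual.ofDual F ⊓ 𝓟 Xᶜ := hF.le_of_ge hmem hle
  exact hX (le_principal_iff.1 (h3.trans inf_le_right))

lemma exists_closed (g : Finset (W × Bool) → Finset (W × Bool)) :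
    ∃ C : Set W, C.Countable ∧ ∀ u : Finset (W × Bool), (∀ p ∈ u, p.1 ∈ C) →
      ∀ p ∈ g u, p.1 ∈ C := by
  let step : Set W → Set W := fun C =>
    C ∪ ⋃ u ∈ {u : Finset (W × Bool) | ∀ p ∈ u, p.1 ∈ C}, Prod.fst '' (g u : Set (W × Bool))
  have hstep : ∀ C : Set W, C.Countable → (step C).Countable := by
    intro C hC
    refine hC.union (Countable.biUnion ?_ fun u _ => ((g u).finite_toSet.image _).countable)
    have h1 : (C ×ˢ (univ : Set Bool)).Countable := hC.prod (to_countable _)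
    have h2 := countable_ofPred_finite_subset h1
    refine (h2.preimage_of_injOn (f := fun u : Finset (W × Bool) => (u : Set (W × Bool)))
      Finset.coe_injective.injOn).mono fun u hu => ?_
    exact And.intro u.finite_toSet fun p hp => And.intro (hu p hp) trivial
  let C : ℕ → Set W := fun n => step^[n] ∅
  have hsucc : ∀ n, C (n + 1) = step (C n) := fun n => Function.iterate_succ_apply' _ _ _
  have hmono : Monotone C := monotone_nat_of_le_succ fun n => by
    rw [hsucc]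
    exact subset_union_left
  have hc : ∀ n, (C n).Countable := by
    intro n
    induction n with
    | zero => exact countable_empty
    | succ n ih => rw [hsucc]; exact hstep _ ih
  refine ⟨⋃ n, C n, countable_iUnion hc, fun u hu p hp => ?_⟩
  have : ∀ᶠ n in atTop, ∀ q ∈ u, q.1 ∈ C n := by
    rw [eventually_all_finset]
    intro q hq
    obtain ⟨n, hn⟩ := mem_iUnion.1 (hu q hq)
    filter_upwards [eventually_ge_atTop n] with k hk using hmono hk hn
  obtain ⟨n, hn⟩ := this.exists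
  refine mem_iUnion.2 ⟨n + 1, ?_⟩
  rw [hsucc]
  exact Or.inr (mem_biUnion (show u ∈ {u : Finset (W × Bool) | ∀ p ∈ u, p.1 ∈ C n} from hn)
    ⟨p, hp, rfl⟩)

open Classical in
/-- `X` depends, modulo `F`, only on the coordinates in `C`. -/
def Supp (A : W → Set ℕ) (F : Filter ℕ) (C : Set W) (X : Set ℕ) : Prop :=
  ∀ s, Cons s → (cell A s)ᶜ ∪ X ∈ F → (cell A (s.filter (·.1 ∈ C)))ᶜ ∪ X ∈ F

lemma Supp.mono {A : W → Set ℕ} {F : Filter ℕ} {C D : Set W} {X : Set ℕ} (h : Supp A F C X)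
    (hCD : C ⊆ D) : Supp A F D X := by
  classical
  intro s hs hX
  refine mem_of_superset (h s hs hX) (union_subset_union_left _ (compl_subset_compl.2 ?_))
  refine cell_anti A fun p hp => ?_
  simp only [Finset.mem_filter] at hp ⊢
  exact ⟨hp.1, hCD hp.2⟩

lemma Supp.inter {A : W → Set ℕ} {F : Filter ℕ} {C : Set W} {X Y : Set ℕ} (h : Supp A F C X)
    (h' : Supp A F C Y) : Supp A F C (X ∩ Y) := by
  intro s hs hX
  have h1 := h s hs (mem_of_superset hX (union_subset_union_right _ inter_subset_left))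
  have h2 := h' s hs (mem_of_superset hX (union_subset_union_right _ inter_subset_right))
  rw [union_inter_distrib_left]
  exact inter_mem h1 h2

theorem exists_supp {A : W → Set ℕ} {F : Filter ℕ} (h1 : ∀ s, Cons s → (cell A s)ᶜ ∉ F)
    (h2 : ∀ X : Set ℕ, Xᶜ ∉ F → ∃ s, Cons s ∧ (cell A s)ᶜ ∪ X ∈ F) (X : Set ℕ) :
    ∃ C : Set W, C.Countable ∧ Supp A F C X := by
  classical
  have : ∀ u : Finset (W × Bool), ∃ t : Finset (W × Bool), (cell A u)ᶜ ∪ X ∉ F →
      Cons t ∧ u ⊆ t ∧ (cell A t)ᶜ ∪ Xᶜ ∈ F := by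
    intro u
    by_cases hu : (cell A u)ᶜ ∪ X ∈ F
    · exact ⟨∅, fun h => absurd hu h⟩
    · obtain ⟨t, ht, ht'⟩ := h2 (cell A u ∩ Xᶜ) (by rwa [compl_inter, compl_compl])
      refine ⟨u ∪ t, fun _ => ⟨cons_of_nonempty A ?_, Finset.subset_union_left, ?_⟩⟩
      · by_contra hne
        rw [not_nonempty_iff_eq_empty, cell_union] at hne
        refine h1 t ht (mem_of_superset ht' ?_)
        rintro m (hm | hm)
        · exact hm
        · intro hm'
          have : m ∈ cell A u ∩ cell A t := ⟨hm.1, hm'⟩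
          rw [hne] at this
          exact this
      · refine mem_of_superset ht' ?_
        rintro m (hm | hm)
        · exact Or.inl fun h => hm (cell_anti A Finset.subset_union_right h)
        · exact Or.inr hm.2
  choose g hg using this
  obtain ⟨C, hC, hCg⟩ := exists_closed g
  refine ⟨C, hC, fun s hs hX => ?_⟩
  by_contra hn
  obtain ⟨a1, a2, a3⟩ := hg _ hn
  have a4 := hCg (s.filter (·.1 ∈ C)) (fun p hp => (Finset.mem_filter.1 hp).2)
  set t := g (s.filter (·.1 ∈ C))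
  have hc : Cons (s ∪ t) := by
    rintro a ⟨b1, b2⟩
    rcases Finset.mem_union.1 b1 with b1 | b1 <;> rcases Finset.mem_union.1 b2 with b2 | b2
    · exact hs a ⟨b1, b2⟩
    · exact a1 a ⟨a2 (Finset.mem_filter.2 ⟨b1, a4 (a, false) b2⟩), b2⟩
    · exact a1 a ⟨b1, a2 (Finset.mem_filter.2 ⟨b2, a4 (a, true) b1⟩)⟩
    · exact a1 a ⟨b1, b2⟩
  refine h1 _ hc ?_
  filter_upwards [hX, a3] with m hm hm' hm''
  rw [cell_union] at hm''
  rcases hm with hm | hm
  · exact hm hm''.1
  · rcases hm' with hm' | hm'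
    · exact hm' hm''.2
    · exact hm' hm

theorem exists_ultra (A : W → Set ℕ) (G : Filter ℕ) (T : Set (W × Bool))
    (h : ∀ s : Finset (W × Bool), (∀ p ∈ s, p ∈ T) → (cell A s)ᶜ ∉ G) :
    ∃ V : Ultrafilter ℕ, (V : Filter ℕ) ≤ G ∧ ∀ p ∈ T, cell A {p} ∈ V := by
  classical
  let f : {s : Finset (W × Bool) // ∀ p ∈ s, p ∈ T} → Filter ℕ := fun s => G ⊓ 𝓟 (cell A s.1)
  haveI : Nonempty {s : Finset (W × Bool) // ∀ p ∈ s, p ∈ T} := ⟨⟨∅, by simp⟩⟩
  have hd : Directed (· ≥ ·) f := by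
    intro s t
    refine ⟨⟨s.1 ∪ t.1, fun p hp => (Finset.mem_union.1 hp).elim (s.2 p) (t.2 p)⟩, ?_, ?_⟩
    · exact inf_le_inf_left _ (principal_mono.2 (cell_anti A Finset.subset_union_left))
    · exact inf_le_inf_left _ (principal_mono.2 (cell_anti A Finset.subset_union_right))
  haveI : (iInf f).NeBot := iInf_neBot_of_directed' hd fun s =>
    ⟨fun hb => h s.1 s.2 (inf_principal_eq_bot.1 hb)⟩
  refine ⟨Ultrafilter.of (iInf f), (Ultrafilter.of_le _).trans
    ((iInf_le f ⟨∅, by simp⟩).trans inf_le_left), fun p hp => ?_⟩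
  exact le_principal_iff.1 ((Ultrafilter.of_le _).trans
    ((iInf_le f ⟨{p}, by simpa using hp⟩).trans inf_le_right))

end Pool.Agent.Lib.helper11.Indep
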