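import Mathlib

set_option autoImplicit false
open Finset Filter Topology

namespace Pool.Agent.Jacobi3

def T : ℕ → ℕ
  | 0 => 0
  | k + 1 => T k + (k + 1)

lemma two_T (k : ℕ) : 2 * T k = k * (k + 1) := by
  induction k with
  | zero => rfl
  | succ k ih => simp only [T]; nlinarith

lemma le_T (k : ℕ) : k ≤ T k := by
  cases k with
  | zero => simp
  | succ k => simp [T]

noncomputable def Pq (q : ℝ) (m : ℕ) : ℝ := ∏ i ∈ range m, (1 - q ^ (i + 1))

noncomputable def R (q : ℝ) (m : ℤ) : ℝ := if 0 ≤ m then (Pq q m.toNat)⁻¹ else 0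

section
variable {q : ℝ} (h0 : 0 < q) (h1 : q < 1)
include h0 h1

lemma fac_pos (i : ℕ) : 0 < 1 - q ^ (i + 1) :=
  sub_pos.2 (pow_lt_one₀ h0.le h1 (Nat.succ_ne_zero i))

lemma Pq_pos (m : ℕ) : 0 < Pq q m := prod_pos fun i _ => fac_pos h0 h1 i

lemma R_rec (m : ℤ) : R q (m - 1) = (1 - q ^ m) * R q m := by
  rcases lt_trichotomy m 0 with h | h | h
  · have a : ¬ (0 ≤ m - 1) := by omega
    have b : ¬ (0 ≤ m) := by omega
    simp only [R, if_neg a, if_neg b, mul_zero]
  · subst h; simp [R]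
  · obtain ⟨k, rfl⟩ : ∃ k : ℕ, m = (k : ℤ) + 1 := ⟨(m - 1).toNat, by omega⟩
    have e1 : ((k : ℤ) + 1).toNat = k + 1 := by omega
    have e2 : q ^ ((k : ℤ) + 1) = q ^ (k + 1) := by norm_cast
    have := (fac_pos h0 h1 k).ne'
    have := (Pq_pos h0 h1 k).ne'
    simp only [R, add_sub_cancel_right, Int.natCast_nonneg, if_true, h.le, e1, e2, Int.toNat_natCast]
    rw [show Pq q (k + 1) = Pq q k * (1 - q ^ (k + 1)) from prod_range_succ _ _]
    field_simp

end

noncomputable def d (q : ℝ) (n j : ℕ) : ℝ := q ^ T j * R q ((n : ℤ) - j) * R q ((n : ℤ) + j + 1)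

lemma d_zero (q : ℝ) {n j : ℕ} (h : n < j) : d q n j = 0 := by
  simp [d, R, show ¬ (j ≤ n) by omega]

noncomputable def S (q : ℝ) (n N : ℕ) : ℝ := ∑ j ∈ range N, (-1) ^ j * (2 * j + 1) * d q n j

section
variable {q : ℝ} (h0 : 0 < q) (h1 : q < 1)
include h0 h1

lemma d_rec0 (n : ℕ) : (1 - q ^ (2 * n + 2)) * (1 - q ^ (2 * n + 3)) * d q (n + 1) 0 =
    (1 + q ^ (2 * n + 2)) * d q n 0 + q ^ (n + 1) * (d q n 0 + d q n 1) := by
  have a1 := R_rec h0 h1 ((n : ℤ) + 2)
  have a2 := R_rec h0 h1 ((n : ℤ) + 1)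
  have a3 := R_rec h0 h1 (n : ℤ)
  have e1 : (n : ℤ) + 2 - 1 = n + 1 := by ring
  have e2 : (n : ℤ) + 1 - 1 = n := by ring
  rw [e1] at a1; rw [e2] at a2
  have p2 : q ^ ((n : ℤ) + 2) = q ^ n * q ^ 2 := by rw [← pow_add]; norm_cast
  have p1 : q ^ ((n : ℤ) + 1) = q ^ n * q := by rw [← pow_succ]; norm_cast
  rw [p2] at a1; rw [p1] at a2; rw [zpow_natCast] at a3
  simp only [d, T]
  push_cast
  simp only [sub_zero, add_zero]
  rw [show (n : ℤ) + 1 + 1 = n + 2 by ring, a3, a2]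
  generalize R q ((n : ℤ) + 2) = B at *
  generalize R q ((n : ℤ) + 1) = A at *
  subst a1
  ring

lemma d_rec (n j : ℕ) : (1 - q ^ (2 * n + 2)) * (1 - q ^ (2 * n + 3)) * d q (n + 1) (j + 1) =
    (1 + q ^ (2 * n + 2)) * d q n (j + 1) + q ^ (n + 1) * (d q n j + d q n (j + 2)) := by
  have a1 := R_rec h0 h1 ((n : ℤ) + j + 3)
  have a2 := R_rec h0 h1 ((n : ℤ) + j + 2)
  have a3 := R_rec h0 h1 ((n : ℤ) - j)
  have a4 := R_rec h0 h1 ((n : ℤ) - j - 1)
  have hq := h0.ne'
  have p3 : q ^ ((n : ℤ) + j + 3) = q ^ n * q ^ j * q ^ 3 := by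
    rw [← pow_add, ← pow_add]; norm_cast
  have p2 : q ^ ((n : ℤ) + j + 2) = q ^ n * q ^ j * q ^ 2 := by
    rw [← pow_add, ← pow_add]; norm_cast
  have p1 : q ^ ((n : ℤ) - j) = q ^ n / q ^ j := by rw [zpow_sub₀ hq]; norm_cast
  have p0 : q ^ ((n : ℤ) - j - 1) = q ^ n / q ^ j / q := by rw [zpow_sub₀ hq, p1, zpow_one]
  rw [p3, show (n : ℤ) + j + 3 - 1 = n + j + 2 by ring] at a1
  rw [p2, show (n : ℤ) + j + 2 - 1 = n + j + 1 by ring] at a2
  rw [p1] at a3; rw [p0] at a4
  simp only [d, T]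
  push_cast
  rw [show (n : ℤ) + 1 - (j + 1) = n - j by ring, show (n : ℤ) + 1 + (j + 1) + 1 = n + j + 3 by ring,
    show (n : ℤ) - (j + 1) = n - j - 1 by ring, show (n : ℤ) + (j + 1) + 1 = n + j + 2 by ring,
    show (n : ℤ) - (j + 2) = n - j - 1 - 1 by ring, show (n : ℤ) + (j + 2) + 1 = n + j + 3 by ring,
    a4, a3, a2, a1]
  have : q ^ j ≠ 0 := pow_ne_zero _ hq
  field_simp
  ring

lemma S_rec (n N : ℕ) : (1 - q ^ (2 * n + 2)) * (1 - q ^ (2 * n + 3)) * S q (n + 1) (N + 1) =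
    (1 - q ^ (n + 1)) ^ 2 * S q n (N + 1) +
      q ^ (n + 1) * ((-1) ^ N * ((2 * N + 3) * d q n N + (2 * N + 1) * d q n (N + 1))) := by
  induction N with
  | zero =>
    have := d_rec0 h0 h1 n
    simp only [S, zero_add, range_one, sum_singleton]
    push_cast
    linear_combination this
  | succ N ih =>
    have := d_rec h0 h1 n N
    unfold S at *
    rw [sum_range_succ, sum_range_succ (fun j => (-1 : ℝ) ^ j * (2 * j + 1) * d q n j)]
    push_cast
    linear_combination ih + (-1) ^ (N + 1) * (2 * (N + 1) + 1) * this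

lemma S_eq (n : ℕ) : ∀ N, n + 1 ≤ N → S q n N = Pq q n ^ 2 / Pq q (2 * n + 1) := by
  induction n with
  | zero =>
    intro N hN
    rw [S, sum_eq_single 0]
    · simp [d, T, R, Pq]
    · intro j _ hj; rw [d_zero q (by omega)]; simp
    · intro h; exact absurd (mem_range.2 (by omega)) h
  | succ n ih =>
    intro N hN
    obtain ⟨M, rfl⟩ : ∃ M, N = M + 1 := ⟨N - 1, by omega⟩
    have h := S_rec h0 h1 n M
    rw [d_zero q (by omega : n < M), d_zero q (by omega : n < M + 1), ih _ (by omega)] at h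
    have f1 := (fac_pos h0 h1 (2 * n + 1)).ne'
    have f2 := (fac_pos h0 h1 (2 * n + 2)).ne'
    have f3 := (Pq_pos h0 h1 (2 * n + 1)).ne'
    have e1 : Pq q (2 * (n + 1) + 1) =
        Pq q (2 * n + 1) * (1 - q ^ (2 * n + 1 + 1)) * (1 - q ^ (2 * n + 2 + 1)) := by
      rw [show 2 * (n + 1) + 1 = 2 * n + 1 + 1 + 1 by ring]
      unfold Pq; rw [prod_range_succ, prod_range_succ]
    have e2 : Pq q (n + 1) = Pq q n * (1 - q ^ (n + 1)) := prod_range_succ _ _
    rw [e1, e2, eq_div_iff (by positivity)]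
    field_simp at h
    linear_combination h

lemma Pq_anti : Antitone (Pq q) := by
  refine antitone_nat_of_succ_le fun m => ?_
  rw [show Pq q (m + 1) = Pq q m * (1 - q ^ (m + 1)) from prod_range_succ _ _]
  have := Pq_pos h0 h1 m
  have : 0 < q ^ (m + 1) := by positivity
  nlinarith

lemma Pq_lower (m : ℕ) : Real.exp (-((1 - q)⁻¹ * (1 - q)⁻¹)) ≤ Pq q m := by
  have hq : 0 < 1 - q := by linarith
  have h : ∀ m, Real.exp (-((1 - q)⁻¹ * ∑ i ∈ range m, q ^ i)) ≤ Pq q m := by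
    intro m
    induction m with
    | zero => simp [Pq]
    | succ m ih =>
      rw [show Pq q (m + 1) = Pq q m * (1 - q ^ (m + 1)) from prod_range_succ _ _, sum_range_succ,
        mul_add, neg_add, Real.exp_add]
      refine mul_le_mul ih ?_ (Real.exp_pos _).le (Pq_pos h0 h1 m).le
      rw [Real.exp_neg, inv_le_comm₀ (Real.exp_pos _) (fac_pos h0 h1 m)]
      refine le_trans ?_ (Real.add_one_le_exp _)
      have f := fac_pos h0 h1 m
      have hm : q ^ m ≤ 1 := pow_le_one₀ h0.le h1.le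
      have hm0 : 0 < q ^ m := by positivity
      rw [inv_le_iff_one_le_mul₀ f]
      have : ((1 - q)⁻¹ * q ^ m + 1) * (1 - q ^ (m + 1)) - 1 =
          (1 - q)⁻¹ * (q ^ m * ((1 - q) ^ 2 + q * (1 - q ^ m))) := by
        field_simp; ring
      have h3 : 0 ≤ 1 - q ^ m := by linarith
      have h4 : 0 ≤ (1 - q)⁻¹ * (q ^ m * ((1 - q) ^ 2 + q * (1 - q ^ m))) := by positivity
      linarith
  refine le_trans (Real.exp_le_exp.2 (neg_le_neg ?_)) (h m)
  refine mul_le_mul_of_nonneg_left ?_ (inv_nonneg.2 hq.le)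
  rw [← tsum_geometric_of_lt_one h0.le h1]
  exact (summable_geometric_of_lt_one h0.le h1).sum_le_tsum _ fun i _ => by positivity

end

noncomputable def Pinf (q : ℝ) : ℝ := ⨅ m, Pq q m

noncomputable def a (q : ℝ) (k : ℕ) : ℝ := (2 * k + 1) * q ^ T k

noncomputable def J (q : ℝ) : ℝ := ∑' k, (-1) ^ k * a q k

lemma summ {r : ℝ} (h0 : 0 < r) (h1 : r < 1) (c : ℕ → ℝ) (hc0 : ∀ k, 0 ≤ c k)
    (hc : ∀ k, c k ≤ 2 * ((k : ℝ) + 1) ^ 3) : Summable fun k => c k * r ^ T k := by
  have hs : Summable fun k : ℕ => ((k : ℝ)) ^ 3 * r ^ k :=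
    summable_pow_mul_geometric_of_norm_lt_one 3 (by rwa [Real.norm_eq_abs, abs_of_pos h0])
  have hs1 := ((summable_nat_add_iff 1).2 hs).mul_left (2 / r)
  refine Summable.of_nonneg_of_le (fun k => by have := hc0 k; positivity) (fun k => ?_) hs1
  have e : 2 / r * (((k + 1 : ℕ) : ℝ) ^ 3 * r ^ (k + 1)) = 2 * ((k : ℝ) + 1) ^ 3 * r ^ k := by
    push_cast; rw [pow_succ r]; field_simp
  rw [e]
  exact mul_le_mul (hc k) (pow_le_pow_of_le_one h0.le h1.le (le_T k)) (by positivity)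
    (by positivity)

lemma T_le (k : ℕ) : (T k : ℝ) ≤ ((k : ℝ) + 1) ^ 2 := by
  have h : (2 : ℝ) * T k = k * (k + 1) := by exact_mod_cast two_T k
  have : (0 : ℝ) ≤ k := Nat.cast_nonneg k
  nlinarith

section
variable {q : ℝ} (h0 : 0 < q) (h1 : q < 1)
include h0 h1

lemma summ_a : Summable (a q) := by
  refine summ h0 h1 (fun k => 2 * k + 1) (fun k => by positivity) fun k => ?_
  have : (0 : ℝ) ≤ k := Nat.cast_nonneg k
  nlinarith [mul_nonneg this this, mul_nonneg (mul_nonneg this this) this]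

lemma summ_b : Summable fun k => (T k : ℝ) * a q k := by
  have := summ h0 h1 (fun k => T k * (2 * k + 1)) (fun k => by positivity) fun k => by
    have h := T_le k
    have : (0 : ℝ) ≤ k := Nat.cast_nonneg k
    calc (T k : ℝ) * (2 * k + 1) ≤ ((k : ℝ) + 1) ^ 2 * (2 * (k + 1)) :=
          mul_le_mul h (by linarith) (by positivity) (by positivity)
      _ = _ := by ring
  simpa only [a, mul_assoc] using this

lemma bdd : BddBelow (Set.range (Pq q)) :=
  ⟨0, by rintro _ ⟨m, rfl⟩; exact (Pq_pos h0 h1 m).le⟩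

lemma Pinf_pos : 0 < Pinf q := lt_of_lt_of_le (Real.exp_pos _) (le_ciInf (Pq_lower h0 h1))

lemma Pinf_le (m : ℕ) : Pinf q ≤ Pq q m := ciInf_le (bdd h0 h1) m

lemma tendsto_Pq : Tendsto (Pq q) atTop (𝓝 (Pinf q)) :=
  tendsto_atTop_ciInf (Pq_anti h0 h1) (bdd h0 h1)

lemma R_bound (m : ℤ) : 0 ≤ R q m ∧ R q m ≤ (Pinf q)⁻¹ := by
  have := Pinf_pos h0 h1
  unfold R
  split_ifs
  · exact ⟨inv_nonneg.2 (Pq_pos h0 h1 _).le, inv_anti₀ this (Pinf_le h0 h1 _)⟩
  · exact ⟨le_rfl, by positivity⟩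

lemma tendsto_R (c : ℤ) : Tendsto (fun n : ℕ => R q ((n : ℤ) + c)) atTop (𝓝 (Pinf q)⁻¹) := by
  have h : Tendsto (fun n : ℕ => ((n : ℤ) + c).toNat) atTop atTop :=
    tendsto_atTop_atTop.2 fun b => ⟨b + c.natAbs, fun n hn => by omega⟩
  have h2 := ((tendsto_Pq h0 h1).comp h).inv₀ (Pinf_pos h0 h1).ne'
  refine h2.congr' ?_
  filter_upwards [eventually_ge_atTop c.natAbs] with n hn
  simp only [R, Function.comp, if_pos (show 0 ≤ (n : ℤ) + c by omega)]

theorem J_eq : J q = Pinf q ^ 3 := by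
  have hP := Pinf_pos h0 h1
  have t1 : Tendsto (fun n : ℕ => ∑' j : ℕ, (-1 : ℝ) ^ j * (2 * j + 1) * d q n j) atTop
      (𝓝 (∑' j : ℕ, (-1 : ℝ) ^ j * a q j * ((Pinf q)⁻¹ * (Pinf q)⁻¹))) := by
    refine tendsto_tsum_of_dominated_convergence
      ((summ_a h0 h1).mul_right ((Pinf q)⁻¹ * (Pinf q)⁻¹)) (fun j => ?_)
      (Eventually.of_forall fun n j => ?_)
    · have := ((tendsto_R h0 h1 (-j)).mul (tendsto_R h0 h1 (j + 1))).const_mul
        ((-1 : ℝ) ^ j * a q j)
      refine this.congr fun n => ?_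
      simp only [d, a, sub_eq_add_neg, add_assoc]; ring
    · have b1 := R_bound h0 h1 ((n : ℤ) - j)
      have b2 := R_bound h0 h1 ((n : ℤ) + j + 1)
      have e : ‖(-1 : ℝ) ^ j * (2 * j + 1) * d q n j‖ =
          a q j * (R q ((n : ℤ) - j) * R q ((n : ℤ) + j + 1)) := by
        have := b1.1
        have := b2.1
        rw [mul_assoc, norm_mul, norm_pow, norm_neg, norm_one, one_pow, one_mul,
          Real.norm_of_nonneg (by unfold d; positivity)]
        simp only [d, a]; ring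
      rw [e]
      exact mul_le_mul_of_nonneg_left (mul_le_mul b1.2 b2.2 b2.1 (by positivity))
        (by unfold a; positivity)
  have t2 : Tendsto (fun n : ℕ => Pq q n ^ 2 / Pq q (2 * n + 1)) atTop
      (𝓝 (Pinf q ^ 2 / Pinf q)) := by
    refine ((tendsto_Pq h0 h1).pow 2).div ((tendsto_Pq h0 h1).comp ?_) hP.ne'
    exact tendsto_atTop_atTop.2 fun b => ⟨b, fun n hn => by omega⟩
  have e : ∀ n : ℕ, ∑' j : ℕ, (-1 : ℝ) ^ j * (2 * j + 1) * d q n j =
      Pq q n ^ 2 / Pq q (2 * n + 1) := by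
    intro n
    rw [← S_eq h0 h1 n (n + 1) le_rfl, S]
    refine tsum_eq_sum fun j hj => ?_
    rw [d_zero q (by simpa using hj), mul_zero]
  simp only [e] at t1
  have := tendsto_nhds_unique t1 t2
  rw [tsum_mul_right] at this
  unfold J
  field_simp at this
  exact this

lemma J_pos : 0 < J q := by rw [J_eq h0 h1]; exact pow_pos (Pinf_pos h0 h1) 3

lemma hasDerivAt_J : HasDerivAt J (∑' k, (-1) ^ k * ((T k : ℝ) * a q k) / q) q := by
  set r := (q + 1) / 2 with hr
  have hr0 : 0 < r := by positivity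
  have hr1 : r < 1 := by linarith
  refine hasDerivAt_tsum_of_isPreconnected
    (g := fun k y => (-1 : ℝ) ^ k * a y k) (g' := fun k y => (-1) ^ k * ((T k : ℝ) * a y k) / y)
    (u := fun k => (T k : ℝ) * a r k / (q / 2)) (t := Set.Ioo (q / 2) r) (y₀ := q)
    ((summ_b hr0 hr1).div_const _) isOpen_Ioo isPreconnected_Ioo ?_ ?_
    ⟨by linarith, by linarith⟩ ?_ ⟨by linarith, by linarith⟩
  · intro k y hy
    have hy0 : 0 < y := by linarith [hy.1]
    refine (((hasDerivAt_pow (T k) y).const_mul (2 * k + 1 : ℝ)).const_mul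
      ((-1 : ℝ) ^ k)).congr_deriv ?_
    unfold a
    cases h : T k with
    | zero => simp
    | succ m => simp only [add_tsub_cancel_right, pow_succ]; field_simp
  · intro k y hy
    have hy0 : 0 < y := by linarith [hy.1]
    rw [norm_div, norm_mul, norm_pow, norm_neg, norm_one, one_pow, one_mul,
      Real.norm_of_nonneg (by unfold a; positivity), Real.norm_of_nonneg hy0.le]
    refine div_le_div₀ (by unfold a; positivity) ?_ (by positivity) hy.1.le
    unfold a
    gcongr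
    exact hy.2.le
  · refine Summable.of_norm ?_
    refine (summ_a h0 h1).congr fun k => ?_
    rw [norm_mul, norm_pow, norm_neg, norm_one, one_pow, one_mul,
      Real.norm_of_nonneg (by unfold a; positivity)]

end

lemma Pinf_anti {x y : ℝ} (hx : 0 < x) (hxy : x ≤ y) (hy : y < 1) :
    Pinf y / (1 - y) ≤ Pinf x / (1 - x) := by
  have t : ∀ z : ℝ, 0 < z → z < 1 → Tendsto (fun m => ∏ i ∈ range m, (1 - z ^ (i + 1 + 1)))
      atTop (𝓝 (Pinf z / (1 - z))) := by
    intro z h0 h1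
    have := (((tendsto_add_atTop_iff_nat 1).2 (tendsto_Pq h0 h1))).div_const (1 - z)
    refine this.congr fun m => ?_
    have : 1 - z ≠ 0 := by linarith
    unfold Pq
    rw [prod_range_succ']
    simp only [zero_add, pow_one]
    field_simp
  refine le_of_tendsto_of_tendsto' (t y (by linarith) hy) (t x hx (by linarith)) fun m => ?_
  refine prod_le_prod (fun i _ => (fac_pos (by linarith) hy _).le) fun i _ => ?_
  gcongr

theorem H1_neg {q : ℝ} (h0 : 0 < q) (h1 : q < 1) :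
    ∑' k, (-1) ^ k * ((T k : ℝ) * a q k) < 0 := by
  have hd := hasDerivAt_J h0 h1
  rw [tsum_div_const] at hd
  set D := ∑' k, (-1 : ℝ) ^ k * ((T k : ℝ) * a q k)
  have hq : 0 < 1 - q := by linarith
  have h3 : HasDerivAt (fun y : ℝ => (1 - y) ^ 3) (-3 * (1 - q) ^ 2) q :=
    (((hasDerivAt_id' q).const_sub 1).fun_pow 3).congr_deriv (by simp)
  have h4 := hd.fun_div h3 (by positivity)
  have hanti : AntitoneOn (fun y => J y / (1 - y) ^ 3) (Set.Ioo 0 1) := by
    intro x hx y hy hxy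
    simp only
    rw [J_eq hx.1 hx.2, J_eq hy.1 hy.2, ← div_pow, ← div_pow]
    refine pow_le_pow_left₀ (div_nonneg (Pinf_pos hy.1 hy.2).le (by linarith [hy.2]))
      (Pinf_anti hx.1 hxy hy.2) 3
  have h5 := hanti.derivWithin_nonpos (x := q)
  rw [derivWithin_of_isOpen isOpen_Ioo ⟨h0, h1⟩, h4.deriv] at h5
  have hJ := J_pos h0 h1
  have h6 : D / q * (1 - q) ^ 3 - J q * (-3 * (1 - q) ^ 2) ≤ 0 := by
    by_contra hc
    exact absurd h5 (not_le.2 (div_pos (not_le.1 hc) (by positivity)))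
  by_contra hc
  have : 0 ≤ D / q * (1 - q) ^ 3 := by have := not_lt.1 hc; positivity
  have : 0 < J q * (1 - q) ^ 2 := by positivity
  linarith

/-- alternating sums of a sequence that keeps decreasing once it decreases -/
lemma alt_pos (c : ℕ → ℝ) (hc0 : 0 < c 0)
    (hu : ∀ k, c (k + 1) ≤ c k → c (k + 2) ≤ c (k + 1))
    (hL : ∀ k, c (k + 1) < c k → ∃ L, 0 < L ∧ HasSum (fun k => (-1) ^ k * c k) L) (m : ℕ) :
    0 < ∑ k ∈ range (2 * m + 1), (-1) ^ k * c k := by
  have step : ∀ i, ∑ k ∈ range (2 * (i + 1) + 1), (-1 : ℝ) ^ k * c k =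
      ∑ k ∈ range (2 * i + 1), (-1) ^ k * c k - c (2 * i + 1) + c (2 * i + 2) := by
    intro i
    rw [show 2 * (i + 1) + 1 = 2 * i + 1 + 1 + 1 by ring, sum_range_succ, sum_range_succ]
    simp only [pow_succ, pow_mul]
    ring
  by_cases h : ∀ k, k < 2 * m → c k ≤ c (k + 1)
  · induction m with
    | zero => simpa using hc0
    | succ m ih =>
      rw [step]
      have := ih fun k hk => h k (by omega)
      have := h (2 * m + 1) (by omega)
      linarith
  · push Not at h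
    obtain ⟨k, hk, hlt⟩ := h
    obtain ⟨L, hL0, hs⟩ := hL k hlt
    have dec : ∀ j, c (k + j + 1) ≤ c (k + j) := by
      intro j
      induction j with
      | zero => exact hlt.le
      | succ j ih => exact hu _ ih
    have mono : ∀ i, ∑ k ∈ range (2 * (m + i) + 1), (-1 : ℝ) ^ k * c k ≤
        ∑ k ∈ range (2 * m + 1), (-1) ^ k * c k := by
      intro i
      induction i with
      | zero => exact le_rfl
      | succ i ih =>
        rw [← add_assoc, step]
        have := dec (2 * (m + i) + 1 - k)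
        rw [show k + (2 * (m + i) + 1 - k) = 2 * (m + i) + 1 by omega] at this
        linarith
    have t := hs.tendsto_sum_nat.comp
      (tendsto_atTop_atTop.2 fun b => ⟨b, fun n hn => by omega⟩ :
        Tendsto (fun i : ℕ => 2 * (m + i) + 1) atTop atTop)
    exact lt_of_lt_of_le hL0 (le_of_tendsto' t mono)

lemma ratio {q : ℝ} (h0 : 0 < q) {A B C : ℝ} (hA : 0 < A) (hB : 0 < B) (hAB : A < B)
    (D : ℝ) (hD : 0 < D) (h : A * D ≤ B * C) (j : ℕ) (hj : B * q ^ j ≤ A) :
    q < 1 ∧ D * q ^ (j + 1) ≤ C := by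
  have hq : q < 1 := by
    by_contra hc
    have := one_le_pow₀ (not_lt.1 hc) (n := j)
    nlinarith
  refine ⟨hq, ?_⟩
  have h2 : q ^ (j + 1) ≤ q ^ j := pow_le_pow_of_le_one h0.le hq.le (by omega)
  have h3 : B * (D * q ^ (j + 1)) ≤ B * C := by
    calc B * (D * q ^ (j + 1)) ≤ B * (D * q ^ j) := by gcongr
      _ = D * (B * q ^ j) := by ring
      _ ≤ D * A := by gcongr
      _ ≤ B * C := by linarith
  exact le_of_mul_le_mul_left h3 hB

theorem even_pos {q : ℝ} (h0 : 0 < q) (m : ℕ) :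
    0 < ∑ k ∈ range (2 * m + 1), (-1) ^ k * a q k := by
  have key : ∀ k, a q (k + 1) ≤ a q k → q < 1 ∧ a q (k + 2) ≤ a q (k + 1) := by
    intro k hk
    have hk0 : (0 : ℝ) ≤ k := Nat.cast_nonneg k
    have hT : 0 < q ^ T k := by positivity
    have h1 : (2 * k + 3 : ℝ) * q ^ (k + 1) ≤ 2 * k + 1 := by
      simp only [a, T, pow_add q (T k)] at hk
      push_cast at hk
      exact le_of_mul_le_mul_left (by linarith) hT
    obtain ⟨hq, h2⟩ := ratio h0 (C := 2 * k + 3) (by positivity) (by positivity) (by linarith)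
      (2 * k + 5) (by positivity) (by nlinarith) _ h1
    refine ⟨hq, ?_⟩
    have hT1 : 0 < q ^ T (k + 1) := by positivity
    have := mul_le_mul_of_nonneg_left h2 hT1.le
    rw [a, a, show T (k + 2) = T (k + 1) + (k + 1 + 1) from rfl, pow_add q (T (k + 1))]
    push_cast
    linarith
  refine alt_pos (a q) (by simp [a, T]) (fun k hk => (key k hk).2) (fun k hk => ?_) m
  have h1 := (key k hk.le).1
  refine ⟨J q, J_pos h0 h1, Summable.hasSum (Summable.of_norm ?_)⟩
  refine (summ_a h0 h1).congr fun k => ?_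
  rw [norm_mul, norm_pow, norm_neg, norm_one, one_pow, one_mul,
    Real.norm_of_nonneg (by unfold a; positivity)]

theorem odd_neg {q : ℝ} (h0 : 0 < q) (m : ℕ) :
    ∑ k ∈ range (2 * m + 2), (-1) ^ k * ((T k : ℝ) * a q k) < 0 := by
  set c : ℕ → ℝ := fun k => (T (k + 1) : ℝ) * a q (k + 1) with hc
  have hT : ∀ k : ℕ, (T k : ℝ) = k * (k + 1) / 2 := fun k => by
    have h : (2 : ℝ) * T k = k * (k + 1) := by exact_mod_cast two_T k
    linarith
  have key : ∀ k, c (k + 1) ≤ c k → q < 1 ∧ c (k + 2) ≤ c (k + 1) := by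
    intro k hk
    have hk0 : (0 : ℝ) ≤ k := Nat.cast_nonneg k
    have hT1 : 0 < q ^ T (k + 1) * ((k + 2) / 2) := by positivity
    have h1 : ((k + 3) * (2 * k + 5) : ℝ) * q ^ (k + 2) ≤ (k + 1) * (2 * k + 3) := by
      simp only [hc, a, hT] at hk
      rw [show T (k + 1 + 1) = T (k + 1) + (k + 2) from rfl, pow_add q (T (k + 1))] at hk
      push_cast at hk
      exact le_of_mul_le_mul_left (by linarith) hT1
    obtain ⟨hq, h2⟩ := ratio h0 (C := (k + 2) * (2 * k + 5)) (by positivity) (by positivity)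
      (by nlinarith) ((k + 4) * (2 * k + 7)) (by positivity)
      (by nlinarith [mul_nonneg hk0 hk0, mul_nonneg hk0 (mul_nonneg hk0 hk0)]) _ h1
    refine ⟨hq, ?_⟩
    have hT2 : 0 < q ^ T (k + 2) * ((k + 3) / 2) := by positivity
    have := mul_le_mul_of_nonneg_left h2 hT2.le
    simp only [hc, a, hT]
    rw [show T (k + 2 + 1) = T (k + 2) + (k + 2 + 1) from rfl, pow_add q (T (k + 2)),
      show T (k + 1 + 1) = T (k + 2) from rfl]
    push_cast
    linarith
  have h := alt_pos c (by simp [hc, a, T]; positivity) (fun k hk => (key k hk).2) (fun k hk => ?_) m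
  · rw [sum_range_succ']
    simp only [pow_succ, hc] at h ⊢
    have e : ∑ k ∈ range (2 * m + 1), (-1 : ℝ) ^ k * -1 * ((T (k + 1) : ℝ) * a q (k + 1)) =
        -∑ k ∈ range (2 * m + 1), (-1 : ℝ) ^ k * ((T (k + 1) : ℝ) * a q (k + 1)) := by
      rw [← sum_neg_distrib]; exact sum_congr rfl fun k _ => by ring
    rw [e]; simp only [T]; simp only [T] at h; push_cast at h ⊢; linarith
  · have h1 := (key k hk.le).1
    have hs : Summable fun k => (-1 : ℝ) ^ k * ((T k : ℝ) * a q k) := by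
      refine Summable.of_norm ((summ_b h0 h1).congr fun k => ?_)
      rw [norm_mul, norm_pow, norm_neg, norm_one, one_pow, one_mul,
        Real.norm_of_nonneg (by unfold a; positivity)]
    refine ⟨_, neg_pos.2 (H1_neg h0 h1), ?_⟩
    have := ((hasSum_nat_add_iff' 1).2 hs.hasSum).neg
    simp only [range_one, sum_singleton, show T 0 = 0 from rfl, Nat.cast_zero, zero_mul, mul_zero,
      sub_zero] at this
    have e : (fun k => (-1 : ℝ) ^ k * c k) =
        fun k => -((-1 : ℝ) ^ (k + 1) * ((T (k + 1) : ℝ) * a q (k + 1))) := by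
      funext k; simp only [hc, pow_succ]; ring
    rw [e]; exact this

open Polynomial in
/-- the polynomial `∑_{k ≤ n} (-1)^k (2k+1) z^{k(k+1)}` -/
noncomputable def pn (n : ℕ) : ℝ[X] :=
  ∑ k ∈ range (n + 1), C ((-1) ^ k * (2 * k + 1) : ℝ) * X ^ (k * (k + 1))

lemma eval_pn (n : ℕ) (x : ℝ) :
    (pn n).eval x = ∑ k ∈ range (n + 1), (-1) ^ k * a (x ^ 2) k := by
  simp only [pn, Polynomial.eval_finset_sum, Polynomial.eval_mul, Polynomial.eval_C,
    Polynomial.eval_pow, Polynomial.eval_X, a, ← pow_mul, two_T, mul_assoc]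

lemma eval_dpn (n : ℕ) (x : ℝ) : x * (Polynomial.derivative (pn n)).eval x =
    2 * ∑ k ∈ range (n + 1), (-1) ^ k * ((T k : ℝ) * a (x ^ 2) k) := by
  simp only [pn, Polynomial.derivative_sum, Polynomial.derivative_C_mul_X_pow,
    Polynomial.eval_finset_sum, Polynomial.eval_mul, Polynomial.eval_C,
    Polynomial.eval_pow, Polynomial.eval_X, a, ← pow_mul, mul_sum, ← two_T]
  refine sum_congr rfl fun k _ => ?_
  cases h : T k with
  | zero => simp
  | succ m =>
    rw [show 2 * (m + 1) - 1 = 2 * m + 1 by omega, show 2 * (m + 1) = 2 * m + 1 + 1 by omega]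
    push_cast; ring

lemma pn_zero (n : ℕ) : (pn n).eval 0 = 1 := by
  rw [eval_pn, sum_range_succ', sum_eq_zero]
  · simp [a, T]
  · intro k _; simp [a, T]

lemma pn_one (m : ℕ) : (pn (2 * m + 1)).eval 1 = -(2 * m + 2) := by
  rw [eval_pn]
  induction m with
  | zero => simp [sum_range_succ, a]
  | succ m ih =>
    rw [show 2 * (m + 1) + 1 + 1 = 2 * m + 1 + 1 + 1 + 1 by ring, sum_range_succ, sum_range_succ, ih]
    simp only [a, pow_succ, pow_mul]
    push_cast; ring

theorem pn_even_pos (m : ℕ) (x : ℝ) : 0 < (pn (2 * m)).eval x := by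
  by_cases hx : x = 0
  · rw [hx, pn_zero]; exact one_pos
  · rw [eval_pn]; exact even_pos (by positivity) m

theorem pn_odd (m : ℕ) : ∃ r : ℝ, 0 < r ∧ (pn (2 * m + 1)).roots = {r, -r} := by
  set p := pn (2 * m + 1) with hp
  have hp0 : p ≠ 0 := fun h => by simpa [← hp, h] using pn_zero (2 * m + 1)
  have hd : ∀ x : ℝ, x ≠ 0 → x * (Polynomial.derivative p).eval x < 0 := by
    intro x hx
    rw [hp, eval_dpn]
    have := odd_neg (q := x ^ 2) (by positivity) m
    linarith
  have hanti : StrictAntiOn (fun x => p.eval x) (Set.Ici 0) := by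
    refine strictAntiOn_of_deriv_neg (convex_Ici 0) p.continuous.continuousOn fun x hx => ?_
    rw [interior_Ici] at hx
    rw [Polynomial.deriv]
    have := hd x (ne_of_gt hx)
    by_contra hc
    exact absurd this (not_lt.2 (mul_nonneg (le_of_lt hx) (not_lt.1 hc)))
  have hm : (0 : ℝ) ≤ m := Nat.cast_nonneg m
  obtain ⟨r, hr, hr0⟩ := intermediate_value_Ioo' (zero_le_one' ℝ) p.continuous.continuousOn
    (show (0 : ℝ) ∈ Set.Ioo (p.eval 1) (p.eval 0) by
      rw [hp, pn_one, pn_zero]; constructor <;> linarith)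
  have hev : ∀ x, p.eval (-x) = p.eval x := fun x => by rw [hp, eval_pn, eval_pn, neg_sq]
  have hroot : ∀ x, p.eval x = 0 ↔ x = r ∨ x = -r := by
    intro x
    constructor
    · intro hx
      rcases le_total 0 x with h | h
      · exact Or.inl (hanti.injOn h hr.1.le (hx.trans hr0.symm))
      · right
        have := hanti.injOn (neg_nonneg.2 h) hr.1.le (((hev x).trans hx).trans hr0.symm)
        linarith
    · rintro (h | h)
      · rw [h]; exact hr0
      · rw [h, hev]; exact hr0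
  refine ⟨r, hr.1, ?_⟩
  have hne : r ≠ -r := ne_of_gt (by linarith [hr.1])
  have hnd : p.roots.Nodup := by
    classical
    rw [Multiset.nodup_iff_count_le_one]
    intro x
    rw [Polynomial.count_roots]
    by_contra hc
    obtain ⟨h1, h2⟩ := (Polynomial.one_lt_rootMultiplicity_iff_isRoot hp0).1 (not_le.1 hc)
    have hx : x ≠ 0 := by
      rcases (hroot x).1 h1 with h | h <;> rw [h]
      · exact hr.1.ne'
      · exact neg_ne_zero.2 hr.1.ne'
    have := hd x hx
    rw [h2.eq_zero, mul_zero] at this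
    exact lt_irrefl _ this
  refine (Multiset.Nodup.ext hnd (by simp [hne])).2 fun x => ?_
  simp [Polynomial.mem_roots hp0, hroot]

end Pool.Agent.Jacobi3
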