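import Mathlib

set_option autoImplicit false

namespace Pool.Agent.Lib.H11L2Def

/-- The Hilbert space `ℓ²(V)` (Mathlib's `lp` with exponent `2`). -/
def L2 (V : Type) : Type := lp (fun _ : V => ℂ) 2

noncomputable instance instNormedAddCommGroupL2 (V : Type) : NormedAddCommGroup (L2 V) :=
  lp.normedAddCommGroup (E := fun _ : V => ℂ) (p := 2)

noncomputable instance instNormedSpaceL2 (V : Type) : NormedSpace ℂ (L2 V) :=
  lp.instNormedSpace (E := fun _ : V => ℂ) (p := 2)

/-- The coordinates of an element of `ℓ²(V)`. -/
def L2.val {V : Type} (f : L2 V) : V → ℂ := f.1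

open Classical in
/-- The basis vector `δ_v`. -/
noncomputable def delta {V : Type} (v : V) : L2 V := lp.single 2 v 1

end Pool.Agent.Lib.H11L2Def
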