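import Mathlib

set_option autoImplicit false

namespace Pool.Agent.Lib.H11L2Op

open scoped ENNReal

variable {X : Type}

lemma memL2_iff (f : X → ℂ) :
    Memℓp f 2 ↔ ∑' x, ENNReal.ofReal (‖f x‖ ^ 2) ≠ ⊤ := by
  rw [memℓp_gen_iff (by norm_num)]
  simp only [ENNReal.toReal_ofNat, Real.rpow_ofNat]
  constructor
  · intro h
    rw [← ENNReal.ofReal_tsum_of_nonneg (fun _ => sq_nonneg _) h]
    exact ENNReal.ofReal_ne_top
  · intro h
    have := ENNReal.summable_toReal h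
    simpa [ENNReal.toReal_ofReal (sq_nonneg _)] using this

lemma normSq_eq (f : lp (fun _ : X => ℂ) 2) :
    ENNReal.ofReal (‖f‖ ^ 2) = ∑' x, ENNReal.ofReal (‖f x‖ ^ 2) := by
  have h1 := lp.norm_rpow_eq_tsum (p := 2) (by norm_num) f
  have h2 := (memℓp_gen_iff (p := 2) (by norm_num)).1 (lp.memℓp f)
  simp only [ENNReal.toReal_ofNat, Real.rpow_ofNat] at h1 h2
  rw [h1, ENNReal.ofReal_tsum_of_nonneg (fun _ => sq_nonneg _) h2]

theorem exists_op (L : (X → ℂ) →ₗ[ℂ] (X → ℂ)) (C : ℝ) (hC : 0 ≤ C)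
    (h : ∀ f : X → ℂ, ∑' x, ENNReal.ofReal (‖L f x‖ ^ 2) ≤
      ENNReal.ofReal (C ^ 2) * ∑' x, ENNReal.ofReal (‖f x‖ ^ 2)) :
    ∃ H : lp (fun _ : X => ℂ) 2 →L[ℂ] lp (fun _ : X => ℂ) 2,
      (∀ f x, H f x = L f x) ∧ ‖H‖ ≤ C := by
  have hmem : ∀ f : lp (fun _ : X => ℂ) 2, Memℓp (L f) 2 := by
    intro f
    rw [memL2_iff]
    refine ne_top_of_le_ne_top ?_ (h f)
    exact ENNReal.mul_ne_top ENNReal.ofReal_ne_top ((memL2_iff _).1 (lp.memℓp f))
  let T : lp (fun _ : X => ℂ) 2 →ₗ[ℂ] lp (fun _ : X => ℂ) 2 :=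
    { toFun := fun f => ⟨L f, hmem f⟩
      map_add' := fun f g => by
        ext x
        change L (⇑(f + g)) x = (L f + L g) x
        rw [lp.coeFn_add, map_add]
      map_smul' := fun c f => by
        ext x
        simp [lp.coeFn_smul] }
  have hT : ∀ f, ‖T f‖ ≤ C * ‖f‖ := by
    intro f
    have h1 := h f
    rw [← normSq_eq f, ← ENNReal.ofReal_mul (sq_nonneg _)] at h1
    have h2 : ENNReal.ofReal (‖T f‖ ^ 2) = ∑' x, ENNReal.ofReal (‖L f x‖ ^ 2) := normSq_eq (T f)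
    rw [← h2, ENNReal.ofReal_le_ofReal_iff (by positivity), ← mul_pow] at h1
    exact le_of_sq_le_sq h1 (by positivity)
  exact ⟨T.mkContinuous C hT, fun f x => rfl, T.mkContinuous_norm_le hC hT⟩

lemma tsum_list (Φ : List Bool → ℝ≥0∞) :
    ∑' w, Φ w = Φ [] + (∑' w, Φ (true :: w) + ∑' w, Φ (false :: w)) := by
  rw [ENNReal.tsum_eq_add_tsum_ite ([] : List Bool)]
  congr 1
  have hinj : Function.Injective (fun p : Bool × List Bool => p.1 :: p.2) := by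
    rintro ⟨a, b⟩ ⟨c, d⟩ h
    simpa using h
  rw [← hinj.tsum_eq]
  · rw [ENNReal.tsum_prod', tsum_bool, add_comm]
    simp
  · intro w hw
    cases w with
    | nil => simp at hw
    | cons a l => exact ⟨(a, l), rfl⟩

lemma tsum_nat (Φ : ℕ → ℝ≥0∞) : ∑' n, Φ n = Φ 0 + ∑' n, Φ (n + 1) :=
  tsum_eq_zero_add' ENNReal.summable

end Pool.Agent.Lib.H11L2Op
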