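import Mathlib

set_option autoImplicit false

namespace Pool.Agent.Lib.H11NegPrimRoot

/-- `a` is a perfect power: `a = x ^ m` for integers `x` and `m > 1`. -/
def IsPerfectPower (a : ℤ) : Prop := ∃ (x : ℤ) (m : ℕ), 1 < m ∧ a = x ^ m

/-- `g` is a primitive root modulo `p`: `p ∤ g` and every residue class prime to `p`
is a power of the class of `g`. -/
def IsPrimRootMod (g : ℤ) (p : ℕ) : Prop :=
  ¬ (p : ℤ) ∣ g ∧ ∀ u : (ZMod p)ˣ, ∃ k : ℕ, (u : ZMod p) = (g : ZMod p) ^ k

/-- `a` is the largest negative primitive root modulo `p`. -/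
def IsLargestNegPrimRoot (a : ℤ) (p : ℕ) : Prop :=
  IsPrimRootMod a p ∧ ∀ b : ℤ, a < b → b < 0 → ¬ IsPrimRootMod b p

lemma not_perfectPower : ¬ IsPerfectPower (-16) := by
  rintro ⟨x, m, hm, h⟩
  rcases Nat.even_or_odd m with he | ho
  · have := he.pow_nonneg x
    omega
  · have h1 : (16 : ℤ) = (-x) ^ m := by rw [ho.neg_pow]; omega
    have h2 : (16 : ℕ) = (x.natAbs) ^ m := by
      have := congrArg Int.natAbs h1
      simpa [Int.natAbs_pow] using this
    have h3 := congrArg (fun n : ℕ => n.factorization 2) h2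
    simp only [Nat.factorization_pow, Finsupp.smul_apply, smul_eq_mul] at h3
    have h4 : (16 : ℕ).factorization 2 = 4 := by
      have : (16 : ℕ) = 2 ^ 4 := by norm_num
      rw [this, Nat.Prime.factorization_pow Nat.prime_two]; simp
    rw [h4] at h3
    have hdvd : m ∣ 4 := ⟨_, h3⟩
    have hle : m ≤ 4 := Nat.le_of_dvd (by norm_num) hdvd
    obtain ⟨j, hj⟩ := ho
    have : m = 3 := by omega
    subst this
    norm_num at hdvd

lemma never (p : ℕ) (hp : p.Prime) : ¬ IsLargestNegPrimRoot (-16) p := by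
  rintro ⟨⟨hnd, hgen⟩, hmax⟩
  haveI := Fact.mk hp
  have hp2 : p ≠ 2 := by
    rintro rfl
    exact hnd (by norm_num)
  have h2 : (2 : ZMod p) ≠ 0 := by
    intro h
    have : ((2 : ℕ) : ZMod p) = 0 := by exact_mod_cast h
    rw [ZMod.natCast_eq_zero_iff] at this
    exact hp2 ((Nat.prime_dvd_prime_iff_eq hp Nat.prime_two).1 this)
  by_cases h3 : p % 4 = 3
  · -- then `-4` is a primitive root as well
    apply hmax (-4) (by norm_num) (by norm_num)
    refine ⟨?_, ?_⟩
    · intro hd
      apply hnd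
      exact hd.trans ⟨4, by norm_num⟩
    · intro u
      obtain ⟨k, hk⟩ := hgen u
      set d := p / 2 with hd
      have hdodd : Odd d := by
        refine Nat.odd_iff.2 ?_
        omega
      have h4 : (4 : ZMod p) ^ d = 1 := by
        have h1 : (2 : ZMod p) ^ (p - 1) = 1 := ZMod.pow_card_sub_one_eq_one h2
        have h5 : p - 1 = 2 * d := by omega
        rw [h5, pow_mul] at h1
        have : (2 : ZMod p) ^ 2 = 4 := by norm_num
        rwa [this] at h1
      have key : (((-16 : ℤ) : ZMod p)) = (((-4 : ℤ) : ZMod p)) ^ (d + 2) := by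
        push_cast
        rw [pow_add, hdodd.neg_pow, h4]
        norm_num
      exact ⟨(d + 2) * k, by rw [hk, key, ← pow_mul]⟩
  · -- then `-16` is a square
    obtain ⟨i, hi⟩ := ZMod.exists_sq_eq_neg_one_iff.2 h3
    have hchar : ringChar (ZMod p) ≠ 2 := by rw [ZMod.ringChar_zmod_n]; exact hp2
    obtain ⟨w, hw⟩ := FiniteField.exists_nonsquare hchar
    have hw0 : w ≠ 0 := by
      rintro rfl
      exact hw IsSquare.zero
    obtain ⟨k, hk⟩ := hgen (Units.mk0 w hw0)
    apply hw
    have h16 : (((-16 : ℤ) : ZMod p)) = (4 * i) * (4 * i) := by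
      push_cast
      linear_combination 16 * hi
    refine ⟨(4 * i) ^ k, ?_⟩
    rw [Units.val_mk0] at hk
    rw [hk, h16, mul_pow]

lemma set_empty : {p : ℕ | p.Prime ∧ IsLargestNegPrimRoot (-16) p} = ∅ := by
  ext p
  simp only [Set.mem_setOf_eq, Set.mem_empty_iff_false, iff_false, not_and]
  exact never p

end Pool.Agent.Lib.H11NegPrimRoot
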