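import Mathlib

namespace Pool.Agent.Lib.helper11.NetDet

open Matrix

/-- A row with entries in `{-1,0,1}`, at most one `1` and at most one `-1`. -/
def Net {ι : Type} (r : ι → ℤ) : Prop :=
  (∀ j, r j = -1 ∨ r j = 0 ∨ r j = 1) ∧ (∀ j k, r j = 1 → r k = 1 → j = k) ∧
    ∀ j k, r j = -1 → r k = -1 → j = k

lemma Net.comp {ι κ : Type} {r : ι → ℤ} (h : Net r) {f : κ → ι} (hf : Function.Injective f) :
    Net (r ∘ f) :=
  ⟨fun j => h.1 (f j), fun j k a b => hf (h.2.1 _ _ a b), fun j k a b => hf (h.2.2 _ _ a b)⟩

theorem abs_det_le_one : ∀ (n : ℕ) (A : Matrix (Fin n) (Fin n) ℤ), (∀ i, Net (A i)) →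
    |A.det| ≤ 1 := by
  intro n
  induction n with
  | zero => intro A _; simp
  | succ n ih =>
    intro A hA
    by_cases h : ∃ i j, ∀ k, k ≠ j → A i k = 0
    · obtain ⟨i, j, h⟩ := h
      rw [det_succ_row A i, Finset.sum_eq_single j (fun k _ hk => by simp [h k hk]) (by simp)]
      have h1 := ih (A.submatrix i.succAbove j.succAbove) fun a =>
        (hA (i.succAbove a)).comp Fin.succAbove_right_injective
      have h2 : |A i j| ≤ 1 := by
        rcases (hA i).1 j with h | h | h <;> simp [h]
      rw [abs_mul, abs_mul, abs_pow, abs_neg, abs_one, one_pow, one_mul]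
      exact mul_le_one₀ h2 (abs_nonneg _) h1
    · push Not at h
      have : A.mulVec (fun _ => 1) = 0 := by
        funext i
        obtain ⟨a, -, ha⟩ := h i 0
        obtain ⟨b, hab, hb⟩ := h i a
        obtain ⟨h1, h2, h3⟩ := hA i
        have hz : ∀ c, c ≠ a ∧ c ≠ b → A i c = 0 := by
          rintro c ⟨hca, hcb⟩
          rcases h1 a with e1 | e1 | e1 <;> rcases h1 b with e2 | e2 | e2 <;>
            rcases h1 c with e3 | e3 | e3 <;>
            first
              | exact e3
              | exact absurd e1 ha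
              | exact absurd e2 hb
              | exact absurd (h2 _ _ e3 e1) hca
              | exact absurd (h3 _ _ e3 e1) hca
              | exact absurd (h2 _ _ e3 e2) hcb
              | exact absurd (h3 _ _ e3 e2) hcb
              | exact absurd (h2 _ _ e2 e1) hab
              | exact absurd (h3 _ _ e2 e1) hab
        simp only [mulVec, dotProduct, mul_one, Pi.zero_apply]
        rw [Fintype.sum_eq_add a b hab.symm hz]
        rcases h1 a with e1 | e1 | e1 <;> rcases h1 b with e2 | e2 | e2 <;>
          first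
            | exact absurd e1 ha
            | exact absurd e2 hb
            | exact absurd (h2 _ _ e2 e1) hab
            | exact absurd (h3 _ _ e2 e1) hab
            | simp [e1, e2]
      have h0 : A.det = 0 := exists_mulVec_eq_zero_iff.1
        ⟨fun _ => 1, fun h => by simpa using congrFun h 0, this⟩
      simp [h0]

theorem abs_det_le_pow (n : ℕ) (s : Finset (Fin n)) : ∀ A : Matrix (Fin n) (Fin n) ℤ,
    (∀ i, i ∉ s → Net (A i)) → (∀ i ∈ s, ∃ u v, Net u ∧ Net v ∧ A i = u + v) →
      |A.det| ≤ 2 ^ s.card := by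
  induction s using Finset.induction_on with
  | empty => exact fun A h _ => by simpa using abs_det_le_one n A fun i => h i (by simp)
  | insert a s ha ih =>
    intro A h1 h2
    obtain ⟨u, v, hu, hv, e⟩ := h2 a (Finset.mem_insert_self _ _)
    have key : ∀ w, Net w → |(A.updateRow a w).det| ≤ 2 ^ s.card := by
      intro w hw
      refine ih _ (fun i hi => ?_) fun i hi => ?_
      · by_cases hia : i = a
        · subst hia
          simpa using hw
        · rw [updateRow_ne hia]
          exact h1 i (by simp [hia, hi])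
      · rw [updateRow_ne (fun h : i = a => ha (h ▸ hi))]
        exact h2 i (Finset.mem_insert_of_mem hi)
    rw [← updateRow_eq_self A a, e, det_updateRow_add, Finset.card_insert_of_notMem ha, pow_succ]
    have := abs_add_le (A.updateRow a u).det (A.updateRow a v).det
    have := key u hu
    have := key v hv
    omega

/-- All rows are sums of two network rows and one row is a network row. -/
theorem abs_det_le (n : ℕ) (A : Matrix (Fin n) (Fin n) ℤ) (i₀ : Fin n) (h₀ : Net (A i₀))
    (h : ∀ i, ∃ u v, Net u ∧ Net v ∧ A i = u + v) : |A.det| ≤ 2 ^ (n - 1) := by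
  have := abs_det_le_pow n (Finset.univ.erase i₀) A (fun i hi => by
    have : i = i₀ := by simpa using hi
    rwa [this]) fun i _ => h i
  simpa using this

lemma net_zero {ι : Type} : Net (0 : ι → ℤ) := by simp [Net]

lemma Net.two {ι : Type} {r : ι → ℤ} (h : Net r) : ∃ u v, Net u ∧ Net v ∧ r = u + v :=
  ⟨r, 0, h, net_zero, by simp⟩

variable {n : ℕ}

lemma net_unit_neg (i m : Fin n) : Net (Function.update (Pi.single i (1 : ℤ)) m (-1)) := by
  refine ⟨fun j => ?_, fun j k => ?_, fun j k => ?_⟩ <;>
    simp only [Function.update_apply, Pi.single_apply] <;> split_ifs <;> simp_all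

lemma net_unit_zero (i m : Fin n) : Net (Function.update (Pi.single i (1 : ℤ)) m 0) := by
  refine ⟨fun j => ?_, fun j k => ?_, fun j k => ?_⟩ <;>
    simp only [Function.update_apply, Pi.single_apply] <;> split_ifs <;> simp_all

lemma net_diff_zero (i k m : Fin n) :
    Net (Function.update (Pi.single i (1 : ℤ) - Pi.single k 1 : Fin n → ℤ) m 0) := by
  refine ⟨fun j => ?_, fun j l => ?_, fun j l => ?_⟩ <;>
    simp only [Function.update_apply, Pi.single_apply, Pi.sub_apply] <;> split_ifs <;> simp_all

lemma two_add_zero (i j k m : Fin n) : ∃ u v, Net u ∧ Net v ∧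
    Function.update (Pi.single i (1 : ℤ) + Pi.single j 1 - Pi.single k 1 : Fin n → ℤ) m 0 =
      u + v := by
  refine ⟨_, _, net_diff_zero i k m, net_unit_zero j m, funext fun l => ?_⟩
  simp only [Function.update_apply, Pi.sub_apply, Pi.add_apply]
  split_ifs <;> ring

/-- Cramer numerators of systems made of unit rows (right side `0` or `1`) and addition rows
(right side `0`) are bounded by `2 ^ (n - 1)`. -/
theorem abs_det_updateCol_le (B : Matrix (Fin n) (Fin n) ℤ) (c : Fin n → ℤ) (m : Fin n)
    (h : ∀ r, (∃ i, B r = Pi.single i 1 ∧ (c r = 0 ∨ c r = 1)) ∨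
      ∃ i j k, B r = Pi.single i 1 + Pi.single j 1 - Pi.single k 1 ∧ c r = 0) :
    |(B.updateCol m c).det| ≤ 2 ^ (n - 1) := by
  by_cases hc : c = 0
  · rw [det_eq_zero_of_column_eq_zero m (by simp [hc])]
    simp
  obtain ⟨r₀, hr₀⟩ := Function.ne_iff.1 hc
  have e : (B.updateCol m (-c)).det = -(B.updateCol m c).det := by
    rw [← neg_one_smul ℤ c, det_updateCol_smul]
    simp
  have hrow : ∀ r, (B.updateCol m (-c)) r = Function.update (B r) m (-c r) := fun r => rfl
  rw [← abs_neg, ← e]
  refine abs_det_le n _ r₀ ?_ fun r => ?_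
  · rw [hrow]
    rcases h r₀ with ⟨i, h1, h2 | h2⟩ | ⟨i, j, k, -, h2⟩
    · exact absurd h2 hr₀
    · rw [h1, h2]
      exact net_unit_neg i m
    · exact absurd h2 hr₀
  · rw [hrow]
    rcases h r with ⟨i, h1, h2 | h2⟩ | ⟨i, j, k, h1, h2⟩
    · rw [h1, h2, neg_zero]
      exact (net_unit_zero i m).two
    · rw [h1, h2]
      exact (net_unit_neg i m).two
    · rw [h1, h2, neg_zero]
      exact two_add_zero i j k m

/-- Cauchy–Binet in symmetrised form. -/
theorem cauchy_binet {ι : Type} [Fintype ι] [DecidableEq ι] (M N : Matrix ι (Fin n) ℝ) :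
    (n.factorial : ℝ) * (Mᵀ * N).det =
      ∑ f : Fin n → ι, (M.submatrix f id).det * (N.submatrix f id).det := by
  have h1 : (Mᵀ * N).det = ∑ f : Fin n → ι, (∏ i, M (f i) i) * (N.submatrix f id).det := by
    have : (Mᵀ * N).det = detRowAlternating fun i => ∑ k, M k i • N k := by
      congr 1
      ext i j
      simp [mul_apply]
    rw [this]
    erw [(detRowAlternating (n := Fin n) (R := ℝ)).toMultilinearMap.map_sum
      (fun i k => M k i • N k)]
    refine Finset.sum_congr rfl fun f _ => ?_
    erw [(detRowAlternating (n := Fin n) (R := ℝ)).toMultilinearMap.map_smul_univ]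
    rfl
  have h2 : ∀ σ : Equiv.Perm (Fin n), (Mᵀ * N).det = ∑ f : Fin n → ι,
      ((Equiv.Perm.sign σ : ℤ) * ∏ i, M (f (σ i)) i) * (N.submatrix f id).det := by
    intro σ
    rw [h1]
    refine (Fintype.sum_equiv (Equiv.arrowCongr σ.symm (Equiv.refl ι)) _ _ fun f => ?_).symm
    have e : Equiv.arrowCongr σ.symm (Equiv.refl ι) f = f ∘ σ := by
      ext i
      simp
    have e2 : N.submatrix (f ∘ σ) id = (N.submatrix f id).submatrix σ id := rfl
    rw [e, e2, det_permute]
    simp only [Function.comp_apply]
    ring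
  calc (n.factorial : ℝ) * (Mᵀ * N).det = ∑ _σ : Equiv.Perm (Fin n), (Mᵀ * N).det := by
        simp [Fintype.card_perm]
    _ = ∑ σ : Equiv.Perm (Fin n), ∑ f : Fin n → ι,
      ((Equiv.Perm.sign σ : ℤ) * ∏ i, M (f (σ i)) i) * (N.submatrix f id).det :=
        Finset.sum_congr rfl fun σ _ => h2 σ
    _ = _ := by
        rw [Finset.sum_comm]
        refine Finset.sum_congr rfl fun f _ => ?_
        rw [← Finset.sum_mul, det_apply' (M.submatrix f id)]
        rfl

end Pool.Agent.Lib.helper11.NetDet
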