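import Mathlib

open Set Filter Topology MeasureTheory

namespace Pool.Agent.Lib.helper11.NullPlastic

def En (w : ℝ → ℝ) (c : ℝ × ℝ) : ℝ := c.1 - w c.1 - w (c.1 + c.2)

def pr (l : Bool) (c : ℝ × ℝ) : ℝ := c.1 + if l then c.2 else 0

structure Gap (w : ℝ → ℝ) (Γ : Set (ℝ × ℝ)) (a b : ℝ × ℝ) : Prop where
  ha : a ∈ Γ
  hb : b ∈ Γ
  h1 : a.1 < b.1
  h2 : a.2 < b.2
  hE : En w a < En w b
  out : ∀ c ∈ Γ, c.1 ≤ a.1 ∨ b.1 ≤ c.1

structure Inv (w : ℝ → ℝ) (H : Set ℝ) (Γ : Set (ℝ × ℝ)) : Prop where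
  ch : ∀ c ∈ Γ, ∀ d ∈ Γ, c.1 ≤ d.1 → c.2 ≤ d.2
  mem : ∀ c ∈ Γ, c.2 ∈ H
  cov : ∀ l z, (∃ c ∈ Γ, pr l c = z) ∨ ∃ a b, Gap w Γ a b ∧ pr l a < z ∧ z < pr l b

variable {w : ℝ → ℝ} {H : Set ℝ} {Γ : Set (ℝ × ℝ)}

lemma pr_le (l : Bool) {c d : ℝ × ℝ} (h1 : c.1 ≤ d.1) (h2 : c.2 ≤ d.2) : pr l c ≤ pr l d := by
  unfold pr; split_ifs <;> linarith

lemma gap_cases (hI : Inv w H Γ) {a b a' b' : ℝ × ℝ} (g : Gap w Γ a b) (g' : Gap w Γ a' b') :
    b'.1 ≤ a.1 ∨ b.1 ≤ a'.1 ∨ (a' = a ∧ b' = b) := by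
  by_contra h
  push Not at h
  obtain ⟨h1, h2, h3⟩ := h
  have e1 : a'.1 ≤ a.1 := (g.out _ g'.ha).resolve_right (not_le.2 h2)
  have e2 : a.1 ≤ a'.1 := (g'.out _ g.ha).resolve_right (not_le.2 h1)
  have e3 : b.1 ≤ b'.1 := (g.out _ g'.hb).resolve_left (not_le.2 h1)
  have e4 : b'.1 ≤ b.1 := (g'.out _ g.hb).resolve_left (not_le.2 h2)
  exact h3 (Prod.ext (e1.antisymm e2) ((hI.ch _ g'.ha _ g.ha e1).antisymm (hI.ch _ g.ha _ g'.ha e2)))
    (Prod.ext (e4.antisymm e3) ((hI.ch _ g'.hb _ g.hb e4).antisymm (hI.ch _ g.hb _ g'.hb e3)))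

lemma ext_inv (hI : Inv w H Γ) {a b : ℝ × ℝ} (g : Gap w Γ a b) {P Q t : ℝ} (ht : t ∈ H)
    (hPQ : P ≤ Q) (hL : (P, t) = a ∨ (a.1 < P ∧ a.2 < t ∧ En w a < En w (P, t)))
    (hR : (Q, t) = b ∨ (Q < b.1 ∧ t < b.2 ∧ En w (Q, t) < En w b)) :
    Inv w H (Γ ∪ {c | c.2 = t ∧ P ≤ c.1 ∧ c.1 ≤ Q}) := by
  have a1 : a.1 ≤ P := by rcases hL with rfl | h; exacts [le_rfl, h.1.le]
  have a2 : a.2 ≤ t := by rcases hL with rfl | h; exacts [le_rfl, h.2.1.le]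
  have b1 : Q ≤ b.1 := by rcases hR with rfl | h; exacts [le_rfl, h.1.le]
  have b2 : t ≤ b.2 := by rcases hR with rfl | h; exacts [le_rfl, h.2.1.le]
  refine ⟨?_, ?_, fun l z => ?_⟩
  · rintro c (hc | ⟨hc, c1, c2⟩) d (hd | ⟨hd, d1, d2⟩) hcd
    · exact hI.ch c hc d hd hcd
    · rcases g.out c hc with h | h
      · exact (hI.ch _ hc _ g.ha h).trans (hd ▸ a2)
      · rcases hR with rfl | hR
        · exact (hI.ch _ hc _ g.hb (hcd.trans d2)).trans hd.ge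
        · linarith [hR.1]
    · rcases g.out d hd with h | h
      · rcases hL with rfl | hL
        · exact hc.le.trans (hI.ch _ g.ha _ hd (c1.trans hcd))
        · linarith [hL.1]
      · exact (hc ▸ b2).trans (hI.ch _ g.hb _ hd h)
    · rw [hc, hd]
  · rintro c (hc | ⟨hc, -⟩)
    · exact hI.mem c hc
    · rwa [hc]
  rcases hI.cov l z with ⟨c, hc, h⟩ | ⟨a', b', g', z1, z2⟩
  · exact Or.inl ⟨c, Or.inl hc, h⟩
  rcases gap_cases hI g g' with h | h | ⟨rfl, rfl⟩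
  · refine Or.inr ⟨a', b', ⟨Or.inl g'.ha, Or.inl g'.hb, g'.h1, g'.h2, g'.hE, ?_⟩, z1, z2⟩
    rintro c (hc | ⟨-, c1, -⟩)
    · exact g'.out c hc
    · right; linarith
  · refine Or.inr ⟨a', b', ⟨Or.inl g'.ha, Or.inl g'.hb, g'.h1, g'.h2, g'.hE, ?_⟩, z1, z2⟩
    rintro c (hc | ⟨-, -, c1⟩)
    · exact g'.out c hc
    · left; linarith
  by_cases u : z < pr l (P, t)
  · rcases hL with rfl | hL
    · linarith
    refine Or.inr ⟨a', (P, t), ⟨Or.inl g.ha, Or.inr ⟨rfl, le_rfl, hPQ⟩, hL.1, hL.2.1, hL.2.2, ?_⟩,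
      z1, u⟩
    rintro c (hc | ⟨-, c1, -⟩)
    · exact (g.out c hc).imp id fun h => by simp only; linarith
    · exact Or.inr c1
  by_cases v : pr l (Q, t) < z
  · rcases hR with rfl | hR
    · linarith
    refine Or.inr ⟨(Q, t), b', ⟨Or.inr ⟨rfl, hPQ, le_rfl⟩, Or.inl g.hb, hR.1, hR.2.1, hR.2.2, ?_⟩,
      v, z2⟩
    rintro c (hc | ⟨-, -, c1⟩)
    · exact (g.out c hc).imp (fun h => by simp only; linarith) id
    · exact Or.inl c1
  refine Or.inl ⟨(z - if l then t else 0, t), Or.inr ⟨rfl, ?_, ?_⟩, by simp [pr]⟩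
  · simp only [pr, not_lt] at u ⊢; linarith
  · simp only [pr, not_lt] at v ⊢; linarith

lemma wcont (hm : Monotone w) (hl : ∀ a b, a ≤ b → w b - w a ≤ b - a) : Continuous w := by
  refine (LipschitzWith.mk_one fun a b => ?_).continuous
  rw [Real.dist_eq, Real.dist_eq]
  rcases le_total a b with h | h
  · rw [abs_sub_comm, abs_sub_comm a, abs_of_nonneg (sub_nonneg.2 (hm h)),
      abs_of_nonneg (sub_nonneg.2 h)]
    exact hl _ _ h
  · rw [abs_of_nonneg (sub_nonneg.2 (hm h)), abs_of_nonneg (sub_nonneg.2 h)]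
    exact hl _ _ h

lemma fill (hm : Monotone w) (hl : ∀ a b, a ≤ b → w b - w a ≤ b - a) (hH : Dense H)
    (hI : Inv w H Γ) {a b : ℝ × ℝ} (g : Gap w Γ a b) (l : Bool) {p q : ℝ} (hpq : p ≤ q)
    (he : w q - w p = q - p) (hp : pr l a ≤ p) (hq : q ≤ pr l b) :
    ∃ Γ', Γ ⊆ Γ' ∧ Inv w H Γ' ∧ ∀ z, p ≤ z → z ≤ q → ∃ c ∈ Γ', pr l c = z := by
  obtain ⟨y1, t1⟩ := a
  obtain ⟨y2, t2⟩ := b
  have g1 : y1 < y2 := g.h1
  have g2 : t1 < t2 := g.h2
  have gE := g.hE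
  have hc := wcont hm hl
  set s : ℝ → ℝ := fun t => if l then t else 0 with hs
  have hsc : Continuous s := by cases l <;> simp [hs, continuous_const, continuous_id']
  have F1 : ∀ t, En w (q - s t, t) ≤ En w (p - s t, t) := by
    intro t
    cases l
    · have := hm (show p + t ≤ q + t by linarith)
      simp [En, hs]; linarith
    · have := hl (p - t) (q - t) (by linarith)
      have := hm (show p - t ≤ q - t by linarith)
      simp [En, hs]; linarith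
  have F2 : ∀ t, t1 ≤ t → En w (y1, t1) < En w (p - s t, t) → y1 < p - s t := by
    intro t ht h
    by_contra hn
    push Not at hn
    have u := hl _ _ hn
    have v : y1 + t1 ≤ p - s t + t := by
      cases l <;> simp [pr, hs] at hp hn ⊢ <;> linarith
    have := hm v
    simp only [En] at h; linarith
  have F3 : ∀ t, t ≤ t2 → En w (q - s t, t) < En w (y2, t2) → q - s t < y2 := by
    intro t ht h
    by_contra hn
    push Not at hn
    have u := hl _ _ hn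
    have v : q - s t + t ≤ y2 + t2 := by
      cases l <;> simp [pr, hs] at hq hn ⊢ <;> linarith
    have := hm v
    simp only [En] at h; linarith
  have hp' : y1 ≤ p - s t1 := by simp only [pr] at hp; simp only [hs]; linarith
  have hq' : q - s t2 ≤ y2 := by simp only [pr] at hq; simp only [hs]; linarith
  have fin : ∀ P Q t, P ≤ p - s t → q - s t ≤ Q →
      Inv w H (Γ ∪ {c | c.2 = t ∧ P ≤ c.1 ∧ c.1 ≤ Q}) →
      ∃ Γ', Γ ⊆ Γ' ∧ Inv w H Γ' ∧ ∀ z, p ≤ z → z ≤ q → ∃ c ∈ Γ', pr l c = z := by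
    intro P Q t h1 h2 h
    exact ⟨_, subset_union_left, h, fun z z1 z2 =>
      ⟨(z - s t, t), Or.inr ⟨rfl, by simp only; linarith, by simp only; linarith⟩,
        by simp [pr, hs]⟩⟩
  by_cases hb : En w (q - s t1, t1) < En w (y2, t2)
  · exact fin y1 _ t1 hp' le_rfl (ext_inv hI g (hI.mem _ g.ha) (by linarith) (Or.inl rfl)
      (Or.inr ⟨F3 _ g2.le hb, g2, hb⟩))
  by_cases hcc : En w (y1, t1) < En w (p - s t2, t2)
  · exact fin _ y2 t2 le_rfl hq' (ext_inv hI g (hI.mem _ g.hb) (by linarith)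
      (Or.inr ⟨F2 _ g2.le hcc, g2, hcc⟩) (Or.inl rfl))
  push Not at hb hcc
  have hβ : Continuous fun t => En w (q - s t, t) := by unfold En; fun_prop
  obtain ⟨t, ⟨ht1, ht2⟩, ht⟩ := intermediate_value_Ioo' g2.le hβ.continuousOn
    (show (En w (y1, t1) + En w (y2, t2)) / 2 ∈ Ioo (En w (q - s t2, t2)) (En w (q - s t1, t1)) from
      ⟨by linarith [F1 t2], by linarith⟩)
  obtain ⟨u, hu, ⟨u1, u2⟩, u3, u4⟩ := hH.exists_mem_open
    (isOpen_Ioo.inter (isOpen_Ioo.preimage hβ) : IsOpen (Ioo t1 t2 ∩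
      (fun t => En w (q - s t, t)) ⁻¹' Ioo (En w (y1, t1)) (En w (y2, t2))))
    ⟨t, ⟨ht1, ht2⟩, by simp only [mem_preimage, mem_Ioo] at ht ⊢; constructor <;> linarith⟩
  have u5 := u3.trans_le (F1 u)
  exact fin _ _ u le_rfl le_rfl (ext_inv hI g hu (by linarith)
    (Or.inr ⟨F2 _ u1.le u5, u1, u5⟩) (Or.inr ⟨F3 _ u2.le u4, u2, u4⟩))

lemma step1 (hm : Monotone w) (hl : ∀ a b, a ≤ b → w b - w a ≤ b - a) (hH : Dense H)
    (hI : Inv w H Γ) (l : Bool) {p q : ℝ}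
    (he : ∀ p' q', p ≤ p' → p' ≤ q' → q' ≤ q → w q' - w p' = q' - p') (r : ℝ) :
    ∃ Γ', Γ ⊆ Γ' ∧ Inv w H Γ' ∧ ∀ a b, Gap w Γ a b → pr l a < r → r < pr l b →
      ∀ z, p ≤ z → z ≤ q → pr l a < z → z < pr l b → ∃ c ∈ Γ', pr l c = z := by
  by_cases h : ∃ a b, Gap w Γ a b ∧ pr l a < r ∧ r < pr l b ∧ max p (pr l a) ≤ min q (pr l b)
  · obtain ⟨a, b, g, r1, r2, h⟩ := h
    obtain ⟨Γ', h1, h2, h3⟩ := fill hm hl hH hI g l h
      (he _ _ (le_max_left _ _) h (min_le_left _ _)) (le_max_right _ _) (min_le_right _ _)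
    refine ⟨Γ', h1, h2, fun a' b' g' s1 s2 z z1 z2 z3 z4 => ?_⟩
    rcases gap_cases hI g g' with h | h | ⟨rfl, rfl⟩
    · have := pr_le l h (hI.ch _ g'.hb _ g.ha h); linarith
    · have := pr_le l h (hI.ch _ g.hb _ g'.ha h); linarith
    · exact h3 z (max_le z1 z3.le) (le_min z2 z4.le)
  · refine ⟨Γ, Subset.rfl, hI, fun a b g s1 s2 z z1 z2 z3 z4 => (h ⟨a, b, g, s1, s2, ?_⟩).elim⟩
    exact (max_le z1 z3.le).trans (le_min z2 z4.le)

lemma step2 (hm : Monotone w) (hl : ∀ a b, a ≤ b → w b - w a ≤ b - a) (hH : Dense H)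
    (hI : Inv w H Γ) (l : Bool) {p q : ℝ}
    (he : ∀ p' q', p ≤ p' → p' ≤ q' → q' ≤ q → w q' - w p' = q' - p') :
    ∃ Γ', Γ ⊆ Γ' ∧ Inv w H Γ' ∧ ∀ z, p < z → z < q → ∃ c ∈ Γ', pr l c = z := by
  obtain ⟨Γ1, s1, I1, c1⟩ := step1 hm hl hH hI l he p
  obtain ⟨Γ2, s2, I2, c2⟩ := step1 hm hl hH I1 l he q
  refine ⟨Γ2, s1.trans s2, I2, fun z z1 z2 => ?_⟩
  rcases I1.cov l z with ⟨c, hc, h⟩ | ⟨a, b, g, u1, u2⟩
  · exact ⟨c, s2 hc, h⟩
  by_cases hb : q < pr l b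
  · exact c2 a b g (by linarith) hb z z1.le z2.le u1 u2
  by_cases ha : pr l a < p
  · rcases hI.cov l z with ⟨c, hc, h⟩ | ⟨a0, b0, g0, v1, v2⟩
    · exact ⟨c, s2 (s1 hc), h⟩
    have : pr l a0 ≤ pr l a := by
      rcases g.out a0 (s1 g0.ha) with h | h
      · exact pr_le l h (I1.ch _ (s1 g0.ha) _ g.ha h)
      · have := pr_le l h (I1.ch _ g.hb _ (s1 g0.ha) h); linarith
    obtain ⟨c, hc, h⟩ := c1 a0 b0 g0 (by linarith) (by linarith) z z1.le z2.le v1 v2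
    exact ⟨c, s2 hc, h⟩
  exfalso
  push Not at ha hb
  have e := he _ _ ha (u1.trans u2).le hb
  have gE := g.hE
  have g1 := g.h1
  have g2 := g.h2
  have m1 := hm g1.le
  have m2 := hm (show a.1 + a.2 ≤ b.1 + b.2 by linarith)
  cases l <;> simp [pr, En] at e gE <;> linarith

theorem not_plastic (G : AddSubgroup ℝ) (hd : Dense (G : Set ℝ)) (h0 : volume (G : Set ℝ) = 0) :
    ∃ f : G → G, Function.Bijective f ∧ (∀ x y, dist (f x) (f y) ≤ dist x y) ∧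
      ∃ x y, dist (f x) (f y) ≠ dist x y := by
  obtain ⟨W, hGW, hW, hμ⟩ := Set.exists_isOpen_lt_of_lt (μ := volume) (G : Set ℝ)
    (ENNReal.ofReal (1 / 2)) (by rw [h0]; simp)
  have hfin : volume W ≠ ⊤ := hμ.ne_top
  let w : ℝ → ℝ := fun s => volume.real (W ∩ Iic s)
  have hf : ∀ s : Set ℝ, volume (W ∩ s) ≠ ⊤ := fun s =>
    ne_top_of_le_ne_top hfin (measure_mono inter_subset_left)
  have hdiff : ∀ a b, a ≤ b → w b - w a = volume.real (W ∩ Ioc a b) := by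
    intro a b h
    have : W ∩ Iic b = W ∩ Iic a ∪ W ∩ Ioc a b := by rw [← inter_union_distrib_left, Iic_union_Ioc_eq_Iic h]
    simp only [w]
    rw [this, measureReal_union ((Iic_disjoint_Ioc le_rfl).mono inter_subset_right inter_subset_right)
      (hW.measurableSet.inter measurableSet_Ioc) (hf _) (hf _)]
    ring
  have hm : Monotone w := fun a b h => by
    have := hdiff a b h
    have := measureReal_nonneg (μ := volume) (s := W ∩ Ioc a b)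
    linarith
  have hl : ∀ a b, a ≤ b → w b - w a ≤ b - a := fun a b h => by
    rw [hdiff a b h, ← Real.volume_real_Ioc_of_le h]
    exact measureReal_mono inter_subset_right (by simp)
  have hb : ∀ a b, a ≤ b → w b - w a < 1 / 2 := fun a b h => by
    rw [hdiff a b h]
    refine (measureReal_mono inter_subset_left hfin).trans_lt ?_
    exact ENNReal.toReal_lt_of_lt_ofReal hμ
  obtain ⟨h, hG, h1, -⟩ := hd.exists_between (zero_lt_one' ℝ)
  let Γ0 : Set (ℝ × ℝ) := {c | (c.1 ≤ 0 ∧ c.2 = 0) ∨ (1 ≤ c.1 ∧ c.2 = h)}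
  have I0 : Inv w G Γ0 := by
    refine ⟨?_, ?_, fun l z => ?_⟩
    · rintro c (⟨c1, c2⟩ | ⟨c1, c2⟩) d (⟨d1, d2⟩ | ⟨d1, d2⟩) hcd <;> linarith
    · rintro c (⟨-, c2⟩ | ⟨-, c2⟩) <;> rw [c2]
      exacts [G.zero_mem, hG]
    by_cases u : z ≤ 0
    · exact Or.inl ⟨(z, 0), Or.inl ⟨u, rfl⟩, by simp [pr]⟩
    by_cases v : pr l (1, h) ≤ z
    · refine Or.inl ⟨(z - if l then h else 0, h), Or.inr ⟨?_, rfl⟩, by simp [pr]⟩
      simp only [pr] at v ⊢; linarith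
    refine Or.inr ⟨(0, 0), (1, h), ⟨Or.inl ⟨le_rfl, rfl⟩, Or.inr ⟨le_rfl, rfl⟩, one_pos, h1, ?_,
      fun c hc => hc.imp And.left And.left⟩, by simpa [pr] using u, not_le.1 v⟩
    have := hb 0 1 zero_le_one
    have := hb 0 (1 + h) (by linarith)
    simp only [En, add_zero]; linarith
  have st : ∀ (T : Bool × ℚ × ℚ) (Γ : {Γ // Inv w G Γ}), ∃ Γ' : {Γ // Inv w G Γ}, Γ.1 ⊆ Γ'.1 ∧
      (Icc (T.2.1 : ℝ) T.2.2 ⊆ W → ∀ z : ℝ, T.2.1 < z → z < T.2.2 → ∃ c ∈ Γ'.1, pr T.1 c = z) := by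
    intro T Γ
    by_cases hT : Icc (T.2.1 : ℝ) T.2.2 ⊆ W
    · obtain ⟨Γ', a, b, c⟩ := step2 hm hl hd Γ.2 T.1 (p := T.2.1) (q := T.2.2)
        fun p' q' e1 e2 e3 => by
          rw [hdiff _ _ e2, inter_eq_right.2 ((Ioc_subset_Icc_self.trans
            (Icc_subset_Icc e1 e3)).trans hT), Real.volume_real_Ioc_of_le e2]
      exact ⟨⟨Γ', b⟩, a, fun _ => c⟩
    · exact ⟨Γ, Subset.rfl, fun h => absurd h hT⟩
  choose nx hnx using st
  obtain ⟨e, he⟩ := exists_surjective_nat (Bool × ℚ × ℚ)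
  let S : ℕ → {Γ // Inv w G Γ} := fun n => Nat.rec ⟨Γ0, I0⟩ (fun n => nx (e n)) n
  have hS : Monotone fun n => (S n).1 := monotone_nat_of_le_succ fun n => (hnx (e n) (S n)).1
  have ch : ∀ c ∈ ⋃ n, (S n).1, ∀ d ∈ ⋃ n, (S n).1, c.1 ≤ d.1 → c.2 ≤ d.2 := by
    intro c hc d hd
    obtain ⟨n, hn⟩ := mem_iUnion.1 hc
    obtain ⟨m, hm⟩ := mem_iUnion.1 hd
    exact (S (max n m)).2.ch c (hS (le_max_left _ _) hn) d (hS (le_max_right _ _) hm)
  have mem : ∀ c ∈ ⋃ n, (S n).1, c.2 ∈ G := fun c hc => by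
    obtain ⟨n, hn⟩ := mem_iUnion.1 hc
    exact (S n).2.mem c hn
  have cov : ∀ l, ∀ z : G, ∃ c ∈ ⋃ n, (S n).1, pr l c = z := by
    intro l z
    obtain ⟨a, b, ⟨h1, h2⟩, h3⟩ := mem_nhds_iff_exists_Ioo_subset.1 (hW.mem_nhds (hGW z.2))
    obtain ⟨p, p1, p2⟩ := exists_rat_btwn h1
    obtain ⟨q, q1, q2⟩ := exists_rat_btwn h2
    obtain ⟨n, hn⟩ := he (l, p, q)
    have := (hnx (e n) (S n)).2
    rw [hn] at this
    obtain ⟨c, hc, h⟩ := this ((Icc_subset_Ioo p1 q2).trans h3) z p2 q1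
    exact ⟨c, mem_iUnion.2 ⟨n + 1, by rw [← hn] at hc; exact hc⟩, h⟩
  choose c hc hcz using cov true
  simp only [pr, if_true] at hcz
  let f : G → G := fun x => ⟨(c x).1, by
    have := G.sub_mem x.2 (mem _ (hc x))
    rwa [← hcz x, add_sub_cancel_right] at this⟩
  have key : ∀ (x : G), ∀ d ∈ ⋃ n, (S n).1, d.1 + d.2 = x → (f x : ℝ) = d.1 := by
    intro x d hd e
    have := hcz x
    rcases le_total (c x).1 d.1 with u | u
    · have := ch _ (hc x) _ hd u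
      show (c x).1 = _; linarith
    · have := ch _ hd _ (hc x) u
      show (c x).1 = _; linarith
  have ne1 : ∀ x y : G, (c x).1 ≤ (c y).1 → (c y).1 - (c x).1 ≤ y - x := fun x y u => by
    have := ch _ (hc x) _ (hc y) u
    linarith [hcz x, hcz y]
  refine ⟨f, ⟨fun x y hxy => ?_, fun y => ?_⟩, fun x y => ?_, ?_⟩
  · have e : (c x).1 = (c y).1 := congrArg Subtype.val hxy
    have := ne1 x y e.le
    have := ne1 y x e.ge
    exact Subtype.ext (by linarith)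
  · obtain ⟨d, hd, e⟩ := cov false y
    simp only [pr, Bool.false_eq_true, if_false, add_zero] at e
    exact ⟨⟨d.1 + d.2, G.add_mem (e ▸ y.2) (mem d hd)⟩, Subtype.ext ((key _ d hd rfl).trans e)⟩
  · show |(c x).1 - (c y).1| ≤ |(x : ℝ) - y|
    rcases le_total (c x).1 (c y).1 with u | u
    · have := ne1 x y u
      rw [abs_sub_comm, abs_sub_comm (x : ℝ), abs_of_nonneg (sub_nonneg.2 u)]
      exact this.trans (le_abs_self _)
    · have := ne1 y x u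
      rw [abs_of_nonneg (sub_nonneg.2 u)]
      exact this.trans (le_abs_self _)
  · obtain ⟨y, hy, y1, -⟩ := hd.exists_between (one_lt_two (α := ℝ))
    refine ⟨0, ⟨y + h, G.add_mem hy hG⟩, ?_⟩
    have e1 := key 0 (0, 0) (mem_iUnion.2 ⟨0, Or.inl ⟨le_rfl, rfl⟩⟩) (by simp)
    have e2 := key ⟨y + h, G.add_mem hy hG⟩ (y, h) (mem_iUnion.2 ⟨0, Or.inr ⟨y1.le, rfl⟩⟩) rfl
    rw [Subtype.dist_eq, Subtype.dist_eq, e1, e2]
    simp only [ZeroMemClass.coe_zero, dist_zero_left, Real.norm_eq_abs]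
    rw [abs_of_pos (by linarith), abs_of_pos (by linarith)]
    linarith

end Pool.Agent.Lib.helper11.NullPlastic
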