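import Mathlib
import Pool.Agent.Lib.helper11.NullPlastic

open Set Filter Topology MeasureTheory

namespace Pool.Agent.Lib.helper11.NullPlastic

lemma top_of_compact (G : AddSubgroup ℝ) {K : Set ℝ} (hK : IsCompact K) (hKG : K ⊆ G)
    (h : volume K ≠ 0) : ∀ x, x ∈ G := by
  have h1 := Measure.sub_mem_nhds_zero_of_addHaar_pos volume K hK.measurableSet (pos_iff_ne_zero.2 h)
  have h2 : (G : Set ℝ) ∈ 𝓝 (0 : ℝ) := mem_of_superset h1 (by
    rintro _ ⟨a, ha, b, hb, rfl⟩; exact G.sub_mem (hKG ha) (hKG hb))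
  have h3 := G.isOpen_of_mem_nhds h2
  have h4 : IsClopen (G : Set ℝ) := ⟨G.isClosed_of_isOpen h3, h3⟩
  have := h4.eq_univ ⟨0, G.zero_mem⟩
  intro x
  have : x ∈ (G : Set ℝ) := this ▸ mem_univ x
  exact this

lemma choquet {f : (ℕ → ℕ) → ℝ} (hf : Continuous f) (h : volume (range f) ≠ 0) :
    ∃ K ⊆ range f, IsCompact K ∧ volume K ≠ 0 := by
  obtain ⟨R, hR⟩ : ∃ R : ℕ, volume (range f ∩ Icc (-R : ℝ) R) ≠ 0 := by
    by_contra hn
    push Not at hn
    apply h
    refine measure_mono_null (fun y hy => ?_) (measure_iUnion_null hn)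
    obtain ⟨R, hR⟩ := exists_nat_ge |y|
    exact mem_iUnion.2 ⟨R, hy, abs_le.1 hR⟩
  set ν := volume.restrict (Icc (-R : ℝ) R) with hν
  have hν' : ∀ s, ν s = volume (s ∩ Icc (-R : ℝ) R) := fun s => Measure.restrict_apply' measurableSet_Icc
  obtain ⟨c, c0, c1⟩ := exists_between (pos_iff_ne_zero.2 hR)
  have st : ∀ (n : ℕ) (T : {T : Set (ℕ → ℕ) // c < ν (f '' T)}), ∃ m,
      c < ν (f '' (T.1 ∩ {x | x n ≤ m})) := by
    intro n T
    have e : f '' T.1 = ⋃ m : ℕ, f '' (T.1 ∩ {x | x n ≤ m}) := by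
      rw [← image_iUnion, ← inter_iUnion]
      congr 1
      exact (inter_eq_left.2 fun x _ => mem_iUnion.2 ⟨x n, Nat.le_refl (x n)⟩).symm
    have := T.2
    have mo : Monotone fun m : ℕ => f '' (T.1 ∩ {x | x n ≤ m}) := fun a b hab =>
      image_mono (inter_subset_inter_right _ fun x hx => Nat.le_trans hx hab)
    rw [e, mo.measure_iUnion] at this
    exact lt_iSup_iff.1 this
  choose m hm using st
  let T : ℕ → {T : Set (ℕ → ℕ) // c < ν (f '' T)} := fun n =>
    Nat.rec ⟨univ, by rw [image_univ, hν']; exact c1⟩ (fun n T => ⟨_, hm n T⟩) n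
  let b : ℕ → ℕ := fun n => m n (T n)
  let S : ℕ → Set (ℕ → ℕ) := fun n => {x | ∀ i < n, x i ≤ b i}
  have hTS : ∀ n, (T n).1 ⊆ S n := by
    intro n
    induction n with
    | zero => intro x _ i hi; omega
    | succ n ih =>
      rintro x ⟨h1, h2⟩ i hi
      rcases Nat.lt_succ_iff_lt_or_eq.1 hi with h | rfl
      exacts [ih h1 i h, h2]
  have hC : IsCompact (Set.pi univ fun i => Iic (b i)) :=
    isCompact_univ_pi fun i => (finite_Iic _).isCompact
  refine ⟨f '' Set.pi univ fun i => Iic (b i), image_subset_range _ _, hC.image hf, fun h0 => ?_⟩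
  have hsub : ⋂ n, closure (f '' S n) ⊆ f '' Set.pi univ fun i => Iic (b i) := by
    intro y hy
    have : ∀ n : ℕ, ∃ x ∈ S n, dist y (f x) < 1 / ((n : ℝ) + 1) := fun n => by
      obtain ⟨_, ⟨x, hx, rfl⟩, h⟩ := Metric.mem_closure_iff.1 (mem_iInter.1 hy n) _
        Nat.one_div_pos_of_nat
      exact ⟨x, hx, h⟩
    choose x hx hxy using this
    obtain ⟨a, ha, φ, hφ, hl⟩ := hC.tendsto_subseq (x := fun n i => min (x n i) (b i))
      fun n i _ => Nat.min_le_right (x n i) (b i)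
    have hl2 : Tendsto (fun n => x (φ n)) atTop (𝓝 a) := by
      refine tendsto_pi_nhds.2 fun i => ((tendsto_pi_nhds.1 hl) i).congr' ?_
      filter_upwards [eventually_gt_atTop i] with n hn
      exact min_eq_left (hx _ i (hn.trans_le hφ.le_apply))
    have hl3 : Tendsto (fun n => f (x n)) atTop (𝓝 y) := by
      refine tendsto_iff_dist_tendsto_zero.2 (squeeze_zero (fun _ => dist_nonneg)
        (fun n => ?_) tendsto_one_div_add_atTop_nhds_zero_nat)
      rw [dist_comm]; exact (hxy n).le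
    exact ⟨a, ha, tendsto_nhds_unique ((hf.tendsto a).comp hl2) (hl3.comp hφ.tendsto_atTop)⟩
  have h1 : ν (⋂ n, closure (f '' S n)) = 0 := by
    rw [hν']; exact measure_mono_null (inter_subset_left.trans hsub) h0
  have an : Antitone fun n => closure (f '' S n) := fun a b hab =>
    closure_mono (image_mono fun x hx i hi => hx i (hi.trans_le hab))
  rw [an.measure_iInter (fun n => isClosed_closure.measurableSet.nullMeasurableSet)
    ⟨0, measure_ne_top _ _⟩] at h1
  have : c ≤ ⨅ n, ν (closure (f '' S n)) := le_iInf fun n =>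
    (T n).2.le.trans (measure_mono ((image_mono (hTS n)).trans subset_closure))
  rw [h1] at this
  exact absurd c0 (not_lt.2 this)

lemma not_plastic_top (G : AddSubgroup ℝ) (h : ∀ x, x ∈ G) :
    ∃ f : G → G, Function.Bijective f ∧ (∀ x y, dist (f x) (f y) ≤ dist x y) ∧
      ∃ x y, dist (f x) (f y) ≠ dist x y := by
  have hd : ∀ x y : ℝ, dist (x / 2) (y / 2) = dist x y / 2 := fun x y => by
    rw [Real.dist_eq, Real.dist_eq, ← sub_div, abs_div, abs_two]
  refine ⟨fun x => ⟨x / 2, h _⟩, ⟨fun x y e => Subtype.ext ?_, fun y => ⟨⟨2 * y, h _⟩,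
    Subtype.ext (by simp)⟩⟩, fun x y => ?_, ⟨0, h _⟩, ⟨1, h _⟩, ?_⟩
  · have : (x : ℝ) / 2 = y / 2 := congrArg Subtype.val e
    linarith
  · rw [Subtype.dist_eq, Subtype.dist_eq, hd]
    linarith [dist_nonneg (x := (x : ℝ)) (y := y)]
  · rw [Subtype.dist_eq, Subtype.dist_eq, hd]
    norm_num

theorem not_plastic_analytic (G : AddSubgroup ℝ) (hd : Dense (G : Set ℝ))
    (ha : AnalyticSet (G : Set ℝ)) :
    ∃ f : G → G, Function.Bijective f ∧ (∀ x y, dist (f x) (f y) ≤ dist x y) ∧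
      ∃ x y, dist (f x) (f y) ≠ dist x y := by
  by_cases h0 : volume (G : Set ℝ) = 0
  · exact not_plastic G hd h0
  rw [AnalyticSet] at ha
  rcases ha with ha | ⟨f, hf, e⟩
  · exact absurd (by rw [ha]; simp) h0
  rw [← e] at h0
  obtain ⟨K, h1, h2, h3⟩ := choquet hf h0
  exact not_plastic_top G (top_of_compact G h2 (e ▸ h1) h3)

theorem not_plastic_sigma (G : AddSubgroup ℝ) (hd : Dense (G : Set ℝ))
    (ha : IsSigmaCompact (G : Set ℝ)) :
    ∃ f : G → G, Function.Bijective f ∧ (∀ x y, dist (f x) (f y) ≤ dist x y) ∧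
      ∃ x y, dist (f x) (f y) ≠ dist x y := by
  by_cases h0 : volume (G : Set ℝ) = 0
  · exact not_plastic G hd h0
  obtain ⟨K, hK, e⟩ := ha
  have : ∃ n, volume (K n) ≠ 0 := by
    by_contra hn
    push Not at hn
    exact h0 (e ▸ measure_iUnion_null hn)
  obtain ⟨n, hn⟩ := this
  exact not_plastic_top G (top_of_compact G (hK n) (e ▸ subset_iUnion K n) hn)

end Pool.Agent.Lib.helper11.NullPlastic
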