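import Mathlib

namespace Pool.Agent.Lib.helper11.OrthAdd

open Set Filter Topology Classical

noncomputable def μ (j : ℕ) (C : Set ℕ) : ℝ :=
  (((Finset.range (j + 1)).filter (· ∈ C)).card : ℝ) / (j + 1)

lemma μ_nonneg (j C) : 0 ≤ μ j C := by unfold μ; positivity

lemma μ_le (j C) : μ j C ≤ 1 := by
  unfold μ
  rw [div_le_one (by positivity)]
  exact_mod_cast (Finset.card_filter_le _ _).trans_eq (Finset.card_range _)

lemma μ_add (j) {A B : Set ℕ} (h : Disjoint A B) : μ j (A ∪ B) = μ j A + μ j B := by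
  unfold μ
  rw [← add_div, ← Nat.cast_add, ← Finset.card_union_of_disjoint, ← Finset.filter_or]
  · congr!
  · exact Finset.disjoint_filter.2 fun x _ a b => Set.disjoint_left.1 h a b

lemma exν : ∃ ν : Set ℕ → ℝ, ∀ C, Tendsto (fun j => μ j C) (hyperfilter ℕ) (𝓝 (ν C)) := by
  have : ∀ C, ∃ L, Tendsto (fun j => μ j C) (hyperfilter ℕ) (𝓝 L) := fun C => by
    obtain ⟨L, -, h⟩ := (isCompact_Icc (a := (0 : ℝ)) (b := 1)).ultrafilter_le_nhds
      ((hyperfilter ℕ).map fun j => μ j C)
      (le_principal_iff.2 (mem_map.2 (univ_mem' fun j => ⟨μ_nonneg j C, μ_le j C⟩)))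
    exact ⟨L, h⟩
  exact ⟨_, fun C => (this C).choose_spec⟩

def Tr := List (ℕ × ℕ)

instance : TopologicalSpace Tr where
  IsOpen U := ∀ t ∈ U, ∀ i, ∀ᶠ j in hyperfilter ℕ, (i, j) :: t ∈ U
  isOpen_univ _ _ _ := Eventually.of_forall fun _ => trivial
  isOpen_inter _ _ h g t ht i := (h t ht.1 i).and (g t ht.2 i)
  isOpen_sUnion _ h t := fun ⟨U, hU, ht⟩ i => (h U hU t ht i).mono fun _ x => ⟨U, hU, x⟩

lemma cont {f : Tr → ℝ} : Continuous f ↔
    ∀ (t : List (ℕ × ℕ)) i, Tendsto (fun j => f ((i, j) :: t)) (hyperfilter ℕ) (𝓝 (f t)) :=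
  ⟨fun h t i => tendsto_nhds.2 fun _ hs ht => (hs.preimage h) t ht i,
    fun h => continuous_def.2 fun _ hs t ht i => h t i (hs.mem_nhds ht)⟩

def A (n i : ℕ) : Set ℕ := {m | m % 2 ^ (n + 2) = i}

def B : List (ℕ × ℕ) → Set ℕ
  | [] => univ
  | q :: t => B t \ A t.length q.1

noncomputable def σ : List (ℕ × ℕ) → Set ℕ → ℝ
  | [], _ => 0
  | q :: t, C => σ t C + μ q.2 (C ∩ A t.length q.1 ∩ B t)

lemma σ_nonneg (t C) : 0 ≤ σ t C := by
  induction t with
  | nil => exact le_rfl
  | cons q t ih => exact add_nonneg ih (μ_nonneg _ _)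

lemma σ_add (t) {C D : Set ℕ} (h : Disjoint C D) : σ t (C ∪ D) = σ t C + σ t D := by
  induction t with
  | nil => simp [σ]
  | cons q t ih =>
    simp only [σ, ih, union_inter_distrib_right]
    rw [μ_add _ (h.mono (fun _ c => c.1.1) (fun _ c => c.1.1))]; ring

lemma σ_zero (t) : ∃ N, ∀ C, Disjoint C (Iio N) → σ t C = 0 := by
  induction t with
  | nil => exact ⟨0, fun _ _ => rfl⟩
  | cons q t ih =>
    obtain ⟨N, hN⟩ := ih
    refine ⟨max N (q.2 + 1), fun C h => ?_⟩
    rw [σ, hN C (h.mono_right (Iio_subset_Iio (le_max_left _ _))), μ, zero_add, div_eq_zero_iff,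
      Nat.cast_eq_zero, Finset.card_eq_zero, Finset.eq_empty_iff_forall_notMem]
    simp only [Finset.mem_filter, Finset.mem_range]
    exact Or.inl fun x c => Set.disjoint_left.1 h c.2.1.1 (lt_max_of_lt_right c.1)

theorem core : ∃ S R : Set ℕ → C(Tr, ℝ),
    (∀ C D, Disjoint C D → S (C ∪ D) = S C + S D) ∧ (∀ C D, Disjoint C D → R (C ∪ D) = R C + R D) ∧
    (∀ C, S C ≤ R C) ∧ (∀ C, 0 ≤ R C) ∧ (∃ w, (∀ C, S C ≤ w) ∧ ¬ R univ ≤ w) ∧
    ∀ (Y : Set ℕ) (p : Set ℕ → C(Tr, ℝ)), (∀ C D, Disjoint C D → p C + p D ≤ p (C ∪ D)) →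
      (∀ C D, C ⊆ D → S (Y ∩ C) ≤ p D) → R Y ≤ p univ := by
  obtain ⟨ν, hν⟩ := exν
  have n0 : ∀ C, 0 ≤ ν C := fun C => ge_of_tendsto' (hν C) fun j => μ_nonneg j C
  have ad : ∀ {C D}, Disjoint C D → ν (C ∪ D) = ν C + ν D := fun h =>
    tendsto_nhds_unique (hν _) (((hν _).add (hν _)).congr fun j => (μ_add j h).symm)
  have mono : ∀ {C D}, C ⊆ D → ν C ≤ ν D := fun {C D} h => by
    rw [← union_diff_cancel h, ad disjoint_sdiff_right]; linarith [n0 (D \ C)]
  have sub : ∀ C D, ν (C ∪ D) ≤ ν C + ν D := fun C D => by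
    rw [← union_diff_self, ad disjoint_sdiff_right]; linarith [mono (diff_subset : D \ C ⊆ D)]
  have bd : ∀ (C : Set ℕ) (a b : ℝ),
      (∀ n, (((Finset.range n).filter (· ∈ C)).card : ℝ) ≤ a * n + b) → ν C ≤ a := by
    intro C a b h
    have := ((tendsto_one_div_add_atTop_nhds_zero_nat (𝕜 := ℝ)).const_mul b).const_add a
    rw [mul_zero, add_zero] at this
    refine le_of_tendsto_of_tendsto' (hν C) (this.mono_left Nat.hyperfilter_le_atTop) fun j => ?_
    rw [μ, div_le_iff₀ (by positivity)]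
    refine (h (j + 1)).trans_eq ?_
    push_cast; field_simp
  have nI : ∀ N, ν (Iio N) ≤ 0 := fun N => bd _ 0 N fun n => by
    have := Finset.card_le_card (show (Finset.range n).filter (· ∈ Iio N) ⊆ Finset.range N by
      intro x; simp)
    simpa using this
  have nA : ∀ n i, ν (A n i) ≤ 1 / 2 ^ (n + 2) := fun n i => bd _ _ 1 fun m => by
    have := Finset.card_le_card_of_injOn (s := (Finset.range m).filter (· ∈ A n i))
      (t := Finset.range (m / 2 ^ (n + 2) + 1)) (· / 2 ^ (n + 2)) (fun x hx => by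
        simp only [Finset.coe_filter, Finset.mem_range, Finset.coe_range, mem_Iio] at *
        exact Nat.lt_succ_of_le (Nat.div_le_div_right hx.1.le)) fun x hx y hy e => by
        simp only [Finset.coe_filter, A, mem_setOf_eq] at hx hy e
        rw [← Nat.div_add_mod x (2 ^ (n + 2)), e, hx.2, ← hy.2, Nat.div_add_mod]
    rw [Finset.card_range] at this
    have h2 : ((m / 2 ^ (n + 2) : ℕ) : ℝ) ≤ m / (2 ^ (n + 2) : ℕ) := Nat.cast_div_le
    have h3 := (Nat.cast_le (α := ℝ)).2 this
    push_cast at h2 h3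
    rw [one_div_mul_eq_div]; linarith
  have nB : ∀ t, ν (B t)ᶜ ≤ 1 / 2 - 1 / 2 ^ (t.length + 1) := fun t => by
    induction t with
    | nil => simpa [B] using nI 0
    | cons q t ih =>
      rw [B, diff_eq, compl_inter, compl_compl]
      have := nA t.length q.1
      have e : (1 : ℝ) / 2 ^ (t.length + 1) = 2 * (1 / 2 ^ (t.length + 2)) := by field_simp; ring
      rw [List.length_cons]
      linarith [sub (B t)ᶜ (A t.length q.1)]
  have hc : ∀ C, Continuous fun t : Tr => ν (C \ B t) - σ t C := fun C => cont.2 fun t i => by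
    have e : ν (C \ (B t \ A t.length i)) = ν (C \ B t) + ν (C ∩ A t.length i ∩ B t) := by
      rw [← ad (Set.disjoint_left.2 fun _ a b => a.2 b.2)]
      congr 1; ext x; simp only [mem_diff, mem_union, mem_inter_iff]; tauto
    simp only [B, σ, e]
    have := (((hν (C ∩ A t.length i ∩ B t)).const_add (σ t C)).const_sub
      (ν (C \ B t) + ν (C ∩ A t.length i ∩ B t)))
    rwa [add_sub_add_right_eq_sub] at this
  refine ⟨fun C => ⟨_, hc C⟩, fun C => .const _ (ν C), fun C D h => ?_, fun C D h => ?_,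
    fun C t => ?_, fun C _ => n0 C, ⟨.const _ (1 / 2), fun C t => ?_, fun h => ?_⟩,
    fun Y p h1 h2 t => ?_⟩
  · ext t
    simp only [ContinuousMap.coe_mk, ContinuousMap.add_apply, union_diff_distrib, σ_add t h,
      ad (h.mono diff_subset diff_subset)]
    ring
  · ext t; simp [ad h]
  · exact (sub_le_self _ (σ_nonneg t C)).trans (mono diff_subset)
  · exact (sub_le_self _ (σ_nonneg t C)).trans ((mono (diff_subset_compl _ _)).trans
      ((nB t).trans (sub_le_self _ (by positivity))))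
  · have : ν univ ≤ 1 / 2 := h []
    have : 1 ≤ ν univ := ge_of_tendsto' (hν _) fun j => by
      rw [μ, le_div_iff₀ (by positivity)]; simp
    linarith
  · have one : ∀ i, ν (Y ∩ A (List.length t) i) ≤ p (A (List.length t) i) t := fun i => by
      refine ge_of_tendsto' (cont.1 (p _).continuous t i) fun j => ?_
      obtain ⟨N, hN⟩ := σ_zero ((i, j) :: t)
      refine le_trans ?_ (h2 (A (List.length t) i \ Iio N) _ diff_subset ((i, j) :: t))
      show _ ≤ ν (_ \ (B t \ _)) - σ _ _
      rw [hN _ (disjoint_sdiff_left.mono_left inter_subset_right), sub_zero]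
      refine (mono ?_).trans ((sub _ (Iio N)).trans (add_le_of_nonpos_right (nI N)))
      intro x; simp only [mem_diff, mem_union, mem_inter_iff]; tauto
    have all : ∀ m, ν (Y ∩ {x | x % 2 ^ (List.length t + 2) < m}) ≤
        p {x | x % 2 ^ (List.length t + 2) < m} t := fun m => by
      induction m with
      | zero =>
        obtain ⟨N, hN⟩ := σ_zero t
        have := h2 ∅ ∅ subset_rfl t
        simp only [ContinuousMap.coe_mk, inter_empty, empty_diff, hN ∅ (by simp), sub_zero] at this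
        simpa using this
      | succ m ih =>
        have e : {x | x % 2 ^ (List.length t + 2) < m + 1} =
          {x | x % 2 ^ (List.length t + 2) < m} ∪ A (List.length t) m := by
          ext x; simp only [A, mem_union, mem_setOf_eq]; omega
        rw [e, inter_union_distrib_left]
        refine (sub _ _).trans ((add_le_add ih (one m)).trans (h1 _ _ ?_ t))
        exact Set.disjoint_left.2 fun x a b => (ne_of_lt a) b
    have := all (2 ^ (List.length t + 2))
    rwa [show {x | x % 2 ^ (List.length t + 2) < 2 ^ (List.length t + 2)} = univ from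
      eq_univ_of_forall fun x => Nat.mod_lt x (by positivity), inter_univ] at this

lemma disj {x y : ℕ → ℝ} : |x| ⊓ |y| = 0 ↔ Disjoint x.support y.support := by
  rw [funext_iff, Set.disjoint_left]
  refine forall_congr' fun n => ?_
  simp only [Pi.inf_apply, Pi.abs_apply, Pi.zero_apply, Function.mem_support, not_not]
  rcases eq_or_ne (x n) 0 with a | a
  · simp [a]
  · rcases eq_or_ne (y n) 0 with b | b
    · simp [b]
    · simpa [a, b] using (lt_min (abs_pos.2 a) (abs_pos.2 b)).ne'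

lemma supp {x y : ℕ → ℝ} (h : |x| ⊓ |y| = 0) : (x + y).support = x.support ∪ y.support := by
  have := Set.disjoint_left.1 (disj.1 h)
  ext n
  have := @this n
  simp only [Function.mem_support, Pi.add_apply, mem_union, not_not] at *
  rcases eq_or_ne (x n) 0 with a | a
  · simp [a]
  · simp [a, this a]

lemma ind (x : ℕ → ℝ) {C D : Set ℕ} (h : Disjoint C D) :
    |C.indicator x| ⊓ |D.indicator x| = 0 :=
  disj.2 (h.mono support_indicator_subset support_indicator_subset)

/-- operator form -/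
theorem core' : ∃ S R : (ℕ → ℝ) → C(Tr, ℝ),
    (∀ x y, |x| ⊓ |y| = 0 → S (x + y) = S x + S y) ∧
    (∀ x y, |x| ⊓ |y| = 0 → R (x + y) = R x + R y) ∧
    S ≤ R ∧ 0 ≤ R ∧ (∃ w, (∀ x, S x ≤ w) ∧ ¬ R 1 ≤ w) ∧
    ∀ P : (ℕ → ℝ) → C(Tr, ℝ), (∀ x y, |x| ⊓ |y| = 0 → P x + P y ≤ P (x + y)) →
      (∀ x y, |x| ⊓ |y| = 0 → S x ≤ P (x + y)) → R ≤ P := by
  obtain ⟨S, R, h1, h2, h3, h4, ⟨w, h5, h6⟩, h7⟩ := core
  refine ⟨fun x => S x.support, fun x => R x.support, 
    fun x y h => by simp only [supp h, h1 _ _ (disj.1 h)],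
    fun x y h => by simp only [supp h, h2 _ _ (disj.1 h)], fun x => h3 _, fun x => h4 _,
    ⟨w, fun x => h5 _, by simpa using h6⟩, fun P a b x => ?_⟩
  have := h7 x.support (fun C => P (C.indicator x)) (fun C D h => by
    rw [indicator_union_of_disjoint h]; exact a _ _ (ind x h)) fun C D h => by
    have := b _ _ (ind x (disjoint_sdiff_right : Disjoint C (D \ C)))
    beta_reduce at this
    rw [support_indicator, inter_comm] at this
    rw [← union_diff_cancel h, indicator_union_of_disjoint disjoint_sdiff_right]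
    exact this
  simpa using this

end Pool.Agent.Lib.helper11.OrthAdd
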