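import Mathlib

namespace Pool.Agent.Lib.helper11.QGraph

open Set Real

/-- a metric graph: edge `e` is the interval `[0, len e]` from `src e` to `tgt e`;
`str v` is the strength of the delta condition at `v`. -/
structure QG (V E : Type) where
  src : E → V
  tgt : E → V
  len : E → ℝ
  str : V → ℝ

variable {V E : Type} [Fintype E] [DecidableEq V]

/-- vertices joined by a path avoiding the edges in `X`. -/
def QG.Joined (G : QG V E) (X : Set E) : V → V → Prop :=
  Relation.EqvGen fun u v => ∃ e, e ∉ X ∧ G.src e = u ∧ G.tgt e = v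

/-- positive lengths and connected. -/
def QG.Good (G : QG V E) : Prop := (∀ e, 0 < G.len e) ∧ ∀ u v, G.Joined ∅ u v

def QG.IsBridge (G : QG V E) (e : E) : Prop := ¬ G.Joined {e} (G.src e) (G.tgt e)

/-- `f` is a real eigenfunction of `-d²/dx²` with eigenvalue `μ`: continuous at the vertices
(values `F`), delta (Kirchhoff when `str = 0`) conditions, not identically zero. -/
def QG.Eig (G : QG V E) (μ : ℝ) (f : E → ℝ → ℝ) : Prop :=
  ∃ (F : V → ℝ) (f' : E → ℝ → ℝ),
    (∀ e, ∀ x ∈ Icc 0 (G.len e), HasDerivWithinAt (f e) (f' e x) (Icc 0 (G.len e)) x ∧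
      HasDerivWithinAt (f' e) (-μ * f e x) (Icc 0 (G.len e)) x) ∧
    (∀ e, f e 0 = F (G.src e) ∧ f e (G.len e) = F (G.tgt e)) ∧
    (∀ v, ∑ e with G.src e = v, f' e 0 - ∑ e with G.tgt e = v, f' e (G.len e) = G.str v * F v) ∧
    ∃ e, ∃ x ∈ Icc 0 (G.len e), f e x ≠ 0

/-- the set of eigenvalues. -/
def QG.Spec (G : QG V E) : Set ℝ := {μ | ∃ f, G.Eig μ f}

/-- `μ` is the second eigenvalue: exactly one eigenvalue (the simple ground state) lies below. -/
def QG.IsSecond (G : QG V E) (μ : ℝ) : Prop := μ ∈ G.Spec ∧ ∃ ν, G.Spec ∩ Iio μ = {ν}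

/-- some eigenfunction for `μ` has its global maximum or minimum at the point `x` of edge `e`. -/
def QG.Hot (G : QG V E) (μ : ℝ) (e : E) (x : ℝ) : Prop :=
  ∃ f, G.Eig μ f ∧ ((∀ e', ∀ y ∈ Icc 0 (G.len e'), f e' y ≤ f e x) ∨
    ∀ e', ∀ y ∈ Icc 0 (G.len e'), f e x ≤ f e' y)

/-- fundamental system. -/
structure Fund (μ : ℝ) (C S : ℝ → ℝ) : Prop where
  c0 : C 0 = 1
  s0 : S 0 = 0
  dc : ∀ x, HasDerivAt C (-μ * S x) x
  ds : ∀ x, HasDerivAt S (C x) x
  w : ∀ x, C x ^ 2 + μ * S x ^ 2 = 1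

lemma const {g : ℝ → ℝ} {L : ℝ} (h : ∀ x ∈ Icc 0 L, HasDerivWithinAt g 0 (Icc 0 L) x) :
    ∀ x ∈ Icc 0 L, g x = g 0 :=
  constant_of_has_deriv_right_zero (fun x hx => (h x hx).continuousWithinAt) fun x hx =>
    (h x (Ico_subset_Icc_self hx)).mono_of_mem_nhdsWithin (Icc_mem_nhdsGE_of_mem hx)

lemma eig_iff (G : QG V E) (hl : ∀ e, 0 ≤ G.len e) {μ : ℝ} {C S : ℝ → ℝ} (h : Fund μ C S)
    (f : E → ℝ → ℝ) :
    G.Eig μ f ↔ ∃ (F : V → ℝ) (d : E → ℝ),
      (∀ e, ∀ x ∈ Icc 0 (G.len e), f e x = F (G.src e) * C x + d e * S x) ∧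
      (∀ e, F (G.tgt e) = F (G.src e) * C (G.len e) + d e * S (G.len e)) ∧
      (∀ v, ∑ e with G.src e = v, d e - ∑ e with G.tgt e = v,
        (d e * C (G.len e) - μ * F (G.src e) * S (G.len e)) = G.str v * F v) ∧
      ∃ e, ∃ x ∈ Icc 0 (G.len e), f e x ≠ 0 := by
  constructor
  · rintro ⟨F, f', h1, h2, h3, h4⟩
    have k : ∀ e, ∀ x ∈ Icc 0 (G.len e), f e x = F (G.src e) * C x + f' e 0 * S x ∧
        f' e x = f' e 0 * C x - μ * F (G.src e) * S x := fun e x hx => by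
      have a := const (g := fun x => f e x * C x - f' e x * S x) (fun y hy =>
        (((h1 e y hy).1.mul (h.dc y).hasDerivWithinAt).sub
          ((h1 e y hy).2.mul (h.ds y).hasDerivWithinAt)).congr_deriv (by ring)) x hx
      have b := const (g := fun x => μ * (f e x * S x) + f' e x * C x) (fun y hy =>
        ((((h1 e y hy).1.mul (h.ds y).hasDerivWithinAt).const_mul μ).add
          ((h1 e y hy).2.mul (h.dc y).hasDerivWithinAt)).congr_deriv (by ring)) x hx
      simp only [h.c0, h.s0, (h2 e).1] at a b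
      exact ⟨by linear_combination C x * a + S x * b - f e x * h.w x,
        by linear_combination C x * b - μ * S x * a - f' e x * h.w x⟩
    refine ⟨F, fun e => f' e 0, fun e x hx => (k e x hx).1,
      fun e => (h2 e).2 ▸ (k e _ ⟨hl e, le_rfl⟩).1, fun v => ?_, h4⟩
    rw [← h3 v]
    congr 1
    exact Finset.sum_congr rfl fun e _ => (k e _ ⟨hl e, le_rfl⟩).2.symm
  · rintro ⟨F, d, h1, h2, h3, h4⟩
    refine ⟨F, fun e x => d e * C x - μ * F (G.src e) * S x, fun e x hx => ⟨?_, ?_⟩,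
      fun e => ⟨?_, ?_⟩, fun v => ?_, h4⟩
    · exact ((((h.dc x).const_mul _).add ((h.ds x).const_mul _)).hasDerivWithinAt.congr
        (h1 e) (h1 e x hx)).congr_deriv (by ring)
    · exact (((h.dc x).const_mul _).sub ((h.ds x).const_mul _)).hasDerivWithinAt.congr_deriv
        (by rw [h1 e x hx]; ring)
    · rw [h1 e 0 ⟨le_rfl, hl e⟩, h.c0, h.s0]; ring
    · rw [h1 e _ ⟨hl e, le_rfl⟩, h2]
    · simpa [h.c0, h.s0] using h3 v

lemma fund_pos {k : ℝ} (hk : k ≠ 0) :
    Fund (k ^ 2) (fun x => cos (k * x)) fun x => sin (k * x) / k := by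
  refine ⟨by simp, by simp, fun x => ?_, fun x => ?_, fun x => ?_⟩
  · exact (((hasDerivAt_id x).const_mul k).cos).congr_deriv (by simp; field_simp)
  · exact ((((hasDerivAt_id x).const_mul k).sin).div_const k).congr_deriv (by simp; field_simp)
  · field_simp; exact cos_sq_add_sin_sq _

lemma fund_zero : Fund 0 (fun _ => 1) fun x => x :=
  ⟨rfl, rfl, fun x => by simpa using hasDerivAt_const x (1 : ℝ), hasDerivAt_id, by simp⟩

lemma fund_neg {k : ℝ} (hk : k ≠ 0) :
    Fund (-k ^ 2) (fun x => cosh (k * x)) fun x => sinh (k * x) / k := by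
  refine ⟨by simp, by simp, fun x => ?_, fun x => ?_, fun x => ?_⟩
  · exact (((hasDerivAt_id x).const_mul k).cosh).congr_deriv (by simp; field_simp)
  · exact ((((hasDerivAt_id x).const_mul k).sinh).div_const k).congr_deriv (by simp; field_simp)
  · field_simp; linarith [cosh_sq' (k * x)]

/-- below `π²/4` the fundamental system is positive on `(0,1]`. -/
lemma fund_low {μ : ℝ} (hμ : μ < (π / 2) ^ 2) : ∃ C S, Fund μ C S ∧ 0 < C 1 ∧ 0 < S 1 ∧
    0 < C (1 / 2) ∧ C 1 = 2 * C (1 / 2) ^ 2 - 1 ∧ S 1 = 2 * C (1 / 2) * S (1 / 2) ∧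
    (μ ≠ 0 → C 1 ≠ 1) ∧ (μ ≤ 0 → 1 ≤ C 1) := by
  rcases lt_trichotomy μ 0 with h | rfl | h
  · obtain ⟨k, hk, rfl⟩ : ∃ k, 0 < k ∧ μ = -k ^ 2 :=
      ⟨√(-μ), sqrt_pos.2 (by linarith), by rw [sq_sqrt (by linarith)]; ring⟩
    refine ⟨_, _, fund_neg hk.ne', cosh_pos _, div_pos (sinh_pos_iff.2 (by linarith)) hk,
      cosh_pos _, ?_, ?_, fun _ => (one_lt_cosh.2 (by linarith)).ne', fun _ => one_le_cosh _⟩
    · have := cosh_two_mul (k * (1 / 2))
      rw [show 2 * (k * (1 / 2)) = k * 1 by ring] at this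
      simp only [this, sinh_sq]; ring
    · have := sinh_two_mul (k * (1 / 2))
      rw [show 2 * (k * (1 / 2)) = k * 1 by ring] at this
      simp only [this]; ring
  · exact ⟨_, _, fund_zero, by norm_num, by norm_num, by norm_num, by norm_num, by norm_num,
      by simp, by simp⟩
  · obtain ⟨k, hk, rfl⟩ : ∃ k, 0 < k ∧ μ = k ^ 2 := ⟨√μ, sqrt_pos.2 h, (sq_sqrt h.le).symm⟩
    have h2 : k < π / 2 := lt_of_pow_lt_pow_left₀ 2 (by positivity) hμ
    refine ⟨_, _, fund_pos hk.ne', cos_pos_of_mem_Ioo ⟨by linarith, by linarith⟩,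
      div_pos (sin_pos_of_pos_of_lt_pi (by linarith) (by linarith)) hk,
      cos_pos_of_mem_Ioo ⟨by linarith, by linarith⟩, ?_, ?_, fun _ => ?_, fun h' => by linarith⟩
    · rw [← cos_two_mul]; congr 1; ring
    · have := sin_two_mul (k * (1 / 2))
      rw [show 2 * (k * (1 / 2)) = k * 1 by ring] at this
      simp only [this]; ring
    · exact ((cos_lt_cos_of_nonneg_of_le_pi le_rfl (by linarith) (by linarith)).trans_eq
        cos_zero).ne

end Pool.Agent.Lib.helper11.QGraph
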