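import Mathlib

set_option autoImplicit false
open Matrix
open scoped ComplexOrder MatrixOrder

namespace Pool.Agent.QI

lemma tr_mul_nonneg {m : Type} [Fintype m] [DecidableEq m] {A B : Matrix m m ℂ}
    (hA : A.PosSemidef) (hB : B.PosSemidef) : 0 ≤ (A * B).trace.re := by
  obtain ⟨C, rfl⟩ := CStarAlgebra.nonneg_iff_eq_star_mul_self.mp hB.nonneg
  have h := (hA.mul_mul_conjTranspose_same C).trace_nonneg
  rw [← mul_assoc, Matrix.trace_mul_cycle]
  exact (Complex.nonneg_iff.1 h).1

/-- cast of a rational matrix -/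
def cq {m k : Type} (A : m → k → ℚ) : Matrix m k ℂ := Matrix.of fun i j => ((A i j : ℚ) : ℂ)

lemma psd_of_ldl {m k : Type} [Fintype m] [Fintype k] [DecidableEq k] (A : m → m → ℚ)
    (L : m → k → ℚ) (D : k → ℚ) (hD : ∀ t, 0 ≤ D t)
    (h : ∀ i j, A i j = ∑ t, L i t * D t * L j t) : (cq A).PosSemidef := by
  have e : cq A = cq L * Matrix.diagonal (fun t => ((D t : ℚ) : ℂ)) * (cq L)ᴴ := by
    ext i j
    simp only [cq, Matrix.mul_apply (M := _ * _), Matrix.mul_diagonal, Matrix.conjTranspose_apply,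
      Matrix.of_apply, h]
    push_cast
    simp
  rw [e]
  refine Matrix.PosSemidef.mul_mul_conjTranspose_same (Matrix.PosSemidef.diagonal ?_) _
  intro t
  have : (0 : ℝ) ≤ (D t : ℝ) := by exact_mod_cast hD t
  simpa using Complex.zero_le_real.2 this

lemma tr_le_of_le {m : Type} [Fintype m] [DecidableEq m] {M D Y : Matrix m m ℂ}
    (hM : M.PosSemidef) (hM1 : (1 - M).PosSemidef) (hY : Y.PosSemidef) (hD : (Y - D).PosSemidef) :
    (M * D).trace.re ≤ Y.trace.re := by
  have h1 := tr_mul_nonneg hM hD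
  have h2 := tr_mul_nonneg hM1 hY
  rw [mul_sub, Matrix.trace_sub, Complex.sub_re] at h1
  rw [sub_mul, one_mul, Matrix.trace_sub, Complex.sub_re] at h2
  linarith

end Pool.Agent.QI
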