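import Pool.Agent.Lib.helper11.QGraph

namespace Pool.Agent.Lib.helper11.QGraph

open Set Real

/-- wheel with four unit spokes, unit rim edges and a pendant edge of length `1/2` at the hub. -/
noncomputable def W : QG (Fin 6) (Fin 9) :=
  ⟨![0, 1, 2, 3, 0, 1, 2, 3, 4], ![1, 2, 3, 0, 4, 4, 4, 4, 5],
    ![1, 1, 1, 1, 1, 1, 1, 1, 1 / 2], fun _ => 0⟩

lemma W_len (e : Fin 9) : 0 < W.len e := by fin_cases e <;> simp [W]

lemma W_good : W.Good := by
  refine ⟨W_len, fun u v => ?_⟩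
  have h : ∀ u, W.Joined ∅ u 4 := fun u => by
    fin_cases u
    · exact .rel _ _ ⟨4, by simp, rfl, rfl⟩
    · exact .rel _ _ ⟨5, by simp, rfl, rfl⟩
    · exact .rel _ _ ⟨6, by simp, rfl, rfl⟩
    · exact .rel _ _ ⟨7, by simp, rfl, rfl⟩
    · exact .refl _
    · exact .symm _ _ (.rel _ _ ⟨8, by simp, rfl, rfl⟩)
  exact .trans _ _ _ (h u) (.symm _ _ (h v))

lemma W_bridge : W.IsBridge 8 := fun h => by
  have : ∀ u v, W.Joined {8} u v → (u = 5 ↔ v = 5) := fun u v h => by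
    induction h with
    | rel u v h => obtain ⟨e, he, rfl, rfl⟩ := h; fin_cases e <;> simp_all [W]
    | refl => rfl
    | symm _ _ _ ih => exact ih.symm
    | trans _ _ _ _ _ a b => exact a.trans b
  simpa [W] using this _ _ h

lemma fund_half : Fund ((π / 2) ^ 2) (fun x => cos (π / 2 * x)) fun x => sin (π / 2 * x) / (π / 2) :=
  fund_pos (by positivity)

lemma W_hot (x : ℝ) : W.Hot ((π / 2) ^ 2) 0 x := by
  obtain ⟨a, ha⟩ : ∃ a, a = cos (π / 2 * x) := ⟨_, rfl⟩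
  obtain ⟨b, hb⟩ : ∃ b, b = sin (π / 2 * x) := ⟨_, rfl⟩
  have hab : a ^ 2 + b ^ 2 = 1 := by rw [ha, hb]; exact cos_sq_add_sin_sq _
  refine ⟨fun e y => ![a, b, -a, -b, 0, 0] (W.src e) * cos (π / 2 * y) +
    π / 2 * ![a, b, -a, -b, 0, 0] (W.tgt e) * (sin (π / 2 * y) / (π / 2)),
    (eig_iff W (fun e => (W_len e).le) fund_half _).2 ⟨_, _, fun _ _ _ => rfl, fun e => ?_,
      fun v => ?_, ?_⟩, Or.inl fun e y _ => ?_⟩
  · fin_cases e <;> simp [W] <;> field_simp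
  · fin_cases v <;> simp [W, Finset.sum_filter, Fin.sum_univ_succ] <;> field_simp <;> ring
  · by_cases h : a = 0
    · exact ⟨1, 0, by simp [W], by simp [W]; rintro rfl; simp [h] at hab⟩
    · exact ⟨0, 0, by simp [W], by simpa [W]⟩
  · have h := cos_sq_add_sin_sq (π / 2 * y)
    have e1 : ∀ t u : ℝ, π / 2 * t * (u / (π / 2)) = t * u := fun t u => by field_simp
    simp only [e1, ← ha, ← hb]
    generalize cos (π / 2 * y) = c at h
    generalize sin (π / 2 * y) = s at h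
    fin_cases e <;> simp [W] <;>
      nlinarith [sq_nonneg (a - c), sq_nonneg (a + c), sq_nonneg (b - c), sq_nonneg (b + c),
        sq_nonneg (a - s), sq_nonneg (a + s), sq_nonneg (b - s), sq_nonneg (b + s)]

lemma W_eqs {μ : ℝ} {C S : ℝ → ℝ} (h : Fund μ C S) (h1 : C 1 = 2 * C (1 / 2) ^ 2 - 1)
    (h2 : S 1 = 2 * C (1 / 2) * S (1 / 2)) {F : Fin 6 → ℝ} {d : Fin 9 → ℝ}
    (e1 : ∀ e, F (W.tgt e) = F (W.src e) * C (W.len e) + d e * S (W.len e))
    (e2 : ∀ v, ∑ e with W.src e = v, d e - ∑ e with W.tgt e = v,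
      (d e * C (W.len e) - μ * F (W.src e) * S (W.len e)) = W.str v * F v) :
    F 1 + F 3 + F 4 = 3 * C 1 * F 0 ∧ F 0 + F 2 + F 4 = 3 * C 1 * F 1 ∧
    F 1 + F 3 + F 4 = 3 * C 1 * F 2 ∧ F 0 + F 2 + F 4 = 3 * C 1 * F 3 ∧
    F 0 + F 1 + F 2 + F 3 = (5 * C 1 - 1) * F 4 ∧ d 8 * C (1 / 2) = μ * F 4 * S (1 / 2) := by
  simp only [Fin.forall_fin_succ] at e1 e2
  simp [W, Finset.sum_filter, Fin.sum_univ_succ, -one_div] at e1 e2
  obtain ⟨a0, a1, a2, a3, a4, a5, a6, a7, a8⟩ := e1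
  obtain ⟨b0, b1, b2, b3, b4, b5⟩ := e2
  have w := h.w 1
  have w' := h.w (1 / 2)
  refine ⟨?_, ?_, ?_, ?_, ?_, ?_⟩
  · linear_combination S 1 * b0 + a0 + a4 - C 1 * a3 - F 3 * w
  · linear_combination S 1 * b1 + a1 + a5 - C 1 * a0 - F 0 * w
  · linear_combination S 1 * b2 + a2 + a6 - C 1 * a1 - F 1 * w
  · linear_combination S 1 * b3 + a3 + a7 - C 1 * a2 - F 2 * w
  · linear_combination S 1 * b4 - C 1 * (a4 + a5 + a6 + a7) - (F 0 + F 1 + F 2 + F 3) * w -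
      d 8 * h2 + 2 * S (1 / 2) * b5 - 2 * F 4 * w' - F 4 * h1
  · linear_combination -b5

lemma W_zero {C S : ℝ → ℝ} (p : S 1 ≠ 0) {F : Fin 6 → ℝ} {d : Fin 9 → ℝ}
    (e1 : ∀ e, F (W.tgt e) = F (W.src e) * C (W.len e) + d e * S (W.len e))
    (k0 : F 0 = 0) (k1 : F 1 = 0) (k2 : F 2 = 0) (k3 : F 3 = 0) (k4 : F 4 = 0) (k8 : d 8 = 0)
    (e : Fin 9) : F (W.src e) = 0 ∧ d e = 0 := by
  have := e1 e
  clear e1
  fin_cases e <;> simp [W, k0, k1, k2, k3, k4, k8, p] at this ⊢ <;> exact this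

lemma W_second : W.IsSecond ((π / 2) ^ 2) := by
  refine ⟨(W_hot 0).imp fun f h => h.1, 0, subset_antisymm ?_ ?_⟩
  · rintro μ ⟨⟨f, hf⟩, hμ⟩
    by_contra h0
    obtain ⟨C, S, h, p1, p2, p3, h1, h2, h3, -⟩ := fund_low hμ
    obtain ⟨F, d, e0, e1, e2, e, x, hx, hne⟩ := (eig_iff W (fun e => (W_len e).le) h f).1 hf
    obtain ⟨c0, c1, c2, c3, c4, c5⟩ := W_eqs h h1 h2 e1 e2
    have k4 : F 4 = 0 := by
      have : (1 - C 1) * (15 * C 1 + 2) * F 4 = 0 := by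
        linear_combination c0 + c1 + c2 + c3 - (2 - 3 * C 1) * c4
      exact (mul_eq_zero.1 this).resolve_left
        (mul_ne_zero (sub_ne_zero.2 (h3 h0).symm) (by positivity))
    have k02 : F 2 = F 0 := mul_left_cancel₀ p1.ne' (by linarith)
    have k13 : F 3 = F 1 := mul_left_cancel₀ p1.ne' (by linarith)
    rw [k4] at c4 c5
    have k0 : F 0 = 0 := by
      have : (3 * C 1 + 2) * F 0 = 0 := by linarith
      exact (mul_eq_zero.1 this).resolve_left (by positivity)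
    have k8 : d 8 = 0 := by simpa [p3.ne', -one_div] using c5
    have := W_zero p2.ne' e1 k0 (by linarith) (by linarith) (by linarith) k4 k8 e
    exact hne (by rw [e0 e x hx, this.1, this.2]; ring)
  · rintro _ rfl
    refine ⟨⟨fun _ _ => 1, (eig_iff W (fun e => (W_len e).le) fund_zero _).2
      ⟨fun _ => 1, fun _ => 0, by simp, by simp, by simp [W], 0, 0, by simp [W], by simp⟩⟩, ?_⟩
    exact (by positivity : (0 : ℝ) < (π / 2) ^ 2)

lemma W_not_hot : ¬ W.Hot ((π / 2) ^ 2) 8 (1 / 4) := by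
  rintro ⟨f, hf, h⟩
  obtain ⟨F, d, e0, e1, e2, e, x, hx, hne⟩ :=
    (eig_iff W (fun e => (W_len e).le) fund_half f).1 hf
  have p3 : cos (π / 2 * (1 / 2)) ≠ 0 :=
    (cos_pos_of_mem_Ioo ⟨by linarith [pi_pos], by linarith [pi_pos]⟩).ne'
  obtain ⟨c0, c1, c2, c3, c4, c5⟩ := W_eqs fund_half (by rw [← cos_two_mul]; congr 1; ring) (by
    have := sin_two_mul (π / 2 * (1 / 2))
    rw [show 2 * (π / 2 * (1 / 2)) = π / 2 * 1 by ring] at this
    simp only [this]; ring) e1 e2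
  simp only [mul_one, cos_pi_div_two] at c0 c1 c2 c3 c4
  have k4 : F 4 = 0 := by linarith
  have k8 : d 8 = 0 := by simpa [k4, -one_div, p3] using c5
  have z : f 8 (1 / 4) = 0 := by
    rw [e0 8 _ (by simp [W]; norm_num), k8]; simp [W, k4]
  have v : ∀ e, f e 0 = F (W.src e) := fun e => by rw [e0 e 0 ⟨le_rfl, (W_len e).le⟩]; simp
  have m : ∀ e : Fin 9, (0 : ℝ) ∈ Icc 0 (W.len e) := fun e => ⟨le_rfl, (W_len e).le⟩
  have hF : F 0 = 0 ∧ F 1 = 0 ∧ F 2 = 0 ∧ F 3 = 0 := by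
    rcases h with h | h <;>
    · have g0 := h 0 0 (m 0)
      have g1 := h 1 0 (m 1)
      have g2 := h 2 0 (m 2)
      have g3 := h 3 0 (m 3)
      rw [v, z] at g0 g1 g2 g3
      simp [W] at g0 g1 g2 g3
      refine ⟨?_, ?_, ?_, ?_⟩ <;> linarith
  have := W_zero (C := fun x => cos (π / 2 * x)) (S := fun x => sin (π / 2 * x) / (π / 2)) (by simp) e1 hF.1 hF.2.1 hF.2.2.1
    hF.2.2.2 k4 k8 e
  exact hne (by rw [e0 e x hx, this.1, this.2]; ring)

end Pool.Agent.Lib.helper11.QGraph
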