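import Mathlib

set_option autoImplicit false

namespace H11Raag

theorem unip {R : Type*} [Ring R] (T T' H a : R) (h1 : T * T' = 1) (h2 : T' * T = 1)
    (hn : IsNilpotent (T - 1)) (hn' : IsNilpotent (T' - 1))
    (hc : ∀ n : ℕ, Commute a (T' ^ n * H * T ^ n)) : Commute a (T * H * T') := by
  let E : Module.End ℤ R := LinearMap.mulLeft ℤ T' * LinearMap.mulRight ℤ T
  have hE : ∀ X, E X = T' * X * T := fun X => by simp [E, mul_assoc]
  let P : Module.End ℤ R := LinearMap.mulLeft ℤ (T' - 1)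
  let Q : Module.End ℤ R := LinearMap.mulRight ℤ (T - 1)
  have hP : IsNilpotent P := (LinearMap.isNilpotent_mulLeft_iff ℤ _).2 hn'
  have hQ : IsNilpotent Q := (LinearMap.isNilpotent_mulRight_iff ℤ _).2 hn
  have hPQ : Commute P Q := LinearMap.commute_mulLeft_right _ _
  have hE1 : 1 - E = -(P * Q + (P + Q)) := by
    ext X
    simp [E, P, Q, mul_sub, sub_mul]
    abel
  have hnil : IsNilpotent (1 - E) := by
    rw [hE1]
    apply IsNilpotent.neg
    refine Commute.isNilpotent_add ?_ (hPQ.isNilpotent_mul_right hP)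
      (hPQ.isNilpotent_add hP hQ)
    exact ((Commute.refl P).mul_left hPQ.symm).add_right (hPQ.mul_left (Commute.refl Q))
  obtain ⟨m, hm⟩ := hnil
  let U : AddSubgroup R :=
    { carrier := {X | ∀ n : ℕ, Commute a (T' ^ n * X * T ^ n)}
      zero_mem' := fun n => by simp
      add_mem' := fun {x y} hx hy n => by
        rw [mul_add, add_mul]; exact (hx n).add_right (hy n)
      neg_mem' := fun {x} hx n => by
        rw [mul_neg, neg_mul]; exact (hx n).neg_right }
  have hU : ∀ X ∈ U, (1 - E) X ∈ U := by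
    intro X hX
    rw [LinearMap.sub_apply, Module.End.one_apply]
    refine U.sub_mem hX fun n => ?_
    have := hX (n + 1)
    rw [hE]
    convert this using 1
    rw [pow_succ, pow_succ']
    simp only [mul_assoc]
  have hU' : ∀ j : ℕ, ((1 - E) ^ j) H ∈ U := by
    intro j
    induction j with
    | zero => exact hc
    | succ j ih => rw [pow_succ', Module.End.mul_apply]; exact hU _ ih
  have hsum : (∑ j ∈ Finset.range m, (1 - E) ^ j) H ∈ U := by
    rw [LinearMap.sum_apply]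
    exact U.sum_mem fun j _ => hU' j
  have hg := mul_neg_geom_sum (1 - E) m
  rw [hm, sub_zero, sub_sub_cancel] at hg
  have h3 : E ((∑ j ∈ Finset.range m, (1 - E) ^ j) H) = H := by
    rw [← Module.End.mul_apply, hg]; rfl
  rw [hE] at h3
  have h4 : T * H * T' = (∑ j ∈ Finset.range m, (1 - E) ^ j) H := by
    conv_lhs => rw [← h3]
    simp only [← mul_assoc, h1, one_mul]
    rw [mul_assoc, h1, mul_one]
  rw [h4]
  simpa using hsum 0

variable {V : Type} (Γ : SimpleGraph V)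

def rels : Set (FreeGroup V) := {r : FreeGroup V | ∃ s t, Γ.Adj s t ∧
  r = FreeGroup.of s * FreeGroup.of t * (FreeGroup.of s)⁻¹ * (FreeGroup.of t)⁻¹}

def Sw (l l' : List V) : Prop :=
  ∃ p q a b, Γ.Adj a b ∧ l = p ++ a :: b :: q ∧ l' = p ++ b :: a :: q

def Wk (k : ℕ) : Submodule ℤ (List V → ℤ) where
  carrier := {φ | (∀ l l', Sw Γ l l' → φ l = φ l') ∧ (∀ p q a, φ (p ++ a :: a :: q) = 0) ∧
    ∀ l : List V, k < l.length → φ l = 0}
  zero_mem' := by simp
  add_mem' := by
    rintro φ ψ ⟨a1, a2, a3⟩ ⟨b1, b2, b3⟩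
    refine ⟨fun l l' h => ?_, fun p q a => ?_, fun l h => ?_⟩
    · simp [a1 l l' h, b1 l l' h]
    · simp [a2, b2]
    · simp [a3 l h, b3 l h]
  smul_mem' := by
    rintro c φ ⟨a1, a2, a3⟩
    refine ⟨fun l l' h => ?_, fun p q a => ?_, fun l h => ?_⟩
    · simp [a1 l l' h]
    · simp [a2]
    · simp [a3 l h]

def D (k : ℕ) (v : V) : Module.End ℤ (Wk Γ k) where
  toFun φ := ⟨fun l => φ.1 (l ++ [v]), by
    obtain ⟨a1, a2, a3⟩ := φ.2
    refine ⟨?_, fun p q a => ?_, fun l h => a3 _ (by simp; omega)⟩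
    · rintro _ _ ⟨p, q, a, b, h, rfl, rfl⟩
      exact a1 _ _ ⟨p, q ++ [v], a, b, h, by simp, by simp⟩
    · simpa using a2 p (q ++ [v]) a⟩
  map_add' _ _ := rfl
  map_smul' _ _ := rfl

theorem D_apply (k : ℕ) (v : V) (φ : Wk Γ k) (l : List V) :
    (D Γ k v φ).1 l = φ.1 (l ++ [v]) := rfl

theorem D_sq (k : ℕ) (v : V) : D Γ k v * D Γ k v = 0 := by
  ext φ l
  simpa [D_apply] using φ.2.2.1 l [] v

theorem D_comm (k : ℕ) {u v : V} (h : Γ.Adj u v) : Commute (D Γ k u) (D Γ k v) := by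
  ext φ l
  simpa [D_apply] using φ.2.1 _ _ ⟨l, [], u, v, h, rfl, rfl⟩

def un (k : ℕ) (v : V) : (Module.End ℤ (Wk Γ k))ˣ :=
  ⟨1 + D Γ k v, 1 - D Γ k v, by
    rw [add_mul, mul_sub, mul_sub, D_sq]; simp, by
    rw [sub_mul, mul_add, mul_add, D_sq]; simp⟩

theorem un_zpow (k : ℕ) (v : V) (e : ℤ) :
    ((un Γ k v ^ e : (Module.End ℤ (Wk Γ k))ˣ) : Module.End ℤ (Wk Γ k)) = 1 + e • D Γ k v := by
  induction e using Int.induction_on with
  | zero => simp
  | succ n ih =>
    rw [zpow_add_one, Units.val_mul, ih]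
    show (1 + (n : ℤ) • D Γ k v) * (1 + D Γ k v) = _
    rw [add_mul, mul_add, mul_add, smul_mul_assoc, smul_mul_assoc, D_sq, add_smul]
    simp only [one_mul, mul_one, smul_zero, one_smul]
    abel
  | pred n ih =>
    rw [zpow_sub_one, Units.val_mul, ih]
    show (1 + (-n : ℤ) • D Γ k v) * (1 - D Γ k v) = _
    rw [add_mul, mul_sub, mul_sub, smul_mul_assoc, smul_mul_assoc, D_sq, sub_smul]
    simp only [one_mul, mul_one, smul_zero, one_smul]
    abel

def rho (k : ℕ) : PresentedGroup (rels Γ) →* (Module.End ℤ (Wk Γ k))ˣ :=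
  PresentedGroup.toGroup (f := un Γ k) (by
    rintro _ ⟨s, t, h, rfl⟩
    simp only [map_mul, map_inv, FreeGroup.lift_apply_of]
    have : Commute (un Γ k s) (un Γ k t) := by
      apply Units.ext
      have := D_comm Γ k h
      exact (((Commute.one_left _).add_left ((Commute.one_right _).add_right this))).eq
    rw [this.eq]; group)

def ev (L : List (V × ℤ)) : PresentedGroup (rels Γ) :=
  (L.map fun p => PresentedGroup.of p.1 ^ p.2).prod

theorem ev_cons (x : V × ℤ) (L : List (V × ℤ)) :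
    ev Γ (x :: L) = PresentedGroup.of x.1 ^ x.2 * ev Γ L := by simp [ev]

theorem ev_append (L M : List (V × ℤ)) : ev Γ (L ++ M) = ev Γ L * ev Γ M := by simp [ev]

theorem ev_surj (g : PresentedGroup (rels Γ)) : ∃ L, ev Γ L = g := by
  have hg : g ∈ Subgroup.closure (Set.range (PresentedGroup.of : V → PresentedGroup (rels Γ))) := by
    rw [PresentedGroup.closure_range_of]; trivial
  induction hg using Subgroup.closure_induction'' with
  | mem x hx => obtain ⟨v, rfl⟩ := hx; exact ⟨[(v, 1)], by simp [ev]⟩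
  | inv_mem x hx => obtain ⟨v, rfl⟩ := hx; exact ⟨[(v, -1)], by simp [ev]⟩
  | one => exact ⟨[], rfl⟩
  | mul x y _ _ hx hy =>
    obtain ⟨L, rfl⟩ := hx
    obtain ⟨M, rfl⟩ := hy
    exact ⟨L ++ M, ev_append Γ L M⟩

theorem rho_cons (k : ℕ) (x : V × ℤ) (L : List (V × ℤ)) (φ : Wk Γ k) (l : List V) :
    ((rho Γ k (ev Γ (x :: L))).1 φ).1 l =
      ((rho Γ k (ev Γ L)).1 φ).1 l + x.2 * ((rho Γ k (ev Γ L)).1 φ).1 (l ++ [x.1]) := by
  rw [ev_cons, map_mul, map_zpow, Units.val_mul]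
  have : rho Γ k (PresentedGroup.of x.1) = un Γ k x.1 := PresentedGroup.toGroup.of _
  rw [this, un_zpow]
  rfl

theorem rho_nil (k : ℕ) (φ : Wk Γ k) : (rho Γ k (ev Γ [])).1 φ = φ := by
  simp [ev]

theorem rho_low (k : ℕ) (L : List (V × ℤ)) (φ : Wk Γ k) (j : ℕ)
    (h : ∀ l : List V, j + 1 ≤ l.length → φ.1 l = 0) :
    ∀ l : List V, j ≤ l.length → ((rho Γ k (ev Γ L)).1 φ).1 l = φ.1 l := by
  induction L with
  | nil => intro l _; rw [rho_nil]
  | cons x L ih =>
    intro l hl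
    rw [rho_cons, ih l hl, ih _ (by simp; omega), h (l ++ [x.1]) (by simp; omega)]
    simp

theorem rho_nilp (k : ℕ) (g : PresentedGroup (rels Γ)) : IsNilpotent ((rho Γ k g).1 - 1) := by
  obtain ⟨L, rfl⟩ := ev_surj Γ g
  have : ∀ (i : ℕ) (φ : Wk Γ k) (l : List V), k + 1 ≤ l.length + i →
      ((((rho Γ k (ev Γ L)).1 - 1) ^ i) φ).1 l = 0 := by
    intro i
    induction i with
    | zero => intro φ l hl; exact φ.2.2.2 l hl
    | succ i ih =>
      intro φ l hl
      rw [pow_succ', Module.End.mul_apply, LinearMap.sub_apply]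
      have := rho_low Γ k L ((((rho Γ k (ev Γ L)).1 - 1) ^ i) φ) l.length
        (fun l' hl' => ih φ l' (by omega)) l le_rfl
      simp only [Submodule.coe_sub, Pi.sub_apply, this, Module.End.one_apply, sub_self]
  refine ⟨k + 1, ?_⟩
  ext φ l
  exact this (k + 1) φ l (by omega)

theorem rho_top (k : ℕ) (φ : Wk Γ k) (h : ∀ l : List V, l.length ≠ k → φ.1 l = 0)
    (L : List (V × ℤ)) : ∀ l : List V, l.length + L.length ≤ k →
      ((rho Γ k (ev Γ L)).1 φ).1 l = (L.map Prod.snd).prod * φ.1 (l ++ L.map Prod.fst) := by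
  induction L with
  | nil => intro l _; rw [rho_nil]; simp
  | cons x L ih =>
    intro l hl
    simp only [List.length_cons] at hl
    rw [rho_cons, ih l (by omega), ih _ (by simp; omega), h _ (by simp; omega)]
    simp [mul_assoc]

theorem lift_sw (m m' : List V) (h : Relation.ReflTransGen (Sw Γ) m m') (L : List (V × ℤ))
    (hL : L.map Prod.fst = m) :
    ∃ L' : List (V × ℤ), L'.map Prod.fst = m' ∧ ev Γ L' = ev Γ L ∧ L'.length = L.length := by
  induction h with
  | refl => exact ⟨L, hL, rfl, rfl⟩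
  | tail _ h ih =>
    obtain ⟨L', h1, h2, h3⟩ := ih
    obtain ⟨p, q, a, b, hab, rfl, rfl⟩ := h
    obtain ⟨P, Q, rfl, rfl, hQ⟩ := List.map_eq_append_iff.1 h1
    obtain ⟨x, Q, rfl, rfl, hQ'⟩ := List.map_eq_cons_iff.1 hQ
    obtain ⟨y, Q, rfl, rfl, rfl⟩ := List.map_eq_cons_iff.1 hQ'
    refine ⟨P ++ y :: x :: Q, by simp, ?_, by rw [← h3]; simp⟩
    rw [← h2, ev_append, ev_append, ev_cons, ev_cons, ev_cons, ev_cons]
    have hc : Commute (PresentedGroup.of x.1 : PresentedGroup (rels Γ)) (PresentedGroup.of y.1) := by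
      have : (PresentedGroup.mk (rels Γ)) (FreeGroup.of x.1 * FreeGroup.of y.1 *
          (FreeGroup.of x.1)⁻¹ * (FreeGroup.of y.1)⁻¹) = 1 :=
        PresentedGroup.one_of_mem ⟨x.1, y.1, hab, rfl⟩
      simp only [map_mul, map_inv] at this
      rw [mul_inv_eq_one, mul_inv_eq_iff_eq_mul] at this
      exact this
    rw [← mul_assoc (PresentedGroup.of y.1 ^ y.2), ← (hc.zpow_zpow x.2 y.2).eq, mul_assoc]

theorem rho_ne (g : PresentedGroup (rels Γ)) (hg : g ≠ 1) : ∃ k, rho Γ k g ≠ 1 := by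
  classical
  have hex : ∃ n, ∃ L : List (V × ℤ), ev Γ L = g ∧ L.length = n := by
    obtain ⟨L, hL⟩ := ev_surj Γ g
    exact ⟨_, L, hL, rfl⟩
  obtain ⟨L, hL, hk⟩ := Nat.find_spec hex
  have hmin : ∀ L' : List (V × ℤ), ev Γ L' = g → L.length ≤ L'.length := fun L' h =>
    hk ▸ Nat.find_min' hex ⟨L', h, rfl⟩
  set m := L.map Prod.fst with hm
  have hlen : ∀ l, Relation.ReflTransGen (Sw Γ) m l → l.length = L.length := by
    intro l h
    obtain ⟨L', h1, -, h3⟩ := lift_sw Γ m l h L rfl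
    rw [← h1, List.length_map, h3]
  let φ : Wk Γ L.length := ⟨fun l => if Relation.ReflTransGen (Sw Γ) m l then 1 else 0, by
    refine ⟨fun l l' h => ?_, fun p q a => if_neg fun h => ?_, fun l hl => if_neg fun h => ?_⟩
    · have h' : Sw Γ l' l := by
        obtain ⟨p, q, a, b, hab, rfl, rfl⟩ := h
        exact ⟨p, q, b, a, hab.symm, rfl, rfl⟩
      exact if_congr ⟨fun x => x.tail h, fun x => x.tail h'⟩ rfl rfl
    · obtain ⟨L', h1, h2, h3⟩ := lift_sw Γ m _ h L rfl
      obtain ⟨P, Q, rfl, rfl, hQ⟩ := List.map_eq_append_iff.1 h1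
      obtain ⟨x, Q, rfl, rfl, hQ'⟩ := List.map_eq_cons_iff.1 hQ
      obtain ⟨y, Q, rfl, hy, rfl⟩ := List.map_eq_cons_iff.1 hQ'
      have := hmin (P ++ (x.1, x.2 + y.2) :: Q) (by
        rw [← hL, ← h2, ev_append, ev_append, ev_cons, ev_cons, ev_cons, hy, zpow_add, mul_assoc])
      rw [← h3] at this
      simp at this
    · have := hlen l h
      omega⟩
  have hφ : ∀ l : List V, l.length ≠ L.length → φ.1 l = 0 := fun l hl =>
    if_neg fun h => hl (hlen l h)
  refine ⟨L.length, fun h => ?_⟩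
  have h1 := rho_top Γ L.length φ hφ L [] (by simp)
  rw [hL, h] at h1
  have h2 : φ.1 ([] ++ L.map Prod.fst) = 1 := if_pos Relation.ReflTransGen.refl
  have h3 : φ.1 [] = 0 := hφ _ (by
    intro h0
    have : L = [] := List.length_eq_zero_iff.1 h0.symm
    rw [this] at hL
    exact hg hL.symm)
  rw [h2, mul_one] at h1
  have h4 : (L.map Prod.snd).prod = 0 := h1.symm.trans h3
  rw [List.prod_eq_zero_iff] at h4
  obtain ⟨x, hx, hx0⟩ := List.mem_map.1 h4
  obtain ⟨P, Q, rfl⟩ := List.append_of_mem hx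
  have := hmin (P ++ Q) (by
    rw [← hL, ev_append, ev_append, ev_cons, hx0, zpow_zero, one_mul])
  simp at this

/-- In a right-angled Artin group, commuting with all forward conjugates forces commuting with the
backward conjugate. -/
theorem raag_commute (a t h : PresentedGroup (rels Γ))
    (hc : ∀ n : ℕ, Commute a (t⁻¹ ^ n * h * t ^ n)) : Commute a (t * h * t⁻¹) := by
  by_contra hne
  obtain ⟨k, hk⟩ := rho_ne Γ (a * (t * h * t⁻¹) * ((t * h * t⁻¹) * a)⁻¹) (by
    rw [Ne, mul_inv_eq_one]; exact hne)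
  apply hk
  rw [map_mul, map_inv, mul_inv_eq_one]
  apply Units.ext
  have := unip (rho Γ k t).1 (rho Γ k t⁻¹).1 (rho Γ k h).1 (rho Γ k a).1
    (by rw [← Units.val_mul, ← map_mul]; simp) (by rw [← Units.val_mul, ← map_mul]; simp)
    (rho_nilp Γ k _) (rho_nilp Γ k _) (fun n => by
      have := congrArg (fun x => (rho Γ k x).1) (hc n).eq
      simp only [map_mul, map_pow, Units.val_mul, Units.val_pow_eq_pow_val] at this
      exact this)
  simpa only [map_mul, Units.val_mul] using this.eq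

end H11Raag
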