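import Mathlib

namespace Pool.Agent.Rains

/-- The group `SU(2)`. -/
abbrev SU2 := Matrix.specialUnitaryGroup (Fin 2) ℂ

/-- `e^{2πi x}`. -/
noncomputable def ex (x : ℝ) : ℂ := Complex.exp (2 * Real.pi * Complex.I * x)

/-- A continuous finite-dimensional complex representation of `SU(2)`, written in a basis of
weight vectors: the torus element `diag(e^{2πix}, e^{-2πix})` acts as `diag(e^{2πi wt_k x})`. -/
structure Rep where
  dim : ℕ
  R : SU2 →* Matrix (Fin dim) (Fin dim) ℂ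
  cont : Continuous R
  wt : Fin dim → ℤ
  hwt : ∀ (x : ℝ) (g : SU2), g.1 = Matrix.diagonal ![ex x, ex (-x)] →
    R g = Matrix.diagonal (fun k => ex (wt k * x))

/-- Non-chiral data for `G = SU(2)` (roots `±2`): R-charges in `(0,2)`, both anomaly conditions,
and the nonzero weights pair up as `±ρ`. -/
def Data {n : ℕ} (R : Fin n → Rep) (r : Fin n → ℝ) : Prop :=
  (∀ j, 0 < r j ∧ r j < 2) ∧
  (∑ j, ∑ k, (R j).wt k ^ 3 = 0) ∧
  (∑ j, (r j - 1) * ∑ k, ((R j).wt k : ℝ) ^ 2 + ((2 : ℝ) ^ 2 + (-2) ^ 2) = 0) ∧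
  ∀ w : ℤ, w ≠ 0 → ∑ j, (Finset.univ.filter fun k => (R j).wt k = w).card =
    ∑ j, (Finset.univ.filter fun k => (R j).wt k = -w).card

/-- `ϑ(x) = {x}(1-{x})`. -/
noncomputable def th (x : ℝ) : ℝ := Int.fract x * (1 - Int.fract x)

/-- The Rains function (the only positive root is `2`). -/
noncomputable def L {n : ℕ} (R : Fin n → Rep) (r : Fin n → ℝ) (x : ℝ) : ℝ :=
  1 / 2 * ∑ j, (1 - r j) * ∑ k, th ((R j).wt k * x) - th (2 * x)

/-- `Tr R = dim G + ∑ (r_j - 1) dim R_j` with `dim SU(2) = 3`. -/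
noncomputable def TrR {n : ℕ} (R : Fin n → Rep) (r : Fin n → ℝ) : ℝ :=
  3 + ∑ j, (r j - 1) * (R j).dim

def s2 (g : Matrix (Fin 2) (Fin 2) ℂ) : Matrix (Fin 3) (Fin 3) ℂ :=
  !![g 0 0 ^ 2, 2 * g 0 0 * g 0 1, g 0 1 ^ 2;
    g 0 0 * g 1 0, g 0 0 * g 1 1 + g 0 1 * g 1 0, g 0 1 * g 1 1;
    g 1 0 ^ 2, 2 * g 1 0 * g 1 1, g 1 1 ^ 2]

def s3 (g : Matrix (Fin 2) (Fin 2) ℂ) : Matrix (Fin 4) (Fin 4) ℂ :=
  !![g 0 0 ^ 3, 3 * g 0 0 ^ 2 * g 0 1, 3 * g 0 0 * g 0 1 ^ 2, g 0 1 ^ 3;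
    g 0 0 ^ 2 * g 1 0, g 0 0 ^ 2 * g 1 1 + 2 * g 0 0 * g 0 1 * g 1 0,
      2 * g 0 0 * g 0 1 * g 1 1 + g 0 1 ^ 2 * g 1 0, g 0 1 ^ 2 * g 1 1;
    g 0 0 * g 1 0 ^ 2, 2 * g 0 0 * g 1 0 * g 1 1 + g 0 1 * g 1 0 ^ 2,
      g 0 0 * g 1 1 ^ 2 + 2 * g 0 1 * g 1 0 * g 1 1, g 0 1 * g 1 1 ^ 2;
    g 1 0 ^ 3, 3 * g 1 0 ^ 2 * g 1 1, 3 * g 1 0 * g 1 1 ^ 2, g 1 1 ^ 3]

lemma ex_add (x y : ℝ) : ex (x + y) = ex x * ex y := by
  simp only [ex]; rw [← Complex.exp_add]; congr 1; push_cast; ring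

lemma ex_zero : ex 0 = 1 := by simp [ex]

lemma ce (i j : Fin 2) : Continuous fun g : SU2 => g.1 i j :=
  (continuous_apply j).comp ((continuous_apply i).comp continuous_subtype_val)

lemma s2_mul (g h : Matrix (Fin 2) (Fin 2) ℂ) : s2 (g * h) = s2 g * s2 h := by
  ext i j
  fin_cases i <;> fin_cases j <;> simp [s2, Matrix.mul_apply, Fin.sum_univ_succ] <;> ring

lemma s3_mul (g h : Matrix (Fin 2) (Fin 2) ℂ) : s3 (g * h) = s3 g * s3 h := by
  ext i j
  fin_cases i <;> fin_cases j <;> simp [s3, Matrix.mul_apply, Fin.sum_univ_succ] <;> ring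

lemma s2_one : s2 1 = 1 := by ext i j; fin_cases i <;> fin_cases j <;> simp [s2]

lemma s3_one : s3 1 = 1 := by ext i j; fin_cases i <;> fin_cases j <;> simp [s3]

lemma cs2 {X : Type} [TopologicalSpace X] (a b c d : X → ℂ) (ha : Continuous a)
    (hb : Continuous b) (hc : Continuous c) (hd : Continuous d) :
    Continuous fun x => s2 !![a x, b x; c x, d x] := by
  refine continuous_pi fun i => continuous_pi fun j => ?_
  fin_cases i <;> fin_cases j <;> simp [s2] <;> fun_prop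

lemma cs3 {X : Type} [TopologicalSpace X] (a b c d : X → ℂ) (ha : Continuous a)
    (hb : Continuous b) (hc : Continuous c) (hd : Continuous d) :
    Continuous fun x => s3 !![a x, b x; c x, d x] := by
  refine continuous_pi fun i => continuous_pi fun j => ?_
  fin_cases i <;> fin_cases j <;> simp [s3] <;> fun_prop

noncomputable def adj : Rep where
  dim := 3
  R := { toFun := fun g => s2 g.1
         map_one' := s2_one
         map_mul' := fun g h => s2_mul g.1 h.1 }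
  cont := by
    have := cs2 _ _ _ _ (ce 0 0) (ce 0 1) (ce 1 0) (ce 1 1)
    simp only [← Matrix.eta_fin_two] at this
    exact this
  wt := ![2, 0, -2]
  hwt := fun x g hg => by
    have e1 : ex (2 * x) = ex x ^ 2 := by rw [two_mul, ex_add]; ring
    have e2 : ex (-(2 * x)) = ex (-x) ^ 2 := by
      rw [show -(2 * x) = -x + -x by ring, ex_add]; ring
    have e3 : ex x * ex (-x) = 1 := by rw [← ex_add]; simp [ex_zero]
    show s2 g.1 = _
    rw [hg]
    ext i j
    fin_cases i <;> fin_cases j <;> simp [s2, e1, e2, e3, ex_zero]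

noncomputable def quad : Rep where
  dim := 4
  R := { toFun := fun g => s3 g.1
         map_one' := s3_one
         map_mul' := fun g h => s3_mul g.1 h.1 }
  cont := by
    have := cs3 _ _ _ _ (ce 0 0) (ce 0 1) (ce 1 0) (ce 1 1)
    simp only [← Matrix.eta_fin_two] at this
    exact this
  wt := ![3, 1, -1, -3]
  hwt := fun x g hg => by
    have e1 : ex (3 * x) = ex x ^ 3 := by
      rw [show 3 * x = x + (x + x) by ring, ex_add, ex_add]; ring
    have e2 : ex (-(3 * x)) = ex (-x) ^ 3 := by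
      rw [show -(3 * x) = -x + (-x + -x) by ring, ex_add, ex_add]; ring
    have e3 : ex x * ex (-x) = 1 := by rw [← ex_add]; simp [ex_zero]
    show s3 g.1 = _
    rw [hg]
    ext i j
    fin_cases i <;> fin_cases j <;> simp [s3, e1, e2]
    · linear_combination (ex x) * e3
    · linear_combination (ex (-x)) * e3

noncomputable def R0 : Fin 4 → Rep := ![adj, adj, adj, quad]

noncomputable def r0 : Fin 4 → ℝ := ![1 / 4, 1 / 4, 1 / 4, 3 / 2]

lemma sum_adj {M : Type} [AddCommMonoid M] (f : ℤ → M) :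
    ∑ k, f (adj.wt k) = f 2 + f 0 + f (-2) := Fin.sum_univ_three _

lemma sum_quad {M : Type} [AddCommMonoid M] (f : ℤ → M) :
    ∑ k, f (quad.wt k) = f 3 + f 1 + f (-1) + f (-3) := Fin.sum_univ_four _

lemma sum0 {M : Type} [AddCommMonoid M] (F : Rep → ℝ → M) :
    ∑ j, F (R0 j) (r0 j) = F adj (1 / 4) + F adj (1 / 4) + F adj (1 / 4) + F quad (3 / 2) :=
  Fin.sum_univ_four _

lemma data0 : Data R0 r0 := by
  refine ⟨fun j => by fin_cases j <;> simp [r0] <;> norm_num, ?_, ?_, fun w hw => ?_⟩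
  · rw [sum0 (fun R _ => ∑ k, R.wt k ^ 3), sum_adj (fun w => w ^ 3), sum_quad (fun w => w ^ 3)]
    norm_num
  · rw [sum0 (fun R r => (r - 1) * ∑ k, (R.wt k : ℝ) ^ 2), sum_adj (fun w => (w : ℝ) ^ 2),
      sum_quad (fun w => (w : ℝ) ^ 2)]
    norm_num
  · simp only [Finset.card_filter]
    have ha : (∑ k, if adj.wt k = w then 1 else 0 : ℕ) = ∑ k, if adj.wt k = -w then 1 else 0 := by
      rw [sum_adj (fun u => if u = w then 1 else 0), sum_adj (fun u => if u = -w then 1 else 0)]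
      split_ifs <;> omega
    have hq : (∑ k, if quad.wt k = w then 1 else 0 : ℕ) = ∑ k, if quad.wt k = -w then 1 else 0 := by
      rw [sum_quad (fun u => if u = w then 1 else 0), sum_quad (fun u => if u = -w then 1 else 0)]
      split_ifs <;> omega
    rw [sum0 (fun R _ => ∑ k, if R.wt k = w then 1 else 0),
      sum0 (fun R _ => ∑ k, if R.wt k = -w then 1 else 0), ha, hq]

lemma th_neg (x : ℝ) : th (-x) = th x := by
  by_cases h : Int.fract x = 0
  · simp [th, h, Int.fract_neg_eq_zero.2 h]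
  · rw [th, th, Int.fract_neg h]; ring

lemma th_pos (x : ℝ) (h0 : 0 ≤ x) (h1 : x < 1) : th x = x * (1 - x) := by
  rw [th, Int.fract_eq_self.2 ⟨h0, h1⟩]

lemma L0 (x : ℝ) : L R0 r0 x = 5 / 4 * th (2 * x) - 1 / 2 * (th (3 * x) + th x) := by
  rw [L, sum0 (fun R r => (1 - r) * ∑ k, th (R.wt k * x)), sum_adj (fun w => th (w * x)),
    sum_quad (fun w => th (w * x))]
  have : th 0 = 0 := by simp [th]
  simp [th_neg, this]
  ring

lemma L0_half : L R0 r0 (1 / 2) < 0 := by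
  have e1 : th (2 * (1 / 2)) = 0 := by norm_num [th]
  have e2 : th (3 * (1 / 2)) = 1 / 4 := by
    have : (3 * (1 / 2) : ℝ) = 1 / 2 + (1 : ℤ) := by norm_num
    rw [th, this, Int.fract_add_intCast, Int.fract_eq_self.2 (by norm_num)]; norm_num
  rw [L0, e1, e2, th_pos _ (by norm_num) (by norm_num)]
  norm_num

lemma L0_pos (x : ℝ) (h0 : 0 < |x|) (h1 : |x| < 1 / 3) : 0 < L R0 r0 x := by
  have key : ∀ y : ℝ, 0 < y → y < 1 / 3 → 0 < L R0 r0 y := by
    intro y a b
    rw [L0, th_pos _ (by linarith) (by linarith), th_pos _ (by linarith) (by linarith),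
      th_pos _ (by linarith) (by linarith)]
    nlinarith
  rcases le_total 0 x with h | h
  · rw [abs_of_nonneg h] at h0 h1; exact key x h0 h1
  · rw [abs_of_nonpos h] at h0 h1
    have := key _ h0 h1
    rw [L0, mul_neg, mul_neg, th_neg, th_neg, th_neg] at this
    rwa [L0]

lemma TrR0 : TrR R0 r0 = -7 / 4 := by
  rw [TrR, sum0 (fun R r => (r - 1) * R.dim)]
  norm_num [adj, quad]

end Pool.Agent.Rains
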