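import Mathlib

/-! Cellular automata over monoids: an injective automaton has a left inverse automaton. -/

namespace Pool.Agent.Surj

variable {M Q A ι κ : Type} [Monoid M] [Monoid Q]

def ca (s : ι → M) (μ : (ι → A) → A) (x : M → A) (m : M) : A := μ fun i => x (s i * m)

def LI (s : ι → M) (f : κ → M) (μ : (ι → A) → A) (ν : (κ → A) → A) : Prop :=
  ∀ x : M → A, ν (fun k => μ fun i => x (s i * f k)) = x 1

variable {s : ι → M} {f : κ → M} {μ : (ι → A) → A} {ν : (κ → A) → A}

lemma LI.map (h : LI s f μ ν) (φ : M →* Q) : LI (fun i => φ (s i)) (fun k => φ (f k)) μ ν :=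
  fun x => by simpa using h fun m => x (φ m)

lemma LI.comap (φ : M →* Q) (h : LI (fun i => φ (s i)) (fun k => φ (f k)) μ ν) (T : Set M)
    (hφ : T.InjOn φ) (h1 : 1 ∈ T) (hT : ∀ i k, s i * f k ∈ T) : LI s f μ ν := fun x => by
  have e := hφ.leftInvOn_invFunOn
  have := h fun q => x (Function.invFunOn φ T q)
  simp only [← map_mul, e (hT _ _)] at this
  rwa [← map_one φ, e h1] at this

lemma LI.left (h : LI s f μ ν) (x : M → A) : ca f ν (ca s μ x) = x := funext fun m => by
  simpa [ca, mul_assoc] using h fun a => x (a * m)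

lemma LI.swap (h : LI s f μ ν) (h' : Function.Surjective (ca s μ)) : LI f s ν μ := fun y => by
  obtain ⟨x, rfl⟩ := h' y
  have := congrFun (congrArg (ca s μ) (h.left x)) 1
  simpa [ca] using this

lemma ex_LI [Finite A] [Nonempty A] (h : Function.Injective (ca s μ)) [Finite ι] :
    ∃ (F : Finset M) (ν : (F → A) → A), LI s (fun k : F => k.1) μ ν := by
  classical
  letI : TopologicalSpace A := ⊥
  haveI : DiscreteTopology A := ⟨rfl⟩
  have c : ∀ m, Continuous fun x => ca s μ x m := fun m =>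
    (continuous_of_discreteTopology (f := μ)).comp (by fun_prop)
  obtain ⟨F, hF⟩ := (isClosed_eq (f := fun p : (M → A) × (M → A) => decide (p.1 1 = p.2 1))
    (g := fun _ => false) ((continuous_of_discreteTopology
      (f := fun q : A × A => decide (q.1 = q.2))).comp (f := fun p : (M → A) × (M → A) => (p.1 1, p.2 1))
      (by fun_prop)) continuous_const).isCompact.elim_finite_subfamily_closed
    (fun m => {p | ca s μ p.1 m = ca s μ p.2 m})
    (fun m => isClosed_eq ((c m).comp continuous_fst) ((c m).comp continuous_snd)) (by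
      refine Set.eq_empty_of_forall_notMem fun p ⟨h1, h2⟩ => ?_
      simp [h (funext (Set.mem_iInter.1 h2))] at h1)
  have k : ∀ x y : M → A, (∀ m ∈ F, ca s μ x m = ca s μ y m) → x 1 = y 1 := fun x y e => by
    by_contra n
    exact Set.eq_empty_iff_forall_notMem.1 hF (x, y) ⟨by simpa using n, by simpa using e⟩
  refine ⟨F, fun g => Function.invFun (fun x (k : F) => ca s μ x k) g 1, fun x => k _ _ fun m hm => ?_⟩
  exact congrFun (Function.invFun_eq (f := fun x (k : F) => ca s μ x k) ⟨x, rfl⟩) ⟨m, hm⟩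

theorem main [Finite A] [Finite ι] (H : ∀ T : Finset M, ∃ N : Submonoid M, (T : Set M) ⊆ N ∧
      ∀ (κ : Type) [Finite κ] (s : ι → N) (f : κ → N) (ν : (κ → A) → A), LI s f μ ν → LI f s ν μ)
    (h : Function.Injective (ca s μ)) : Function.Surjective (ca s μ) := by
  classical
  rcases isEmpty_or_nonempty A with hA | hA
  · exact fun y => hA.elim (y 1)
  obtain ⟨F, ν, h1⟩ := ex_LI h
  obtain ⟨N, h2, h3⟩ := H ((Set.finite_range s).toFinset ∪ F)
  have := (h3 F (fun i => ⟨s i, h2 (by simp)⟩) (fun k => ⟨k.1, h2 (by simp)⟩) ν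
    (LI.comap N.subtype h1 Set.univ N.subtype_injective.injOn trivial fun _ _ => trivial)).map N.subtype
  exact fun y => ⟨_, this.left y⟩

lemma LI.fin [Finite A] [Finite M] (h : LI s f μ ν) : LI f s ν μ :=
  h.swap (Finite.injective_iff_surjective.1 (Function.LeftInverse.injective h.left))

lemma rf {R : Type} [CommRing R] [Algebra (ZMod 2) R] [Algebra.FiniteType (ZMod 2) R] (r : R) :
    ∃ I : Ideal R, Finite (R ⧸ I) ∧ (r ∈ I → r = 0) := by
  by_cases h : r = 0
  · exact ⟨⊤, inferInstance, fun _ => h⟩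
  haveI := Algebra.FiniteType.isNoetherianRing (ZMod 2) R
  obtain ⟨m, hm, h1⟩ := Ideal.exists_le_maximal (LinearMap.ker (LinearMap.toSpanSingleton R R r))
    ((Ideal.ne_top_iff_one _).2 (by simpa using h))
  letI := Ideal.Quotient.field m
  haveI := finite_of_finite_type_of_isJacobsonRing (ZMod 2) (R ⧸ m)
  haveI := Module.finite_of_finite (ZMod 2) (M := R ⧸ m)
  by_contra! n
  obtain ⟨a, ha⟩ := (m.mem_iInf_smul_pow_eq_bot_iff r).1 (Submodule.mem_iInf _ |>.2 fun i => by
    simpa using (n _ (Ideal.finite_quotient_pow (IsNoetherian.noetherian m) i)).1)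
  refine hm.ne_top ((Ideal.eq_top_iff_one _).2 ?_)
  simpa using m.add_mem (h1 (show 1 - a.1 ∈ _ by simpa [sub_mul, sub_eq_zero] using ha.symm)) a.2

lemma LI.comm {N : Type} [CommMonoid N] [Monoid.FG N] [Finite A] [Finite ι] [Finite κ] {s : ι → N}
    {f : κ → N} (h : LI s f μ ν) : LI f s ν μ := by
  let T : Set N := insert 1 (Set.range fun p : κ × ι => f p.1 * s p.2)
  haveI : Finite T := (Set.finite_range _).insert _
  let o := MonoidAlgebra.of (ZMod 2) N
  choose I h1 h2 using fun p : T × T => rf (o p.1 - o p.2)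
  let φ : N →* ∀ p : T × T, MonoidAlgebra (ZMod 2) N ⧸ I p :=
    MonoidHom.pi fun p => (Ideal.Quotient.mk (I p)).toMonoidHom.comp o
  refine LI.comap φ (h.map φ).fin T (fun a ha b hb e => ?_) (.inl rfl) fun k i => .inr ⟨(k, i), rfl⟩
  exact MonoidAlgebra.of_injective (sub_eq_zero.1 (h2 (⟨a, ha⟩, ⟨b, hb⟩)
    (Ideal.Quotient.eq.1 (congrFun e (⟨a, ha⟩, ⟨b, hb⟩)))))

end Pool.Agent.Surj
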