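import Mathlib

/-! The form `10H ⊕ E₈` arises from a class in `H⁴(ℤ⁸)`. -/

namespace Pool.Agent.TorE8

open ExteriorAlgebra

abbrev V := Fin 8 → ℤ
abbrev I := (Fin 2 × Fin 10) ⊕ Fin 8

noncomputable def e (i : Fin 8) : ExteriorAlgebra ℤ V := ι ℤ (Pi.single i 1)
noncomputable def E (l : List (Fin 8)) : ExteriorAlgebra ℤ V := (l.map e).prod

def ins (a : Fin 8) : List (Fin 8) → ℤ × List (Fin 8)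
  | [] => (1, [a])
  | b :: l => if a < b then (1, a :: b :: l) else if a = b then (0, b :: l) else
      (-(ins a l).1, b :: (ins a l).2)

def nrm : List (Fin 8) → ℤ × List (Fin 8)
  | [] => (1, [])
  | a :: l => ((nrm l).1 * (ins a (nrm l).2).1, (ins a (nrm l).2).2)

lemma anti (a b : Fin 8) : e a * e b = -(e b * e a) :=
  eq_neg_of_add_eq_zero_left (ι_add_mul_swap _ _)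

lemma E_cons (a : Fin 8) (l : List (Fin 8)) : E (a :: l) = e a * E l := by simp [E]

lemma ins_eq (a : Fin 8) (l : List (Fin 8)) : e a * E l = (ins a l).1 • E (ins a l).2 := by
  induction l with
  | nil => simp [ins, E]
  | cons b l ih =>
    unfold ins
    split_ifs with h1 h2
    · simp [E_cons]
    · subst h2
      rw [E_cons, ← mul_assoc, e, ι_sq_zero]; simp
    · rw [E_cons, ← mul_assoc, anti, neg_mul, mul_assoc, ih, E_cons, mul_smul_comm, neg_smul]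

lemma nrm_eq (l : List (Fin 8)) : E l = (nrm l).1 • E (nrm l).2 := by
  induction l with
  | nil => simp [nrm]
  | cons a l ih => rw [E_cons, ih, mul_smul_comm, ins_eq, smul_smul]; rfl

lemma E_mem (l : List (Fin 8)) : E l ∈ ⋀[ℤ]^l.length V := by
  induction l with
  | nil => exact Submodule.mem_one.2 ⟨1, rfl⟩
  | cons a l ih =>
    rw [E_cons, List.length_cons, exteriorPower, pow_succ']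
    exact Submodule.mul_mem_mul ⟨_, rfl⟩ ih

def full : List (Fin 8) := [0, 1, 2, 3, 4, 5, 6, 7]

def om : List (ℤ × List (Fin 8)) :=
  [(1, [4,5,6,7]), (1, [3,4,5,7]), (1, [2,5,6,7]), (-1, [2,4,5,6]), (1, [2,3,6,7]), (1, [2,3,5,7]), (-1, [2,3,4,6]), (-1, [1,5,6,7]), (-1, [1,4,5,7]), (-1, [1,4,5,6]), (-1, [1,3,5,7]), (1, [1,2,5,6]), (-1, [1,2,4,6]), (-1, [1,2,3,5]), (1, [0,5,6,7]), (-1, [0,4,6,7]), (-1, [0,4,5,7]), (1, [0,2,6,7]), (-1, [0,2,5,7]), (-1, [0,2,3,4]), (-1, [0,1,5,6]), (-1, [0,1,4,5]), (-1, [0,1,3,6]), (-1, [0,1,3,5]), (-1, [0,1,3,4]), (1, [0,1,2,7]), (-1, [0,1,2,4]), (-1, [0,1,2,3])]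

def prs : List (Fin 8 × Fin 8) := [(0,1), (0,2), (0,3), (0,4), (0,5), (0,6), (0,7), (1,2), (1,3), (1,4), (1,5), (1,6), (1,7), (2,3), (2,4), (2,5), (2,6), (2,7), (3,4), (3,5), (3,6), (3,7), (4,5), (4,6), (4,7), (5,6), (5,7), (6,7)]
def pr (p : Fin 28) : Fin 8 × Fin 8 := prs.getD p (0, 0)
def at2 (L : List (List ℤ)) (a p : ℕ) : ℤ := (L.getD a []).getD p 0
def idx : I → ℕ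
  | .inl a => 10 * a.1 + a.2
  | .inr a => 20 + a

def G : List (List ℤ) :=
  [[0,0,0,0,0,0,0,0,0,0,0,0,0,1,0,0,-1,0,1,0,0,1,1,-1,0,0,1,0],
   [0,0,0,0,0,0,0,0,-1,0,0,1,0,0,0,0,0,0,1,0,1,-1,0,-1,0,0,0,0],
   [0,0,0,0,0,0,0,1,0,-1,0,0,-1,0,-1,0,-1,1,0,0,0,0,0,0,1,0,1,0],
   [0,0,0,0,0,0,0,0,1,0,-1,1,0,1,0,0,1,0,0,0,0,-1,0,0,0,0,0,1],
   [0,0,0,0,0,0,0,0,0,1,0,0,-1,0,0,0,0,0,0,0,0,-1,0,0,0,0,0,0],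
   [0,0,0,0,0,0,0,-1,0,-1,0,0,0,1,-1,0,0,0,0,0,0,0,0,0,-1,0,0,0],
   [0,0,0,0,0,0,0,0,1,0,1,0,0,-1,0,0,0,0,1,1,0,0,0,1,0,0,0,0],
   [0,0,1,0,0,-1,0,0,0,0,0,0,0,0,0,0,0,0,1,1,-1,0,0,0,0,0,0,0],
   [0,-1,0,1,0,0,1,0,0,0,0,0,0,0,-1,-1,1,0,0,0,0,0,-1,-1,0,0,0,0],
   [0,0,-1,0,1,-1,0,0,0,0,0,0,0,1,0,0,0,0,0,1,1,0,0,0,0,0,0,0],
   [0,0,0,-1,0,0,1,0,0,0,0,0,0,1,0,0,0,0,-1,0,0,0,0,0,0,0,0,1],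
   [0,1,0,1,0,0,0,0,0,0,0,0,0,-1,0,0,0,0,-1,0,0,0,0,0,0,0,-1,0],
   [0,0,-1,0,-1,0,0,0,0,0,0,0,0,0,0,0,0,0,0,0,0,0,0,0,0,1,0,0],
   [1,0,0,1,0,1,-1,0,0,1,1,-1,0,0,0,0,0,0,0,0,0,0,0,0,-1,0,0,-1],
   [0,0,-1,0,0,-1,0,0,-1,0,0,0,0,0,0,0,0,0,0,0,0,1,0,0,0,0,-1,1],
   [0,0,0,0,0,0,0,0,-1,0,0,0,0,0,0,0,0,0,0,0,0,0,0,0,1,0,0,-1],
   [-1,0,-1,1,0,0,0,0,1,0,0,0,0,0,0,0,0,0,0,0,0,1,0,0,-1,0,1,0],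
   [0,0,1,0,0,0,0,0,0,0,0,0,0,0,0,0,0,0,-1,0,-1,0,-1,1,0,-1,0,0],
   [1,1,0,0,0,0,1,1,0,0,-1,-1,0,0,0,0,0,-1,0,0,0,0,0,0,0,1,0,0],
   [0,0,0,0,0,0,1,1,0,1,0,0,0,0,0,0,0,0,0,0,0,0,0,-1,0,0,0,1],
   [0,1,0,0,0,0,0,-1,0,1,0,0,0,0,0,0,0,-1,0,0,0,0,1,0,0,0,-1,0],
   [1,-1,0,-1,-1,0,0,0,0,0,0,0,0,0,1,0,1,0,0,0,0,0,0,0,0,1,0,0],
   [1,0,0,0,0,0,0,0,-1,0,0,0,0,0,0,0,0,-1,0,0,1,0,0,0,0,0,0,-1],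
   [-1,-1,0,0,0,0,1,0,-1,0,0,0,0,0,0,0,0,1,0,-1,0,0,0,0,0,0,1,0],
   [0,0,1,0,0,-1,0,0,0,0,0,0,0,-1,0,1,-1,0,0,0,0,0,0,0,0,-1,0,0],
   [0,0,0,0,0,0,0,0,0,0,0,0,1,0,0,0,0,-1,1,0,0,1,0,0,-1,0,0,0],
   [1,0,1,0,0,0,0,0,0,0,0,-1,0,0,-1,0,1,0,0,0,-1,0,0,1,0,0,0,0],
   [0,0,0,1,0,0,0,0,0,0,1,0,0,-1,1,-1,0,0,0,1,0,0,-1,0,0,0,0,0]]

def P : List (List ℤ) :=
  [[0,0,0,0,0,0,0,0,0,0,0,0,0,0,0,0,0,0,0,0,0,0,0,0,0,0,0,1],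
   [0,0,0,0,0,0,0,0,0,0,0,0,0,0,0,0,0,0,0,0,0,0,0,0,0,0,1,0],
   [0,0,0,0,0,0,0,0,0,0,0,0,0,0,0,0,0,0,0,0,0,0,0,0,0,1,0,0],
   [0,0,0,0,0,0,0,0,0,0,0,0,0,-1,0,1,0,0,0,0,0,0,0,0,0,0,0,0],
   [0,0,0,0,0,0,0,0,0,0,0,0,0,0,0,0,0,0,1,0,0,-1,0,0,0,0,0,0],
   [0,0,0,0,0,0,0,0,0,0,0,0,1,0,0,0,0,0,0,0,0,-1,0,0,0,0,0,0],
   [0,0,0,0,0,0,0,0,-1,1,0,0,0,0,0,0,0,0,0,0,0,0,0,0,0,0,1,1],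
   [0,0,0,0,0,0,0,0,0,0,0,0,1,0,0,-1,0,0,0,0,0,-1,1,0,0,0,1,0],
   [1,0,-1,0,0,0,0,1,0,0,0,1,0,0,0,0,0,0,0,0,-1,0,0,0,0,-1,-1,0],
   [1,0,-1,0,0,-1,0,2,0,0,1,1,1,0,0,-1,0,0,0,-1,-1,-1,1,0,0,-1,-1,0],
   [0,0,0,0,0,0,0,0,0,0,0,0,0,-1,0,0,0,0,0,0,0,0,0,0,0,0,0,0],
   [0,0,0,0,0,0,0,0,0,0,0,0,0,0,0,0,0,0,0,0,-1,0,0,0,0,0,0,0],
   [0,0,0,0,0,0,0,0,0,0,0,0,0,0,0,0,0,0,0,0,0,1,0,0,0,0,0,0],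
   [0,0,0,0,0,0,0,0,-1,0,0,0,0,0,0,0,0,0,0,0,0,0,0,0,0,0,0,0],
   [0,0,0,0,0,0,0,1,0,0,0,0,0,0,0,0,0,0,0,0,0,0,0,0,0,0,-1,0],
   [0,0,-1,0,0,0,0,0,0,0,0,0,0,0,0,0,0,0,0,0,-1,0,0,0,0,0,0,0],
   [0,0,0,0,1,0,0,-1,0,0,0,0,0,0,0,0,0,0,0,0,0,0,0,0,0,1,1,0],
   [0,0,0,0,0,0,0,0,-1,-1,0,0,-1,0,0,0,0,0,0,0,0,0,0,0,-1,0,-1,0],
   [1,0,-1,0,1,0,1,0,-1,0,0,1,0,-1,0,0,0,1,0,0,-1,0,1,0,-1,0,0,0],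
   [-2,0,2,0,0,0,0,-1,0,0,1,-1,-1,1,0,1,0,-1,-1,0,1,1,-1,0,0,2,1,0],
   [0,1,0,-1,0,-1,0,0,0,0,0,0,-1,0,0,-1,0,1,0,-1,0,1,-1,0,-1,0,-1,-1],
   [-1,1,1,0,0,-1,0,0,1,0,1,0,0,0,0,0,1,0,0,-1,1,0,0,0,0,1,1,-1],
   [-1,0,1,0,0,1,1,-2,0,0,0,-1,0,0,0,1,0,0,0,1,1,0,0,0,0,1,2,0],
   [0,-1,-1,0,-2,1,-1,2,-1,0,-2,-1,0,0,0,-1,0,0,0,2,0,0,1,0,0,-3,-2,1],
   [3,0,-2,0,3,-2,1,0,1,0,2,3,2,-1,0,-1,-1,0,0,-3,-3,-2,1,0,0,1,1,-1],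
   [0,0,0,0,3,0,0,-2,0,-1,2,1,-2,0,0,3,0,-2,-1,-1,-2,1,-2,-1,0,3,1,0],
   [3,3,-3,-1,0,-5,1,3,2,-1,5,2,2,1,1,-3,1,0,1,-6,-3,-3,1,-1,0,-3,0,-2],
   [-7,-4,8,2,-6,10,-3,-3,-4,4,-12,-6,-2,0,-2,3,-1,3,0,13,11,6,-2,3,1,2,-2,5]]

def H : List (List ℤ) :=
  [[0,0,0,1,0,0,0,0,0,0,1,0,0,-1,1,-1,0,0,0,1,0,0,-1,0,0,0,0,0],
   [1,0,1,0,0,0,0,0,0,0,0,-1,0,0,-1,0,1,0,0,0,-1,0,0,1,0,0,0,0],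
   [0,0,0,0,0,0,0,0,0,0,0,0,1,0,0,0,0,-1,1,0,0,1,0,0,-1,0,0,0],
   [-1,0,0,-1,0,-1,1,0,-1,-1,-1,1,0,0,0,0,0,0,0,0,0,0,0,0,2,0,0,0],
   [0,2,0,1,1,0,1,1,0,0,-1,-1,0,0,-1,0,-1,-1,0,0,0,0,0,0,0,0,0,0],
   [-1,1,-1,1,0,0,0,0,0,0,0,0,0,0,-1,0,-1,0,0,0,0,0,0,0,0,0,0,0],
   [1,1,0,0,1,-1,-1,0,0,0,1,-1,0,0,1,0,0,0,0,2,0,0,0,2,0,0,0,0],
   [1,1,0,1,0,0,0,0,0,0,0,-1,0,0,-2,0,0,-1,0,0,0,0,0,1,-1,0,0,0],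
   [-1,0,0,1,0,-1,0,0,0,0,0,1,0,0,2,0,-1,1,0,1,0,0,0,-2,0,0,0,0],
   [-1,1,0,1,0,-2,0,0,0,0,0,1,0,0,2,0,-2,0,0,2,0,0,0,-1,0,0,0,0],
   [-1,0,0,-1,0,-1,1,0,0,-1,-1,1,0,0,0,0,0,0,0,0,0,0,0,0,1,0,0,1],
   [0,-1,0,0,0,0,0,1,0,-1,0,0,0,0,0,0,0,1,0,0,0,0,-1,0,0,0,1,0],
   [1,-1,0,-1,-1,0,0,0,0,0,0,0,0,0,1,0,1,0,0,0,0,0,0,0,0,1,0,0],
   [0,1,0,-1,0,0,-1,0,0,0,0,0,0,0,1,1,-1,0,0,0,0,0,1,1,0,0,0,0],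
   [-1,0,0,0,0,-1,0,0,0,0,0,1,0,0,1,0,-1,0,1,1,0,0,0,-1,0,0,0,0],
   [0,-1,0,0,0,0,0,0,0,0,0,0,1,0,1,0,1,0,0,0,0,0,-1,0,-1,0,0,0],
   [1,0,0,0,0,1,0,0,0,1,0,-1,0,0,-1,0,1,-1,0,-1,0,0,0,1,-1,0,0,0],
   [-1,1,0,-1,0,2,-1,0,0,0,0,1,0,0,2,0,-1,0,0,-1,0,0,1,0,0,0,0,0],
   [0,1,0,-1,0,0,0,0,0,0,0,1,0,0,2,0,0,-1,0,1,0,0,0,2,0,0,0,0],
   [1,-2,0,-2,0,2,-1,0,0,0,2,-1,0,0,-2,0,2,1,0,-1,0,0,0,2,0,0,0,0],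
   [-1,-1,0,-2,0,1,-1,0,0,0,0,1,0,0,2,0,0,1,0,-1,0,0,0,0,0,0,0,0],
   [0,0,0,0,0,0,1,0,0,0,-1,0,0,0,-3,0,2,-1,0,-1,0,0,0,1,0,0,0,0],
   [2,0,0,-1,0,2,1,0,0,0,1,-2,0,0,-4,0,2,-1,0,-1,0,0,0,3,0,0,0,0],
   [-1,0,0,1,0,-2,-1,0,0,0,0,1,0,0,4,0,-2,1,0,2,0,0,0,-3,0,0,0,0],
   [0,1,0,1,0,-1,1,0,0,0,-1,0,0,0,-1,0,-1,-1,0,0,0,0,0,1,0,0,0,0],
   [0,-2,0,-2,0,3,-1,0,0,0,1,0,0,0,0,0,2,1,0,-2,0,0,0,0,0,0,0,0],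
   [0,2,0,2,0,-2,0,0,0,0,0,0,0,0,1,0,-2,0,0,2,0,0,0,-1,0,0,0,0],
   [0,0,0,0,0,0,0,0,0,0,0,0,0,0,-1,0,0,0,0,0,0,0,0,0,0,0,0,0]]

def C : List (List ℤ) :=
  [[-1,0,1,0,-1,0,1,-1,0,1,0,1,0,-1,0,-1,1,1,-1,-1,0,0,1,0,0,0,0,0],
   [0,-1,-1,1,0,-1,0,1,1,-2,0,0,0,0,2,1,1,1,0,1,0,1,1,2,2,1,2,1],
   [0,0,0,0,0,0,0,0,0,0,0,1,0,0,0,-1,0,0,0,0,0,0,0,0,0,0,0,0],
   [-1,0,-1,-1,0,0,0,-1,-1,-2,1,0,0,-1,1,1,0,1,1,1,-1,1,0,2,2,1,2,1],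
   [0,0,-1,0,0,0,0,0,0,0,0,0,0,0,1,0,1,0,0,0,0,0,0,0,0,0,0,0],
   [-1,0,0,0,-1,0,1,2,0,2,0,0,0,-1,0,0,-1,0,-1,-2,0,-2,-1,-4,-3,-1,-2,-1],
   [1,0,0,-1,0,0,0,-1,0,-1,0,0,0,1,1,0,-1,0,0,0,0,1,1,1,1,0,0,0],
   [0,1,0,0,0,0,0,0,0,0,0,0,0,0,1,0,0,0,0,0,0,0,0,0,0,0,0,0],
   [0,0,0,0,0,0,0,0,0,0,0,0,0,-1,0,0,0,0,0,0,0,0,0,0,0,0,0,0],
   [-1,-1,0,0,0,0,1,0,0,0,0,0,0,-1,0,0,0,0,0,0,0,0,0,0,0,0,0,0],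
   [-1,0,0,0,0,0,0,0,0,2,1,0,0,-1,-1,0,1,0,0,0,0,-1,0,-1,-1,0,0,0],
   [1,0,0,0,1,0,-1,1,1,-1,0,-1,0,1,-1,0,-1,-1,1,1,0,0,-1,0,0,0,0,0],
   [0,0,0,0,0,1,0,0,0,0,0,0,1,0,0,0,0,0,0,0,0,0,0,0,0,0,0,0],
   [0,0,0,0,0,0,0,0,0,0,-1,0,0,0,0,0,0,0,0,0,0,0,0,0,0,0,0,0],
   [0,0,1,1,1,1,-1,2,2,-2,1,-1,0,0,-1,-1,1,-2,2,2,-1,-3,-4,-3,-3,-2,-1,-1],
   [0,0,0,1,0,0,0,0,0,0,-1,0,0,0,0,0,0,0,0,0,0,0,0,0,0,0,0,0],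
   [0,0,1,-1,-1,1,1,-1,0,2,0,1,0,0,-1,-1,0,0,-1,-2,0,0,0,-2,-2,-1,-2,-1],
   [0,1,0,0,0,0,-1,0,-1,1,0,0,-1,0,-1,0,0,-1,1,0,0,-1,-1,-1,-1,0,0,0],
   [0,0,0,0,1,0,0,0,0,0,0,0,1,0,0,0,0,0,0,0,0,0,0,0,0,0,0,0],
   [0,0,0,0,1,0,-1,-1,1,-1,1,0,0,0,0,0,2,0,1,2,0,1,1,3,2,1,2,1],
   [0,0,0,0,0,0,0,0,0,0,0,-1,0,0,0,0,0,0,0,0,0,0,0,0,0,0,0,0],
   [0,0,0,0,0,0,0,0,0,0,0,0,1,0,0,0,0,0,0,0,0,0,0,0,0,0,0,0],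
   [0,-1,0,1,0,-1,0,1,0,0,-1,0,0,0,0,0,0,0,0,0,0,0,0,0,0,0,0,0],
   [0,0,0,1,-1,0,1,0,2,2,0,1,0,0,0,0,2,1,-2,-1,0,-1,0,-3,-2,-2,-2,-1],
   [1,0,0,0,0,-1,-1,0,0,0,0,0,-1,2,0,0,0,-1,0,0,0,0,0,0,0,0,0,0],
   [0,0,1,0,0,0,0,0,0,0,0,0,0,0,0,0,0,0,0,0,0,0,0,0,0,0,0,0],
   [0,1,0,0,0,0,0,0,0,0,0,0,0,0,0,0,0,0,0,0,0,0,0,0,0,0,0,0],
   [1,0,0,0,0,0,0,0,0,0,0,0,0,0,0,0,0,0,0,0,0,0,0,0,0,0,0,0]]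

def cat (p q : Fin 28) (l : List (Fin 8)) := nrm ((pr p).1 :: (pr p).2 :: (pr q).1 :: (pr q).2 :: l)

lemma d1 : ∀ p q : Fin 28, (∀ t ∈ om, (cat p q t.2).1 = 0 ∨ (cat p q t.2).2 = full) ∧
    (om.map fun t => t.1 * (cat p q t.2).1).sum = at2 G p q := by decide +kernel

lemma d2 : ∀ (a : I) (q : Fin 28), ∑ p : Fin 28, at2 P (idx a) p * at2 G p q = at2 H (idx a) q := by
  decide +kernel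

/-- Gram matrix of the hyperbolic plane `H`. -/
def Hyp : Matrix (Fin 2) (Fin 2) ℤ := !![0, 1; 1, 0]

/-- Gram matrix of `10H ⊕ E₈`. -/
def Mx : Matrix I I ℤ :=
  Matrix.fromBlocks (Matrix.blockDiagonal fun _ : Fin 10 => Hyp) 0 0 CartanMatrix.E₈

/-- The generator `e₁ ∧ ⋯ ∧ e₈` of `H⁸(ℤ⁸)`. -/
noncomputable def T : ExteriorAlgebra ℤ V := ιMulti ℤ 8 fun k => Pi.single k 1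

/-- `Hᵏ(ℤ⁸) = Λᵏ ℤ⁸` inside the exterior algebra. -/
noncomputable abbrev Coh (k : ℕ) : Submodule ℤ (ExteriorAlgebra ℤ V) := ⋀[ℤ]^k V

/-- `x ∧ y ∧ ω = c [T]`, that is `φ_ω(x, y) = c`. -/
def Pairs (ω : Coh 4) (x y : Coh 2) (c : ℤ) : Prop := x.1 * y.1 * ω.1 = c • T

def Mz (a b : I) : ℤ := Mx a b

lemma d3 : ∀ a b : I, ∑ q : Fin 28, at2 H (idx a) q * at2 P (idx b) q = Mz a b := by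
  decide +kernel

lemma d4 : ∀ p q : Fin 28, ∑ a : I, at2 C p (idx a) * at2 P (idx a) q = if q = p then 1 else 0 := by
  decide +kernel

lemma d5 : ∀ i j : Fin 8, i = j ∨ ∃ p, pr p = (i, j) ∨ pr p = (j, i) := by decide +kernel

noncomputable def w : ExteriorAlgebra ℤ V := (om.map fun t => t.1 • E t.2).sum
noncomputable def ee (p : Fin 28) : ⋀[ℤ]^2 V := ⟨E [(pr p).1, (pr p).2], E_mem [_, _]⟩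
noncomputable def bb (a : I) : ⋀[ℤ]^2 V := ∑ p : Fin 28, at2 P (idx a) p • ee p

lemma hG (p q : Fin 28) : (ee p : ExteriorAlgebra ℤ V) * ee q * w = at2 G p q • E full := by
  obtain ⟨h1, h2⟩ := d1 p q
  rw [← h2, w]
  generalize om = L at h1
  induction L with
  | nil => simp
  | cons t L ih =>
    rw [List.map_cons, List.sum_cons, mul_add, ih fun s hs => h1 s (.tail _ hs), List.map_cons,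
      List.sum_cons, add_smul, mul_smul_comm, mul_smul]
    have : (ee p : ExteriorAlgebra ℤ V) * ee q * E t.2 = (cat p q t.2).1 • E (cat p q t.2).2 := by
      rw [cat, ← nrm_eq]; simp [ee, E, mul_assoc]
    rw [this]
    rcases h1 t (.head _) with h | h <;> simp [h]

lemma span : ⊤ ≤ Submodule.span ℤ (Set.range bb) := by
  have h1 : ∀ p, ee p ∈ Submodule.span ℤ (Set.range bb) := fun p => by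
    have : ee p = ∑ a : I, at2 C p (idx a) • bb a := by
      simp only [bb, Finset.smul_sum, smul_smul]
      rw [Finset.sum_comm]
      simp only [← Finset.sum_smul, d4, ite_smul, one_smul, zero_smul, Finset.sum_ite_eq',
        Finset.mem_univ, if_true]
    rw [this]
    exact Submodule.sum_mem _ fun a _ => Submodule.smul_mem _ _ (Submodule.subset_span ⟨a, rfl⟩)
  set S := (Submodule.span ℤ (Set.range bb)).map (⋀[ℤ]^2 V).subtype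
  have h2 : ∀ i j, e i * e j ∈ S := fun i j => by
    rcases d5 i j with rfl | ⟨p, h | h⟩
    · rw [e, ι_sq_zero]; exact S.zero_mem
    · exact ⟨_, h1 p, by simp [ee, E, h]⟩
    · rw [anti]; exact S.neg_mem ⟨_, h1 p, by simp [ee, E, h]⟩
  have h3 : ∀ u : V, ι ℤ u = ∑ i, u i • e i := fun u => by
    conv_lhs => rw [pi_eq_sum_univ' u]
    simp only [map_sum, map_smul, e]
  have h4 : ⋀[ℤ]^2 V ≤ S := by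
    rw [exteriorPower, pow_two, Submodule.mul_le]
    rintro _ ⟨u, rfl⟩ _ ⟨v, rfl⟩
    rw [h3, h3, Finset.sum_mul_sum]
    refine S.sum_mem fun i _ => S.sum_mem fun j _ => ?_
    rw [smul_mul_smul_comm]
    exact S.smul_mem _ (h2 i j)
  intro x _
  obtain ⟨y, hy, h⟩ := h4 x.2
  rwa [← Subtype.ext h]

/-- There are `ω ∈ Λ⁴ ℤ⁸` and a `ℤ`-basis of `Λ² ℤ⁸` in which `x ∧ y ∧ ω = φ(x, y) e₁ ∧ ⋯ ∧ e₈`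
has the Gram matrix of `10H ⊕ E₈`. -/
theorem main : ∃ (ω : Coh 4) (b : Module.Basis I ℤ (Coh 2)), ∀ i j,
    Pairs ω (b i) (b j) (Mx i j) := by
  refine ⟨⟨w, list_sum_mem fun x hx => ?_⟩, basisOfTopLeSpanOfCardEqFinrank bb span ?_, fun i j => ?_⟩
  · obtain ⟨t, ht, rfl⟩ := List.mem_map.1 hx
    have := E_mem t.2
    rw [(by decide : ∀ t ∈ om, t.2.length = 4) t ht] at this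
    exact Submodule.smul_mem _ _ this
  · rw [exteriorPower.finrank_eq]; simp; rfl
  · have : T = E full := by rw [T, ιMulti_apply]; rfl
    change Pairs _ _ _ (Mz i j)
    rw [Pairs, this, ← d3, coe_basisOfTopLeSpanOfCardEqFinrank]
    simp only [bb, ← d2, Submodule.coe_sum, Submodule.coe_smul, Finset.sum_mul, Finset.mul_sum,
      mul_smul_comm, smul_mul_assoc, hG, smul_smul, Finset.sum_smul, Finset.smul_sum]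
    exact Finset.sum_congr rfl fun q _ => Finset.sum_congr rfl fun p _ => by congr 1; ring

end Pool.Agent.TorE8
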